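import Pool.Agent.Lib_MP_8bb00a_gt.EAlg

/-!
Covariant Wirtinger derivatives (piece A1 of the existence part).
-/

open MeasureTheory Complex Set Metric Filter Topology
open scoped Real ContDiff ComplexConjugate Manifold

noncomputable section

namespace Pool.Agent.Lib8bb

section pre

variable {V : Type*} [NormedAddCommGroup V] [NormedSpace ℂ V]

theorem contDiffOn_dz {U : Set ℂ} (hU : IsOpen U) {f : ℂ → V} {n m : ℕ∞ω}
    (hf : ContDiffOn ℝ n f U) (h : m + 1 ≤ n) : ContDiffOn ℝ m (dz f) U := by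
  have h1 : ContDiffOn ℝ m (fderiv ℝ f) U := hf.fderiv_of_isOpen hU h
  have h2 : ContDiffOn ℝ m (fun z => fderiv ℝ f z 1) U := h1.clm_apply contDiffOn_const
  have h3 : ContDiffOn ℝ m (fun z => fderiv ℝ f z I) U := h1.clm_apply contDiffOn_const
  exact ((h2.sub ((contDiffOn_const (c := I)).smul h3))).const_smul (1/2 : ℂ)

theorem contDiffOn_dzb {U : Set ℂ} (hU : IsOpen U) {f : ℂ → V} {n m : ℕ∞ω}
    (hf : ContDiffOn ℝ n f U) (h : m + 1 ≤ n) : ContDiffOn ℝ m (dzb f) U := by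
  have h1 : ContDiffOn ℝ m (fderiv ℝ f) U := hf.fderiv_of_isOpen hU h
  have h2 : ContDiffOn ℝ m (fun z => fderiv ℝ f z 1) U := h1.clm_apply contDiffOn_const
  have h3 : ContDiffOn ℝ m (fun z => fderiv ℝ f z I) U := h1.clm_apply contDiffOn_const
  exact ((h2.add ((contDiffOn_const (c := I)).smul h3))).const_smul (1/2 : ℂ)

theorem ContDiffOn.diffAt {W : Type*} [NormedAddCommGroup W] [NormedSpace ℝ W] {U : Set ℂ}
    (hU : IsOpen U) {f : ℂ → W} {n : ℕ∞ω} (hf : ContDiffOn ℝ n f U) (hn : 1 ≤ n) {z : ℂ}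
    (hz : z ∈ U) : DifferentiableAt ℝ f z :=
  (hf.contDiffAt (hU.mem_nhds hz)).differentiableAt (by
    intro h; rw [h] at hn; simp at hn)

/-- the Wirtinger derivatives of a `C²` function commute -/
theorem dz_dzb_comm {U : Set ℂ} (hU : IsOpen U) {f : ℂ → V} (hf : ContDiffOn ℝ 2 f U)
    {z : ℂ} (hz : z ∈ U) : dz (dzb f) z = dzb (dz f) z := by
  have h1 : ContDiffOn ℝ 1 (fderiv ℝ f) U := hf.fderiv_of_isOpen hU (by norm_num)
  have hd : DifferentiableAt ℝ (fderiv ℝ f) z := ContDiffOn.diffAt hU h1 le_rfl hz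
  have hsymm : ∀ v w : ℂ, fderiv ℝ (fderiv ℝ f) z v w = fderiv ℝ (fderiv ℝ f) z w v := by
    intro v w
    have := (hf.contDiffAt (hU.mem_nhds hz)).isSymmSndFDerivAt (n := 2) (by simp)
    exact this v w
  have hap : ∀ v w : ℂ, fderiv ℝ (fun x => fderiv ℝ f x v) z w
      = fderiv ℝ (fderiv ℝ f) z w v := by
    intro v w
    rw [fderiv_clm_apply hd (differentiableAt_const v)]
    simp
  have hdv : ∀ v : ℂ, DifferentiableAt ℝ (fun x => fderiv ℝ f x v) z := fun v =>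
    hd.clm_apply (differentiableAt_const v)
  have hdI : DifferentiableAt ℝ (fun x => I • fderiv ℝ f x I) z := (hdv I).const_smul I
  have e1 : fderiv ℝ (dzb f) z = (1 / 2 : ℂ) • (fderiv ℝ (fun x => fderiv ℝ f x 1) z +
      I • fderiv ℝ (fun x => fderiv ℝ f x I) z) := by
    have : (dzb f) = fun x => (1 / 2 : ℂ) • (fderiv ℝ f x 1 + I • fderiv ℝ f x I) := rfl
    rw [this, fderiv_fun_const_smul ((hdv 1).fun_add hdI), fderiv_fun_add (hdv 1) hdI,
      fderiv_fun_const_smul (hdv I)]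
  have e2 : fderiv ℝ (dz f) z = (1 / 2 : ℂ) • (fderiv ℝ (fun x => fderiv ℝ f x 1) z -
      I • fderiv ℝ (fun x => fderiv ℝ f x I) z) := by
    have : (dz f) = fun x => (1 / 2 : ℂ) • (fderiv ℝ f x 1 - I • fderiv ℝ f x I) := rfl
    rw [this, fderiv_fun_const_smul ((hdv 1).fun_sub hdI), fderiv_fun_sub (hdv 1) hdI,
      fderiv_fun_const_smul (hdv I)]
  rw [dz, dzb, e1, e2]
  simp only [smul_apply, add_apply, sub_apply, hap]
  rw [hsymm 1 I]
  module

end pre

section A1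

variable {𝔸 : Type*} [NormedRing 𝔸] [NormedAlgebra ℂ 𝔸] [StarRing 𝔸] [StarModule ℂ 𝔸]
  [NormedStarGroup 𝔸] [TrAlg 𝔸]

omit [TrAlg 𝔸] in
theorem diffAt_star {w : ℂ → 𝔸} {z : ℂ} (hw : DifferentiableAt ℝ w z) :
    DifferentiableAt ℝ (fun x => star (w x)) z :=
  ((starL' ℝ : 𝔸 ≃L[ℝ] 𝔸) : 𝔸 →L[ℝ] 𝔸).differentiableAt.comp z hw

omit [TrAlg 𝔸] in
theorem contDiffOn_star {U : Set ℂ} {w : ℂ → 𝔸} {n : ℕ∞ω} (hw : ContDiffOn ℝ n w U) :
    ContDiffOn ℝ n (fun x => star (w x)) U :=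
  ((starL' ℝ : 𝔸 ≃L[ℝ] 𝔸) : 𝔸 →L[ℝ] 𝔸).contDiff.comp_contDiffOn hw

omit [TrAlg 𝔸] in
/-- `D''(w^*) = (D'w)^*` -/
theorem Db_star {B w : ℂ → 𝔸} {z : ℂ} (hw : DifferentiableAt ℝ w z) :
    Db B (fun x => star (w x)) z = star (Dd B w z) := by
  rw [Db, Dd, dzb_star hw]
  simp only [star_sub, star_mul, star_star]
  abel

omit [TrAlg 𝔸] in
theorem Dd_star {B w : ℂ → 𝔸} {z : ℂ} (hw : DifferentiableAt ℝ w z) :
    Dd B (fun x => star (w x)) z = star (Db B w z) := by
  rw [Db, Dd, dz_star hw]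
  simp only [star_sub, star_add, star_mul]
  abel

omit [StarRing 𝔸] [StarModule ℂ 𝔸] [NormedStarGroup 𝔸] [TrAlg 𝔸] in
theorem Db_mul {B v w : ℂ → 𝔸} {z : ℂ} (hv : DifferentiableAt ℝ v z)
    (hw : DifferentiableAt ℝ w z) :
    Db B (fun x => v x * w x) z = Db B v z * w z + v z * Db B w z := by
  simp only [Db]
  rw [dzb_mul hv hw]
  noncomm_ring

omit [StarModule ℂ 𝔸] [NormedStarGroup 𝔸] [TrAlg 𝔸] in
theorem Dd_mul {B v w : ℂ → 𝔸} {z : ℂ} (hv : DifferentiableAt ℝ v z)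
    (hw : DifferentiableAt ℝ w z) :
    Dd B (fun x => v x * w x) z = Dd B v z * w z + v z * Dd B w z := by
  simp only [Dd]
  rw [dz_mul hv hw]
  noncomm_ring

omit [TrAlg 𝔸] in
/-- commutation -/
theorem Db_Dd_comm {U : Set ℂ} (hU : IsOpen U) {B w : ℂ → 𝔸} (hB : ContDiffOn ℝ 1 B U)
    (hw : ContDiffOn ℝ 2 w U) {z : ℂ} (hz : z ∈ U) :
    Db B (Dd B w) z - Dd B (Db B w) z = -(Fc B z * w z - w z * Fc B z) := by
  have hBd := ContDiffOn.diffAt hU hB le_rfl hz
  have hBs := diffAt_star hBd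
  have hwd := ContDiffOn.diffAt hU hw one_le_two hz
  have hdz := ContDiffOn.diffAt hU (contDiffOn_dz hU hw (m := 1) (by norm_num)) le_rfl hz
  have hdzb := ContDiffOn.diffAt hU (contDiffOn_dzb hU hw (m := 1) (by norm_num)) le_rfl hz
  have e1 : dzb (Dd B w) z = dzb (dz w) z - ((dzb (fun x => star (B x)) z * w z +
      star (B z) * dzb w z) - (dzb w z * star (B z) + w z * dzb (fun x => star (B x)) z)) := by
    have : (Dd B w) = fun x => dz w x - (star (B x) * w x - w x * star (B x)) := rfl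
    rw [this, dzb_sub hdz ((hBs.fun_mul hwd).fun_sub (hwd.fun_mul hBs)),
      dzb_sub (hBs.fun_mul hwd) (hwd.fun_mul hBs),
      dzb_mul hBs hwd, dzb_mul hwd hBs]
  have e2 : dz (Db B w) z = dz (dzb w) z + ((dz B z * w z + B z * dz w z) -
      (dz w z * B z + w z * dz B z)) := by
    have : (Db B w) = fun x => dzb w x + (B x * w x - w x * B x) := rfl
    rw [this, dz_add hdzb ((hBd.fun_mul hwd).fun_sub (hwd.fun_mul hBd)),
      dz_sub (hBd.fun_mul hwd) (hwd.fun_mul hBd),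
      dz_mul hBd hwd, dz_mul hwd hBd]
  have e3 : Db B (Dd B w) z = dzb (Dd B w) z + (B z * Dd B w z - Dd B w z * B z) := rfl
  have e4 : Dd B (Db B w) z = dz (Db B w) z - (star (B z) * Db B w z - Db B w z * star (B z)) :=
    rfl
  rw [e3, e4, e1, e2, dz_dzb_comm hU hw hz]
  simp only [Db, Dd, Fc]
  noncomm_ring

omit [TrAlg 𝔸] in
theorem Fc_star {U : Set ℂ} (hU : IsOpen U) {B : ℂ → 𝔸} (hB : ContDiffOn ℝ 1 B U)
    {z : ℂ} (hz : z ∈ U) : star (Fc B z) = Fc B z := by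
  have hBd := ContDiffOn.diffAt hU hB le_rfl hz
  simp only [Fc, star_add, star_sub, star_mul, star_star]
  rw [dzb_star hBd, star_star]
  abel

omit [StarRing 𝔸] [StarModule ℂ 𝔸] [NormedStarGroup 𝔸] [TrAlg 𝔸] in
theorem dzb_Gi {U : Set ℂ} (hU : IsOpen U) {G Gi : ℂ → 𝔸} (hG : ContDiffOn ℝ 1 G U)
    (hGi : ContDiffOn ℝ 1 Gi U) (h1 : ∀ z ∈ U, G z * Gi z = 1) (h2 : ∀ z ∈ U, Gi z * G z = 1)
    {z : ℂ} (hz : z ∈ U) : dzb Gi z = -(Gi z * dzb G z * Gi z) := by
  have hGd := ContDiffOn.diffAt hU hG le_rfl hz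
  have hGid := ContDiffOn.diffAt hU hGi le_rfl hz
  have h3 : dzb (fun x => G x * Gi x) z = 0 := by
    rw [dzb_congr (g := fun _ => (1 : 𝔸)) (by
      filter_upwards [hU.mem_nhds hz] with y hy using h1 y hy)]
    exact dzb_const _ _
  rw [dzb_mul hGd hGid] at h3
  have h4 : Gi z * (dzb G z * Gi z + G z * dzb Gi z) = 0 := by rw [h3, mul_zero]
  have h5 : Gi z * (G z * dzb Gi z) = dzb Gi z := by rw [← mul_assoc, h2 z hz, one_mul]
  rw [mul_add, h5] at h4
  rw [eq_neg_iff_add_eq_zero, add_comm, mul_assoc]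
  exact h4

omit [StarRing 𝔸] [NormedStarGroup 𝔸] [StarModule ℂ 𝔸] [TrAlg 𝔸] in
/-- holomorphic frame -/
theorem Db_frame {U : Set ℂ} (hU : IsOpen U) {G Gi w : ℂ → 𝔸} (hG : ContDiffOn ℝ 1 G U)
    (hGi : ContDiffOn ℝ 1 Gi U) (h1 : ∀ z ∈ U, G z * Gi z = 1) (h2 : ∀ z ∈ U, Gi z * G z = 1)
    {z : ℂ} (hz : z ∈ U) (hw : DifferentiableAt ℝ w z) :
    dzb (fun x => G x * w x * Gi x) z = G z * Db (fun x => Gi x * dzb G x) w z * Gi z := by
  have hGd := ContDiffOn.diffAt hU hG le_rfl hz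
  have hGid := ContDiffOn.diffAt hU hGi le_rfl hz
  rw [dzb_mul (hGd.fun_mul hw) hGid, dzb_mul hGd hw, dzb_Gi hU hG hGi h1 h2 hz]
  simp only [Db]
  have e : G z * (dzb w z + (Gi z * dzb G z * w z - w z * (Gi z * dzb G z))) * Gi z =
      G z * dzb w z * Gi z + (G z * Gi z) * dzb G z * w z * Gi z
        - G z * w z * Gi z * dzb G z * Gi z := by noncomm_ring
  rw [e, h1 z hz]
  noncomm_ring

omit [TrAlg 𝔸] in
/-- antiholomorphic frame -/
theorem Dd_frame {U : Set ℂ} (hU : IsOpen U) {G Gi w : ℂ → 𝔸} (hG : ContDiffOn ℝ 1 G U)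
    (hGi : ContDiffOn ℝ 1 Gi U) (h1 : ∀ z ∈ U, G z * Gi z = 1) (h2 : ∀ z ∈ U, Gi z * G z = 1)
    {z : ℂ} (hz : z ∈ U) (hw : DifferentiableAt ℝ w z) :
    dz (fun x => star (Gi x) * w x * star (G x)) z =
      star (Gi z) * Dd (fun x => Gi x * dzb G x) w z * star (G z) := by
  have hGd := ContDiffOn.diffAt hU hG le_rfl hz
  have hGid := ContDiffOn.diffAt hU hGi le_rfl hz
  have hws := diffAt_star hw
  have h3 : (fun x => star (Gi x) * w x * star (G x)) =
      fun x => star (G x * star (w x) * Gi x) := by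
    funext x
    simp only [star_mul, star_star, mul_assoc]
  rw [h3, dz_star ((hGd.fun_mul hws).fun_mul hGid), Db_frame hU hG hGi h1 h2 hz hws, Db_star hw]
  simp only [star_mul, star_star, mul_assoc]

/-- a function which is continuous on `U` times a test function supported in `U` -/
theorem continuous_bilin {E F H : Type*} [NormedAddCommGroup E] [NormedSpace ℝ E]
    [NormedAddCommGroup F] [NormedSpace ℝ F] [NormedAddCommGroup H] [NormedSpace ℝ H]
    (L : E →L[ℝ] F →L[ℝ] H) {U : Set ℂ} (hU : IsOpen U) {f : ℂ → E} {g : ℂ → F}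
    (hf : ContinuousOn f U) (hg : Continuous g) (hs : tsupport g ⊆ U) :
    Continuous (fun z => L (f z) (g z)) := by
  rw [continuous_iff_continuousAt]
  intro z
  by_cases hz : z ∈ tsupport g
  · have h1 : ContinuousAt f z := hf.continuousAt (hU.mem_nhds (hs hz))
    exact (L.continuous.continuousAt.comp h1).clm_apply hg.continuousAt
  · have h1 := notMem_tsupport_iff_eventuallyEq.mp hz
    have h2 : (fun z => L (f z) (g z)) =ᶠ[𝓝 z] fun _ => 0 := by
      filter_upwards [h1] with y hy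
      rw [hy]; simp
    exact continuousAt_const.congr h2.symm

theorem integrable_bilin {E F H : Type*} [NormedAddCommGroup E] [NormedSpace ℝ E]
    [NormedAddCommGroup F] [NormedSpace ℝ F] [NormedAddCommGroup H] [NormedSpace ℝ H]
    (L : E →L[ℝ] F →L[ℝ] H) {U : Set ℂ} (hU : IsOpen U) {f : ℂ → E} {g : ℂ → F}
    (hf : ContinuousOn f U) (hg : Continuous g) (hc : HasCompactSupport g)
    (hs : tsupport g ⊆ U) : Integrable (fun z => L (f z) (g z)) :=
  (continuous_bilin L hU hf hg hs).integrable_of_hasCompactSupport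
    (hc.mono' (by
      intro z hz
      by_contra h
      exact hz (by simp [image_eq_zero_of_notMem_tsupport h])))

omit [NormedStarGroup 𝔸] in
theorem ip_I_left (a b : 𝔸) : ip (I • a) b = - ip a (I • b) := by
  simp only [ip, star_smul, smul_mul_assoc, mul_smul_comm, map_smul]
  simp

omit [NormedStarGroup 𝔸] in
/-- integration by parts, one of the functions has compact support in `U` -/
theorem ibp {U : Set ℂ} (hU : IsOpen U) {B w ψ : ℂ → 𝔸} (hB : ContinuousOn B U)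
    (hw : ContDiffOn ℝ 1 w U) (hψ : ContDiff ℝ 1 ψ) (hc : HasCompactSupport ψ)
    (hs : tsupport ψ ⊆ U) :
    ∫ z, ip (Db B w z) (ψ z) = - ∫ z, ip (w z) (Dd B ψ z) := by
  obtain ⟨L, hL⟩ := exists_ipL (𝔸 := 𝔸)
  have hwc : ContinuousOn w U := hw.continuousOn
  have hψc : Continuous ψ := hψ.continuous
  have hfd : ContinuousOn (fderiv ℝ w) U := (hw.fderiv_of_isOpen hU (m := 0) (by norm_num)).continuousOn
  have hfdv : ∀ v : ℂ, ContinuousOn (fun z => fderiv ℝ w z v) U := fun v =>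
    hfd.clm_apply continuousOn_const
  have hgd : Continuous (fderiv ℝ ψ) := hψ.continuous_fderiv one_ne_zero
  have hgdv : ∀ v : ℂ, Continuous (fun z => fderiv ℝ ψ z v) := fun v =>
    hgd.clm_apply continuous_const
  have hsd : ∀ v : ℂ, tsupport (fun z => fderiv ℝ ψ z v) ⊆ U := fun v =>
    (tsupport_fderiv_apply_subset ℝ v).trans hs
  have hcd : ∀ v : ℂ, HasCompactSupport (fun z => fderiv ℝ ψ z v) := fun v =>
    hc.fderiv_apply ℝ v
  have hdw : ∀ x ∈ tsupport ψ, DifferentiableAt ℝ w x := fun x hx =>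
    ContDiffOn.diffAt hU hw le_rfl (hs hx)
  have hdψ : ∀ x, DifferentiableAt ℝ ψ x := fun x => hψ.differentiable one_ne_zero x
  -- the bilinear map `(a, b) ↦ ip a (I b)`
  let mI : 𝔸 →L[ℝ] 𝔸 := (ContinuousLinearMap.lsmul ℝ ℂ I : 𝔸 →L[ℝ] 𝔸)
  let L' : 𝔸 →L[ℝ] 𝔸 →L[ℝ] ℝ := (ContinuousLinearMap.compL ℝ 𝔸 𝔸 ℝ).flip mI ∘L L
  have hL' : ∀ a b, L' a b = ip a (I • b) := by
    intro a b
    show L a (I • b) = _
    rw [hL]
  have p1 := integral_bilinear_fderiv_right_eq_neg_left_of_integrable (μ := volume)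
    (f := w) (g := ψ) (v := (1:ℂ)) (B := L)
    (integrable_bilin L hU (hfdv 1) hψc hc hs)
    (integrable_bilin L hU hwc (hgdv 1) (hcd 1) (hsd 1))
    (integrable_bilin L hU hwc hψc hc hs) hdw (fun x _ => hdψ x)
  have p2 := integral_bilinear_fderiv_right_eq_neg_left_of_integrable (μ := volume)
    (f := w) (g := ψ) (v := I) (B := L')
    (integrable_bilin L' hU (hfdv I) hψc hc hs)
    (integrable_bilin L' hU hwc (hgdv I) (hcd I) (hsd I))
    (integrable_bilin L' hU hwc hψc hc hs) hdw (fun x _ => hdψ x)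
  simp only [hL, hL'] at p1 p2
  -- the zeroth order term
  have hBB : ContinuousOn (fun z => B z * w z - w z * B z) U := (hB.mul hwc).sub (hwc.mul hB)
  have hz0 : ∀ z, ip (B z * w z - w z * B z) (ψ z) =
      ip (w z) (star (B z) * ψ z - ψ z * star (B z)) := by
    intro z
    have e1 : ∀ a b c : 𝔸, ip (a - b) c = ip a c - ip b c := by
      intro a b c; simp [ip, sub_mul]
    have e2 : ∀ a b c : 𝔸, ip a (b - c) = ip a b - ip a c := by
      intro a b c; simp [ip, mul_sub]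
    rw [e1, e2, ip_mul_left, ip_mul_right]
  have i1 := integrable_bilin L hU (hfdv 1) hψc hc hs
  have i2 := integrable_bilin L' hU (hfdv I) hψc hc hs
  have i3 := integrable_bilin L hU hBB hψc hc hs
  have i4 := integrable_bilin L hU hwc (hgdv 1) (hcd 1) (hsd 1)
  have i5 := integrable_bilin L' hU hwc (hgdv I) (hcd I) (hsd I)
  simp only [hL, hL'] at i1 i2 i3 i4 i5
  have l1 : ∀ z, ip (Db B w z) (ψ z) = (1 / 2 : ℝ) * ip (fderiv ℝ w z 1) (ψ z)
      - (1 / 2 : ℝ) * ip (fderiv ℝ w z I) (I • ψ z) + ip (B z * w z - w z * B z) (ψ z) := by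
    intro z
    have : Db B w z = (1 / 2 : ℝ) • fderiv ℝ w z 1 + (1 / 2 : ℝ) • (I • fderiv ℝ w z I) +
        (B z * w z - w z * B z) := by
      rw [Db, dzb]
      module
    rw [this, ip_add_left, ip_add_left, ip_smul_left, ip_smul_left, ip_I_left]
    ring
  have l2 : ∀ z, ip (w z) (Dd B ψ z) = (1 / 2 : ℝ) * ip (w z) (fderiv ℝ ψ z 1)
      - (1 / 2 : ℝ) * ip (w z) (I • fderiv ℝ ψ z I) - ip (B z * w z - w z * B z) (ψ z) := by
    intro z
    have : Dd B ψ z = (1 / 2 : ℝ) • fderiv ℝ ψ z 1 + (-(1 / 2) : ℝ) • (I • fderiv ℝ ψ z I) +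
        (-1 : ℝ) • (star (B z) * ψ z - ψ z * star (B z)) := by
      rw [Dd, dz]
      module
    rw [this, ip_add_right, ip_add_right, ip_smul_right, ip_smul_right, ip_smul_right, hz0]
    ring
  simp only [l1, l2]
  have j1 : Integrable (fun z => (1 / 2 : ℝ) * ip (fderiv ℝ w z 1) (ψ z)
      - (1 / 2 : ℝ) * ip (fderiv ℝ w z I) (I • ψ z)) := (i1.const_mul _).sub (i2.const_mul _)
  have j2 : Integrable (fun z => (1 / 2 : ℝ) * ip (w z) (fderiv ℝ ψ z 1)
      - (1 / 2 : ℝ) * ip (w z) (I • fderiv ℝ ψ z I)) := (i4.const_mul _).sub (i5.const_mul _)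
  rw [integral_add j1 i3, integral_sub (i1.const_mul _) (i2.const_mul _),
    integral_sub j2 i3, integral_sub (i4.const_mul _) (i5.const_mul _)]
  simp only [integral_const_mul]
  rw [p1, p2]
  ring

omit [TrAlg 𝔸] in
/-- Hitchin's equation in the holomorphic frame and in the unitary frame -/
theorem curv_frame {U : Set ℂ} (hU : IsOpen U) {G Gi k ki : ℂ → 𝔸} (hG : ContDiffOn ℝ ∞ G U)
    (hGi : ContDiffOn ℝ ∞ Gi U) (h1 : ∀ z ∈ U, G z * Gi z = 1) (h2 : ∀ z ∈ U, Gi z * G z = 1)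
    (hk : ContDiffOn ℝ 2 k U) (hki : ContDiffOn ℝ 2 ki U)
    (h3 : ∀ z ∈ U, k z * ki z = 1) (h4 : ∀ z ∈ U, ki z * k z = 1) {z : ℂ} (hz : z ∈ U) :
    dzb (fun x => G x * ki x * star (G x) * dz (fun y => star (Gi y) * k y * Gi y) x) z =
      G z * (Db (fun x => Gi x * dzb G x) (fun x => ki x * Dd (fun y => Gi y * dzb G y) k x) z
        - Fc (fun x => Gi x * dzb G x) z) * Gi z := by
  have hG1 : ContDiffOn ℝ 1 G U := hG.of_le (by exact_mod_cast le_top)
  have hGi1 : ContDiffOn ℝ 1 Gi U := hGi.of_le (by exact_mod_cast le_top)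
  have h2i : (2 : ℕ∞ω) ≤ ∞ := WithTop.coe_le_coe.2 (le_top : (2 : ℕ∞) ≤ ⊤)
  have hG2 : ContDiffOn ℝ 2 G U := hG.of_le h2i
  have hGi2 : ContDiffOn ℝ 2 Gi U := hGi.of_le h2i
  have hk1 : ContDiffOn ℝ 1 k U := hk.of_le one_le_two
  set B : ℂ → 𝔸 := fun x => Gi x * dzb G x with hBdef
  have hB : ContDiffOn ℝ 1 B U := hGi1.mul (contDiffOn_dzb hU hG2 (by norm_num))
  have hBs : ContDiffOn ℝ 1 (fun x => star (B x)) U := contDiffOn_star hB
  have hDk : ContDiffOn ℝ 1 (Dd B k) U :=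
    (contDiffOn_dz hU hk (by norm_num)).sub ((hBs.mul hk1).sub (hk1.mul hBs))
  -- the first derivative
  have key : ∀ x ∈ U, G x * ki x * star (G x) * dz (fun y => star (Gi y) * k y * Gi y) x =
      (G x * (ki x * Dd B k x) * Gi x - G x * star (B x) * Gi x) + G x * dz Gi x := by
    intro x hx
    have dk := ContDiffOn.diffAt hU hk1 le_rfl hx
    have dGi := ContDiffOn.diffAt hU hGi1 le_rfl hx
    have dGis := diffAt_star dGi
    rw [dz_mul (dGis.fun_mul dk) dGi, dz_mul dGis dk, dz_star dGi,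
      dzb_Gi hU hG1 hGi1 h1 h2 hx]
    have hGG : star (G x) * star (Gi x) = 1 := by rw [← star_mul, h2 x hx, star_one]
    have hkk := h4 x hx
    have e1 : star (-(Gi x * dzb G x * Gi x)) = -(star (Gi x) * star (B x)) := by
      rw [hBdef]; simp only [star_neg, star_mul]
    rw [e1]
    have e2 : Dd B k x = dz k x - (star (B x) * k x - k x * star (B x)) := rfl
    rw [e2]
    have e3 : G x * ki x * star (G x) *
        ((-(star (Gi x) * star (B x)) * k x + star (Gi x) * dz k x) * Gi x +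
          star (Gi x) * k x * dz Gi x) =
        G x * ki x * (star (G x) * star (Gi x)) * ((-(star (B x) * k x) + dz k x) * Gi x)
        + G x * ki x * (star (G x) * star (Gi x)) * (k x * dz Gi x) := by noncomm_ring
    rw [e3, hGG]
    have e4 : G x * ki x * 1 * (k x * dz Gi x) = G x * (ki x * k x) * dz Gi x := by noncomm_ring
    have e5 : G x * (ki x * (dz k x - (star (B x) * k x - k x * star (B x)))) * Gi x =
        G x * ki x * dz k x * Gi x - G x * ki x * star (B x) * k x * Gi x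
          + G x * (ki x * k x) * star (B x) * Gi x := by noncomm_ring
    rw [e4, e5, hkk]
    noncomm_ring
  have hnear : ∀ᶠ x in 𝓝 z, x ∈ U := hU.mem_nhds hz
  rw [dzb_congr (g := fun x => (G x * (ki x * Dd B k x) * Gi x - G x * star (B x) * Gi x) +
    G x * dz Gi x) (by filter_upwards [hnear] with x hx using key x hx)]
  have dG := ContDiffOn.diffAt hU hG1 le_rfl hz
  have dGi := ContDiffOn.diffAt hU hGi1 le_rfl hz
  have dki := ContDiffOn.diffAt hU hki one_le_two hz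
  have dDk := ContDiffOn.diffAt hU hDk le_rfl hz
  have dB := ContDiffOn.diffAt hU hB le_rfl hz
  have dBs := diffAt_star dB
  have ddz := ContDiffOn.diffAt hU (contDiffOn_dz hU hGi2 (m := 1) (by norm_num)) le_rfl hz
  have t1 : DifferentiableAt ℝ (fun x => G x * (ki x * Dd B k x) * Gi x) z :=
    (dG.fun_mul (dki.fun_mul dDk)).fun_mul dGi
  have t2 : DifferentiableAt ℝ (fun x => G x * star (B x) * Gi x) z :=
    (dG.fun_mul dBs).fun_mul dGi
  rw [dzb_add (t1.fun_sub t2) (dG.fun_mul ddz), dzb_sub t1 t2,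
    Db_frame hU hG1 hGi1 h1 h2 hz (dki.fun_mul dDk), Db_frame hU hG1 hGi1 h1 h2 hz dBs,
    dzb_mul dG ddz, ← dz_dzb_comm hU hGi2 hz]
  have e6 : dz (dzb Gi) z = -(dz B z * Gi z + B z * dz Gi z) := by
    rw [dz_congr (g := fun x => -(B x * Gi x)) (by
      filter_upwards [hnear] with x hx
      rw [dzb_Gi hU hG1 hGi1 h1 h2 hx]), dz_neg, dz_mul dB dGi]
  have e7 : dzb G z = G z * B z := by
    rw [hBdef]; simp only; rw [← mul_assoc, h1 z hz, one_mul]
  have e8 : Db B (fun x => star (B x)) z = dzb (fun x => star (B x)) z +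
      (B z * star (B z) - star (B z) * B z) := rfl
  have e9 : Fc B z = dz B z + dzb (fun x => star (B x)) z +
      (B z * star (B z) - star (B z) * B z) := rfl
  rw [e6, e7]
  rw [show (fun x => Gi x * dzb G x) = B from rfl, e8, e9]
  noncomm_ring

end A1

end Pool.Agent.Lib8bb
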