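import Pool.Agent.Lib_MP_8bb00a_gt.EDb

/-!
Integrals over the surface in charts, and the transformation rules of the covariant derivatives.
-/

open MeasureTheory Complex Set Metric Filter Topology
open scoped Real ContDiff ComplexConjugate Manifold

noncomputable section

namespace Pool.Agent.Lib8bb

section C

variable {X : Type*} [TopologicalSpace X] [ChartedSpace ℂ X] [IsManifold 𝓘(ℂ) ω X]
  [CompactSpace X] [T2Space X] [MeasurableSpace X] [BorelSpace X]
variable {𝔸 : Type*} [NormedRing 𝔸] [NormedAlgebra ℂ 𝔸] [StarRing 𝔸] [StarModule ℂ 𝔸]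
  [NormedStarGroup 𝔸] [TrAlg 𝔸]

omit [IsManifold 𝓘(ℂ) ω X] [CompactSpace X] [T2Space X] [BorelSpace X] in
theorem SurfData.aem_n (D : SurfData X) {e : OpenPartialHomeomorph X ℂ}
    (he : e ∈ atlas ℂ X) : AEMeasurable (fun z => ENNReal.ofReal (D.n e z))
      (volume.restrict e.target) :=
  ((D.n_smooth e he).continuousOn.aemeasurable e.open_target.measurableSet).ennreal_ofReal

omit [IsManifold 𝓘(ℂ) ω X] [CompactSpace X] [T2Space X] in
theorem SurfData.restrict_eq (D : SurfData X) {e : OpenPartialHomeomorph X ℂ}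
    (he : e ∈ atlas ℂ X) : D.ν.restrict e.source =
      ((volume.restrict e.target).withDensity (fun z => ENNReal.ofReal (D.n e z))).map e.symm := by
  apply Measure.ext_of_lintegral
  intro f hf
  rw [D.chart e he f hf, lintegral_map' hf.aemeasurable (aemeasurable_symm e),
    lintegral_withDensity_eq_lintegral_mul₀ (D.aem_n he)]
  · refine lintegral_congr fun z => ?_
    rw [Pi.mul_apply, mul_comm]
  · exact hf.comp_aemeasurable (e.continuousOn_symm.aemeasurable e.open_target.measurableSet)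

omit [IsManifold 𝓘(ℂ) ω X] [CompactSpace X] [T2Space X] in
/-- Bochner integral in a chart -/
theorem SurfData.integral_chart (D : SurfData X) {e : OpenPartialHomeomorph X ℂ}
    (he : e ∈ atlas ℂ X) {E : Type*} [NormedAddCommGroup E] [NormedSpace ℝ E] {f : X → E}
    (hf : AEStronglyMeasurable f D.ν) (hf0 : ∀ x, x ∉ e.source → f x = 0) :
    ∫ x, f x ∂D.ν = ∫ z in e.target, D.n e z • f (e.symm z) := by
  rw [← setIntegral_eq_integral_of_forall_compl_eq_zero hf0, D.restrict_eq he,
    integral_map (aemeasurable_symm e) (by rw [← D.restrict_eq he]; exact hf.restrict),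
    integral_withDensity_eq_integral_toReal_smul₀ (D.aem_n he)
      (Filter.Eventually.of_forall fun _ => ENNReal.ofReal_lt_top)]
  refine setIntegral_congr_fun e.open_target.measurableSet fun z hz => ?_
  rw [ENNReal.toReal_ofReal (D.n_pos e he z hz).le]

omit [IsManifold 𝓘(ℂ) ω X] [CompactSpace X] [T2Space X] [BorelSpace X] in
theorem SurfData.restrict_le (D : SurfData X) {e : OpenPartialHomeomorph X ℂ}
    (he : e ∈ atlas ℂ X) {K : Set ℂ} (hK : IsCompact K) (hKt : K ⊆ e.target) :
    ∃ c : ENNReal, c ≠ ⊤ ∧ (volume : Measure ℂ).restrict K ≤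
      c • (volume.restrict e.target).withDensity (fun z => ENNReal.ofReal (D.n e z)) := by
  obtain ⟨δ, hδ, hδK⟩ : ∃ δ : ℝ, 0 < δ ∧ ∀ z ∈ K, δ ≤ D.n e z := by
    rcases K.eq_empty_or_nonempty with h | h
    · exact ⟨1, one_pos, fun z hz => by rw [h] at hz; exact absurd hz (notMem_empty z)⟩
    · obtain ⟨z0, hz0, hmin⟩ := hK.exists_isMinOn h
        ((D.n_smooth e he).continuousOn.mono hKt)
      exact ⟨D.n e z0, D.n_pos e he z0 (hKt hz0), fun z hz => hmin hz⟩
  refine ⟨(ENNReal.ofReal δ)⁻¹, ?_, ?_⟩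
  · rw [Ne, ENNReal.inv_eq_top]
    exact (ENNReal.ofReal_pos.2 hδ).ne'
  · rw [Measure.le_iff]
    intro s hs
    rw [Measure.restrict_apply hs, Measure.smul_apply, smul_eq_mul, withDensity_apply _ hs,
      Measure.restrict_restrict hs]
    have h1 : ENNReal.ofReal δ * volume (s ∩ K) ≤
        ∫⁻ z in s ∩ e.target, ENNReal.ofReal (D.n e z) := by
      calc ENNReal.ofReal δ * volume (s ∩ K) = ∫⁻ _ in s ∩ K, ENNReal.ofReal δ := by
            rw [setLIntegral_const]
        _ ≤ ∫⁻ z in s ∩ K, ENNReal.ofReal (D.n e z) :=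
            setLIntegral_mono' (hs.inter hK.measurableSet) fun z hz =>
              ENNReal.ofReal_le_ofReal (hδK z hz.2)
        _ ≤ ∫⁻ z in s ∩ e.target, ENNReal.ofReal (D.n e z) :=
            lintegral_mono_set (inter_subset_inter_right s hKt)
    calc volume (s ∩ K) = (ENNReal.ofReal δ)⁻¹ * (ENNReal.ofReal δ * volume (s ∩ K)) := by
          rw [← mul_assoc, ENNReal.inv_mul_cancel (ENNReal.ofReal_pos.2 hδ).ne'
            ENNReal.ofReal_ne_top, one_mul]
      _ ≤ _ := mul_le_mul_right h1 _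

omit [IsManifold 𝓘(ℂ) ω X] [CompactSpace X] [T2Space X] in
theorem SurfData.memLp_chart (D : SurfData X) {e : OpenPartialHomeomorph X ℂ}
    (he : e ∈ atlas ℂ X) {E : Type*} [NormedAddCommGroup E] [NormedSpace ℝ E] {f : X → E}
    {p : ENNReal} (hf : MemLp f p D.ν) {K : Set ℂ} (hK : IsCompact K) (hKt : K ⊆ e.target) :
    MemLp (fun z => f (e.symm z)) p (volume.restrict K) := by
  have h1 : MemLp f p (D.ν.restrict e.source) := hf.restrict _
  rw [D.restrict_eq he] at h1
  have h2 := (memLp_map_measure_iff h1.aestronglyMeasurable (aemeasurable_symm e)).1 h1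
  obtain ⟨c, hc, hle⟩ := D.restrict_le he hK hKt
  exact MemLp.of_measure_le_smul hc hle h2

omit [IsManifold 𝓘(ℂ) ω X] [CompactSpace X] [T2Space X] in
/-- almost everywhere statements in a chart -/
theorem SurfData.ae_chart (D : SurfData X) {e : OpenPartialHomeomorph X ℂ}
    (he : e ∈ atlas ℂ X) {P : X → Prop} (h : ∀ᵐ x ∂D.ν, P x) :
    ∀ᵐ z ∂(volume.restrict e.target), P (e.symm z) := by
  have h1 : ∀ᵐ x ∂(D.ν.restrict e.source), P x := ae_restrict_of_ae h
  rw [D.restrict_eq he] at h1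
  have h2 := ae_of_ae_map (aemeasurable_symm e) h1
  rw [ae_withDensity_iff' (D.aem_n he)] at h2
  rw [ae_restrict_iff' e.open_target.measurableSet] at h2 ⊢
  filter_upwards [h2] with z hz hzt
  exact hz hzt (ENNReal.ofReal_pos.2 (D.n_pos e he z hzt)).ne'

omit [IsManifold 𝓘(ℂ) ω X] [CompactSpace X] [T2Space X] [ChartedSpace ℂ X] in
theorem measurableSet_preimage_chart {e : OpenPartialHomeomorph X ℂ} {N : Set ℂ}
    (hN : MeasurableSet N) : MeasurableSet (e.source ∩ e ⁻¹' N) := by
  have h1 : Measurable (e.source.domRestrict e) := e.continuousOn.domRestrict.measurable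
  have h2 := MeasurableSet.subtype_image e.open_source.measurableSet (h1 hN)
  have h3 : Subtype.val '' (e.source.domRestrict e ⁻¹' N) = e.source ∩ e ⁻¹' N := by
    ext x
    constructor
    · rintro ⟨⟨y, hy⟩, hy', rfl⟩
      exact ⟨hy, hy'⟩
    · rintro ⟨hx, hx'⟩
      exact ⟨⟨x, hx⟩, hx', rfl⟩
  rw [← h3]
  exact h2

omit [T2Space X] in
/-- and conversely -/
theorem SurfData.ae_of_chart (D : SurfData X) {P : X → Prop}
    (h : ∀ e ∈ atlas ℂ X, ∀ᵐ z ∂(volume.restrict e.target), P (e.symm z)) :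
    ∀ᵐ x ∂D.ν, P x := by
  -- in each chart the bad set is null
  have key : ∀ e ∈ atlas ℂ X, D.ν (e.source ∩ {x | ¬ P x}) = 0 := by
    intro e he
    have h1 := h e he
    rw [ae_restrict_iff' e.open_target.measurableSet] at h1
    have h2 : volume {z | ¬ (z ∈ e.target → P (e.symm z))} = 0 := h1
    obtain ⟨N, hN1, hN2, hN3⟩ := exists_measurable_superset_of_null h2
    have h4 : e.source ∩ {x | ¬ P x} ⊆ e.source ∩ e ⁻¹' N := by
      rintro x ⟨hx, hx'⟩
      refine ⟨hx, hN1 ?_⟩
      show ¬ (e x ∈ e.target → P (e.symm (e x)))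
      rw [e.left_inv hx]
      exact fun h5 => hx' (h5 (e.map_source hx))
    refine measure_mono_null h4 ?_
    have hm := measurableSet_preimage_chart (e := e) hN2
    have h5 := D.chart e he ((e.source ∩ e ⁻¹' N).indicator (fun _ => 1))
      (measurable_const.indicator hm)
    rw [lintegral_indicator hm, setLIntegral_const, one_mul, Measure.restrict_apply hm,
      inter_eq_left.2 (inter_subset_left)] at h5
    rw [h5]
    have h6 : ∫⁻ z in e.target, (e.source ∩ e ⁻¹' N).indicator (fun _ => (1 : ENNReal)) (e.symm z) *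
        ENNReal.ofReal (D.n e z) ≤ ∫⁻ z in N, ⊤ := by
      rw [← lintegral_indicator e.open_target.measurableSet, ← lintegral_indicator hN2]
      refine lintegral_mono fun z => ?_
      by_cases hz : z ∈ e.target
      · by_cases hzN : z ∈ N
        · rw [indicator_of_mem hzN]
          exact le_top
        · rw [indicator_of_mem hz, indicator_of_notMem, zero_mul]
          · exact zero_le
          · rintro ⟨_, h7⟩
            rw [mem_preimage, e.right_inv hz] at h7
            exact hzN h7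
      · rw [indicator_of_notMem hz]
        exact zero_le
    refine le_antisymm (h6.trans ?_) (zero_le)
    rw [setLIntegral_const, hN3, mul_zero]
  -- finite cover
  obtain ⟨t, ht⟩ := isCompact_univ.elim_finite_subcover (fun x : X => (chartAt ℂ x).source)
    (fun x => (chartAt ℂ x).open_source) (fun x _ => mem_iUnion.mpr ⟨x, mem_chart_source ℂ x⟩)
  have h1 : {x | ¬ P x} ⊆ ⋃ y ∈ t, (chartAt ℂ y).source ∩ {x | ¬ P x} := by
    intro x hx
    have := ht (mem_univ x)
    rw [mem_iUnion₂] at this ⊢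
    obtain ⟨y, hy, hxy⟩ := this
    exact ⟨y, hy, hxy, hx⟩
  show D.ν {x | ¬ P x} = 0
  refine measure_mono_null h1 ?_
  refine (measure_biUnion_null_iff t.countable_toSet).2 ?_
  intro y _
  exact key _ (chart_mem_atlas ℂ y)

omit [IsManifold 𝓘(ℂ) ω X] [T2Space X] in
/-- the measure charges open sets -/
theorem SurfData.eq_zero_of_integral (D : SurfData X) {f : X → ℝ} (hf : Continuous f)
    (h0 : ∀ x, 0 ≤ f x) (h : ∫ x, f x ∂D.ν = 0) : ∀ x, f x = 0 := by
  have hint : Integrable f D.ν := hf.integrable_of_hasCompactSupport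
    (HasCompactSupport.of_compactSpace f)
  have h1 : f =ᵐ[D.ν] 0 := (integral_eq_zero_iff_of_nonneg h0 hint).1 h
  intro x0
  by_contra hx0
  have h2 : ∀ᵐ z ∂(volume.restrict (chartAt ℂ x0).target), f ((chartAt ℂ x0).symm z) = 0 :=
    D.ae_chart (chart_mem_atlas ℂ x0) h1
  have hcont : ContinuousOn (fun z => f ((chartAt ℂ x0).symm z)) (chartAt ℂ x0).target :=
    hf.comp_continuousOn (chartAt ℂ x0).continuousOn_symm
  have hopen : IsOpen ((chartAt ℂ x0).target ∩ (fun z => f ((chartAt ℂ x0).symm z)) ⁻¹' {0}ᶜ) :=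
    hcont.isOpen_inter_preimage (chartAt ℂ x0).open_target isClosed_singleton.isOpen_compl
  have hne : ((chartAt ℂ x0).target ∩
      (fun z => f ((chartAt ℂ x0).symm z)) ⁻¹' {0}ᶜ).Nonempty := by
    refine ⟨(chartAt ℂ x0) x0, mem_chart_target ℂ x0, ?_⟩
    rw [mem_preimage, (chartAt ℂ x0).left_inv (mem_chart_source ℂ x0)]
    exact hx0
  have hpos := hopen.measure_pos volume hne
  rw [ae_restrict_iff' (chartAt ℂ x0).open_target.measurableSet] at h2
  have h3 : volume {z | ¬ (z ∈ (chartAt ℂ x0).target → f ((chartAt ℂ x0).symm z) = 0)} = 0 := h2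
  have h4 : (chartAt ℂ x0).target ∩ (fun z => f ((chartAt ℂ x0).symm z)) ⁻¹' {0}ᶜ ⊆
      {z | ¬ (z ∈ (chartAt ℂ x0).target → f ((chartAt ℂ x0).symm z) = 0)} := by
    rintro z ⟨hz, hz'⟩ h5
    exact hz' (h5 hz)
  exact absurd (measure_mono_null h4 h3) hpos.ne'

/-- the coefficients which recover `D''` in the chart `e` from the normalised derivatives -/
def kap (D : SurfData X) (e : OpenPartialHomeomorph X ℂ) (a : D.A) (z : ℂ) : ℂ :=
  ((D.m a (e.symm z) * D.n (D.c a) (trans e (D.c a) z) : ℝ) : ℂ) * conj (deriv (trans e (D.c a)) z)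

omit [CompactSpace X] [T2Space X] [MeasurableSpace X] [BorelSpace X] in
theorem trans_deriv_smooth {e e' : OpenPartialHomeomorph X ℂ} (he : e ∈ atlas ℂ X)
    (he' : e' ∈ atlas ℂ X) {z : ℂ} (hz : z ∈ dom e e') :
    ContDiffAt ℝ ∞ (deriv (trans e e')) z := by
  have h1 : ContDiffOn ℂ ∞ (deriv (trans e e')) (dom e e') :=
    ((trans_holo he he').deriv (isOpen_dom e e')).contDiffOn (isOpen_dom e e')
  exact (h1.contDiffAt ((isOpen_dom e e').mem_nhds hz)).restrict_scalars ℝ

omit [CompactSpace X] [T2Space X] [MeasurableSpace X] [BorelSpace X] in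
theorem trans_smooth {e e' : OpenPartialHomeomorph X ℂ} (he : e ∈ atlas ℂ X)
    (he' : e' ∈ atlas ℂ X) {z : ℂ} (hz : z ∈ dom e e') (k : ℕ∞ω) :
    ContDiffAt ℝ k (trans e e') z :=
  (((trans_contDiffOn he he').contDiffAt ((isOpen_dom e e').mem_nhds hz)).restrict_scalars ℝ).of_le
    le_top

omit [CompactSpace X] [BorelSpace X] in
theorem kap_smooth (D : SurfData X) {e : OpenPartialHomeomorph X ℂ} (he : e ∈ atlas ℂ X)
    (a : D.A) : ContDiffOn ℝ ∞ (kap D e a) e.target := by
  intro z hz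
  apply ContDiffAt.contDiffWithinAt
  by_cases hz' : e.symm z ∈ (D.c a).source
  · have hzd : z ∈ dom e (D.c a) := ⟨hz, hz'⟩
    have h1 := trans_deriv_smooth he (D.c_mem a) hzd
    have h2 := trans_smooth he (D.c_mem a) hzd ∞
    have h3 : ContDiffAt ℝ ∞ (fun z => D.n (D.c a) (trans e (D.c a) z)) z :=
      ContDiffAt.comp z ((D.n_smooth _ (D.c_mem a)).contDiffAt
        ((D.c a).open_target.mem_nhds (trans_mem_target hzd))) h2
    have h4 := (D.m_smooth a).contDiffAt he hz
    have h5 : ContDiffAt ℝ ∞ (fun z =>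
        ((D.m a (e.symm z) * D.n (D.c a) (trans e (D.c a) z) : ℝ) : ℂ)) z :=
      Complex.ofRealCLM.contDiff.contDiffAt.comp z (h4.mul h3)
    have h6 : ContDiffAt ℝ ∞ (fun z => conj (deriv (trans e (D.c a)) z)) z :=
      Complex.conjCLE.contDiff.contDiffAt.comp z h1
    exact h5.mul h6
  · have h1 := eventually_zero_of_notMem (e := e) (D.K_compact a) (D.K_target a)
      (D.m_supp a) hz hz'
    have h2 : kap D e a =ᶠ[𝓝 z] fun _ => 0 := by
      filter_upwards [h1] with w hw
      rw [kap, hw]; simp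
    exact contDiffAt_const.congr_of_eventuallyEq h2

omit [CompactSpace X] [T2Space X] [MeasurableSpace X] [BorelSpace X] [StarRing 𝔸]
  [StarModule ℂ 𝔸] [NormedStarGroup 𝔸] [TrAlg 𝔸] in
/-- transformation of `B` -/
theorem Bun.B_trans (b : Bun X 𝔸) {e e' : OpenPartialHomeomorph X ℂ} (he : e ∈ atlas ℂ X)
    (he' : e' ∈ atlas ℂ X) {z : ℂ} (hz : z ∈ dom e e') :
    b.B e z = conj (deriv (trans e e') z) • b.B e' (trans e e' z) := by
  have hzt : trans e e' z ∈ e'.target := trans_mem_target hz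
  have hG' : DifferentiableAt ℝ (b.G e') (trans e e' z) :=
    ((b.G_smooth e' he').contDiffAt (e'.open_target.mem_nhds hzt)).differentiableAt (by simp)
  have hG : DifferentiableAt ℝ (b.G e) z :=
    ((b.G_smooth e he).contDiffAt (e.open_target.mem_nhds hz.1)).differentiableAt (by simp)
  have hT : DifferentiableAt ℂ (fun z => b.G e' (trans e e' z) * b.Gi e z) z :=
    (b.holo e he e' he').differentiableAt ((isOpen_dom e e').mem_nhds hz)
  have h1 : dzb (fun w => b.G e' (trans e e' w)) z =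
      conj (deriv (trans e e') z) • dzb (b.G e') (trans e e' z) :=
    dzb_comp_holo hG' (trans_diffAt he he' hz)
  have h2 : (fun w => b.G e' (trans e e' w)) =ᶠ[𝓝 z]
      fun w => (b.G e' (trans e e' w) * b.Gi e w) * b.G e w := by
    filter_upwards [(isOpen_dom e e').mem_nhds hz] with w hw
    rw [mul_assoc, b.Gi_mul e he w hw.1, mul_one]
  have h3 : dzb (fun w => b.G e' (trans e e' w)) z =
      b.G e' (trans e e' z) * b.Gi e z * dzb (b.G e) z := by
    rw [dzb_congr h2, dzb_mul (hT.restrictScalars ℝ) hG, dzb_of_holo hT, zero_mul, zero_add]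
  rw [Bun.B, Bun.B, ← mul_smul_comm, ← h1, h3, ← mul_assoc, ← mul_assoc,
    b.Gi_mul e' he' _ hzt, one_mul]

omit [IsManifold 𝓘(ℂ) ω X] [CompactSpace X] [T2Space X] [MeasurableSpace X] [BorelSpace X]
  [StarRing 𝔸] [StarModule ℂ 𝔸] [NormedStarGroup 𝔸] [TrAlg 𝔸] in
theorem Bun.B_smooth (b : Bun X 𝔸) {e : OpenPartialHomeomorph X ℂ} (he : e ∈ atlas ℂ X) :
    ContDiffOn ℝ ∞ (b.B e) e.target :=
  (b.Gi_smooth e he).mul (contDiffOn_dzb e.open_target (b.G_smooth e he) (by simp))

omit [CompactSpace X] [T2Space X] [MeasurableSpace X] [BorelSpace X] [StarRing 𝔸]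
  [StarModule ℂ 𝔸] [NormedStarGroup 𝔸] [TrAlg 𝔸] in
/-- transformation of `D''` -/
theorem Db_trans (b : Bun X 𝔸) {e e' : OpenPartialHomeomorph X ℂ} (he : e ∈ atlas ℂ X)
    (he' : e' ∈ atlas ℂ X) {z : ℂ} (hz : z ∈ dom e e') {w : X → 𝔸} (hw : Ck 1 w) :
    Db (b.B e) (fun x => w (e.symm x)) z =
      conj (deriv (trans e e') z) • Db (b.B e') (fun x => w (e'.symm x)) (trans e e' z) := by
  have hzt : trans e e' z ∈ e'.target := trans_mem_target hz
  have h1 : (fun x => w (e.symm x)) =ᶠ[𝓝 z] fun x => w (e'.symm (trans e e' x)) := by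
    filter_upwards [(isOpen_dom e e').mem_nhds hz] with x hx
    rw [symm_trans hx]
  have h2 : DifferentiableAt ℝ (fun x => w (e'.symm x)) (trans e e' z) :=
    (hw.contDiffAt he' hzt).differentiableAt (by simp)
  have h3 : dzb (fun x => w (e.symm x)) z =
      conj (deriv (trans e e') z) • dzb (fun x => w (e'.symm x)) (trans e e' z) := by
    rw [dzb_congr h1]
    exact dzb_comp_holo h2 (trans_diffAt he he' hz)
  rw [Db, Db, h3, b.B_trans he he' hz, symm_trans hz, smul_mul_assoc, mul_smul_comm,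
    ← smul_sub, ← smul_add]

omit [IsManifold 𝓘(ℂ) ω X] [CompactSpace X] [T2Space X] [BorelSpace X] in
theorem SurfData.m_ne (D : SurfData X) {x : X} {a : D.A} (h : D.m a x ≠ 0) :
    x ∈ (D.c a).source := by
  by_contra hx
  apply h
  apply D.m_supp a x
  rintro ⟨z, hz, rfl⟩
  exact hx ((D.c a).map_target (D.K_target a hz))

omit [CompactSpace X] [T2Space X] [BorelSpace X] [StarRing 𝔸] [StarModule ℂ 𝔸]
  [NormedStarGroup 𝔸] [TrAlg 𝔸] in
/-- recover `D''` from the normalised derivatives -/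
theorem Db_eq_sum (D : SurfData X) (b : Bun X 𝔸) {e : OpenPartialHomeomorph X ℂ}
    (he : e ∈ atlas ℂ X) {z : ℂ} (hz : z ∈ e.target) {w : X → 𝔸} (hw : Ck 1 w) :
    Db (b.B e) (fun x => w (e.symm x)) z = ∑ a, kap D e a z • pa D b a w (e.symm z) := by
  have key : ∀ a, kap D e a z • pa D b a w (e.symm z) =
      ((D.m a (e.symm z)) ^ 2 * D.n (D.c a) (D.c a (e.symm z))) •
        Db (b.B e) (fun x => w (e.symm x)) z := by
    intro a
    by_cases h0 : D.m a (e.symm z) = 0
    · rw [kap, pa, h0]; simp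
    · have hzd : z ∈ dom e (D.c a) := ⟨hz, D.m_ne h0⟩
      have h1 := Db_trans b he (D.c_mem a) hzd hw
      have h2 : D.c a (e.symm z) = trans e (D.c a) z := rfl
      rw [h1, kap, pa, h2]
      rw [← Complex.coe_smul, ← Complex.coe_smul, smul_smul, smul_smul]
      congr 1
      push_cast
      ring
  rw [Finset.sum_congr rfl fun a _ => key a, ← Finset.sum_smul, D.m_sum, one_smul]

omit [CompactSpace X] [T2Space X] [BorelSpace X] [StarRing 𝔸] [StarModule ℂ 𝔸]
  [NormedStarGroup 𝔸] [TrAlg 𝔸] in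
/-- and conversely -/
theorem pa_eq (D : SurfData X) (b : Bun X 𝔸) {e : OpenPartialHomeomorph X ℂ}
    (he : e ∈ atlas ℂ X) {z : ℂ} (hz : z ∈ e.target) {w : X → 𝔸} (hw : Ck 1 w) (a : D.A) :
    pa D b a w (e.symm z) = ((D.n e z)⁻¹ : ℝ) • conj (kap D e a z) •
      Db (b.B e) (fun x => w (e.symm x)) z := by
  by_cases h0 : D.m a (e.symm z) = 0
  · rw [kap, pa, h0]; simp
  · have hzd : z ∈ dom e (D.c a) := ⟨hz, D.m_ne h0⟩
    have h1 := Db_trans b he (D.c_mem a) hzd hw
    have h2 : D.c a (e.symm z) = trans e (D.c a) z := rfl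
    have h3 := D.n_trans e he _ (D.c_mem a) z hzd
    have h4 := D.n_pos e he z hz
    rw [h1, kap, pa, h2]
    rw [← Complex.coe_smul, ← Complex.coe_smul, smul_smul, smul_smul]
    congr 1
    rw [map_mul, Complex.conj_conj, Complex.conj_ofReal]
    have h5 : deriv (trans e (D.c a)) z * conj (deriv (trans e (D.c a)) z) =
        ((‖deriv (trans e (D.c a)) z‖ ^ 2 : ℝ) : ℂ) := by
      rw [Complex.mul_conj, Complex.normSq_eq_norm_sq]
    have h6 : ((D.n e z : ℝ) : ℂ) ≠ 0 := by exact_mod_cast h4.ne'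
    have h7 : ((D.n e z : ℝ) : ℂ) = ((D.n (D.c a) (trans e (D.c a) z) : ℝ) : ℂ) *
        (deriv (trans e (D.c a)) z * conj (deriv (trans e (D.c a)) z)) := by
      rw [h5, ← Complex.ofReal_mul, ← h3]
    have h8 : ((D.n e z : ℝ) : ℂ)⁻¹ * (((D.n (D.c a) (trans e (D.c a) z) : ℝ) : ℂ) *
        (deriv (trans e (D.c a)) z * conj (deriv (trans e (D.c a)) z))) = 1 := by
      rw [← h7, inv_mul_cancel₀ h6]
    push_cast
    calc ((D.m a (e.symm z) : ℝ) : ℂ) = ((D.m a (e.symm z) : ℝ) : ℂ) * 1 := (mul_one _).symm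
      _ = _ := by rw [← h8]; ring

omit [CompactSpace X] [T2Space X] [BorelSpace X] in
theorem sum_kap (D : SurfData X) {e : OpenPartialHomeomorph X ℂ}
    (he : e ∈ atlas ℂ X) {z : ℂ} (hz : z ∈ e.target) :
    ∑ a, ‖kap D e a z‖ ^ 2 = D.n e z := by
  have key : ∀ a, ‖kap D e a z‖ ^ 2 =
      ((D.m a (e.symm z)) ^ 2 * D.n (D.c a) (D.c a (e.symm z))) * D.n e z := by
    intro a
    by_cases h0 : D.m a (e.symm z) = 0
    · rw [kap, h0]; simp
    · have hzd : z ∈ dom e (D.c a) := ⟨hz, D.m_ne h0⟩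
      have h2 : D.c a (e.symm z) = trans e (D.c a) z := rfl
      have h3 := D.n_trans e he _ (D.c_mem a) z hzd
      rw [kap, norm_mul, Complex.norm_real, RCLike.norm_conj, mul_pow, Real.norm_eq_abs, sq_abs,
        h2, h3]
      ring
  rw [Finset.sum_congr rfl fun a _ => key a, ← Finset.sum_mul, D.m_sum, one_mul]

omit [CompactSpace X] [BorelSpace X] [StarRing 𝔸] [StarModule ℂ 𝔸] [NormedStarGroup 𝔸]
  [TrAlg 𝔸] in
theorem pa_continuous (D : SurfData X) (b : Bun X 𝔸) {w : X → 𝔸} (hw : Ck 1 w) (a : D.A) :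
    Continuous (pa D b a w) := by
  rw [continuous_iff_continuousAt]
  intro x
  by_cases hx : x ∈ (D.c a).source
  · have h1 : ContinuousAt (D.m a) x := (D.m_smooth a).continuous.continuousAt
    have h2 : ContinuousOn (Db (b.B (D.c a)) (fun z => w ((D.c a).symm z))) (D.c a).target := by
      have hw' := hw _ (D.c_mem a)
      have hB := (b.B_smooth (D.c_mem a)).continuousOn
      have h3 : ContinuousOn (dzb (fun z => w ((D.c a).symm z))) (D.c a).target :=
        (contDiffOn_dzb (m := 0) (D.c a).open_target hw' (by simp)).continuousOn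
      exact h3.add ((hB.mul hw'.continuousOn).sub (hw'.continuousOn.mul hB))
    have h4 : ContinuousAt (fun y => Db (b.B (D.c a)) (fun z => w ((D.c a).symm z)) (D.c a y)) x :=
      ContinuousAt.comp (h2.continuousAt ((D.c a).open_target.mem_nhds ((D.c a).map_source hx)))
        ((D.c a).continuousAt hx)
    exact h1.smul h4
  · have hcl : IsClosed ((D.c a).symm '' D.K a) :=
      (isCompact_symm_image (D.K_compact a) (D.K_target a)).isClosed
    have hxK : x ∉ (D.c a).symm '' D.K a := by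
      rintro ⟨z, hz, rfl⟩
      exact hx ((D.c a).map_target (D.K_target a hz))
    have h1 : pa D b a w =ᶠ[𝓝 x] fun _ => 0 := by
      filter_upwards [hcl.isOpen_compl.mem_nhds hxK] with y hy
      rw [pa, D.m_supp a y hy, zero_smul]
    exact continuousAt_const.congr h1.symm

end C

end Pool.Agent.Lib8bb
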