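import Pool.Agent.Lib_MP_8bb00a_gt.EAlg
import Pool.Agent.Lib_MP_8bb00a_gt.EDb
import Pool.Agent.Lib_MP_8bb00a_gt.Surf3

/-!
Coercivity of the energy form (piece I).
-/

open MeasureTheory Complex Set Metric Filter Topology
open scoped Real ContDiff ComplexConjugate Manifold ENNReal

noncomputable section

namespace Pool.Agent.Lib8bb

section young

variable {V : Type*} [NormedAddCommGroup V] [NormedSpace ℂ V]

theorem lintegral_kk_cube_lt_top (ρ : ℝ) : ∫⁻ z, kk ρ z ^ 3 < ⊤ := by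
  have h4 := lintegral_kk_lt_top ρ
  have hb : ∫⁻ z, (closedBall (0:ℂ) ρ).indicator (fun _ => (1 : ENNReal)) z < ⊤ := by
    rw [lintegral_indicator measurableSet_closedBall]
    simp only [lintegral_const, one_mul, Measure.restrict_apply MeasurableSet.univ, univ_inter]
    exact measure_closedBall_lt_top
  have h1 : ∀ z, kk ρ z ^ 3 ≤ (closedBall (0:ℂ) ρ).indicator (fun _ => (1 : ENNReal)) z
      + kk ρ z ^ 4 := by
    intro z
    by_cases hz : z ∈ closedBall (0:ℂ) ρ
    · rw [indicator_of_mem hz]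
      rcases le_total (kk ρ z) 1 with h | h
      · exact (pow_le_one₀ (zero_le) h).trans le_self_add
      · exact (pow_le_pow_right₀ h (by norm_num)).trans le_add_self
    · rw [kk, indicator_of_notMem hz]; simp
  refine lt_of_le_of_lt (lintegral_mono h1) ?_
  rw [lintegral_add_right _ ((measurable_kk ρ).pow_const 4)]
  exact ENNReal.add_lt_top.mpr ⟨hb, h4⟩

/-- `L² → L²` on a ball. -/
theorem CT_L2_L2 (z0 : ℂ) (ρ : ℝ) : ∃ C : ENNReal, C ≠ ⊤ ∧ ∀ g : ℂ → V,
    AEStronglyMeasurable g volume → (∀ t, t ∉ closedBall z0 ρ → g t = 0) →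
    ∫⁻ x in closedBall z0 ρ, ‖CT g x‖ₑ ^ 2 ≤ C * ∫⁻ t, ‖g t‖ₑ ^ 2 := by
  set A := ∫⁻ z, kk (2 * ρ) z ^ 3 with hA
  have hAtop : A < ⊤ := lintegral_kk_cube_lt_top _
  refine ⟨A ^ 2, ENNReal.pow_ne_top hAtop.ne, fun g hg hg0 => ?_⟩
  have hk : ∀ x, Measurable (fun t => kk (2 * ρ) (x - t)) := fun x =>
    (measurable_kk _).comp (measurable_const.sub measurable_id)
  have hAx : ∀ x, ∫⁻ t, kk (2 * ρ) (x - t) ^ 3 = A := fun x => by
    rw [hA, ← lintegral_sub_left_eq_self _ x]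
    simp
  have hAt : ∀ t, ∫⁻ x, kk (2 * ρ) (x - t) ^ 3 = A := fun t => by
    rw [hA]
    exact lintegral_sub_right_eq_self (fun x => kk (2 * ρ) x ^ 3) t
  have hsq : ∀ y : ENNReal, (y ^ (3/2:ℝ)) ^ 2 = y ^ 3 := fun y => by
    rw [← ENNReal.rpow_natCast, ← ENNReal.rpow_mul, ← ENNReal.rpow_natCast]; norm_num
  have key : ∀ x ∈ closedBall z0 ρ, ‖CT g x‖ₑ ^ 2 ≤
      A * ∫⁻ t, kk (2 * ρ) (x - t) ^ 3 * ‖g t‖ₑ ^ 2 := by
    intro x hx
    have h1 := enorm_CT_le hg0 hx
    have h3 := lintegral_CS (μ := volume) (f := fun t => kk (2 * ρ) (x - t) ^ (3/2:ℝ))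
        (g := fun t => kk (2 * ρ) (x - t) ^ (3/2:ℝ) * ‖g t‖ₑ) ((hk x).pow_const _).aemeasurable
        (((hk x).pow_const _).aemeasurable.mul hg.enorm)
    calc ‖CT g x‖ₑ ^ 2 ≤ (∫⁻ t, kk (2 * ρ) (x - t) ^ 3 * ‖g t‖ₑ) ^ 2 := by gcongr
      _ = (∫⁻ t, kk (2 * ρ) (x - t) ^ (3/2:ℝ) * (kk (2 * ρ) (x - t) ^ (3/2:ℝ) * ‖g t‖ₑ)) ^ 2 := by
            congr 2; ext t; rw [← hsq]; ring
      _ ≤ (∫⁻ t, (kk (2 * ρ) (x - t) ^ (3/2:ℝ)) ^ 2) *
          ∫⁻ t, (kk (2 * ρ) (x - t) ^ (3/2:ℝ) * ‖g t‖ₑ) ^ 2 := h3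
      _ = A * ∫⁻ t, kk (2 * ρ) (x - t) ^ 3 * ‖g t‖ₑ ^ 2 := by
            simp only [mul_pow, hsq, hAx]
  calc ∫⁻ x in closedBall z0 ρ, ‖CT g x‖ₑ ^ 2
      ≤ ∫⁻ x in closedBall z0 ρ, A * ∫⁻ t, kk (2 * ρ) (x - t) ^ 3 * ‖g t‖ₑ ^ 2 :=
        setLIntegral_mono' measurableSet_closedBall key
    _ ≤ ∫⁻ x, A * ∫⁻ t, kk (2 * ρ) (x - t) ^ 3 * ‖g t‖ₑ ^ 2 := setLIntegral_le_lintegral _ _
    _ = A * ∫⁻ x, ∫⁻ t, kk (2 * ρ) (x - t) ^ 3 * ‖g t‖ₑ ^ 2 := lintegral_const_mul' _ _ hAtop.ne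
    _ = A * ∫⁻ t, ∫⁻ x, kk (2 * ρ) (x - t) ^ 3 * ‖g t‖ₑ ^ 2 := by
        rw [lintegral_lintegral_swap]
        refine AEMeasurable.mul ?_ ?_
        · exact (((measurable_kk _).comp (measurable_fst.sub measurable_snd)).pow_const 3).aemeasurable
        · exact ((hg.enorm.comp_quasiMeasurePreserving
            Measure.quasiMeasurePreserving_snd).pow_const 2)
    _ = A * (A * ∫⁻ t, ‖g t‖ₑ ^ 2) := by
        congr 1
        rw [← lintegral_const_mul'' A (hg.enorm.pow_const 2)]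
        congr 1; ext t
        rw [lintegral_mul_const, hAt t]
        exact ((measurable_kk _).comp (measurable_id.sub measurable_const)).pow_const 3
    _ = A ^ 2 * ∫⁻ t, ‖g t‖ₑ ^ 2 := by ring

theorem dzb_eq_zero_of_notMem {g : ℂ → V} {z0 : ℂ} {ρ : ℝ}
    (hg0 : ∀ t, t ∉ closedBall z0 ρ → g t = 0) {t : ℂ} (ht : t ∉ closedBall z0 ρ) :
    dzb g t = 0 := by
  have h : g =ᶠ[𝓝 t] fun _ => 0 := by
    filter_upwards [isClosed_closedBall.isOpen_compl.mem_nhds ht] with s hs using hg0 s hs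
  rw [dzb_congr h, dzb_const]

/-- the Poincaré inequality for the Cauchy-Riemann operator -/
theorem poincare_dzb [CompleteSpace V] (z0 : ℂ) (ρ : ℝ) : ∃ C : ENNReal, C ≠ ⊤ ∧ ∀ g : ℂ → V,
    ContDiff ℝ 1 g → (∀ t, t ∉ closedBall z0 ρ → g t = 0) →
    ∫⁻ x in closedBall z0 ρ, ‖g x‖ₑ ^ 2 ≤ C * ∫⁻ x in closedBall z0 ρ, ‖dzb g x‖ₑ ^ 2 := by
  obtain ⟨C, hC, hb⟩ := CT_L2_L2 (V := V) z0 ρ
  refine ⟨C, hC, fun g hg hg0 => ?_⟩
  have hc : HasCompactSupport g := HasCompactSupport.intro (isCompact_closedBall z0 ρ) hg0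
  have h1 : Continuous (dzb g) := (contDiff_dzb (m := 0) hg (by simp)).continuous
  have h0 : ∀ t, t ∉ closedBall z0 ρ → dzb g t = 0 := fun t ht => dzb_eq_zero_of_notMem hg0 ht
  have h2 := hb (dzb g) h1.aestronglyMeasurable h0
  simp only [CT_dzb hg hc] at h2
  refine h2.trans (le_of_eq ?_)
  congr 1
  rw [setLIntegral_eq_of_support_subset]
  intro t ht
  by_contra h
  apply ht
  show ‖dzb g t‖ₑ ^ 2 = 0
  rw [h0 t h]
  simp

end young

section coer

variable {X : Type*} [TopologicalSpace X] [ChartedSpace ℂ X] [IsManifold 𝓘(ℂ) ω X]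
  [CompactSpace X] [T2Space X] [MeasurableSpace X] [BorelSpace X]
variable {𝔸 : Type*} [NormedRing 𝔸] [NormedAlgebra ℂ 𝔸] [StarRing 𝔸] [StarModule ℂ 𝔸]
  [NormedStarGroup 𝔸] [TrAlg 𝔸] [FiniteDimensional ℂ 𝔸]

/-- the energy density -/
def edens (D : SurfData X) (b : Bun X 𝔸) (W : X → 𝔸 →L[ℝ] 𝔸) (η : X → 𝔸) (x : X) : ℝ :=
  (∑ a, ip (pa D b a η x) (pa D b a η x)) + ip (W x (η x)) (η x)

omit [FiniteDimensional ℂ 𝔸] in
theorem edens_continuous (D : SurfData X) (b : Bun X 𝔸) {W : X → 𝔸 →L[ℝ] 𝔸} (hW : Pot X 𝔸 W)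
    {η : X → 𝔸} (hη : Ck 1 η) : Continuous (edens D b W η) := by
  obtain ⟨L, hL⟩ := exists_ipL (𝔸 := 𝔸)
  have h1 : Continuous (fun x => ip (W x (η x)) (η x)) := by
    have : (fun x => ip (W x (η x)) (η x)) = fun x => L (W x (η x)) (η x) := by
      ext x; rw [hL]
    rw [this]
    have hη' := hη.continuous
    exact (L.continuous.comp (hW.cont.clm_apply hη')).clm_apply hη'
  have h2 : ∀ a, Continuous (fun x => ip (pa D b a η x) (pa D b a η x)) := by
    intro a
    have : (fun x => ip (pa D b a η x) (pa D b a η x)) = fun x => ‖pa D b a η x‖ ^ 2 := by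
      ext x; rw [ip_self]
    rw [this]
    exact (pa_continuous D b hη a).norm.pow 2
  exact (continuous_finsetSum _ (fun a _ => h2 a)).add h1

theorem coer_of_local (D : SurfData X) (b : Bun X 𝔸) {W : X → 𝔸 →L[ℝ] 𝔸} (hW : Pot X 𝔸 W)
    (hpos : ∀ x a, star a = a → 0 ≤ ip (W x a) a) {e : OpenPartialHomeomorph X ℂ}
    (he : e ∈ atlas ℂ X) {z0 : ℂ} {r : ℝ} (hr : 0 < r) (hball : closedBall z0 (2 * r) ⊆ e.target)
    {c0 : ℝ} (hc0 : 0 < c0)
    (hc : ∀ x, x ∉ e.symm '' ball z0 r → ∀ a, star a = a → c0 * ‖a‖ ^ 2 ≤ ip (W x a) a) :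
    ∃ δ > 0, Coer D b W δ := by
  have : CompleteSpace 𝔸 := FiniteDimensional.complete ℂ 𝔸
  set B2 := closedBall z0 (2 * r) with hB2
  have hB2c : IsCompact B2 := isCompact_closedBall _ _
  have hb1 : ball z0 r ⊆ B2 := ball_subset_closedBall.trans (closedBall_subset_closedBall (by linarith))
  -- bounds for the frame
  obtain ⟨CG, hCG1, hCG, hCGi⟩ : ∃ CG : ℝ, 1 ≤ CG ∧ (∀ z ∈ B2, ‖b.G e z‖ ≤ CG) ∧
      (∀ z ∈ B2, ‖b.Gi e z‖ ≤ CG) := by
    obtain ⟨C1, h1⟩ := hB2c.exists_bound_of_continuousOn ((b.G_smooth e he).continuousOn.mono hball)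
    obtain ⟨C2, h2⟩ := hB2c.exists_bound_of_continuousOn ((b.Gi_smooth e he).continuousOn.mono hball)
    refine ⟨max 1 (max C1 C2), le_max_left _ _, fun z hz => ?_, fun z hz => ?_⟩
    · exact (h1 z hz).trans ((le_max_left _ _).trans (le_max_right _ _))
    · exact (h2 z hz).trans ((le_max_right _ _).trans (le_max_right _ _))
  -- bounds for the density
  have hncont : ContinuousOn (D.n e) B2 := (D.n_smooth e he).continuousOn.mono hball
  obtain ⟨n2, hn2⟩ := hB2c.exists_bound_of_continuousOn hncont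
  have hne : B2.Nonempty := ⟨z0, mem_closedBall_self (by linarith)⟩
  obtain ⟨zm, hzm, hmin⟩ := hB2c.exists_isMinOn hne hncont
  set n1 := D.n e zm with hn1def
  have hn1 : 0 < n1 := D.n_pos e he zm (hball hzm)
  have hn1' : ∀ z ∈ B2, n1 ≤ D.n e z := fun z hz => hmin hz
  have hn2' : ∀ z ∈ B2, D.n e z ≤ n2 := fun z hz => (le_abs_self _).trans (hn2 z hz)
  -- the cutoff
  set χ := cbump z0 r hr with hχ
  have hχs : ContDiff ℝ ∞ χ := cbump_contDiff z0 r hr
  have hχsup : tsupport χ ⊆ B2 := cbump_tsupport z0 r hr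
  have hχ1 : ∀ z, ‖χ z‖ ≤ 1 := by
    intro z
    rw [hχ, cbump, Complex.norm_real, Real.norm_eq_abs, abs_of_nonneg (ContDiffBump.nonneg _)]
    exact ContDiffBump.le_one _
  have hdχc : Continuous (dzb χ) := (contDiff_dzb (m := 0) hχs (by simp)).continuous
  obtain ⟨Cχ, hCχ⟩ := hB2c.exists_bound_of_continuousOn hdχc.continuousOn
  have hCχ0 : 0 ≤ Cχ := (norm_nonneg _).trans (hCχ zm hzm)
  have hdχ0 : ∀ z ∈ ball z0 r, dzb χ z = 0 := by
    intro z hz
    have h : χ =ᶠ[𝓝 z] fun _ => 1 := by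
      filter_upwards [isOpen_ball.mem_nhds hz] with s hs
      exact cbump_one z0 r hr (ball_subset_closedBall hs)
    rw [dzb_congr h, dzb_const]
  obtain ⟨CY, hCY, hY⟩ := poincare_dzb (V := 𝔸) z0 (2 * r)
  set C3 : ℝ := 2 * CG ^ 4 * (Cχ ^ 2 / (c0 * n1) + 1) with hC3
  have hC3pos : 0 ≤ C3 := by positivity
  set KT : ENNReal := ENNReal.ofReal (1 / c0) +
    ENNReal.ofReal (CG ^ 4 * n2) * (CY * ENNReal.ofReal C3) with hKT
  have hKTtop : KT ≠ ⊤ := by
    rw [hKT]
    exact ENNReal.add_ne_top.mpr ⟨ENNReal.ofReal_ne_top, ENNReal.mul_ne_top ENNReal.ofReal_ne_top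
      (ENNReal.mul_ne_top hCY ENNReal.ofReal_ne_top)⟩
  -- the main estimate
  have main : ∀ η : X → 𝔸, Sec1 η →
      ∫⁻ x, ENNReal.ofReal (‖η x‖ ^ 2) ∂D.ν ≤ KT * ∫⁻ x, ENNReal.ofReal (edens D b W η x) ∂D.ν := by
    intro η hη
    have hηc : Continuous η := hη.1.continuous
    have hip0 : ∀ x, 0 ≤ ip (W x (η x)) (η x) := fun x => hpos x _ (hη.2 x)
    have hpa0 : ∀ x, 0 ≤ ∑ a, ip (pa D b a η x) (pa D b a η x) := fun x =>
      Finset.sum_nonneg fun a _ => by rw [ip_self]; positivity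
    have hed0 : ∀ x, 0 ≤ edens D b W η x := fun x => add_nonneg (hpa0 x) (hip0 x)
    set ηt : ℂ → 𝔸 := fun z => η (e.symm z) with hηt
    have hηtd : ∀ z ∈ e.target, DifferentiableAt ℝ ηt z := fun z hz =>
      (hη.1.contDiffAt he hz).differentiableAt (by simp)
    have hGd : ∀ z ∈ e.target, DifferentiableAt ℝ (b.G e) z := fun z hz =>
      ((b.G_smooth e he).contDiffAt (e.open_target.mem_nhds hz)).differentiableAt (by simp)
    have hGid : ∀ z ∈ e.target, DifferentiableAt ℝ (b.Gi e) z := fun z hz =>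
      ((b.Gi_smooth e he).contDiffAt (e.open_target.mem_nhds hz)).differentiableAt (by simp)
    set u : ℂ → 𝔸 := fun z => b.G e z * ηt z * b.Gi e z with hu
    have huC : ContDiffOn ℝ 1 u e.target :=
      (((b.G_smooth e he).of_le (by simp)).mul (hη.1 e he)).mul ((b.Gi_smooth e he).of_le (by simp))
    set g : ℂ → 𝔸 := fun z => χ z • u z with hg
    have hgC : ContDiff ℝ 1 g := contDiff_cutoff_smul (k := 1) e.open_target hχs
      (hχsup.trans hball) huC
    have hg0 : ∀ t, t ∉ B2 → g t = 0 := by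
      intro t ht
      have : χ t = 0 := image_eq_zero_of_notMem_tsupport (fun h => ht (hχsup h))
      simp only [hg, this, zero_smul]
    have hY' := hY g hgC hg0
    -- pointwise bound for dzb g
    have hdg : ∀ z ∈ B2, ‖dzb g z‖ ^ 2 ≤ C3 * (edens D b W η (e.symm z) * D.n e z) := by
      intro z hz
      have hzt := hball hz
      have hχd : DifferentiableAt ℝ χ z := (hχs.differentiable (by simp)) z
      have hud : DifferentiableAt ℝ u z :=
        (huC.contDiffAt (e.open_target.mem_nhds hzt)).differentiableAt (by simp)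
      have h1 : dzb g z = dzb χ z • u z + χ z • dzb u z := dzb_smul hχd hud
      have h2 : dzb u z = b.G e z * Db (b.B e) ηt z * b.Gi e z :=
        Db_frame e.open_target ((b.G_smooth e he).of_le (by simp))
          ((b.Gi_smooth e he).of_le (by simp)) (b.mul_Gi e he) (b.Gi_mul e he) hzt (hηtd z hzt)
      have h3 : ‖Db (b.B e) ηt z‖ ^ 2 ≤ D.n e z * ∑ a, ip (pa D b a η (e.symm z)) (pa D b a η (e.symm z)) := by
        have h4 := Db_eq_sum D b he hzt hη.1
        rw [← sum_kap D he hzt]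
        simp only [ip_self]
        have h5 : ‖Db (b.B e) ηt z‖ ≤ ∑ a, ‖kap D e a z‖ * ‖pa D b a η (e.symm z)‖ := by
          rw [hηt, h4]
          refine (norm_sum_le _ _).trans (Finset.sum_le_sum fun a _ => ?_)
          rw [norm_smul]
        calc ‖Db (b.B e) ηt z‖ ^ 2 ≤ (∑ a, ‖kap D e a z‖ * ‖pa D b a η (e.symm z)‖) ^ 2 := by
              gcongr
          _ ≤ _ := Finset.sum_mul_sq_le_sq_mul_sq _ _ _
      have h6 : ‖dzb u z‖ ≤ CG ^ 2 * ‖Db (b.B e) ηt z‖ := by
        rw [h2]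
        calc ‖b.G e z * Db (b.B e) ηt z * b.Gi e z‖ ≤ ‖b.G e z‖ * ‖Db (b.B e) ηt z‖ * ‖b.Gi e z‖ :=
              (norm_mul_le _ _).trans (mul_le_mul_of_nonneg_right (norm_mul_le _ _) (norm_nonneg _))
          _ ≤ CG * ‖Db (b.B e) ηt z‖ * CG := by
              gcongr
              · exact hCG z hz
              · exact hCGi z hz
          _ = _ := by ring
      have h7 : ‖u z‖ ≤ CG ^ 2 * ‖ηt z‖ := by
        calc ‖b.G e z * ηt z * b.Gi e z‖ ≤ ‖b.G e z‖ * ‖ηt z‖ * ‖b.Gi e z‖ :=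
              (norm_mul_le _ _).trans (mul_le_mul_of_nonneg_right (norm_mul_le _ _) (norm_nonneg _))
          _ ≤ CG * ‖ηt z‖ * CG := by
              gcongr
              · exact hCG z hz
              · exact hCGi z hz
          _ = _ := by ring
      have hn0 : 0 < D.n e z := D.n_pos e he z hzt
      have h8 : ‖χ z • dzb u z‖ ^ 2 ≤ CG ^ 4 * (D.n e z * ∑ a, ip (pa D b a η (e.symm z)) (pa D b a η (e.symm z))) := by
        have h9 : ‖χ z • dzb u z‖ ≤ CG ^ 2 * ‖Db (b.B e) ηt z‖ := by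
          rw [norm_smul]
          calc ‖χ z‖ * ‖dzb u z‖ ≤ 1 * ‖dzb u z‖ := by
                gcongr; exact hχ1 z
            _ = ‖dzb u z‖ := one_mul _
            _ ≤ _ := h6
        calc ‖χ z • dzb u z‖ ^ 2 ≤ (CG ^ 2 * ‖Db (b.B e) ηt z‖) ^ 2 := by gcongr
          _ = CG ^ 4 * ‖Db (b.B e) ηt z‖ ^ 2 := by ring
          _ ≤ _ := by gcongr
      -- the first term
      have h10 : ‖dzb χ z • u z‖ ^ 2 ≤ CG ^ 4 * (Cχ ^ 2 / (c0 * n1)) *
          (D.n e z * ip (W (e.symm z) (η (e.symm z))) (η (e.symm z))) := by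
        by_cases hzb : z ∈ ball z0 r
        · rw [hdχ0 z hzb, zero_smul, norm_zero, zero_pow two_ne_zero]
          have := hip0 (e.symm z)
          positivity
        · have h11 : e.symm z ∉ e.symm '' ball z0 r := by
            rintro ⟨y, hy, hyz⟩
            have := e.symm.injOn (hball (hb1 hy)) hzt hyz
            exact hzb (this ▸ hy)
          have h12 := hc _ h11 _ (hη.2 (e.symm z))
          have h13 : ‖dzb χ z • u z‖ ≤ Cχ * (CG ^ 2 * ‖ηt z‖) := by
            rw [norm_smul]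
            gcongr
            exact hCχ z hz
          calc ‖dzb χ z • u z‖ ^ 2 ≤ (Cχ * (CG ^ 2 * ‖ηt z‖)) ^ 2 := by gcongr
            _ = CG ^ 4 * (Cχ ^ 2 / (c0 * n1)) * (n1 * (c0 * ‖ηt z‖ ^ 2)) := by
                field_simp
            _ ≤ _ := by
                have := hn1' z hz
                have h14 : 0 ≤ c0 * ‖ηt z‖ ^ 2 := by positivity
                gcongr
      have h15 : ‖dzb g z‖ ^ 2 ≤ 2 * ‖dzb χ z • u z‖ ^ 2 + 2 * ‖χ z • dzb u z‖ ^ 2 := by
        rw [h1]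
        have h16 := norm_add_le (dzb χ z • u z) (χ z • dzb u z)
        have h17 := norm_nonneg (dzb χ z • u z + χ z • dzb u z)
        nlinarith [sq_nonneg (‖dzb χ z • u z‖ - ‖χ z • dzb u z‖)]
      have hP := hpa0 (e.symm z)
      have hQ := hip0 (e.symm z)
      have hR : 0 ≤ Cχ ^ 2 / (c0 * n1) := by positivity
      calc ‖dzb g z‖ ^ 2 ≤ 2 * ‖dzb χ z • u z‖ ^ 2 + 2 * ‖χ z • dzb u z‖ ^ 2 := h15
        _ ≤ 2 * (CG ^ 4 * (Cχ ^ 2 / (c0 * n1)) *
          (D.n e z * ip (W (e.symm z) (η (e.symm z))) (η (e.symm z)))) +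
          2 * (CG ^ 4 * (D.n e z * ∑ a, ip (pa D b a η (e.symm z)) (pa D b a η (e.symm z)))) := by
            gcongr
        _ ≤ _ := by
            simp only [hC3, edens]
            set P := ∑ a, ip (pa D b a η (e.symm z)) (pa D b a η (e.symm z))
            set Q := ip (W (e.symm z) (η (e.symm z))) (η (e.symm z))
            set R := Cχ ^ 2 / (c0 * n1)
            have h18 : 0 ≤ 2 * CG ^ 4 * D.n e z * (R * P + Q) := by positivity
            nlinarith [h18]
    -- integrate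
    set N : X → ENNReal := fun x => ENNReal.ofReal (‖η x‖ ^ 2) with hN
    set E : X → ENNReal := fun x => ENNReal.ofReal (edens D b W η x) with hE
    have hNm : Measurable N := (hηc.norm.pow 2).measurable.ennreal_ofReal
    have hEm : Measurable E := (edens_continuous D b hW hη.1).measurable.ennreal_ofReal
    set S : Set X := e.source ∩ e ⁻¹' ball z0 r with hS
    have hSo : IsOpen S := e.isOpen_inter_preimage isOpen_ball
    have hSm : MeasurableSet S := hSo.measurableSet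
    have hA : ∀ x, N x ≤ ENNReal.ofReal (1 / c0) * E x + S.indicator N x := by
      intro x
      by_cases hx : x ∈ S
      · rw [indicator_of_mem hx]; exact le_add_self
      · rw [indicator_of_notMem hx, add_zero]
        have h1 : x ∉ e.symm '' ball z0 r := by
          rintro ⟨y, hy, rfl⟩
          have hyt := hball (hb1 hy)
          apply hx
          refine ⟨e.map_target hyt, ?_⟩
          rw [mem_preimage, e.right_inv hyt]
          exact hy
        have h2 := hc x h1 _ (hη.2 x)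
        rw [hN, hE]
        simp only
        rw [← ENNReal.ofReal_mul (by positivity)]
        apply ENNReal.ofReal_le_ofReal
        rw [one_div, ← div_eq_inv_mul, le_div_iff₀ hc0, mul_comm]
        exact h2.trans (le_add_of_nonneg_left (hpa0 x))
    have hB : ∫⁻ x, S.indicator N x ∂D.ν ≤
        ENNReal.ofReal (CG ^ 4 * n2) * ∫⁻ z in B2, ‖g z‖ₑ ^ 2 := by
      have h1 : ∫⁻ x, S.indicator N x ∂D.ν = ∫⁻ x in e.source, S.indicator N x ∂D.ν := by
        rw [setLIntegral_eq_of_support_subset]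
        intro x hx
        by_contra h
        apply hx
        have : x ∉ S := fun h' => h h'.1
        show S.indicator N x = 0
        rw [indicator_of_notMem this]
      rw [h1, D.chart e he _ (hNm.indicator hSm)]
      have h2 : ∀ z ∈ e.target, S.indicator N (e.symm z) * ENNReal.ofReal (D.n e z) ≤
          B2.indicator (fun z => ENNReal.ofReal (CG ^ 4 * n2) * ‖g z‖ₑ ^ 2) z := by
        intro z hz
        by_cases hzS : e.symm z ∈ S
        · have hzb : z ∈ ball z0 r := by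
            have := hzS.2
            rwa [mem_preimage, e.right_inv hz] at this
          have hzB := hb1 hzb
          rw [indicator_of_mem hzS, indicator_of_mem hzB]
          have hg1 : g z = b.G e z * ηt z * b.Gi e z := by
            have hχz : χ z = 1 := cbump_one z0 r hr (ball_subset_closedBall hzb)
            show χ z • u z = _
            rw [hχz, one_smul]
          have h3 : ηt z = b.Gi e z * g z * b.G e z := by
            rw [hg1]
            have := b.Gi_mul e he z hz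
            calc ηt z = (b.Gi e z * b.G e z) * ηt z * (b.Gi e z * b.G e z) := by
                  rw [this, one_mul, mul_one]
              _ = _ := by noncomm_ring
          have h4 : ‖ηt z‖ ≤ CG ^ 2 * ‖g z‖ := by
            rw [h3]
            calc ‖b.Gi e z * g z * b.G e z‖ ≤ ‖b.Gi e z‖ * ‖g z‖ * ‖b.G e z‖ :=
                  (norm_mul_le _ _).trans (mul_le_mul_of_nonneg_right (norm_mul_le _ _) (norm_nonneg _))
              _ ≤ CG * ‖g z‖ * CG := by
                  gcongr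
                  · exact hCGi z hzB
                  · exact hCG z hzB
              _ = _ := by ring
          have h5 : ‖ηt z‖ ^ 2 ≤ CG ^ 4 * ‖g z‖ ^ 2 := by
            calc ‖ηt z‖ ^ 2 ≤ (CG ^ 2 * ‖g z‖) ^ 2 := by gcongr
              _ = _ := by ring
          have h6 : ‖g z‖ₑ ^ 2 = ENNReal.ofReal (‖g z‖ ^ 2) := by
            rw [← ofReal_norm, ENNReal.ofReal_pow (norm_nonneg _)]
          have h7 := D.n_pos e he z hz
          have h8 := hn2' z hzB
          rw [h6]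
          show ENNReal.ofReal (‖ηt z‖ ^ 2) * _ ≤ _
          rw [← ENNReal.ofReal_mul (by positivity), ← ENNReal.ofReal_mul (by
            have : 0 ≤ n2 := h7.le.trans h8
            positivity)]
          apply ENNReal.ofReal_le_ofReal
          calc ‖ηt z‖ ^ 2 * D.n e z ≤ (CG ^ 4 * ‖g z‖ ^ 2) * n2 := by gcongr
            _ = _ := by ring
        · rw [indicator_of_notMem hzS, zero_mul]; exact zero_le
      calc ∫⁻ z in e.target, S.indicator N (e.symm z) * ENNReal.ofReal (D.n e z)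
          ≤ ∫⁻ z in e.target, B2.indicator (fun z => ENNReal.ofReal (CG ^ 4 * n2) * ‖g z‖ₑ ^ 2) z :=
            setLIntegral_mono' e.open_target.measurableSet h2
        _ ≤ ∫⁻ z, B2.indicator (fun z => ENNReal.ofReal (CG ^ 4 * n2) * ‖g z‖ₑ ^ 2) z :=
            setLIntegral_le_lintegral _ _
        _ = ∫⁻ z in B2, ENNReal.ofReal (CG ^ 4 * n2) * ‖g z‖ₑ ^ 2 :=
            lintegral_indicator measurableSet_closedBall _
        _ = _ := lintegral_const_mul' _ _ ENNReal.ofReal_ne_top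
    have hCc : ∫⁻ z in B2, ‖dzb g z‖ₑ ^ 2 ≤ ENNReal.ofReal C3 * ∫⁻ x, E x ∂D.ν := by
      calc ∫⁻ z in B2, ‖dzb g z‖ₑ ^ 2
          ≤ ∫⁻ z in B2, ENNReal.ofReal C3 * (E (e.symm z) * ENNReal.ofReal (D.n e z)) := by
            refine setLIntegral_mono' measurableSet_closedBall fun z hz => ?_
            have h6 : ‖dzb g z‖ₑ ^ 2 = ENNReal.ofReal (‖dzb g z‖ ^ 2) := by
              rw [← ofReal_norm, ENNReal.ofReal_pow (norm_nonneg _)]
            rw [h6]
            show _ ≤ ENNReal.ofReal C3 * (ENNReal.ofReal (edens D b W η (e.symm z)) *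
              ENNReal.ofReal (D.n e z))
            rw [← ENNReal.ofReal_mul (hed0 _), ← ENNReal.ofReal_mul hC3pos]
            exact ENNReal.ofReal_le_ofReal (hdg z hz)
        _ = ENNReal.ofReal C3 * ∫⁻ z in B2, E (e.symm z) * ENNReal.ofReal (D.n e z) :=
            lintegral_const_mul' _ _ ENNReal.ofReal_ne_top
        _ ≤ ENNReal.ofReal C3 * ∫⁻ z in e.target, E (e.symm z) * ENNReal.ofReal (D.n e z) := by
            gcongr
        _ = ENNReal.ofReal C3 * ∫⁻ x in e.source, E x ∂D.ν := by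
            rw [D.chart e he _ hEm]
        _ ≤ ENNReal.ofReal C3 * ∫⁻ x, E x ∂D.ν :=
            mul_le_mul_right (setLIntegral_le_lintegral _ _) _
    calc ∫⁻ x, N x ∂D.ν ≤ ∫⁻ x, (ENNReal.ofReal (1 / c0) * E x + S.indicator N x) ∂D.ν :=
          lintegral_mono hA
      _ = ENNReal.ofReal (1 / c0) * ∫⁻ x, E x ∂D.ν + ∫⁻ x, S.indicator N x ∂D.ν := by
          rw [lintegral_add_right _ (hNm.indicator hSm),
            lintegral_const_mul' _ _ ENNReal.ofReal_ne_top]
      _ ≤ ENNReal.ofReal (1 / c0) * ∫⁻ x, E x ∂D.ν + ENNReal.ofReal (CG ^ 4 * n2) *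
          (CY * (ENNReal.ofReal C3 * ∫⁻ x, E x ∂D.ν)) := by
          gcongr
          refine hB.trans ?_
          gcongr
          refine hY'.trans ?_
          gcongr
      _ = KT * ∫⁻ x, E x ∂D.ν := by
          rw [hKT]; ring
  refine ⟨(KT.toReal + 1)⁻¹, by positivity, fun η hη => ?_⟩
  have hηc : Continuous η := hη.1.continuous
  have hip0 : ∀ x, 0 ≤ ip (W x (η x)) (η x) := fun x => hpos x _ (hη.2 x)
  have hpa0 : ∀ x, 0 ≤ ∑ a, ip (pa D b a η x) (pa D b a η x) := fun x =>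
    Finset.sum_nonneg fun a _ => by rw [ip_self]; positivity
  have hed0 : ∀ x, 0 ≤ edens D b W η x := fun x => add_nonneg (hpa0 x) (hip0 x)
  have hedc := edens_continuous D b hW hη.1
  have h1 : en D b W η η = ∫ x, edens D b W η x ∂D.ν := rfl
  have hint : Integrable (edens D b W η) D.ν :=
    hedc.integrable_of_hasCompactSupport (HasCompactSupport.of_compactSpace _)
  have hint2 : Integrable (fun x => ‖η x‖ ^ 2) D.ν :=
    (hηc.norm.pow 2).integrable_of_hasCompactSupport (HasCompactSupport.of_compactSpace _)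
  have h2 := main η hη
  rw [← ofReal_integral_eq_lintegral_ofReal hint2 (ae_of_all _ fun x => by positivity),
    ← ofReal_integral_eq_lintegral_ofReal hint (ae_of_all _ hed0)] at h2
  have h3 := ENNReal.toReal_mono (ENNReal.mul_ne_top hKTtop ENNReal.ofReal_ne_top) h2
  rw [ENNReal.toReal_mul, ENNReal.toReal_ofReal (integral_nonneg fun x => by positivity),
    ENNReal.toReal_ofReal (integral_nonneg hed0)] at h3
  have h4 : 0 ≤ ∫ x, edens D b W η x ∂D.ν := integral_nonneg hed0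
  have h5 : 0 ≤ KT.toReal := ENNReal.toReal_nonneg
  rw [h1, inv_mul_le_iff₀ (by positivity)]
  nlinarith

end coer

end Pool.Agent.Lib8bb
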