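import Pool.Agent.Lib_MP_8bb00a_gt.EDefs

/-!
PIECE A0: algebra of the real inner product `ip`.
-/

open MeasureTheory Complex Set Metric Filter Topology
open scoped Real ContDiff ComplexConjugate Manifold

noncomputable section

namespace Pool.Agent.Lib8bb

section A0

variable {𝔸 : Type*} [NormedRing 𝔸] [NormedAlgebra ℂ 𝔸] [StarRing 𝔸] [StarModule ℂ 𝔸]
  [NormedStarGroup 𝔸] [TrAlg 𝔸]

omit [StarModule ℂ 𝔸] [NormedStarGroup 𝔸] in
theorem ip_self (a : 𝔸) : ip a a = ‖a‖ ^ 2 := (TrAlg.norm_sq a).symm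

omit [StarModule ℂ 𝔸] [NormedStarGroup 𝔸] in
theorem ip_comm (a b : 𝔸) : ip a b = ip b a := by
  unfold ip
  have h : star (star a * b) = star b * a := by rw [star_mul, star_star]
  rw [← h, TrAlg.tr_star, Complex.conj_re]

omit [StarModule ℂ 𝔸] [NormedStarGroup 𝔸] in
theorem ip_add_left (a b c : 𝔸) : ip (a + b) c = ip a c + ip b c := by
  unfold ip
  rw [star_add, add_mul, map_add, Complex.add_re]

omit [StarModule ℂ 𝔸] [NormedStarGroup 𝔸] in
theorem ip_add_right (a b c : 𝔸) : ip a (b + c) = ip a b + ip a c := by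
  unfold ip
  rw [mul_add, map_add, Complex.add_re]

omit [StarModule ℂ 𝔸] [NormedStarGroup 𝔸] in
theorem ip_smul_right (r : ℝ) (a b : 𝔸) : ip a (r • b) = r * ip a b := by
  unfold ip
  have h : (r : ℝ) • b = (r : ℂ) • b := (Complex.coe_smul r b).symm
  rw [h, mul_smul_comm, map_smul, smul_eq_mul, Complex.re_ofReal_mul]

omit [StarModule ℂ 𝔸] [NormedStarGroup 𝔸] in
theorem ip_smul_left (r : ℝ) (a b : 𝔸) : ip (r • a) b = r * ip a b := by
  rw [ip_comm, ip_smul_right, ip_comm]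

omit [NormedStarGroup 𝔸] in
theorem ip_csmul_left (r : ℂ) (a b : 𝔸) : ip (r • a) b = ip a (conj r • b) := by
  unfold ip
  rw [star_smul, smul_mul_assoc, mul_smul_comm]
  rfl

omit [StarModule ℂ 𝔸] [NormedStarGroup 𝔸] in
theorem ip_mul_left (x a b : 𝔸) : ip (x * a) b = ip a (star x * b) := by
  unfold ip
  rw [star_mul, mul_assoc]

omit [StarModule ℂ 𝔸] [NormedStarGroup 𝔸] in
theorem ip_mul_right (x a b : 𝔸) : ip (a * x) b = ip a (b * star x) := by
  unfold ip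
  rw [star_mul, mul_assoc, TrAlg.tr_mul_comm, mul_assoc]

omit [StarModule ℂ 𝔸] [NormedStarGroup 𝔸] in
theorem ip_star (a b : 𝔸) : ip (star a) (star b) = ip a b := by
  unfold ip
  rw [star_star]
  have h : a * star b = star (b * star a) := by rw [star_mul, star_star]
  rw [h, TrAlg.tr_star, Complex.conj_re, TrAlg.tr_mul_comm]

omit [StarModule ℂ 𝔸] [NormedStarGroup 𝔸] in
theorem ip_zero_right (a : 𝔸) : ip a 0 = 0 := by
  unfold ip; simp

omit [StarModule ℂ 𝔸] [NormedStarGroup 𝔸] in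
theorem ip_zero_left (a : 𝔸) : ip 0 a = 0 := by
  unfold ip; simp

omit [StarModule ℂ 𝔸] [NormedStarGroup 𝔸] in
theorem ip_neg_right (a b : 𝔸) : ip a (-b) = - ip a b := by
  have := ip_smul_right (-1) a b
  rwa [neg_one_smul, neg_one_mul] at this

omit [StarModule ℂ 𝔸] [NormedStarGroup 𝔸] in
theorem ip_neg_left (a b : 𝔸) : ip (-a) b = - ip a b := by
  rw [ip_comm, ip_neg_right, ip_comm]

omit [StarModule ℂ 𝔸] [NormedStarGroup 𝔸] in
theorem ip_sub_left (a b c : 𝔸) : ip (a - b) c = ip a c - ip b c := by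
  rw [sub_eq_add_neg, ip_add_left, ip_neg_left, ← sub_eq_add_neg]

omit [StarModule ℂ 𝔸] [NormedStarGroup 𝔸] in
theorem ip_sub_right (a b c : 𝔸) : ip a (b - c) = ip a b - ip a c := by
  rw [sub_eq_add_neg, ip_add_right, ip_neg_right, ← sub_eq_add_neg]

omit [StarModule ℂ 𝔸] [NormedStarGroup 𝔸] in
theorem abs_ip_le (a b : 𝔸) : |ip a b| ≤ ‖a‖ * ‖b‖ := by
  have key : ∀ t : ℝ, 0 ≤ ‖a‖ ^ 2 + 2 * t * ip a b + t ^ 2 * ‖b‖ ^ 2 := by
    intro t
    have h1 : ‖a + t • b‖ ^ 2 = ‖a‖ ^ 2 + 2 * t * ip a b + t ^ 2 * ‖b‖ ^ 2 := by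
      rw [← ip_self, ip_add_left, ip_add_right, ip_add_right, ip_smul_left, ip_smul_left,
        ip_smul_right, ip_smul_right, ip_self, ip_self, ip_comm b a]
      ring
    rw [← h1]; positivity
  apply abs_le_of_sq_le_sq _ (by positivity)
  by_cases hb : ‖b‖ = 0
  · have hb0 : b = 0 := norm_eq_zero.1 hb
    rw [hb0, ip_zero_right]; simp
  · have hb2 : 0 < ‖b‖ ^ 2 := by positivity
    have h2 := key (-(ip a b) / ‖b‖ ^ 2)
    have h3 : ‖a‖ ^ 2 + 2 * (-(ip a b) / ‖b‖ ^ 2) * ip a b + (-(ip a b) / ‖b‖ ^ 2) ^ 2 * ‖b‖ ^ 2 =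
        (‖a‖ ^ 2 * ‖b‖ ^ 2 - ip a b ^ 2) / ‖b‖ ^ 2 := by
      field_simp
      ring
    rw [h3] at h2
    have h4 := (le_div_iff₀ hb2).1 h2
    rw [zero_mul] at h4
    nlinarith

omit [StarModule ℂ 𝔸] [NormedStarGroup 𝔸] in
theorem ip_ext {a b : 𝔸} (h : ∀ c, ip a c = ip b c) : a = b := by
  have h1 : ip (a - b) (a - b) = 0 := by
    rw [ip_sub_left, h, sub_self]
  rw [ip_self] at h1
  exact sub_eq_zero.1 (norm_eq_zero.1 (pow_eq_zero_iff (two_ne_zero) |>.1 h1))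

omit [StarModule ℂ 𝔸] [NormedStarGroup 𝔸] in
/-- `ip` as a continuous bilinear map -/
theorem exists_ipL : ∃ L : 𝔸 →L[ℝ] 𝔸 →L[ℝ] ℝ, ∀ a b, L a b = ip a b := by
  refine ⟨LinearMap.mkContinuous₂ (LinearMap.mk₂ ℝ (fun a b : 𝔸 => ip a b) ip_add_left
    ip_smul_left ip_add_right ip_smul_right) 1 ?_, ?_⟩
  · intro a b
    simp only [LinearMap.mk₂_apply, one_mul, Real.norm_eq_abs]
    exact abs_ip_le a b
  · intro a b
    rfl

end A0

end Pool.Agent.Lib8bb
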