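import Pool.Agent.Lib_MP_8bb00a_gt.L2loc

/-!
PIECE D2: local form of the weak equations for an `L²` limit pair.
-/

open MeasureTheory Complex Set Metric Filter Topology
open scoped Real ContDiff ComplexConjugate Manifold

noncomputable section

namespace Pool.Agent.Lib8bb

section calc1

variable {V : Type*} [NormedAddCommGroup V] [NormedSpace ℂ V]

theorem dzb_zero_of_notMem {f : ℂ → V} {z : ℂ} (hz : z ∉ tsupport f) : dzb f z = 0 := by
  rw [dzb_congr (g := fun _ => (0 : V)) (notMem_tsupport_iff_eventuallyEq.mp hz)]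
  exact dzb_const 0 z

theorem dz_zero_of_notMem {f : ℂ → V} {z : ℂ} (hz : z ∉ tsupport f) : dz f z = 0 := by
  rw [dz_congr (g := fun _ => (0 : V)) (notMem_tsupport_iff_eventuallyEq.mp hz)]
  exact dz_const 0 z

theorem one_le_smooth : (1 : ℕ∞ω) ≤ ∞ := by exact_mod_cast le_top

theorem two_le_smooth : (2 : ℕ∞ω) ≤ ∞ := WithTop.coe_le_coe.2 (le_top : (2 : ℕ∞) ≤ ⊤)

theorem ibp_dzb {U : Set ℂ} (hU : IsOpen U) {f : ℂ → V} (hf : ContDiffOn ℝ 1 f U) {ζ : ℂ → ℂ}
    (hζ : ContDiff ℝ ∞ ζ) (hc : HasCompactSupport ζ) (hs : tsupport ζ ⊆ U) :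
    ∫ z, dzb ζ z • f z = - ∫ z, ζ z • dzb f z := by
  let L : V →L[ℝ] ℂ →L[ℝ] V := (ContinuousLinearMap.lsmul ℝ ℂ : ℂ →L[ℝ] V →L[ℝ] V).flip
  have hL : ∀ a b, L a b = b • a := fun a b => rfl
  let mI : ℂ →L[ℝ] ℂ := (ContinuousLinearMap.lsmul ℝ ℂ I : ℂ →L[ℝ] ℂ)
  let L' : V →L[ℝ] ℂ →L[ℝ] V := (ContinuousLinearMap.compL ℝ ℂ ℂ V).flip mI ∘L L
  have hL' : ∀ a b, L' a b = (I * b) • a := fun a b => rfl
  have hwc : ContinuousOn f U := hf.continuousOn
  have hψc : Continuous ζ := hζ.continuous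
  have hfd : ContinuousOn (fderiv ℝ f) U := (hf.fderiv_of_isOpen hU (m := 0) (by norm_num)).continuousOn
  have hfdv : ∀ v : ℂ, ContinuousOn (fun z => fderiv ℝ f z v) U := fun v =>
    hfd.clm_apply continuousOn_const
  have hgd : Continuous (fderiv ℝ ζ) := hζ.continuous_fderiv (by simp)
  have hgdv : ∀ v : ℂ, Continuous (fun z => fderiv ℝ ζ z v) := fun v =>
    hgd.clm_apply continuous_const
  have hsd : ∀ v : ℂ, tsupport (fun z => fderiv ℝ ζ z v) ⊆ U := fun v =>
    (tsupport_fderiv_apply_subset ℝ v).trans hs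
  have hcd : ∀ v : ℂ, HasCompactSupport (fun z => fderiv ℝ ζ z v) := fun v =>
    hc.fderiv_apply ℝ v
  have hdw : ∀ x ∈ tsupport ζ, DifferentiableAt ℝ f x := fun x hx =>
    ContDiffOn.diffAt hU hf le_rfl (hs hx)
  have hdψ : ∀ x, DifferentiableAt ℝ ζ x := fun x => hζ.differentiable (by simp) x
  have p1 := integral_bilinear_fderiv_right_eq_neg_left_of_integrable (μ := volume)
    (f := f) (g := ζ) (v := (1:ℂ)) (B := L)
    (integrable_bilin L hU (hfdv 1) hψc hc hs)
    (integrable_bilin L hU hwc (hgdv 1) (hcd 1) (hsd 1))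
    (integrable_bilin L hU hwc hψc hc hs) hdw (fun x _ => hdψ x)
  have p2 := integral_bilinear_fderiv_right_eq_neg_left_of_integrable (μ := volume)
    (f := f) (g := ζ) (v := I) (B := L')
    (integrable_bilin L' hU (hfdv I) hψc hc hs)
    (integrable_bilin L' hU hwc (hgdv I) (hcd I) (hsd I))
    (integrable_bilin L' hU hwc hψc hc hs) hdw (fun x _ => hdψ x)
  have i1 := integrable_bilin L hU (hfdv 1) hψc hc hs
  have i2 := integrable_bilin L' hU (hfdv I) hψc hc hs
  have i4 := integrable_bilin L hU hwc (hgdv 1) (hcd 1) (hsd 1)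
  have i5 := integrable_bilin L' hU hwc (hgdv I) (hcd I) (hsd I)
  simp only [hL, hL'] at p1 p2 i1 i2 i4 i5
  have l1 : ∀ z, dzb ζ z • f z = (1 / 2 : ℂ) • ((fderiv ℝ ζ z 1) • f z) +
      (1 / 2 : ℂ) • ((I * fderiv ℝ ζ z I) • f z) := by
    intro z
    rw [dzb]
    simp only [smul_eq_mul]
    module
  have l2 : ∀ z, ζ z • dzb f z = (1 / 2 : ℂ) • (ζ z • fderiv ℝ f z 1) +
      (1 / 2 : ℂ) • ((I * ζ z) • fderiv ℝ f z I) := by
    intro z
    rw [dzb]
    module
  simp only [l1, l2]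
  have j4 : Integrable (fun z => (1 / 2 : ℂ) • ((fderiv ℝ ζ z 1) • f z)) := i4.smul _
  have j5 : Integrable (fun z => (1 / 2 : ℂ) • ((I * fderiv ℝ ζ z I) • f z)) := i5.smul _
  have j1 : Integrable (fun z => (1 / 2 : ℂ) • (ζ z • fderiv ℝ f z 1)) := i1.smul _
  have j2 : Integrable (fun z => (1 / 2 : ℂ) • ((I * ζ z) • fderiv ℝ f z I)) := i2.smul _
  rw [integral_add j4 j5, integral_add j1 j2,
    integral_smul, integral_smul, integral_smul, integral_smul, p1, p2]
  module

theorem WDbar_of_L2c {U : Set ℂ} (hU : IsOpen U) {F Q : ℕ → ℂ → V} {f q : ℂ → V}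
    (hF : ∀ j, ContDiffOn ℝ 1 (F j) U) (hQ : ∀ j, ∀ z ∈ U, dzb (F j) z = Q j z)
    (h1 : ∀ K ⊆ U, IsCompact K → L2c K F f) (h2 : ∀ K ⊆ U, IsCompact K → L2c K Q q) :
    WDbar U f q := by
  intro ζ hζ hc hs
  have hK : IsCompact (tsupport ζ) := hc
  have a1 := ((h1 _ hs hK).csmul hK ((contDiff_dzb hζ (m := 0) (by simp)).continuous.continuousOn)).integral
    hK (fun j z hz => by rw [dzb_zero_of_notMem hz, zero_smul])
    (fun z hz => by rw [dzb_zero_of_notMem hz, zero_smul])
  have a2 := ((h2 _ hs hK).csmul hK (hζ.continuous.continuousOn)).integral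
    hK (fun j z hz => by rw [image_eq_zero_of_notMem_tsupport hz, zero_smul])
    (fun z hz => by rw [image_eq_zero_of_notMem_tsupport hz, zero_smul])
  have e : ∀ j, ∫ z, dzb ζ z • F j z = - ∫ z, ζ z • Q j z := by
    intro j
    rw [ibp_dzb hU (hF j) hζ hc hs]
    congr 1
    refine integral_congr_ae (Eventually.of_forall fun z => ?_)
    by_cases hz : z ∈ tsupport ζ
    · simp only [hQ j z (hs hz)]
    · simp only [image_eq_zero_of_notMem_tsupport hz, zero_smul]
  simp_rw [e] at a1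
  exact tendsto_nhds_unique a1 a2.neg

end calc1

section comm

variable {𝔸 : Type*} [NormedRing 𝔸] [NormedAlgebra ℂ 𝔸] [StarRing 𝔸]

omit [StarRing 𝔸] in
theorem Db_zero_of_notMem {B ψ : ℂ → 𝔸} {z : ℂ} (hz : z ∉ tsupport ψ) : Db B ψ z = 0 := by
  rw [Db, dzb_zero_of_notMem hz, image_eq_zero_of_notMem_tsupport hz]
  simp

theorem Dd_zero_of_notMem {B ψ : ℂ → 𝔸} {z : ℂ} (hz : z ∉ tsupport ψ) : Dd B ψ z = 0 := by
  rw [Dd, dz_zero_of_notMem hz, image_eq_zero_of_notMem_tsupport hz]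
  simp

omit [StarRing 𝔸] in
theorem tsupport_Db_subset (B ψ : ℂ → 𝔸) : tsupport (Db B ψ) ⊆ tsupport ψ :=
  closure_minimal (fun z hz => by
    by_contra h
    exact hz (Db_zero_of_notMem h)) (isClosed_tsupport ψ)

theorem tsupport_Dd_subset (B ψ : ℂ → 𝔸) : tsupport (Dd B ψ) ⊆ tsupport ψ :=
  closure_minimal (fun z hz => by
    by_contra h
    exact hz (Dd_zero_of_notMem h)) (isClosed_tsupport ψ)

omit [StarRing 𝔸] in
theorem hasCompactSupport_Db {B ψ : ℂ → 𝔸} (hc : HasCompactSupport ψ) :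
    HasCompactSupport (Db B ψ) :=
  HasCompactSupport.intro hc fun _ hz => Db_zero_of_notMem hz

theorem hasCompactSupport_Dd {B ψ : ℂ → 𝔸} (hc : HasCompactSupport ψ) :
    HasCompactSupport (Dd B ψ) :=
  HasCompactSupport.intro hc fun _ hz => Dd_zero_of_notMem hz

omit [StarRing 𝔸] in
theorem contDiff_mul_supp {U : Set ℂ} (hU : IsOpen U) {f g : ℂ → 𝔸} {k : ℕ∞ω}
    (hf : ContDiffOn ℝ k f U) (hg : ContDiff ℝ k g) (hs : tsupport g ⊆ U) :
    ContDiff ℝ k (fun z => f z * g z) := by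
  rw [contDiff_iff_contDiffAt]
  intro z
  by_cases hz : z ∈ tsupport g
  · exact (hf.contDiffAt (hU.mem_nhds (hs hz))).mul hg.contDiffAt
  · have h1 := notMem_tsupport_iff_eventuallyEq.mp hz
    have h2 : (fun z => f z * g z) =ᶠ[𝓝 z] fun _ => 0 := by
      filter_upwards [h1] with y hy
      rw [hy]; simp
    exact contDiffAt_const.congr_of_eventuallyEq h2

omit [StarRing 𝔸] in
theorem contDiff_mul_supp' {U : Set ℂ} (hU : IsOpen U) {f g : ℂ → 𝔸} {k : ℕ∞ω}
    (hf : ContDiffOn ℝ k f U) (hg : ContDiff ℝ k g) (hs : tsupport g ⊆ U) :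
    ContDiff ℝ k (fun z => g z * f z) := by
  rw [contDiff_iff_contDiffAt]
  intro z
  by_cases hz : z ∈ tsupport g
  · exact hg.contDiffAt.mul (hf.contDiffAt (hU.mem_nhds (hs hz)))
  · have h1 := notMem_tsupport_iff_eventuallyEq.mp hz
    have h2 : (fun z => g z * f z) =ᶠ[𝓝 z] fun _ => 0 := by
      filter_upwards [h1] with y hy
      rw [hy]; simp
    exact contDiffAt_const.congr_of_eventuallyEq h2

omit [StarRing 𝔸] in
theorem contDiff_Db {U : Set ℂ} (hU : IsOpen U) {B ψ : ℂ → 𝔸} (hB : ContDiffOn ℝ ∞ B U)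
    (hψ : ContDiff ℝ ∞ ψ) (hs : tsupport ψ ⊆ U) : ContDiff ℝ ∞ (Db B ψ) :=
  (contDiff_dzb hψ (by simp)).add
    ((contDiff_mul_supp hU hB hψ hs).sub (contDiff_mul_supp' hU hB hψ hs))

variable [StarModule ℂ 𝔸] [NormedStarGroup 𝔸]

theorem contDiff_Dd {U : Set ℂ} (hU : IsOpen U) {B ψ : ℂ → 𝔸} (hB : ContDiffOn ℝ ∞ B U)
    (hψ : ContDiff ℝ ∞ ψ) (hs : tsupport ψ ⊆ U) : ContDiff ℝ ∞ (Dd B ψ) :=
  (contDiff_dz hψ (by simp)).sub
    ((contDiff_mul_supp hU (contDiffOn_star hB) hψ hs).sub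
      (contDiff_mul_supp' hU (contDiffOn_star hB) hψ hs))

theorem contDiff_star' {ψ : ℂ → 𝔸} (hψ : ContDiff ℝ ∞ ψ) : ContDiff ℝ ∞ (fun z => star (ψ z)) :=
  ((starL' ℝ : 𝔸 ≃L[ℝ] 𝔸) : 𝔸 →L[ℝ] 𝔸).contDiff.comp hψ

omit [NormedAlgebra ℂ 𝔸] [StarModule ℂ 𝔸] [NormedStarGroup 𝔸] in
theorem tsupport_star_subset (ψ : ℂ → 𝔸) : tsupport (fun z => star (ψ z)) ⊆ tsupport ψ :=
  closure_minimal (fun z hz => by
    by_contra h
    exact hz (by simp only [image_eq_zero_of_notMem_tsupport h, star_zero])) (isClosed_tsupport ψ)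

omit [NormedAlgebra ℂ 𝔸] [StarModule ℂ 𝔸] [NormedStarGroup 𝔸] in
theorem hasCompactSupport_star {ψ : ℂ → 𝔸} (hc : HasCompactSupport ψ) :
    HasCompactSupport (fun z => star (ψ z)) :=
  HasCompactSupport.intro hc fun z hz => by
    simp only [image_eq_zero_of_notMem_tsupport hz, star_zero]

variable [TrAlg 𝔸]

omit [StarModule ℂ 𝔸] [NormedStarGroup 𝔸] in
theorem ip_star_left (a b : 𝔸) : ip (star a) b = ip a (star b) := by
  have := ip_star a (star b)
  rwa [star_star] at this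

/-- the commutation formula, integrated against a selfadjoint `C¹` section -/
theorem comm_int {U : Set ℂ} (hU : IsOpen U) {B w ψ : ℂ → 𝔸} (hB : ContDiffOn ℝ ∞ B U)
    (hw : ContDiffOn ℝ 1 w U) (hws : ∀ z ∈ U, star (w z) = w z) (hψ : ContDiff ℝ ∞ ψ)
    (hc : HasCompactSupport ψ) (hs : tsupport ψ ⊆ U) :
    ∫ z, ip (star (Db B w z)) (Dd B ψ z) =
      (∫ z, ip (Db B w z) (Db B ψ z)) + ∫ z, ip (Fc B z * w z - w z * Fc B z) (ψ z) := by
  obtain ⟨L, hL⟩ := exists_ipL (𝔸 := 𝔸)
  have hψ' := contDiff_star' hψ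
  have hs' := (tsupport_star_subset ψ).trans hs
  have hc' := hasCompactSupport_star hc
  have hDb := contDiff_Db hU hB hψ hs
  have hDb' := contDiff_Db hU hB hψ' hs'
  have hDd := contDiff_Dd hU hB hψ hs
  have hB1 : ContDiffOn ℝ 1 B U := hB.of_le one_le_smooth
  have e1 : ∫ z, ip (Db B w z) (Db B ψ z) = -∫ z, ip (w z) (Dd B (Db B ψ) z) :=
    ibp hU hB.continuousOn hw (hDb.of_le one_le_smooth) (hasCompactSupport_Db hc)
      ((tsupport_Db_subset B ψ).trans hs)
  have e2 : ∫ z, ip (Db B w z) (Db B (fun x => star (ψ x)) z) =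
      -∫ z, ip (w z) (Dd B (Db B (fun x => star (ψ x))) z) :=
    ibp hU hB.continuousOn hw (hDb'.of_le one_le_smooth) (hasCompactSupport_Db hc')
      ((tsupport_Db_subset B _).trans hs')
  have f1 : Db B (fun x => star (ψ x)) = fun z => star (Dd B ψ z) := by
    funext z
    exact Db_star (hψ.differentiable (by simp) z)
  have p1 : ∀ z, ip (star (Db B w z)) (Dd B ψ z) =
      ip (Db B w z) (Db B (fun x => star (ψ x)) z) := by
    intro z
    rw [f1, ip_star_left]
  have p2 : ∀ z, ip (w z) (Dd B (Db B (fun x => star (ψ x))) z) =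
      ip (w z) (Db B (Dd B ψ) z) := by
    intro z
    have h1 : Dd B (Db B (fun x => star (ψ x))) z = star (Db B (Dd B ψ) z) := by
      rw [f1]
      exact Dd_star (hDd.differentiable (by simp) z)
    rw [h1]
    by_cases hz : z ∈ tsupport ψ
    · rw [← ip_star_left, hws z (hs hz)]
    · have h2 : z ∉ tsupport (Dd B ψ) := fun h => hz (tsupport_Dd_subset B ψ h)
      rw [Db_zero_of_notMem h2, star_zero]
  have p3 : ∀ z, ip (w z) (Dd B (Db B ψ) z) - ip (w z) (Db B (Dd B ψ) z) =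
      ip (Fc B z * w z - w z * Fc B z) (ψ z) := by
    intro z
    by_cases hz : z ∈ tsupport ψ
    · have h1 := Db_Dd_comm hU hB1 ((hψ.of_le two_le_smooth).contDiffOn (s := U)) (hs hz)
      have h2 : Dd B (Db B ψ) z - Db B (Dd B ψ) z = Fc B z * ψ z - ψ z * Fc B z := by
        rw [← neg_sub, h1, neg_neg]
      rw [← ip_sub_right, h2, ip_sub_right, ip_sub_left, ip_mul_left, ip_mul_right,
        Fc_star hU hB1 (hs hz)]
    · have h2 : z ∉ tsupport (Dd B ψ) := fun h => hz (tsupport_Dd_subset B ψ h)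
      have h3 : z ∉ tsupport (Db B ψ) := fun h => hz (tsupport_Db_subset B ψ h)
      rw [Db_zero_of_notMem h2, Dd_zero_of_notMem h3, image_eq_zero_of_notMem_tsupport hz,
        ip_zero_right, ip_zero_right, sub_zero]
  have i1 : Integrable (fun z => ip (w z) (Dd B (Db B ψ) z)) := by
    have := integrable_bilin L hU hw.continuousOn
      (contDiff_Dd hU hB hDb ((tsupport_Db_subset B ψ).trans hs)).continuous
      (hasCompactSupport_Dd (hasCompactSupport_Db hc))
      ((tsupport_Dd_subset B _).trans ((tsupport_Db_subset B ψ).trans hs))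
    simpa only [hL] using this
  have i2 : Integrable (fun z => ip (w z) (Db B (Dd B ψ) z)) := by
    have := integrable_bilin L hU hw.continuousOn
      (contDiff_Db hU hB hDd ((tsupport_Dd_subset B ψ).trans hs)).continuous
      (hasCompactSupport_Db (hasCompactSupport_Dd hc))
      ((tsupport_Db_subset B _).trans ((tsupport_Dd_subset B ψ).trans hs))
    simpa only [hL] using this
  simp_rw [p1, ← p3]
  rw [e1, e2, integral_sub i1 i2]
  simp_rw [p2]
  ring

end comm

section local1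

variable {𝔸 : Type*} [NormedRing 𝔸] [NormedAlgebra ℂ 𝔸]

/-- the test sections which are used in the holomorphic frame -/
theorem Db_test {U : Set ℂ} (hU : IsOpen U) {G Gi : ℂ → 𝔸} (hG : ContDiffOn ℝ ∞ G U)
    (hGi : ContDiffOn ℝ ∞ Gi U) (h1 : ∀ z ∈ U, G z * Gi z = 1) (h2 : ∀ z ∈ U, Gi z * G z = 1)
    {θ : ℂ → ℂ} (hθ : ContDiff ℝ ∞ θ) (hs : tsupport θ ⊆ U) (c : 𝔸) :
    ContDiff ℝ ∞ (fun z => θ z • (Gi z * c * G z)) ∧
    ∀ z, Db (fun x => Gi x * dzb G x) (fun z => θ z • (Gi z * c * G z)) z =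
      dzb θ z • (Gi z * c * G z) := by
  have hsm : ContDiff ℝ ∞ (fun z => θ z • (Gi z * c * G z)) :=
    contDiff_cutoff_smul (k := ⊤) hU hθ hs ((hGi.mul contDiffOn_const).mul hG)
  refine ⟨hsm, fun z => ?_⟩
  by_cases hz : z ∈ tsupport θ
  · have hzU := hs hz
    have h3 := Db_frame hU (hG.of_le one_le_smooth) (hGi.of_le one_le_smooth) h1 h2 hzU
      (hsm.differentiable (by simp) z)
    have h4 : (fun x => G x * (θ x • (Gi x * c * G x)) * Gi x) =ᶠ[𝓝 z] fun x => θ x • c := by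
      filter_upwards [hU.mem_nhds hzU] with x hx
      have e : G x * (Gi x * c * G x) * Gi x = (G x * Gi x) * c * (G x * Gi x) := by noncomm_ring
      rw [mul_smul_comm, smul_mul_assoc, e, h1 x hx, one_mul, mul_one]
    have h5 : dzb (fun x => θ x • c) z = dzb θ z • c := by
      have := dzb_smul (f := fun _ => c) (hθ.differentiable (by simp) z) (differentiableAt_const c)
      rw [this, dzb_const, smul_zero, add_zero]
    have h6 : dzb (fun x => G x * (θ x • (Gi x * c * G x)) * Gi x) z = dzb θ z • c := by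
      rw [dzb_congr h4, h5]
    rw [h6] at h3
    have e1 : Gi z * (dzb θ z • c) * G z = dzb θ z • (Gi z * c * G z) := by
      rw [mul_smul_comm, smul_mul_assoc]
    rw [← e1, h3]
    have e2 : ∀ d : 𝔸, Gi z * (G z * d * Gi z) * G z = (Gi z * G z) * d * (Gi z * G z) := by
      intro d; noncomm_ring
    rw [e2, h2 z hzU, one_mul, mul_one]
  · have h3 : z ∉ tsupport (fun z => θ z • (Gi z * c * G z)) := fun h =>
      hz (closure_mono (Function.support_smul_subset_left _ _) h)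
    rw [Db_zero_of_notMem h3, dzb_zero_of_notMem hz, zero_smul]

theorem Db_add {B v w : ℂ → 𝔸} {z : ℂ} (hv : DifferentiableAt ℝ v z)
    (hw : DifferentiableAt ℝ w z) : Db B (fun x => v x + w x) z = Db B v z + Db B w z := by
  simp only [Db]
  rw [dzb_add hv hw, mul_add, add_mul]
  abel

theorem Db_congr {B v w : ℂ → 𝔸} {z : ℂ} (h : v =ᶠ[𝓝 z] w) : Db B v z = Db B w z := by
  simp only [Db]
  rw [dzb_congr h, h.eq_of_nhds]

end local1

section ae

/-- `L²` limits of selfadjoint functions are selfadjoint -/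
theorem ae_star_of_tendsto {α : Type*} [MeasurableSpace α] {μ : Measure α} {V : Type*}
    [NormedAddCommGroup V] [StarAddMonoid V] [NormedStarGroup V] {η : ℕ → α → V} {w : α → V}
    (hη : ∀ j x, star (η j x) = η j x) (hm : ∀ j, AEStronglyMeasurable (η j) μ)
    (hw : AEStronglyMeasurable w μ)
    (h : Tendsto (fun j => eLpNorm (fun x => η j x - w x) 2 μ) atTop (𝓝 0)) :
    ∀ᵐ x ∂μ, star (w x) = w x := by
  have h1 : TendstoInMeasure μ η atTop w :=
    tendstoInMeasure_of_tendsto_eLpNorm (by norm_num) hm hw h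
  obtain ⟨ns, -, h2⟩ := h1.exists_seq_tendsto_ae
  filter_upwards [h2] with x hx
  have h3 : Tendsto (fun i => star (η (ns i) x)) atTop (𝓝 (star (w x))) :=
    (continuous_star.tendsto _).comp hx
  simp only [hη] at h3
  exact tendsto_nhds_unique h3 hx

end ae

section lp

theorem memLp_csmul {V : Type*} [NormedAddCommGroup V] [NormedSpace ℂ V] {K : Set ℂ}
    (hK : IsCompact K) {f : ℂ → V} {p : ENNReal} (hf : MemLp f p (volume.restrict K)) {k : ℂ → ℂ}
    (hk : ContinuousOn k K) : MemLp (fun z => k z • f z) p (volume.restrict K) := by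
  obtain ⟨M, hM0, hM⟩ := exists_norm_bound hK hk
  have hkm : AEStronglyMeasurable k (volume.restrict K) :=
    hk.aestronglyMeasurable hK.measurableSet
  refine memLp_of_bound hK.measurableSet hf (hkm.smul hf.1) M ?_
  intro z hz
  rw [norm_smul]; gcongr; exact hM z hz

end lp

section surf

variable {X : Type*} [TopologicalSpace X] [ChartedSpace ℂ X] [IsManifold 𝓘(ℂ) ω X]
  [CompactSpace X] [T2Space X] [MeasurableSpace X] [BorelSpace X]
variable {𝔸 : Type*} [NormedRing 𝔸] [NormedAlgebra ℂ 𝔸] [StarRing 𝔸] [StarModule ℂ 𝔸]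
  [NormedStarGroup 𝔸] [TrAlg 𝔸]

omit [StarModule ℂ 𝔸] [NormedStarGroup 𝔸] in
theorem ip_sum_left {ι : Type*} (s : Finset ι) (f : ι → 𝔸) (v : 𝔸) :
    ip (∑ i ∈ s, f i) v = ∑ i ∈ s, ip (f i) v := by
  classical
  induction s using Finset.induction_on with
  | empty => simp [ip_zero_left]
  | insert i s hi ih => rw [Finset.sum_insert hi, Finset.sum_insert hi, ip_add_left, ih]

omit [IsManifold 𝓘(ℂ) ω X] [CompactSpace X] [BorelSpace X] [StarRing 𝔸] [StarModule ℂ 𝔸]
  [NormedStarGroup 𝔸] [TrAlg 𝔸] in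
/-- the covariant derivatives of a section supported in a chart vanish outside of it -/
theorem pa_extZ_zero (D : SurfData X) (b : Bun X 𝔸) {e : OpenPartialHomeomorph X ℂ}
    {f : ℂ → 𝔸} {K : Set ℂ} (hK : IsCompact K) (hKt : K ⊆ e.target)
    (hf : ∀ z ∈ e.target, z ∉ K → f z = 0) (a : D.A) {x : X} (hx : x ∉ e.source) :
    pa D b a (extZ e f) x = 0 := by
  by_cases hm : D.m a x = 0
  · simp [pa, hm]
  · have hxs : x ∈ (D.c a).source := D.m_ne hm
    have hcl : IsClosed (e.symm '' K) := (isCompact_symm_image hK hKt).isClosed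
    have hxK : x ∉ e.symm '' K := by
      rintro ⟨z, hz, rfl⟩
      exact hx (e.map_target (hKt hz))
    have h1 : ∀ᶠ y in 𝓝 x, extZ e f y = 0 := by
      filter_upwards [hcl.isOpen_compl.mem_nhds hxK] with y hy using extZ_eq_zero hf hy
    have h2 : ∀ᶠ z in 𝓝 ((D.c a) x), extZ e f ((D.c a).symm z) = 0 := by
      have := (D.c a).continuousAt_symm ((D.c a).map_source hxs)
      rw [ContinuousAt, (D.c a).left_inv hxs] at this
      exact this.eventually h1
    have h3 : Db (b.B (D.c a)) (fun z => extZ e f ((D.c a).symm z)) (D.c a x) = 0 := by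
      have h4 : (fun z => extZ e f ((D.c a).symm z)) =ᶠ[𝓝 ((D.c a) x)] fun _ => (0 : 𝔸) := h2
      rw [Db_congr h4]
      simp [Db]
    rw [pa, h3, smul_zero]

omit [TrAlg 𝔸] in
theorem continuousOn_Fc {U : Set ℂ} (hU : IsOpen U) {B : ℂ → 𝔸} (hB : ContDiffOn ℝ ∞ B U) :
    ContinuousOn (Fc B) U := by
  have h1 : ContDiffOn ℝ ∞ (dz B) U := contDiffOn_dz hU hB (by simp)
  have h2 : ContDiffOn ℝ ∞ (dzb (fun x => star (B x))) U :=
    contDiffOn_dzb hU (contDiffOn_star hB) (by simp)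
  have h3 := (contDiffOn_star hB).continuousOn
  exact (h1.continuousOn.add h2.continuousOn).add
    ((hB.continuousOn.mul h3).sub (h3.mul hB.continuousOn))

omit [IsManifold 𝓘(ℂ) ω X] [T2Space X] [StarModule ℂ 𝔸] [NormedStarGroup 𝔸] in
theorem memLp_pot (D : SurfData X) {W : X → 𝔸 →L[ℝ] 𝔸} (hW : Pot X 𝔸 W) {w : X → 𝔸}
    (hw : MemLp w 2 D.ν) : MemLp (fun x => W x (w x)) 2 D.ν := by
  obtain ⟨M, hM0, hM⟩ := cont_bound hW.cont
  have hm : AEStronglyMeasurable (fun x => W x (w x)) D.ν :=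
    (ContinuousLinearMap.apply ℝ 𝔸 : 𝔸 →L[ℝ] (𝔸 →L[ℝ] 𝔸) →L[ℝ] 𝔸).aestronglyMeasurable_comp₂
      hw.1 (cont_memLp (μ := D.ν) hW.cont 2).1
  refine hw.of_le_mul (c := M) hm (Eventually.of_forall fun x => ?_)
  exact (W x).le_of_opNorm_le (hM x) _

omit [IsManifold 𝓘(ℂ) ω X] [T2Space X] [StarModule ℂ 𝔸] [NormedStarGroup 𝔸] in
theorem memLp_s0 (D : SurfData X) {W : X → 𝔸 →L[ℝ] 𝔸} (hW : Pot X 𝔸 W)
    {ρ : X → 𝔸} (hρ : AEStronglyMeasurable ρ D.ν) {C : ℝ} (hρC : ∀ x, ‖ρ x‖ ≤ C)
    {w : X → 𝔸} (hw : MemLp w 2 D.ν) {e : OpenPartialHomeomorph X ℂ} (he : e ∈ atlas ℂ X)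
    {K : Set ℂ} (hK : IsCompact K) (hs : K ⊆ e.target) :
    MemLp (fun z => D.n e z • (W (e.symm z) (w (e.symm z)) - ρ (e.symm z))) 2
      (volume.restrict K) := by
  have hρm : MemLp ρ 2 D.ν := MemLp.of_bound hρ C (Eventually.of_forall hρC)
  have h1 : MemLp (fun z => W (e.symm z) (w (e.symm z)) - ρ (e.symm z)) 2 (volume.restrict K) :=
    D.memLp_chart he (f := fun x => W x (w x) - ρ x) ((memLp_pot D hW hw).sub hρm) hK hs
  exact memLp_bilin (ContinuousLinearMap.lsmul ℝ ℝ : ℝ →L[ℝ] 𝔸 →L[ℝ] 𝔸).flip hK h1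
    ((D.n_smooth e he).continuousOn.mono hs)

omit [IsManifold 𝓘(ℂ) ω X] [CompactSpace X] [T2Space X] [TrAlg 𝔸] in
theorem memLp_T (D : SurfData X) (b : Bun X 𝔸)
    {w : X → 𝔸} (hw : MemLp w 2 D.ν) {e : OpenPartialHomeomorph X ℂ} (he : e ∈ atlas ℂ X)
    {K : Set ℂ} (hK : IsCompact K) (hs : K ⊆ e.target) :
    MemLp (fun z => Fc (b.B e) z * w (e.symm z) - w (e.symm z) * Fc (b.B e) z) 2
      (volume.restrict K) := by
  have hU : IsOpen e.target := e.open_target
  have hB := b.B_smooth he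
  have hw'm : MemLp (fun z => w (e.symm z)) 2 (volume.restrict K) := D.memLp_chart he hw hK hs
  have hFc : ContinuousOn (Fc (b.B e)) e.target := continuousOn_Fc hU hB
  exact (memLp_bilin (ContinuousLinearMap.mul ℝ 𝔸).flip hK hw'm (hFc.mono hs)).sub
      (memLp_bilin (ContinuousLinearMap.mul ℝ 𝔸) hK hw'm (hFc.mono hs))

/-- the weak equation in a chart, tested with an arbitrary compactly supported section -/
theorem weak_key (D : SurfData X) (b : Bun X 𝔸) {W : X → 𝔸 →L[ℝ] 𝔸} (hW : Pot X 𝔸 W)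
    {ρ : X → 𝔸} (hρ : AEStronglyMeasurable ρ D.ν) {C : ℝ} (hρC : ∀ x, ‖ρ x‖ ≤ C)
    (hρs : ∀ᵐ x ∂D.ν, star (ρ x) = ρ x)
    {w : X → 𝔸} {q : D.A → X → 𝔸} (hwq : WPair D b w q) (h : WEq D b W ρ w q)
    (hws : ∀ᵐ x ∂D.ν, star (w x) = w x)
    {e : OpenPartialHomeomorph X ℂ} (he : e ∈ atlas ℂ X) {ψ : ℂ → 𝔸} (hψ : ContDiff ℝ ∞ ψ)
    (hc : HasCompactSupport ψ) (hs : tsupport ψ ⊆ e.target)
    (hcomm : ∫ z, ip (star (∑ a, kap D e a z • q a (e.symm z))) (Dd (b.B e) ψ z) =
      (∫ z, ip (∑ a, kap D e a z • q a (e.symm z)) (Db (b.B e) ψ z)) +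
      ∫ z, ip (Fc (b.B e) z * w (e.symm z) - w (e.symm z) * Fc (b.B e) z) (ψ z)) :
    ∫ z, ip (∑ a, kap D e a z • q a (e.symm z)) (Db (b.B e) ψ z) =
      - ∫ z, ip (D.n e z • (W (e.symm z) (w (e.symm z)) - ρ (e.symm z)) +
        (1 / 2 : ℝ) • (Fc (b.B e) z * w (e.symm z) - w (e.symm z) * Fc (b.B e) z)) (ψ z) := by
  obtain ⟨L, hL⟩ := exists_ipL (𝔸 := 𝔸)
  have hU : IsOpen e.target := e.open_target
  have hK : IsCompact (tsupport ψ) := hc
  have hB := b.B_smooth he
  set f : ℂ → 𝔸 := fun z => ψ z + star (ψ z) with hf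
  have hfs : ContDiff ℝ ∞ f := hψ.add (contDiff_star' hψ)
  have hf0 : ∀ z ∈ e.target, z ∉ tsupport ψ → f z = 0 := by
    intro z _ hz
    simp only [hf, image_eq_zero_of_notMem_tsupport hz, star_zero, add_zero]
  -- the global test section
  set ζ : X → 𝔸 := extZ e f with hζdef
  have hζ1 : Ck 1 ζ :=
    Ck_extZ he ((hfs.of_le one_le_smooth).contDiffOn) hK hs hf0
  have hζ : Sec1 ζ := by
    refine ⟨hζ1, fun x => ?_⟩
    by_cases hx : x ∈ e.source
    · rw [hζdef, extZ_apply hx, hf]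
      simp only [star_add, star_star]
      abel
    · rw [hζdef, extZ, indicator_of_notMem hx, star_zero]
  have hζ0 : ∀ x, x ∉ e.source → ζ x = 0 := by
    intro x hx
    rw [hζdef, extZ, indicator_of_notMem hx]
  have hpa0 : ∀ a, ∀ x, x ∉ e.source → pa D b a ζ x = 0 := fun a x hx =>
    pa_extZ_zero D b hK hs hf0 a hx
  -- integrability on the surface
  have hWw : MemLp (fun x => W x (w x)) 2 D.ν := memLp_pot D hW hwq.memw
  have hρm : MemLp ρ 2 D.ν := MemLp.of_bound hρ C (Eventually.of_forall hρC)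
  have hζc : Continuous ζ := hζ1.continuous
  obtain ⟨M0, hM00, hM0⟩ := cont_bound hζc
  have hζm : AEStronglyMeasurable ζ D.ν := (cont_memLp (μ := D.ν) hζc 2).1
  have I1 : ∀ a, Integrable (fun x => ip (q a x) (pa D b a ζ x)) D.ν := by
    intro a
    obtain ⟨M1, hM10, hM1⟩ := cont_bound (pa_continuous D b hζ1 a)
    exact integrable_ip ((hwq.memq a).integrable (by norm_num))
      (cont_memLp (μ := D.ν) (pa_continuous D b hζ1 a) 2).1 hM1
  have I1' : Integrable (fun x => ∑ a, ip (q a x) (pa D b a ζ x)) D.ν :=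
    integrable_finsetSum _ fun a _ => I1 a
  have I2 : Integrable (fun x => ip (W x (w x)) (ζ x)) D.ν :=
    integrable_ip (hWw.integrable (by norm_num)) hζm hM0
  have I3 : Integrable (fun x => ip (ρ x) (ζ x)) D.ν :=
    integrable_ip (hρm.integrable (by norm_num)) hζm hM0
  have hΦ : ∫ x, ((∑ a, ip (q a x) (pa D b a ζ x)) + ip (W x (w x) - ρ x) (ζ x)) ∂D.ν = 0 := by
    have h1 := h ζ hζ
    have h2 : ∀ x, (∑ a, ip (q a x) (pa D b a ζ x)) + ip (W x (w x) - ρ x) (ζ x) =
        ((∑ a, ip (q a x) (pa D b a ζ x)) + ip (W x (w x)) (ζ x)) - ip (ρ x) (ζ x) := by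
      intro x; rw [ip_sub_left]; ring
    have I12 : Integrable (fun x => (∑ a, ip (q a x) (pa D b a ζ x)) + ip (W x (w x)) (ζ x)) D.ν :=
      I1'.add I2
    simp_rw [h2]
    rw [integral_sub I12 I3, h1, sub_self]
  have hΦm : AEStronglyMeasurable
      (fun x => (∑ a, ip (q a x) (pa D b a ζ x)) + ip (W x (w x) - ρ x) (ζ x)) D.ν :=
    I1'.1.add (aesm_ip (hWw.1.sub hρ) hζm)
  rw [D.integral_chart he hΦm (fun x hx => by
    rw [hζ0 x hx, ip_zero_right, add_zero]
    exact Finset.sum_eq_zero fun a _ => by rw [hpa0 a x hx, ip_zero_right])] at hΦ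
  -- the local quantities
  set q' : ℂ → 𝔸 := fun z => ∑ a, kap D e a z • q a (e.symm z) with hq'
  set s0 : ℂ → 𝔸 := fun z => D.n e z • (W (e.symm z) (w (e.symm z)) - ρ (e.symm z)) with hs0
  set T : ℂ → 𝔸 := fun z => Fc (b.B e) z * w (e.symm z) - w (e.symm z) * Fc (b.B e) z with hT
  have hq'm : MemLp q' 2 (volume.restrict (tsupport ψ)) :=
    memLp_finsetSum _ fun a _ => memLp_csmul hK (D.memLp_chart he (hwq.memq a) hK hs)
      ((kap_smooth D he a).continuousOn.mono hs)
  have hq'sm : MemLp (fun z => star (q' z)) 2 (volume.restrict (tsupport ψ)) :=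
    hq'm.of_le (continuous_star.comp_aestronglyMeasurable hq'm.1)
      (Eventually.of_forall fun z => by rw [norm_star])
  have hs0m : MemLp s0 2 (volume.restrict (tsupport ψ)) := memLp_s0 D hW hρ hρC hwq.memw he hK hs
  have hTm : MemLp T 2 (volume.restrict (tsupport ψ)) := memLp_T D b hwq.memw he hK hs
  have hDbc : Continuous (Db (b.B e) ψ) := (contDiff_Db hU hB hψ hs).continuous
  have hDdc : Continuous (Dd (b.B e) ψ) := (contDiff_Dd hU hB hψ hs).continuous
  have key1 : ∀ {F g : ℂ → 𝔸}, MemLp F 2 (volume.restrict (tsupport ψ)) → Continuous g →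
      (∀ z, z ∉ tsupport ψ → g z = 0) → Integrable (fun z => ip (F z) (g z)) := by
    intro F g hF hg hg0
    have h1 := memLp_bilin L hK hF hg.continuousOn
    simp only [hL] at h1
    exact L2c.integrable hK h1 (fun z hz => by rw [hg0 z hz, ip_zero_right])
  have J1 : Integrable (fun z => ip (q' z) (Db (b.B e) ψ z)) :=
    key1 hq'm hDbc fun z hz => Db_zero_of_notMem hz
  have J2 : Integrable (fun z => ip (star (q' z)) (Dd (b.B e) ψ z)) :=
    key1 hq'sm hDdc fun z hz => Dd_zero_of_notMem hz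
  have J3 : Integrable (fun z => ip (s0 z) (ψ z)) :=
    key1 hs0m hψ.continuous fun z hz => image_eq_zero_of_notMem_tsupport hz
  have J4 : Integrable (fun z => ip (T z) (ψ z)) :=
    key1 hTm hψ.continuous fun z hz => image_eq_zero_of_notMem_tsupport hz
  -- the pointwise identity
  have key : ∀ᵐ z ∂(volume.restrict e.target),
      D.n e z • ((∑ a, ip (q a (e.symm z)) (pa D b a ζ (e.symm z))) +
        ip (W (e.symm z) (w (e.symm z)) - ρ (e.symm z)) (ζ (e.symm z))) =
      ip (q' z) (Db (b.B e) ψ z) + ip (star (q' z)) (Dd (b.B e) ψ z) + 2 * ip (s0 z) (ψ z) := by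
    filter_upwards [ae_restrict_mem hU.measurableSet, D.ae_chart he hws, D.ae_chart he hρs]
      with z hz hwz hρz
    have hnz : D.n e z ≠ 0 := (D.n_pos e he z hz).ne'
    have hDz : Db (b.B e) (fun x => ζ (e.symm x)) z =
        Db (b.B e) ψ z + star (Dd (b.B e) ψ z) := by
      have h1 : (fun x => ζ (e.symm x)) =ᶠ[𝓝 z] fun x => ψ x + star (ψ x) := by
        filter_upwards [hU.mem_nhds hz] with x hx
        rw [hζdef, extZ_symm hx]
      have h2 : DifferentiableAt ℝ ψ z := hψ.differentiable (by simp) z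
      rw [Db_congr h1, Db_add h2 (diffAt_star h2), Db_star h2]
    have hsum : D.n e z * (∑ a, ip (q a (e.symm z)) (pa D b a ζ (e.symm z))) =
        ip (q' z) (Db (b.B e) ψ z) + ip (star (q' z)) (Dd (b.B e) ψ z) := by
      rw [ip_star_left, ← ip_add_right, ← hDz, hq', ip_sum_left, Finset.mul_sum]
      refine Finset.sum_congr rfl fun a _ => ?_
      rw [pa_eq D b he hz hζ1 a, ip_smul_right, ip_csmul_left, ← mul_assoc,
        mul_inv_cancel₀ hnz, one_mul]
    have hs0z : star (s0 z) = s0 z := by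
      rw [hs0]
      simp only [star_smul, star_trivial, star_sub, hρz, hW.star_comm, hwz]
    have hval : ζ (e.symm z) = ψ z + star (ψ z) := by rw [hζdef, extZ_symm hz]
    have hpot : D.n e z * ip (W (e.symm z) (w (e.symm z)) - ρ (e.symm z)) (ζ (e.symm z)) =
        2 * ip (s0 z) (ψ z) := by
      rw [← ip_smul_left, hval, ip_add_right]
      have h1 : ip (s0 z) (star (ψ z)) = ip (s0 z) (ψ z) := by
        rw [← ip_star_left, hs0z]
      have h2 : D.n e z • (W (e.symm z) (w (e.symm z)) - ρ (e.symm z)) = s0 z := rfl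
      rw [h2, h1]
      ring
    rw [smul_eq_mul, mul_add, hsum, hpot]
  rw [integral_congr_ae key] at hΦ
  rw [setIntegral_eq_integral_of_forall_compl_eq_zero (fun z hz => by
    have hz' : z ∉ tsupport ψ := fun h => hz (hs h)
    rw [Db_zero_of_notMem hz', Dd_zero_of_notMem hz', image_eq_zero_of_notMem_tsupport hz',
      ip_zero_right, ip_zero_right, ip_zero_right, mul_zero, add_zero, add_zero])] at hΦ
  have J12 : Integrable (fun z => ip (q' z) (Db (b.B e) ψ z) +
      ip (star (q' z)) (Dd (b.B e) ψ z)) := J1.add J2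
  rw [integral_add J12 (J3.const_mul 2), integral_add J1 J2, integral_const_mul] at hΦ
  have hend : ∀ z, ip (s0 z + (1 / 2 : ℝ) • T z) (ψ z) =
      ip (s0 z) (ψ z) + (1 / 2) * ip (T z) (ψ z) := by
    intro z; rw [ip_add_left, ip_smul_left (1 / 2 : ℝ)]
  show ∫ z, ip (q' z) (Db (b.B e) ψ z) = - ∫ z, ip (s0 z + (1 / 2 : ℝ) • T z) (ψ z)
  simp_rw [hend]
  rw [integral_add J3 (J4.const_mul _), integral_const_mul]
  rw [hcomm] at hΦ
  linarith

/-- D2: local form of the weak equations -/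
theorem weak_local [FiniteDimensional ℂ 𝔸] (D : SurfData X) (b : Bun X 𝔸)
    {W : X → 𝔸 →L[ℝ] 𝔸} (hW : Pot X 𝔸 W)
    {ρ : X → 𝔸} (hρ : AEStronglyMeasurable ρ D.ν) {C : ℝ} (hρC : ∀ x, ‖ρ x‖ ≤ C)
    (hρs : ∀ᵐ x ∂D.ν, star (ρ x) = ρ x)
    {w : X → 𝔸} {q : D.A → X → 𝔸} (hwq : WPair D b w q) (h : WEq D b W ρ w q)
    {e : OpenPartialHomeomorph X ℂ} (he : e ∈ atlas ℂ X) :
    (∀ K ⊆ e.target, IsCompact K → MemLp (fun z => w (e.symm z)) 2 (volume.restrict K)) ∧
    (∀ K ⊆ e.target, IsCompact K →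
      MemLp (fun z => ∑ a, kap D e a z • q a (e.symm z)) 2 (volume.restrict K)) ∧
    (∀ᵐ z ∂(volume.restrict e.target), star (w (e.symm z)) = w (e.symm z)) ∧
    WDbar e.target (fun z => b.G e z * w (e.symm z) * b.Gi e z)
      (fun z => b.G e z * (∑ a, kap D e a z • q a (e.symm z)) * b.Gi e z) ∧
    WDz e.target
      (fun z => star (b.Gi e z) * (∑ a, kap D e a z • q a (e.symm z)) * star (b.G e z))
      (fun z => star (b.Gi e z) * (D.n e z • (W (e.symm z) (w (e.symm z)) - ρ (e.symm z)) +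
        (1 / 2 : ℝ) • (Fc (b.B e) z * w (e.symm z) - w (e.symm z) * Fc (b.B e) z)) *
        star (b.G e z)) := by
  obtain ⟨η, hη, hηw, hηq⟩ := hwq.approx
  have : CompleteSpace 𝔸 := FiniteDimensional.complete ℂ 𝔸
  obtain ⟨L, hL⟩ := exists_ipL (𝔸 := 𝔸)
  have hU : IsOpen e.target := e.open_target
  have hB := b.B_smooth he
  have hGs := b.G_smooth e he
  have hGis := b.Gi_smooth e he
  have hGc := hGs.continuousOn
  have hGic := hGis.continuousOn
  have hGsc : ContinuousOn (fun z => star (b.G e z)) e.target := hGc.star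
  have hGisc : ContinuousOn (fun z => star (b.Gi e z)) e.target := hGic.star
  have hws : ∀ᵐ x ∂D.ν, star (w x) = w x :=
    ae_star_of_tendsto (fun j => (hη j).2)
      (fun j => (cont_memLp (μ := D.ν) (hη j).1.continuous 2).1) hwq.memw.1 hηw
  have hLw : ∀ K ⊆ e.target, IsCompact K →
      L2c K (fun j z => η j (e.symm z)) (fun z => w (e.symm z)) := fun K hK hKc =>
    D.L2c_pull he hKc hK (fun j => cont_memLp (hη j).1.continuous 2) hwq.memw hηw
  have hLq : ∀ K ⊆ e.target, IsCompact K →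
      L2c K (fun j => Db (b.B e) (fun x => η j (e.symm x)))
        (fun z => ∑ a, kap D e a z • q a (e.symm z)) := by
    intro K hK hKc
    have h1 : L2c K (fun j z => ∑ a, kap D e a z • pa D b a (η j) (e.symm z))
        (fun z => ∑ a, kap D e a z • q a (e.symm z)) :=
      L2c.sum fun a _ => (D.L2c_pull he hKc hK
        (fun j => cont_memLp (pa_continuous D b (hη j).1 a) 2) (hwq.memq a) (hηq a)).csmul hKc
          ((kap_smooth D he a).continuousOn.mono hK)
    exact h1.congr hKc.measurableSet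
      (fun j z hz => (Db_eq_sum D b he (hK hz) (hη j).1).symm) (fun _ _ => rfl)
  refine ⟨fun K hK hKc => (hLw K hK hKc).mem', fun K hK hKc => (hLq K hK hKc).mem',
    D.ae_chart he hws, ?_, ?_⟩
  · refine WDbar_of_L2c hU (F := fun j z => b.G e z * η j (e.symm z) * b.Gi e z)
      (Q := fun j z => b.G e z * Db (b.B e) (fun x => η j (e.symm x)) z * b.Gi e z) ?_ ?_ ?_ ?_
    · intro j
      exact ((hGs.of_le one_le_smooth).mul ((hη j).1 e he)).mul (hGis.of_le one_le_smooth)
    · intro j z hz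
      exact Db_frame hU (hGs.of_le one_le_smooth) (hGis.of_le one_le_smooth) (b.mul_Gi e he)
        (b.Gi_mul e he) hz (((hη j).1.contDiffAt he hz).differentiableAt (by simp))
    · intro K hK hKc
      exact ((hLw K hK hKc).mul_left hKc (hGc.mono hK)).mul_right hKc (hGic.mono hK)
    · intro K hK hKc
      exact ((hLq K hK hKc).mul_left hKc (hGc.mono hK)).mul_right hKc (hGic.mono hK)
  · intro ζ hζ hc hs
    have hK : IsCompact (tsupport ζ) := hc
    set s : ℂ → 𝔸 := fun z => D.n e z • (W (e.symm z) (w (e.symm z)) - ρ (e.symm z)) +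
        (1 / 2 : ℝ) • (Fc (b.B e) z * w (e.symm z) - w (e.symm z) * Fc (b.B e) z) with hsdef
    set θ : ℂ → ℂ := fun z => star (ζ z) with hθdef
    have hθ : ContDiff ℝ ∞ θ := contDiff_star' hζ
    have hθc : HasCompactSupport θ := hasCompactSupport_star hc
    have hθs : tsupport θ ⊆ e.target := (tsupport_star_subset ζ).trans hs
    have hdθ : ∀ z, dzb θ z = conj (dz ζ z) := fun z =>
      dzb_star (hζ.differentiable (by simp) z)
    apply ip_ext
    intro c
    obtain ⟨hψ, hDψ⟩ := Db_test hU hGs hGis (b.mul_Gi e he) (b.Gi_mul e he) hθ hθs c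
    set ψ : ℂ → 𝔸 := fun z => θ z • (b.Gi e z * c * b.G e z) with hψdef
    have hψsub : tsupport ψ ⊆ tsupport θ := closure_mono fun z hz (hh : θ z = 0) =>
      hz (by simp only [hψdef, hh, zero_smul])
    have hψc : HasCompactSupport ψ := hθc.of_isClosed_subset (isClosed_tsupport _) hψsub
    have hψs : tsupport ψ ⊆ e.target := hψsub.trans hθs
    have hKψ : IsCompact (tsupport ψ) := hψc
    have hDbc : Continuous (Db (b.B e) ψ) := (contDiff_Db hU hB hψ hψs).continuous
    have hDdc : Continuous (Dd (b.B e) ψ) := (contDiff_Dd hU hB hψ hψs).continuous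
    have hcomm : ∫ z, ip (star (∑ a, kap D e a z • q a (e.symm z))) (Dd (b.B e) ψ z) =
        (∫ z, ip (∑ a, kap D e a z • q a (e.symm z)) (Db (b.B e) ψ z)) +
        ∫ z, ip (Fc (b.B e) z * w (e.symm z) - w (e.symm z) * Fc (b.B e) z) (ψ z) := by
      have c1 := fun j => comm_int hU hB ((hη j).1 e he) (fun z _ => (hη j).2 _) hψ hψc hψs
      have hq1 := hLq _ hψs hKψ
      have hw1 := hLw _ hψs hKψ
      have hq2 : L2c (tsupport ψ) (fun j z => star (Db (b.B e) (fun x => η j (e.symm x)) z))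
          (fun z => star (∑ a, kap D e a z • q a (e.symm z))) := by
        refine hq1.of_bound hKψ.measurableSet
          (fun j => continuous_star.comp_aestronglyMeasurable (hq1.mem j).1)
          (continuous_star.comp_aestronglyMeasurable hq1.mem'.1) 1 ?_ ?_ ?_
        · intro j z _
          rw [norm_star, one_mul]
        · intro z _
          rw [norm_star, one_mul]
        · intro j z _
          rw [← star_sub, norm_star, one_mul]
      have l1 := (hq2.bilin L hKψ hDdc.continuousOn).integral hKψ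
        (fun j z hz => by rw [Dd_zero_of_notMem hz, map_zero])
        (fun z hz => by rw [Dd_zero_of_notMem hz, map_zero])
      have l2 := (hq1.bilin L hKψ hDbc.continuousOn).integral hKψ
        (fun j z hz => by rw [Db_zero_of_notMem hz, map_zero])
        (fun z hz => by rw [Db_zero_of_notMem hz, map_zero])
      have hFc : ContinuousOn (Fc (b.B e)) e.target := continuousOn_Fc hU hB
      have hT := ((hw1.mul_left hKψ (hFc.mono hψs)).sub hKψ.measurableSet
        (hw1.mul_right hKψ (hFc.mono hψs)))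
      have l3 := (hT.bilin L hKψ hψ.continuous.continuousOn).integral hKψ
        (fun j z hz => by rw [image_eq_zero_of_notMem_tsupport hz, map_zero])
        (fun z hz => by rw [image_eq_zero_of_notMem_tsupport hz, map_zero])
      simp only [hL] at l1 l2 l3
      have l4 := l2.add l3
      simp only [← c1] at l4
      exact tendsto_nhds_unique l1 l4
    have hk := weak_key D b hW hρ hρC hρs hwq h hws he hψ hψc hψs hcomm
    have hsm : MemLp s 2 (volume.restrict (tsupport ζ)) :=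
      (memLp_s0 D hW hρ hρC hwq.memw he hK hs).add
        ((memLp_T D b hwq.memw he hK hs).const_smul (1 / 2 : ℝ))
    have hframe : ∀ {v : ℂ → 𝔸}, MemLp v 2 (volume.restrict (tsupport ζ)) →
        MemLp (fun z => star (b.Gi e z) * v z * star (b.G e z)) 2
          (volume.restrict (tsupport ζ)) := by
      intro v hv
      have h1 := memLp_bilin (ContinuousLinearMap.mul ℝ 𝔸).flip hK hv (hGisc.mono hs)
      exact memLp_bilin (ContinuousLinearMap.mul ℝ 𝔸) hK h1 (hGsc.mono hs)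
    have i1 : Integrable (fun z => dz ζ z • (star (b.Gi e z) *
        (∑ a, kap D e a z • q a (e.symm z)) * star (b.G e z))) :=
      L2c.integrable hK (memLp_csmul hK (hframe (hLq _ hs hK).mem')
        ((contDiff_dz hζ (m := 0) (by simp)).continuous.continuousOn))
        (fun z hz => by rw [dz_zero_of_notMem hz, zero_smul])
    have i2 : Integrable (fun z => ζ z • (star (b.Gi e z) * s z * star (b.G e z))) :=
      L2c.integrable hK (memLp_csmul hK (hframe hsm) hζ.continuous.continuousOn)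
        (fun z hz => by rw [image_eq_zero_of_notMem_tsupport hz, zero_smul])
    have hpt : ∀ (r : ℂ) (v : 𝔸) (z : ℂ),
        ip (r • (star (b.Gi e z) * v * star (b.G e z))) c =
          ip v (conj r • (b.Gi e z * c * b.G e z)) := by
      intro r v z
      rw [ip_csmul_left, ip_mul_right, ip_mul_left, star_star, star_star, smul_mul_assoc,
        mul_smul_comm, mul_assoc]
    have e1 : ip (∫ z, dz ζ z • (star (b.Gi e z) *
        (∑ a, kap D e a z • q a (e.symm z)) * star (b.G e z))) c =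
        ∫ z, ip (∑ a, kap D e a z • q a (e.symm z)) (Db (b.B e) ψ z) := by
      have h1 := (L.flip c).integral_comp_comm i1
      simp only [ContinuousLinearMap.flip_apply, hL] at h1
      rw [← h1]
      refine integral_congr_ae (Eventually.of_forall fun z => ?_)
      simp only [hpt]
      have h2 : Db (b.B e) ψ z = dzb θ z • (b.Gi e z * c * b.G e z) := hDψ z
      rw [h2, hdθ]
    have e2 : ip (∫ z, ζ z • (star (b.Gi e z) * s z * star (b.G e z))) c =
        ∫ z, ip (s z) (ψ z) := by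
      have h1 := (L.flip c).integral_comp_comm i2
      simp only [ContinuousLinearMap.flip_apply, hL] at h1
      rw [← h1]
      refine integral_congr_ae (Eventually.of_forall fun z => ?_)
      simp only [hpt]
      rfl
    rw [ip_neg_left, e1, e2, hk]

end surf

end Pool.Agent.Lib8bb
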