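import Mathlib

/-!
PIECE A2: abstract minimising sequences.
-/

open Filter Topology

namespace Pool.Agent.Lib8bb

theorem exists_min_seq {V : Type*} [AddCommGroup V] [Module ℝ V] (E : V → V → ℝ) (l : V → ℝ)
    (hadd : ∀ a b c, E (a + b) c = E a c + E b c) (hsmul : ∀ (r : ℝ) a b, E (r • a) b = r * E a b)
    (hsymm : ∀ a b, E a b = E b a) (hpos : ∀ a, 0 ≤ E a a)
    (ladd : ∀ a b, l (a + b) = l a + l b) (lsmul : ∀ (r : ℝ) a, l (r • a) = r * l a)
    (C : ℝ) (hl : ∀ a, (l a) ^ 2 ≤ C * E a a) :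
    ∃ η : ℕ → V, (∀ ε > 0, ∃ N, ∀ j ≥ N, ∀ k ≥ N, E (η j - η k) (η j - η k) < ε) ∧
      ∀ a, Tendsto (fun j => E (η j) a) atTop (𝓝 (l a)) := by
  have hadd2 : ∀ a b c, E a (b + c) = E a b + E a c := by
    intro a b c
    rw [hsymm, hadd, hsymm b, hsymm c]
  have hsmul2 : ∀ (r : ℝ) a b, E a (r • b) = r * E a b := by
    intro r a b
    rw [hsymm, hsmul, hsymm]
  set J : V → ℝ := fun a => E a a / 2 - l a with hJ
  -- J is bounded below
  have hC : ∀ a, 0 ≤ C * E a a := fun a => (sq_nonneg _).trans (hl a)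
  have hbd : ∀ a, -(|C| / 2) ≤ J a := by
    intro a
    simp only [hJ]
    have h1 := hl a
    have h2 := hpos a
    have h3 : C * E a a ≤ |C| * E a a := mul_le_mul_of_nonneg_right (le_abs_self C) h2
    have h4 : 0 ≤ |C| := abs_nonneg C
    -- l a ≤ (|C| + E)/2
    have h5 : (l a) ^ 2 ≤ ((|C| + E a a) / 2) ^ 2 := by
      nlinarith [sq_nonneg (|C| - E a a)]
    have h6 : l a ≤ (|C| + E a a) / 2 := by
      have := abs_le_of_sq_le_sq h5 (by linarith)
      exact (le_abs_self _).trans this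
    linarith
  have hBdd : BddBelow (Set.range J) := ⟨-(|C| / 2), by rintro _ ⟨a, rfl⟩; exact hbd a⟩
  set m := sInf (Set.range J) with hm
  have hne : (Set.range J).Nonempty := ⟨J 0, 0, rfl⟩
  have hex : ∀ j : ℕ, ∃ a, J a < m + 1 / ((j : ℝ) + 1) := by
    intro j
    have h1 : m < m + 1 / ((j : ℝ) + 1) := by
      have : (0 : ℝ) < 1 / ((j : ℝ) + 1) := by positivity
      linarith
    obtain ⟨_, ⟨a, rfl⟩, h⟩ := exists_lt_of_csInf_lt hne h1
    exact ⟨a, h⟩
  choose η hη using hex
  have hmle : ∀ a, m ≤ J a := fun a => csInf_le hBdd ⟨a, rfl⟩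
  -- expansion of J
  have hexp : ∀ (a b : V) (s : ℝ), J (a + s • b) = J a + s * (E a b - l b) + s ^ 2 / 2 * E b b := by
    intro a b s
    simp only [hJ]
    rw [hadd, hadd2, hadd2, hsmul, hsmul, hsmul2, hsmul2, ladd, lsmul, hsymm b a]
    ring
  refine ⟨η, ?_, ?_⟩
  · -- parallelogram identity
    have hpar : ∀ a b, E (a - b) (a - b) = 4 * J a + 4 * J b - 8 * J ((1 / 2 : ℝ) • (a + b)) := by
      intro a b
      have e1 : a - b = a + (-1 : ℝ) • b := by rw [neg_one_smul, sub_eq_add_neg]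
      rw [e1]
      simp only [hJ]
      rw [hadd, hadd2, hadd2, hsmul, hsmul, hsmul2, hsmul2, lsmul, ladd, hsmul, hsmul2, hadd,
        hadd2, hadd2, hsymm b a]
      ring
    intro ε hε
    obtain ⟨N, hN⟩ := exists_nat_gt (8 / ε)
    refine ⟨N, fun j hj k hk => ?_⟩
    rw [hpar]
    have h1 := hη j
    have h2 := hη k
    have h3 := hmle ((1 / 2 : ℝ) • (η j + η k))
    have hNpos : (0 : ℝ) < (N : ℝ) + 1 := by positivity
    have h4 : 1 / ((j : ℝ) + 1) ≤ 1 / ((N : ℝ) + 1) := by
      apply one_div_le_one_div_of_le hNpos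
      have : (N : ℝ) ≤ j := by exact_mod_cast hj
      linarith
    have h5 : 1 / ((k : ℝ) + 1) ≤ 1 / ((N : ℝ) + 1) := by
      apply one_div_le_one_div_of_le hNpos
      have : (N : ℝ) ≤ k := by exact_mod_cast hk
      linarith
    have h6 : 8 * (1 / ((N : ℝ) + 1)) < ε := by
      rw [mul_one_div, div_lt_iff₀ hNpos]
      rw [div_lt_iff₀ hε] at hN
      nlinarith
    linarith
  · intro a
    have key : ∀ j, |E (η j) a - l a| ^ 2 ≤ 2 * (1 / ((j : ℝ) + 1)) * E a a := by
      intro j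
      rw [sq_abs]
      set d := E (η j) a - l a with hd
      set ε := 1 / ((j : ℝ) + 1) with hε
      have hεpos : 0 < ε := by positivity
      have h1 : ∀ s : ℝ, 0 ≤ ε + s * d + s ^ 2 / 2 * E a a := by
        intro s
        have h2 := hmle (η j + s • a)
        rw [hexp] at h2
        have h3 := hη j
        linarith
      have hEa := hpos a
      by_cases h0 : E a a = 0
      · -- d = 0
        have hd0 : d = 0 := by
          by_contra hne
          have h2 := h1 (-(2 * ε) / d)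
          rw [h0, mul_zero, add_zero, div_mul_cancel₀ _ hne] at h2
          linarith
        rw [hd0, h0]; simp
      · have hEpos : 0 < E a a := lt_of_le_of_ne hEa (Ne.symm h0)
        have h2 := h1 (-d / E a a)
        have h3 : ε + -d / E a a * d + (-d / E a a) ^ 2 / 2 * E a a =
            (2 * ε * E a a - d ^ 2) / (2 * E a a) := by
          field_simp
          ring
        rw [h3] at h2
        have h4 := (le_div_iff₀ (by positivity : (0:ℝ) < 2 * E a a)).1 h2
        rw [zero_mul] at h4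
        linarith
    rw [tendsto_iff_norm_sub_tendsto_zero]
    have h1 : Tendsto (fun j : ℕ => √(2 * (1 / ((j : ℝ) + 1)) * E a a)) atTop (𝓝 0) := by
      have h2 : Tendsto (fun j : ℕ => 2 * (1 / ((j : ℝ) + 1)) * E a a) atTop
          (𝓝 (2 * 0 * E a a)) :=
        (tendsto_one_div_add_atTop_nhds_zero_nat.const_mul 2).mul_const _
      have h3 : Tendsto (fun j : ℕ => √(2 * (1 / ((j : ℝ) + 1)) * E a a)) atTop
          (𝓝 (√(2 * 0 * E a a))) := (Real.continuous_sqrt.tendsto _).comp h2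
      have h4 : √(2 * 0 * E a a) = 0 := by simp
      rwa [h4] at h3
    refine squeeze_zero (fun _ => norm_nonneg _) (fun j => ?_) h1
    rw [Real.norm_eq_abs]
    exact Real.le_sqrt_of_sq_le (key j)

end Pool.Agent.Lib8bb
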