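import Pool.Agent.Lib_MP_8bb00a_gt.EAlg
import Pool.Agent.Lib_MP_8bb00a_gt.MinSeq
import Pool.Agent.Lib_MP_8bb00a_gt.Surf3

/-!
PIECE D1: weak solutions by minimisation.
-/

open MeasureTheory Complex Set Metric Filter Topology
open scoped Real ContDiff ComplexConjugate Manifold

noncomputable section

namespace Pool.Agent.Lib8bb

/-! ### general `L²` lemmas on a compact space with a finite measure -/

section gen

variable {X : Type*} [TopologicalSpace X] [CompactSpace X] [MeasurableSpace X] [BorelSpace X]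
  {μ : Measure X} [IsFiniteMeasure μ]

theorem cont_memLp {E : Type*} [NormedAddCommGroup E] {f : X → E} (hf : Continuous f)
    (p : ENNReal) : MemLp f p μ :=
  hf.memLp_of_hasCompactSupport (HasCompactSupport.of_compactSpace f)

theorem cont_integrable {E : Type*} [NormedAddCommGroup E] {f : X → E} (hf : Continuous f) :
    Integrable f μ :=
  hf.integrable_of_hasCompactSupport (HasCompactSupport.of_compactSpace f)

theorem cont_bound {E : Type*} [NormedAddCommGroup E] {f : X → E} (hf : Continuous f) :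
    ∃ C : ℝ, 0 ≤ C ∧ ∀ x, ‖f x‖ ≤ C := by
  obtain ⟨C, hC⟩ := hf.bounded_above_of_compact_support (HasCompactSupport.of_compactSpace f)
  exact ⟨max C 0, le_max_right _ _, fun x => (hC x).trans (le_max_left _ _)⟩

theorem eLpNorm_two_eq {E : Type*} [NormedAddCommGroup E] {f : X → E} (hf : Continuous f) :
    eLpNorm f 2 μ = ENNReal.ofReal (√(∫ x, ‖f x‖ ^ 2 ∂μ)) := by
  rw [MemLp.eLpNorm_eq_integral_rpow_norm (by norm_num) (by norm_num) (cont_memLp hf 2)]
  congr 1
  rw [Real.sqrt_eq_rpow]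
  norm_num

/-- an `L²`-Cauchy sequence of continuous functions has an `L²` limit -/
theorem exists_L2_limit {E : Type*} [NormedAddCommGroup E] [CompleteSpace E] {f : ℕ → X → E}
    (hf : ∀ j, Continuous (f j))
    (hc : ∀ ε > 0, ∃ N, ∀ j ≥ N, ∀ k ≥ N, ∫ x, ‖f j x - f k x‖ ^ 2 ∂μ < ε) :
    ∃ g : X → E, MemLp g 2 μ ∧
      Tendsto (fun j => eLpNorm (fun x => f j x - g x) 2 μ) atTop (𝓝 0) := by
  have hm : ∀ j, MemLp (f j) 2 μ := fun j => cont_memLp (hf j) 2
  have hcau : CauchySeq (fun j => (hm j).toLp (f j)) := by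
    rw [Metric.cauchySeq_iff]
    intro ε hε
    obtain ⟨N, hN⟩ := hc (ε ^ 2) (by positivity)
    refine ⟨N, fun j hj k hk => ?_⟩
    have h1 : dist ((hm j).toLp (f j)) ((hm k).toLp (f k)) =
        √(∫ x, ‖f j x - f k x‖ ^ 2 ∂μ) := by
      rw [Lp.dist_def, eLpNorm_congr_ae ((hm j).coeFn_toLp.sub (hm k).coeFn_toLp)]
      rw [eLpNorm_two_eq ((hf j).sub (hf k)), ENNReal.toReal_ofReal (Real.sqrt_nonneg _)]
      rfl
    rw [h1]
    calc √(∫ x, ‖f j x - f k x‖ ^ 2 ∂μ) < √(ε ^ 2) :=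
          Real.sqrt_lt_sqrt (integral_nonneg fun x => by positivity) (hN j hj k hk)
      _ = ε := Real.sqrt_sq hε.le
  obtain ⟨F, hF⟩ := cauchySeq_tendsto_of_complete hcau
  refine ⟨F, Lp.memLp F, ?_⟩
  rw [Lp.tendsto_Lp_iff_tendsto_eLpNorm'] at hF
  refine hF.congr fun j => ?_
  apply eLpNorm_congr_ae
  filter_upwards [(hm j).coeFn_toLp] with x hx
  simp [hx]

end gen

section gen2

variable {X : Type*} [TopologicalSpace X] [CompactSpace X] [MeasurableSpace X] [BorelSpace X]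
  {μ : Measure X} [IsFiniteMeasure μ]
variable {𝔸 : Type*} [NormedRing 𝔸] [NormedAlgebra ℂ 𝔸] [StarRing 𝔸] [StarModule ℂ 𝔸]
  [NormedStarGroup 𝔸] [TrAlg 𝔸]

theorem aesm_ip {α : Type*} [MeasurableSpace α] {μ : Measure α} {f g : α → 𝔸}
    (hf : AEStronglyMeasurable f μ) (hg : AEStronglyMeasurable g μ) :
    AEStronglyMeasurable (fun x => ip (f x) (g x)) μ := by
  obtain ⟨L, hL⟩ := exists_ipL (𝔸 := 𝔸)
  have h1 : (fun x => ip (f x) (g x)) = fun x => L (f x) (g x) := by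
    funext x; rw [hL]
  rw [h1]
  exact L.aestronglyMeasurable_comp₂ hf hg

theorem continuous_ip {Y : Type*} [TopologicalSpace Y] {f g : Y → 𝔸} (hf : Continuous f)
    (hg : Continuous g) : Continuous (fun x => ip (f x) (g x)) := by
  obtain ⟨L, hL⟩ := exists_ipL (𝔸 := 𝔸)
  have h1 : (fun x => ip (f x) (g x)) = fun x => L (f x) (g x) := by
    funext x; rw [hL]
  rw [h1]
  exact (L.continuous.comp hf).clm_apply hg

theorem integrable_ip {α : Type*} [MeasurableSpace α] {μ : Measure α} {f g : α → 𝔸}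
    (hf : Integrable f μ) (hg : AEStronglyMeasurable g μ) {C : ℝ} (hC : ∀ x, ‖g x‖ ≤ C) :
    Integrable (fun x => ip (f x) (g x)) μ := by
  refine Integrable.mono' (hf.norm.mul_const C) (aesm_ip hf.1 hg) (Eventually.of_forall fun x => ?_)
  rw [Real.norm_eq_abs]
  exact (abs_ip_le _ _).trans (mul_le_mul_of_nonneg_left (hC x) (norm_nonneg _))

/-- convergence of pairings -/
theorem tendsto_integral_ip {f : ℕ → X → 𝔸} {F g : X → 𝔸} (hf : ∀ j, MemLp (f j) 2 μ)
    (hF : MemLp F 2 μ) (hg : Continuous g)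
    (h : Tendsto (fun j => eLpNorm (fun x => f j x - F x) 2 μ) atTop (𝓝 0)) :
    Tendsto (fun j => ∫ x, ip (f j x) (g x) ∂μ) atTop (𝓝 (∫ x, ip (F x) (g x) ∂μ)) := by
  obtain ⟨C, hC0, hC⟩ := cont_bound hg
  have hgm : AEStronglyMeasurable g μ := (cont_memLp (μ := μ) hg 2).1
  refine tendsto_integral_of_L1' _ (aesm_ip hF.1 hgm)
    (Eventually.of_forall fun j => integrable_ip ((hf j).integrable (by norm_num)) hgm hC) ?_
  have hbound : ∀ j, eLpNorm ((fun x => ip (f j x) (g x)) - fun x => ip (F x) (g x)) 1 μ ≤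
      ENNReal.ofReal C * (eLpNorm (fun x => f j x - F x) 2 μ *
        μ Set.univ ^ (1 / (1 : ENNReal).toReal - 1 / (2 : ENNReal).toReal)) := by
    intro j
    refine (eLpNorm_le_mul_eLpNorm_of_ae_le_mul (g := fun x => f j x - F x) (c := C)
      (Eventually.of_forall fun x => ?_) 1).trans ?_
    · simp only [Pi.sub_apply]
      rw [← ip_sub_left, Real.norm_eq_abs]
      refine (abs_ip_le _ _).trans ?_
      rw [mul_comm C]
      exact mul_le_mul_of_nonneg_left (hC x) (norm_nonneg _)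
    · gcongr
      exact eLpNorm_le_eLpNorm_mul_rpow_measure_univ (by norm_num) ((hf j).1.sub hF.1)
  refine tendsto_of_tendsto_of_tendsto_of_le_of_le tendsto_const_nhds ?_ (fun _ => zero_le) hbound
  have h1 : Tendsto (fun j => ENNReal.ofReal C * (eLpNorm (fun x => f j x - F x) 2 μ *
      μ Set.univ ^ (1 / (1 : ENNReal).toReal - 1 / (2 : ENNReal).toReal))) atTop
      (𝓝 (ENNReal.ofReal C * (0 *
        μ Set.univ ^ (1 / (1 : ENNReal).toReal - 1 / (2 : ENNReal).toReal)))) := by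
    refine ENNReal.Tendsto.const_mul ?_ (Or.inr ENNReal.ofReal_ne_top)
    refine ENNReal.Tendsto.mul_const h (Or.inr ?_)
    refine (ENNReal.rpow_lt_top_of_nonneg (by norm_num) (measure_ne_top _ _)).ne
  simpa using h1

end gen2

variable {X : Type*} [TopologicalSpace X] [ChartedSpace ℂ X] [IsManifold 𝓘(ℂ) ω X]
  [CompactSpace X] [T2Space X] [MeasurableSpace X] [BorelSpace X]
variable {𝔸 : Type*} [NormedRing 𝔸] [NormedAlgebra ℂ 𝔸] [StarRing 𝔸] [StarModule ℂ 𝔸]
  [NormedStarGroup 𝔸] [TrAlg 𝔸] [FiniteDimensional ℂ 𝔸]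

/-- a pair `(w, q)` which is an `L²` limit of selfadjoint `C¹` sections and their derivatives -/
structure WPair (D : SurfData X) (b : Bun X 𝔸) (w : X → 𝔸) (q : D.A → X → 𝔸) : Prop where
  memw : MemLp w 2 D.ν
  memq : ∀ a, MemLp (q a) 2 D.ν
  approx : ∃ η : ℕ → X → 𝔸, (∀ j, Sec1 (η j)) ∧
    Tendsto (fun j => eLpNorm (fun x => η j x - w x) 2 D.ν) atTop (𝓝 0) ∧
    ∀ a, Tendsto (fun j => eLpNorm (fun x => pa D b a (η j) x - q a x) 2 D.ν) atTop (𝓝 0)

/-- the weak equation for a pair -/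
def WEq (D : SurfData X) (b : Bun X 𝔸) (W : X → 𝔸 →L[ℝ] 𝔸) (ρ : X → 𝔸) (w : X → 𝔸)
    (q : D.A → X → 𝔸) : Prop :=
  ∀ ζ : X → 𝔸, Sec1 ζ →
    ∫ x, ((∑ a, ip (q a x) (pa D b a ζ x)) + ip (W x (w x)) (ζ x)) ∂D.ν =
      ∫ x, ip (ρ x) (ζ x) ∂D.ν

/-- Sec1 is closed under linear combinations -/
theorem Sec1.add {η ζ : X → 𝔸} (h : Sec1 η) (h' : Sec1 ζ) : Sec1 (fun x => η x + ζ x) :=
  ⟨h.1.add h'.1, fun x => by rw [star_add, h.2, h'.2]⟩

theorem Sec1.smul {η : X → 𝔸} (r : ℝ) (h : Sec1 η) : Sec1 (fun x => r • η x) := by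
  refine ⟨h.1.const_smul r, fun x => ?_⟩
  have h1 : (r : ℝ) • η x = ((r : ℂ)) • η x := (Complex.coe_smul r (η x)).symm
  show star (r • η x) = r • η x
  rw [h1, star_smul, h.2]
  simp

theorem pa_add (D : SurfData X) (b : Bun X 𝔸) {w η : X → 𝔸} (hw : Ck 1 w) (hη : Ck 1 η)
    (a : D.A) (x : X) : pa D b a (fun x => w x + η x) x = pa D b a w x + pa D b a η x := by
  by_cases hm : D.m a x = 0
  · simp [pa, hm]
  · have hx : x ∈ (D.c a).source := by
      by_contra hx
      apply hm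
      apply D.m_supp a x
      rintro ⟨z, hz, rfl⟩
      exact hx ((D.c a).map_target (D.K_target a hz))
    have hz := (D.c a).map_source hx
    have h1 : DifferentiableAt ℝ (fun z => w ((D.c a).symm z)) (D.c a x) :=
      (hw.contDiffAt (D.c_mem a) hz).differentiableAt (by simp)
    have h2 : DifferentiableAt ℝ (fun z => η ((D.c a).symm z)) (D.c a x) :=
      (hη.contDiffAt (D.c_mem a) hz).differentiableAt (by simp)
    have h3 : dzb (fun z => w ((D.c a).symm z) + η ((D.c a).symm z)) (D.c a x) =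
      dzb (fun z => w ((D.c a).symm z)) (D.c a x) + dzb (fun z => η ((D.c a).symm z)) (D.c a x) :=
      dzb_add h1 h2
    simp only [pa, Db]
    rw [h3, ← smul_add]
    congr 1
    rw [mul_add, add_mul]
    abel

theorem pa_smul (D : SurfData X) (b : Bun X 𝔸) {w : X → 𝔸} (hw : Ck 1 w) (r : ℝ)
    (a : D.A) (x : X) : pa D b a (fun x => r • w x) x = r • pa D b a w x := by
  by_cases hm : D.m a x = 0
  · simp [pa, hm]
  · have hx : x ∈ (D.c a).source := by
      by_contra hx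
      apply hm
      apply D.m_supp a x
      rintro ⟨z, hz, rfl⟩
      exact hx ((D.c a).map_target (D.K_target a hz))
    have hz := (D.c a).map_source hx
    have h1 : DifferentiableAt ℝ (fun z => w ((D.c a).symm z)) (D.c a x) :=
      (hw.contDiffAt (D.c_mem a) hz).differentiableAt (by simp)
    have h3 : dzb (fun z => r • w ((D.c a).symm z)) (D.c a x) =
        r • dzb (fun z => w ((D.c a).symm z)) (D.c a x) := by
      simp only [dzb]
      rw [fderiv_fun_const_smul h1]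
      simp only [ContinuousLinearMap.smul_apply]
      rw [smul_comm I r, ← smul_add, smul_comm]
    simp only [pa, Db]
    rw [h3, smul_comm r]
    congr 1
    rw [smul_add, smul_sub, mul_smul_comm, smul_mul_assoc]

theorem pa_sub (D : SurfData X) (b : Bun X 𝔸) {w η : X → 𝔸} (hw : Ck 1 w) (hη : Ck 1 η)
    (a : D.A) (x : X) : pa D b a (fun x => w x - η x) x = pa D b a w x - pa D b a η x := by
  have h1 : (fun x => w x - η x) = fun x => w x + (-1 : ℝ) • η x := by
    funext y; rw [neg_one_smul, sub_eq_add_neg]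
  rw [h1, pa_add D b hw (hη.const_smul (-1)), pa_smul D b hη, neg_one_smul, sub_eq_add_neg]

/-- the submodule of `C¹` selfadjoint sections -/
def secSub (X : Type*) [TopologicalSpace X] [ChartedSpace ℂ X] (𝔸 : Type*) [NormedRing 𝔸]
    [NormedAlgebra ℂ 𝔸] [StarRing 𝔸] [StarModule ℂ 𝔸] : Submodule ℝ (X → 𝔸) where
  carrier := {η | Sec1 η}
  add_mem' := by
    intro η ζ h h'
    refine ⟨h.1.add h'.1, fun x => ?_⟩
    show star (η x + ζ x) = η x + ζ x
    rw [star_add, h.2, h'.2]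
  zero_mem' := ⟨Ck.const 0, fun x => star_zero _⟩
  smul_mem' := by
    intro r η h
    refine ⟨h.1.const_smul r, fun x => ?_⟩
    have h1 : (r : ℝ) • η x = ((r : ℂ)) • η x := (Complex.coe_smul r (η x)).symm
    show star (r • η x) = r • η x
    rw [h1, star_smul, h.2]
    simp

theorem continuous_enf (D : SurfData X) (b : Bun X 𝔸) {W : X → 𝔸 →L[ℝ] 𝔸} (hW : Pot X 𝔸 W)
    {w η : X → 𝔸} (hw : Ck 1 w) (hη : Ck 1 η) :
    Continuous fun x => (∑ a, ip (pa D b a w x) (pa D b a η x)) + ip (W x (w x)) (η x) := by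
  refine Continuous.add (continuous_finsetSum _ fun a _ => ?_) ?_
  · exact continuous_ip (pa_continuous D b hw a) (pa_continuous D b hη a)
  · exact continuous_ip (hW.cont.clm_apply hw.continuous) hη.continuous

theorem en_add_left (D : SurfData X) (b : Bun X 𝔸) {W : X → 𝔸 →L[ℝ] 𝔸} (hW : Pot X 𝔸 W)
    {v w η : X → 𝔸} (hv : Ck 1 v) (hw : Ck 1 w) (hη : Ck 1 η) :
    en D b W (fun x => v x + w x) η = en D b W v η + en D b W w η := by
  rw [en, en, en, ← integral_add (cont_integrable (continuous_enf D b hW hv hη))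
    (cont_integrable (continuous_enf D b hW hw hη))]
  congr 1
  funext x
  have h1 : ∀ a, ip (pa D b a (fun x => v x + w x) x) (pa D b a η x) =
      ip (pa D b a v x) (pa D b a η x) + ip (pa D b a w x) (pa D b a η x) := by
    intro a
    rw [pa_add D b hv hw, ip_add_left]
  rw [Finset.sum_congr rfl fun a _ => h1 a, Finset.sum_add_distrib, map_add, ip_add_left]
  ring

theorem en_smul_left (D : SurfData X) (b : Bun X 𝔸) (W : X → 𝔸 →L[ℝ] 𝔸)
    {w η : X → 𝔸} (hw : Ck 1 w) (r : ℝ) :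
    en D b W (fun x => r • w x) η = r * en D b W w η := by
  rw [en, en, ← integral_const_mul]
  congr 1
  funext x
  have h1 : ∀ a, ip (pa D b a (fun x => r • w x) x) (pa D b a η x) =
      r * ip (pa D b a w x) (pa D b a η x) := by
    intro a
    rw [pa_smul D b hw, ip_smul_left]
  rw [Finset.sum_congr rfl fun a _ => h1 a, ← Finset.mul_sum, map_smul, ip_smul_left]
  ring

theorem en_symm (D : SurfData X) (b : Bun X 𝔸) {W : X → 𝔸 →L[ℝ] 𝔸} (hW : Pot X 𝔸 W)
    (w η : X → 𝔸) : en D b W w η = en D b W η w := by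
  rw [en, en]
  congr 1
  funext x
  rw [hW.symm, ip_comm (w x), Finset.sum_congr rfl fun a _ => ip_comm _ _]

/-- boundedness of the linear form -/
theorem sq_integral_ip_le (D : SurfData X) {ρ : X → 𝔸} (hρ : AEStronglyMeasurable ρ D.ν)
    {C : ℝ} (hρC : ∀ x, ‖ρ x‖ ≤ C) {η : X → 𝔸} (hη : Continuous η) :
    (∫ x, ip (ρ x) (η x) ∂D.ν) ^ 2 ≤
      (∫ x, ‖ρ x‖ ^ 2 ∂D.ν) * ∫ x, ‖η x‖ ^ 2 ∂D.ν := by
  have hρm : MemLp ρ 2 D.ν := MemLp.of_bound hρ C (Eventually.of_forall hρC)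
  have hρi : Integrable (fun x => ‖ρ x‖ ^ 2) D.ν := hρm.integrable_norm_pow (by norm_num)
  have hηi : Integrable (fun x => ‖η x‖ ^ 2) D.ν := cont_integrable (hη.norm.pow 2)
  have hi : Integrable (fun x => ip (ρ x) (η x)) D.ν := by
    obtain ⟨C', hC0, hC'⟩ := cont_bound hη
    exact integrable_ip (hρm.integrable (by norm_num)) (cont_memLp (μ := D.ν) hη 2).1 hC'
  have key : ∀ s : ℝ, 0 ≤ (∫ x, ‖η x‖ ^ 2 ∂D.ν) * (s * s) +
      (-2 * ∫ x, ip (ρ x) (η x) ∂D.ν) * s + ∫ x, ‖ρ x‖ ^ 2 ∂D.ν := by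
    intro s
    have h1 : (∫ x, ‖η x‖ ^ 2 ∂D.ν) * (s * s) +
      (-2 * ∫ x, ip (ρ x) (η x) ∂D.ν) * s + ∫ x, ‖ρ x‖ ^ 2 ∂D.ν =
      ∫ x, (‖η x‖ ^ 2 * (s * s) + (-2 * s) * ip (ρ x) (η x) + ‖ρ x‖ ^ 2) ∂D.ν := by
      have e1 : ∫ x, (‖η x‖ ^ 2 * (s * s) + (-2 * s) * ip (ρ x) (η x) + ‖ρ x‖ ^ 2) ∂D.ν =
          (∫ x, (‖η x‖ ^ 2 * (s * s) + (-2 * s) * ip (ρ x) (η x)) ∂D.ν) + ∫ x, ‖ρ x‖ ^ 2 ∂D.ν :=
        integral_add ((hηi.mul_const _).add (hi.const_mul _)) hρi
      have e2 : ∫ x, (‖η x‖ ^ 2 * (s * s) + (-2 * s) * ip (ρ x) (η x)) ∂D.ν =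
          (∫ x, ‖η x‖ ^ 2 * (s * s) ∂D.ν) + ∫ x, (-2 * s) * ip (ρ x) (η x) ∂D.ν :=
        integral_add (hηi.mul_const _) (hi.const_mul _)
      rw [e1, e2, integral_mul_const, integral_const_mul]
      ring
    rw [h1]
    apply integral_nonneg
    intro x
    show 0 ≤ ‖η x‖ ^ 2 * (s * s) + (-2 * s) * ip (ρ x) (η x) + ‖ρ x‖ ^ 2
    have h2 := abs_ip_le (ρ x) (η x)
    have h3 : |s * ip (ρ x) (η x)| ≤ |s| * (‖ρ x‖ * ‖η x‖) := by
      rw [abs_mul]; exact mul_le_mul_of_nonneg_left h2 (abs_nonneg _)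
    have h4 := le_abs_self (s * ip (ρ x) (η x))
    have h5 : s * s = |s| * |s| := (abs_mul_abs_self s).symm
    rw [h5]
    nlinarith [sq_nonneg (|s| * ‖η x‖ - ‖ρ x‖)]
  have h := discrim_le_zero key
  rw [discrim] at h
  nlinarith

/-- D1: existence of weak solutions -/
theorem weak_solution (D : SurfData X) (b : Bun X 𝔸) {W : X → 𝔸 →L[ℝ] 𝔸} (hW : Pot X 𝔸 W)
    {δ : ℝ} (hδ : 0 < δ) (hco : Coer D b W δ) {ρ : X → 𝔸} (hρ : AEStronglyMeasurable ρ D.ν)
    {C : ℝ} (hρC : ∀ x, ‖ρ x‖ ≤ C) :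
    ∃ (w : X → 𝔸) (q : D.A → X → 𝔸), WPair D b w q ∧ WEq D b W ρ w q := by
  haveI : CompleteSpace 𝔸 := FiniteDimensional.complete ℂ 𝔸
  -- bound of `W`
  obtain ⟨M, hM0, hM⟩ := cont_bound hW.cont
  -- the space of sections
  let V := secSub X 𝔸
  have hV : ∀ a : V, Sec1 (a : X → 𝔸) := fun a => a.2
  have hpos : ∀ a : V, 0 ≤ en D b W a a := fun a =>
    (mul_nonneg hδ.le (integral_nonneg fun x => by positivity)).trans (hco a (hV a))
  obtain ⟨η, hη1, hη2⟩ := exists_min_seq (V := V) (fun a c => en D b W a c)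
    (fun a => ∫ x, ip (ρ x) ((a : X → 𝔸) x) ∂D.ν)
    (fun a c d => en_add_left D b hW (hV a).1 (hV c).1 (hV d).1)
    (fun r a c => en_smul_left D b W (hV a).1 r)
    (fun a c => en_symm D b hW a c) hpos
    (by
      intro a c
      have hρi : Integrable ρ D.ν :=
        (MemLp.of_bound (p := 2) hρ C (Eventually.of_forall hρC)).integrable (by norm_num)
      have hi : ∀ a : V, Integrable (fun x => ip (ρ x) ((a : X → 𝔸) x)) D.ν := by
        intro a
        obtain ⟨C', hC0, hC'⟩ := cont_bound (hV a).1.continuous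
        exact integrable_ip hρi (cont_memLp (μ := D.ν) (hV a).1.continuous 2).1 hC'
      rw [← integral_add (hi a) (hi c)]
      congr 1
      funext x
      exact ip_add_right _ _ _)
    (by
      intro r a
      rw [← integral_const_mul]
      congr 1
      funext x
      exact ip_smul_right _ _ _)
    ((∫ x, ‖ρ x‖ ^ 2 ∂D.ν) / δ)
    (by
      intro a
      refine (sq_integral_ip_le D hρ hρC (hV a).1.continuous).trans ?_
      rw [div_mul_eq_mul_div, le_div_iff₀ hδ, mul_assoc]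
      refine mul_le_mul_of_nonneg_left ?_ (integral_nonneg fun x => by positivity)
      rw [mul_comm]
      exact hco a (hV a))
  have hsub : ∀ j k, ((η j - η k : V) : X → 𝔸) = fun x => (η j : X → 𝔸) x - (η k : X → 𝔸) x :=
    fun j k => rfl
  -- energy bounds
  have hE0 : ∀ a : V, ∫ x, ‖(a : X → 𝔸) x‖ ^ 2 ∂D.ν ≤ en D b W a a / δ := by
    intro a
    rw [le_div_iff₀ hδ, mul_comm]
    exact hco a (hV a)
  have hE1 : ∀ (a : V) (i : D.A), ∫ x, ‖pa D b i a x‖ ^ 2 ∂D.ν ≤ (1 + M / δ) * en D b W a a := by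
    intro a i
    have hc1 := continuous_enf D b hW (hV a).1 (hV a).1
    have hc2 : Continuous fun x => M * ‖(a : X → 𝔸) x‖ ^ 2 :=
      continuous_const.mul ((hV a).1.continuous.norm.pow 2)
    have h1 : ∫ x, ‖pa D b i a x‖ ^ 2 ∂D.ν ≤
        ∫ x, (((∑ i, ip (pa D b i a x) (pa D b i a x)) + ip (W x ((a : X → 𝔸) x)) ((a : X → 𝔸) x))
          + M * ‖(a : X → 𝔸) x‖ ^ 2) ∂D.ν := by
      refine integral_mono (cont_integrable ((pa_continuous D b (hV a).1 i).norm.pow 2))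
        ((cont_integrable hc1).add (cont_integrable hc2)) fun x => ?_
      have h2 : ‖pa D b i a x‖ ^ 2 ≤ ∑ i, ip (pa D b i a x) (pa D b i a x) := by
        rw [← ip_self]
        exact Finset.single_le_sum (f := fun i => ip (pa D b i a x) (pa D b i a x))
          (fun j _ => by rw [ip_self]; positivity) (Finset.mem_univ i)
      have h3 : |ip (W x ((a : X → 𝔸) x)) ((a : X → 𝔸) x)| ≤ M * ‖(a : X → 𝔸) x‖ ^ 2 := by
        refine (abs_ip_le _ _).trans ?_
        rw [pow_two, ← mul_assoc]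
        refine mul_le_mul_of_nonneg_right ?_ (norm_nonneg _)
        exact ((W x).le_opNorm _).trans (mul_le_mul_of_nonneg_right (hM x) (norm_nonneg _))
      have h4 := neg_abs_le (ip (W x ((a : X → 𝔸) x)) ((a : X → 𝔸) x))
      show ‖pa D b i a x‖ ^ 2 ≤ _
      linarith
    refine h1.trans ?_
    rw [integral_add (cont_integrable hc1) (cont_integrable hc2), integral_const_mul]
    have h5 : ∫ x, ((∑ i, ip (pa D b i a x) (pa D b i a x)) +
        ip (W x ((a : X → 𝔸) x)) ((a : X → 𝔸) x)) ∂D.ν = en D b W a a := rfl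
    rw [h5]
    have h6 := mul_le_mul_of_nonneg_left (hE0 a) hM0
    calc en D b W a a + M * ∫ x, ‖(a : X → 𝔸) x‖ ^ 2 ∂D.ν
        ≤ en D b W a a + M * (en D b W a a / δ) := by linarith
      _ = (1 + M / δ) * en D b W a a := by ring
  -- limits
  obtain ⟨w, hw1, hw2⟩ := exists_L2_limit (μ := D.ν) (f := fun j => (η j : X → 𝔸))
    (fun j => (hV (η j)).1.continuous) (by
      intro ε hε
      obtain ⟨N, hN⟩ := hη1 (ε * δ) (by positivity)
      refine ⟨N, fun j hj k hk => ?_⟩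
      have h1 := hE0 (η j - η k)
      rw [hsub] at h1
      refine h1.trans_lt ?_
      rw [div_lt_iff₀ hδ]
      exact hN j hj k hk)
  have hK : 0 < 1 + M / δ := by positivity
  have hq : ∀ a : D.A, ∃ g : X → 𝔸, MemLp g 2 D.ν ∧
      Tendsto (fun j => eLpNorm (fun x => pa D b a (η j) x - g x) 2 D.ν) atTop (𝓝 0) := by
    intro a
    refine exists_L2_limit (μ := D.ν) (f := fun j => pa D b a (η j))
      (fun j => pa_continuous D b (hV (η j)).1 a) ?_
    intro ε hε
    obtain ⟨N, hN⟩ := hη1 (ε / (1 + M / δ)) (by positivity)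
    refine ⟨N, fun j hj k hk => ?_⟩
    have h1 := hE1 (η j - η k) a
    have h2 := hN j hj k hk
    rw [lt_div_iff₀ hK, mul_comm] at h2
    have h3 : ∀ x, pa D b a ((η j - η k : V) : X → 𝔸) x = pa D b a (η j) x - pa D b a (η k) x := by
      intro x
      rw [hsub]
      exact pa_sub D b (hV (η j)).1 (hV (η k)).1 a x
    simp only [h3] at h1
    exact h1.trans_lt h2
  choose q hq1 hq2 using hq
  refine ⟨w, q, ⟨hw1, hq1, fun j => η j, fun j => hV (η j), hw2, hq2⟩, ?_⟩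
  intro ζ hζ
  have hlim1 : Tendsto (fun j => en D b W (η j) ζ) atTop (𝓝 (∫ x, ip (ρ x) (ζ x) ∂D.ν)) :=
    hη2 ⟨ζ, hζ⟩
  have hWζ : Continuous fun x => W x (ζ x) := hW.cont.clm_apply hζ.1.continuous
  have hpζ : ∀ a, Continuous (pa D b a ζ) := fun a => pa_continuous D b hζ.1 a
  -- general splitting
  have hsplit : ∀ (u : X → 𝔸) (p : D.A → X → 𝔸), MemLp u 2 D.ν → (∀ a, MemLp (p a) 2 D.ν) →
      ∫ x, ((∑ a, ip (p a x) (pa D b a ζ x)) + ip (W x (u x)) (ζ x)) ∂D.ν =
        (∑ a, ∫ x, ip (p a x) (pa D b a ζ x) ∂D.ν) + ∫ x, ip (u x) (W x (ζ x)) ∂D.ν := by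
    intro u p hu hp
    have hi1 : ∀ a, Integrable (fun x => ip (p a x) (pa D b a ζ x)) D.ν := by
      intro a
      obtain ⟨C', hC0, hC'⟩ := cont_bound (hpζ a)
      exact integrable_ip ((hp a).integrable (by norm_num))
        (cont_memLp (μ := D.ν) (hpζ a) 2).1 hC'
    have hi2 : Integrable (fun x => ip (u x) (W x (ζ x))) D.ν := by
      obtain ⟨C', hC0, hC'⟩ := cont_bound hWζ
      exact integrable_ip (hu.integrable (by norm_num)) (cont_memLp (μ := D.ν) hWζ 2).1 hC'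
    have h1 : ∀ x, ip (W x (u x)) (ζ x) = ip (u x) (W x (ζ x)) := fun x => hW.symm x _ _
    simp only [h1]
    rw [integral_add (integrable_finset_sum _ fun a _ => hi1 a) hi2,
      integral_finset_sum _ fun a _ => hi1 a]
  have hlim2 : Tendsto (fun j => en D b W (η j) ζ) atTop
      (𝓝 (∫ x, ((∑ a, ip (q a x) (pa D b a ζ x)) + ip (W x (w x)) (ζ x)) ∂D.ν)) := by
    rw [hsplit w q hw1 hq1]
    have h2 : ∀ j, en D b W (η j) ζ = (∑ a, ∫ x, ip (pa D b a (η j) x) (pa D b a ζ x) ∂D.ν) +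
        ∫ x, ip ((η j : X → 𝔸) x) (W x (ζ x)) ∂D.ν := by
      intro j
      exact hsplit (η j) (fun a => pa D b a (η j)) (cont_memLp (hV (η j)).1.continuous 2)
        (fun a => cont_memLp (pa_continuous D b (hV (η j)).1 a) 2)
    simp only [h2]
    refine Tendsto.add (tendsto_finset_sum _ fun a _ => ?_) ?_
    · exact tendsto_integral_ip (fun j => cont_memLp (pa_continuous D b (hV (η j)).1 a) 2)
        (hq1 a) (hpζ a) (hq2 a)
    · exact tendsto_integral_ip (fun j => cont_memLp (hV (η j)).1.continuous 2) hw1 hWζ hw2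
  exact tendsto_nhds_unique hlim2 hlim1

end Pool.Agent.Lib8bb
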