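import Pool.Agent.Lib_MP_8bb00a_gt.LocReg
import Pool.Agent.Lib_MP_8bb00a_gt.WeakLocal
import Pool.Agent.Lib_MP_8bb00a_gt.EAlg
import Pool.Agent.Lib_MP_8bb00a_gt.WeakSol

/-!
Existence, uniqueness and regularity of `C^1` solutions of the linear equation on the surface.
-/

open MeasureTheory Complex Set Metric Filter Topology
open scoped Real ContDiff ComplexConjugate Manifold

noncomputable section

namespace Pool.Agent.Lib8bb

section E

variable {X : Type*} [TopologicalSpace X] [ChartedSpace ℂ X] [IsManifold 𝓘(ℂ) ω X]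
  [CompactSpace X] [T2Space X] [MeasurableSpace X] [BorelSpace X]
variable {𝔸 : Type*} [NormedRing 𝔸] [NormedAlgebra ℂ 𝔸] [StarRing 𝔸] [StarModule ℂ 𝔸]
  [NormedStarGroup 𝔸] [TrAlg 𝔸] [FiniteDimensional ℂ 𝔸]

omit [IsManifold 𝓘(ℂ) ω X] [CompactSpace X] [T2Space X] in
theorem SurfData.ae_source (D : SurfData X) {P : X → Prop} {e : OpenPartialHomeomorph X ℂ}
    (he : e ∈ atlas ℂ X)
    (h : ∀ᵐ z ∂(volume.restrict e.target), P (e.symm z)) :
    ∀ᵐ x ∂D.ν, x ∈ e.source → P x := by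
  rw [ae_restrict_iff' e.open_target.measurableSet] at h
  have h2 : volume {z | ¬ (z ∈ e.target → P (e.symm z))} = 0 := h
  obtain ⟨N, hN1, hN2, hN3⟩ := exists_measurable_superset_of_null h2
  have h4 : {x | ¬ (x ∈ e.source → P x)} ⊆ e.source ∩ e ⁻¹' N := by
    intro x hx
    have hx0 : ¬ (x ∈ e.source → P x) := hx
    rw [Classical.not_imp] at hx0
    obtain ⟨hx, hx'⟩ := hx0
    refine ⟨hx, hN1 ?_⟩
    show ¬ (e x ∈ e.target → P (e.symm (e x)))
    rw [e.left_inv hx]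
    exact fun h5 => hx' (h5 (e.map_source hx))
  show D.ν {x | ¬ (x ∈ e.source → P x)} = 0
  refine measure_mono_null h4 ?_
  have hm := measurableSet_preimage_chart (e := e) hN2
  have h5 := D.chart e he ((e.source ∩ e ⁻¹' N).indicator (fun _ => 1))
    (measurable_const.indicator hm)
  rw [lintegral_indicator hm, setLIntegral_const, one_mul, Measure.restrict_apply hm,
    inter_eq_left.2 (inter_subset_left)] at h5
  rw [h5]
  have h6 : ∫⁻ z in e.target, (e.source ∩ e ⁻¹' N).indicator (fun _ => (1 : ENNReal)) (e.symm z) *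
      ENNReal.ofReal (D.n e z) ≤ ∫⁻ z in N, ⊤ := by
    rw [← lintegral_indicator e.open_target.measurableSet, ← lintegral_indicator hN2]
    refine lintegral_mono fun z => ?_
    by_cases hz : z ∈ e.target
    · by_cases hzN : z ∈ N
      · rw [indicator_of_mem hzN]
        exact le_top
      · rw [indicator_of_mem hz, indicator_of_notMem, zero_mul]
        · exact zero_le
        · rintro ⟨_, h7⟩
          rw [mem_preimage, e.right_inv hz] at h7
          exact hzN h7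
    · rw [indicator_of_notMem hz]
      exact zero_le
  refine le_antisymm (h6.trans ?_) zero_le
  rw [setLIntegral_const, hN3, mul_zero]

theorem WDz.congr {V : Type*} [NormedAddCommGroup V] [NormedSpace ℂ V] {U : Set ℂ}
    {w q w' q' : ℂ → V} (h : WDz U w q) (hw : ∀ z ∈ U, w z = w' z) (hq : ∀ z ∈ U, q z = q' z) :
    WDz U w' q' := by
  intro ζ h1 h2 h3
  have h4 := h ζ h1 h2 h3
  have hz : ∀ z, z ∉ U → ζ z = 0 := fun z hz =>
    image_eq_zero_of_notMem_tsupport fun h => hz (h3 h)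
  have hdz : ∀ z, z ∉ U → dz ζ z = 0 := by
    intro z hz'
    have h5 : z ∉ tsupport ζ := fun h => hz' (h3 h)
    have h6 : ζ =ᶠ[𝓝 z] fun _ => 0 := by
      filter_upwards [(isClosed_tsupport ζ).isOpen_compl.mem_nhds h5] with y hy
      exact image_eq_zero_of_notMem_tsupport hy
    rw [dz_congr h6, dz_const]
  have e1 : (fun z => dz ζ z • w z) = fun z => dz ζ z • w' z := by
    funext z
    by_cases hz' : z ∈ U
    · rw [hw z hz']
    · rw [hdz z hz', zero_smul, zero_smul]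
  have e2 : (fun z => ζ z • q z) = fun z => ζ z • q' z := by
    funext z
    by_cases hz' : z ∈ U
    · rw [hq z hz']
    · rw [hz z hz', zero_smul, zero_smul]
  rw [e1, e2] at h4
  exact h4

omit [TrAlg 𝔸] [FiniteDimensional ℂ 𝔸] in
theorem Fc_continuousOn {B : ℂ → 𝔸} {U : Set ℂ} (hU : IsOpen U) (hB : ContDiffOn ℝ ∞ B U) :
    ContinuousOn (Fc B) U := by
  have hBs : ContDiffOn ℝ ∞ (fun x => star (B x)) U :=
    ((starL' ℝ : 𝔸 ≃L[ℝ] 𝔸) : 𝔸 →L[ℝ] 𝔸).contDiff.comp_contDiffOn hB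
  have h1 := (contDiffOn_dz (m := 0) hU hB (by simp)).continuousOn
  have h2 := (contDiffOn_dzb (m := 0) hU hBs (by simp)).continuousOn
  have h3 := hB.continuousOn
  have h4 := hBs.continuousOn
  exact (h1.add h2).add ((h3.mul h4).sub (h4.mul h3))

/-- regularity in one chart -/
theorem chart_regularity (D : SurfData X) (b : Bun X 𝔸) {W : X → 𝔸 →L[ℝ] 𝔸} (hW : Pot X 𝔸 W)
    {ρ : X → 𝔸} (hρ : AEStronglyMeasurable ρ D.ν) {C : ℝ} (hρC : ∀ x, ‖ρ x‖ ≤ C)
    (hρs : ∀ᵐ x ∂D.ν, star (ρ x) = ρ x)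
    {w : X → 𝔸} {q : D.A → X → 𝔸} (hwq : WPair D b w q) (h : WEq D b W ρ w q)
    {e : OpenPartialHomeomorph X ℂ} (he : e ∈ atlas ℂ X) :
    ∃ w' q' : ℂ → 𝔸, ContDiffOn ℝ 1 w' e.target ∧ ContinuousOn q' e.target ∧
      (fun z => w (e.symm z)) =ᵐ[volume.restrict e.target] w' ∧
      (fun z => ∑ a, kap D e a z • q a (e.symm z)) =ᵐ[volume.restrict e.target] q' ∧
      (∀ z ∈ e.target, star (w' z) = w' z) ∧ ∀ z ∈ e.target, Db (b.B e) w' z = q' z := by
  have : CompleteSpace 𝔸 := FiniteDimensional.complete ℂ 𝔸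
  obtain ⟨h1, h2, h3, h4, h5⟩ := weak_local D b hW hρ hρC hρs hwq h he
  let T : ℂ → 𝔸 →L[ℝ] 𝔸 := fun z => D.n e z • W (e.symm z) + (1 / 2 : ℝ) •
    (ContinuousLinearMap.mul ℝ 𝔸 (Fc (b.B e) z) -
      (ContinuousLinearMap.mul ℝ 𝔸).flip (Fc (b.B e) z))
  have hT : ContinuousOn T e.target := by
    have hF := Fc_continuousOn e.open_target (b.B_smooth he)
    refine ((D.n_smooth e he).continuousOn.smul
      (hW.cont.comp_continuousOn e.continuousOn_symm)).add ?_
    have c1 : ContinuousOn (fun z => ContinuousLinearMap.mul ℝ 𝔸 (Fc (b.B e) z)) e.target :=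
      (ContinuousLinearMap.mul ℝ 𝔸).continuous.comp_continuousOn hF
    have c2 : ContinuousOn (fun z => (ContinuousLinearMap.mul ℝ 𝔸).flip (Fc (b.B e) z)) e.target :=
      (ContinuousLinearMap.mul ℝ 𝔸).flip.continuous.comp_continuousOn hF
    exact (c1.sub c2).const_smul (1 / 2 : ℝ)
  refine local_regularity e.open_target (b.G_smooth e he) (b.Gi_smooth e he) (b.mul_Gi e he)
    (b.Gi_mul e he) (T := T) hT (ρ := fun z => - (D.n e z • ρ (e.symm z))) ?_ h1 h2 h3 h4 ?_
  · intro K hKt hK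
    have hK' : IsFiniteMeasure ((volume : Measure ℂ).restrict K) :=
      ⟨by rw [Measure.restrict_apply_univ]; exact hK.measure_lt_top⟩
    have m1 : MemLp ρ 4 D.ν := MemLp.of_bound hρ C (Eventually.of_forall hρC)
    have m2 := (D.memLp_chart he m1 hK hKt).aestronglyMeasurable
    have m3 : ContinuousOn (D.n e) K := (D.n_smooth e he).continuousOn.mono hKt
    have m4 : AEStronglyMeasurable (D.n e) (volume.restrict K) :=
      m3.aestronglyMeasurable hK.measurableSet
    obtain ⟨M, hM⟩ := hK.exists_bound_of_continuousOn m3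
    refine MemLp.of_bound (m4.smul m2).neg (M * C) ?_
    rw [ae_restrict_iff' hK.measurableSet]
    refine Eventually.of_forall fun z hz => ?_
    show ‖- (D.n e z • ρ (e.symm z))‖ ≤ M * C
    rw [norm_neg, norm_smul]
    exact mul_le_mul (hM z hz) (hρC _) (norm_nonneg _) ((norm_nonneg _).trans (hM z hz))
  · refine h5.congr (fun z _ => rfl) fun z _ => ?_
    have : T z (w (e.symm z)) = D.n e z • W (e.symm z) (w (e.symm z)) +
        (1 / 2 : ℝ) • (Fc (b.B e) z * w (e.symm z) - w (e.symm z) * Fc (b.B e) z) := rfl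
    rw [this, smul_sub]
    congr 2
    abel

/-- a subsequence converges almost everywhere -/
theorem WPair.subseq (D : SurfData X) (b : Bun X 𝔸) {w : X → 𝔸} {q : D.A → X → 𝔸}
    (h : WPair D b w q) : ∃ η : ℕ → X → 𝔸, (∀ j, Sec1 (η j)) ∧
      ∀ᵐ x ∂D.ν, ∀ a, Tendsto (fun j => pa D b a (η j) x) atTop (𝓝 (q a x)) := by
  obtain ⟨η, hη, _, hlim⟩ := h.approx
  have hmeas : ∀ j a, AEStronglyMeasurable (fun x => ‖pa D b a (η j) x - q a x‖) D.ν := by
    intro j a
    exact ((pa_continuous D b (hη j).1 a).aestronglyMeasurable.sub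
      (h.memq a).aestronglyMeasurable).norm
  let g : ℕ → X → ℝ := fun j => ∑ a, fun x => ‖pa D b a (η j) x - q a x‖
  have hg : ∀ j, AEStronglyMeasurable (g j) D.ν := fun j =>
    Finset.aestronglyMeasurable_sum _ fun a _ => hmeas j a
  have hg0 : Tendsto (fun j => eLpNorm (g j - 0) 2 D.ν) atTop (𝓝 0) := by
    have h1 : Tendsto (fun j => ∑ a, eLpNorm (fun x => pa D b a (η j) x - q a x) 2 D.ν) atTop
        (𝓝 (∑ _a : D.A, 0)) := tendsto_finsetSum _ fun a _ => hlim a
    rw [Finset.sum_const_zero] at h1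
    refine tendsto_of_tendsto_of_tendsto_of_le_of_le tendsto_const_nhds h1
      (fun _ => zero_le) fun j => ?_
    show eLpNorm (g j - 0) 2 D.ν ≤ ∑ a, eLpNorm (fun x => pa D b a (η j) x - q a x) 2 D.ν
    rw [sub_zero]
    refine (eLpNorm_sum_le (fun a _ => hmeas j a) (by norm_num)).trans (le_of_eq ?_)
    refine Finset.sum_congr rfl fun a _ => ?_
    exact eLpNorm_norm _
  have h2 := tendstoInMeasure_of_tendsto_eLpNorm (p := 2) (by norm_num) hg
    (aestronglyMeasurable_const (b := (0 : ℝ))) hg0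
  obtain ⟨ns, _, hae⟩ := h2.exists_seq_tendsto_ae
  refine ⟨fun j => η (ns j), fun j => hη _, ?_⟩
  filter_upwards [hae] with x hx a
  rw [tendsto_iff_norm_sub_tendsto_zero]
  refine tendsto_of_tendsto_of_tendsto_of_le_of_le tendsto_const_nhds hx
    (fun _ => norm_nonneg _) fun j => ?_
  show ‖pa D b a (η (ns j)) x - q a x‖ ≤ (∑ a, fun x => ‖pa D b a (η (ns j)) x - q a x‖) x
  rw [Finset.sum_apply]
  exact Finset.single_le_sum (f := fun a => ‖pa D b a (η (ns j)) x - q a x‖)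
    (fun _ _ => norm_nonneg _) (Finset.mem_univ a)

theorem WPair.q_eq (D : SurfData X) (b : Bun X 𝔸) {w : X → 𝔸} {q : D.A → X → 𝔸}
    (h : WPair D b w q) {e : OpenPartialHomeomorph X ℂ} (he : e ∈ atlas ℂ X) :
    ∀ᵐ z ∂(volume.restrict e.target), ∀ a, q a (e.symm z) =
      ((D.n e z)⁻¹ : ℝ) • conj (kap D e a z) • ∑ a', kap D e a' z • q a' (e.symm z) := by
  obtain ⟨η, hη, hae⟩ := h.subseq
  have h1 := D.ae_chart he hae
  rw [ae_restrict_iff' e.open_target.measurableSet] at h1 ⊢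
  filter_upwards [h1] with z hz hzt a
  have hz := hz hzt
  have h2 : ∀ j, pa D b a (η j) (e.symm z) = ((D.n e z)⁻¹ : ℝ) • conj (kap D e a z) •
      ∑ a', kap D e a' z • pa D b a' (η j) (e.symm z) := fun j => by
    rw [pa_eq D b he hzt (hη j).1 a, Db_eq_sum D b he hzt (hη j).1]
  have h3 : Tendsto (fun j => ((D.n e z)⁻¹ : ℝ) • conj (kap D e a z) •
      ∑ a', kap D e a' z • pa D b a' (η j) (e.symm z)) atTop
      (𝓝 (((D.n e z)⁻¹ : ℝ) • conj (kap D e a z) • ∑ a', kap D e a' z • q a' (e.symm z))) := by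
    refine Tendsto.const_smul (Tendsto.const_smul ?_ _) _
    exact tendsto_finsetSum _ fun a' _ => (hz a').const_smul _
  have h4 := hz a
  simp_rw [h2] at h4
  exact tendsto_nhds_unique h4 h3

/-- existence of `C¹` solutions -/
theorem solver (D : SurfData X) (b : Bun X 𝔸) {W : X → 𝔸 →L[ℝ] 𝔸} (hW : Pot X 𝔸 W)
    {δ : ℝ} (hδ : 0 < δ) (hco : Coer D b W δ) {ρ : X → 𝔸} (hρ : AEStronglyMeasurable ρ D.ν)
    {C : ℝ} (hρC : ∀ x, ‖ρ x‖ ≤ C) (hρs : ∀ᵐ x ∂D.ν, star (ρ x) = ρ x) :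
    ∃ w : X → 𝔸, Sec1 w ∧ ∀ ζ : X → 𝔸, Sec1 ζ → en D b W w ζ = ∫ x, ip (ρ x) (ζ x) ∂D.ν := by
  obtain ⟨w, q, hwq, hweq⟩ := weak_solution D b hW hδ hco hρ hρC
  choose wl ql hw1 hq1 hw2 hq2 hw3 hw4 using
    fun (e : OpenPartialHomeomorph X ℂ) (he : e ∈ atlas ℂ X) =>
      chart_regularity D b hW hρ hρC hρs hwq hweq he
  -- almost everywhere identification on the surface
  have hsrc : ∀ (e : OpenPartialHomeomorph X ℂ) (he : e ∈ atlas ℂ X),
      ∀ᵐ x ∂D.ν, x ∈ e.source → w x = wl e he (e x) := by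
    intro e he
    apply D.ae_source (P := fun x => w x = wl e he (e x)) he
    have h1 := hw2 e he
    rw [Filter.EventuallyEq, ae_restrict_iff' e.open_target.measurableSet] at h1
    rw [ae_restrict_iff' e.open_target.measurableSet]
    filter_upwards [h1] with z hz hzt
    rw [e.right_inv hzt]
    exact hz hzt
  have hglue : ∀ (e : OpenPartialHomeomorph X ℂ) (he : e ∈ atlas ℂ X)
      (e' : OpenPartialHomeomorph X ℂ) (he' : e' ∈ atlas ℂ X), ∀ z ∈ dom e e',
      wl e he z = wl e' he' (trans e e' z) := by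
    intro e he e' he'
    have hc1 : ContinuousOn (wl e he) (dom e e') := (hw1 e he).continuousOn.mono inter_subset_left
    have hc2 : ContinuousOn (fun z => wl e' he' (trans e e' z)) (dom e e') :=
      (hw1 e' he').continuousOn.comp (continuousOn_trans e e') fun z hz => trans_mem_target hz
    have hae : wl e he =ᵐ[volume.restrict (dom e e')] fun z => wl e' he' (trans e e' z) := by
      have h1 := D.ae_chart he (hsrc e he)
      have h2 := D.ae_chart he (hsrc e' he')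
      rw [ae_restrict_iff' e.open_target.measurableSet] at h1 h2
      rw [Filter.EventuallyEq, ae_restrict_iff' (isOpen_dom e e').measurableSet]
      filter_upwards [h1, h2] with z hz1 hz2 hz
      have h3 := hz1 hz.1 (e.map_target hz.1)
      have h4 := hz2 hz.1 hz.2
      rw [e.right_inv hz.1] at h3
      rw [← h3, h4]
      rfl
    exact Measure.eqOn_open_of_ae_eq hae (isOpen_dom e e') hc1 hc2
  let u : X → 𝔸 := fun x => wl (chartAt ℂ x) (chart_mem_atlas ℂ x) ((chartAt ℂ x) x)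
  have hu : ∀ (e : OpenPartialHomeomorph X ℂ) (he : e ∈ atlas ℂ X), ∀ z ∈ e.target,
      u (e.symm z) = wl e he z := by
    intro e he z hz
    have hzd : z ∈ dom e (chartAt ℂ (e.symm z)) := ⟨hz, mem_chart_source ℂ (e.symm z)⟩
    exact (hglue e he _ (chart_mem_atlas ℂ (e.symm z)) z hzd).symm
  have huC : Ck 1 u := by
    intro e he
    exact (hw1 e he).congr fun z hz => hu e he z hz
  have hus : Sec1 u := by
    refine ⟨huC, fun x => ?_⟩
    exact hw3 _ (chart_mem_atlas ℂ x) _ (mem_chart_target ℂ x)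
  have huw : ∀ᵐ x ∂D.ν, u x = w x := by
    apply D.ae_of_chart
    intro e he
    have h1 := hw2 e he
    rw [Filter.EventuallyEq, ae_restrict_iff' e.open_target.measurableSet] at h1
    rw [ae_restrict_iff' e.open_target.measurableSet]
    filter_upwards [h1] with z hz hzt
    rw [hu e he z hzt]
    exact (hz hzt).symm
  have huq : ∀ᵐ x ∂D.ν, ∀ a, pa D b a u x = q a x := by
    apply D.ae_of_chart
    intro e he
    have h1 := hq2 e he
    have h2 := hwq.q_eq D b he
    rw [Filter.EventuallyEq, ae_restrict_iff' e.open_target.measurableSet] at h1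
    rw [ae_restrict_iff' e.open_target.measurableSet] at h2 ⊢
    filter_upwards [h1, h2] with z hz1 hz2 hzt a
    have h3 : (fun x => u (e.symm x)) =ᶠ[𝓝 z] wl e he := by
      filter_upwards [e.open_target.mem_nhds hzt] with y hy using hu e he y hy
    rw [pa_eq D b he hzt huC a, Db_congr h3, hw4 e he z hzt, ← hz1 hzt, ← hz2 hzt a]
  refine ⟨u, hus, fun ζ hζ => ?_⟩
  rw [← hweq ζ hζ]
  apply integral_congr_ae
  filter_upwards [huw, huq] with x h1 h2
  simp only [h1, h2]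

section bilinear

theorem ip_continuous_comp {Y : Type*} [TopologicalSpace Y] {f g : Y → 𝔸} (hf : Continuous f)
    (hg : Continuous g) : Continuous (fun x => ip (f x) (g x)) := by
  obtain ⟨L, hL⟩ := exists_ipL (𝔸 := 𝔸)
  have h1 : (fun x => ip (f x) (g x)) = fun x => L (f x) (g x) := by
    funext x; rw [hL]
  rw [h1]
  exact (L.continuous.comp hf).clm_apply hg

theorem en_integrand_continuous (D : SurfData X) (b : Bun X 𝔸) {W : X → 𝔸 →L[ℝ] 𝔸}
    (hW : Pot X 𝔸 W) {w η : X → 𝔸} (hw : Ck 1 w) (hη : Ck 1 η) :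
    Continuous (fun x => (∑ a, ip (pa D b a w x) (pa D b a η x)) + ip (W x (w x)) (η x)) := by
  refine (continuous_finsetSum _ fun a _ => ip_continuous_comp (pa_continuous D b hw a)
    (pa_continuous D b hη a)).add ?_
  exact ip_continuous_comp (hW.cont.clm_apply hw.continuous) hη.continuous

omit [IsManifold 𝓘(ℂ) ω X] [ChartedSpace ℂ X] [T2Space X] in
theorem integrable_of_continuous' [ChartedSpace ℂ X] (D : SurfData X) {f : X → ℝ}
    (hf : Continuous f) : Integrable f D.ν :=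
  hf.integrable_of_hasCompactSupport (HasCompactSupport.of_compactSpace f)

theorem enS_add_left (D : SurfData X) (b : Bun X 𝔸) {W : X → 𝔸 →L[ℝ] 𝔸} (hW : Pot X 𝔸 W)
    {w w' η : X → 𝔸} (hw : Ck 1 w) (hw' : Ck 1 w') (hη : Ck 1 η) :
    en D b W (fun x => w x + w' x) η = en D b W w η + en D b W w' η := by
  rw [en, en, en, ← integral_add
    (integrable_of_continuous' D (en_integrand_continuous D b hW hw hη))
    (integrable_of_continuous' D (en_integrand_continuous D b hW hw' hη))]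
  congr 1
  funext x
  have h1 : ∀ a, ip (pa D b a (fun x => w x + w' x) x) (pa D b a η x) =
      ip (pa D b a w x) (pa D b a η x) + ip (pa D b a w' x) (pa D b a η x) := fun a => by
    rw [pa_add D b hw hw', ip_add_left]
  rw [Finset.sum_congr rfl fun a _ => h1 a, Finset.sum_add_distrib, map_add, ip_add_left]
  ring

theorem enS_smul_left (D : SurfData X) (b : Bun X 𝔸) {W : X → 𝔸 →L[ℝ] 𝔸}
    {w η : X → 𝔸} (hw : Ck 1 w) (r : ℝ) :
    en D b W (fun x => r • w x) η = r * en D b W w η := by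
  rw [en, en, ← integral_const_mul]
  congr 1
  funext x
  have h1 : ∀ a, ip (pa D b a (fun x => r • w x) x) (pa D b a η x) =
      r * ip (pa D b a w x) (pa D b a η x) := fun a => by
    rw [pa_smul D b hw, ip_smul_left]
  rw [Finset.sum_congr rfl fun a _ => h1 a, ← Finset.mul_sum, map_smul, ip_smul_left]
  ring

end bilinear

/-- uniqueness, with the `L²` estimate -/
theorem solver_bound (D : SurfData X) (b : Bun X 𝔸) {W : X → 𝔸 →L[ℝ] 𝔸} (hW : Pot X 𝔸 W)
    {δ : ℝ} (hδ : 0 < δ) (hco : Coer D b W δ) {ρ : X → 𝔸} (hρ : AEStronglyMeasurable ρ D.ν)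
    {C : ℝ} (hρC : ∀ x, ‖ρ x‖ ≤ C) {w : X → 𝔸} (hw : Sec1 w)
    (h : ∀ ζ : X → 𝔸, Sec1 ζ → en D b W w ζ = ∫ x, ip (ρ x) (ζ x) ∂D.ν) :
    δ ^ 2 * ∫ x, ‖w x‖ ^ 2 ∂D.ν ≤ ∫ x, ‖ρ x‖ ^ 2 ∂D.ν := by
  have h1 := hco w hw
  rw [h w hw] at h1
  have hwc : Continuous w := hw.1.continuous
  have i1 : Integrable (fun x => ‖w x‖ ^ 2) D.ν :=
    integrable_of_continuous' D (hwc.norm.pow 2)
  have i2 : Integrable (fun x => ‖ρ x‖ ^ 2) D.ν := by
    refine Integrable.of_bound (hρ.norm.pow 2) (C ^ 2) (Eventually.of_forall fun x => ?_)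
    rw [Real.norm_eq_abs, abs_of_nonneg (by positivity)]
    exact pow_le_pow_left₀ (norm_nonneg _) (hρC x) 2
  have h2 : δ * ∫ x, ip (ρ x) (w x) ∂D.ν ≤
      ∫ x, ((1 / 2) * ‖ρ x‖ ^ 2 + (1 / 2) * δ ^ 2 * ‖w x‖ ^ 2) ∂D.ν := by
    rw [← integral_const_mul]
    have i3 : Integrable (fun x => ip (ρ x) (w x)) D.ν := by
      obtain ⟨L, hL⟩ := exists_ipL (𝔸 := 𝔸)
      obtain ⟨M, hM⟩ := (isCompact_univ (X := X)).exists_bound_of_continuousOn hwc.continuousOn
      have m1 : AEStronglyMeasurable (fun x => L (ρ x) (w x)) D.ν :=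
        L.aestronglyMeasurable_comp₂ hρ hwc.aestronglyMeasurable
      have e1 : (fun x => ip (ρ x) (w x)) = fun x => L (ρ x) (w x) := by
        funext x; rw [hL]
      rw [e1]
      refine Integrable.of_bound m1 (C * M) (Eventually.of_forall fun x => ?_)
      rw [hL, Real.norm_eq_abs]
      exact (abs_ip_le _ _).trans (mul_le_mul (hρC x) (hM x (mem_univ x)) (norm_nonneg _)
        ((norm_nonneg _).trans (hρC x)))
    refine integral_mono (i3.const_mul _) ((i2.const_mul _).add (i1.const_mul _)) fun x => ?_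
    show δ * ip (ρ x) (w x) ≤ 1 / 2 * ‖ρ x‖ ^ 2 + 1 / 2 * δ ^ 2 * ‖w x‖ ^ 2
    have h4 : ip (ρ x) (w x) ≤ ‖ρ x‖ * ‖w x‖ := (le_abs_self _).trans (abs_ip_le _ _)
    nlinarith [sq_nonneg (‖ρ x‖ - δ * ‖w x‖), mul_le_mul_of_nonneg_left h4 hδ.le]
  rw [integral_add (i2.const_mul _) (i1.const_mul _), integral_const_mul, integral_const_mul]
    at h2
  nlinarith

theorem solver_unique (D : SurfData X) (b : Bun X 𝔸) {W : X → 𝔸 →L[ℝ] 𝔸} (hW : Pot X 𝔸 W)
    {δ : ℝ} (hδ : 0 < δ) (hco : Coer D b W δ) {w w' : X → 𝔸} (hw : Sec1 w) (hw' : Sec1 w')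
    (h : ∀ ζ : X → 𝔸, Sec1 ζ → en D b W w ζ = en D b W w' ζ) : w = w' := by
  have hu : Sec1 (fun x => w x + (-1 : ℝ) • w' x) := hw.add (hw'.smul (-1))
  have h1 : en D b W (fun x => w x + (-1 : ℝ) • w' x) (fun x => w x + (-1 : ℝ) • w' x) = 0 := by
    rw [enS_add_left D b hW hw.1 (hw'.smul (-1)).1 hu.1, enS_smul_left D b hw'.1, h _ hu]
    ring
  have h2 := hco _ hu
  rw [h1] at h2
  have hc : Continuous (fun x => ‖w x + (-1 : ℝ) • w' x‖ ^ 2) := (hu.1.continuous.norm).pow 2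
  have h3 : ∫ x, ‖w x + (-1 : ℝ) • w' x‖ ^ 2 ∂D.ν = 0 := by
    have h4 : 0 ≤ ∫ x, ‖w x + (-1 : ℝ) • w' x‖ ^ 2 ∂D.ν :=
      integral_nonneg fun x => by positivity
    nlinarith
  have h5 := D.eq_zero_of_integral hc (fun x => by positivity) h3
  funext x
  have h6 := h5 x
  rw [sq_eq_zero_iff, norm_eq_zero, neg_one_smul, ← sub_eq_add_neg, sub_eq_zero] at h6
  exact h6

/-- a `C¹` section is a weak pair, and the local equation holds for it -/
theorem solution_local (D : SurfData X) (b : Bun X 𝔸) {W : X → 𝔸 →L[ℝ] 𝔸} (hW : Pot X 𝔸 W)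
    {ρ : X → 𝔸} (hρ : AEStronglyMeasurable ρ D.ν) {C : ℝ} (hρC : ∀ x, ‖ρ x‖ ≤ C)
    (hρs : ∀ᵐ x ∂D.ν, star (ρ x) = ρ x) {w : X → 𝔸} (hw : Sec1 w)
    (h : ∀ ζ : X → 𝔸, Sec1 ζ → en D b W w ζ = ∫ x, ip (ρ x) (ζ x) ∂D.ν)
    {e : OpenPartialHomeomorph X ℂ} (he : e ∈ atlas ℂ X) :
    WDz e.target
      (fun z => star (b.Gi e z) * Db (b.B e) (fun x => w (e.symm x)) z * star (b.G e z))
      (fun z => star (b.Gi e z) * (D.n e z • (W (e.symm z) (w (e.symm z)) - ρ (e.symm z)) +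
        (1 / 2 : ℝ) • (Fc (b.B e) z * w (e.symm z) - w (e.symm z) * Fc (b.B e) z)) *
        star (b.G e z)) := by
  have hmem : ∀ {f : X → 𝔸}, Continuous f → MemLp f 2 D.ν := by
    intro f hf
    exact (hf.memLp_of_hasCompactSupport (HasCompactSupport.of_compactSpace f))
  have hpair : WPair D b w (fun a => pa D b a w) := by
    refine ⟨hmem hw.1.continuous, fun a => hmem (pa_continuous D b hw.1 a),
      fun _ => w, fun _ => hw, ?_, fun a => ?_⟩
    · simp
    · simp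
  have heq : WEq D b W ρ w (fun a => pa D b a w) := fun ζ hζ => h ζ hζ
  obtain ⟨_, _, _, _, h5⟩ := weak_local D b hW hρ hρC hρs hpair heq he
  refine h5.congr (fun z hz => ?_) fun z _ => rfl
  rw [← Db_eq_sum D b he hz hw.1]

end E

end Pool.Agent.Lib8bb
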