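import Pool.Agent.Lib_MP_8bb00a_gt.Surf3
import Pool.Agent.Lib_MP_8bb00a_gt.Solver
import Pool.Agent.Lib_MP_8bb00a_gt.Coer

/-!
The Liouville equation `∂̄∂ v = K e^v - κ` on a compact Riemann surface, by monotone iteration.
-/

open MeasureTheory Complex Set Metric Filter Topology
open scoped Real ContDiff ComplexConjugate Manifold

noncomputable section

namespace Pool.Agent.Lib8bb

/-! ### real functions -/

set_option linter.unusedSectionVars false

section plane

theorem ofReal_contDiff {n : ℕ∞ω} : ContDiff ℝ n (fun t : ℝ => (t : ℂ)) :=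
  Complex.ofRealCLM.contDiff

theorem dz_real {u : ℂ → ℝ} {z : ℂ} (hu : DifferentiableAt ℝ u z) :
    dz (fun x => ((u x : ℝ) : ℂ)) z = conj (dzb (fun x => ((u x : ℝ) : ℂ)) z) := by
  have h1 : DifferentiableAt ℝ (fun x => ((u x : ℝ) : ℂ)) z :=
    Complex.ofRealCLM.differentiableAt.comp z hu
  have h2 := dz_star h1
  rw [Complex.star_def] at h2
  rw [← h2]
  congr 1
  ext x
  simp

/-- composition with a `C^1` function of a real variable -/
theorem dzb_comp_real {u : ℂ → ℝ} {z : ℂ} (hu : DifferentiableAt ℝ u z) {φ : ℝ → ℝ} {φ' : ℝ}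
    (hφ : HasDerivAt φ φ' (u z)) :
    dzb (fun x => ((φ (u x) : ℝ) : ℂ)) z = (φ' : ℂ) * dzb (fun x => ((u x : ℝ) : ℂ)) z := by
  have h1 : HasFDerivAt (fun x => ((u x : ℝ) : ℂ)) (Complex.ofRealCLM.comp (fderiv ℝ u z)) z :=
    Complex.ofRealCLM.hasFDerivAt.comp z hu.hasFDerivAt
  have h2 : HasFDerivAt (fun x => φ (u x)) (φ' • fderiv ℝ u z) z :=
    hφ.comp_hasFDerivAt z hu.hasFDerivAt
  have h3 : HasFDerivAt (fun x => ((φ (u x) : ℝ) : ℂ))
      (Complex.ofRealCLM.comp (φ' • fderiv ℝ u z)) z :=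
    Complex.ofRealCLM.hasFDerivAt.comp z h2
  rw [HasFDerivAt.dzb_eq h1, HasFDerivAt.dzb_eq h3]
  simp
  ring

theorem contDiff_mkL {n : ℕ∞ω} : ContDiff ℝ n (fun p : ℂ × ℂ => mkL p.1 p.2) := by
  let L : ℂ × ℂ →ₗ[ℝ] (ℂ →L[ℝ] ℂ) :=
    { toFun := fun p => mkL p.1 p.2
      map_add' := fun p q => by
        ext v
        simp only [mkL_apply, add_apply, Prod.fst_add, Prod.snd_add]
        ring
      map_smul' := fun c p => by
        ext v
        simp only [mkL_apply, smul_apply, Prod.smul_fst, Prod.smul_snd, RingHom.id_apply,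
          Complex.real_smul, smul_eq_mul]
        ring }
  exact (LinearMap.toContinuousLinearMap L).contDiff

/-- bootstrap for a real scalar equation -/
theorem bootstrap_real {U : Set ℂ} (hU : IsOpen U) {u R : ℂ → ℝ} (hu : ContDiffOn ℝ 1 u U)
    (hR : ∀ j : ℕ, ContDiffOn ℝ j u U → ContDiffOn ℝ j R U)
    (h : WDz U (dzb (fun x => ((u x : ℝ) : ℂ))) (fun x => ((R x : ℝ) : ℂ))) :
    ContDiffOn ℝ ∞ u U ∧
      ∀ z ∈ U, dzb (dz (fun x => ((u x : ℝ) : ℂ))) z = ((R z : ℝ) : ℂ) := by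
  set w : ℂ → ℂ := fun x => ((u x : ℝ) : ℂ) with hw
  have hdiff : ∀ z ∈ U, DifferentiableAt ℝ u z := fun z hz =>
    (hu.contDiffAt (hU.mem_nhds hz)).differentiableAt (by simp)
  have hwdiff : ∀ z ∈ U, DifferentiableAt ℝ w z := fun z hz =>
    Complex.ofRealCLM.differentiableAt.comp z (hdiff z hz)
  have hwc : ContDiffOn ℝ 1 w U := ofReal_contDiff.comp_contDiffOn hu
  have hdzbc : ContinuousOn (dzb w) U := by
    have h1 : ContinuousOn (fderiv ℝ w) U := hwc.continuousOn_fderiv_of_isOpen hU le_rfl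
    have h2 : ContinuousOn (fun z => fderiv ℝ w z 1) U := h1.clm_apply continuousOn_const
    have h3 : ContinuousOn (fun z => fderiv ℝ w z I) U := h1.clm_apply continuousOn_const
    exact (h2.add ((continuousOn_const (c := I)).smul h3)).const_smul (1 / 2 : ℂ)
  -- the local step
  have hstep : ∀ j : ℕ, 1 ≤ j → ContDiffOn ℝ j u U → ContDiffOn ℝ j (dzb w) U ∧
      ∀ z ∈ U, dz (dzb w) z = ((R z : ℝ) : ℂ) := by
    intro j hj hju
    have hRj : ContDiffOn ℝ j (fun x => ((R x : ℝ) : ℂ)) U :=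
      ofReal_contDiff.comp_contDiffOn (hR j hju)
    have hloc : ∀ z ∈ U, ∃ r > 0, ∃ v : ℂ → ℂ, ball z r ⊆ U ∧ ContDiffOn ℝ j v (ball z r) ∧
        EqOn (dzb w) v (ball z r) ∧ ∀ y ∈ ball z r, dz v y = ((R y : ℝ) : ℂ) := by
      intro z hz
      obtain ⟨ε, hε, hb⟩ := Metric.isOpen_iff.mp hU z hz
      have hr : 0 < ε / 3 := by positivity
      have hball : closedBall z (2 * (ε / 3)) ⊆ U :=
        (closedBall_subset_ball (by linarith)).trans hb
      have hint : IntegrableOn (dzb w) (closedBall z (2 * (ε / 3))) :=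
        (hdzbc.mono hball).integrableOn_compact (isCompact_closedBall _ _)
      obtain ⟨v, hv, hae, hdv⟩ := reg_Ck' (k := (j : ℕ∞)) hU hr hball hint
        (by exact_mod_cast hRj) h
      have hbU : ball z (ε / 3) ⊆ U :=
        (ball_subset_closedBall.trans (closedBall_subset_closedBall (by linarith))).trans hball
      refine ⟨ε / 3, hr, v, hbU, by exact_mod_cast hv, ?_, hdv (by exact_mod_cast hj)⟩
      exact Measure.eqOn_open_of_ae_eq hae isOpen_ball (hdzbc.mono hbU) hv.continuousOn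
    constructor
    · intro z hz
      obtain ⟨r, hr, v, hbU, hv, heq, -⟩ := hloc z hz
      have h1 : ContDiffAt ℝ j v z := hv.contDiffAt (ball_mem_nhds z hr)
      exact (h1.congr_of_eventuallyEq (heq.eventuallyEq_of_mem (ball_mem_nhds z hr))
        ).contDiffWithinAt
    · intro z hz
      obtain ⟨r, hr, v, hbU, hv, heq, hd⟩ := hloc z hz
      rw [dz_congr (heq.eventuallyEq_of_mem (ball_mem_nhds z hr))]
      exact hd z (mem_ball_self hr)
  have hall : ∀ j : ℕ, ContDiffOn ℝ (j + 1 : ℕ) u U := by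
    intro j
    induction j with
    | zero => simpa using hu
    | succ j ih =>
      have h1 := (hstep (j + 1) (by omega) ih).1
      have h2 : ContDiffOn ℝ (j + 1 : ℕ) (dz w) U := by
        have h3 : ContDiffOn ℝ (j + 1 : ℕ) (fun z => conj (dzb w z)) U :=
          Complex.conjCLE.contDiff.comp_contDiffOn h1
        exact h3.congr fun z hz => dz_real (hdiff z hz)
      have h4 : ContDiffOn ℝ (j + 1 : ℕ) (fderiv ℝ w) U := by
        have h5 : ContDiffOn ℝ (j + 1 : ℕ) (fun z => mkL (dz w z) (dzb w z)) U :=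
          contDiff_mkL.comp_contDiffOn (h2.prodMk h1)
        exact h5.congr fun z hz => (hasFDerivAt_mkL (hwdiff z hz)).fderiv
      have h8 : ContDiffOn ℝ ((j + 1 : ℕ) + 1) w U := by
        rw [contDiffOn_succ_iff_fderiv_of_isOpen hU]
        refine ⟨fun z hz => (hwdiff z hz).differentiableWithinAt, ?_, h4⟩
        intro h; exact absurd h (by simp)
      have h9 : ContDiffOn ℝ ((j + 1 : ℕ) + 1) (fun z => (w z).re) U :=
        Complex.reCLM.contDiff.comp_contDiffOn h8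
      have h10 : (fun z => (w z).re) = u := by ext z; simp [hw]
      rw [h10] at h9
      exact_mod_cast h9
  refine ⟨?_, fun z hz => ?_⟩
  · rw [contDiffOn_infty]
    intro n
    exact (hall n).of_le (by exact_mod_cast Nat.le_succ n)
  · have h1 := (hstep 1 le_rfl (by simpa using hu))
    have h2 : dz w =ᶠ[𝓝 z] fun x => star (dzb w x) := by
      filter_upwards [hU.mem_nhds hz] with x hx using dz_real (hdiff x hx)
    have h3 : DifferentiableAt ℝ (dzb w) z :=
      (h1.1.contDiffAt (hU.mem_nhds hz)).differentiableAt (by simp)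
    rw [dzb_congr h2, dzb_star h3, h1.2 z hz]
    simp

end plane

section J

variable {X : Type*} [TopologicalSpace X] [ChartedSpace ℂ X]

/-- the trivial bundle -/
def trivBun (X : Type*) [TopologicalSpace X] [ChartedSpace ℂ X] : Bun X ℂ where
  G _ _ := 1
  Gi _ _ := 1
  G_smooth _ _ := contDiffOn_const
  Gi_smooth _ _ := contDiffOn_const
  mul_Gi _ _ _ _ := one_mul 1
  Gi_mul _ _ _ _ := one_mul 1
  holo _ _ _ _ := differentiableOn_const _

theorem trivBun_B (e : OpenPartialHomeomorph X ℂ) : (trivBun X).B e = fun _ => 0 := by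
  ext z
  show (1 : ℂ) * dzb (fun _ => (1 : ℂ)) z = 0
  rw [dzb_const, mul_zero]

theorem Db_zero (w : ℂ → ℂ) (z : ℂ) : Db (fun _ => (0 : ℂ)) w z = dzb w z := by
  simp [Db]

/-- complexification of a real function -/
def cx (v : X → ℝ) (x : X) : ℂ := ((v x : ℝ) : ℂ)

theorem Ck_cx {n : ℕ∞ω} {v : X → ℝ} (hv : Ck n v) : Ck n (cx v) :=
  hv.comp_contDiff ofReal_contDiff

theorem Sec1_cx {v : X → ℝ} (hv : Ck 1 v) : Sec1 (cx v) :=
  ⟨Ck_cx hv, fun x => by simp [cx]⟩

theorem Sec1_re {w : X → ℂ} (hw : Sec1 w) : Ck 1 (fun x => (w x).re) ∧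
    w = cx (fun x => (w x).re) := by
  refine ⟨hw.1.comp_contDiff Complex.reCLM.contDiff, ?_⟩
  ext x
  have := hw.2 x
  rw [Complex.star_def, Complex.conj_eq_iff_re] at this
  exact this.symm

theorem ip_real (a b : ℝ) : ip (a : ℂ) (b : ℂ) = a * b := by
  show ((starRingEnd ℂ) (a : ℂ) * (b : ℂ)).re = a * b
  simp

/-- multiplication by a real function -/
def Wk (k : X → ℝ) (x : X) : ℂ →L[ℝ] ℂ := (k x) • ContinuousLinearMap.id ℝ ℂ

theorem Wk_apply (k : X → ℝ) (x : X) (a : ℂ) : Wk k x a = (k x : ℂ) * a := by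
  simp [Wk]

theorem Wk_pot {k : X → ℝ} (hk : Continuous k) : Pot X ℂ (Wk k) where
  cont := hk.smul continuous_const
  symm x a c := by
    show ((starRingEnd ℂ) (Wk k x a) * c).re = ((starRingEnd ℂ) a * (Wk k x c)).re
    rw [Wk_apply, Wk_apply]
    simp
    ring
  star_comm x a := by
    show (starRingEnd ℂ) (Wk k x a) = Wk k x ((starRingEnd ℂ) a)
    rw [Wk_apply, Wk_apply]
    simp

variable [IsManifold 𝓘(ℂ) ω X] [CompactSpace X] [T2Space X] [MeasurableSpace X] [BorelSpace X]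

/-- the derivative part -/
def rp (D : SurfData X) (w : X → ℝ) (a : D.A) (x : X) : ℂ := pa D (trivBun X) a (cx w) x

def gr (D : SurfData X) (w ζ : X → ℝ) (x : X) : ℝ := ∑ a, ip (rp D w a x) (rp D ζ a x)

theorem rp_eq (D : SurfData X) (w : X → ℝ) (a : D.A) (x : X) :
    rp D w a x = D.m a x • dzb (fun z => ((w ((D.c a).symm z) : ℝ) : ℂ)) (D.c a x) := by
  rw [rp, pa, trivBun_B, Db_zero]
  rfl

theorem rp_continuous (D : SurfData X) {w : X → ℝ} (hw : Ck 1 w) (a : D.A) :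
    Continuous (rp D w a) := pa_continuous D _ (Ck_cx hw) a

theorem gr_continuous (D : SurfData X) {w ζ : X → ℝ} (hw : Ck 1 w) (hζ : Ck 1 ζ) :
    Continuous (gr D w ζ) := by
  refine continuous_finsetSum _ fun a _ => ?_
  show Continuous fun x => ((starRingEnd ℂ) (rp D w a x) * (rp D ζ a x)).re
  exact Complex.continuous_re.comp
    ((Complex.continuous_conj.comp (rp_continuous D hw a)).mul (rp_continuous D hζ a))

/-- bounded continuous functions are integrable -/
theorem intg (D : SurfData X) {f : X → ℝ} (hf : Continuous f) : Integrable f D.ν := by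
  obtain ⟨C, hC⟩ := (isCompact_univ (X := X)).exists_bound_of_continuousOn hf.continuousOn
  exact Integrable.of_bound hf.aestronglyMeasurable C (ae_of_all _ fun x => hC x (mem_univ x))

theorem intg' (D : SurfData X) {f g : X → ℝ} (hf : AEStronglyMeasurable f D.ν)
    {C : ℝ} (hC : ∀ x, |f x| ≤ C) (hg : Continuous g) : Integrable (fun x => f x * g x) D.ν := by
  have h1 := intg D hg
  exact h1.bdd_mul hf (ae_of_all _ hC)

/-- the differential of a function on the surface: off the support everything vanishes -/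
theorem m_eq_zero (D : SurfData X) (a : D.A) {x : X} (hx : x ∉ (D.c a).source) :
    D.m a x = 0 := by
  apply D.m_supp
  rintro ⟨z, hz, rfl⟩
  exact hx ((D.c a).map_target (D.K_target a hz))

theorem rp_diff (D : SurfData X) {w : X → ℝ} (hw : Ck 1 w) (a : D.A) {x : X}
    (hx : x ∈ (D.c a).source) :
    DifferentiableAt ℝ (fun z => w ((D.c a).symm z)) (D.c a x) :=
  (hw.contDiffAt (D.c_mem a) ((D.c a).map_source hx)).differentiableAt (by simp)

theorem rp_sub (D : SurfData X) {w ζ : X → ℝ} (hw : Ck 1 w) (hζ : Ck 1 ζ) (a : D.A) (x : X) :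
    rp D (fun x => w x - ζ x) a x = rp D w a x - rp D ζ a x := by
  rw [rp_eq, rp_eq, rp_eq]
  by_cases hx : x ∈ (D.c a).source
  · have h1 := rp_diff D hw a hx
    have h2 := rp_diff D hζ a hx
    have h3 := dzb_sub (f := fun z => ((w ((D.c a).symm z) : ℝ) : ℂ))
      (g := fun z => ((ζ ((D.c a).symm z) : ℝ) : ℂ)) (z := D.c a x)
      (Complex.ofRealCLM.differentiableAt.comp _ h1) (Complex.ofRealCLM.differentiableAt.comp _ h2)
    simp only [Complex.ofReal_sub]
    rw [h3, smul_sub]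
  · rw [m_eq_zero D a hx]; simp

theorem rp_const (D : SurfData X) (c : ℝ) (a : D.A) (x : X) :
    rp D (fun _ => c) a x = 0 := by
  rw [rp_eq]; simp

theorem rp_comp (D : SurfData X) {w : X → ℝ} (hw : Ck 1 w) {φ φ' : ℝ → ℝ}
    (hφ : ∀ t, HasDerivAt φ (φ' t) t) (a : D.A) (x : X) :
    rp D (fun x => φ (w x)) a x = (φ' (w x) : ℂ) * rp D w a x := by
  rw [rp_eq, rp_eq]
  by_cases hx : x ∈ (D.c a).source
  · have h1 := dzb_comp_real (rp_diff D hw a hx) (hφ (w ((D.c a).symm (D.c a x))))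
    rw [h1, (D.c a).left_inv hx]
    simp only [Complex.real_smul]
    ring
  · rw [m_eq_zero D a hx]; simp

/-- weak solutions of `-Δ w + k w = ρ` -/
def Sol (D : SurfData X) (k ρ w : X → ℝ) : Prop :=
  Ck 1 w ∧ ∀ ζ : X → ℝ, Ck 1 ζ →
    ∫ x, (gr D w ζ x + k x * w x * ζ x) ∂D.ν = ∫ x, ρ x * ζ x ∂D.ν

theorem en_eq (D : SurfData X) (k w ζ : X → ℝ) :
    en D (trivBun X) (Wk k) (cx w) (cx ζ) = ∫ x, (gr D w ζ x + k x * w x * ζ x) ∂D.ν := by
  rw [en]
  refine integral_congr_ae (ae_of_all _ fun x => ?_)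
  show _ = gr D w ζ x + k x * w x * ζ x
  have : ip (Wk k x (cx w x)) (cx ζ x) = k x * w x * ζ x := by
    rw [Wk_apply, cx, cx, ← Complex.ofReal_mul, ip_real]
  simp only [this]
  rfl

theorem Sol_iff (D : SurfData X) (k ρ w : X → ℝ) :
    Sol D k ρ w ↔ Sec1 (cx w) ∧ ∀ ζ : X → ℂ, Sec1 ζ →
      en D (trivBun X) (Wk k) (cx w) ζ = ∫ x, ip (cx ρ x) (ζ x) ∂D.ν := by
  constructor
  · rintro ⟨h1, h2⟩
    refine ⟨Sec1_cx h1, fun ζ hζ => ?_⟩
    obtain ⟨h3, h4⟩ := Sec1_re hζ
    rw [h4, en_eq, h2 _ h3]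
    refine integral_congr_ae (ae_of_all _ fun x => ?_)
    exact (ip_real _ _).symm
  · rintro ⟨h1, h2⟩
    refine ⟨(Sec1_re h1).1, fun ζ hζ => ?_⟩
    rw [← en_eq, h2 _ (Sec1_cx hζ)]
    refine integral_congr_ae (ae_of_all _ fun x => ?_)
    exact ip_real _ _

theorem Sol.exists (D : SurfData X) {k : X → ℝ} (hk : Continuous k) {δ : ℝ} (hδ : 0 < δ)
    (hco : Coer D (trivBun X) (Wk k) δ) {ρ : X → ℝ} (hρ : AEStronglyMeasurable ρ D.ν)
    {C : ℝ} (hC : ∀ x, |ρ x| ≤ C) : ∃ w, Sol D k ρ w := by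
  obtain ⟨w, hw, h⟩ := solver D (trivBun X) (Wk_pot hk) hδ hco (ρ := cx ρ)
    (Complex.continuous_ofReal.comp_aestronglyMeasurable hρ) (C := C)
    (fun x => by rw [cx, Complex.norm_real]; exact hC x)
    (ae_of_all _ fun x => by simp [cx])
  obtain ⟨h1, h2⟩ := Sec1_re hw
  refine ⟨fun x => (w x).re, ?_⟩
  rw [Sol_iff, ← h2]
  exact ⟨hw, h⟩

theorem Sol.bound (D : SurfData X) {k : X → ℝ} (hk : Continuous k) {δ : ℝ} (hδ : 0 < δ)
    (hco : Coer D (trivBun X) (Wk k) δ) {ρ w : X → ℝ} (hρ : AEStronglyMeasurable ρ D.ν)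
    {C : ℝ} (hC : ∀ x, |ρ x| ≤ C) (h : Sol D k ρ w) :
    δ ^ 2 * ∫ x, (w x) ^ 2 ∂D.ν ≤ ∫ x, (ρ x) ^ 2 ∂D.ν := by
  rw [Sol_iff] at h
  have := solver_bound D (trivBun X) (Wk_pot hk) hδ hco (ρ := cx ρ)
    (Complex.continuous_ofReal.comp_aestronglyMeasurable hρ) (C := C)
    (fun x => by rw [cx, Complex.norm_real]; exact hC x) h.1 h.2
  simpa [cx] using this

theorem gr_sub (D : SurfData X) {w w' ζ : X → ℝ} (hw : Ck 1 w) (hw' : Ck 1 w') (x : X) :
    gr D (fun x => w x - w' x) ζ x = gr D w ζ x - gr D w' ζ x := by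
  rw [gr, gr, gr, ← Finset.sum_sub_distrib]
  refine Finset.sum_congr rfl fun a _ => ?_
  rw [rp_sub D hw hw']
  show ((starRingEnd ℂ) (rp D w a x - rp D w' a x) * (rp D ζ a x)).re = _
  rw [map_sub, sub_mul, Complex.sub_re]
  rfl

theorem Sol.sub {D : SurfData X} {k : X → ℝ} (hk : Continuous k) {ρ ρ' w w' : X → ℝ}
    (h : Sol D k ρ w) (h' : Sol D k ρ' w')
    (hρ : AEStronglyMeasurable ρ D.ν) {C : ℝ} (hC : ∀ x, |ρ x| ≤ C)
    (hρ' : AEStronglyMeasurable ρ' D.ν) {C' : ℝ} (hC' : ∀ x, |ρ' x| ≤ C') :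
    Sol D k (fun x => ρ x - ρ' x) (fun x => w x - w' x) := by
  refine ⟨h.1.sub h'.1, fun ζ hζ => ?_⟩
  have e1 : ∀ x, gr D (fun x => w x - w' x) ζ x + k x * (w x - w' x) * ζ x =
      (gr D w ζ x + k x * w x * ζ x) - (gr D w' ζ x + k x * w' x * ζ x) := by
    intro x
    rw [gr_sub D h.1 h'.1]; ring
  have e2 : ∀ x, (ρ x - ρ' x) * ζ x = ρ x * ζ x - ρ' x * ζ x := fun x => by ring
  simp_rw [e1, e2]
  have hζc := hζ.continuous
  rw [integral_sub, integral_sub, h.2 ζ hζ, h'.2 ζ hζ]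
  · exact intg' D hρ hC hζc
  · exact intg' D hρ' hC' hζc
  · exact intg D ((gr_continuous D h.1 hζ).add ((hk.mul h.1.continuous).mul hζc))
  · exact intg D ((gr_continuous D h'.1 hζ).add ((hk.mul h'.1.continuous).mul hζc))

theorem Sol.shift {D : SurfData X} {k k' : X → ℝ} (hk : Continuous k) (hk' : Continuous k')
    {ρ w : X → ℝ} (h : Sol D k ρ w)
    (hρ : AEStronglyMeasurable ρ D.ν) {C : ℝ} (hC : ∀ x, |ρ x| ≤ C) :
    Sol D k' (fun x => ρ x + (k' x - k x) * w x) w := by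
  refine ⟨h.1, fun ζ hζ => ?_⟩
  have hζc := hζ.continuous
  have hwc := h.1.continuous
  have e1 : ∀ x, gr D w ζ x + k' x * w x * ζ x =
      (gr D w ζ x + k x * w x * ζ x) + ((k' x - k x) * w x) * ζ x := by
    intro x; ring
  have e2 : ∀ x, (ρ x + (k' x - k x) * w x) * ζ x = ρ x * ζ x + ((k' x - k x) * w x) * ζ x :=
    fun x => by ring
  simp_rw [e1, e2]
  have i1 : Integrable (fun x => ρ x * ζ x) D.ν := intg' D hρ hC hζc
  have i2 : Integrable (fun x => ((k' x - k x) * w x) * ζ x) D.ν :=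
    intg D ((((hk'.sub hk).mul hwc).mul hζc))
  have i3 : Integrable (fun x => gr D w ζ x + k x * w x * ζ x) D.ν :=
    intg D ((gr_continuous D h.1 hζ).add ((hk.mul hwc).mul hζc))
  have e3 := integral_add i3 i2
  have e4 := integral_add i1 i2
  rw [e3, e4, h.2 ζ hζ]

theorem Sol.const (D : SurfData X) (k : X → ℝ) (c : ℝ) :
    Sol D k (fun x => k x * c) (fun _ => c) := by
  refine ⟨Ck.const c, fun ζ hζ => ?_⟩
  refine integral_congr_ae (ae_of_all _ fun x => ?_)
  have : gr D (fun _ => c) ζ x = 0 := by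
    rw [gr]
    refine Finset.sum_eq_zero fun a _ => ?_
    rw [rp_const]
    show ((starRingEnd ℂ) 0 * _).re = 0
    simp
  simp only [this]; ring

theorem Sol.congr {D : SurfData X} {k ρ ρ' w : X → ℝ} (h : Sol D k ρ w) (hρ : ρ =ᵐ[D.ν] ρ') :
    Sol D k ρ' w := by
  refine ⟨h.1, fun ζ hζ => ?_⟩
  rw [h.2 ζ hζ]
  refine integral_congr_ae ?_
  filter_upwards [hρ] with x hx
  rw [hx]

/-- the weak comparison principle -/
theorem Sol.nonpos {D : SurfData X} {k : X → ℝ} (hk : Continuous k) (hk0 : ∀ x, 0 ≤ k x) {δ : ℝ}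
    (hδ : 0 < δ) (hco : Coer D (trivBun X) (Wk k) δ) {ρ w : X → ℝ} (h : Sol D k ρ w)
    (hρ0 : ∀ x, ρ x ≤ 0) : ∀ x, w x ≤ 0 := by
  set φ : ℝ → ℝ := fun t => (max t 0) ^ 2 with hφ
  set φ' : ℝ → ℝ := fun t => 2 * max t 0 with hφ'
  have hder : ∀ t, HasDerivAt φ (φ' t) t := by
    intro t
    rcases lt_trichotomy t 0 with ht | ht | ht
    · have h1 : φ =ᶠ[𝓝 t] fun _ => 0 := by
        filter_upwards [Iio_mem_nhds ht] with s hs
        simp only [hφ]; rw [max_eq_right (le_of_lt hs)]; simp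
      have h2 : φ' t = 0 := by simp only [hφ']; rw [max_eq_right ht.le]; simp
      rw [h2]
      exact (hasDerivAt_const t (0:ℝ)).congr_of_eventuallyEq h1
    · subst ht
      have h2 : φ' 0 = 0 := by simp [hφ']
      rw [h2, hasDerivAt_iff_isLittleO_nhds_zero]
      have h3 : (fun h : ℝ => φ (0 + h) - φ 0 - h • (0:ℝ)) =O[𝓝 0] fun h : ℝ => h ^ 2 := by
        refine Asymptotics.IsBigO.of_bound 1 (Eventually.of_forall fun h => ?_)
        simp only [hφ, zero_add, max_self, smul_zero, sub_zero, one_mul]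
        rw [Real.norm_eq_abs, Real.norm_eq_abs, abs_of_nonneg (sq_nonneg h)]
        rcases le_total h 0 with h' | h'
        · rw [max_eq_right h']; simp; positivity
        · rw [max_eq_left h']; simp
      refine h3.trans_isLittleO ?_
      simpa using Asymptotics.isLittleO_pow_pow (𝕜 := ℝ) (m := 1) (n := 2) (by norm_num)
    · have h1 : φ =ᶠ[𝓝 t] fun s => s ^ 2 := by
        filter_upwards [Ioi_mem_nhds ht] with s hs
        simp only [hφ]; rw [max_eq_left (le_of_lt hs)]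
      have h2 : φ' t = 2 * t := by simp only [hφ']; rw [max_eq_left ht.le]
      rw [h2]
      have h3 := (hasDerivAt_pow 2 t).congr_of_eventuallyEq h1
      simpa using h3
  have hφC : ContDiff ℝ 1 φ := by
    rw [contDiff_one_iff_deriv]
    refine ⟨fun t => (hder t).differentiableAt, ?_⟩
    have : deriv φ = φ' := by ext t; exact (hder t).deriv
    rw [this]
    exact continuous_const.mul (continuous_id.max continuous_const)
  have hw := h.1
  set ζ : X → ℝ := fun x => φ (w x) with hζ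
  have hζ1 : Ck 1 ζ := hw.comp_contDiff hφC
  have hφ0 : ∀ t, 0 ≤ φ t := fun t => by positivity
  have hφ'0 : ∀ t, 0 ≤ φ' t := fun t => by
    have := le_max_right t 0
    simp only [hφ']; linarith
  have hgr : ∀ x, gr D w ζ x = φ' (w x) * ∑ a, ‖rp D w a x‖ ^ 2 := by
    intro x
    rw [gr, Finset.mul_sum]
    refine Finset.sum_congr rfl fun a _ => ?_
    rw [hζ, rp_comp D hw hder]
    show ((starRingEnd ℂ) (rp D w a x) * ((φ' (w x) : ℂ) * (rp D w a x))).re = _
    rw [show (starRingEnd ℂ) (rp D w a x) * ((φ' (w x) : ℂ) * (rp D w a x)) =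
      (φ' (w x) : ℂ) * ((starRingEnd ℂ) (rp D w a x) * (rp D w a x)) by ring]
    rw [← Complex.normSq_eq_conj_mul_self, Complex.normSq_eq_norm_sq, ← Complex.ofReal_mul,
      Complex.ofReal_re]
  have hgrζ : ∀ x, gr D ζ ζ x = φ' (w x) ^ 2 * ∑ a, ‖rp D w a x‖ ^ 2 := by
    intro x
    rw [gr, Finset.mul_sum]
    refine Finset.sum_congr rfl fun a _ => ?_
    rw [hζ, rp_comp D hw hder]
    show ((starRingEnd ℂ) ((φ' (w x) : ℂ) * (rp D w a x)) *
      ((φ' (w x) : ℂ) * (rp D w a x))).re = _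
    rw [map_mul, Complex.conj_ofReal, show (φ' (w x) : ℂ) * (starRingEnd ℂ) (rp D w a x) *
      ((φ' (w x) : ℂ) * (rp D w a x)) =
      ((φ' (w x) : ℂ) ^ 2) * ((starRingEnd ℂ) (rp D w a x) * (rp D w a x)) by ring]
    rw [← Complex.normSq_eq_conj_mul_self, Complex.normSq_eq_norm_sq, ← Complex.ofReal_pow,
      ← Complex.ofReal_mul, Complex.ofReal_re]
  have hwζ : ∀ x, 0 ≤ k x * w x * ζ x := by
    intro x
    rcases le_total (w x) 0 with h' | h'
    · have : ζ x = 0 := by simp only [hζ, hφ]; rw [max_eq_right h']; simp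
      rw [this, mul_zero]
    · have := hk0 x; have := hφ0 (w x); positivity
  have hI0 : ∀ x, 0 ≤ gr D w ζ x + k x * w x * ζ x := by
    intro x
    have h1 := hwζ x
    rw [hgr x]
    have h2 := hφ'0 (w x)
    have h3 : 0 ≤ ∑ a, ‖rp D w a x‖ ^ 2 := Finset.sum_nonneg fun a _ => by positivity
    have := mul_nonneg h2 h3
    linarith
  have hIc : Continuous fun x => gr D w ζ x + k x * w x * ζ x :=
    (gr_continuous D hw hζ1).add ((hk.mul hw.continuous).mul hζ1.continuous)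
  have hI : ∫ x, (gr D w ζ x + k x * w x * ζ x) ∂D.ν = 0 := by
    apply le_antisymm
    · rw [h.2 ζ hζ1]
      refine integral_nonpos fun x => ?_
      exact mul_nonpos_of_nonpos_of_nonneg (hρ0 x) (hφ0 _)
    · exact integral_nonneg hI0
  have hI1 := D.eq_zero_of_integral hIc hI0 hI
  have hzero : ∀ x, gr D ζ ζ x + k x * ζ x * ζ x = 0 := by
    intro x
    have h1 := hI1 x
    have h2 := hwζ x
    have h3 : 0 ≤ ∑ a, ‖rp D w a x‖ ^ 2 := Finset.sum_nonneg fun a _ => by positivity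
    have h4 := mul_nonneg (hφ'0 (w x)) h3
    rw [hgr x] at h1
    have h5 : φ' (w x) * ∑ a, ‖rp D w a x‖ ^ 2 = 0 := by linarith
    have h6 : k x * w x * ζ x = 0 := by linarith
    have h7 : k x * ζ x * ζ x = 0 := by
      rcases le_or_gt (w x) 0 with h' | h'
      · have : ζ x = 0 := by simp only [hζ, hφ]; rw [max_eq_right h']; simp
        rw [this, mul_zero]
      · have : ζ x = w x * w x := by
          simp only [hζ, hφ]; rw [max_eq_left h'.le]; ring
        calc k x * ζ x * ζ x = (k x * w x * ζ x) * w x := by rw [this]; ring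
          _ = 0 := by rw [h6, zero_mul]
    rw [hgrζ x, h7, pow_two, mul_assoc, h5]; simp
  have hc := hco (cx ζ) (Sec1_cx hζ1)
  rw [en_eq] at hc
  have h8 : ∫ x, (gr D ζ ζ x + k x * ζ x * ζ x) ∂D.ν = 0 := by
    simp_rw [hzero]; simp
  rw [h8] at hc
  have h9 : ∫ x, (ζ x) ^ 2 ∂D.ν = 0 := by
    have h10 : ∫ x, ‖cx ζ x‖ ^ 2 ∂D.ν = ∫ x, (ζ x) ^ 2 ∂D.ν := by simp [cx]
    rw [h10] at hc
    have h11 : 0 ≤ ∫ x, (ζ x) ^ 2 ∂D.ν := integral_nonneg fun x => sq_nonneg _
    nlinarith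
  have h12 := D.eq_zero_of_integral (hζ1.continuous.pow 2) (fun x => sq_nonneg _) h9
  intro x
  have h13 : (ζ x) ^ 2 = 0 := h12 x
  by_contra hcon
  push Not at hcon
  have : ζ x = (w x) ^ 2 := by simp only [hζ, hφ]; rw [max_eq_left hcon.le]
  rw [this] at h13
  have : 0 < ((w x) ^ 2) ^ 2 := by positivity
  linarith

/-- the local equation for a weak solution with `k = 0` -/
theorem Sol.local {D : SurfData X} {ρ w : X → ℝ} (h : Sol D (fun _ => 0) ρ w)
    (hρ : AEStronglyMeasurable ρ D.ν) {C : ℝ} (hC : ∀ x, |ρ x| ≤ C)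
    {e : OpenPartialHomeomorph X ℂ} (he : e ∈ atlas ℂ X) :
    WDz e.target (dzb (fun x => ((w (e.symm x) : ℝ) : ℂ)))
      (fun z => ((-(D.n e z * ρ (e.symm z)) : ℝ) : ℂ)) := by
  rw [Sol_iff] at h
  have h1 := solution_local D (trivBun X) (Wk_pot continuous_const) (ρ := cx ρ)
    (Complex.continuous_ofReal.comp_aestronglyMeasurable hρ) (C := C)
    (fun x => by rw [cx, Complex.norm_real]; exact hC x)
    (ae_of_all _ fun x => by simp [cx]) h.1 h.2 he
  have e1 : (fun z => star ((trivBun X).Gi e z) * Db ((trivBun X).B e)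
      (fun x => cx w (e.symm x)) z * star ((trivBun X).G e z)) =
      dzb (fun x => ((w (e.symm x) : ℝ) : ℂ)) := by
    ext z
    rw [trivBun_B, Db_zero]
    show star (1:ℂ) * _ * star (1:ℂ) = _
    simp
    rfl
  have e2 : (fun z => star ((trivBun X).Gi e z) *
      (D.n e z • (Wk (fun _ => 0) (e.symm z) (cx w (e.symm z)) - cx ρ (e.symm z)) +
        (1 / 2 : ℝ) • (Fc ((trivBun X).B e) z * cx w (e.symm z) -
          cx w (e.symm z) * Fc ((trivBun X).B e) z)) * star ((trivBun X).G e z)) =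
      (fun z => ((-(D.n e z * ρ (e.symm z)) : ℝ) : ℂ)) := by
    ext z
    rw [Wk_apply, mul_comm (Fc ((trivBun X).B e) z) (cx w (e.symm z)), sub_self, smul_zero,
      add_zero]
    show star (1:ℂ) * _ * star (1:ℂ) = _
    simp [cx]
  rw [e1, e2] at h1
  exact h1

/-- quotient of a density by the density of the measure -/
def ratio (D : SurfData X) (K : OpenPartialHomeomorph X ℂ → ℂ → ℝ) (x : X) : ℝ :=
  K (chartAt ℂ x) ((chartAt ℂ x) x) / D.n (chartAt ℂ x) ((chartAt ℂ x) x)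

theorem ratio_eq (D : SurfData X) {K : OpenPartialHomeomorph X ℂ → ℂ → ℝ}
    (hKt : ∀ e ∈ atlas ℂ X, ∀ e' ∈ atlas ℂ X, ∀ z ∈ dom e e',
      K e z = K e' (trans e e' z) * ‖deriv (trans e e') z‖ ^ 2)
    {e : OpenPartialHomeomorph X ℂ} (he : e ∈ atlas ℂ X) {z : ℂ} (hz : z ∈ e.target) :
    ratio D K (e.symm z) = K e z / D.n e z := by
  set x := e.symm z with hx
  have hzd : z ∈ dom e (chartAt ℂ x) := ⟨hz, mem_chart_source ℂ x⟩
  have hne := trans_deriv_ne he (chart_mem_atlas ℂ x) hzd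
  have h1 : trans e (chartAt ℂ x) z = (chartAt ℂ x) x := rfl
  rw [ratio, hKt e he _ (chart_mem_atlas ℂ x) z hzd, D.n_trans e he _ (chart_mem_atlas ℂ x) z hzd,
    h1]
  have h2 := D.n_pos _ (chart_mem_atlas ℂ x) _ (mem_chart_target ℂ x)
  have h3 : ‖deriv (trans e (chartAt ℂ x)) z‖ ≠ 0 := norm_ne_zero_iff.mpr hne
  field_simp

theorem ratio_smooth (D : SurfData X) {K : OpenPartialHomeomorph X ℂ → ℂ → ℝ}
    (hK : ∀ e ∈ atlas ℂ X, ContDiffOn ℝ ∞ (K e) e.target)
    (hKt : ∀ e ∈ atlas ℂ X, ∀ e' ∈ atlas ℂ X, ∀ z ∈ dom e e',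
      K e z = K e' (trans e e' z) * ‖deriv (trans e e') z‖ ^ 2) : Ck ∞ (ratio D K) := by
  intro e he
  have h1 : ContDiffOn ℝ ∞ (fun z => K e z / D.n e z) e.target :=
    (hK e he).div (D.n_smooth e he) fun z hz => (D.n_pos e he z hz).ne'
  exact h1.congr fun z hz => ratio_eq D hKt he hz

theorem coer_k (D : SurfData X) {k : X → ℝ} (hk : Continuous k) (hk0 : ∀ x, 0 ≤ k x) (p : X)
    (hkp : ∀ x, x ≠ p → 0 < k x) : ∃ δ > 0, Coer D (trivBun X) (Wk k) δ := by
  obtain ⟨r, hr, hball⟩ := exists_radius p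
  have hip : ∀ x (a : ℂ), ip (Wk k x a) a = k x * ‖a‖ ^ 2 := by
    intro x a
    rw [Wk_apply]
    show ((starRingEnd ℂ) ((k x : ℂ) * a) * a).re = _
    rw [map_mul, Complex.conj_ofReal, mul_assoc, ← Complex.normSq_eq_conj_mul_self,
      Complex.normSq_eq_norm_sq, ← Complex.ofReal_mul, Complex.ofReal_re]
  have hopen : IsOpen ((chartAt ℂ p).symm '' ball ((chartAt ℂ p) p) r) := by
    apply (chartAt ℂ p).symm.isOpen_image_of_subset_source isOpen_ball
    exact (ball_subset_closedBall.trans (closedBall_subset_closedBall (by linarith))).trans hball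
  have hcomp : IsCompact ((chartAt ℂ p).symm '' ball ((chartAt ℂ p) p) r)ᶜ :=
    hopen.isClosed_compl.isCompact
  have hpin : p ∈ (chartAt ℂ p).symm '' ball ((chartAt ℂ p) p) r :=
    ⟨(chartAt ℂ p) p, mem_ball_self hr, (chartAt ℂ p).left_inv (mem_chart_source ℂ p)⟩
  obtain ⟨c0, hc0, hc⟩ := hcomp.exists_forall_le' (a := 0) hk.continuousOn
    (fun x hx => hkp x (fun h => hx (h ▸ hpin)))
  refine coer_of_local D (trivBun X) (Wk_pot hk) (fun x a _ => ?_) (chart_mem_atlas ℂ p) hr hball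
    hc0 fun x hx a _ => ?_
  · rw [hip]; have := hk0 x; positivity
  · rw [hip]
    have := hc x hx
    gcongr

theorem liouville (D : SurfData X) (K κ : OpenPartialHomeomorph X ℂ → ℂ → ℝ)
    (hK : ∀ e ∈ atlas ℂ X, ContDiffOn ℝ ∞ (K e) e.target)
    (hκ : ∀ e ∈ atlas ℂ X, ContDiffOn ℝ ∞ (κ e) e.target)
    (hKt : ∀ e ∈ atlas ℂ X, ∀ e' ∈ atlas ℂ X, ∀ z ∈ dom e e',
      K e z = K e' (trans e e' z) * ‖deriv (trans e e') z‖ ^ 2)
    (hκt : ∀ e ∈ atlas ℂ X, ∀ e' ∈ atlas ℂ X, ∀ z ∈ dom e e',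
      κ e z = κ e' (trans e e' z) * ‖deriv (trans e e') z‖ ^ 2)
    (hK0 : ∀ e ∈ atlas ℂ X, ∀ z ∈ e.target, 0 ≤ K e z)
    (hκ0 : ∀ e ∈ atlas ℂ X, ∀ z ∈ e.target, 0 < κ e z) (p : X)
    (hKp : ∀ e ∈ atlas ℂ X, ∀ z ∈ e.target, e.symm z ≠ p → 0 < K e z) :
    ∃ v : X → ℝ, Ck ∞ v ∧ ∀ e ∈ atlas ℂ X, ∀ z ∈ e.target,
      dzb (dz (fun x => ((v (e.symm x) : ℝ) : ℂ))) z =
        ((K e z * Real.exp (v (e.symm z)) - κ e z : ℝ) : ℂ) := by
  set k : X → ℝ := ratio D K with hkdef
  set g : X → ℝ := ratio D κ with hgdef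
  have hks : Ck ∞ k := ratio_smooth D hK hKt
  have hgs : Ck ∞ g := ratio_smooth D hκ hκt
  have hkc : Continuous k := hks.continuous
  have hgc : Continuous g := hgs.continuous
  have hk0 : ∀ x, 0 ≤ k x := fun x =>
    div_nonneg (hK0 _ (chart_mem_atlas ℂ x) _ (mem_chart_target ℂ x))
      (D.n_pos _ (chart_mem_atlas ℂ x) _ (mem_chart_target ℂ x)).le
  have hg0 : ∀ x, 0 < g x := fun x =>
    div_pos (hκ0 _ (chart_mem_atlas ℂ x) _ (mem_chart_target ℂ x))
      (D.n_pos _ (chart_mem_atlas ℂ x) _ (mem_chart_target ℂ x))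
  have hkp : ∀ x, x ≠ p → 0 < k x := fun x hx =>
    div_pos (hKp _ (chart_mem_atlas ℂ x) _ (mem_chart_target ℂ x)
      (by rw [(chartAt ℂ x).left_inv (mem_chart_source ℂ x)]; exact hx))
      (D.n_pos _ (chart_mem_atlas ℂ x) _ (mem_chart_target ℂ x))
  have hbd : ∀ f : X → ℝ, Continuous f → ∃ C, ∀ x, |f x| ≤ C := by
    intro f hf
    obtain ⟨C, hC⟩ := (isCompact_univ (X := X)).exists_bound_of_continuousOn hf.continuousOn
    exact ⟨C, fun x => hC x (mem_univ x)⟩
  -- the supersolution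
  obtain ⟨δ1, hδ1, hco1⟩ := coer_k D hkc hk0 p hkp
  obtain ⟨Cg, hCg⟩ := hbd g hgc
  obtain ⟨Ck', hCk'⟩ := hbd k hkc
  obtain ⟨u, hu⟩ := Sol.exists D hkc hδ1 hco1 (ρ := g) hgc.aestronglyMeasurable hCg
  have huc : Continuous u := hu.1.continuous
  obtain ⟨Cu, hCu⟩ := hbd u huc
  -- constants
  set Λ : ℝ := Real.exp Cu + 1 with hΛ
  have hΛpos : 0 < Λ := by positivity
  obtain ⟨δ, hδ, hco⟩ := coer_k D (k := fun x => Λ * k x) (continuous_const.mul hkc)
    (fun x => mul_nonneg hΛpos.le (hk0 x)) p (fun x hx => mul_pos hΛpos (hkp x hx))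
  have hkΛc : Continuous (fun x => Λ * k x) := continuous_const.mul hkc
  have hkΛ0 : ∀ x, 0 ≤ Λ * k x := fun x => mul_nonneg hΛpos.le (hk0 x)
  set F : (X → ℝ) → X → ℝ := fun w x => k x * (Λ * w x - Real.exp (w x)) + g x with hF
  have hFc : ∀ w, Continuous w → Continuous (F w) := fun w hw =>
    (hkc.mul ((continuous_const.mul hw).sub (Real.continuous_exp.comp hw))).add hgc
  -- lower barrier
  obtain ⟨M, hM1, hM2⟩ : ∃ M : ℝ, Cu ≤ M ∧ ∀ x, k x * Real.exp (-M) ≤ g x := by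
    obtain ⟨g0, hg0', hg0''⟩ := (isCompact_univ (X := X)).exists_forall_le' (a := 0)
      hgc.continuousOn (fun x _ => hg0 x)
    have h1 : Tendsto (fun M : ℝ => Ck' * Real.exp (-M)) atTop (𝓝 (Ck' * 0)) :=
      (Real.tendsto_exp_neg_atTop_nhds_zero).const_mul _
    rw [mul_zero] at h1
    obtain ⟨M, hM⟩ := ((h1.eventually_lt_const hg0').and (eventually_ge_atTop Cu)).exists
    refine ⟨M, hM.2, fun x => ?_⟩
    have h2 : k x ≤ Ck' := (le_abs_self _).trans (hCk' x)
    calc k x * Real.exp (-M) ≤ Ck' * Real.exp (-M) := by gcongr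
      _ ≤ g0 := hM.1.le
      _ ≤ g x := hg0'' x (mem_univ x)
  -- monotonicity of the nonlinearity
  have hmono : ∀ s t : ℝ, s ≤ t → t ≤ Cu → Λ * s - Real.exp s ≤ Λ * t - Real.exp t := by
    intro s t hst ht
    have h1 : Real.exp t - Real.exp s ≤ Real.exp t * (t - s) := by
      have h2 := Real.add_one_le_exp (s - t)
      have h3 : Real.exp s = Real.exp t * Real.exp (s - t) := by
        rw [← Real.exp_add]; congr 1; ring
      rw [h3]
      have h4 := Real.exp_pos t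
      nlinarith
    have h5 : Real.exp t ≤ Real.exp Cu := Real.exp_le_exp.mpr ht
    have h6 : Real.exp t * (t - s) ≤ Λ * (t - s) := by
      apply mul_le_mul_of_nonneg_right _ (by linarith)
      rw [hΛ]; linarith
    nlinarith
  have hex : ∀ ρ : X → ℝ, Continuous ρ → ∃ w, Sol D (fun x => Λ * k x) ρ w := by
    intro ρ hρ
    obtain ⟨C, hC⟩ := hbd ρ hρ
    exact Sol.exists D hkΛc hδ hco hρ.aestronglyMeasurable hC
  choose! T hT using hex
  set v : ℕ → X → ℝ := fun j => Nat.rec u (fun _ w => T (F w)) j with hv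
  have hvs : ∀ j, v (j + 1) = T (F (v j)) := fun j => rfl
  have hvc : ∀ j, Continuous (v j) := by
    intro j
    induction j with
    | zero => exact huc
    | succ j ih => rw [hvs]; exact (hT _ (hFc _ ih)).1.continuous
  have hvS : ∀ j, Sol D (fun x => Λ * k x) (F (v j)) (v (j + 1)) := fun j => hT _ (hFc _ (hvc j))
  -- comparison between solutions with continuous data
  have hcmp : ∀ ρ ρ' w w' : X → ℝ, Continuous ρ → Continuous ρ' →
      Sol D (fun x => Λ * k x) ρ w → Sol D (fun x => Λ * k x) ρ' w' → (∀ x, ρ x ≤ ρ' x) →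
      ∀ x, w x ≤ w' x := by
    intro ρ ρ' w w' hρ hρ' h h' hle x
    obtain ⟨C, hC⟩ := hbd ρ hρ
    obtain ⟨C', hC'⟩ := hbd ρ' hρ'
    have h1 := Sol.sub hkΛc h h' hρ.aestronglyMeasurable hC hρ'.aestronglyMeasurable hC'
    have h2 := Sol.nonpos hkΛc hkΛ0 hδ hco h1 (fun x => by have := hle x; linarith) x
    linarith
  have huS : Sol D (fun x => Λ * k x) (fun x => g x + (Λ * k x - k x) * u x) u :=
    Sol.shift hkc hkΛc hu hgc.aestronglyMeasurable hCg
  have hu'c : Continuous (fun x => g x + (Λ * k x - k x) * u x) :=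
    hgc.add ((hkΛc.sub hkc).mul huc)
  -- main induction
  have hind : ∀ j, (∀ x, v (j + 1) x ≤ v j x) ∧ (∀ x, v j x ≤ Cu) ∧ ∀ x, -M ≤ v j x := by
    intro j
    induction j with
    | zero =>
      refine ⟨?_, fun x => (le_abs_self _).trans (hCu x), fun x => ?_⟩
      · refine hcmp _ _ _ _ (hFc _ huc) hu'c (hvS 0) huS fun x => ?_
        show k x * (Λ * u x - Real.exp (u x)) + g x ≤ g x + (Λ * k x - k x) * u x
        have h1 : u x ≤ Real.exp (u x) := by have := Real.add_one_le_exp (u x); linarith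
        have h2 := hk0 x
        nlinarith
      · have := neg_abs_le (u x)
        have := hCu x
        show -M ≤ u x
        linarith
    | succ j ih =>
      obtain ⟨h1, h2, h3⟩ := ih
      have h2' : ∀ x, v (j + 1) x ≤ Cu := fun x => (h1 x).trans (h2 x)
      refine ⟨?_, h2', ?_⟩
      · refine hcmp (F (v (j + 1))) (F (v j)) _ _ (hFc _ (hvc (j + 1))) (hFc _ (hvc j))
          (hvS (j + 1)) (hvS j) fun x => ?_
        have h4 := hmono _ _ (h1 x) (h2 x)
        have h5 := mul_le_mul_of_nonneg_left h4 (hk0 x)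
        simp only [hF]; linarith
      · refine hcmp (fun x => Λ * k x * (-M)) (F (v j)) (fun _ => -M) _
          (hkΛc.mul continuous_const) (hFc _ (hvc j))
          (Sol.const D (fun x => Λ * k x) (-M)) (hvS j) fun x => ?_
        have h4 := hmono _ _ (h3 x) (h2 x)
        have h5 := mul_le_mul_of_nonneg_left h4 (hk0 x)
        have h6 := hM2 x
        simp only [hF]; linarith
  have hanti : ∀ x, Antitone (fun j => v j x) := fun x =>
    antitone_nat_of_succ_le fun j => (hind j).1 x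
  have hbdd : ∀ x, BddBelow (range fun j => v j x) := fun x =>
    ⟨-M, by rintro _ ⟨j, rfl⟩; exact (hind j).2.2 x⟩
  set V : X → ℝ := fun x => ⨅ j, v j x with hV
  have hlim : ∀ x, Tendsto (fun j => v j x) atTop (𝓝 (V x)) := fun x =>
    tendsto_atTop_ciInf (hanti x) (hbdd x)
  have hVle : ∀ x, V x ≤ Cu := fun x => le_of_tendsto' (hlim x) fun j => (hind j).2.1 x
  have hVge : ∀ x, -M ≤ V x := fun x => ge_of_tendsto' (hlim x) fun j => (hind j).2.2 x
  have hVm : Measurable V := measurable_of_tendsto_metrizable (fun j => (hvc j).measurable)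
    (tendsto_pi_nhds.mpr hlim)
  have hFVm : Measurable (F V) :=
    (hkc.measurable.mul ((measurable_const.mul hVm).sub (Real.measurable_exp.comp hVm))).add
      hgc.measurable
  -- uniform bounds
  have hCu0 : 0 ≤ Cu := by
    have := hCu p; exact (abs_nonneg _).trans this
  have hM0 : 0 ≤ M := hCu0.trans hM1
  have habs : ∀ t : ℝ, -M ≤ t → t ≤ Cu → |t| ≤ M := fun t h1 h2 =>
    abs_le.mpr ⟨h1, h2.trans hM1⟩
  have hFbd : ∀ w : X → ℝ, (∀ x, -M ≤ w x) → (∀ x, w x ≤ Cu) →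
      ∀ x, |F w x| ≤ Ck' * (Λ * M + Real.exp Cu) + Cg := by
    intro w h1 h2 x
    have h3 : |Λ * w x - Real.exp (w x)| ≤ Λ * M + Real.exp Cu := by
      refine (abs_sub _ _).trans (add_le_add ?_ ?_)
      · rw [abs_mul, abs_of_pos hΛpos]
        exact mul_le_mul_of_nonneg_left (habs _ (h1 x) (h2 x)) hΛpos.le
      · rw [abs_of_pos (Real.exp_pos _)]
        exact Real.exp_le_exp.mpr (h2 x)
    calc |F w x| ≤ |k x * (Λ * w x - Real.exp (w x))| + |g x| := abs_add_le _ _
      _ ≤ Ck' * (Λ * M + Real.exp Cu) + Cg := by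
        refine add_le_add ?_ (hCg x)
        rw [abs_mul]
        exact mul_le_mul (hCk' x) h3 (abs_nonneg _) ((abs_nonneg _).trans (hCk' x))
  set CF : ℝ := Ck' * (Λ * M + Real.exp Cu) + Cg with hCF
  obtain ⟨v', hv'⟩ := Sol.exists D hkΛc hδ hco (ρ := F V) hFVm.aestronglyMeasurable
    (hFbd V hVge hVle)
  have hv'c : Continuous v' := hv'.1.continuous
  obtain ⟨Cv, hCv⟩ := hbd v' hv'c
  -- convergence of the right hand sides in `L²`
  have hconv1 : Tendsto (fun j => ∫ x, (F (v j) x - F V x) ^ 2 ∂D.ν) atTop (𝓝 0) := by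
    have h0 : (0:ℝ) = ∫ x, (0:ℝ) ∂D.ν := by simp
    rw [h0]
    refine tendsto_integral_of_dominated_convergence (fun _ => (2 * CF) ^ 2) (fun j => ?_)
      (integrable_const _) (fun j => ae_of_all _ fun x => ?_) (ae_of_all _ fun x => ?_)
    · exact (((hFc _ (hvc j)).measurable.sub hFVm).pow_const 2).aestronglyMeasurable
    · rw [Real.norm_eq_abs, abs_of_nonneg (sq_nonneg _)]
      have h1 := hFbd (v j) (hind j).2.2 (hind j).2.1 x
      have h2 := hFbd V hVge hVle x
      have h3 : |F (v j) x - F V x| ≤ 2 * CF := (abs_sub _ _).trans (by linarith)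
      rw [← sq_abs]
      exact pow_le_pow_left₀ (abs_nonneg _) h3 2
    · have h1 : Tendsto (fun j => F (v j) x) atTop (𝓝 (F V x)) := by
        simp only [hF]
        exact ((((hlim x).const_mul Λ).sub
          ((Real.continuous_exp.tendsto _).comp (hlim x))).const_mul (k x)).add_const (g x)
      have h2 := (h1.sub_const (F V x)).pow 2
      simpa using h2
  have hconv2 : Tendsto (fun j => ∫ x, (v (j + 1) x - v' x) ^ 2 ∂D.ν) atTop
      (𝓝 (∫ x, (V x - v' x) ^ 2 ∂D.ν)) := by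
    refine tendsto_integral_of_dominated_convergence (fun _ => (M + Cv) ^ 2) (fun j => ?_)
      (integrable_const _) (fun j => ae_of_all _ fun x => ?_) (ae_of_all _ fun x => ?_)
    · exact (((hvc (j + 1)).sub hv'c).pow 2).aestronglyMeasurable
    · rw [Real.norm_eq_abs, abs_of_nonneg (sq_nonneg _), ← sq_abs]
      refine pow_le_pow_left₀ (abs_nonneg _) ((abs_sub _ _).trans (add_le_add ?_ (hCv x))) 2
      exact habs _ ((hind (j + 1)).2.2 x) ((hind (j + 1)).2.1 x)
    · exact ((((hlim x).comp (tendsto_add_atTop_nat 1)).sub_const (v' x))).pow 2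
  have hest : ∀ j, δ ^ 2 * ∫ x, (v (j + 1) x - v' x) ^ 2 ∂D.ν ≤
      ∫ x, (F (v j) x - F V x) ^ 2 ∂D.ν := by
    intro j
    have h1 := Sol.sub hkΛc (hvS j) hv' (hFc _ (hvc j)).aestronglyMeasurable
      (hFbd (v j) (hind j).2.2 (hind j).2.1) hFVm.aestronglyMeasurable (hFbd V hVge hVle)
    refine Sol.bound D hkΛc hδ hco (C := 2 * CF)
      ((hFc _ (hvc j)).measurable.sub hFVm).aestronglyMeasurable (fun x => ?_) h1
    have h2 := hFbd (v j) (hind j).2.2 (hind j).2.1 x
    have h3 := hFbd V hVge hVle x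
    exact (abs_sub _ _).trans (by linarith)
  have hzero : ∫ x, (V x - v' x) ^ 2 ∂D.ν = 0 := by
    have h1 : Tendsto (fun j => δ ^ 2 * ∫ x, (v (j + 1) x - v' x) ^ 2 ∂D.ν) atTop
        (𝓝 (δ ^ 2 * ∫ x, (V x - v' x) ^ 2 ∂D.ν)) := hconv2.const_mul _
    have h2 := le_of_tendsto_of_tendsto' h1 hconv1 hest
    have h3 : 0 ≤ ∫ x, (V x - v' x) ^ 2 ∂D.ν := integral_nonneg fun x => sq_nonneg _
    have h4 : 0 < δ ^ 2 := by positivity
    nlinarith
  have hae : V =ᵐ[D.ν] v' := by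
    have h1 : Integrable (fun x => (V x - v' x) ^ 2) D.ν := by
      refine Integrable.of_bound ((hVm.sub hv'c.measurable).pow_const 2).aestronglyMeasurable
        ((M + Cv) ^ 2) (ae_of_all _ fun x => ?_)
      rw [Real.norm_eq_abs, abs_of_nonneg (sq_nonneg _), ← sq_abs]
      exact pow_le_pow_left₀ (abs_nonneg _)
        ((abs_sub _ _).trans (add_le_add (habs _ (hVge x) (hVle x)) (hCv x))) 2
    rw [integral_eq_zero_iff_of_nonneg (fun x => sq_nonneg _) h1] at hzero
    filter_upwards [hzero] with x hx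
    have : (V x - v' x) ^ 2 = 0 := hx
    have := pow_eq_zero_iff (two_ne_zero) |>.mp this
    linarith
  have hv'S : Sol D (fun x => Λ * k x) (F v') v' := by
    refine Sol.congr hv' ?_
    filter_upwards [hae] with x hx
    simp only [hF]; rw [hx]
  obtain ⟨CF', hCF'⟩ := hbd _ (hFc _ hv'c)
  have hv'0 : Sol D (fun _ => 0) (fun x => F v' x + (0 - Λ * k x) * v' x) v' :=
    Sol.shift hkΛc continuous_const hv'S (hFc _ hv'c).aestronglyMeasurable hCF'
  have hρc : Continuous (fun x => F v' x + (0 - Λ * k x) * v' x) :=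
    (hFc _ hv'c).add ((continuous_const.sub hkΛc).mul hv'c)
  obtain ⟨Cρ, hCρ⟩ := hbd _ hρc
  -- regularity
  have hfin : ∀ e ∈ atlas ℂ X, ContDiffOn ℝ ∞ (fun z => v' (e.symm z)) e.target ∧
      ∀ z ∈ e.target, dzb (dz (fun x => ((v' (e.symm x) : ℝ) : ℂ))) z =
        ((D.n e z * (k (e.symm z) * Real.exp (v' (e.symm z)) - g (e.symm z)) : ℝ) : ℂ) := by
    intro e he
    have h1 := Sol.local hv'0 hρc.aestronglyMeasurable hCρ he
    have h2 : (fun z => ((-(D.n e z * (F v' (e.symm z) + (0 - Λ * k (e.symm z)) *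
        v' (e.symm z))) : ℝ) : ℂ)) = fun z =>
        ((D.n e z * (k (e.symm z) * Real.exp (v' (e.symm z)) - g (e.symm z)) : ℝ) : ℂ) := by
      ext z
      congr 1
      simp only [hF]; ring
    rw [h2] at h1
    refine bootstrap_real e.open_target (hv'.1 e he) (fun j hj => ?_) h1
    have hn := (D.n_smooth e he).of_le (m := (j : ℕ∞ω)) (by exact_mod_cast le_top)
    have hk' := (hks e he).of_le (m := (j : ℕ∞ω)) (by exact_mod_cast le_top)
    have hg' := (hgs e he).of_le (m := (j : ℕ∞ω)) (by exact_mod_cast le_top)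
    exact hn.mul ((hk'.mul hj.exp).sub hg')
  refine ⟨v', fun e he => (hfin e he).1, fun e he z hz => ?_⟩
  rw [(hfin e he).2 z hz, hkdef, hgdef, ratio_eq D hKt he hz, ratio_eq D hκt he hz]
  have h1 := D.n_pos e he z hz
  congr 1
  field_simp

end J

end Pool.Agent.Lib8bb
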