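import Pool.Agent.Lib_MP_8bb00a_gt.BaseMetric0
import Pool.Agent.Lib_MP_8bb00a_gt.Liouville

/-!
PIECE K of the existence part of MP_8bb00a_gt: the base metric on the curve.
-/

namespace Pool.Agent.Lib8bb

theorem exists_baseMetric : ∃ u s, BaseMetric u s := by
  let : MeasurableSpace Crv := borel Crv
  have : BorelSpace Crv := ⟨rfl⟩
  obtain ⟨D⟩ := exists_surfData (X := Crv)
  exact BM.exists_baseMetric_of fun K κ hK hκ hKt hκt hK0 hκ0 p hKp =>
    liouville D K κ hK hκ hKt hκt hK0 hκ0 p hKp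

end Pool.Agent.Lib8bb
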