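import Mathlib

/-!
# Riemann surfaces, Higgs bundles and harmonic metrics

Definitions used in the statement of the result for problem MP_8bb00a_gt.
-/

open Complex Set
open scoped ComplexConjugate Topology ContDiff Matrix ComplexOrder

namespace MP_8bb00a_gt

/-- the Wirtinger derivative `∂f/∂z` of a function of one complex variable -/
noncomputable def del (f : ℂ → ℂ) (z : ℂ) : ℂ := (fderiv ℝ f z 1 - I * fderiv ℝ f z I) / 2

/-- the Wirtinger derivative `∂f/∂z̄` of a function of one complex variable -/
noncomputable def delbar (f : ℂ → ℂ) (z : ℂ) : ℂ := (fderiv ℝ f z 1 + I * fderiv ℝ f z I) / 2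

/-- entrywise `∂/∂z` of a matrix valued function -/
noncomputable def delM {n : ℕ} (H : ℂ → Matrix (Fin n) (Fin n) ℂ) (z : ℂ) :
    Matrix (Fin n) (Fin n) ℂ := Matrix.of fun a b => del (fun w => H w a b) z

/-- entrywise `∂/∂z̄` of a matrix valued function -/
noncomputable def delbarM {n : ℕ} (H : ℂ → Matrix (Fin n) (Fin n) ℂ) (z : ℂ) :
    Matrix (Fin n) (Fin n) ℂ := Matrix.of fun a b => delbar (fun w => H w a b) z

/-- A holomorphic atlas on a topological space `X`: open charts with values in `ℂ` which cover `X`
and whose transition functions are holomorphic.  A connected Hausdorff space with a holomorphic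
atlas is a Riemann surface. -/
structure HolAtlas (X : Type) [TopologicalSpace X] where
  /-- the index set of the charts -/
  I : Type
  /-- the charts (homeomorphisms from open subsets of `X` to open subsets of `ℂ`) -/
  chart : I → OpenPartialHomeomorph X ℂ
  cover : ∀ x, ∃ i, x ∈ (chart i).source
  holo : ∀ i j, DifferentiableOn ℂ (chart j ∘ (chart i).symm)
    ((chart i).target ∩ (chart i).symm ⁻¹' (chart j).source)

variable {X : Type} [TopologicalSpace X]

/-- the domain of the chart `i` -/
def HolAtlas.dom (A : HolAtlas X) (i : A.I) : Set X := (A.chart i).source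

/-- the image of the chart `i` -/
def HolAtlas.img (A : HolAtlas X) (i : A.I) : Set ℂ := (A.chart i).target

/-- the point of `X` with coordinate `z` in the chart `i` -/
noncomputable def HolAtlas.pt (A : HolAtlas X) (i : A.I) (z : ℂ) : X := (A.chart i).symm z

/-- `dz_j / dz_i` at the point `x` of `X` lying in the domains of the charts `i` and `j` with
coordinates `z_i`, `z_j` -/
noncomputable def HolAtlas.dz (A : HolAtlas X) (i j : A.I) (x : X) : ℂ :=
  deriv (fun z => A.chart j (A.pt i z)) (A.chart i x)

/-- the function `f` is holomorphic on the part of `W` in the domain of the chart `i` -/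
def HolAtlas.Hol (A : HolAtlas X) (i : A.I) (W : Set X) (f : X → ℂ) : Prop :=
  DifferentiableOn ℂ (fun z => f (A.pt i z)) (A.img i ∩ A.pt i ⁻¹' W)

/-- A holomorphic `1`-form: `coeff i x` is the coefficient of `dz_i` at `x`. -/
structure OneForm (A : HolAtlas X) where
  coeff : A.I → X → ℂ
  holo : ∀ i, A.Hol i (A.dom i) (coeff i)
  compat : ∀ i j x, x ∈ A.dom i → x ∈ A.dom j → coeff i x = coeff j x * A.dz i j x

/-- The space of holomorphic `1`-forms has dimension at least two.  For a closed (compact,
connected, Hausdorff) Riemann surface this says that the genus is at least two. -/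
def HolAtlas.GenusGeTwo (A : HolAtlas X) : Prop :=
  ∃ w₁ w₂ : OneForm A, ∀ a b : ℂ,
    (∀ i, ∀ x ∈ A.dom i, a * w₁.coeff i x + b * w₂.coeff i x = 0) → a = 0 ∧ b = 0

/-- An `SL(n, ℂ)`-Higgs bundle on the Riemann surface `(X, A)`.  The holomorphic vector bundle `E`
is given by holomorphic frames `e_i` over the chart domains with holomorphic transition matrices
`g i j` of determinant one, `e_j = e_i * g i j` (so that the determinant of `E` is trivial); the
Higgs field is `phi i * dz_i` in the frame `e_i`, it is holomorphic and has trace zero. -/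
structure HiggsBundle (A : HolAtlas X) (n : ℕ) where
  g : A.I → A.I → X → Matrix (Fin n) (Fin n) ℂ
  phi : A.I → X → Matrix (Fin n) (Fin n) ℂ
  g_holo : ∀ i j a b, A.Hol i (A.dom i ∩ A.dom j) (fun x => g i j x a b)
  g_self : ∀ i, ∀ x ∈ A.dom i, g i i x = 1
  g_mul : ∀ i j k x, x ∈ A.dom i → x ∈ A.dom j → x ∈ A.dom k → g i j x * g j k x = g i k x
  g_det : ∀ i j x, x ∈ A.dom i → x ∈ A.dom j → (g i j x).det = 1
  phi_holo : ∀ i a b, A.Hol i (A.dom i) (fun x => phi i x a b)
  phi_trace : ∀ i, ∀ x ∈ A.dom i, (phi i x).trace = 0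
  phi_compat : ∀ i j x, x ∈ A.dom i → x ∈ A.dom j →
    phi i x * g i j x = A.dz i j x • (g i j x * phi j x)

namespace HiggsBundle

variable {A : HolAtlas X} {n : ℕ}

/-- the Higgs bundle `(E, s φ)` for a real number `s` -/
def scale (E : HiggsBundle A n) (s : ℝ) : HiggsBundle A n where
  g := E.g
  phi i x := (s : ℂ) • E.phi i x
  g_holo := E.g_holo
  g_self := E.g_self
  g_mul := E.g_mul
  g_det := E.g_det
  phi_holo i a b := by
    have h := (E.phi_holo i a b).const_mul (s : ℂ)
    simpa [HolAtlas.Hol] using h
  phi_trace i x hx := by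
    rw [Matrix.trace_smul, E.phi_trace i x hx, smul_zero]
  phi_compat i j x hi hj := by
    rw [Matrix.smul_mul, E.phi_compat i j x hi hj, Matrix.mul_smul, smul_comm]

/-- A holomorphic subbundle `F` of rank `r` of `E`: on the members of an open cover `V j` of `X`
(each one contained in the domain of the chart `ι j`) it has the holomorphic frame given by the
columns of `B j`, which are linearly independent at every point; on overlaps the two frames span
the same subspace, the transition matrix being `k j l`. -/
structure Subbundle (E : HiggsBundle A n) (r : ℕ) where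
  J : Type
  ι : J → A.I
  V : J → Set X
  isOpen : ∀ j, IsOpen (V j)
  sub : ∀ j, V j ⊆ A.dom (ι j)
  cover : ∀ x, ∃ j, x ∈ V j
  B : J → X → Matrix (Fin n) (Fin r) ℂ
  holo : ∀ j a b, A.Hol (ι j) (V j) (fun x => B j x a b)
  inj : ∀ j, ∀ x ∈ V j, Function.Injective (B j x).mulVec
  k : J → J → X → Matrix (Fin r) (Fin r) ℂ
  compat : ∀ j l x, x ∈ V j → x ∈ V l → E.g (ι j) (ι l) x * B l x = B j x * k j l x

/-- the subbundle `F` is invariant under the Higgs field -/
def Subbundle.Invariant {E : HiggsBundle A n} {r : ℕ} (F : E.Subbundle r) : Prop :=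
  ∀ j, ∀ x ∈ F.V j, ∃ C : Matrix (Fin r) (Fin r) ℂ, E.phi (F.ι j) x * F.B j x = F.B j x * C

/-- The degree of the subbundle `F` is negative: some positive power `(det F)^{-m}` of the dual of
its determinant line bundle has a holomorphic section which is not identically zero and has a
zero.  (On a closed Riemann surface this is equivalent to `deg F < 0`.) -/
def Subbundle.NegDegree {E : HiggsBundle A n} {r : ℕ} (F : E.Subbundle r) : Prop :=
  ∃ m : ℕ, 0 < m ∧ ∃ σ : F.J → X → ℂ,
    (∀ j, A.Hol (F.ι j) (F.V j) (σ j)) ∧
    (∀ j l x, x ∈ F.V j → x ∈ F.V l → σ l x = σ j x * (F.k j l x).det ^ m) ∧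
    (∃ j, ∃ x ∈ F.V j, σ j x ≠ 0) ∧ (∃ j, ∃ x ∈ F.V j, σ j x = 0)

/-- The Higgs bundle is stable: every proper nonzero holomorphic subbundle invariant under the
Higgs field has negative degree (the degree of `E` is zero). -/
def Stable (E : HiggsBundle A n) : Prop :=
  ∀ r, 0 < r → r < n → ∀ F : E.Subbundle r, F.Invariant → F.NegDegree

/-- the adjoint `h⁻¹ * Φᴴ * h` of the matrix `Φ` with respect to the hermitian metric `h` -/
noncomputable def adj (h Φ : Matrix (Fin n) (Fin n) ℂ) : Matrix (Fin n) (Fin n) ℂ :=
  h⁻¹ * Φᴴ * h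

/-- Hitchin's equation `∂̄ (h⁻¹ ∂h) = Φ Φ* - Φ* Φ` at the point `z`, for a hermitian metric
`h` and a Higgs field `Φ dz` in a holomorphic frame over an open subset of `ℂ`. It says
`F_h + [φ, φ*] = 0`. -/
def HitchinAt (h Φ : ℂ → Matrix (Fin n) (Fin n) ℂ) (z : ℂ) : Prop :=
  delbarM (fun w => (h w)⁻¹ * delM h w) z
    = Φ z * adj (h z) (Φ z) - adj (h z) (Φ z) * Φ z

/-- `h` is a harmonic metric on the Higgs bundle `E`: a smooth hermitian metric with determinant
one which solves Hitchin's equation; `h i x` is the Gram matrix of the frame `e_i` at `x`. -/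
structure IsHarmonic (E : HiggsBundle A n) (h : A.I → X → Matrix (Fin n) (Fin n) ℂ) : Prop where
  posDef : ∀ i, ∀ x ∈ A.dom i, (h i x).PosDef
  det_one : ∀ i, ∀ x ∈ A.dom i, (h i x).det = 1
  smooth : ∀ i a b, ContDiffOn ℝ ∞ (fun z => h i (A.pt i z) a b) (A.img i)
  compat : ∀ i j x, x ∈ A.dom i → x ∈ A.dom j →
    h j x = (E.g i j x)ᴴ * h i x * E.g i j x
  hitchin : ∀ i, ∀ z ∈ A.img i, HitchinAt (fun w => h i (A.pt i w)) (fun w => E.phi i (A.pt i w)) z

/-- The pointwise squared norm `tr (φ φ*)` of the Higgs field, measured in the coordinate of the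
chart `i` at the point `x`.  The energy density of the harmonic map belonging to the harmonic
metric `h` is a positive constant multiple of this number (the constant depends only on `x`, the
chart, the metric of the surface and the normalisation of the metric on the symmetric space). -/
noncomputable def energy (E : HiggsBundle A n) (h : A.I → X → Matrix (Fin n) (Fin n) ℂ)
    (i : A.I) (x : X) : ℝ :=
  (Matrix.trace (E.phi i x * adj (h i x) (E.phi i x))).re

end HiggsBundle

end MP_8bb00a_gt
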