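import Mathlib
import Pool.Agent.Lib_MP_8bb00a_gt.Defs

/-!
# General facts on holomorphic atlases: derivatives of the transition functions
-/

open Complex Set
open scoped ComplexConjugate Topology ContDiff Matrix ComplexOrder

namespace MP_8bb00a_gt

variable {X : Type} [TopologicalSpace X] (A : HolAtlas X)

namespace HolAtlas

theorem chart_pt {i : A.I} {z : ℂ} (hz : z ∈ A.img i) : A.chart i (A.pt i z) = z :=
  (A.chart i).right_inv hz

theorem pt_chart {i : A.I} {x : X} (hx : x ∈ A.dom i) : A.pt i (A.chart i x) = x :=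
  (A.chart i).left_inv hx

theorem pt_mem {i : A.I} {z : ℂ} (hz : z ∈ A.img i) : A.pt i z ∈ A.dom i :=
  (A.chart i).map_target hz

theorem chart_mem {i : A.I} {x : X} (hx : x ∈ A.dom i) : A.chart i x ∈ A.img i :=
  (A.chart i).map_source hx

theorem isOpen_img (i : A.I) : IsOpen (A.img i) := (A.chart i).open_target

theorem isOpen_dom (i : A.I) : IsOpen (A.dom i) := (A.chart i).open_source

theorem isOpen_ov (i : A.I) {V : Set X} (hV : IsOpen V) : IsOpen (A.img i ∩ A.pt i ⁻¹' V) :=
  (A.chart i).isOpen_inter_preimage_symm hV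

theorem pt_contOn (i : A.I) : ContinuousOn (A.pt i) (A.img i) := (A.chart i).continuousOn_symm

theorem pt_contAt {i : A.I} {z : ℂ} (hz : z ∈ A.img i) : ContinuousAt (A.pt i) z :=
  (A.pt_contOn i).continuousAt ((A.isOpen_img i).mem_nhds hz)

theorem chart_contAt {i : A.I} {x : X} (hx : x ∈ A.dom i) : ContinuousAt (A.chart i) x :=
  (A.chart i).continuousAt hx

theorem diffAt_trans {i j : A.I} {x : X} (hi : x ∈ A.dom i) (hj : x ∈ A.dom j) :
    DifferentiableAt ℂ (fun z => A.chart j (A.pt i z)) (A.chart i x) := by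
  have h := A.holo i j
  refine (h.differentiableAt ((A.isOpen_ov i (A.isOpen_dom j)).mem_nhds ⟨A.chart_mem hi, ?_⟩))
  show A.pt i (A.chart i x) ∈ A.dom j
  rw [A.pt_chart hi]
  exact hj

theorem dz_self {i : A.I} {x : X} (hi : x ∈ A.dom i) : A.dz i i x = 1 := by
  have h : (fun z => A.chart i (A.pt i z)) =ᶠ[𝓝 (A.chart i x)] id := by
    filter_upwards [(A.isOpen_img i).mem_nhds (A.chart_mem hi)] with z hz
    exact A.chart_pt hz
  unfold dz
  rw [h.deriv_eq]
  exact deriv_id _

theorem dz_mul {i j k : A.I} {x : X} (hi : x ∈ A.dom i) (hj : x ∈ A.dom j) (hk : x ∈ A.dom k) :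
    A.dz i j x * A.dz j k x = A.dz i k x := by
  have h1 := (A.diffAt_trans hi hj).hasDerivAt
  have h2 := (A.diffAt_trans hj hk).hasDerivAt
  have e : A.chart j x = (fun z => A.chart j (A.pt i z)) (A.chart i x) := by
    simp only [A.pt_chart hi]
  rw [e] at h2
  have h3 := HasDerivAt.comp (A.chart i x) h2 h1
  have h4 : (fun z => A.chart k (A.pt i z)) =ᶠ[𝓝 (A.chart i x)]
      (fun z => A.chart k (A.pt j z)) ∘ (fun z => A.chart j (A.pt i z)) := by
    have hmem : A.chart i x ∈ A.img i ∩ A.pt i ⁻¹' A.dom j := ⟨A.chart_mem hi, by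
      show A.pt i (A.chart i x) ∈ A.dom j
      rw [A.pt_chart hi]; exact hj⟩
    filter_upwards [(A.isOpen_ov i (A.isOpen_dom j)).mem_nhds hmem] with z hz
    simp only [Function.comp_apply]
    rw [A.pt_chart hz.2]
  have h5 := h4.deriv_eq.trans h3.deriv
  unfold dz
  rw [h5, e]
  ring

theorem dz_ne_zero {i j : A.I} {x : X} (hi : x ∈ A.dom i) (hj : x ∈ A.dom j) :
    A.dz i j x ≠ 0 := by
  intro h
  have := A.dz_mul hi hj hi
  rw [h, zero_mul, A.dz_self hi] at this
  exact zero_ne_one this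

/-- the transformation rule of a 1-form may be checked in one direction only -/
theorem form_symm {i j : A.I} {x : X} (hi : x ∈ A.dom i) (hj : x ∈ A.dom j) {a b : ℂ}
    (h : a = b * A.dz i j x) : b = a * A.dz j i x := by
  rw [h, mul_assoc, A.dz_mul hi hj hi, A.dz_self hi, mul_one]

end HolAtlas

end MP_8bb00a_gt
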