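import Mathlib

/-!
PART F of MP_8bb00a_gt: the compact Riemann surface of `y^2 = x^5 + 1` (genus 2), with explicit
charts, the holomorphic structure, connectedness, and the holomorphic 1-form `dx/y`.
(helper86)
-/
open scoped Manifold ContDiff Topology
open Complex Set

noncomputable section

namespace Pool.Agent.Lib8bb

/-- The affine curve `y^2 = x^5 + 1`. -/
abbrev AffC : Type := {p : ℂ × ℂ // p.2 ^ 2 = p.1 ^ 5 + 1}

/-- The compact curve: one point added at infinity. -/
abbrev Crv : Type := OnePoint AffC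

/-! ### sectors -/

/-- the open sector `|arg w| < π/n` -/
def Sec (n : ℕ) : Set ℂ := {w | w ∈ slitPlane ∧ |w.arg| < Real.pi / n}

lemma isOpen_Sec (n : ℕ) : IsOpen (Sec n) := by
  have : ContinuousOn (fun w : ℂ => |w.arg|) slitPlane := fun w hw =>
    (continuous_abs.continuousAt.comp (continuousAt_arg hw)).continuousWithinAt
  exact this.isOpen_inter_preimage isOpen_slitPlane isOpen_Iio

lemma Sec_ne_zero {n : ℕ} {w : ℂ} (h : w ∈ Sec n) : w ≠ 0 := slitPlane_ne_zero h.1

lemma arg_exp_of_mem {z : ℂ} (h1 : -Real.pi < z.im) (h2 : z.im ≤ Real.pi) :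
    (exp z).arg = z.im := by
  rw [arg_exp, toIocMod_eq_self]
  exact ⟨h1, by linarith⟩

lemma pow_mem_slit {n : ℕ} (hn : n ≠ 0) {w : ℂ} (h : w ∈ Sec n) : w ^ n ∈ slitPlane := by
  rw [mem_slitPlane_iff_arg]
  refine ⟨?_, pow_ne_zero _ (Sec_ne_zero h)⟩
  have hn' : (0:ℝ) < n := by exact_mod_cast Nat.pos_of_ne_zero hn
  have e1 : w ^ n = exp (n * log w) := by
    rw [exp_nat_mul, exp_log (Sec_ne_zero h)]
  have e2 : (n * log w).im = n * w.arg := by
    simp [log_im]
  have h3 : |w.arg * n| < Real.pi := by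
    rw [abs_mul, abs_of_pos hn']; exact (lt_div_iff₀ hn').1 h.2
  have h3 := abs_lt.1 h3
  rw [e1, arg_exp_of_mem] <;> rw [e2] <;> nlinarith [h3.1, h3.2]

lemma root_mem_Sec {n : ℕ} (hn : n ≠ 0) {w : ℂ} (h : w ∈ slitPlane) :
    w ^ ((n : ℂ)⁻¹) ∈ Sec n := by
  have hn' : (0:ℝ) < n := by exact_mod_cast Nat.pos_of_ne_zero hn
  have hn1 : (1:ℝ) ≤ n := by exact_mod_cast Nat.one_le_iff_ne_zero.2 hn
  have hw0 := slitPlane_ne_zero h
  have e1 : w ^ ((n : ℂ)⁻¹) = exp (log w * (n : ℂ)⁻¹) := by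
    rw [cpow_def_of_ne_zero hw0]
  have e2 : (log w * (n : ℂ)⁻¹).im = w.arg / n := by
    have : ((n : ℂ)⁻¹) = (((n : ℝ)⁻¹ : ℝ) : ℂ) := by push_cast; rfl
    rw [this, im_mul_ofReal, log_im]
    rfl
  have h3 : |w.arg| < Real.pi := by
    rw [abs_lt]
    refine ⟨neg_pi_lt_arg w, lt_of_le_of_ne (arg_le_pi w) (mem_slitPlane_iff_arg.1 h).1⟩
  have h4 : |w.arg / n| < Real.pi / n := by
    rw [abs_div, abs_of_pos hn']
    gcongr
  have h5 : Real.pi / n ≤ Real.pi := div_le_self Real.pi_pos.le hn1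
  have h6 := abs_lt.1 h4
  have e3 : (w ^ ((n : ℂ)⁻¹)).arg = w.arg / n := by
    rw [e1, arg_exp_of_mem, e2] <;> rw [e2] <;> linarith
  refine ⟨?_, ?_⟩
  · rw [mem_slitPlane_iff_arg, e3]
    refine ⟨by linarith, ?_⟩
    rw [e1]; exact exp_ne_zero _
  · rw [e3]; exact h4

lemma root_pow_Sec {n : ℕ} (hn : n ≠ 0) {w : ℂ} (h : w ∈ Sec n) :
    (w ^ n) ^ ((n : ℂ)⁻¹) = w := by
  have h3 := abs_lt.1 h.2
  exact pow_cpow_nat_inv hn h3.1 h3.2.le

lemma root_pow {n : ℕ} (hn : n ≠ 0) (w : ℂ) : (w ^ ((n : ℂ)⁻¹)) ^ n = w := cpow_nat_inv_pow w hn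

lemma pos_re_mem_Sec2 {w : ℂ} (h : 0 < w.re) : w ∈ Sec 2 := by
  refine ⟨Or.inl h, ?_⟩
  have := abs_arg_lt_pi_div_two_iff.2 (Or.inl h)
  simpa using this


/-! ### affine charts -/

lemma cont_x : Continuous (fun p : AffC => p.1.1) := continuous_fst.comp continuous_subtype_val
lemma cont_y : Continuous (fun p : AffC => p.1.2) := continuous_snd.comp continuous_subtype_val

/-- the chart `x` near a point with `y ≠ 0` -/
def chX (P : AffC) (h : P.1.2 ≠ 0) : OpenPartialHomeomorph AffC ℂ where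
  toFun p := p.1.1
  invFun x := ⟨(x, P.1.2 * ((x ^ 5 + 1) / P.1.2 ^ 2) ^ (((2 : ℕ) : ℂ)⁻¹)), by
    show (P.1.2 * _) ^ 2 = x ^ 5 + 1
    rw [mul_pow, root_pow two_ne_zero, mul_div_cancel₀ _ (pow_ne_zero 2 h)]⟩
  source := {p | p.1.2 / P.1.2 ∈ Sec 2}
  target := {x | (x ^ 5 + 1) / P.1.2 ^ 2 ∈ slitPlane}
  map_source' := by
    intro p hp
    show (p.1.1 ^ 5 + 1) / P.1.2 ^ 2 ∈ slitPlane
    rw [← p.2, ← div_pow]
    exact pow_mem_slit two_ne_zero hp
  map_target' := by
    intro x hx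
    show (P.1.2 * _) / P.1.2 ∈ Sec 2
    rw [mul_div_cancel_left₀ _ h]
    exact root_mem_Sec two_ne_zero hx
  left_inv' := by
    intro p hp
    apply Subtype.ext
    apply Prod.ext
    · rfl
    · show P.1.2 * ((p.1.1 ^ 5 + 1) / P.1.2 ^ 2) ^ _ = p.1.2
      rw [← p.2, ← div_pow, root_pow_Sec two_ne_zero hp, mul_div_cancel₀ _ h]
  right_inv' := fun x hx => rfl
  open_source := (isOpen_Sec 2).preimage (cont_y.div_const _)
  open_target := isOpen_slitPlane.preimage (by fun_prop)
  continuousOn_toFun := cont_x.continuousOn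
  continuousOn_invFun := by
    have h1 : ContinuousOn (fun x : ℂ =>
        (x, P.1.2 * ((x ^ 5 + 1) / P.1.2 ^ 2) ^ (((2 : ℕ) : ℂ)⁻¹)))
        {x | (x ^ 5 + 1) / P.1.2 ^ 2 ∈ slitPlane} := by
      refine continuousOn_id.prodMk (continuousOn_const.mul ?_)
      refine ContinuousOn.cpow (by fun_prop) continuousOn_const (fun x hx => hx)
    exact continuousOn_iff_continuous_domRestrict.2
      ((continuousOn_iff_continuous_domRestrict.1 h1).subtype_mk _)

/-- the chart `y` near a point with `y = 0` -/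
def chY (P : AffC) (h : P.1.2 = 0) : OpenPartialHomeomorph AffC ℂ where
  toFun p := p.1.2
  invFun y := ⟨(P.1.1 * (1 - y ^ 2) ^ (((5 : ℕ) : ℂ)⁻¹), y), by
    show y ^ 2 = (P.1.1 * _) ^ 5 + 1
    have h1 : P.1.1 ^ 5 = -1 := by
      have := P.2
      rw [h] at this
      linear_combination -this
    rw [mul_pow, root_pow (by norm_num), h1]
    ring⟩
  source := {p | p.1.1 / P.1.1 ∈ Sec 5}
  target := {y | 1 - y ^ 2 ∈ slitPlane}
  map_source' := by
    intro p hp
    have h1 : P.1.1 ^ 5 = -1 := by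
      have := P.2
      rw [h] at this
      linear_combination -this
    show 1 - p.1.2 ^ 2 ∈ slitPlane
    have : 1 - p.1.2 ^ 2 = (p.1.1 / P.1.1) ^ 5 := by
      rw [div_pow, h1, p.2]; ring
    rw [this]
    exact pow_mem_slit (by norm_num) hp
  map_target' := by
    intro y hy
    have h0 : P.1.1 ≠ 0 := by
      intro h0
      have := P.2
      rw [h, h0] at this
      norm_num at this
    show (P.1.1 * _) / P.1.1 ∈ Sec 5
    rw [mul_div_cancel_left₀ _ h0]
    exact root_mem_Sec (by norm_num) hy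
  left_inv' := by
    intro p hp
    have h1 : P.1.1 ^ 5 = -1 := by
      have := P.2
      rw [h] at this
      linear_combination -this
    have h0 : P.1.1 ≠ 0 := by
      intro h0
      rw [h0] at h1
      norm_num at h1
    apply Subtype.ext
    apply Prod.ext
    · show P.1.1 * (1 - p.1.2 ^ 2) ^ _ = p.1.1
      have : 1 - p.1.2 ^ 2 = (p.1.1 / P.1.1) ^ 5 := by
        rw [div_pow, h1, p.2]; ring
      rw [this, root_pow_Sec (by norm_num) hp, mul_div_cancel₀ _ h0]
    · rfl
  right_inv' := fun x hx => rfl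
  open_source := (isOpen_Sec 5).preimage (cont_x.div_const _)
  open_target := isOpen_slitPlane.preimage (by fun_prop)
  continuousOn_toFun := cont_y.continuousOn
  continuousOn_invFun := by
    have h1 : ContinuousOn (fun y : ℂ =>
        (P.1.1 * (1 - y ^ 2) ^ (((5 : ℕ) : ℂ)⁻¹), y))
        {y | 1 - y ^ 2 ∈ slitPlane} := by
      refine (continuousOn_const.mul ?_).prodMk continuousOn_id
      refine ContinuousOn.cpow (by fun_prop) continuousOn_const (fun x hx => hx)
    exact continuousOn_iff_continuous_domRestrict.2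
      ((continuousOn_iff_continuous_domRestrict.1 h1).subtype_mk _)

/-- the affine charts on the affine curve -/
def affCh (P : AffC) : OpenPartialHomeomorph AffC ℂ :=
  if h : P.1.2 = 0 then chY P h else chX P h

/-- charts at the affine points -/
def eAff (P : AffC) : OpenPartialHomeomorph Crv ℂ :=
  (affCh P).lift_openEmbedding OnePoint.isOpenEmbedding_coe

lemma affCh_cases (P : AffC) :
    ((∀ p, affCh P p = p.1.1) ∧ (∀ p ∈ (affCh P).source, p.1.2 ≠ 0) ∧ P.1.2 ≠ 0) ∨
    ((∀ p, affCh P p = p.1.2) ∧ (∀ p ∈ (affCh P).source, p.1.1 ≠ 0) ∧ P.1.2 = 0) := by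
  unfold affCh
  by_cases h : P.1.2 = 0
  · right
    rw [dif_pos h]
    refine ⟨fun p => rfl, fun p hp h0 => ?_, h⟩
    have hp' : p.1.1 / P.1.1 ∈ Sec 5 := hp
    rw [h0, zero_div] at hp'
    exact Sec_ne_zero hp' rfl
  · left
    rw [dif_neg h]
    refine ⟨fun p => rfl, fun p hp h0 => ?_, h⟩
    have hp' : p.1.2 / P.1.2 ∈ Sec 2 := hp
    rw [h0, zero_div] at hp'
    exact Sec_ne_zero hp' rfl

lemma mem_affCh_source (P : AffC) : P ∈ (affCh P).source := by
  have h1 : ∀ n : ℕ, n ≠ 0 → (1 : ℂ) ∈ Sec n := by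
    intro n hn
    refine ⟨one_mem_slitPlane, ?_⟩
    have : (0:ℝ) < n := by exact_mod_cast Nat.pos_of_ne_zero hn
    simp only [arg_one, abs_zero]
    positivity
  unfold affCh
  by_cases h : P.1.2 = 0
  · rw [dif_pos h]
    show P.1.1 / P.1.1 ∈ Sec 5
    have h0 : P.1.1 ≠ 0 := by
      intro h0
      have := P.2
      rw [h, h0] at this
      norm_num at this
    rw [div_self h0]
    exact h1 5 (by norm_num)
  · rw [dif_neg h]
    show P.1.2 / P.1.2 ∈ Sec 2
    rw [div_self h]
    exact h1 2 (by norm_num)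

lemma diff_x_affCh (P : AffC) :
    DifferentiableOn ℂ (fun z => ((affCh P).symm z).1.1) (affCh P).target := by
  unfold affCh
  by_cases h : P.1.2 = 0
  · rw [dif_pos h]
    show DifferentiableOn ℂ (fun y : ℂ => P.1.1 * (1 - y ^ 2) ^ (((5 : ℕ) : ℂ)⁻¹))
      {y | 1 - y ^ 2 ∈ slitPlane}
    refine DifferentiableOn.const_mul ?_ _
    exact DifferentiableOn.cpow_const (by fun_prop) (fun x hx => hx)
  · rw [dif_neg h]
    exact differentiableOn_id

lemma diff_y_affCh (P : AffC) :
    DifferentiableOn ℂ (fun z => ((affCh P).symm z).1.2) (affCh P).target := by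
  unfold affCh
  by_cases h : P.1.2 = 0
  · rw [dif_pos h]
    exact differentiableOn_id
  · rw [dif_neg h]
    show DifferentiableOn ℂ (fun x : ℂ => P.1.2 * ((x ^ 5 + 1) / P.1.2 ^ 2) ^ (((2 : ℕ) : ℂ)⁻¹))
      {x | (x ^ 5 + 1) / P.1.2 ^ 2 ∈ slitPlane}
    refine DifferentiableOn.const_mul ?_ _
    exact DifferentiableOn.cpow_const (by fun_prop) (fun x hx => hx)


/-! ### the chart at infinity -/

lemma root2_sq (w : ℂ) : (w ^ (1 / 2 : ℂ)) ^ 2 = w := by
  have := root_pow two_ne_zero w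
  rwa [show (((2 : ℕ) : ℂ)⁻¹) = (1 / 2 : ℂ) by norm_num] at this

lemma root2_of_re {s w : ℂ} (hs : 0 < s.re) (h : s ^ 2 = w) : w ^ (1 / 2 : ℂ) = s := by
  have := root_pow_Sec two_ne_zero (pos_re_mem_Sec2 hs)
  rw [show (((2 : ℕ) : ℂ)⁻¹) = (1 / 2 : ℂ) by norm_num] at this
  rw [← h, this]

lemma slit_of_norm_lt {a : ℂ} (h : ‖a‖ < 1) : 1 + a ∈ slitPlane := by
  left
  have := (abs_le.1 (abs_re_le_norm a)).1
  simp only [add_re, one_re]
  linarith

lemma norm_pow_lt {z : ℂ} (hz : z ∈ Metric.ball (0:ℂ) 1) {n : ℕ} (hn : n ≠ 0) : ‖z ^ n‖ < 1 := by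
  rw [norm_pow]
  have : ‖z‖ < 1 := by simpa using hz
  exact pow_lt_one₀ (norm_nonneg _) this hn

lemma slit_ball {z : ℂ} (hz : z ∈ Metric.ball (0:ℂ) 1) : 1 + z ^ 10 ∈ slitPlane :=
  slit_of_norm_lt (norm_pow_lt hz (by norm_num))

lemma norm_inv_pow_lt {x : ℂ} (hx : 1 < ‖x‖) {n : ℕ} (hn : n ≠ 0) : ‖(x ^ n)⁻¹‖ < 1 := by
  rw [norm_inv, norm_pow]
  exact inv_lt_one_of_one_lt₀ (one_lt_pow₀ hx hn)

lemma y_ne_zero_of_x {p : AffC} (h : 1 < ‖p.1.1‖) : p.1.2 ≠ 0 := by
  intro h0
  have h1 := p.2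
  rw [h0] at h1
  have h2 : p.1.1 ^ 5 = -1 := by linear_combination -h1
  have h3 : ‖p.1.1‖ ^ 5 = 1 := by rw [← norm_pow, h2]; simp
  have := one_lt_pow₀ h (n := 5) (by norm_num)
  linarith

lemma isCompact_bdd (R : ℝ) : IsCompact {p : AffC | ‖p.1.1‖ ≤ R} := by
  have hcl : IsClosed {p : ℂ × ℂ | p.2 ^ 2 = p.1 ^ 5 + 1} :=
    isClosed_eq (by fun_prop) (by fun_prop)
  have hemb : Topology.IsClosedEmbedding (Subtype.val : AffC → ℂ × ℂ) :=
    hcl.isClosedEmbedding_subtypeVal
  have hK : IsCompact (Metric.closedBall (0:ℂ) R ×ˢ Metric.closedBall (0:ℂ) (|R| ^ 5 + 1)) :=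
    (isCompact_closedBall _ _).prod (isCompact_closedBall _ _)
  convert hemb.isCompact_preimage hK using 1
  ext p
  simp only [mem_ofPred_eq, mem_preimage, mem_prod, Metric.mem_closedBall, dist_zero_right]
  refine ⟨fun h => ⟨h, ?_⟩, fun h => h.1⟩
  have h1 : ‖p.1.2‖ ^ 2 ≤ |R| ^ 5 + 1 := by
    rw [← norm_pow, p.2]
    refine (norm_add_le _ _).trans ?_
    rw [norm_pow, norm_one]
    have : ‖p.1.1‖ ≤ |R| := h.trans (le_abs_self R)
    gcongr
  have h2 : 1 ≤ |R| ^ 5 + 1 := by
    have : 0 ≤ |R| ^ 5 := by positivity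
    linarith
  by_contra h3
  push Not at h3
  nlinarith [norm_nonneg p.1.2]

lemma isClosed_bdd (R : ℝ) : IsClosed {p : AffC | ‖p.1.1‖ ≤ R} :=
  isClosed_le (cont_x.norm) continuous_const

/-- the coordinate at infinity as a function on the affine curve -/
def zInf (p : AffC) : ℂ := p.1.1 ^ 2 / p.1.2 * (1 + (p.1.1 ^ 5)⁻¹) ^ (1 / 2 : ℂ)

/-- the parametrisation near infinity -/
def pInf (z : ℂ) (h : z ≠ 0) : AffC :=
  ⟨((z ^ 2)⁻¹, (z ^ 5)⁻¹ * (1 + z ^ 10) ^ (1 / 2 : ℂ)), by
    show ((z ^ 5)⁻¹ * (1 + z ^ 10) ^ (1 / 2 : ℂ)) ^ 2 = ((z ^ 2)⁻¹) ^ 5 + 1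
    rw [mul_pow, root2_sq]
    field_simp⟩

lemma zInf_facts {p : AffC} (hp : 1 < ‖p.1.1‖) :
    zInf p ≠ 0 ∧ (zInf p) ^ 2 = (p.1.1)⁻¹ ∧
    (zInf p) ^ 5 * p.1.2 = (1 + (zInf p) ^ 10) ^ (1 / 2 : ℂ) := by
  have hx : p.1.1 ≠ 0 := by
    intro h; rw [h] at hp; simp at hp; linarith
  have hy := y_ne_zero_of_x hp
  have hs : 1 + (p.1.1 ^ 5)⁻¹ ∈ slitPlane := slit_of_norm_lt (norm_inv_pow_lt hp (by norm_num))
  have hs2 := root2_sq (1 + (p.1.1 ^ 5)⁻¹)
  have hs0 : (1 + (p.1.1 ^ 5)⁻¹) ^ (1 / 2 : ℂ) ≠ 0 := by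
    intro h
    rw [h] at hs2
    exact slitPlane_ne_zero hs (by rw [← hs2]; norm_num)
  have h1 : (zInf p) ^ 2 = (p.1.1)⁻¹ := by
    unfold zInf
    rw [mul_pow, hs2, div_pow, p.2]
    have : p.1.1 ^ 5 + 1 ≠ 0 := by rw [← p.2]; exact pow_ne_zero _ hy
    field_simp
  refine ⟨?_, h1, ?_⟩
  · unfold zInf
    exact mul_ne_zero (div_ne_zero (pow_ne_zero _ hx) hy) hs0
  · have h2 : (zInf p) ^ 10 = (p.1.1 ^ 5)⁻¹ := by
      rw [show (zInf p) ^ 10 = ((zInf p) ^ 2) ^ 5 by ring, h1, inv_pow]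
    rw [h2, show (zInf p) ^ 5 = ((zInf p) ^ 2) ^ 2 * zInf p by ring, h1]
    unfold zInf
    field_simp

lemma pInf_zInf {p : AffC} (hp : 1 < ‖p.1.1‖) (h : zInf p ≠ 0) : pInf (zInf p) h = p := by
  obtain ⟨h0, h1, h2⟩ := zInf_facts hp
  have hx : p.1.1 ≠ 0 := by
    intro h; rw [h] at hp; simp at hp; linarith
  apply Subtype.ext
  apply Prod.ext
  · show ((zInf p) ^ 2)⁻¹ = p.1.1
    rw [h1, inv_inv]
  · show ((zInf p) ^ 5)⁻¹ * _ = p.1.2
    rw [← h2]
    field_simp

lemma zInf_pInf {z : ℂ} (hz : z ∈ Metric.ball (0:ℂ) 1) (h : z ≠ 0) : zInf (pInf z h) = z := by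
  have hs0 : (1 + z ^ 10) ^ (1 / 2 : ℂ) ≠ 0 := by
    intro h
    have hs2 := root2_sq (1 + z ^ 10)
    rw [h] at hs2
    exact slitPlane_ne_zero (slit_ball hz) (by rw [← hs2]; norm_num)
  show ((z ^ 2)⁻¹) ^ 2 / ((z ^ 5)⁻¹ * (1 + z ^ 10) ^ (1 / 2 : ℂ)) *
    (1 + (((z ^ 2)⁻¹) ^ 5)⁻¹) ^ (1 / 2 : ℂ) = z
  rw [show (((z ^ 2)⁻¹) ^ 5)⁻¹ = z ^ 10 by rw [inv_pow, inv_inv]; ring]
  field_simp

lemma x_pInf_norm {z : ℂ} (hz : z ∈ Metric.ball (0:ℂ) 1) (h : z ≠ 0) : 1 < ‖(pInf z h).1.1‖ := by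
  show 1 < ‖(z ^ 2)⁻¹‖
  rw [norm_inv]
  exact (one_lt_inv₀ (norm_pos_iff.2 (pow_ne_zero _ h))).2 (norm_pow_lt hz (by norm_num))

/-- the chart at infinity -/
def eInf : OpenPartialHomeomorph Crv ℂ where
  toFun P := P.elim 0 zInf
  invFun z := if h : z = 0 then OnePoint.infty else ((pInf z h : AffC) : Crv)
  source := {P | P.elim True (fun p : AffC => 1 < ‖p.1.1‖)}
  target := Metric.ball 0 1
  map_source' := by
    intro P hP
    induction P using OnePoint.rec with
    | infty => simp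
    | coe p =>
      have hp : 1 < ‖p.1.1‖ := hP
      obtain ⟨h0, h1, h2⟩ := zInf_facts hp
      show zInf p ∈ Metric.ball 0 1
      have h3 : ‖zInf p‖ ^ 2 < 1 := by
        rw [← norm_pow, h1, norm_inv]
        exact inv_lt_one_of_one_lt₀ hp
      have h4 : ‖zInf p‖ < 1 := by
        by_contra h
        push Not at h
        nlinarith
      simpa using h4
  map_target' := by
    intro z hz
    by_cases h : z = 0
    · show (if h : z = 0 then OnePoint.infty else ((pInf z h : AffC) : Crv)) ∈ _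
      rw [dif_pos h]
      trivial
    · show (if h : z = 0 then OnePoint.infty else ((pInf z h : AffC) : Crv)) ∈ _
      rw [dif_neg h]
      exact x_pInf_norm hz h
  left_inv' := by
    intro P hP
    induction P using OnePoint.rec with
    | infty => simp
    | coe p =>
      have hp : 1 < ‖p.1.1‖ := hP
      obtain ⟨h0, h1, h2⟩ := zInf_facts hp
      show (if h : zInf p = 0 then OnePoint.infty else ((pInf (zInf p) h : AffC) : Crv)) = _
      rw [dif_neg h0, pInf_zInf hp]
  right_inv' := by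
    intro z hz
    by_cases h : z = 0
    · simp [h]
    · show (if h : z = 0 then OnePoint.infty else ((pInf z h : AffC) : Crv)).elim 0 zInf = z
      rw [dif_neg h]
      exact zInf_pInf hz h
  open_source := by
    rw [OnePoint.isOpen_def]
    constructor
    · intro _
      convert isCompact_bdd 1 using 1
      ext p
      simp only [mem_compl_iff, mem_preimage, mem_ofPred_eq, OnePoint.elim_some, not_lt]
    · exact isOpen_lt continuous_const cont_x.norm
  open_target := Metric.isOpen_ball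
  continuousOn_toFun := by
    intro P hP
    apply ContinuousAt.continuousWithinAt
    induction P using OnePoint.rec with
    | infty =>
      rw [OnePoint.continuousAt_infty]
      intro s hs
      obtain ⟨ε, hε, hs⟩ := Metric.mem_nhds_iff.1 hs
      refine ⟨{p | ‖p.1.1‖ ≤ max 1 (ε ^ 2)⁻¹}, isClosed_bdd _, isCompact_bdd _, ?_⟩
      intro p hp
      simp only [mem_compl_iff, mem_ofPred_eq, not_le, max_lt_iff] at hp
      obtain ⟨h0, h1, h2⟩ := zInf_facts hp.1
      apply hs
      show zInf p ∈ Metric.ball 0 ε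
      have h3 : ‖zInf p‖ ^ 2 < ε ^ 2 := by
        rw [← norm_pow, h1, norm_inv]
        exact inv_lt_of_inv_lt₀ (by positivity) hp.2
      have h4 : ‖zInf p‖ < ε := lt_of_pow_lt_pow_left₀ 2 hε.le h3
      simpa using h4
    | coe p =>
      rw [OnePoint.continuousAt_coe]
      have hp : 1 < ‖p.1.1‖ := hP
      have hx : p.1.1 ≠ 0 := by
        intro h; rw [h] at hp; simp at hp; linarith
      have hy := y_ne_zero_of_x hp
      have hs : 1 + (p.1.1 ^ 5)⁻¹ ∈ slitPlane :=
        slit_of_norm_lt (norm_inv_pow_lt hp (by norm_num))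
      show ContinuousAt zInf p
      unfold zInf
      refine ContinuousAt.mul ?_ ?_
      · exact (cont_x.continuousAt.pow 2).div cont_y.continuousAt hy
      · refine ContinuousAt.cpow ?_ continuousAt_const hs
        exact continuousAt_const.add ((cont_x.continuousAt.pow 5).inv₀ (pow_ne_zero _ hx))
  continuousOn_invFun := by
    intro z hz
    apply ContinuousAt.continuousWithinAt
    by_cases h : z = 0
    · subst h
      rw [ContinuousAt, dif_pos rfl, (OnePoint.hasBasis_nhds_infty).tendsto_right_iff]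
      intro s hs
      obtain ⟨R, hR⟩ := (hs.2.image (cont_x.norm)).bddAbove
      have h1 : Metric.ball (0:ℂ) (min 1 (max R 1)⁻¹) ∈ 𝓝 (0:ℂ) := by
        apply Metric.ball_mem_nhds
        have : 0 < max R 1 := lt_max_of_lt_right one_pos
        positivity
      filter_upwards [h1] with w hw
      by_cases h : w = 0
      · rw [dif_pos h]; right; rfl
      · rw [dif_neg h]
        left
        refine ⟨pInf w h, ?_, rfl⟩
        intro hmem
        have h2 : ‖(w ^ 2)⁻¹‖ ≤ R := hR ⟨_, hmem, rfl⟩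
        have hw1 : ‖w‖ < 1 := by
          have : ‖w‖ < min 1 (max R 1)⁻¹ := by simpa using hw
          exact this.trans_le (min_le_left _ _)
        have hw2 : ‖w‖ < (max R 1)⁻¹ := by
          have : ‖w‖ < min 1 (max R 1)⁻¹ := by simpa using hw
          exact this.trans_le (min_le_right _ _)
        have hw0 : 0 < ‖w‖ := norm_pos_iff.2 h
        have h3 : max R 1 < ‖w‖⁻¹ := by
          rwa [lt_inv_comm₀ (lt_max_of_lt_right one_pos) hw0]
        have h4 : ‖w‖⁻¹ ≤ ‖(w ^ 2)⁻¹‖ := by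
          rw [norm_inv, norm_pow]
          apply inv_anti₀ (by positivity)
          nlinarith
        linarith [le_max_left R 1]
    · have hop : IsOpen {w : ℂ | w ≠ 0} := isOpen_ne
      have hemb := hop.isOpenEmbedding_subtypeVal
      have key : ContinuousAt (fun w : {w : ℂ | w ≠ 0} => pInf w.1 w.2) ⟨z, h⟩ := by
        rw [Topology.IsInducing.subtypeVal.continuousAt_iff]
        have hG : ContinuousAt (fun w : ℂ =>
            ((w ^ 2)⁻¹, (w ^ 5)⁻¹ * (1 + w ^ 10) ^ (1 / 2 : ℂ))) z := by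
          refine ContinuousAt.prodMk ?_ (ContinuousAt.mul ?_ ?_)
          · exact (continuousAt_id.pow 2).inv₀ (pow_ne_zero _ h)
          · exact (continuousAt_id.pow 5).inv₀ (pow_ne_zero _ h)
          · exact ContinuousAt.cpow (by fun_prop) continuousAt_const (slit_ball hz)
        exact ContinuousAt.comp (f := fun w : {w : ℂ | w ≠ 0} => w.1) (x := ⟨z, h⟩) hG
          continuous_subtype_val.continuousAt
      have key2 := OnePoint.continuous_coe.continuousAt.comp key
      refine (hemb.continuousAt_iff (x := ⟨z, h⟩)).1 (key2.congr ?_)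
      refine Filter.Eventually.of_forall fun w => ?_
      show ((pInf w.1 w.2 : AffC) : Crv) = if h : w.1 = 0 then OnePoint.infty else
        ((pInf w.1 h : AffC) : Crv)
      rw [dif_neg w.2]


/-- the coordinate function `x` (junk value 0 at infinity) -/
def xC : Crv → ℂ := fun P => P.elim 0 (fun p : AffC => p.1.1)

/-- the coordinate function `y` (junk value 0 at infinity) -/
def yC : Crv → ℂ := fun P => P.elim 0 (fun p : AffC => p.1.2)

/-! ### basic facts on the charts -/

lemma eAff_target (P : AffC) : (eAff P).target = (affCh P).target := rfl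

lemma eAff_source (P : AffC) :
    (eAff P).source = ((↑) : AffC → Crv) '' (affCh P).source := rfl

lemma eAff_symm (P : AffC) (z : ℂ) : (eAff P).symm z = (((affCh P).symm z : AffC) : Crv) := rfl

lemma eAff_coe (P p : AffC) : eAff P (p : Crv) = affCh P p :=
  (affCh P).lift_openEmbedding_apply OnePoint.isOpenEmbedding_coe

lemma coe_mem_eAff_source {P p : AffC} : (p : Crv) ∈ (eAff P).source ↔ p ∈ (affCh P).source := by
  rw [eAff_source]
  exact OnePoint.coe_injective.mem_set_image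

lemma coe_mem_eInf_source {p : AffC} : (p : Crv) ∈ eInf.source ↔ 1 < ‖p.1.1‖ := Iff.rfl

lemma eInf_coe (p : AffC) : eInf (p : Crv) = zInf p := rfl

lemma eInf_symm_zero : eInf.symm 0 = (OnePoint.infty : Crv) := by
  show (if h : (0:ℂ) = 0 then OnePoint.infty else ((pInf 0 h : AffC) : Crv)) = _
  rw [dif_pos rfl]

lemma eInf_symm_ne {z : ℂ} (h : z ≠ 0) : eInf.symm z = ((pInf z h : AffC) : Crv) := by
  show (if h : z = 0 then OnePoint.infty else ((pInf z h : AffC) : Crv)) = _
  rw [dif_neg h]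

theorem infty_notMem (P : AffC) : (OnePoint.infty : Crv) ∉ (eAff P).source := by
  rw [eAff_source]
  exact OnePoint.infty_notMem_image_coe

theorem infty_mem_source : (OnePoint.infty : Crv) ∈ eInf.source := trivial

theorem eInf_target : eInf.target = Metric.ball 0 1 := rfl

theorem eInf_infty : eInf OnePoint.infty = 0 := rfl

/-- atlas = {eInf} U {eAff P} ; chartAt P = eAff P, chartAt infinity = eInf -/
instance instChartedCrv : ChartedSpace ℂ Crv where
  atlas := {eInf} ∪ Set.range eAff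
  chartAt := fun P => P.elim eInf eAff
  mem_chart_source := by
    intro P
    induction P using OnePoint.rec with
    | infty => exact infty_mem_source
    | coe p => exact coe_mem_eAff_source.2 (mem_affCh_source p)
  chart_mem_atlas := by
    intro P
    induction P using OnePoint.rec with
    | infty => left; rfl
    | coe p => right; exact ⟨p, rfl⟩

/-! ### holomorphy of the transition functions -/

/-- the coordinate at infinity as a function of `(x, y)` -/
def zFun (q : ℂ × ℂ) : ℂ := q.1 ^ 2 / q.2 * (1 + (q.1 ^ 5)⁻¹) ^ (1 / 2 : ℂ)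

lemma zInf_eq (p : AffC) : zInf p = zFun p.1 := rfl

/-- `X, Y` differentiable at `z`: the coordinate at infinity of `(X z, Y z)` is differentiable -/
lemma diff_zFun {X Y : ℂ → ℂ} {z : ℂ} (hX : DifferentiableAt ℂ X z) (hY : DifferentiableAt ℂ Y z)
    (h1 : 1 < ‖X z‖) (h2 : Y z ≠ 0) : DifferentiableAt ℂ (fun w => zFun (X w, Y w)) z := by
  have hx : X z ≠ 0 := by
    intro h; rw [h] at h1; simp at h1; linarith
  have hs : 1 + (X z ^ 5)⁻¹ ∈ slitPlane :=
    slit_of_norm_lt (norm_inv_pow_lt h1 (by norm_num))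
  unfold zFun
  refine DifferentiableAt.mul ?_ ?_
  · exact (hX.pow 2).div hY h2
  · refine DifferentiableAt.cpow_const ?_ hs
    exact (differentiableAt_const _).add ((hX.pow 5).inv (pow_ne_zero _ hx))

lemma diffAt_x_affCh (P : AffC) {z : ℂ} (hz : z ∈ (affCh P).target) :
    DifferentiableAt ℂ (fun z => ((affCh P).symm z).1.1) z :=
  (diff_x_affCh P).differentiableAt ((affCh P).open_target.mem_nhds hz)

lemma diffAt_y_affCh (P : AffC) {z : ℂ} (hz : z ∈ (affCh P).target) :
    DifferentiableAt ℂ (fun z => ((affCh P).symm z).1.2) z :=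
  (diff_y_affCh P).differentiableAt ((affCh P).open_target.mem_nhds hz)

lemma trans_aff_aff (P Q : AffC) {z : ℂ} (hz : z ∈ (affCh P).target) :
    DifferentiableAt ℂ (fun w => eAff Q ((eAff P).symm w)) z := by
  have h : (fun w => eAff Q ((eAff P).symm w)) = fun w => affCh Q ((affCh P).symm w) := by
    funext w
    rw [eAff_symm, eAff_coe]
  rw [h]
  rcases affCh_cases Q with ⟨h1, -⟩ | ⟨h1, -⟩
  · simp only [h1]
    exact diffAt_x_affCh P hz
  · simp only [h1]
    exact diffAt_y_affCh P hz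

lemma trans_aff_inf (P : AffC) {z : ℂ} (hz : z ∈ (affCh P).target)
    (hz2 : (eAff P).symm z ∈ eInf.source) :
    DifferentiableAt ℂ (fun w => eInf ((eAff P).symm w)) z := by
  rw [eAff_symm, coe_mem_eInf_source] at hz2
  exact diff_zFun (diffAt_x_affCh P hz) (diffAt_y_affCh P hz) hz2 (y_ne_zero_of_x hz2)

lemma trans_inf_aff (Q : AffC) {z : ℂ} (hz : z ∈ Metric.ball (0:ℂ) 1)
    (hz2 : eInf.symm z ∈ (eAff Q).source) :
    DifferentiableAt ℂ (fun w => eAff Q (eInf.symm w)) z := by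
  have hz0 : z ≠ 0 := by
    intro h
    rw [h, eInf_symm_zero] at hz2
    exact infty_notMem Q hz2
  have hX : DifferentiableAt ℂ (fun w : ℂ => (w ^ 2)⁻¹) z :=
    (differentiableAt_id.pow 2).inv (pow_ne_zero _ hz0)
  have hY : DifferentiableAt ℂ (fun w : ℂ => (w ^ 5)⁻¹ * (1 + w ^ 10) ^ (1 / 2 : ℂ)) z := by
    refine DifferentiableAt.mul ((differentiableAt_id.pow 5).inv (pow_ne_zero _ hz0)) ?_
    exact DifferentiableAt.cpow_const (by fun_prop) (slit_ball hz)
  have hne : ∀ᶠ w in 𝓝 z, w ≠ 0 := isOpen_ne.eventually_mem hz0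
  rcases affCh_cases Q with ⟨h1, -⟩ | ⟨h1, -⟩
  · refine hX.congr_of_eventuallyEq ?_
    filter_upwards [hne] with w hw
    rw [eInf_symm_ne hw, eAff_coe, h1]
    rfl
  · refine hY.congr_of_eventuallyEq ?_
    filter_upwards [hne] with w hw
    rw [eInf_symm_ne hw, eAff_coe, h1]
    rfl

lemma trans_inf_inf {z : ℂ} (hz : z ∈ Metric.ball (0:ℂ) 1) :
    DifferentiableAt ℂ (fun w => eInf (eInf.symm w)) z := by
  refine differentiableAt_id.congr_of_eventuallyEq ?_
  filter_upwards [Metric.isOpen_ball.mem_nhds hz] with w hw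
  exact eInf.right_inv hw

instance instManifoldCrv : IsManifold 𝓘(ℂ) ω Crv := by
  apply isManifold_of_contDiffOn
  intro e e' he he'
  have hop : IsOpen (e.symm ≫ₕ e').source := (e.symm ≫ₕ e').open_source
  simp only [modelWithCornersSelf_coe, modelWithCornersSelf_coe_symm, Function.id_comp,
    Function.comp_id, Set.preimage_id, Set.range_id, Set.inter_univ]
  rw [contDiffOn_omega_iff_analyticOn hop.uniqueDiffOn]
  refine DifferentiableOn.analyticOn ?_ hop
  intro z hz
  apply DifferentiableAt.differentiableWithinAt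
  rw [OpenPartialHomeomorph.trans_source] at hz
  obtain ⟨hz1, hz2⟩ := hz
  rcases he with he | ⟨P, rfl⟩ <;> rcases he' with he' | ⟨Q, rfl⟩
  · rw [mem_singleton_iff] at he he'
    subst he he'
    exact trans_inf_inf hz1
  · rw [mem_singleton_iff] at he
    subst he
    exact trans_inf_aff Q hz1 hz2
  · rw [mem_singleton_iff] at he'
    subst he'
    exact trans_aff_inf P hz1 hz2
  · exact trans_aff_aff P Q hz1

instance instCompactCrv : CompactSpace Crv := inferInstance

instance instLCAffC : LocallyCompactSpace AffC := by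
  have hcl : IsClosed {p : ℂ × ℂ | p.2 ^ 2 = p.1 ^ 5 + 1} :=
    isClosed_eq (by fun_prop) (by fun_prop)
  exact hcl.isClosedEmbedding_subtypeVal.locallyCompactSpace

instance instT2Crv : T2Space Crv := inferInstance

theorem x_eInf {z : ℂ} (hz : z ∈ Metric.ball (0:ℂ) 1) (h0 : z ≠ 0) :
    xC (eInf.symm z) = (z ^ 2)⁻¹ := by
  rw [eInf_symm_ne h0]; rfl

theorem y_eInf {z : ℂ} (hz : z ∈ Metric.ball (0:ℂ) 1) (h0 : z ≠ 0) :
    yC (eInf.symm z) = (z ^ 5)⁻¹ * (1 + z ^ 10) ^ (1 / 2 : ℂ) := by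
  rw [eInf_symm_ne h0]; rfl

theorem x_eAff (P : AffC) : DifferentiableOn ℂ (fun z => xC ((eAff P).symm z)) (eAff P).target :=
  diff_x_affCh P

theorem y_eAff (P : AffC) : DifferentiableOn ℂ (fun z => yC ((eAff P).symm z)) (eAff P).target :=
  diff_y_affCh P

/-! ### the holomorphic form `dx/y` -/

/-- the coefficient of `dx/y` in the chart `eAff P` -/
def omAff (P : AffC) : ℂ → ℂ :=
  if P.1.2 = 0 then fun z => 2 / (5 * (((affCh P).symm z).1.1) ^ 4)
  else fun z => 1 / ((affCh P).symm z).1.2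


lemma omAff_A {P : AffC} (h : P.1.2 ≠ 0) (z : ℂ) : omAff P z = 1 / ((affCh P).symm z).1.2 := by
  unfold omAff; rw [if_neg h]

lemma omAff_B {P : AffC} (h : P.1.2 = 0) (z : ℂ) :
    omAff P z = 2 / (5 * (((affCh P).symm z).1.1) ^ 4) := by
  unfold omAff; rw [if_pos h]

lemma deriv_rel (P : AffC) {z : ℂ} (hz : z ∈ (affCh P).target) :
    2 * ((affCh P).symm z).1.2 * deriv (fun z => ((affCh P).symm z).1.2) z =
    5 * (((affCh P).symm z).1.1) ^ 4 * deriv (fun z => ((affCh P).symm z).1.1) z := by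
  have h1 : (fun w => (((affCh P).symm w).1.2) ^ 2) = fun w => (((affCh P).symm w).1.1) ^ 5 + 1 := by
    funext w
    exact ((affCh P).symm w).2
  have hX := (diffAt_x_affCh P hz).hasDerivAt
  have hY := (diffAt_y_affCh P hz).hasDerivAt
  have h2 := hY.fun_pow 2
  have h3 := (hX.fun_pow 5).add_const 1
  rw [h1] at h2
  have h4 := h2.unique h3
  norm_num at h4
  linear_combination h4

lemma deriv_coord_A {P : AffC} (h : ∀ p, affCh P p = p.1.1) {z : ℂ} (hz : z ∈ (affCh P).target) :
    deriv (fun z => ((affCh P).symm z).1.1) z = 1 := by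
  have : (fun z => ((affCh P).symm z).1.1) =ᶠ[𝓝 z] id := by
    filter_upwards [(affCh P).open_target.mem_nhds hz] with w hw
    rw [← h, (affCh P).right_inv hw]; rfl
  rw [this.deriv_eq]
  exact deriv_id z

lemma deriv_coord_B {P : AffC} (h : ∀ p, affCh P p = p.1.2) {z : ℂ} (hz : z ∈ (affCh P).target) :
    deriv (fun z => ((affCh P).symm z).1.2) z = 1 := by
  have : (fun z => ((affCh P).symm z).1.2) =ᶠ[𝓝 z] id := by
    filter_upwards [(affCh P).open_target.mem_nhds hz] with w hw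
    rw [← h, (affCh P).right_inv hw]; rfl
  rw [this.deriv_eq]
  exact deriv_id z

theorem omAff_holo (P : AffC) : DifferentiableOn ℂ (omAff P) (eAff P).target := by
  intro z hz
  apply DifferentiableAt.differentiableWithinAt
  have hs := (affCh P).map_target hz
  rcases affCh_cases P with ⟨h1, h2, h3⟩ | ⟨h1, h2, h3⟩
  · have : omAff P = fun z => 1 / ((affCh P).symm z).1.2 := funext (omAff_A h3)
    rw [this]
    exact (differentiableAt_const _).div (diffAt_y_affCh P hz) (h2 _ hs)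
  · have : omAff P = fun z => 2 / (5 * (((affCh P).symm z).1.1) ^ 4) := funext (omAff_B h3)
    rw [this]
    refine (differentiableAt_const _).div ?_ ?_
    · exact (differentiableAt_const _).mul ((diffAt_x_affCh P hz).pow 4)
    · exact mul_ne_zero (by norm_num) (pow_ne_zero _ (h2 _ hs))

theorem omAff_ne (P : AffC) : ∀ z ∈ (eAff P).target, omAff P z ≠ 0 := by
  intro z hz
  have hs := (affCh P).map_target hz
  rcases affCh_cases P with ⟨h1, h2, h3⟩ | ⟨h1, h2, h3⟩
  · rw [omAff_A h3]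
    exact div_ne_zero one_ne_zero (h2 _ hs)
  · rw [omAff_B h3]
    exact div_ne_zero two_ne_zero (mul_ne_zero (by norm_num) (pow_ne_zero _ (h2 _ hs)))

/-- `dx = y * (dx/y)` -/
theorem omAff_spec (P : AffC) : ∀ z ∈ (eAff P).target,
    deriv (fun z => xC ((eAff P).symm z)) z = yC ((eAff P).symm z) * omAff P z := by
  intro z hz
  have hs := (affCh P).map_target hz
  have hr := deriv_rel P hz
  show deriv (fun z => ((affCh P).symm z).1.1) z = ((affCh P).symm z).1.2 * omAff P z
  rcases affCh_cases P with ⟨h1, h2, h3⟩ | ⟨h1, h2, h3⟩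
  · rw [omAff_A h3, deriv_coord_A h1 hz, mul_one_div_cancel (h2 _ hs)]
  · rw [deriv_coord_B h1 hz] at hr
    have hx := h2 _ hs
    rw [omAff_B h3]
    field_simp
    linear_combination -hr

/-- `2 y dy = 5 x^4 dx`, in the form `2 dy = 5 x^4 (dx/y)` -/
theorem omAff_spec' (P : AffC) : ∀ z ∈ (eAff P).target,
    2 * deriv (fun z => yC ((eAff P).symm z)) z = 5 * (xC ((eAff P).symm z)) ^ 4 * omAff P z := by
  intro z hz
  have hs := (affCh P).map_target hz
  have hr := deriv_rel P hz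
  show 2 * deriv (fun z => ((affCh P).symm z).1.2) z = 5 * ((affCh P).symm z).1.1 ^ 4 * omAff P z
  rcases affCh_cases P with ⟨h1, h2, h3⟩ | ⟨h1, h2, h3⟩
  · rw [deriv_coord_A h1 hz] at hr
    have hy := h2 _ hs
    rw [omAff_A h3]
    field_simp
    linear_combination hr
  · have hx := h2 _ hs
    rw [omAff_B h3, deriv_coord_B h1 hz]
    field_simp

/-- two affine charts: the form transforms correctly -/
theorem omAff_compat (P Q : AffC) : ∀ z ∈ (eAff P).target, (eAff P).symm z ∈ (eAff Q).source →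
    omAff P z = omAff Q (eAff Q ((eAff P).symm z)) * deriv (fun w => eAff Q ((eAff P).symm w)) z := by
  intro z hz hz2
  have e1 := omAff_spec P z hz
  have e2 := omAff_spec' P z hz
  have hfun : (fun w => eAff Q ((eAff P).symm w)) = fun w => affCh Q ((affCh P).symm w) := by
    funext w
    rw [eAff_symm, eAff_coe]
  rw [hfun]
  rw [eAff_symm, coe_mem_eAff_source] at hz2
  rw [eAff_symm, eAff_coe]
  have hinv := (affCh Q).left_inv hz2
  change deriv (fun z => ((affCh P).symm z).1.1) z = ((affCh P).symm z).1.2 * omAff P z at e1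
  change 2 * deriv (fun z => ((affCh P).symm z).1.2) z =
    5 * ((affCh P).symm z).1.1 ^ 4 * omAff P z at e2
  rcases affCh_cases Q with ⟨h1, h2, h3⟩ | ⟨h1, h2, h3⟩
  · rw [omAff_A h3, hinv]
    have hy := h2 _ hz2
    have : (fun w => affCh Q ((affCh P).symm w)) = fun w => ((affCh P).symm w).1.1 :=
      funext fun w => h1 _
    rw [this, e1]
    field_simp
  · rw [omAff_B h3, hinv]
    have hx := h2 _ hz2
    have : (fun w => affCh Q ((affCh P).symm w)) = fun w => ((affCh P).symm w).1.2 :=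
      funext fun w => h1 _
    rw [this]
    field_simp
    linear_combination -e2

/-- affine chart against the chart at infinity, where `dx/y = -2 z^2 (1+z^10)^(-1/2) dz` -/
theorem omInf_compat (P : AffC) : ∀ z ∈ (eAff P).target, (eAff P).symm z ∈ eInf.source →
    omAff P z = (-2 * (eInf ((eAff P).symm z)) ^ 2 *
      ((1 + (eInf ((eAff P).symm z)) ^ 10) ^ (1 / 2 : ℂ))⁻¹) *
      deriv (fun w => eInf ((eAff P).symm w)) z := by
  intro z hz hz2
  have hd := (trans_aff_inf P hz hz2).hasDerivAt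
  have e1 := omAff_spec P z hz
  have hX := (diffAt_x_affCh P hz).hasDerivAt
  rw [eAff_symm, coe_mem_eInf_source] at hz2
  obtain ⟨h0, h1, h2⟩ := zInf_facts hz2
  have hy := y_ne_zero_of_x hz2
  have hx : ((affCh P).symm z).1.1 ≠ 0 := by
    intro h; rw [h] at hz2; simp at hz2; linarith
  change deriv (fun z => ((affCh P).symm z).1.1) z = ((affCh P).symm z).1.2 * omAff P z at e1
  -- differentiate `ζ^2 * x = 1`
  have hev : (fun w => (eInf ((eAff P).symm w)) ^ 2 * ((affCh P).symm w).1.1) =ᶠ[𝓝 z]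
      fun _ => 1 := by
    have hc : ContinuousAt (fun w => ‖((affCh P).symm w).1.1‖) z :=
      (diffAt_x_affCh P hz).continuousAt.norm
    filter_upwards [hc.eventually (lt_mem_nhds hz2)] with w hw
    obtain ⟨g0, g1, g2⟩ := zInf_facts hw
    rw [eAff_symm, eInf_coe, g1]
    have : ((affCh P).symm w).1.1 ≠ 0 := by
      intro h; rw [h] at hw; simp at hw; linarith
    exact inv_mul_cancel₀ this
  have h3 := (hd.fun_pow 2).fun_mul hX
  have h4 := h3.unique ((hasDerivAt_const z (1:ℂ)).congr_of_eventuallyEq hev)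
  rw [e1] at h4
  simp only [eAff_symm, eInf_coe] at h4 ⊢
  rw [← h2]
  norm_num at h4
  set ζ := zInf ((affCh P).symm z) with hζ
  set x := ((affCh P).symm z).1.1
  set y := ((affCh P).symm z).1.2
  set D := deriv (fun w => zInf ((affCh P).symm w)) z
  have hx' : x = (ζ ^ 2)⁻¹ := by rw [h1, inv_inv]
  rw [hx'] at h4
  field_simp at h4 ⊢
  linear_combination h4

/-! ### connectedness -/

lemma clopen_empty {U : Set Crv} (hU : IsClopen U) (hinf : (OnePoint.infty : Crv) ∉ U) :
    U = ∅ := by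
  by_contra hne
  have hne' : U.Nonempty := nonempty_iff_ne_empty.2 hne
  have hcomp : IsCompact U := hU.1.isCompact
  have hcont : ContinuousOn (fun P : Crv => ‖xC P‖) U := by
    intro P hP
    apply ContinuousAt.continuousWithinAt
    induction P using OnePoint.rec with
    | infty => exact absurd hP hinf
    | coe p =>
      rw [OnePoint.continuousAt_coe]
      exact cont_x.norm.continuousAt
  obtain ⟨P, hP, hmax⟩ := hcomp.exists_isMaxOn hne' hcont
  induction P using OnePoint.rec with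
  | infty => exact hinf hP
  | coe p =>
    have hp := mem_affCh_source p
    have hz0 : affCh p p ∈ (affCh p).target := (affCh p).map_source hp
    have hinv : (affCh p).symm (affCh p p) = p := (affCh p).left_inv hp
    have hcs : ContinuousAt (fun z => (((affCh p).symm z : AffC) : Crv)) (affCh p p) :=
      OnePoint.continuous_coe.continuousAt.comp ((affCh p).continuousAt_symm hz0)
    have hev : ∀ᶠ z in 𝓝 (affCh p p), (((affCh p).symm z : AffC) : Crv) ∈ U := by
      apply hcs.eventually_mem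
      rw [hinv]
      exact hU.2.mem_nhds hP
    have htg : ∀ᶠ z in 𝓝 (affCh p p), z ∈ (affCh p).target :=
      (affCh p).open_target.mem_nhds hz0
    have hlm : IsLocalMax (norm ∘ fun z => ((affCh p).symm z).1.1) (affCh p p) := by
      filter_upwards [hev] with z hz
      have := hmax hz
      show ‖((affCh p).symm z).1.1‖ ≤ ‖((affCh p).symm (affCh p p)).1.1‖
      rw [hinv]
      exact this
    have hconst := Complex.eventually_eq_of_isLocalMax_norm
      (htg.mono fun z hz => diffAt_x_affCh p hz) hlm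
    have hder : ∀ᶠ z in 𝓝 (affCh p p), deriv (fun z => ((affCh p).symm z).1.1) z = 0 := by
      have h1 : (fun z => ((affCh p).symm z).1.1) =ᶠ[𝓝 (affCh p p)]
        fun _ => ((affCh p).symm (affCh p p)).1.1 := hconst
      filter_upwards [h1.deriv] with z hz
      rw [hz]; simp
    have hy0 : ∀ᶠ z in 𝓝 (affCh p p), ((affCh p).symm z).1.2 = 0 := by
      filter_upwards [hder, htg] with z h1 h2
      have h3 := omAff_spec p z h2
      change deriv (fun z => ((affCh p).symm z).1.1) z = ((affCh p).symm z).1.2 * omAff p z at h3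
      rw [h1] at h3
      exact (mul_eq_zero.1 h3.symm).resolve_right (omAff_ne p z h2)
    have hyd : deriv (fun z => ((affCh p).symm z).1.2) (affCh p p) = 0 := by
      have h1 : (fun z => ((affCh p).symm z).1.2) =ᶠ[𝓝 (affCh p p)] fun _ => 0 := hy0
      rw [h1.deriv_eq]; simp
    have h4 := omAff_spec' p _ hz0
    change 2 * deriv (fun z => ((affCh p).symm z).1.2) (affCh p p) =
      5 * ((affCh p).symm (affCh p p)).1.1 ^ 4 * omAff p (affCh p p) at h4
    rw [hyd, hinv] at h4
    have h5 := hy0.self_of_nhds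
    rw [hinv] at h5
    have h6 : p.1.1 = 0 := by
      by_contra hx
      have h6 : (5 : ℂ) * p.1.1 ^ 4 * omAff p (affCh p p) ≠ 0 :=
        mul_ne_zero (mul_ne_zero (by norm_num) (pow_ne_zero 4 hx)) (omAff_ne p _ hz0)
      exact h6 (by rw [← h4]; ring)
    have h7 := p.2
    rw [h5, h6] at h7
    norm_num at h7

instance instConnectedCrv : ConnectedSpace Crv := by
  rw [connectedSpace_iff_clopen]
  refine ⟨⟨OnePoint.infty⟩, fun s hs => ?_⟩
  by_cases h : (OnePoint.infty : Crv) ∈ s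
  · right
    have := clopen_empty hs.compl (fun h' => h' h)
    rwa [compl_empty_iff] at this
  · left
    exact clopen_empty hs h

end Pool.Agent.Lib8bb
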