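import Mathlib
import Pool.Agent.Lib_MP_8bb00a_gt.Atlas
import Pool.Agent.Lib_MP_8bb00a_gt.Curve

/-!
# The atlas, the 1-forms and the Higgs bundle on the curve `y² = x⁵ + 1`
-/

open Complex Set
open scoped ComplexConjugate Topology ContDiff Matrix ComplexOrder

namespace MP_8bb00a_gt

open Pool.Agent.Lib8bb

/-- the holomorphic atlas of the curve: the chart at infinity and the affine charts -/
noncomputable def CA : HolAtlas Crv where
  I := Option AffC
  chart i := i.elim eInf eAff
  cover P := by
    induction P using OnePoint.rec with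
    | infty => exact ⟨none, infty_mem_source⟩
    | coe p => exact ⟨some p, coe_mem_eAff_source.2 (mem_affCh_source p)⟩
  holo i j := by
    rintro z ⟨hz1, hz2⟩
    apply DifferentiableAt.differentiableWithinAt
    cases i with
    | none =>
      cases j with
      | none => exact trans_inf_inf hz1
      | some Q => exact trans_inf_aff Q hz1 hz2
    | some P =>
      cases j with
      | none => exact trans_aff_inf P hz1 hz2
      | some Q => exact trans_aff_aff P Q hz1

/-- the point at infinity -/
def pinf : Crv := OnePoint.infty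

theorem CA_dom_none : CA.dom none = eInf.source := rfl
theorem CA_dom_some (Q : AffC) : CA.dom (some Q) = (eAff Q).source := rfl
theorem CA_img_none : CA.img none = Metric.ball 0 1 := rfl

theorem pinf_mem_dom : pinf ∈ CA.dom none := infty_mem_source

theorem pinf_not_mem (Q : AffC) : pinf ∉ CA.dom (some Q) := infty_notMem Q

theorem chart_pinf : CA.chart none pinf = 0 := eInf_infty

theorem pt_zero : CA.pt none 0 = pinf := eInf_symm_zero

/-- the coordinate at infinity, as a function on the curve -/
noncomputable def zc (x : Crv) : ℂ := eInf x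

theorem zc_pinf : zc pinf = 0 := eInf_infty

theorem zc_pt {z : ℂ} (hz : z ∈ CA.img none) : zc (CA.pt none z) = z := CA.chart_pt (i := none) hz

theorem zc_ne {x : Crv} (hx : x ∈ CA.dom none) (h : x ≠ pinf) : zc x ≠ 0 := by
  intro h0
  apply h
  rw [← CA.pt_chart (i := none) hx, show CA.chart none x = 0 from h0, pt_zero]

theorem ne_pinf_of_mem {x : Crv} {Q : AffC} (hx : x ∈ CA.dom (some Q)) : x ≠ pinf := by
  rintro rfl; exact pinf_not_mem Q hx

theorem xC_zc {x : Crv} (hx : x ∈ CA.dom none) (h : x ≠ pinf) : xC x = (zc x ^ 2)⁻¹ := by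
  have h1 := x_eInf (z := eInf x) (eInf.map_source hx) (zc_ne hx h)
  rw [eInf.left_inv hx] at h1
  exact h1

/-- the function `m = -2 (1 + z¹⁰)^{-1/2}` -/
noncomputable def mfun (z : ℂ) : ℂ := -2 * ((1 + z ^ 10) ^ (1 / 2 : ℂ))⁻¹

theorem mfun_diff : DifferentiableOn ℂ mfun (Metric.ball 0 1) := by
  intro z hz
  apply DifferentiableAt.differentiableWithinAt
  have h1 : DifferentiableAt ℂ (fun z : ℂ => (1 + z ^ 10) ^ (1 / 2 : ℂ)) z :=
    DifferentiableAt.cpow_const (by fun_prop) (slit_ball hz)
  have h2 : (1 + z ^ 10) ^ (1 / 2 : ℂ) ≠ 0 := by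
    intro h
    have := root2_sq (1 + z ^ 10)
    rw [h] at this
    exact slitPlane_ne_zero (slit_ball hz) (by rw [← this]; ring)
  exact (h1.inv h2).const_mul _

theorem mfun_ne {z : ℂ} (hz : z ∈ Metric.ball (0 : ℂ) 1) : mfun z ≠ 0 := by
  have h2 : (1 + z ^ 10) ^ (1 / 2 : ℂ) ≠ 0 := by
    intro h
    have := root2_sq (1 + z ^ 10)
    rw [h] at this
    exact slitPlane_ne_zero (slit_ball hz) (by rw [← this]; ring)
  exact mul_ne_zero (by norm_num) (inv_ne_zero h2)

theorem mfun_zero : mfun 0 = -2 := by
  simp [mfun]

/-- coefficient of `dx/y` -/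
noncomputable def om : CA.I → Crv → ℂ
  | none => fun x => mfun (zc x) * zc x ^ 2
  | some Q => fun x => omAff Q (eAff Q x)

theorem om_some_none {P : AffC} {x : Crv} (hP : x ∈ CA.dom (some P)) (h : x ∈ CA.dom none) :
    om (some P) x = om none x * CA.dz (some P) none x := by
  have hz : eAff P x ∈ (eAff P).target := (eAff P).map_source hP
  have hx : (eAff P).symm (eAff P x) = x := (eAff P).left_inv hP
  have h1 := omInf_compat P (eAff P x) hz (by rw [hx]; exact h)
  rw [hx] at h1
  show omAff P (eAff P x) = mfun (zc x) * zc x ^ 2 * _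
  rw [h1]
  unfold mfun zc HolAtlas.dz
  show _ = _ * deriv (fun z => eInf ((eAff P).symm z)) (eAff P x)
  ring

/-- the holomorphic form `dx/y` -/
noncomputable def omega : OneForm CA where
  coeff := om
  holo i := by
    cases i with
    | none =>
      have h : DifferentiableOn ℂ (fun z => mfun z * z ^ 2) (Metric.ball 0 1) :=
        mfun_diff.mul (by fun_prop)
      refine (h.congr fun z hz => ?_).mono inter_subset_left
      show mfun (zc (CA.pt none z)) * zc (CA.pt none z) ^ 2 = _
      rw [zc_pt hz]
    | some Q =>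
      refine ((omAff_holo Q).congr fun z hz => ?_).mono inter_subset_left
      show omAff Q (eAff Q ((eAff Q).symm z)) = _
      rw [(eAff Q).right_inv hz]
  compat i j x hi hj := by
    cases i with
    | none =>
      cases j with
      | none => rw [CA.dz_self hi, mul_one]
      | some Q => exact CA.form_symm hj hi (om_some_none hj hi)
    | some P =>
      cases j with
      | none => exact om_some_none hi hj
      | some Q =>
        have hz : eAff P x ∈ (eAff P).target := (eAff P).map_source hi
        have hx : (eAff P).symm (eAff P x) = x := (eAff P).left_inv hi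
        have h1 := omAff_compat P Q (eAff P x) hz (by rw [hx]; exact hj)
        rw [hx] at h1
        exact h1

theorem om_ne (Q : AffC) {x : Crv} (hx : x ∈ CA.dom (some Q)) : om (some Q) x ≠ 0 :=
  omAff_ne Q _ ((eAff Q).map_source hx)

/-- for `x` affine, the coefficient of `dx/y` does not vanish -/
theorem om_ne' {i : CA.I} {x : Crv} (hx : x ∈ CA.dom i) (h : x ≠ pinf) : om i x ≠ 0 := by
  cases i with
  | none => exact mul_ne_zero (mfun_ne (CA.chart_mem (i := none) hx)) (pow_ne_zero _ (zc_ne hx h))
  | some Q => exact om_ne Q hx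

/-- coefficient of `x dx/y` -/
noncomputable def om2 : CA.I → Crv → ℂ
  | none => fun x => mfun (zc x)
  | some Q => fun x => xC x * omAff Q (eAff Q x)

theorem om2_eq {i : CA.I} {x : Crv} (hx : x ∈ CA.dom i) (h : x ≠ pinf) :
    om2 i x = xC x * om i x := by
  cases i with
  | none =>
    show mfun (zc x) = xC x * (mfun (zc x) * zc x ^ 2)
    rw [xC_zc hx h]
    have := zc_ne hx h
    field_simp
  | some Q => rfl

/-- the holomorphic form `x dx/y` -/
noncomputable def omega2 : OneForm CA where
  coeff := om2
  holo i := by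
    cases i with
    | none =>
      refine (mfun_diff.congr fun z hz => ?_).mono inter_subset_left
      show mfun (zc (CA.pt none z)) = _
      rw [zc_pt hz]
    | some Q =>
      refine (((x_eAff Q).mul (omAff_holo Q)).congr fun z hz => ?_).mono inter_subset_left
      show xC ((eAff Q).symm z) * omAff Q (eAff Q ((eAff Q).symm z)) = _
      rw [(eAff Q).right_inv hz]
      rfl
  compat i j x hi hj := by
    by_cases hx : x = pinf
    · subst hx
      cases i with
      | some P => exact absurd hi (pinf_not_mem P)
      | none =>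
        cases j with
        | some P => exact absurd hj (pinf_not_mem P)
        | none => rw [CA.dz_self hi, mul_one]
    · rw [om2_eq hi hx, om2_eq hj hx]
      have := omega.compat i j x hi hj
      change om i x = om j x * _ at this
      rw [this]; ring

theorem genus_ge_two : CA.GenusGeTwo := by
  refine ⟨omega, omega2, fun a b h => ?_⟩
  -- the point (0, 1)
  let P0 : AffC := ⟨(0, 1), by norm_num⟩
  let P1 : AffC := ⟨(-1, 0), by norm_num⟩
  have h0 : (P0 : Crv) ∈ CA.dom (some P0) := coe_mem_eAff_source.2 (mem_affCh_source P0)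
  have h1 : (P1 : Crv) ∈ CA.dom (some P1) := coe_mem_eAff_source.2 (mem_affCh_source P1)
  have e0 := h (some P0) P0 h0
  have e1 := h (some P1) P1 h1
  change a * om (some P0) P0 + b * om2 (some P0) P0 = 0 at e0
  change a * om (some P1) P1 + b * om2 (some P1) P1 = 0 at e1
  rw [om2_eq h0 (ne_pinf_of_mem h0)] at e0
  rw [om2_eq h1 (ne_pinf_of_mem h1)] at e1
  have x0 : xC (P0 : Crv) = 0 := rfl
  have x1 : xC (P1 : Crv) = -1 := rfl
  rw [x0, zero_mul, mul_zero, add_zero] at e0
  have ha : a = 0 := (mul_eq_zero.1 e0).resolve_right (om_ne P0 h0)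
  rw [x1, ha, zero_mul, zero_add] at e1
  have hb : b = 0 := by
    rcases mul_eq_zero.1 e1 with h | h
    · exact h
    · exact absurd h (mul_ne_zero (by norm_num) (om_ne P1 h1))
  exact ⟨ha, hb⟩

/-- the constant nilpotent matrix `N + N²`, with `N e₁ = e₂`, `N e₂ = e₃`, `N e₃ = 0` -/
def NN : Matrix (Fin 3) (Fin 3) ℂ := !![0, 0, 0; 1, 0, 0; 1, 1, 0]

/-- diagonal transition matrices -/
noncomputable def dg (a : ℂ) : Matrix (Fin 3) (Fin 3) ℂ := Matrix.diagonal ![a⁻¹, 1, a]

/-- transition matrices of `E = O(p) ⊕ O ⊕ O(-p)` -/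
noncomputable def gC : CA.I → CA.I → Crv → Matrix (Fin 3) (Fin 3) ℂ
  | none, none => fun _ => 1
  | some _, some _ => fun _ => 1
  | some _, none => fun x => dg (zc x)
  | none, some _ => fun x => dg (zc x)⁻¹

/-- the Higgs field `(dx/y) (N + N²)` -/
noncomputable def phiC : CA.I → Crv → Matrix (Fin 3) (Fin 3) ℂ
  | none => fun x => !![0, 0, 0; mfun (zc x) * zc x, 0, 0; mfun (zc x), mfun (zc x) * zc x, 0]
  | some Q => fun x => om (some Q) x • NN

theorem dg_mul_inv {a : ℂ} (ha : a ≠ 0) : dg a * dg a⁻¹ = 1 := by
  unfold dg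
  rw [Matrix.diagonal_mul_diagonal, ← Matrix.diagonal_one]
  congr 1
  funext i
  fin_cases i <;> simp [ha]

theorem dg_inv_mul {a : ℂ} (ha : a ≠ 0) : dg a⁻¹ * dg a = 1 := by
  have := dg_mul_inv (inv_ne_zero ha)
  rwa [inv_inv] at this

theorem dg_det {a : ℂ} (ha : a ≠ 0) : (dg a).det = 1 := by
  unfold dg
  rw [Matrix.det_diagonal, Fin.prod_univ_three]
  simp [ha]

/-- holomorphy of the coordinate at infinity and of its inverse on overlaps -/
theorem zc_hol (i : CA.I) : CA.Hol i (CA.dom i ∩ CA.dom none) zc := by
  refine (CA.holo i none).mono ?_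
  rintro z ⟨hz, hz2⟩
  exact ⟨hz, hz2.2⟩

theorem zc_inv_hol (Q : AffC) : CA.Hol (some Q) (CA.dom (some Q) ∩ CA.dom none)
    (fun x => (zc x)⁻¹) := by
  refine (zc_hol (some Q)).inv ?_
  rintro z ⟨hz, hz2⟩
  exact zc_ne hz2.2 (ne_pinf_of_mem hz2.1)

theorem zc_inv_hol' (Q : AffC) : CA.Hol none (CA.dom none ∩ CA.dom (some Q))
    (fun x => (zc x)⁻¹) := by
  have h : CA.Hol none (CA.dom none ∩ CA.dom (some Q)) zc := by
    refine (zc_hol none).mono ?_
    rintro z ⟨hz, hz2⟩
    exact ⟨hz, hz2.1, hz2.1⟩
  refine DifferentiableOn.inv h ?_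
  rintro z ⟨hz, hz2⟩
  exact zc_ne hz2.1 (ne_pinf_of_mem hz2.2)

theorem hol_const (i : CA.I) (W : Set Crv) (c : ℂ) : CA.Hol i W (fun _ => c) :=
  differentiableOn_const c

theorem dg_hol {i : CA.I} {W : Set Crv} {f : Crv → ℂ} (hf : CA.Hol i W f)
    (hf' : CA.Hol i W (fun x => (f x)⁻¹)) (a b : Fin 3) :
    CA.Hol i W (fun x => dg (f x) a b) := by
  unfold dg
  fin_cases a <;> fin_cases b <;> simp [Matrix.diagonal] <;>
    first
    | exact hol_const i W _
    | exact hf
    | exact hf'

/-- the conjugation of the Higgs field by the transition matrices -/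
theorem phi_dg {a m : ℂ} (ha : a ≠ 0) :
    ((m * a ^ 2) • NN) * dg a = dg a * !![0, 0, 0; m * a, 0, 0; m, m * a, 0] := by
  unfold dg NN
  ext i j
  fin_cases i <;> fin_cases j <;>
    simp [Matrix.mul_apply, Fin.sum_univ_three, Matrix.diagonal] <;> field_simp

/-- the Higgs bundle on the curve -/
noncomputable def EC : HiggsBundle CA 3 where
  g := gC
  phi := phiC
  g_holo i j a b := by
    cases i with
    | none =>
      cases j with
      | none => exact hol_const _ _ _
      | some Q =>
        refine dg_hol (f := fun x => (zc x)⁻¹) (zc_inv_hol' Q) ?_ a b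
        simp only [inv_inv]
        refine (zc_hol none).mono ?_
        rintro z ⟨hz, hz2⟩
        exact ⟨hz, hz2.1, hz2.1⟩
    | some P =>
      cases j with
      | none => exact dg_hol (zc_hol (some P)) (zc_inv_hol P) a b
      | some Q => exact hol_const _ _ _
  g_self i x _ := by cases i <;> rfl
  g_mul i j k x hi hj hk := by
    cases i <;> cases j <;> cases k <;> simp only [gC, one_mul, mul_one]
    · exact dg_inv_mul (zc_ne hi (ne_pinf_of_mem hj))
    · exact dg_mul_inv (zc_ne hj (ne_pinf_of_mem hi))
  g_det i j x hi hj := by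
    cases i <;> cases j <;> simp only [gC, Matrix.det_one]
    · exact dg_det (inv_ne_zero (zc_ne hi (ne_pinf_of_mem hj)))
    · exact dg_det (zc_ne hj (ne_pinf_of_mem hi))
  phi_holo i a b := by
    cases i with
    | none =>
      have h1 : CA.Hol none (CA.dom none) (fun x => mfun (zc x)) := omega2.holo none
      have h2 : CA.Hol none (CA.dom none) (fun x => mfun (zc x) * zc x) := by
        refine DifferentiableOn.mul h1 ?_
        have := zc_hol none
        rwa [inter_self] at this
      fin_cases a <;> fin_cases b <;>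
        first
        | exact h1
        | exact h2
        | exact hol_const _ _ 0
    | some Q =>
      have h1 : CA.Hol (some Q) (CA.dom (some Q)) (fun x => om (some Q) x * NN a b) :=
        DifferentiableOn.mul_const (omega.holo (some Q)) _
      exact h1
  phi_trace i x _ := by
    cases i with
    | none => simp [phiC, Matrix.trace_fin_three]
    | some Q => simp [phiC, NN, Matrix.trace_fin_three]
  phi_compat i j x hi hj := by
    cases i with
    | none =>
      cases j with
      | none =>
        rw [CA.dz_self hi, one_smul]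
        simp only [gC, one_mul, mul_one]
      | some Q =>
        have hz := zc_ne hi (ne_pinf_of_mem hj)
        have h1 := om_some_none hj hi
        have h2 := CA.form_symm hj hi h1
        change phiC none x * dg (zc x)⁻¹ = CA.dz none (some Q) x • (dg (zc x)⁻¹ * (om (some Q) x • NN))
        have h3 := phi_dg (a := zc x) (m := mfun (zc x)) hz
        have h4 : phiC none x = dg (zc x)⁻¹ * (((mfun (zc x) * zc x ^ 2) • NN) * dg (zc x)) := by
          rw [h3, ← mul_assoc, dg_inv_mul hz, one_mul]; rfl
        have h5 : phiC none x * dg (zc x)⁻¹ = dg (zc x)⁻¹ * ((mfun (zc x) * zc x ^ 2) • NN) := by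
          rw [h4, mul_assoc, mul_assoc, dg_mul_inv hz, mul_one]
        rw [h5]
        change mfun (zc x) * zc x ^ 2 = _ at h2
        rw [h2, Matrix.mul_smul, Matrix.mul_smul, smul_smul, mul_comm]
    | some P =>
      cases j with
      | none =>
        have hz := zc_ne hj (ne_pinf_of_mem hi)
        have h1 := om_some_none hi hj
        change (om (some P) x • NN) * dg (zc x) = CA.dz (some P) none x • (dg (zc x) * phiC none x)
        have h3 := phi_dg (a := zc x) (m := mfun (zc x)) hz
        change _ = dg (zc x) * phiC none x at h3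
        rw [← h3, h1]
        change ((mfun (zc x) * zc x ^ 2 * _) • NN) * dg (zc x) = _
        rw [Matrix.smul_mul, Matrix.smul_mul, smul_smul, mul_comm (CA.dz _ _ _)]
      | some Q =>
        change (om (some P) x • NN) * 1 = CA.dz (some P) (some Q) x • (1 * (om (some Q) x • NN))
        rw [mul_one, one_mul, smul_smul]
        have := omega.compat (some P) (some Q) x hi hj
        change om (some P) x = om (some Q) x * _ at this
        rw [this, mul_comm]

end MP_8bb00a_gt
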