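import Pool.Agent.Lib_MP_8bb00a_gt.BMDef

/-!
Piece L of MP_8bb00a_gt: the explicit unitary frame on the curve (helper54).
-/

open MeasureTheory Complex Set Metric Filter Topology
open scoped Real ContDiff ComplexConjugate Manifold

noncomputable section

namespace Pool.Agent.Lib8bb

namespace Frame

/-! ### matrices -/

/-- `diag (r, 1, r⁻¹) * U^*`, `U = [[a, 0, -conj b], [0, 1, 0], [b, 0, conj a]]` -/
def MG (a b : ℂ) (r : ℝ) : M3 :=
  !![(r : ℂ) * conj a, 0, (r : ℂ) * conj b; 0, 1, 0; -((r : ℂ)⁻¹ * b), 0, (r : ℂ)⁻¹ * a]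

/-- `U * diag (r⁻¹, 1, r)` -/
def MI (a b : ℂ) (r : ℝ) : M3 :=
  !![a * (r : ℂ)⁻¹, 0, -(conj b * (r : ℂ)); 0, 1, 0; b * (r : ℂ)⁻¹, 0, conj a * (r : ℂ)]

theorem MG_mul_MI' {a b : ℂ} {r : ℝ} (hr : 0 < r) {a' b' : ℂ} {r' : ℝ} {ζ : ℂ} (hr' : 0 < r')
    (h : conj a * a + conj b * b = 1) (hζ : ζ ≠ 0)
    (ha : a' = a * (ζ / (‖ζ‖ : ℂ))) (hb : b' = b * (ζ / (‖ζ‖ : ℂ)))
    (hrr : r' = r / ‖ζ‖) :
    MG a b r * MI a' b' r' = Matrix.diagonal ![ζ, 1, ζ⁻¹] := by
  have hr0 : (r : ℂ) ≠ 0 := by exact_mod_cast hr.ne'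
  have hn : ‖ζ‖ ≠ 0 := norm_ne_zero_iff.2 hζ
  have hn0 : ((‖ζ‖ : ℝ) : ℂ) ≠ 0 := by exact_mod_cast hn
  have hc : conj ζ * ζ = (‖ζ‖ : ℂ) ^ 2 := Complex.conj_mul' ζ
  have hc0 : conj ζ ≠ 0 := by simpa using hζ
  have hζi : ζ⁻¹ = conj ζ / (‖ζ‖ : ℂ) ^ 2 := by
    field_simp
    rw [mul_comm]; exact hc.symm
  subst ha hb hrr
  ext i j
  fin_cases i <;> fin_cases j <;>
    simp [MG, MI, Matrix.mul_apply, Fin.sum_univ_three, Matrix.diagonal]
  · field_simp
    linear_combination h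
  · field_simp
    ring
  · field_simp
    ring
  · rw [hζi]
    field_simp
    linear_combination h

theorem MG_mul_MI {a b : ℂ} {r : ℝ} (hr : 0 < r) (h : conj a * a + conj b * b = 1) :
    MG a b r * MI a b r = 1 := by
  have h1 := MG_mul_MI' (a' := a) (b' := b) (r' := r) hr (ζ := 1) hr h one_ne_zero
    (by simp) (by simp) (by simp)
  rw [h1]
  ext i j
  fin_cases i <;> fin_cases j <;> simp [Matrix.diagonal]

theorem MI_mul_MG {a b : ℂ} {r : ℝ} (hr : 0 < r) (h : conj a * a + conj b * b = 1) :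
    MI a b r * MG a b r = 1 := mul_eq_one_comm.1 (MG_mul_MI hr h)

theorem det_MG {a b : ℂ} {r : ℝ} (hr : 0 < r) (h : conj a * a + conj b * b = 1) :
    (MG a b r).det = 1 := by
  have hr0 : (r : ℂ) ≠ 0 := by exact_mod_cast hr.ne'
  rw [Matrix.det_fin_three]
  simp [MG]
  field_simp
  linear_combination h

theorem star_MI_mul {a b : ℂ} {r : ℝ} (h : conj a * a + conj b * b = 1) :
    star (MI a b r) * MI a b r = Matrix.diagonal ![(((r⁻¹) ^ 2 : ℝ) : ℂ), 1, ((r ^ 2 : ℝ) : ℂ)] := by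
  rw [Matrix.star_eq_conjTranspose]
  ext i j
  fin_cases i <;> fin_cases j <;>
    simp [MI, Matrix.mul_apply, Fin.sum_univ_three, Matrix.diagonal]
  · linear_combination ((r : ℂ)⁻¹) ^ 2 * h
  · ring
  · ring
  · linear_combination (r : ℂ) ^ 2 * h

/-! ### smoothness of matrix valued functions -/

section smooth

open scoped Matrix.Norms.Frobenius Matrix

theorem contDiffOn_M3 {n : ℕ∞ω} {f : ℂ → M3} {U : Set ℂ}
    (h : ∀ i j, ContDiffOn ℝ n (fun z => f z i j) U) : ContDiffOn ℝ n f U := by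
  have h1 : f = fun z => ∑ i, ∑ j, f z i j • Matrix.single i j (1:ℂ) := by
    funext z
    conv_lhs => rw [Matrix.matrix_eq_sum_single (f z)]
    refine Finset.sum_congr rfl fun i _ => Finset.sum_congr rfl fun j _ => ?_
    rw [Matrix.smul_single, smul_eq_mul, mul_one]
  rw [h1]
  refine ContDiffOn.sum fun i _ => ContDiffOn.sum fun j _ => ?_
  exact (h i j).smul contDiffOn_const

theorem differentiableOn_M3 {f : ℂ → M3} {U : Set ℂ}
    (h : ∀ i j, DifferentiableOn ℂ (fun z => f z i j) U) : DifferentiableOn ℂ f U := by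
  have h1 : f = fun z => ∑ i, ∑ j, f z i j • Matrix.single i j (1:ℂ) := by
    funext z
    conv_lhs => rw [Matrix.matrix_eq_sum_single (f z)]
    refine Finset.sum_congr rfl fun i _ => Finset.sum_congr rfl fun j _ => ?_
    rw [Matrix.smul_single, smul_eq_mul, mul_one]
  rw [h1]
  refine DifferentiableOn.fun_sum fun i _ => DifferentiableOn.fun_sum fun j _ => ?_
  exact (h i j).smul (differentiableOn_const _)

theorem contDiffOn_conj {n : ℕ∞ω} {f : ℂ → ℂ} {U : Set ℂ} (h : ContDiffOn ℝ n f U) :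
    ContDiffOn ℝ n (fun z => conj (f z)) U :=
  Complex.conjCLE.contDiff.comp_contDiffOn h

theorem contDiffOn_ofReal {n : ℕ∞ω} {f : ℂ → ℝ} {U : Set ℂ} (h : ContDiffOn ℝ n f U) :
    ContDiffOn ℝ n (fun z => ((f z : ℝ) : ℂ)) U :=
  Complex.ofRealCLM.contDiff.comp_contDiffOn h

theorem MG_smooth {n : ℕ∞ω} {a b : ℂ → ℂ} {r : ℂ → ℝ} {U : Set ℂ} (ha : ContDiffOn ℝ n a U)
    (hb : ContDiffOn ℝ n b U) (hr : ContDiffOn ℝ n r U) (hr0 : ∀ z ∈ U, 0 < r z) :
    ContDiffOn ℝ n (fun z => MG (a z) (b z) (r z)) U := by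
  have hrc := contDiffOn_ofReal hr
  have hri : ContDiffOn ℝ n (fun z => ((r z : ℂ))⁻¹) U :=
    hrc.inv fun z hz => by exact_mod_cast (hr0 z hz).ne'
  apply contDiffOn_M3
  intro i j
  fin_cases i <;> fin_cases j <;> simp [MG]
  · exact hrc.mul (contDiffOn_conj ha)
  · exact contDiffOn_const
  · exact hrc.mul (contDiffOn_conj hb)
  · exact contDiffOn_const
  · exact contDiffOn_const
  · exact contDiffOn_const
  · exact (hri.mul hb).neg
  · exact contDiffOn_const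
  · exact hri.mul ha

theorem MI_smooth {n : ℕ∞ω} {a b : ℂ → ℂ} {r : ℂ → ℝ} {U : Set ℂ} (ha : ContDiffOn ℝ n a U)
    (hb : ContDiffOn ℝ n b U) (hr : ContDiffOn ℝ n r U) (hr0 : ∀ z ∈ U, 0 < r z) :
    ContDiffOn ℝ n (fun z => MI (a z) (b z) (r z)) U := by
  have hrc := contDiffOn_ofReal hr
  have hri : ContDiffOn ℝ n (fun z => ((r z : ℂ))⁻¹) U :=
    hrc.inv fun z hz => by exact_mod_cast (hr0 z hz).ne'
  apply contDiffOn_M3
  intro i j
  fin_cases i <;> fin_cases j <;> simp [MI]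
  · exact ha.mul hri
  · exact contDiffOn_const
  · exact ((contDiffOn_conj hb).mul hrc).neg
  · exact contDiffOn_const
  · exact contDiffOn_const
  · exact contDiffOn_const
  · exact hb.mul hri
  · exact contDiffOn_const
  · exact (contDiffOn_conj ha).mul hrc

end smooth

/-! ### the cutoff -/

def chi (z : ℂ) : ℝ := Real.smoothTransition ((16 * ‖z‖ ^ 2 - 1) / 3)

theorem chi_smooth : ContDiff ℝ ∞ chi := by
  unfold chi
  apply Real.smoothTransition.contDiff.comp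
  exact ((contDiff_const.mul (contDiff_norm_sq ℝ)).sub contDiff_const).div_const _

theorem chi_zero {z : ℂ} (hz : ‖z‖ ≤ 1 / 4) : chi z = 0 := by
  apply Real.smoothTransition.zero_of_nonpos
  nlinarith [norm_nonneg z]

theorem chi_one {z : ℂ} (hz : 1 / 2 ≤ ‖z‖) : chi z = 1 := by
  apply Real.smoothTransition.one_of_one_le
  nlinarith [norm_nonneg z]

def cs (z : ℂ) : ℝ := Real.sin (π / 2 * chi z)
def sn (z : ℂ) : ℝ := Real.cos (π / 2 * chi z)

theorem cs_smooth : ContDiff ℝ ∞ cs :=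
  Real.contDiff_sin.comp (contDiff_const.mul chi_smooth)
theorem sn_smooth : ContDiff ℝ ∞ sn :=
  Real.contDiff_cos.comp (contDiff_const.mul chi_smooth)

theorem cs_zero {z : ℂ} (hz : ‖z‖ ≤ 1 / 4) : cs z = 0 := by
  rw [cs, chi_zero hz]; simp
theorem cs_one {z : ℂ} (hz : 1 / 2 ≤ ‖z‖) : cs z = 1 := by
  rw [cs, chi_one hz]; simp
theorem sn_one {z : ℂ} (hz : ‖z‖ ≤ 1 / 4) : sn z = 1 := by
  rw [sn, chi_zero hz]; simp
theorem sn_zero {z : ℂ} (hz : 1 / 2 ≤ ‖z‖) : sn z = 0 := by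
  rw [sn, chi_one hz]; simp

theorem cs_sn (z : ℂ) : cs z ^ 2 + sn z ^ 2 = 1 := Real.sin_sq_add_cos_sq _

def gg (z : ℂ) : ℝ := cs z / ‖z‖

theorem gg_smooth : ContDiff ℝ ∞ gg := by
  rw [contDiff_iff_contDiffAt]
  intro z
  by_cases hz : z = 0
  · subst hz
    have h1 : gg =ᶠ[𝓝 0] fun _ => 0 := by
      filter_upwards [Metric.closedBall_mem_nhds (0:ℂ) (by norm_num : (0:ℝ) < 1 / 4)] with w hw
      rw [gg, cs_zero (by simpa using hw), zero_div]
    exact contDiffAt_const.congr_of_eventuallyEq h1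
  · exact cs_smooth.contDiffAt.div (contDiffAt_norm ℝ hz) (norm_ne_zero_iff.2 hz)

def Sa (z : ℂ) : ℂ := conj z * (gg z : ℂ)
def Sb (z : ℂ) : ℂ := (sn z : ℂ)

theorem Sa_smooth : ContDiff ℝ ∞ Sa :=
  Complex.conjCLE.contDiff.mul (Complex.ofRealCLM.contDiff.comp gg_smooth)
theorem Sb_smooth : ContDiff ℝ ∞ Sb := Complex.ofRealCLM.contDiff.comp sn_smooth

theorem S_unit (z : ℂ) : conj (Sa z) * Sa z + conj (Sb z) * Sb z = 1 := by
  have h1 : ‖z‖ * gg z = cs z := by
    by_cases hz : z = 0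
    · subst hz
      rw [cs_zero (by simp), norm_zero, zero_mul]
    · rw [gg, mul_div_cancel₀ _ (norm_ne_zero_iff.2 hz)]
  have h2 : conj z * z = (‖z‖ : ℂ) ^ 2 := Complex.conj_mul' z
  have h3 : ((‖z‖ : ℂ) * (gg z : ℂ)) ^ 2 + (sn z : ℂ) ^ 2 = 1 := by
    rw [← Complex.ofReal_mul, h1]
    exact_mod_cast cs_sn z
  simp only [Sa, Sb, map_mul, Complex.conj_conj, Complex.conj_ofReal]
  linear_combination h3 + (gg z : ℂ) ^ 2 * h2

def Ra (z : ℂ) : ℂ := Sa z * (z / (‖z‖ : ℂ))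
def Rb (z : ℂ) : ℂ := Sb z * (z / (‖z‖ : ℂ))

theorem dir_smooth {z : ℂ} (hz : z ≠ 0) : ContDiffAt ℝ ∞ (fun z : ℂ => z / (‖z‖ : ℂ)) z := by
  have h1 : ContDiffAt ℝ ∞ (fun z : ℂ => ((‖z‖ : ℝ) : ℂ)) z :=
    Complex.ofRealCLM.contDiff.contDiffAt.comp z (contDiffAt_norm ℝ hz)
  have h2 : ((‖z‖ : ℝ) : ℂ) ≠ 0 := by exact_mod_cast norm_ne_zero_iff.2 hz
  have h3 : ContDiffAt ℝ ∞ (fun z : ℂ => z * ((‖z‖ : ℝ) : ℂ)⁻¹) z := contDiffAt_id.mul (h1.inv h2)
  exact h3

theorem Ra_smooth {z : ℂ} (hz : z ≠ 0) : ContDiffAt ℝ ∞ Ra z :=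
  Sa_smooth.contDiffAt.mul (dir_smooth hz)
theorem Rb_smooth {z : ℂ} (hz : z ≠ 0) : ContDiffAt ℝ ∞ Rb z :=
  Sb_smooth.contDiffAt.mul (dir_smooth hz)

theorem R_unit {z : ℂ} (hz : z ≠ 0) : conj (Ra z) * Ra z + conj (Rb z) * Rb z = 1 := by
  have h := S_unit z
  have h2 : conj z * z = (‖z‖ : ℂ) ^ 2 := Complex.conj_mul' z
  have hn0 : ((‖z‖ : ℝ) : ℂ) ≠ 0 := by exact_mod_cast norm_ne_zero_iff.2 hz
  simp only [Ra, Rb, map_mul, map_div₀, Complex.conj_ofReal]
  have h3 : conj z / (‖z‖ : ℂ) * (z / (‖z‖ : ℂ)) = 1 := by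
    field_simp
    exact h2
  linear_combination (conj (Sa z) * Sa z + conj (Sb z) * Sb z) * h3 + h

theorem Ra_one {z : ℂ} (hz : 1 / 2 ≤ ‖z‖) : Ra z = 1 := by
  have h2 : conj z * z = (‖z‖ : ℂ) ^ 2 := Complex.conj_mul' z
  have hn : ‖z‖ ≠ 0 := by
    intro h; rw [h] at hz; norm_num at hz
  have hn0 : ((‖z‖ : ℝ) : ℂ) ≠ 0 := by exact_mod_cast hn
  rw [Ra, Sa, gg, cs_one hz]
  push_cast
  field_simp
  linear_combination h2

theorem Rb_zero {z : ℂ} (hz : 1 / 2 ≤ ‖z‖) : Rb z = 0 := by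
  rw [Rb, Sb, sn_zero hz]; simp

/-! ### extension to the curve -/

open scoped Classical in
/-- extension of a function near infinity by a constant -/
def ext1 (F : ℂ → ℂ) (c : ℂ) (x : Crv) : ℂ := if x ∈ eInf.source then F (eInf x) else c

theorem eAff_mem (P : AffC) : eAff P ∈ atlas ℂ Crv := Or.inr ⟨P, rfl⟩
theorem eInf_mem : eInf ∈ atlas ℂ Crv := Or.inl rfl

theorem trans_ne_zero (P : AffC) {z : ℂ} (hz : z ∈ dom (eAff P) eInf) :
    trans (eAff P) eInf z ≠ 0 := by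
  have h2 : (eAff P).symm z ∈ eInf.source := hz.2
  rw [eAff_symm, coe_mem_eInf_source] at h2
  rw [trans, eAff_symm, eInf_coe]
  exact (zInf_facts h2).1

theorem ext1_smooth {F : ℂ → ℂ} {c : ℂ} (hF : ∀ z ≠ 0, ContDiffAt ℝ ∞ F z)
    (hc : ∀ z, 1 / 2 ≤ ‖z‖ → F z = c) (P : AffC) :
    ContDiffOn ℝ ∞ (fun z => ext1 F c ((eAff P).symm z)) (eAff P).target := by
  intro z hz
  apply ContDiffAt.contDiffWithinAt
  by_cases h : (eAff P).symm z ∈ eInf.source
  · have hd : z ∈ dom (eAff P) eInf := ⟨hz, h⟩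
    have h1 : (fun z => ext1 F c ((eAff P).symm z)) =ᶠ[𝓝 z] F ∘ (trans (eAff P) eInf) := by
      filter_upwards [(isOpen_dom (eAff P) eInf).mem_nhds hd] with w hw
      have : (eAff P).symm w ∈ eInf.source := hw.2
      simp only [ext1, if_pos this, Function.comp_apply, trans]
    refine ContDiffAt.congr_of_eventuallyEq ?_ h1
    refine ContDiffAt.comp z (hF _ (trans_ne_zero P hd)) ?_
    have h2 := (trans_contDiffOn (eAff_mem P) eInf_mem).contDiffAt
      ((isOpen_dom (eAff P) eInf).mem_nhds hd)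
    exact (h2.restrict_scalars ℝ).of_le le_top
  · have h1 : (fun z => ext1 F c ((eAff P).symm z)) =ᶠ[𝓝 z] fun _ => c := by
      have hx : ‖((affCh P).symm z).1.1‖ ≤ 1 := by
        rw [eAff_symm, coe_mem_eInf_source] at h
        exact not_lt.1 h
      have hc' : ContinuousAt (fun w => ‖((affCh P).symm w).1.1‖) z :=
        (diffAt_x_affCh P hz).continuousAt.norm
      have hx4 : ‖((affCh P).symm z).1.1‖ < 4 := by linarith
      filter_upwards [hc'.eventually (gt_mem_nhds hx4)] with w hw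
      unfold ext1
      split_ifs with hs
      · apply hc
        rw [eAff_symm, coe_mem_eInf_source] at hs
        rw [eAff_symm, eInf_coe]
        obtain ⟨g0, g1, g2⟩ := zInf_facts hs
        have g3 : ‖zInf ((affCh P).symm w)‖ ^ 2 = ‖((affCh P).symm w).1.1‖⁻¹ := by
          rw [← norm_pow, g1, norm_inv]
        have g4 : (4:ℝ)⁻¹ < ‖((affCh P).symm w).1.1‖⁻¹ :=
          inv_strictAnti₀ (by linarith) hw
        by_contra hlt
        push Not at hlt
        nlinarith [norm_nonneg (zInf ((affCh P).symm w))]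
      · rfl
    exact contDiffAt_const.congr_of_eventuallyEq h1

theorem eAff_ne (P : AffC) : eAff P ≠ eInf := by
  intro h
  apply infty_notMem P
  rw [h]
  exact infty_mem_source

/-! ### the bundle -/

variable (u : Crv → ℝ) (s : ℂ → ℝ)

/-- functions on the affine curve -/
def Fa (x : Crv) : ℂ := ext1 Ra 1 x
def Fb (x : Crv) : ℂ := ext1 Rb 0 x

theorem F_unit (P : AffC) {z : ℂ} (hz : z ∈ (eAff P).target) :
    conj (Fa ((eAff P).symm z)) * Fa ((eAff P).symm z) +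
      conj (Fb ((eAff P).symm z)) * Fb ((eAff P).symm z) = 1 := by
  unfold Fa Fb ext1
  split_ifs with h
  · exact R_unit (trans_ne_zero P ⟨hz, h⟩)
  · simp

open scoped Classical in
def bG (e : OpenPartialHomeomorph Crv ℂ) (z : ℂ) : M3 :=
  if e = eInf then MG (Sa z) (Sb z) (Real.exp (s z / 2))
  else MG (Fa (e.symm z)) (Fb (e.symm z)) (Real.exp (u (e.symm z) / 2))

open scoped Classical in
def bGi (e : OpenPartialHomeomorph Crv ℂ) (z : ℂ) : M3 :=
  if e = eInf then MI (Sa z) (Sb z) (Real.exp (s z / 2))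
  else MI (Fa (e.symm z)) (Fb (e.symm z)) (Real.exp (u (e.symm z) / 2))

theorem bG_inf (z : ℂ) : bG u s eInf z = MG (Sa z) (Sb z) (Real.exp (s z / 2)) := if_pos rfl
theorem bGi_inf (z : ℂ) : bGi u s eInf z = MI (Sa z) (Sb z) (Real.exp (s z / 2)) := if_pos rfl
theorem bG_aff (P : AffC) (z : ℂ) : bG u s (eAff P) z =
    MG (Fa ((eAff P).symm z)) (Fb ((eAff P).symm z)) (Real.exp (u ((eAff P).symm z) / 2)) :=
  if_neg (eAff_ne P)
theorem bGi_aff (P : AffC) (z : ℂ) : bGi u s (eAff P) z =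
    MI (Fa ((eAff P).symm z)) (Fb ((eAff P).symm z)) (Real.exp (u ((eAff P).symm z) / 2)) :=
  if_neg (eAff_ne P)

theorem atlas_cases {e : OpenPartialHomeomorph Crv ℂ} (he : e ∈ atlas ℂ Crv) :
    e = eInf ∨ ∃ P, e = eAff P := by
  rcases he with he | ⟨P, rfl⟩
  · left; exact he
  · right; exact ⟨P, rfl⟩

theorem bG_mul_bGi {e : OpenPartialHomeomorph Crv ℂ} (he : e ∈ atlas ℂ Crv) {z : ℂ}
    (hz : z ∈ e.target) : bG u s e z * bGi u s e z = 1 := by
  rcases atlas_cases he with rfl | ⟨P, rfl⟩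
  · rw [bG_inf, bGi_inf]
    exact MG_mul_MI (Real.exp_pos _) (S_unit z)
  · rw [bG_aff, bGi_aff]
    exact MG_mul_MI (Real.exp_pos _) (F_unit P hz)

theorem aff_aff (P Q : AffC) {z : ℂ} (hz : z ∈ dom (eAff P) (eAff Q)) :
    bG u s (eAff Q) (trans (eAff P) (eAff Q) z) * bGi u s (eAff P) z = 1 := by
  rw [bG_aff, bGi_aff, symm_trans hz]
  exact MG_mul_MI (Real.exp_pos _) (F_unit P hz.1)

theorem aff_inf {u : Crv → ℝ} {s : ℂ → ℝ} (h : BaseMetric u s) (P : AffC) {z : ℂ}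
    (hz : z ∈ dom (eAff P) eInf) :
    bG u s eInf (trans (eAff P) eInf z) * bGi u s (eAff P) z =
      Matrix.diagonal ![trans (eAff P) eInf z, 1, (trans (eAff P) eInf z)⁻¹] := by
  have h0 := trans_ne_zero P hz
  have ht : trans (eAff P) eInf z ∈ ball (0:ℂ) 1 := trans_mem_target hz
  have hs : (eAff P).symm z ∈ eInf.source := hz.2
  have hu := h.s_u _ ht h0
  rw [symm_trans hz] at hu
  rw [bG_inf, bGi_aff]
  refine MG_mul_MI' (Real.exp_pos _) (Real.exp_pos _) (S_unit _) h0 ?_ ?_ ?_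
  · simp only [Fa, ext1, if_pos hs]; rfl
  · simp only [Fb, ext1, if_pos hs]; rfl
  · rw [hu, sub_div, Real.exp_sub, mul_div_cancel_left₀ _ two_ne_zero,
      Real.exp_log (norm_pos_iff.2 h0)]

section smooth2

open scoped Matrix.Norms.Frobenius Matrix

theorem bG_smooth {u : Crv → ℝ} {s : ℂ → ℝ} (h : BaseMetric u s)
    {e : OpenPartialHomeomorph Crv ℂ} (he : e ∈ atlas ℂ Crv) :
    ContDiffOn ℝ ∞ (bG u s e) e.target ∧ ContDiffOn ℝ ∞ (bGi u s e) e.target := by
  rcases atlas_cases he with rfl | ⟨P, rfl⟩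
  · have h1 : ContDiffOn ℝ ∞ (fun z => Real.exp (s z / 2)) (eInf.target) :=
      (h.s_smooth.div_const 2).exp
    constructor
    · exact (MG_smooth Sa_smooth.contDiffOn Sb_smooth.contDiffOn h1
        (fun z _ => Real.exp_pos _)).congr fun z _ => bG_inf u s z
    · exact (MI_smooth Sa_smooth.contDiffOn Sb_smooth.contDiffOn h1
        (fun z _ => Real.exp_pos _)).congr fun z _ => bGi_inf u s z
  · have h1 : ContDiffOn ℝ ∞ (fun z => Real.exp (u ((eAff P).symm z) / 2)) (eAff P).target :=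
      ((h.u_smooth P).div_const 2).exp
    have ha : ContDiffOn ℝ ∞ (fun z => Fa ((eAff P).symm z)) (eAff P).target :=
      ext1_smooth (fun z hz => Ra_smooth hz) (fun z hz => Ra_one hz) P
    have hb : ContDiffOn ℝ ∞ (fun z => Fb ((eAff P).symm z)) (eAff P).target :=
      ext1_smooth (fun z hz => Rb_smooth hz) (fun z hz => Rb_zero hz) P
    constructor
    · exact (MG_smooth ha hb h1 (fun z _ => Real.exp_pos _)).congr fun z _ => bG_aff u s P z
    · exact (MI_smooth ha hb h1 (fun z _ => Real.exp_pos _)).congr fun z _ => bGi_aff u s P z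

theorem diff_diag {f : ℂ → ℂ} {U : Set ℂ} (hf : DifferentiableOn ℂ f U) (h0 : ∀ z ∈ U, f z ≠ 0) :
    DifferentiableOn ℂ (fun z => (Matrix.diagonal ![f z, 1, (f z)⁻¹] : M3)) U := by
  have hc : ∀ c : ℂ, DifferentiableOn ℂ (fun _ : ℂ => c) U := fun c => differentiableOn_const c
  apply differentiableOn_M3
  intro i j
  fin_cases i <;> fin_cases j <;> simp [Matrix.diagonal]
  all_goals first | exact hf | exact hf.inv h0

/-- the bundle -/
def bun {u : Crv → ℝ} {s : ℂ → ℝ} (h : BaseMetric u s) : Bun Crv M3 where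
  G := bG u s
  Gi := bGi u s
  G_smooth e he := (bG_smooth h he).1
  Gi_smooth e he := (bG_smooth h he).2
  mul_Gi e he z hz := bG_mul_bGi u s he hz
  Gi_mul e he z hz := mul_eq_one_comm.1 (bG_mul_bGi u s he hz)
  holo e he e' he' := by
    rcases atlas_cases he with rfl | ⟨P, rfl⟩ <;> rcases atlas_cases he' with rfl | ⟨Q, rfl⟩
    · refine (differentiableOn_const (1 : M3)).congr fun z hz => ?_
      rw [trans_self hz.1]
      exact bG_mul_bGi u s he hz.1
    · have hne : ∀ z ∈ dom eInf (eAff Q), z ≠ 0 := by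
        intro z hz h0
        have := trans_ne_zero Q (trans_mem_dom hz)
        rw [trans_trans hz] at this
        exact this h0
      have hd := diff_diag (f := fun z => z⁻¹) (U := dom eInf (eAff Q))
        (differentiableOn_id.inv hne) (fun z hz => inv_ne_zero (hne z hz))
      refine hd.congr fun z hz => ?_
      have h1 := aff_inf h Q (trans_mem_dom hz)
      rw [trans_trans hz] at h1
      have h2 := bG_mul_bGi u s he hz.1
      have h3 := bG_mul_bGi u s he' (trans_mem_target hz)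
      have h2' := mul_eq_one_comm.1 h2
      have h3' := mul_eq_one_comm.1 h3
      have hz0 := hne z hz
      have h4 : (bG u s (eAff Q) (trans eInf (eAff Q) z) * bGi u s eInf z) *
          Matrix.diagonal ![z, 1, z⁻¹] = 1 := by
        rw [← h1]
        calc _ = bG u s (eAff Q) (trans eInf (eAff Q) z) * (bGi u s eInf z * bG u s eInf z) *
              bGi u s (eAff Q) (trans eInf (eAff Q) z) := by simp only [mul_assoc]
          _ = 1 := by rw [h2', mul_one, h3]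
      have h5 : (Matrix.diagonal ![z, 1, z⁻¹] : M3) * Matrix.diagonal ![z⁻¹, 1, (z⁻¹)⁻¹] = 1 := by
        rw [Matrix.diagonal_mul_diagonal, ← Matrix.diagonal_one]
        congr 1
        funext i
        fin_cases i <;> simp [hz0]
      calc _ = (bG u s (eAff Q) (trans eInf (eAff Q) z) * bGi u s eInf z) *
            (Matrix.diagonal ![z, 1, z⁻¹] * Matrix.diagonal ![z⁻¹, 1, (z⁻¹)⁻¹]) := by
              rw [h5, mul_one]
        _ = _ := by rw [← mul_assoc, h4, one_mul]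
    · have hd := diff_diag (trans_holo (eAff_mem P) eInf_mem) (fun z hz => trans_ne_zero P hz)
      exact hd.congr fun z hz => aff_inf h P hz
    · exact (differentiableOn_const (1 : M3)).congr fun z hz => aff_aff u s P Q hz

end smooth2

end Frame

section L

open scoped Matrix.Norms.Frobenius Matrix

theorem exists_frame {u : Crv → ℝ} {s : ℂ → ℝ} (h : BaseMetric u s) :
    ∃ b : Bun Crv M3,
      (∀ e ∈ atlas ℂ Crv, ∀ z ∈ e.target, (b.G e z).det = 1) ∧
      (∀ P Q, ∀ z ∈ dom (eAff P) (eAff Q),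
        b.G (eAff Q) (trans (eAff P) (eAff Q) z) * b.Gi (eAff P) z = 1) ∧
      (∀ P, ∀ z ∈ dom (eAff P) eInf,
        b.G eInf (trans (eAff P) eInf z) * b.Gi (eAff P) z =
          Matrix.diagonal ![trans (eAff P) eInf z, 1, (trans (eAff P) eInf z)⁻¹]) ∧
      (∀ P, ∀ z ∈ (eAff P).target, star (b.Gi (eAff P) z) * b.Gi (eAff P) z =
        Matrix.diagonal ![((Real.exp (-u ((eAff P).symm z)) : ℝ) : ℂ), 1,
          ((Real.exp (u ((eAff P).symm z)) : ℝ) : ℂ)]) ∧
      (∀ z ∈ eInf.target, star (b.Gi eInf z) * b.Gi eInf z =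
        Matrix.diagonal ![((Real.exp (-s z) : ℝ) : ℂ), 1, ((Real.exp (s z) : ℝ) : ℂ)]) := by
  have e1 : ∀ t : ℝ, ((Real.exp (t / 2))⁻¹) ^ 2 = Real.exp (-t) := by
    intro t
    rw [← Real.exp_neg, ← Real.exp_nat_mul]
    congr 1; push_cast; ring
  have e2 : ∀ t : ℝ, (Real.exp (t / 2)) ^ 2 = Real.exp t := by
    intro t
    rw [← Real.exp_nat_mul]
    congr 1; push_cast; ring
  refine ⟨Frame.bun h, ?_, ?_, ?_, ?_, ?_⟩
  · intro e he z hz
    show (Frame.bG u s e z).det = 1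
    rcases Frame.atlas_cases he with rfl | ⟨P, rfl⟩
    · rw [Frame.bG_inf]
      exact Frame.det_MG (Real.exp_pos _) (Frame.S_unit z)
    · rw [Frame.bG_aff]
      exact Frame.det_MG (Real.exp_pos _) (Frame.F_unit P hz)
  · intro P Q z hz
    exact Frame.aff_aff u s P Q hz
  · intro P z hz
    exact Frame.aff_inf h P hz
  · intro P z hz
    show star (Frame.bGi u s (eAff P) z) * Frame.bGi u s (eAff P) z = _
    rw [Frame.bGi_aff, Frame.star_MI_mul (Frame.F_unit P hz), e1, e2]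
  · intro z hz
    show star (Frame.bGi u s eInf z) * Frame.bGi u s eInf z = _
    rw [Frame.bGi_inf, Frame.star_MI_mul (Frame.S_unit z), e1, e2]

end L

end Pool.Agent.Lib8bb
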