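import Pool.Agent.Lib_MP_8bb00a_gt.Pert6

/-!
The perturbation theorem for rank three Higgs bundles.
-/

open MeasureTheory Complex Set Metric Filter Topology
open scoped Real ContDiff ComplexConjugate Manifold

noncomputable section

namespace Pool.Agent.Lib8bb

section inner

open scoped Matrix.Norms.Frobenius Matrix ComplexOrder

attribute [-instance] instTopologicalSpaceMatrix Matrix.instUniformSpace

variable {X : Type*} [TopologicalSpace X] [ChartedSpace ℂ X] [IsManifold 𝓘(ℂ) ω X]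
  [CompactSpace X] [T2Space X] [MeasurableSpace X] [BorelSpace X]

theorem exists_k (D : SurfData X) (b : Bun X M3)
    {φ₀ φ₁ : OpenPartialHomeomorph X ℂ → ℂ → M3} (h₀ : Hig X M3 φ₀) (h₁ : Hig X M3 φ₁)
    (hbase : ∀ e ∈ atlas ℂ X, ∀ z ∈ e.target,
      Fc (b.B e) z = star (φ₀ e z) * φ₀ e z - φ₀ e z * star (φ₀ e z))
    (p : X) (hnd : ∀ e ∈ atlas ℂ X, ∀ z ∈ e.target, e.symm z ≠ p → ∀ a : M3, star a = a →
      φ₀ e z * a = a * φ₀ e z → Matrix.trace a = 0 → a = 0) :
    ∃ t0 > 0, ∀ t : ℝ, |t| < t0 → ∃ k ki : X → M3, (∀ x, (k x).PosDef) ∧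
      (∀ x, k x * ki x = 1) ∧ (∀ x, ki x * k x = 1) ∧ ∀ e ∈ atlas ℂ X,
      ContDiffOn ℝ ∞ (fun z => k (e.symm z)) e.target ∧ ∀ z ∈ e.target,
      Db (b.B e) (fun x => ki (e.symm x) * Dd (b.B e) (fun y => k (e.symm y)) x) z =
      Rhs Matrix.det (D.n e z) (Fc (b.B e) z) (φ₀ e z + t • φ₁ e z) (k (e.symm z))
        (ki (e.symm z)) := by
  obtain ⟨trL, htr, hst⟩ := detC_strict (X := X)
  obtain ⟨t0, ht0, h⟩ := perturb_abs D b h₀ h₁ hbase p (fun e he z hz hp a ha h1 h2 =>
    hnd e he z hz hp a ha h1 h2) Matrix.det Matrix.det_one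
    (fun a => Matrix.det_conjTranspose a) contDiff_det detC trL (fun k x => rfl) htr hst
  refine ⟨t0, ht0, fun t ht => ?_⟩
  obtain ⟨w, hw, hw1, hk⟩ := h t ht
  have hu : IsUnit (1 + w) := isUnit_one_add hw1
  have hk1 : (1 + w) * Ring.inverse (1 + w) = 1 := Ring.mul_inverse_cancel _ hu
  have hk2 : Ring.inverse (1 + w) * (1 + w) = 1 := Ring.inverse_mul_cancel _ hu
  refine ⟨fun x => 1 + w x, fun x => Ring.inverse (1 + w) x, fun x => ?_, fun x => ?_,
    fun x => ?_, hk⟩
  · exact posDef_one_add (hw.2 x) (lt_of_le_of_lt (w.norm_coe_le_norm x) hw1)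
  · have := congrArg (fun f : C(X, M3) => f x) hk1
    simpa using this
  · have := congrArg (fun f : C(X, M3) => f x) hk2
    simpa using this

end inner

section M

open scoped Matrix.Norms.Frobenius Matrix ComplexOrder

variable {X : Type*} [TopologicalSpace X] [ChartedSpace ℂ X] [IsManifold 𝓘(ℂ) ω X]
  [CompactSpace X] [T2Space X] [MeasurableSpace X] [BorelSpace X]

theorem two_le_infty_p : (2 : ℕ∞ω) ≤ ∞ := by
  norm_cast

theorem trace_comm_zero (A B : M3) : Matrix.trace (A * B - B * A) = 0 := by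
  rw [Matrix.trace_sub, Matrix.trace_mul_comm, sub_self]

/-- nondegeneracy in the unitary frame -/
theorem nondeg_frame (b : Bun X M3) (Φ₀ : OpenPartialHomeomorph X ℂ → ℂ → M3) (p : X)
    (nondeg : ∀ e ∈ atlas ℂ X, ∀ z ∈ e.target, e.symm z ≠ p → ∀ a : M3,
      a * Φ₀ e z = Φ₀ e z * a →
      b.G e z * star (b.G e z) * star a * (star (b.Gi e z) * b.Gi e z) = a →
      Matrix.trace a = 0 → a = 0) :
    ∀ e ∈ atlas ℂ X, ∀ z ∈ e.target, e.symm z ≠ p → ∀ a : M3, star a = a →
      uF b Φ₀ e z * a = a * uF b Φ₀ e z → Matrix.trace a = 0 → a = 0 := by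
  intro e he z hz hp a ha hc ht
  have h1 := b.Gi_mul e he z hz
  have h1' := b.mul_Gi e he z hz
  have h1s : star (b.G e z) * star (b.Gi e z) = 1 := by rw [← star_mul, h1, star_one]
  have h2 : b.G e z * a * b.Gi e z = 0 := by
    refine nondeg e he z hz hp _ ?_ ?_ ?_
    · have e1 : b.G e z * a * b.Gi e z * Φ₀ e z = b.G e z * (a * uF b Φ₀ e z) * b.Gi e z := by
        rw [uF]
        calc b.G e z * a * b.Gi e z * Φ₀ e z = b.G e z * a * b.Gi e z * Φ₀ e z *
              (b.G e z * b.Gi e z) := by rw [h1', mul_one]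
          _ = _ := by simp only [mul_assoc]
      have e2 : Φ₀ e z * (b.G e z * a * b.Gi e z) = b.G e z * (uF b Φ₀ e z * a) * b.Gi e z := by
        rw [uF]
        calc Φ₀ e z * (b.G e z * a * b.Gi e z) = (b.G e z * b.Gi e z) * (Φ₀ e z *
              (b.G e z * a * b.Gi e z)) := by rw [h1', one_mul]
          _ = _ := by simp only [mul_assoc]
      rw [e1, e2, hc]
    · rw [star_mul, star_mul, ha]
      calc b.G e z * star (b.G e z) * (star (b.Gi e z) * (a * star (b.G e z))) *
            (star (b.Gi e z) * b.Gi e z) = b.G e z * (star (b.G e z) * star (b.Gi e z)) * a *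
              (star (b.G e z) * star (b.Gi e z)) * b.Gi e z := by simp only [mul_assoc]
        _ = _ := by rw [h1s, mul_one, mul_one]
    · rw [Matrix.trace_mul_comm, ← mul_assoc, h1, one_mul]; exact ht
  calc a = (b.Gi e z * b.G e z) * a * (b.Gi e z * b.G e z) := by rw [h1, one_mul, mul_one]
    _ = b.Gi e z * (b.G e z * a * b.Gi e z) * b.G e z := by simp only [mul_assoc]
    _ = 0 := by rw [h2, mul_zero, zero_mul]

theorem perturb (b : Bun X M3) (hdet : ∀ e ∈ atlas ℂ X, ∀ z ∈ e.target, (b.G e z).det = 1)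
    (Φ₀ Φ₁ : OpenPartialHomeomorph X ℂ → ℂ → M3)
    (hol₀ : ∀ e ∈ atlas ℂ X, DifferentiableOn ℂ (Φ₀ e) e.target)
    (hol₁ : ∀ e ∈ atlas ℂ X, DifferentiableOn ℂ (Φ₁ e) e.target)
    (comp₀ : ∀ e ∈ atlas ℂ X, ∀ e' ∈ atlas ℂ X, ∀ z ∈ dom e e',
      b.T e e' z * Φ₀ e z = deriv (trans e e') z • (Φ₀ e' (trans e e' z) * b.T e e' z))
    (comp₁ : ∀ e ∈ atlas ℂ X, ∀ e' ∈ atlas ℂ X, ∀ z ∈ dom e e',
      b.T e e' z * Φ₁ e z = deriv (trans e e') z • (Φ₁ e' (trans e e' z) * b.T e e' z))
    (base : ∀ e ∈ atlas ℂ X, ∀ z ∈ e.target,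
      dzb (fun x => b.G e x * star (b.G e x) * dz (fun y => star (b.Gi e y) * b.Gi e y) x) z =
        Φ₀ e z * (b.G e z * star (b.G e z) * star (Φ₀ e z) * (star (b.Gi e z) * b.Gi e z)) -
        (b.G e z * star (b.G e z) * star (Φ₀ e z) * (star (b.Gi e z) * b.Gi e z)) * Φ₀ e z)
    (p : X)
    (nondeg : ∀ e ∈ atlas ℂ X, ∀ z ∈ e.target, e.symm z ≠ p → ∀ a : M3,
      a * Φ₀ e z = Φ₀ e z * a →
      b.G e z * star (b.G e z) * star a * (star (b.Gi e z) * b.Gi e z) = a →
      Matrix.trace a = 0 → a = 0) :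
    ∃ t0 > 0, ∀ t : ℝ, |t| < t0 → ∃ h : OpenPartialHomeomorph X ℂ → ℂ → M3,
      (∀ e ∈ atlas ℂ X, ContDiffOn ℝ ∞ (h e) e.target) ∧
      (∀ e ∈ atlas ℂ X, ∀ z ∈ e.target, (h e z).PosDef ∧ (h e z).det = 1) ∧
      (∀ e ∈ atlas ℂ X, ∀ e' ∈ atlas ℂ X, ∀ z ∈ dom e e',
        h e z = star (b.T e e' z) * h e' (trans e e' z) * b.T e e' z) ∧
      (∀ e ∈ atlas ℂ X, ∀ z ∈ e.target,
        dzb (fun x => (h e x)⁻¹ * dz (h e) x) z =
          (Φ₀ e z + (t : ℂ) • Φ₁ e z) *
            ((h e z)⁻¹ * star (Φ₀ e z + (t : ℂ) • Φ₁ e z) * h e z) -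
          ((h e z)⁻¹ * star (Φ₀ e z + (t : ℂ) • Φ₁ e z) * h e z) *
            (Φ₀ e z + (t : ℂ) • Φ₁ e z)) := by
  obtain ⟨D⟩ := exists_surfData (X := X)
  have h₀ := uF_hig b hol₀ comp₀
  have h₁ := uF_hig b hol₁ comp₁
  have hb := base_Fc b base
  have hnd := nondeg_frame b Φ₀ p nondeg
  obtain ⟨t0, ht0, H⟩ := exists_k D b h₀ h₁ hb p hnd
  refine ⟨t0, ht0, fun t ht => ?_⟩
  obtain ⟨k, ki, kpos, hk1, hk2, hk⟩ := H t ht
  have hdetGi : ∀ e ∈ atlas ℂ X, ∀ z ∈ e.target, (b.Gi e z).det = 1 := by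
    intro e he z hz
    have h1 := congrArg Matrix.det (b.mul_Gi e he z hz)
    rw [Matrix.det_mul, hdet e he z hz, one_mul, Matrix.det_one] at h1
    exact h1
  set h : OpenPartialHomeomorph X ℂ → ℂ → M3 := fun e z =>
    star (b.Gi e z) * k (e.symm z) * b.Gi e z with hh
  have hsmooth : ∀ e ∈ atlas ℂ X, ContDiffOn ℝ ∞ (h e) e.target := by
    intro e he
    exact ((contDiffOn_star (b.Gi_smooth e he)).mul (hk e he).1).mul (b.Gi_smooth e he)
  have hunit : ∀ e ∈ atlas ℂ X, ∀ z ∈ e.target, IsUnit (b.Gi e z) := by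
    intro e he z hz
    exact IsUnit.of_mul_eq_one _ (b.Gi_mul e he z hz)
  have hpos : ∀ e ∈ atlas ℂ X, ∀ z ∈ e.target, (h e z).PosDef := by
    intro e he z hz
    exact (Matrix.IsUnit.posDef_star_left_conjugate_iff (hunit e he z hz)).mpr (kpos _)
  have hdeth : ∀ e ∈ atlas ℂ X, ∀ z ∈ e.target, (h e z).det = (k (e.symm z)).det := by
    intro e he z hz
    simp only [hh, Matrix.det_mul, hdetGi e he z hz, mul_one]
    have : (star (b.Gi e z)).det = 1 := by
      rw [Matrix.star_eq_conjTranspose, Matrix.det_conjTranspose, hdetGi e he z hz, star_one]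
    rw [this, one_mul]
  have hinv : ∀ e ∈ atlas ℂ X, ∀ z ∈ e.target,
      (h e z)⁻¹ = b.G e z * ki (e.symm z) * star (b.G e z) := by
    intro e he z hz
    apply Matrix.inv_eq_left_inv
    have h1 := b.Gi_mul e he z hz
    have h1' := b.mul_Gi e he z hz
    have h1s : star (b.G e z) * star (b.Gi e z) = 1 := by rw [← star_mul, h1, star_one]
    calc b.G e z * ki (e.symm z) * star (b.G e z) * (star (b.Gi e z) * k (e.symm z) * b.Gi e z)
        = b.G e z * ki (e.symm z) * (star (b.G e z) * star (b.Gi e z)) * k (e.symm z) *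
          b.Gi e z := by simp only [mul_assoc]
      _ = b.G e z * (ki (e.symm z) * k (e.symm z)) * b.Gi e z := by
          rw [h1s, mul_one]; simp only [mul_assoc]
      _ = 1 := by rw [hk2, mul_one, h1']
  -- the equation with the determinant term
  have heq : ∀ e ∈ atlas ℂ X, ∀ z ∈ e.target,
      dzb (fun x => (h e x)⁻¹ * dz (h e) x) z =
        ((Φ₀ e z + (t : ℂ) • Φ₁ e z) *
            ((h e z)⁻¹ * star (Φ₀ e z + (t : ℂ) • Φ₁ e z) * h e z) -
          ((h e z)⁻¹ * star (Φ₀ e z + (t : ℂ) • Φ₁ e z) * h e z) *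
            (Φ₀ e z + (t : ℂ) • Φ₁ e z)) +
          D.n e z • (((k (e.symm z)).det - 1) • (1 : M3)) := by
    intro e he z hz
    have h2 : (fun x => (h e x)⁻¹ * dz (h e) x) =ᶠ[𝓝 z] fun x => b.G e x * ki (e.symm x) *
        star (b.G e x) * dz (fun y => star (b.Gi e y) * k (e.symm y) * b.Gi e y) x := by
      filter_upwards [e.open_target.mem_nhds hz] with x hx
      rw [hinv e he x hx]
    have hki : ContDiffOn ℝ (2 : ℕ∞) (fun z => ki (e.symm z)) e.target :=
      contDiffOn_inv (k := fun z => k (e.symm z)) ((hk e he).1.of_le (by exact_mod_cast le_top))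
        (fun z _ => hk1 _)
    rw [dzb_congr h2, curv_frame e.open_target (b.G_smooth e he) (b.Gi_smooth e he)
      (b.mul_Gi e he) (b.Gi_mul e he) (k := fun z => k (e.symm z)) (ki := fun z => ki (e.symm z))
      ((hk e he).1.of_le two_le_infty_p) (by exact_mod_cast hki)
      (fun z _ => hk1 _) (fun z _ => hk2 _) hz]
    have h3 := (hk e he).2 z hz
    have h3' : Db (fun x => b.Gi e x * dzb (b.G e) x) (fun x => ki (e.symm x) *
        Dd (fun y => b.Gi e y * dzb (b.G e) y) (fun z => k (e.symm z)) x) z =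
      Rhs Matrix.det (D.n e z) (Fc (b.B e) z) (uF b Φ₀ e z + t • uF b Φ₁ e z) (k (e.symm z))
        (ki (e.symm z)) := h3
    have h4 : Fc (fun x => b.Gi e x * dzb (b.G e) x) z = Fc (b.B e) z := rfl
    rw [h3', h4, Rhs, add_sub_right_comm, add_sub_cancel_left]
    set Φ := Φ₀ e z + (t : ℂ) • Φ₁ e z with hΦ
    have h5 : uF b Φ₀ e z + t • uF b Φ₁ e z = b.Gi e z * Φ * b.G e z := by
      rw [hΦ, uF, uF, mul_add, add_mul, mul_smul_comm, smul_mul_assoc, Complex.coe_smul]
    have h1 := b.Gi_mul e he z hz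
    have h1' := b.mul_Gi e he z hz
    rw [h5, hinv e he z hz]
    simp only [hh]
    rw [mul_add, add_mul]
    congr 1
    · rw [mul_sub, sub_mul, star_mul, star_mul]
      congr 1
      · calc b.G e z * (b.Gi e z * Φ * b.G e z * ki (e.symm z) * (star (b.G e z) *
              (star Φ * star (b.Gi e z))) * k (e.symm z)) * b.Gi e z =
              (b.G e z * b.Gi e z) * (Φ * b.G e z * ki (e.symm z) * (star (b.G e z) *
              (star Φ * star (b.Gi e z))) * k (e.symm z) * b.Gi e z) := by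
                simp only [mul_assoc]
          _ = _ := by rw [h1', one_mul]; simp only [mul_assoc]
      · calc b.G e z * (ki (e.symm z) * (star (b.G e z) * (star Φ * star (b.Gi e z))) *
              k (e.symm z) * (b.Gi e z * Φ * b.G e z)) * b.Gi e z =
              (b.G e z * ki (e.symm z) * (star (b.G e z) * (star Φ * star (b.Gi e z))) *
              k (e.symm z) * (b.Gi e z * Φ)) * (b.G e z * b.Gi e z) := by
                simp only [mul_assoc]
          _ = _ := by rw [h1', mul_one]; simp only [mul_assoc]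
    · rw [mul_smul_comm, smul_mul_assoc, mul_smul_comm, smul_mul_assoc, mul_one, h1']
  -- the determinant
  have hdpos : ∀ x, 0 < (k x).det.re ∧ (k x).det = (((k x).det.re : ℝ) : ℂ) := by
    intro x
    have h1 := (kpos x).det_pos
    rw [Complex.lt_def] at h1
    refine ⟨h1.1, ?_⟩
    apply Complex.ext
    · simp
    · rw [← h1.2]; simp
  have hf2 : Ck 2 (fun x => Real.log (k x).det.re) := by
    intro e he z hz
    have h1 : ContDiffOn ℝ 2 (fun z => (k (e.symm z)).det) e.target :=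
      (contDiff_det.of_le two_le_infty_p).comp_contDiffOn
        ((hk e he).1.of_le two_le_infty_p)
    have h2 : ContDiffOn ℝ 2 (fun z => (k (e.symm z)).det.re) e.target :=
      Complex.reCLM.contDiff.comp_contDiffOn h1
    exact (h2.log (fun x _ => (hdpos _).1.ne')) z hz
  have hlap : ∀ e ∈ atlas ℂ X, ∀ z ∈ e.target,
      dzb (dz (fun x => ((Real.log (k (e.symm x)).det.re : ℝ) : ℂ))) z =
        ((3 * D.n e z * ((k (e.symm z)).det.re - 1) : ℝ) : ℂ) := by
    intro e he z hz
    have h1 := det_lap e.open_target ((hsmooth e he).of_le two_le_infty_p)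
      (hpos e he) hz
    have h2 : (fun x => ((Real.log (k (e.symm x)).det.re : ℝ) : ℂ)) =ᶠ[𝓝 z]
        fun x => ((Real.log (h e x).det.re : ℝ) : ℂ) := by
      filter_upwards [e.open_target.mem_nhds hz] with x hx
      rw [hdeth e he x hx]
    have h3 : dz (fun x => ((Real.log (k (e.symm x)).det.re : ℝ) : ℂ)) =ᶠ[𝓝 z]
        dz (fun x => ((Real.log (h e x).det.re : ℝ) : ℂ)) := by
      filter_upwards [h2.eventuallyEq_nhds] with x hx
      exact dz_congr hx
    rw [dzb_congr h3, h1, heq e he z hz, Matrix.trace_add, trace_comm_zero, zero_add,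
      Matrix.trace_smul, Matrix.trace_smul, Matrix.trace_one, (hdpos _).2]
    simp
    ring
  have hdone : ∀ x, (k x).det = 1 := by
    have e1 : ∀ x, Real.log (k x).det.re ≤ 0 := by
      refine max_principle hf2 fun e he z hz hlt => ?_
      rw [hlap e he z hz, Complex.ofReal_re]
      have h3 : 1 < (k (e.symm z)).det.re := by
        by_contra hcon
        push Not at hcon
        exact absurd (Real.log_nonpos (hdpos _).1.le hcon) (not_le.mpr hlt)
      have := D.n_pos e he z hz
      have h4 : 0 < (k (e.symm z)).det.re - 1 := by linarith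
      positivity
    have e2 : ∀ x, -Real.log (k x).det.re ≤ 0 := by
      refine max_principle hf2.neg fun e he z hz hlt => ?_
      have h2 : dzb (dz (fun x => ((-Real.log (k (e.symm x)).det.re : ℝ) : ℂ))) z =
          - dzb (dz (fun x => ((Real.log (k (e.symm x)).det.re : ℝ) : ℂ))) z := by
        have h3 : dz (fun x => ((-Real.log (k (e.symm x)).det.re : ℝ) : ℂ)) =
            fun x => - dz (fun x => ((Real.log (k (e.symm x)).det.re : ℝ) : ℂ)) x := by
          funext x
          rw [← dz_neg]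
          congr 1
          funext y
          push_cast
          rfl
        rw [h3, dzb_neg]
      rw [h2, hlap e he z hz, Complex.neg_re, Complex.ofReal_re]
      have h3 : (k (e.symm z)).det.re < 1 := by
        by_contra hcon
        push Not at hcon
        have := Real.log_nonneg hcon
        linarith
      have := D.n_pos e he z hz
      have h4 : 0 < 1 - (k (e.symm z)).det.re := by linarith
      have h5 : 0 < 3 * D.n e z * (1 - (k (e.symm z)).det.re) := by positivity
      linarith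
    intro x
    have e3 : Real.log (k x).det.re = 0 := le_antisymm (e1 x) (by linarith [e2 x])
    have e4 : (k x).det.re = 1 := Real.eq_one_of_pos_of_log_eq_zero (hdpos x).1 e3
    rw [(hdpos x).2, e4]; simp
  refine ⟨h, hsmooth, fun e he z hz => ⟨hpos e he z hz, ?_⟩, ?_, ?_⟩
  · rw [hdeth e he z hz, hdone]
  · intro e he e' he' z hz
    have hz' := trans_mem_target hz
    have h1 := b.Gi_mul e' he' _ hz'
    have h1s : star (b.G e' (trans e e' z)) * star (b.Gi e' (trans e e' z)) = 1 := by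
      rw [← star_mul, h1, star_one]
    simp only [hh, Bun.T, symm_trans hz, star_mul]
    calc star (b.Gi e z) * k (e.symm z) * b.Gi e z =
        star (b.Gi e z) * 1 * k (e.symm z) * 1 * b.Gi e z := by simp only [mul_one]
      _ = star (b.Gi e z) * (star (b.G e' (trans e e' z)) * star (b.Gi e' (trans e e' z))) *
          k (e.symm z) * (b.Gi e' (trans e e' z) * b.G e' (trans e e' z)) * b.Gi e z := by
            rw [h1s, h1]
      _ = _ := by simp only [mul_assoc]
  · intro e he z hz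
    rw [heq e he z hz, hdone, sub_self, zero_smul, smul_zero, add_zero]

end M

end Pool.Agent.Lib8bb
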