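import Pool.Agent.Lib_MP_8bb00a_gt.Surf2

/-!
Definitions for the existence part: trace algebras, covariant Wirtinger derivatives, bundles given
by a global unitary frame, the energy form.
-/

open MeasureTheory Complex Set Metric Filter Topology
open scoped Real ContDiff ComplexConjugate Manifold

noncomputable section

namespace Pool.Agent.Lib8bb

/-- finite dimensional star algebras with a trace, normed by the Hilbert-Schmidt norm -/
class TrAlg (𝔸 : Type*) [NormedRing 𝔸] [NormedAlgebra ℂ 𝔸] [StarRing 𝔸] where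
  tr : 𝔸 →ₗ[ℂ] ℂ
  tr_mul_comm : ∀ a b, tr (a * b) = tr (b * a)
  tr_star : ∀ a, tr (star a) = conj (tr a)
  norm_sq : ∀ a, ‖a‖ ^ 2 = (tr (star a * a)).re

section alg

variable {𝔸 : Type*} [NormedRing 𝔸] [NormedAlgebra ℂ 𝔸] [StarRing 𝔸] [TrAlg 𝔸]

/-- the real inner product `Re tr (a^* b)` -/
def ip (a b : 𝔸) : ℝ := (TrAlg.tr (star a * b)).re

end alg

instance instTrAlgComplex : TrAlg ℂ where
  tr := LinearMap.id
  tr_mul_comm a b := mul_comm a b
  tr_star a := rfl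
  norm_sq a := by
    show ‖a‖ ^ 2 = (conj a * a).re
    rw [← Complex.normSq_eq_conj_mul_self, Complex.ofReal_re, Complex.normSq_eq_norm_sq]

/-- `3 × 3` matrices; use the Frobenius norm -/
abbrev M3 : Type := Matrix (Fin 3) (Fin 3) ℂ

section M3

open scoped Matrix.Norms.Frobenius

instance instTrAlgM3 : TrAlg M3 where
  tr := Matrix.traceLinearMap (Fin 3) ℂ ℂ
  tr_mul_comm a b := Matrix.trace_mul_comm a b
  tr_star a := by
    show Matrix.trace (Matrix.conjTranspose a) = _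
    rw [Matrix.trace_conjTranspose]; rfl
  norm_sq a := by
    show ‖a‖ ^ 2 = (Matrix.trace (Matrix.conjTranspose a * a)).re
    rw [Matrix.frobenius_norm_def, ← Real.sqrt_eq_rpow, Real.sq_sqrt (by positivity)]
    simp only [Matrix.trace, Matrix.diag, Matrix.mul_apply, Matrix.conjTranspose_apply,
      Complex.re_sum]
    rw [Finset.sum_comm]
    refine Finset.sum_congr rfl fun i _ => Finset.sum_congr rfl fun j _ => ?_
    rw [Complex.star_def, ← Complex.normSq_eq_conj_mul_self, Complex.ofReal_re,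
      Complex.normSq_eq_norm_sq]
    norm_num

end M3

variable {𝔸 : Type*} [NormedRing 𝔸] [NormedAlgebra ℂ 𝔸] [StarRing 𝔸]

/-- covariant `∂̄` on endomorphisms: `∂̄ w + [B, w]` -/
def Db (B w : ℂ → 𝔸) (z : ℂ) : 𝔸 := dzb w z + (B z * w z - w z * B z)

/-- covariant `∂` on endomorphisms (unitary frame): `∂ w - [B^*, w]` -/
def Dd (B w : ℂ → 𝔸) (z : ℂ) : 𝔸 := dz w z - (star (B z) * w z - w z * star (B z))

/-- curvature -/
def Fc (B : ℂ → 𝔸) (z : ℂ) : 𝔸 :=
  dz B z + dzb (fun x => star (B x)) z + (B z * star (B z) - star (B z) * B z)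

/-- A holomorphic bundle with a global smooth unitary frame: `G e` transforms coordinates in the
unitary frame into coordinates in a holomorphic frame over the chart domain `e`. -/
structure Bun (X : Type*) [TopologicalSpace X] [ChartedSpace ℂ X]
    (𝔸 : Type*) [NormedRing 𝔸] [NormedAlgebra ℂ 𝔸] where
  G : OpenPartialHomeomorph X ℂ → ℂ → 𝔸
  Gi : OpenPartialHomeomorph X ℂ → ℂ → 𝔸
  G_smooth : ∀ e ∈ atlas ℂ X, ContDiffOn ℝ ∞ (G e) e.target
  Gi_smooth : ∀ e ∈ atlas ℂ X, ContDiffOn ℝ ∞ (Gi e) e.target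
  mul_Gi : ∀ e ∈ atlas ℂ X, ∀ z ∈ e.target, G e z * Gi e z = 1
  Gi_mul : ∀ e ∈ atlas ℂ X, ∀ z ∈ e.target, Gi e z * G e z = 1
  holo : ∀ e ∈ atlas ℂ X, ∀ e' ∈ atlas ℂ X,
    DifferentiableOn ℂ (fun z => G e' (trans e e' z) * Gi e z) (dom e e')

variable {X : Type*} [TopologicalSpace X] [ChartedSpace ℂ X]

/-- the `(0,1)` part of the connection in the unitary frame -/
def Bun.B (b : Bun X 𝔸) (e : OpenPartialHomeomorph X ℂ) (z : ℂ) : 𝔸 := b.Gi e z * dzb (b.G e) z

/-- selfadjoint sections of class `C^1` -/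
def Sec1 (η : X → 𝔸) : Prop := Ck 1 η ∧ ∀ x, star (η x) = η x

/-- normalised covariant derivatives -/
def pa [MeasurableSpace X] (D : SurfData X) (b : Bun X 𝔸) (a : D.A) (w : X → 𝔸) (x : X) : 𝔸 :=
  D.m a x • Db (b.B (D.c a)) (fun z => w ((D.c a).symm z)) (D.c a x)

/-- the energy form -/
def en [TrAlg 𝔸] [MeasurableSpace X] (D : SurfData X) (b : Bun X 𝔸) (W : X → 𝔸 →L[ℝ] 𝔸)
    (w η : X → 𝔸) : ℝ :=
  ∫ x, ((∑ a, ip (pa D b a w x) (pa D b a η x)) + ip (W x (w x)) (η x)) ∂D.ν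

/-- admissible zeroth order terms -/
structure Pot (X : Type*) [TopologicalSpace X] (𝔸 : Type*) [NormedRing 𝔸] [NormedAlgebra ℂ 𝔸]
    [StarRing 𝔸] [TrAlg 𝔸] (W : X → 𝔸 →L[ℝ] 𝔸) : Prop where
  cont : Continuous W
  symm : ∀ x a c, ip (W x a) c = ip a (W x c)
  star_comm : ∀ x a, star (W x a) = W x (star a)

/-- coercivity of the energy form -/
def Coer [TrAlg 𝔸] [MeasurableSpace X] (D : SurfData X) (b : Bun X 𝔸) (W : X → 𝔸 →L[ℝ] 𝔸)
    (δ : ℝ) : Prop :=
  ∀ η : X → 𝔸, Sec1 η → δ * ∫ x, ‖η x‖ ^ 2 ∂D.ν ≤ en D b W η η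

end Pool.Agent.Lib8bb
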