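import Mathlib
import Pool.Agent.Lib_MP_8bb00a_gt.Defs

/-!
# Calculus in one complex variable: Wirtinger derivatives and the Laplacian
-/

open Complex Set
open scoped ComplexConjugate Topology ContDiff

namespace MP_8bb00a_gt

/-- the Laplacian of a real valued function -/
noncomputable def lap (u : ℂ → ℝ) (z : ℂ) : ℝ :=
  fderiv ℝ (fun w => fderiv ℝ u w 1) z 1 + fderiv ℝ (fun w => fderiv ℝ u w I) z I

/-- the squared gradient of a real valued function -/
noncomputable def grad2 (u : ℂ → ℝ) (z : ℂ) : ℝ := (fderiv ℝ u z 1) ^ 2 + (fderiv ℝ u z I) ^ 2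

section basic

variable {f g : ℂ → ℂ} {z : ℂ}

theorem del_mul (hf : DifferentiableAt ℝ f z) (hg : DifferentiableAt ℝ g z) :
    del (fun w => f w * g w) z = del f z * g z + f z * del g z := by
  unfold del
  rw [show (fun w => f w * g w) = f * g from rfl, fderiv_mul hf hg]
  simp only [add_apply, smul_apply, smul_eq_mul]
  ring

theorem delbar_mul (hf : DifferentiableAt ℝ f z) (hg : DifferentiableAt ℝ g z) :
    delbar (fun w => f w * g w) z = delbar f z * g z + f z * delbar g z := by
  unfold delbar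
  rw [show (fun w => f w * g w) = f * g from rfl, fderiv_mul hf hg]
  simp only [add_apply, smul_apply, smul_eq_mul]
  ring

theorem del_add (hf : DifferentiableAt ℝ f z) (hg : DifferentiableAt ℝ g z) :
    del (fun w => f w + g w) z = del f z + del g z := by
  unfold del
  rw [show (fun w => f w + g w) = f + g from rfl, fderiv_add hf hg]
  simp only [add_apply]
  ring

theorem delbar_add (hf : DifferentiableAt ℝ f z) (hg : DifferentiableAt ℝ g z) :
    delbar (fun w => f w + g w) z = delbar f z + delbar g z := by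
  unfold delbar
  rw [show (fun w => f w + g w) = f + g from rfl, fderiv_add hf hg]
  simp only [add_apply]
  ring

theorem del_neg : del (fun w => - f w) z = - del f z := by
  unfold del
  rw [show (fun w => - f w) = - f from rfl, fderiv_neg]
  simp only [neg_apply]
  ring

theorem delbar_neg : delbar (fun w => - f w) z = - delbar f z := by
  unfold delbar
  rw [show (fun w => - f w) = - f from rfl, fderiv_neg]
  simp only [neg_apply]
  ring

theorem del_const (c : ℂ) : del (fun _ => c) z = 0 := by
  unfold del; simp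

theorem delbar_const (c : ℂ) : delbar (fun _ => c) z = 0 := by
  unfold delbar; simp

theorem del_congr {f g : ℂ → ℂ} {z : ℂ} (h : f =ᶠ[𝓝 z] g) : del f z = del g z := by
  unfold del; rw [h.fderiv_eq]

theorem delbar_congr {f g : ℂ → ℂ} {z : ℂ} (h : f =ᶠ[𝓝 z] g) : delbar f z = delbar g z := by
  unfold delbar; rw [h.fderiv_eq]

theorem fderiv_conj (hf : DifferentiableAt ℝ f z) (v : ℂ) :
    fderiv ℝ (fun w => conj (f w)) z v = conj (fderiv ℝ f z v) := by
  have h := (Complex.conjCLE.toContinuousLinearMap.hasFDerivAt (x := f z)).comp z hf.hasFDerivAt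
  have h2 : (fun w => conj (f w)) = (Complex.conjCLE.toContinuousLinearMap ∘ f) := by
    funext w; simp
  rw [h2, h.fderiv]
  simp

theorem delbar_conj (hf : DifferentiableAt ℝ f z) :
    delbar (fun w => conj (f w)) z = conj (del f z) := by
  unfold del delbar
  rw [fderiv_conj hf, fderiv_conj hf]
  simp only [map_div₀, map_sub, map_mul, conj_I, map_ofNat]
  ring

theorem del_conj (hf : DifferentiableAt ℝ f z) :
    del (fun w => conj (f w)) z = conj (delbar f z) := by
  unfold del delbar
  rw [fderiv_conj hf, fderiv_conj hf]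
  simp only [map_div₀, map_add, map_mul, conj_I, map_ofNat]
  ring

/-- holomorphic functions -/
theorem fderiv_real_of_holo (hf : DifferentiableAt ℂ f z) (v : ℂ) :
    fderiv ℝ f z v = deriv f z * v := by
  have h1 : HasFDerivAt f (fderiv ℂ f z) z := hf.hasFDerivAt
  have h2 := h1.restrictScalars ℝ
  rw [h2.fderiv]
  simp only [ContinuousLinearMap.coe_restrictScalars']
  rw [fderiv_eq_smul_deriv, smul_eq_mul, mul_comm]

theorem del_of_holo (hf : DifferentiableAt ℂ f z) : del f z = deriv f z := by
  unfold del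
  rw [fderiv_real_of_holo hf, fderiv_real_of_holo hf]
  have : I * (deriv f z * I) = - deriv f z := by
    rw [show I * (deriv f z * I) = (I * I) * deriv f z by ring, I_mul_I]; ring
  rw [this]; ring

theorem delbar_of_holo (hf : DifferentiableAt ℂ f z) : delbar f z = 0 := by
  unfold delbar
  rw [fderiv_real_of_holo hf, fderiv_real_of_holo hf]
  have : I * (deriv f z * I) = - deriv f z := by
    rw [show I * (deriv f z * I) = (I * I) * deriv f z by ring, I_mul_I]; ring
  rw [this]; ring

end basic

section second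

variable {f : ℂ → ℂ} {z : ℂ}

theorem diff_fderiv_apply (hf : ContDiffAt ℝ 2 f z) (v : ℂ) :
    DifferentiableAt ℝ (fun w => fderiv ℝ f w v) z := by
  have h1 : ContDiffAt ℝ 1 (fderiv ℝ f) z := hf.fderiv_right (by norm_num)
  exact (h1.differentiableAt (by norm_num)).clm_apply (differentiableAt_const v)

theorem fderiv_fderiv_apply (hf : ContDiffAt ℝ 2 f z) (v w : ℂ) :
    fderiv ℝ (fun x => fderiv ℝ f x v) z w = fderiv ℝ (fderiv ℝ f) z w v := by
  have h1 : ContDiffAt ℝ 1 (fderiv ℝ f) z := hf.fderiv_right (by norm_num)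
  have h2 := h1.differentiableAt (by norm_num)
  rw [fderiv_clm_apply h2 (differentiableAt_const v)]
  simp

theorem diff_del (hf : ContDiffAt ℝ 2 f z) : DifferentiableAt ℝ (del f) z := by
  have h1 : del f = fun w => ((1 : ℂ) / 2) * (fderiv ℝ f w 1 - I * fderiv ℝ f w I) := by
    funext w; simp only [del]; ring
  rw [h1]
  exact ((diff_fderiv_apply hf 1).sub ((diff_fderiv_apply hf I).const_mul I)).const_mul _

/-- `4 ∂̄∂f = Δf` for complex valued functions -/
theorem delbar_del (hf : ContDiffAt ℝ 2 f z) :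
    4 * delbar (del f) z = fderiv ℝ (fun w => fderiv ℝ f w 1) z 1 +
      fderiv ℝ (fun w => fderiv ℝ f w I) z I := by
  have hX := diff_fderiv_apply hf 1
  have hY := diff_fderiv_apply hf I
  have hsymm : IsSymmSndFDerivAt ℝ f z := hf.isSymmSndFDerivAt (by simp)
  have h3 : ∀ v, fderiv ℝ (del f) z v = (fderiv ℝ (fun w => fderiv ℝ f w 1) z v -
      I * fderiv ℝ (fun w => fderiv ℝ f w I) z v) / 2 := by
    intro v
    have h1 : del f = fun w => ((1 : ℂ) / 2) * (fderiv ℝ f w 1 - I * fderiv ℝ f w I) := by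
      funext w; simp only [del]; ring
    have hY2 : DifferentiableAt ℝ (fun w => I * fderiv ℝ f w I) z := hY.const_mul I
    have hd : DifferentiableAt ℝ (fun w => fderiv ℝ f w 1 - I * fderiv ℝ f w I) z :=
      hX.sub hY2
    rw [h1, fderiv_const_mul hd, fderiv_fun_sub hX hY2, fderiv_const_mul hY]
    simp only [smul_apply, sub_apply, smul_eq_mul]
    ring
  unfold delbar
  rw [h3, h3]
  have hs : fderiv ℝ (fun w => fderiv ℝ f w I) z 1 = fderiv ℝ (fun w => fderiv ℝ f w 1) z I := by
    rw [fderiv_fderiv_apply hf, fderiv_fderiv_apply hf]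
    exact hsymm 1 I
  rw [hs]
  have hI : I * I = -1 := I_mul_I
  linear_combination (-(fderiv ℝ (fun w => fderiv ℝ f w I) z I)) * hI

end second

section realfun

variable {u v : ℂ → ℝ} {z : ℂ}

theorem diff_fderiv_apply_real (hu : ContDiffAt ℝ 2 u z) (v : ℂ) :
    DifferentiableAt ℝ (fun w => fderiv ℝ u w v) z := by
  have h1 : ContDiffAt ℝ 1 (fderiv ℝ u) z := hu.fderiv_right (by norm_num)
  exact (h1.differentiableAt (by norm_num)).clm_apply (differentiableAt_const v)

theorem lap_congr (h : u =ᶠ[𝓝 z] v) : lap u z = lap v z := by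
  have key : ∀ e : ℂ, (fun w => fderiv ℝ u w e) =ᶠ[𝓝 z] (fun w => fderiv ℝ v w e) := by
    intro e
    filter_upwards [h.eventuallyEq_nhds] with w hw
    rw [hw.fderiv_eq]
  unfold lap
  rw [(key 1).fderiv_eq, (key I).fderiv_eq]

theorem lap_add (hu : ContDiffAt ℝ 2 u z) (hv : ContDiffAt ℝ 2 v z) :
    lap (fun w => u w + v w) z = lap u z + lap v z := by
  have key : ∀ e : ℂ, fderiv ℝ (fun w => fderiv ℝ (fun w => u w + v w) w e) z e =
      fderiv ℝ (fun w => fderiv ℝ u w e) z e + fderiv ℝ (fun w => fderiv ℝ v w e) z e := by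
    intro e
    have h1 : (fun w => fderiv ℝ (fun w => u w + v w) w e) =ᶠ[𝓝 z]
        (fun w => fderiv ℝ u w e + fderiv ℝ v w e) := by
      filter_upwards [hu.eventually (by norm_num), hv.eventually (by norm_num)] with w h1 h2
      rw [fderiv_fun_add (h1.differentiableAt (by norm_num)) (h2.differentiableAt (by norm_num))]
      simp
    rw [h1.fderiv_eq, fderiv_fun_add (diff_fderiv_apply_real hu e) (diff_fderiv_apply_real hv e)]
    simp
  unfold lap
  rw [key 1, key I]
  ring

theorem lap_const_mul (c : ℝ) (hu : ContDiffAt ℝ 2 u z) :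
    lap (fun w => c * u w) z = c * lap u z := by
  have key : ∀ e : ℂ, fderiv ℝ (fun w => fderiv ℝ (fun w => c * u w) w e) z e =
      c * fderiv ℝ (fun w => fderiv ℝ u w e) z e := by
    intro e
    have h1 : (fun w => fderiv ℝ (fun w => c * u w) w e) =ᶠ[𝓝 z]
        (fun w => c * fderiv ℝ u w e) := by
      filter_upwards [hu.eventually (by norm_num)] with w h1
      rw [fderiv_const_mul (h1.differentiableAt (by norm_num))]
      simp
    rw [h1.fderiv_eq, fderiv_const_mul (diff_fderiv_apply_real hu e)]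
    simp
  unfold lap
  rw [key 1, key I]
  ring

/-- `Δ log q = Δq/q - |∇q|²/q²` -/
theorem lap_log (hu : ContDiffAt ℝ 2 u z) (h0 : 0 < u z) :
    lap (fun w => Real.log (u w)) z = lap u z / u z - grad2 u z / (u z) ^ 2 := by
  have hpos : ∀ᶠ w in 𝓝 z, 0 < u w := hu.continuousAt.eventually (lt_mem_nhds h0)
  have key : ∀ e : ℂ, fderiv ℝ (fun w => fderiv ℝ (fun w => Real.log (u w)) w e) z e =
      fderiv ℝ (fun w => fderiv ℝ u w e) z e / u z - (fderiv ℝ u z e) ^ 2 / (u z) ^ 2 := by
    intro e
    have h1 : (fun w => fderiv ℝ (fun w => Real.log (u w)) w e) =ᶠ[𝓝 z]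
        (fun w => (u w)⁻¹ * fderiv ℝ u w e) := by
      filter_upwards [hu.eventually (by norm_num), hpos] with w h1 h2
      rw [fderiv.log (h1.differentiableAt (by norm_num)) h2.ne']
      simp
    have hd := hu.differentiableAt (by norm_num)
    have hdi : DifferentiableAt ℝ (fun w => (u w)⁻¹) z := hd.inv h0.ne'
    rw [h1.fderiv_eq, fderiv_fun_mul hdi (diff_fderiv_apply_real hu e)]
    have h2 : fderiv ℝ (fun w => (u w)⁻¹) z e = - fderiv ℝ u z e / (u z) ^ 2 := by
      have := (hasDerivAt_inv h0.ne').comp_hasFDerivAt z hd.hasFDerivAt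
      have h3 : fderiv ℝ (fun w => (u w)⁻¹) z = -(u z ^ 2)⁻¹ • fderiv ℝ u z := this.fderiv
      rw [h3]
      simp
      ring
    simp only [add_apply, smul_apply, smul_eq_mul]
    rw [h2]
    field_simp
    ring
  unfold lap grad2
  rw [key 1, key I]
  ring

/-- second derivative test -/
theorem lap_nonpos_of_isLocalMax (hu : ContDiffAt ℝ 2 u z) (hmax : IsLocalMax u z) :
    lap u z ≤ 0 := by
  have key : ∀ e : ℂ, fderiv ℝ (fun w => fderiv ℝ u w e) z e ≤ 0 := by
    intro e
    let γ : ℝ → ℂ := fun t => z + t * e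
    have hγ : ∀ t, HasDerivAt γ e t := by
      intro t
      have h1 : HasDerivAt (fun t : ℝ => (t : ℂ)) 1 t := Complex.ofRealCLM.hasDerivAt
      have h2 : HasDerivAt (fun t : ℝ => z + (t : ℂ) * e) (1 * e) t := (h1.mul_const e).const_add z
      rw [one_mul] at h2
      exact h2
    have hγ0 : γ 0 = z := by simp [γ]
    have hγc : ContinuousAt γ 0 := (hγ 0).continuousAt
    have hev : ∀ᶠ t in 𝓝 (0 : ℝ), ContDiffAt ℝ 2 u (γ t) := by
      have : ∀ᶠ w in 𝓝 (γ 0), ContDiffAt ℝ 2 u w := by
        rw [hγ0]; exact hu.eventually (by norm_num)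
      exact hγc.eventually this
    have hd1 : deriv (fun t => u (γ t)) =ᶠ[𝓝 0] fun t => fderiv ℝ u (γ t) e := by
      filter_upwards [hev] with t ht
      exact ((ht.differentiableAt (by norm_num)).hasFDerivAt.comp_hasDerivAt t (hγ t)).deriv
    have hdd : HasDerivAt (fun t => fderiv ℝ u (γ t) e) (fderiv ℝ (fun w => fderiv ℝ u w e) z e)
        0 := by
      have h1 := (diff_fderiv_apply_real hu e).hasFDerivAt
      rw [← hγ0] at h1
      have h2 := h1.comp_hasDerivAt (0 : ℝ) (hγ 0)
      rw [hγ0] at h2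
      exact h2
    have hmax' : IsLocalMax (fun t => u (γ t)) 0 := by
      have : ∀ᶠ w in 𝓝 (γ 0), u w ≤ u (γ 0) := by rw [hγ0]; exact hmax
      exact hγc.eventually this
    have hdd2 : deriv (deriv (fun t => u (γ t))) 0 = fderiv ℝ (fun w => fderiv ℝ u w e) z e := by
      rw [hd1.deriv_eq]; exact hdd.deriv
    by_contra hcon
    push Not at hcon
    rw [← hdd2] at hcon
    have hmin : IsLocalMin (fun t => u (γ t)) 0 :=
      isLocalMin_of_deriv_deriv_pos hcon hmax'.deriv_eq_zero
        (hu.continuousAt.comp_of_eq hγc hγ0)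
    have hconst : (fun t => u (γ t)) =ᶠ[𝓝 0] fun _ => u (γ 0) := by
      filter_upwards [hmin, hmax'] with t h1 h2
      exact le_antisymm h2 h1
    have h4 : deriv (fun t => u (γ t)) =ᶠ[𝓝 0] fun _ => 0 := by
      filter_upwards [hconst.eventuallyEq_nhds] with t ht
      rw [ht.deriv_eq]; simp
    rw [h4.deriv_eq] at hcon
    simp at hcon
  unfold lap
  have h1 := key 1
  have h2 := key I
  linarith

end realfun

section connect

variable {f : ℂ → ℂ} {z : ℂ}

theorem fderiv_re (hf : DifferentiableAt ℝ f z) (v : ℂ) :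
    fderiv ℝ (fun w => (f w).re) z v = (fderiv ℝ f z v).re := by
  have h := (Complex.reCLM.hasFDerivAt (x := f z)).comp z hf.hasFDerivAt
  have h2 : (fun w => (f w).re) = (Complex.reCLM ∘ f) := by
    funext w; simp
  rw [h2, h.fderiv]
  simp

theorem lap_re (hf : ContDiffAt ℝ 2 f z) :
    lap (fun w => (f w).re) z = 4 * (delbar (del f) z).re := by
  have key : ∀ e : ℂ, fderiv ℝ (fun w => fderiv ℝ (fun w => (f w).re) w e) z e =
      (fderiv ℝ (fun w => fderiv ℝ f w e) z e).re := by
    intro e
    have h1 : (fun w => fderiv ℝ (fun w => (f w).re) w e) =ᶠ[𝓝 z]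
        (fun w => (fderiv ℝ f w e).re) := by
      filter_upwards [hf.eventually (by norm_num)] with w h1
      rw [fderiv_re (h1.differentiableAt (by norm_num))]
    rw [h1.fderiv_eq, fderiv_re (diff_fderiv_apply hf e)]
  have h2 := congrArg Complex.re (delbar_del hf)
  have h3 : (4 * delbar (del f) z).re = 4 * (delbar (del f) z).re := by simp
  rw [h3] at h2
  unfold lap
  rw [key 1, key I, h2, Complex.add_re]

/-- for `f` real valued near `z` -/
theorem grad2_re (hf : DifferentiableAt ℝ f z) (hre : ∀ᶠ w in 𝓝 z, (f w).im = 0) :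
    grad2 (fun w => (f w).re) z = 4 * Complex.normSq (del f z) := by
  have him : ∀ v, (fderiv ℝ f z v).im = 0 := by
    intro v
    have h := (Complex.imCLM.hasFDerivAt (x := f z)).comp z hf.hasFDerivAt
    have h2 : (fun w => (f w).im) = (Complex.imCLM ∘ f) := by
      funext w; simp
    have h3 : fderiv ℝ (fun w => (f w).im) z v = (fderiv ℝ f z v).im := by
      rw [h2, h.fderiv]; simp
    have h4 : (fun w => (f w).im) =ᶠ[𝓝 z] fun _ => 0 := hre
    rw [← h3, h4.fderiv_eq]; simp
  unfold grad2 del
  rw [fderiv_re hf, fderiv_re hf, Complex.normSq_div, Complex.normSq_apply]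
  simp only [Complex.sub_re, Complex.sub_im, Complex.mul_re, Complex.mul_im, Complex.I_re,
    Complex.I_im, him]
  have : Complex.normSq (2 : ℂ) = 4 := by
    rw [Complex.normSq_apply]; norm_num
  rw [this]
  ring

end connect

end MP_8bb00a_gt
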