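import Mathlib
import Pool.Agent.Lib_MP_8bb00a_gt.Calc

/-!
# Linear algebra for the key inequality
-/

open Complex Set
open scoped ComplexConjugate Topology ContDiff Matrix ComplexOrder

namespace MP_8bb00a_gt

variable {n : ℕ}

/-- the sesquilinear form of a matrix -/
noncomputable def ip (H : Matrix (Fin n) (Fin n) ℂ) (v w : Fin n → ℂ) : ℂ := star v ⬝ᵥ (H *ᵥ w)

theorem ip_add_left (H : Matrix (Fin n) (Fin n) ℂ) (u v w : Fin n → ℂ) :
    ip H (u + v) w = ip H u w + ip H v w := by
  simp [ip, add_dotProduct]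

theorem ip_add_right (H : Matrix (Fin n) (Fin n) ℂ) (u v w : Fin n → ℂ) :
    ip H u (v + w) = ip H u v + ip H u w := by
  simp [ip, Matrix.mulVec_add, dotProduct_add]

theorem ip_smul_left (H : Matrix (Fin n) (Fin n) ℂ) (t : ℂ) (v w : Fin n → ℂ) :
    ip H (t • v) w = conj t * ip H v w := by
  simp [ip, smul_dotProduct]

theorem ip_smul_right (H : Matrix (Fin n) (Fin n) ℂ) (t : ℂ) (v w : Fin n → ℂ) :
    ip H v (t • w) = t * ip H v w := by
  simp [ip, Matrix.mulVec_smul, dotProduct_smul]

theorem ip_conj {H : Matrix (Fin n) (Fin n) ℂ} (hH : H.IsHermitian) (v w : Fin n → ℂ) :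
    conj (ip H v w) = ip H w v := by
  unfold ip
  rw [Matrix.star_dotProduct (v := v)]
  simp only [RCLike.star_def, Complex.conj_conj]
  rw [Matrix.star_mulVec, hH.eq, ← Matrix.dotProduct_mulVec]

theorem ip_self_nonneg {H : Matrix (Fin n) (Fin n) ℂ} (hH : H.PosDef) (v : Fin n → ℂ) :
    0 ≤ (ip H v v).re := by
  by_cases hv : v = 0
  · simp [hv, ip]
  · exact (Complex.lt_def.1 (hH.dotProduct_mulVec_pos hv)).1.le

theorem ip_self_pos {H : Matrix (Fin n) (Fin n) ℂ} (hH : H.PosDef) {v : Fin n → ℂ} (hv : v ≠ 0) :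
    0 < (ip H v v).re := (Complex.lt_def.1 (hH.dotProduct_mulVec_pos hv)).1

theorem ip_self_im {H : Matrix (Fin n) (Fin n) ℂ} (hH : H.IsHermitian) (v : Fin n → ℂ) :
    (ip H v v).im = 0 := by
  have h := ip_conj hH v v
  exact Complex.conj_eq_iff_im.1 h

theorem ip_cs {H : Matrix (Fin n) (Fin n) ℂ} (hH : H.PosDef) (v w : Fin n → ℂ) :
    normSq (ip H v w) ≤ (ip H v v).re * (ip H w w).re := by
  by_cases hw : w = 0
  · simp [hw, ip]
  have hpos := ip_self_pos hH hw
  have him := ip_self_im hH.isHermitian w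
  have him' := ip_self_im hH.isHermitian v
  set p := ip H v w with hp
  set q := (ip H w w).re with hq
  have hww : ip H w w = (q : ℂ) := by
    apply Complex.ext <;> simp [hq, him]
  have h1 := ip_self_nonneg hH (v + (-(conj p) / q) • w)
  have h2 : ip H (v + (-(conj p) / q) • w) (v + (-(conj p) / q) • w) =
      ip H v v - (normSq p : ℂ) / q := by
    rw [ip_add_left, ip_add_right, ip_add_right, ip_smul_left, ip_smul_left, ip_smul_right,
      ip_smul_right, hww, ← ip_conj hH.isHermitian v w, ← hp]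
    have hq0 : (q : ℂ) ≠ 0 := by exact_mod_cast hpos.ne'
    rw [Complex.normSq_eq_conj_mul_self]
    simp only [map_div₀, map_neg, Complex.conj_conj, Complex.conj_ofReal]
    field_simp
    ring
  rw [h2] at h1
  have h3 : (ip H v v - (normSq p : ℂ) / q).re = (ip H v v).re - normSq p / q := by
    rw [Complex.sub_re, ← Complex.ofReal_div, Complex.ofReal_re]
  rw [h3] at h1
  have h4 : normSq p / q ≤ (ip H v v).re := by linarith
  rwa [div_le_iff₀ hpos] at h4

theorem ip_single (H : Matrix (Fin n) (Fin n) ℂ) (a b : Fin n) :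
    ip H (Pi.single a 1) (Pi.single b 1) = H a b := by
  simp [ip]

theorem ip_single_left (H : Matrix (Fin n) (Fin n) ℂ) (a : Fin n) (w : Fin n → ℂ) :
    ip H (Pi.single a 1) w = (H *ᵥ w) a := by
  simp [ip]

theorem ip_mulVec_left (H A : Matrix (Fin n) (Fin n) ℂ) (v w : Fin n → ℂ) :
    ip H (A *ᵥ v) w = star v ⬝ᵥ ((Aᴴ * H) *ᵥ w) := by
  unfold ip
  rw [Matrix.star_mulVec, ← Matrix.dotProduct_mulVec, Matrix.mulVec_mulVec]

/-- lower bound for the norm of the adjoint of a Higgs field -/
theorem adj_lower {H Φ : Matrix (Fin n) (Fin n) ℂ} (hH : H.PosDef) {b c : Fin n} (hbc : b ≠ c)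
    {γ : ℂ} (hc : ∀ a, Φ a c = 0) (hb : ∀ a, Φ a b = if a = c then γ else 0) :
    normSq γ * (H c c).re ^ 3 / ((H b b).re * (H c c).re - normSq (H b c)) ≤
      ((H * (Φ * HiggsBundle.adj H Φ)) c c).re := by
  have hec : (Pi.single c 1 : Fin n → ℂ) ≠ 0 := by
    intro h; have := congrFun h c; simp at this
  have hu : 0 < (H c c).re := by
    have := ip_self_pos hH hec
    rwa [ip_single] at this
  have huim : (H c c).im = 0 := by
    have := ip_self_im hH.isHermitian (Pi.single c 1 : Fin n → ℂ)
    rwa [ip_single] at this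
  have hbim : (H b b).im = 0 := by
    have := ip_self_im hH.isHermitian (Pi.single b 1 : Fin n → ℂ)
    rwa [ip_single] at this
  set u := (H c c).re with hudef
  have hucc : H c c = (u : ℂ) := by apply Complex.ext <;> simp [hudef, huim]
  have hbb : H b b = ((H b b).re : ℂ) := by apply Complex.ext <;> simp [hbim]
  have hu0 : (u : ℂ) ≠ 0 := by exact_mod_cast hu.ne'
  have hcb : H c b = conj (H b c) := by
    have := ip_conj hH.isHermitian (Pi.single b 1 : Fin n → ℂ) (Pi.single c 1)
    rw [ip_single, ip_single] at this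
    exact this.symm
  -- the vector
  set g : Fin n → ℂ := HiggsBundle.adj H Φ *ᵥ (Pi.single c 1) with hg
  set w : Fin n → ℂ := Pi.single b 1 + (-(H c b) / u) • Pi.single c 1 with hw
  have hw0 : w ≠ 0 := by
    intro h
    have := congrFun h b
    simp [hw, Pi.single_apply, hbc] at this
  have hΦw : Φ *ᵥ w = γ • Pi.single c 1 := by
    rw [hw, Matrix.mulVec_add, Matrix.mulVec_smul, Matrix.mulVec_single_one,
      Matrix.mulVec_single_one]
    funext a
    simp only [Pi.add_apply, Pi.smul_apply, Matrix.col_apply, hc a, hb a, smul_eq_mul,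
      Pi.single_apply]
    split_ifs <;> simp
  have hunit : IsUnit H.det := by
    have := hH.isUnit
    rwa [Matrix.isUnit_iff_isUnit_det] at this
  have hgw : ip H g w = γ * u := by
    have h1 : ip H g w = ip H (Pi.single c 1) (Φ *ᵥ w) := by
      rw [hg, ip_mulVec_left]
      unfold HiggsBundle.adj ip
      rw [Matrix.conjTranspose_mul, Matrix.conjTranspose_mul, Matrix.conjTranspose_conjTranspose,
        hH.isHermitian.eq, Matrix.mulVec_mulVec]
      have h2 : (H⁻¹)ᴴ = H⁻¹ := by
        rw [Matrix.conjTranspose_nonsing_inv, hH.isHermitian.eq]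
      rw [h2]
      congr 2
      rw [Matrix.mul_assoc, Matrix.mul_assoc, Matrix.nonsing_inv_mul _ hunit, Matrix.mul_one]
    rw [h1, hΦw, ip_smul_right, ip_single, hucc]
  have hww : ip H w w = (((H b b).re * u - normSq (H b c)) / u : ℝ) := by
    rw [hw, ip_add_left, ip_add_right, ip_add_right, ip_smul_left, ip_smul_left, ip_smul_right,
      ip_smul_right, ip_single, ip_single, ip_single, ip_single, hucc, hcb]
    push_cast
    rw [← hbb, Complex.normSq_eq_conj_mul_self]
    simp only [map_div₀, map_neg, Complex.conj_conj, Complex.conj_ofReal]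
    field_simp
    ring
  have hcs := ip_cs hH g w
  have hwwpos := ip_self_pos hH hw0
  rw [hgw, Complex.normSq_mul, Complex.normSq_ofReal] at hcs
  have hgg : (ip H g g).re = ((H * (Φ * HiggsBundle.adj H Φ)) c c).re := by
    congr 1
    rw [hg, ip_mulVec_left]
    have h3 : (HiggsBundle.adj H Φ)ᴴ * H = H * Φ := by
      unfold HiggsBundle.adj
      rw [Matrix.conjTranspose_mul, Matrix.conjTranspose_mul, Matrix.conjTranspose_conjTranspose,
        hH.isHermitian.eq]
      have h2 : (H⁻¹)ᴴ = H⁻¹ := by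
        rw [Matrix.conjTranspose_nonsing_inv, hH.isHermitian.eq]
      rw [h2, Matrix.mul_assoc, Matrix.mul_assoc, Matrix.nonsing_inv_mul _ hunit, Matrix.mul_one]
    rw [h3, Matrix.mulVec_mulVec]
    simp [Matrix.mul_assoc]
  rw [hww, Complex.ofReal_re] at hcs hwwpos
  rw [← hgg]
  have hM : 0 < (H b b).re * u - normSq (H b c) := by
    have := (div_pos_iff_of_pos_right hu).1 hwwpos
    exact this
  rw [div_le_iff₀ hM]
  have h5 : (ip H g g).re * (((H b b).re * u - normSq (H b c)) / u) =
      (ip H g g).re * ((H b b).re * u - normSq (H b c)) / u := by ring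
  rw [h5, le_div_iff₀ hu] at hcs
  nlinarith [hcs]

end MP_8bb00a_gt
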