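import Mathlib
import Pool.Agent.Lib_MP_8bb00a_gt.IneqAlg

/-!
# The key differential inequality
-/

open Complex Set
open scoped ComplexConjugate Topology ContDiff Matrix ComplexOrder

namespace MP_8bb00a_gt

variable {n : ℕ}

section smooth

variable {k : ℕ∞ω} {z : ℂ} {m : ℕ}

theorem contDiffAt_det {M : ℂ → Matrix (Fin m) (Fin m) ℂ}
    (hM : ∀ a b, ContDiffAt ℝ k (fun w => M w a b) z) : ContDiffAt ℝ k (fun w => (M w).det) z := by
  simp only [Matrix.det_apply']
  refine ContDiffAt.sum fun σ _ => ?_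
  refine contDiffAt_const.mul ?_
  exact contDiffAt_prod fun i _ => hM _ _

theorem contDiffAt_adjugate {M : ℂ → Matrix (Fin m) (Fin m) ℂ}
    (hM : ∀ a b, ContDiffAt ℝ k (fun w => M w a b) z) (a b : Fin m) :
    ContDiffAt ℝ k (fun w => (M w).adjugate a b) z := by
  simp only [Matrix.adjugate_apply]
  refine contDiffAt_det fun c d => ?_
  by_cases hc : c = b
  · subst hc
    simp only [Matrix.updateRow_self]
    exact contDiffAt_const
  · simp only [Matrix.updateRow_ne hc]
    exact hM c d

theorem contDiffAt_inv {M : ℂ → Matrix (Fin m) (Fin m) ℂ}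
    (hM : ∀ a b, ContDiffAt ℝ k (fun w => M w a b) z) (h0 : (M z).det ≠ 0) (a b : Fin m) :
    ContDiffAt ℝ k (fun w => (M w)⁻¹ a b) z := by
  have h : (fun w => (M w)⁻¹ a b) = fun w => ((M w).det)⁻¹ * (M w).adjugate a b := by
    funext w
    rw [Matrix.inv_def, Ring.inverse_eq_inv', Matrix.smul_apply, smul_eq_mul]
  rw [h]
  exact ((contDiffAt_det hM).inv h0).mul (contDiffAt_adjugate hM a b)

end smooth

section sums

variable {z : ℂ}

theorem delbar_sum {ι : Type*} (s : Finset ι) {f : ι → ℂ → ℂ}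
    (hf : ∀ i ∈ s, DifferentiableAt ℝ (f i) z) :
    delbar (fun w => ∑ i ∈ s, f i w) z = ∑ i ∈ s, delbar (f i) z := by
  unfold delbar
  rw [fderiv_fun_sum hf]
  simp only [sum_apply, Finset.mul_sum]
  rw [← Finset.sum_add_distrib, Finset.sum_div]

theorem del_sum {ι : Type*} (s : Finset ι) {f : ι → ℂ → ℂ}
    (hf : ∀ i ∈ s, DifferentiableAt ℝ (f i) z) :
    del (fun w => ∑ i ∈ s, f i w) z = ∑ i ∈ s, del (f i) z := by
  unfold del
  rw [fderiv_fun_sum hf]
  simp only [sum_apply, Finset.mul_sum]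
  rw [← Finset.sum_sub_distrib, Finset.sum_div]

theorem delM_mul {H K : ℂ → Matrix (Fin n) (Fin n) ℂ}
    (hH : ∀ a b, DifferentiableAt ℝ (fun w => H w a b) z)
    (hK : ∀ a b, DifferentiableAt ℝ (fun w => K w a b) z) :
    delM (fun w => H w * K w) z = delM H z * K z + H z * delM K z := by
  ext a b
  simp only [delM, Matrix.of_apply, Matrix.add_apply, Matrix.mul_apply]
  rw [del_sum _ fun i _ => (hH a i).fun_mul (hK i b), ← Finset.sum_add_distrib]
  exact Finset.sum_congr rfl fun i _ => del_mul (hH a i) (hK i b)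

theorem delbarM_mul {H K : ℂ → Matrix (Fin n) (Fin n) ℂ}
    (hH : ∀ a b, DifferentiableAt ℝ (fun w => H w a b) z)
    (hK : ∀ a b, DifferentiableAt ℝ (fun w => K w a b) z) :
    delbarM (fun w => H w * K w) z = delbarM H z * K z + H z * delbarM K z := by
  ext a b
  simp only [delbarM, Matrix.of_apply, Matrix.add_apply, Matrix.mul_apply]
  rw [delbar_sum _ fun i _ => (hH a i).fun_mul (hK i b), ← Finset.sum_add_distrib]
  exact Finset.sum_congr rfl fun i _ => delbar_mul (hH a i) (hK i b)

theorem delM_congr {H K : ℂ → Matrix (Fin n) (Fin n) ℂ} (h : H =ᶠ[𝓝 z] K) :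
    delM H z = delM K z := by
  ext a b
  simp only [delM, Matrix.of_apply]
  exact del_congr (h.mono fun w hw => by simp only [hw])

theorem delbarM_congr {H K : ℂ → Matrix (Fin n) (Fin n) ℂ} (h : H =ᶠ[𝓝 z] K) :
    delbarM H z = delbarM K z := by
  ext a b
  simp only [delbarM, Matrix.of_apply]
  exact delbar_congr (h.mono fun w hw => by simp only [hw])

theorem delM_transpose {H : ℂ → Matrix (Fin n) (Fin n) ℂ} :
    delM (fun w => (H w)ᵀ) z = (delM H z)ᵀ := by
  ext a b; simp [delM]

theorem delbarM_transpose {H : ℂ → Matrix (Fin n) (Fin n) ℂ} :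
    delbarM (fun w => (H w)ᵀ) z = (delbarM H z)ᵀ := by
  ext a b; simp [delbarM]

theorem delM_neg {H : ℂ → Matrix (Fin n) (Fin n) ℂ} :
    delM (fun w => - H w) z = - delM H z := by
  ext a b; simp [delM, del_neg]

theorem delbarM_neg {H : ℂ → Matrix (Fin n) (Fin n) ℂ} :
    delbarM (fun w => - H w) z = - delbarM H z := by
  ext a b; simp [delbarM, delbar_neg]

theorem delM_const (C : Matrix (Fin n) (Fin n) ℂ) : delM (fun _ => C) z = 0 := by
  ext a b; simp [delM, del_const]

theorem delbarM_of_hermitian {H : ℂ → Matrix (Fin n) (Fin n) ℂ}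
    (hd : ∀ a b, DifferentiableAt ℝ (fun w => H w a b) z)
    (hH : ∀ᶠ w in 𝓝 z, (H w).IsHermitian) :
    delbarM H z = (delM H z)ᴴ := by
  ext a b
  simp only [delbarM, delM, Matrix.of_apply, Matrix.conjTranspose_apply]
  have h1 : (fun w => H w a b) =ᶠ[𝓝 z] fun w => conj (H w b a) := by
    filter_upwards [hH] with w hw
    exact (hw.apply a b).symm
  rw [delbar_congr h1, delbar_conj (hd b a)]
  rfl

end sums

/-- the key inequality, general form -/
theorem lap_log_ge {H Φ : ℂ → Matrix (Fin n) (Fin n) ℂ} {z : ℂ}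
    (hH : ∀ a b, ContDiffAt ℝ 2 (fun w => H w a b) z)
    (hpos : ∀ᶠ w in 𝓝 z, (H w).PosDef)
    (hit : HiggsBundle.HitchinAt H Φ z) {c : Fin n} (hc : ∀ a, Φ z a c = 0) :
    4 * ((H z * (Φ z * HiggsBundle.adj (H z) (Φ z))) c c).re / (H z c c).re ≤
      lap (fun w => Real.log (H w c c).re) z := by
  have hposz : (H z).PosDef := hpos.self_of_nhds
  have hd : ∀ a b, DifferentiableAt ℝ (fun w => H w a b) z := fun a b =>
    (hH a b).differentiableAt (by norm_num)
  set A : ℂ → Matrix (Fin n) (Fin n) ℂ := fun w => (H w)⁻¹ * delM H w with hA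
  have hdetz : (H z).det ≠ 0 := by
    have := hposz.isUnit
    rw [Matrix.isUnit_iff_isUnit_det] at this
    exact this.ne_zero
  -- differentiability of A
  have hAd : ∀ a b, DifferentiableAt ℝ (fun w => A w a b) z := by
    intro a b
    simp only [hA, Matrix.mul_apply]
    refine DifferentiableAt.fun_sum fun i _ => ?_
    refine DifferentiableAt.fun_mul ?_ ?_
    · exact ((contDiffAt_inv hH hdetz a i).differentiableAt (by norm_num))
    · simp only [delM, Matrix.of_apply]
      exact diff_del (hH i b)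
  -- near z, delM H = H * A
  have hHA : ∀ᶠ w in 𝓝 z, delM H w = H w * A w := by
    filter_upwards [hpos] with w hw
    have hu : IsUnit (H w).det := by
      have := hw.isUnit
      rwa [Matrix.isUnit_iff_isUnit_det] at this
    simp only [hA]
    rw [← Matrix.mul_assoc, Matrix.mul_nonsing_inv _ hu, Matrix.one_mul]
  have hherm : ∀ᶠ w in 𝓝 z, (H w).IsHermitian := hpos.mono fun w hw => hw.isHermitian
  -- second derivative
  have hdel : del (fun w => H w c c) =ᶠ[𝓝 z] fun w => (H w * A w) c c := by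
    filter_upwards [hHA] with w hw
    rw [← hw]; rfl
  have hsecond : delbar (del (fun w => H w c c)) z =
      (delbarM H z * A z + H z * delbarM A z) c c := by
    rw [delbar_congr hdel, ← delbarM_mul hd hAd]
    rfl
  set v : Fin n → ℂ := A z *ᵥ Pi.single c 1 with hv
  have hfirst : (delbarM H z * A z) c c = ip (H z) v v := by
    rw [delbarM_of_hermitian hd hherm, hHA.self_of_nhds, Matrix.conjTranspose_mul,
      hposz.isHermitian.eq, hv, ip_mulVec_left, Matrix.mulVec_mulVec]
    simp
  have hsec2 : (H z * delbarM A z) c c = (H z * (Φ z * HiggsBundle.adj (H z) (Φ z))) c c := by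
    have h1 : delbarM A z = Φ z * HiggsBundle.adj (H z) (Φ z) - HiggsBundle.adj (H z) (Φ z) * Φ z :=
      hit
    rw [h1, Matrix.mul_sub, Matrix.sub_apply]
    have h2 : (H z * (HiggsBundle.adj (H z) (Φ z) * Φ z)) c c = 0 := by
      rw [← Matrix.mul_assoc, Matrix.mul_apply]
      exact Finset.sum_eq_zero fun j _ => by rw [hc j, mul_zero]
    rw [h2, sub_zero]
  have hgrad : del (fun w => H w c c) z = ip (H z) (Pi.single c 1) v := by
    rw [hdel.self_of_nhds, hv, ip_single_left, Matrix.mulVec_mulVec]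
    simp
  have hec : (Pi.single c 1 : Fin n → ℂ) ≠ 0 := by
    intro h; have := congrFun h c; simp at this
  have hu : 0 < (H z c c).re := by
    have := ip_self_pos hposz hec
    rwa [ip_single] at this
  have hcs := ip_cs hposz (Pi.single c 1) v
  rw [ip_single, ← hgrad] at hcs
  have hre2 : ContDiffAt ℝ 2 (fun w => (H w c c).re) z :=
    Complex.reCLM.contDiff.contDiffAt.comp z (hH c c)
  rw [lap_log hre2 hu, lap_re (hH c c), hsecond, Matrix.add_apply, hfirst, hsec2,
    grad2_re (hd c c) (by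
      filter_upwards [hherm] with w hw
      exact Complex.conj_eq_iff_im.1 (hw.apply c c))]
  rw [Complex.add_re]
  set u := (H z c c).re with hudef
  set Q := ((H z * (Φ z * HiggsBundle.adj (H z) (Φ z))) c c).re
  set P := (ip (H z) v v).re
  have h5 : 4 * normSq (del (fun w => H w c c) z) / u ^ 2 ≤ 4 * P / u := by
    rw [div_le_div_iff₀ (by positivity) hu]
    nlinarith [hcs]
  have h6 : 4 * (P + Q) / u = 4 * P / u + 4 * Q / u := by ring
  rw [h6]
  linarith

end MP_8bb00a_gt
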