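import Mathlib
import Pool.Agent.Lib_MP_8bb00a_gt.Ineq

/-!
# Duality and the differential inequality in rank three
-/

open Complex Set
open scoped ComplexConjugate Topology ContDiff Matrix ComplexOrder

namespace MP_8bb00a_gt

variable {n : ℕ}

theorem isUnit_det_of_posDef {H : Matrix (Fin n) (Fin n) ℂ} (h : H.PosDef) : IsUnit H.det := by
  have := h.isUnit
  rwa [Matrix.isUnit_iff_isUnit_det] at this

/-- the dual metric solves Hitchin's equation for the dual Higgs field -/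
theorem hitchinAt_dual {H Φ : ℂ → Matrix (Fin n) (Fin n) ℂ} {z : ℂ}
    (hH : ∀ a b, ContDiffAt ℝ 2 (fun w => H w a b) z)
    (hpos : ∀ᶠ w in 𝓝 z, (H w).PosDef)
    (hit : HiggsBundle.HitchinAt H Φ z) :
    HiggsBundle.HitchinAt (fun w => ((H w)⁻¹)ᵀ) (fun w => -(Φ w)ᵀ) z := by
  have hHe : ∀ᶠ w in 𝓝 z, ∀ a b, ContDiffAt ℝ 2 (fun w => H w a b) w := by
    rw [Filter.eventually_all]; intro a
    rw [Filter.eventually_all]; intro b
    exact (hH a b).eventually (by norm_num)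
  have hposz : (H z).PosDef := hpos.self_of_nhds
  -- derivative of the inverse
  have hinv : ∀ᶠ w in 𝓝 z, delM (fun w => (H w)⁻¹) w = -((H w)⁻¹ * delM H w * (H w)⁻¹) := by
    filter_upwards [hHe, hpos.eventually_nhds] with w h1 h2
    have hu := isUnit_det_of_posDef h2.self_of_nhds
    have hd : ∀ a b, DifferentiableAt ℝ (fun w => H w a b) w := fun a b =>
      (h1 a b).differentiableAt (by norm_num)
    have hdi : ∀ a b, DifferentiableAt ℝ (fun w => (H w)⁻¹ a b) w := fun a b =>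
      (contDiffAt_inv h1 hu.ne_zero a b).differentiableAt (by norm_num)
    have hone : (fun w => H w * (H w)⁻¹) =ᶠ[𝓝 w] fun _ => 1 := by
      filter_upwards [h2] with x hx
      exact Matrix.mul_nonsing_inv _ (isUnit_det_of_posDef hx)
    have h3 := delM_mul hd hdi
    rw [delM_congr hone, delM_const] at h3
    have h4 : H w * delM (fun w => (H w)⁻¹) w = - (delM H w * (H w)⁻¹) :=
      eq_neg_of_add_eq_zero_right h3.symm
    calc delM (fun w => (H w)⁻¹) w = (H w)⁻¹ * (H w * delM (fun w => (H w)⁻¹) w) := by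
          rw [← Matrix.mul_assoc, Matrix.nonsing_inv_mul _ hu, Matrix.one_mul]
      _ = _ := by rw [h4, Matrix.mul_neg, Matrix.mul_assoc]
  have hA : (fun w => (((H w)⁻¹)ᵀ)⁻¹ * delM (fun w => ((H w)⁻¹)ᵀ) w) =ᶠ[𝓝 z]
      fun w => -((H w)⁻¹ * delM H w)ᵀ := by
    filter_upwards [hinv, hpos] with w h1 h2
    have hu := isUnit_det_of_posDef h2
    rw [delM_transpose, h1, ← Matrix.transpose_nonsing_inv, Matrix.nonsing_inv_nonsing_inv _ hu,
      ← Matrix.transpose_mul, Matrix.neg_mul, Matrix.mul_assoc, Matrix.nonsing_inv_mul _ hu,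
      Matrix.mul_one, Matrix.transpose_neg]
  have hu := isUnit_det_of_posDef hposz
  unfold HiggsBundle.HitchinAt at hit ⊢
  rw [delbarM_congr hA, delbarM_neg, delbarM_transpose, hit]
  unfold HiggsBundle.adj
  have h5 : (((H z)⁻¹)ᵀ)⁻¹ = (H z)ᵀ := by
    rw [← Matrix.transpose_nonsing_inv, Matrix.nonsing_inv_nonsing_inv _ hu]
  rw [h5]
  simp only [Matrix.transpose_sub, Matrix.transpose_mul, Matrix.conjTranspose_neg, Matrix.mul_neg,
    Matrix.neg_mul, neg_neg, Matrix.mul_assoc]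
  have h6 : ((Φ z)ᵀ)ᴴ = ((Φ z)ᴴ)ᵀ := rfl
  rw [h6]
  abel

theorem posDef_dual {H : Matrix (Fin n) (Fin n) ℂ} (hH : H.PosDef) : ((H⁻¹)ᵀ).PosDef :=
  hH.inv.transpose

/-- `x y` with `x = H₃₃`, `y = (H⁻¹)₁₁` -/
noncomputable def afun (H : Matrix (Fin 3) (Fin 3) ℂ) : ℝ := (H 2 2).re * (H⁻¹ 0 0).re

theorem inv_eq_adjugate {H : Matrix (Fin n) (Fin n) ℂ} (hdet : H.det = 1) :
    H⁻¹ = H.adjugate := by
  rw [Matrix.inv_def, hdet, Ring.inverse_one, one_smul]

theorem herm_diag_real {H : Matrix (Fin n) (Fin n) ℂ} (hH : H.IsHermitian) (a : Fin n) :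
    H a a = ((H a a).re : ℂ) :=
  (Complex.conj_eq_iff_re.1 (hH.apply a a)).symm

theorem minor_inv {H : Matrix (Fin 3) (Fin 3) ℂ} (hH : H.IsHermitian) (hdet : H.det = 1) :
    (H 1 1).re * (H 2 2).re - normSq (H 1 2) = (H⁻¹ 0 0).re := by
  rw [inv_eq_adjugate hdet, Matrix.adjugate_fin_three]
  have h1 := herm_diag_real hH 1
  have h2 := herm_diag_real hH 2
  have h3 : H 2 1 = conj (H 1 2) := (hH.apply 2 1).symm
  have h4 : H 1 1 * H 2 2 - H 1 2 * H 2 1 =
      (((H 1 1).re * (H 2 2).re - normSq (H 1 2) : ℝ) : ℂ) := by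
    rw [h3, Complex.mul_conj]
    push_cast
    rw [← h1, ← h2]
  simp only [Matrix.of_apply, Matrix.cons_val', Matrix.cons_val_zero]
  rw [h4, Complex.ofReal_re]

theorem pos_of_posDef {H : Matrix (Fin n) (Fin n) ℂ} (hH : H.PosDef) (a : Fin n) :
    0 < (H a a).re := by
  have hec : (Pi.single a 1 : Fin n → ℂ) ≠ 0 := by
    intro h; have := congrFun h a; simp at this
  have := ip_self_pos hH hec
  rwa [ip_single] at this

theorem afun_pos {H : Matrix (Fin 3) (Fin 3) ℂ} (hH : H.PosDef) : 0 < afun H :=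
  mul_pos (pos_of_posDef hH 2) (pos_of_posDef hH.inv 0)

theorem amgm {x y : ℝ} (hx : 0 < x) (hy : 0 < y) : 2 * √(x * y) ≤ x ^ 2 / y + y ^ 2 / x := by
  have h1 : x ^ 2 / y + y ^ 2 / x = (x ^ 3 + y ^ 3) / (x * y) := by
    field_simp
  rw [h1, le_div_iff₀ (mul_pos hx hy)]
  have h2 : 0 ≤ √(x * y) := Real.sqrt_nonneg _
  have h3 : √(x * y) ^ 2 = x * y := Real.sq_sqrt (mul_pos hx hy).le
  set r := √(x * y)
  have h4 : 2 * r * (x * y) = 2 * r ^ 3 := by rw [← h3]; ring
  rw [h4]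
  -- (x^3 + y^3)^2 >= 4 x^3 y^3 = 4 r^6
  have h5 : (2 * r ^ 3) ^ 2 ≤ (x ^ 3 + y ^ 3) ^ 2 := by
    have : (2 * r ^ 3) ^ 2 = 4 * (x * y) ^ 3 := by rw [← h3]; ring
    rw [this]
    nlinarith [sq_nonneg (x ^ 3 - y ^ 3)]
  exact (pow_le_pow_iff_left₀ (by positivity) (by positivity) (by norm_num)).1 h5

/-- the differential inequality for `a` -/
theorem lap_log_afun {H Φ : ℂ → Matrix (Fin 3) (Fin 3) ℂ} {z : ℂ}
    (hH : ∀ a b, ContDiffAt ℝ 2 (fun w => H w a b) z)
    (hpos : ∀ᶠ w in 𝓝 z, (H w).PosDef) (hdet : (H z).det = 1)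
    (hit : HiggsBundle.HitchinAt H Φ z) {γ δ : ℂ}
    (hΦ : Φ z = !![0, 0, 0; γ, 0, 0; δ, γ, 0]) :
    8 * normSq γ * √(afun (H z)) ≤ lap (fun w => Real.log (afun (H w))) z := by
  have hposz : (H z).PosDef := hpos.self_of_nhds
  have hu := isUnit_det_of_posDef hposz
  -- first inequality
  have h1 := lap_log_ge hH hpos hit (c := 2) (by rw [hΦ]; intro a; fin_cases a <;> rfl)
  have h2 := adj_lower hposz (b := 1) (c := 2) (by decide) (γ := γ)
    (Φ := Φ z) (by rw [hΦ]; intro a; fin_cases a <;> rfl) (by rw [hΦ]; intro a; fin_cases a <;> rfl)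
  rw [minor_inv hposz.isHermitian hdet] at h2
  -- dual
  set K : ℂ → Matrix (Fin 3) (Fin 3) ℂ := fun w => ((H w)⁻¹)ᵀ with hK
  set Ψ : ℂ → Matrix (Fin 3) (Fin 3) ℂ := fun w => -(Φ w)ᵀ with hΨ
  have hKd : ∀ a b, ContDiffAt ℝ 2 (fun w => K w a b) z := fun a b =>
    contDiffAt_inv hH hu.ne_zero b a
  have hKpos : ∀ᶠ w in 𝓝 z, (K w).PosDef := hpos.mono fun w hw => posDef_dual hw
  have hKit : HiggsBundle.HitchinAt K Ψ z := hitchinAt_dual hH hpos hit
  have hKz : (K z).PosDef := hKpos.self_of_nhds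
  have h3 := lap_log_ge hKd hKpos hKit (c := 0)
    (by simp only [hΨ, hΦ]; intro a; fin_cases a <;> simp)
  have h4 := adj_lower hKz (b := 1) (c := 0) (by decide) (γ := -γ)
    (Φ := Ψ z) (by simp only [hΨ, hΦ]; intro a; fin_cases a <;> simp)
    (by simp only [hΨ, hΦ]; intro a; fin_cases a <;> simp)
  have hKdet : (K z).det = 1 := by
    simp only [hK]
    rw [Matrix.det_transpose, Matrix.det_nonsing_inv, hdet, Ring.inverse_one]
  have hKinv : (K z)⁻¹ = (H z)ᵀ := by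
    simp only [hK]
    rw [← Matrix.transpose_nonsing_inv, Matrix.nonsing_inv_nonsing_inv _ hu]
  -- the minor of the dual metric
  have hmin : (K z 1 1).re * (K z 0 0).re - normSq (K z 1 0) = (H z 2 2).re := by
    have e1 := inv_eq_adjugate hKdet
    rw [hKinv, Matrix.adjugate_fin_three] at e1
    have e2 := congrFun (congrFun e1 2) 2
    simp only [Matrix.transpose_apply, Matrix.of_apply, Matrix.cons_val', Matrix.cons_val_two,
      Matrix.cons_val_zero, Matrix.tail_cons, Matrix.head_cons, Matrix.cons_val] at e2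
    have e3 := herm_diag_real hKz.isHermitian 1
    have e4 := herm_diag_real hKz.isHermitian 0
    have e5 : K z 0 1 = conj (K z 1 0) := (hKz.isHermitian.apply 0 1).symm
    have e6 : H z 2 2 = (((K z 1 1).re * (K z 0 0).re - normSq (K z 1 0) : ℝ) : ℂ) := by
      rw [e2, e5]
      push_cast
      rw [← e3, ← e4, mul_comm (conj (K z 1 0)), Complex.mul_conj]
      ring
    rw [e6, Complex.ofReal_re]
  rw [hmin, Complex.normSq_neg] at h4
  set x := (H z 2 2).re with hx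
  have hKy : (K z 0 0).re = ((H z)⁻¹ 0 0).re := rfl
  rw [hKy] at h4 h3
  set y := ((H z)⁻¹ 0 0).re with hy
  have hx0 : 0 < x := pos_of_posDef hposz 2
  have hy0 : 0 < y := pos_of_posDef hposz.inv 0
  -- decomposition of the logarithm
  have hlog : (fun w => Real.log (afun (H w))) =ᶠ[𝓝 z]
      fun w => Real.log (H w 2 2).re + Real.log (K w 0 0).re := by
    filter_upwards [hpos] with w hw
    exact Real.log_mul (pos_of_posDef hw 2).ne' (pos_of_posDef hw.inv 0).ne'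
  have hc1 : ContDiffAt ℝ 2 (fun w => Real.log (H w 2 2).re) z :=
    (Complex.reCLM.contDiff.contDiffAt.comp z (hH 2 2)).log hx0.ne'
  have hc2 : ContDiffAt ℝ 2 (fun w => Real.log (K w 0 0).re) z :=
    (Complex.reCLM.contDiff.contDiffAt.comp z (hKd 0 0)).log hy0.ne'
  rw [lap_congr hlog, lap_add hc1 hc2]
  set Q1 := ((H z * (Φ z * HiggsBundle.adj (H z) (Φ z))) 2 2).re
  set Q2 := ((K z * (Ψ z * HiggsBundle.adj (K z) (Ψ z))) 0 0).re
  have h5 : 4 * normSq γ * (x ^ 2 / y) ≤ 4 * Q1 / x := by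
    rw [le_div_iff₀ hx0]
    have : 4 * normSq γ * (x ^ 2 / y) * x = 4 * (normSq γ * x ^ 3 / y) := by
      field_simp
    rw [this]; linarith
  have h6 : 4 * normSq γ * (y ^ 2 / x) ≤ 4 * Q2 / y := by
    rw [le_div_iff₀ hy0]
    have : 4 * normSq γ * (y ^ 2 / x) * y = 4 * (normSq γ * y ^ 3 / x) := by
      field_simp
    rw [this]; linarith
  have h7 := amgm hx0 hy0
  have h8 : 8 * normSq γ * √(afun (H z)) ≤
      4 * normSq γ * (x ^ 2 / y) + 4 * normSq γ * (y ^ 2 / x) := by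
    have h9 := mul_le_mul_of_nonneg_left h7 (mul_nonneg (by norm_num : (0:ℝ) ≤ 4) (normSq_nonneg γ))
    have h10 : afun (H z) = x * y := rfl
    rw [h10]
    linarith
  linarith

end MP_8bb00a_gt
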