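import Pool.Agent.Lib_MP_8bb00a_gt.Surf2
import Pool.Agent.Lib_MP_8bb00a_gt.Calc

/-!
PIECE H: the maximum principle for `C^2` functions on a compact Riemann surface.
-/

open MeasureTheory Complex Set Metric Filter Topology
open scoped Real ContDiff ComplexConjugate Manifold

noncomputable section

namespace Pool.Agent.Lib8bb

theorem dz_eq_del (f : ℂ → ℂ) : dz f = MP_8bb00a_gt.del f := by
  funext z
  simp only [dz, MP_8bb00a_gt.del, smul_eq_mul]
  ring

theorem dzb_eq_delbar (f : ℂ → ℂ) : dzb f = MP_8bb00a_gt.delbar f := by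
  funext z
  simp only [dzb, MP_8bb00a_gt.delbar, smul_eq_mul]
  ring

/-- second derivative test in Wirtinger form -/
theorem dzb_dz_re_nonpos {f : ℂ → ℝ} {z : ℂ} (hf : ContDiffAt ℝ 2 f z) (hmax : IsLocalMax f z) :
    (dzb (dz (fun x => ((f x : ℝ) : ℂ))) z).re ≤ 0 := by
  have hF : ContDiffAt ℝ 2 (fun x => ((f x : ℝ) : ℂ)) z :=
    Complex.ofRealCLM.contDiff.contDiffAt.comp z hf
  have h1 := MP_8bb00a_gt.lap_nonpos_of_isLocalMax hf hmax
  have h2 := MP_8bb00a_gt.lap_re hF
  simp only [Complex.ofReal_re] at h2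
  rw [dz_eq_del, dzb_eq_delbar]
  rw [h2] at h1
  linarith

section H

variable {X : Type*} [TopologicalSpace X] [ChartedSpace ℂ X] [IsManifold 𝓘(ℂ) ω X]
  [CompactSpace X]

theorem max_principle {f : X → ℝ} (hf : Ck 2 f)
    (h : ∀ e ∈ atlas ℂ X, ∀ z ∈ e.target, 0 < f (e.symm z) →
      0 < (dzb (dz (fun x => ((f (e.symm x) : ℝ) : ℂ))) z).re) : ∀ x, f x ≤ 0 := by
  rcases isEmpty_or_nonempty X with hX | hX
  · intro x; exact (hX.false x).elim
  obtain ⟨x0, -, hmax⟩ := isCompact_univ.exists_isMaxOn (Set.univ_nonempty)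
    (hf.continuous).continuousOn
  have hmax' : ∀ y, f y ≤ f x0 := fun y => hmax (Set.mem_univ y)
  by_contra hcon
  push Not at hcon
  obtain ⟨x, hx⟩ := hcon
  have hpos : 0 < f x0 := hx.trans_le (hmax' x)
  set e := chartAt ℂ x0 with he
  have hea : e ∈ atlas ℂ X := chart_mem_atlas ℂ x0
  have hsrc : x0 ∈ e.source := mem_chart_source ℂ x0
  have hz : e x0 ∈ e.target := e.map_source hsrc
  have hinv : e.symm (e x0) = x0 := e.left_inv hsrc
  have h1 := h e hea (e x0) hz (by rw [hinv]; exact hpos)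
  have h2 : IsLocalMax (fun w => f (e.symm w)) (e x0) := by
    refine Filter.Eventually.of_forall fun w => ?_
    simp only [hinv]
    exact hmax' _
  have h3 := dzb_dz_re_nonpos (hf.contDiffAt hea hz) h2
  linarith

end H

end Pool.Agent.Lib8bb
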