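import Mathlib
import Pool.Agent.Lib_MP_8bb00a_gt.Ineq3
import Pool.Agent.Lib_MP_8bb00a_gt.EDefs
import Pool.Agent.Lib_MP_8bb00a_gt.MaxP

/-!
# Transfer between the normed (Frobenius) and the entrywise Wirtinger calculus for matrices
-/

open Complex Set
open scoped ComplexConjugate Topology ContDiff Matrix ComplexOrder Matrix.Norms.Frobenius

noncomputable section

namespace MP_8bb00a_gt

open Pool.Agent.Lib8bb

/-- the entry as a continuous linear map -/
def entL (a b : Fin 3) : M3 →L[ℂ] ℂ :=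
  LinearMap.toContinuousLinearMap (Matrix.entryLinearMap ℂ ℂ a b)

theorem entL_apply (a b : Fin 3) (M : M3) : entL a b M = M a b := rfl

theorem dz_eq_delM {F : ℂ → M3} {z : ℂ} (hF : DifferentiableAt ℝ F z) : dz F z = delM F z := by
  ext a b
  have h : dz (fun w => F w a b) z = (dz F z) a b := dz_clm_comp (entL a b) hF
  rw [← h]
  simp only [delM, Matrix.of_apply]
  rw [dz_eq_del]

theorem dzb_eq_delbarM {F : ℂ → M3} {z : ℂ} (hF : DifferentiableAt ℝ F z) :
    dzb F z = delbarM F z := by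
  ext a b
  have h : dzb (fun w => F w a b) z = (dzb F z) a b := dzb_clm_comp (entL a b) hF
  rw [← h]
  simp only [delbarM, Matrix.of_apply]
  rw [dzb_eq_delbar]

theorem matrix_eq_sum (M : M3) : M = ∑ a : Fin 3, ∑ b : Fin 3, M a b • Matrix.single a b (1 : ℂ) := by
  conv_lhs => rw [Matrix.matrix_eq_sum_single M]
  refine Finset.sum_congr rfl fun a _ => Finset.sum_congr rfl fun b _ => ?_
  rw [Matrix.smul_single, smul_eq_mul, mul_one]

theorem diffAt_of_entries {F : ℂ → M3} {z : ℂ} (h : ∀ a b, DifferentiableAt ℝ (fun w => F w a b) z) :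
    DifferentiableAt ℝ F z := by
  have h1 : F = fun w => ∑ a : Fin 3, ∑ b : Fin 3, F w a b • Matrix.single a b (1 : ℂ) := by
    funext w; exact matrix_eq_sum _
  rw [h1]
  refine DifferentiableAt.fun_sum fun a _ => DifferentiableAt.fun_sum fun b _ => ?_
  exact (h a b).smul_const _

theorem entries_contDiffOn {F : ℂ → M3} {U : Set ℂ} {k : ℕ∞ω} (h : ContDiffOn ℝ k F U) (a b : Fin 3) :
    ContDiffOn ℝ k (fun w => F w a b) U := by
  have h1 : ContDiff ℝ k (fun M : M3 => M a b) :=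
    ((entL a b).restrictScalars ℝ).contDiff
  exact h1.comp_contDiffOn h

theorem delM_const_mul_mul {F : ℂ → M3} {z : ℂ} (hF : ∀ a b, DifferentiableAt ℝ (fun w => F w a b) z)
    (A B : M3) : delM (fun w => A * F w * B) z = A * delM F z * B := by
  have hc : ∀ (C : M3) (a b : Fin 3), DifferentiableAt ℝ (fun _ : ℂ => C a b) z := fun C a b =>
    differentiableAt_const _
  have h1 : ∀ a b, DifferentiableAt ℝ (fun w => (A * F w) a b) z := by
    intro a b
    simp only [Matrix.mul_apply]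
    exact DifferentiableAt.fun_sum fun i _ => (hF i b).const_mul _
  rw [delM_mul h1 (hc B), delM_const, Matrix.mul_zero, add_zero, delM_mul (hc A) hF, delM_const,
    Matrix.zero_mul, zero_add]

theorem delbarM_const (C : M3) {z : ℂ} : delbarM (fun _ => C) z = 0 := by
  ext a b; simp [delbarM, delbar_const]

theorem delbarM_const_mul_mul {F : ℂ → M3} {z : ℂ}
    (hF : ∀ a b, DifferentiableAt ℝ (fun w => F w a b) z)
    (A B : M3) : delbarM (fun w => A * F w * B) z = A * delbarM F z * B := by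
  have hc : ∀ (C : M3) (a b : Fin 3), DifferentiableAt ℝ (fun _ : ℂ => C a b) z := fun C a b =>
    differentiableAt_const _
  have h1 : ∀ a b, DifferentiableAt ℝ (fun w => (A * F w) a b) z := by
    intro a b
    simp only [Matrix.mul_apply]
    exact DifferentiableAt.fun_sum fun i _ => (hF i b).const_mul _
  rw [delbarM_mul h1 (hc B), delbarM_const, Matrix.mul_zero, add_zero, delbarM_mul (hc A) hF,
    delbarM_const, Matrix.zero_mul, zero_add]

/-- change of the frame by a constant matrix `D` -/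
theorem hitchin_transfer {H : ℂ → M3} {U : Set ℂ} (hU : IsOpen U) (hH : ContDiffOn ℝ ∞ H U)
    (hpos : ∀ w ∈ U, (H w).PosDef) {z : ℂ} (hz : z ∈ U) {Ψ Φ : ℂ → M3} {D Di : M3}
    (hD1 : D * Di = 1) (hD2 : Di * D = 1) (hΦ : Ψ z * D = D * Φ z)
    (heq : dzb (fun x => (H x)⁻¹ * dz H x) z =
      Ψ z * ((H z)⁻¹ * star (Ψ z) * H z) - ((H z)⁻¹ * star (Ψ z) * H z) * Ψ z)
    {K : ℂ → M3} (hK : ∀ w ∈ U, K w = Dᴴ * H w * D) :
    HiggsBundle.HitchinAt K Φ z := by
  have hHc : ∀ w ∈ U, ∀ a b, ContDiffAt ℝ 2 (fun w => H w a b) w := fun w hw a b =>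
    ((entries_contDiffOn hH a b).contDiffAt (hU.mem_nhds hw)).of_le (by
      have : ((2 : ℕ∞) : ℕ∞ω) ≤ ((⊤ : ℕ∞) : ℕ∞ω) := WithTop.coe_le_coe.2 le_top
      exact this)
  have hHd : ∀ w ∈ U, ∀ a b, DifferentiableAt ℝ (fun w => H w a b) w := fun w hw a b =>
    (hHc w hw a b).differentiableAt (by norm_num)
  have hHD : ∀ w ∈ U, DifferentiableAt ℝ H w := fun w hw => diffAt_of_entries (hHd w hw)
  have hUz := hU.mem_nhds hz
  -- the connection form
  set A : ℂ → M3 := fun w => (H w)⁻¹ * delM H w with hA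
  have hAd : ∀ a b, DifferentiableAt ℝ (fun w => A w a b) z := by
    intro a b
    simp only [hA, Matrix.mul_apply]
    refine DifferentiableAt.fun_sum fun i _ => ?_
    refine DifferentiableAt.fun_mul ?_ ?_
    · exact ((contDiffAt_inv (hHc z hz) (isUnit_det_of_posDef (hpos z hz)).ne_zero a
        i).differentiableAt (by norm_num))
    · simp only [delM, Matrix.of_apply]
      exact diff_del (hHc z hz i b)
  have hAeq : (fun x => (H x)⁻¹ * dz H x) =ᶠ[𝓝 z] A := by
    filter_upwards [hUz] with w hw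
    simp only [hA]
    rw [dz_eq_delM (hHD w hw)]
  have hAD : DifferentiableAt ℝ A z := diffAt_of_entries hAd
  have h1 : dzb (fun x => (H x)⁻¹ * dz H x) z = delbarM A z := by
    rw [Pool.Agent.Lib8bb.dzb_congr hAeq, dzb_eq_delbarM hAD]
  rw [h1] at heq
  have hDinv : D⁻¹ = Di := Matrix.inv_eq_right_inv hD1
  have hDHinv : (Dᴴ)⁻¹ = Diᴴ := by
    rw [← Matrix.conjTranspose_nonsing_inv, hDinv]
  -- the new connection form
  have hKA : (fun w => (K w)⁻¹ * delM K w) =ᶠ[𝓝 z] fun w => Di * A w * D := by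
    filter_upwards [hU.eventually_mem hz] with w hw
    have hKw : K =ᶠ[𝓝 w] fun x => Dᴴ * H x * D := by
      filter_upwards [hU.mem_nhds hw] with x hx
      exact hK x hx
    rw [delM_congr hKw, delM_const_mul_mul (hHd w hw), hK w hw]
    simp only [hA]
    rw [Matrix.mul_inv_rev, Matrix.mul_inv_rev, hDinv, hDHinv]
    have h2 : Diᴴ * Dᴴ = 1 := by
      rw [← Matrix.conjTranspose_mul, hD1, Matrix.conjTranspose_one]
    calc Di * ((H w)⁻¹ * Diᴴ) * (Dᴴ * delM H w * D)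
        = Di * ((H w)⁻¹ * ((Diᴴ * Dᴴ) * delM H w)) * D := by simp only [Matrix.mul_assoc]
      _ = Di * ((H w)⁻¹ * delM H w) * D := by rw [h2, Matrix.one_mul]
  unfold HiggsBundle.HitchinAt
  rw [delbarM_congr hKA, delbarM_const_mul_mul hAd, heq]
  unfold HiggsBundle.adj
  rw [hK z hz, Matrix.mul_inv_rev, Matrix.mul_inv_rev, hDinv, hDHinv]
  have hΦ2 : Φ z = Di * Ψ z * D := by
    rw [Matrix.mul_assoc, hΦ, ← Matrix.mul_assoc, hD2, Matrix.one_mul]
  have hst : star (Ψ z) = (Ψ z)ᴴ := rfl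
  have h3 : Diᴴ * Dᴴ = 1 := by
    rw [← Matrix.conjTranspose_mul, hD1, Matrix.conjTranspose_one]
  have h4 : Dᴴ * Diᴴ = 1 := by
    rw [← Matrix.conjTranspose_mul, hD2, Matrix.conjTranspose_one]
  have h5 : Di * ((H z)⁻¹ * Diᴴ) * (Φ z)ᴴ * (Dᴴ * H z * D) =
      Di * ((H z)⁻¹ * (Ψ z)ᴴ * H z) * D := by
    rw [hΦ2, Matrix.conjTranspose_mul, Matrix.conjTranspose_mul]
    calc Di * ((H z)⁻¹ * Diᴴ) * (Dᴴ * ((Ψ z)ᴴ * Diᴴ)) * (Dᴴ * H z * D)
        = Di * ((H z)⁻¹ * ((Diᴴ * Dᴴ) * ((Ψ z)ᴴ * ((Diᴴ * Dᴴ) * H z)))) * D := by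
          simp only [Matrix.mul_assoc]
      _ = _ := by rw [h3, Matrix.one_mul, Matrix.one_mul]; simp only [Matrix.mul_assoc]
  rw [h5, hst, hΦ2]
  rw [Matrix.mul_sub, Matrix.sub_mul]
  congr 1
  · calc Di * (Ψ z * ((H z)⁻¹ * (Ψ z)ᴴ * H z)) * D
        = Di * Ψ z * (1 * ((H z)⁻¹ * (Ψ z)ᴴ * H z)) * D := by
          rw [Matrix.one_mul]; simp only [Matrix.mul_assoc]
      _ = _ := by rw [← hD1]; simp only [Matrix.mul_assoc]
  · calc Di * ((H z)⁻¹ * (Ψ z)ᴴ * H z * Ψ z) * D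
        = Di * ((H z)⁻¹ * (Ψ z)ᴴ * H z) * (1 * Ψ z) * D := by
          rw [Matrix.one_mul]; simp only [Matrix.mul_assoc]
      _ = _ := by rw [← hD1]; simp only [Matrix.mul_assoc]

end MP_8bb00a_gt
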