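import Mathlib
import Pool.Agent.Lib_MP_8bb00a_gt.Transfer
import Pool.Agent.Lib_MP_8bb00a_gt.Bundle
import Pool.Agent.Lib_MP_8bb00a_gt.Perturb
import Pool.Agent.Lib_MP_8bb00a_gt.BaseMetric
import Pool.Agent.Lib_MP_8bb00a_gt.Frame

/-!
# Existence of harmonic metrics on `(E, s φ)` for all large `s`
-/

open Complex Set
open scoped ComplexConjugate Topology ContDiff Matrix ComplexOrder Matrix.Norms.Frobenius

noncomputable section

namespace MP_8bb00a_gt

open Pool.Agent.Lib8bb

/-- the nilpotent Jordan block and its square -/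
def N1 : M3 := !![0, 0, 0; 1, 0, 0; 0, 1, 0]
def N2 : M3 := !![0, 0, 0; 0, 0, 0; 1, 0, 0]

theorem eInf_ne (P : AffC) : eInf ≠ eAff P := by
  intro h
  have h1 := infty_mem_source
  rw [h] at h1
  exact infty_notMem P h1

open Classical in
/-- the coefficient of `N1` -/
def w0 (e : OpenPartialHomeomorph Crv ℂ) (z : ℂ) : ℂ :=
  if h : ∃ P, e = eAff P then omAff h.choose z else mfun z * z

open Classical in
/-- the coefficient of `N2` -/
def w1 (e : OpenPartialHomeomorph Crv ℂ) (z : ℂ) : ℂ :=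
  if h : ∃ P, e = eAff P then omAff h.choose z else mfun z

theorem omAff_indep {P Q : AffC} (h : eAff P = eAff Q) {z : ℂ} (hz : z ∈ (eAff P).target) :
    omAff P z = omAff Q z := by
  have hs : (eAff P).symm z ∈ (eAff Q).source := by
    rw [← h]; exact (eAff P).map_target hz
  have h1 := omAff_compat P Q z hz hs
  have h2 : (fun w => eAff Q ((eAff P).symm w)) = trans (eAff P) (eAff P) := by
    funext w; rw [← h]; rfl
  rw [h2, deriv_trans_self hz, mul_one, ← h, (eAff P).right_inv hz] at h1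
  exact h1

theorem w0_aff (P : AffC) {z : ℂ} (hz : z ∈ (eAff P).target) : w0 (eAff P) z = omAff P z := by
  have h : ∃ Q, eAff P = eAff Q := ⟨P, rfl⟩
  unfold w0
  rw [dif_pos h]
  exact (omAff_indep h.choose_spec hz).symm

theorem w1_aff (P : AffC) {z : ℂ} (hz : z ∈ (eAff P).target) : w1 (eAff P) z = omAff P z := by
  have h : ∃ Q, eAff P = eAff Q := ⟨P, rfl⟩
  unfold w1
  rw [dif_pos h]
  exact (omAff_indep h.choose_spec hz).symm

theorem w0_inf (z : ℂ) : w0 eInf z = mfun z * z := by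
  unfold w0
  rw [dif_neg]
  rintro ⟨P, hP⟩
  exact eInf_ne P hP

theorem w1_inf (z : ℂ) : w1 eInf z = mfun z := by
  unfold w1
  rw [dif_neg]
  rintro ⟨P, hP⟩
  exact eInf_ne P hP

theorem atlas_cases {e : OpenPartialHomeomorph Crv ℂ} (he : e ∈ atlas ℂ Crv) :
    e = eInf ∨ ∃ P, e = eAff P := by
  rcases he with he | ⟨P, rfl⟩
  · exact Or.inl he
  · exact Or.inr ⟨P, rfl⟩

theorem eInf_mem : eInf ∈ atlas ℂ Crv := Or.inl rfl
theorem eAff_mem (P : AffC) : eAff P ∈ atlas ℂ Crv := Or.inr ⟨P, rfl⟩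

/-- on an overlap with the chart at infinity, `dx/y` -/
theorem om_inf_trans {P : AffC} {z : ℂ} (hz : z ∈ dom (eAff P) eInf) :
    omAff P z = mfun (trans (eAff P) eInf z) * (trans (eAff P) eInf z) ^ 2 *
      deriv (trans (eAff P) eInf) z := by
  have h1 := omInf_compat P z hz.1 hz.2
  rw [h1]
  show _ = mfun (eInf ((eAff P).symm z)) * (eInf ((eAff P).symm z)) ^ 2 *
    deriv (fun w => eInf ((eAff P).symm w)) z
  unfold mfun
  ring

theorem om_aff_trans {P Q : AffC} {z : ℂ} (hz : z ∈ dom (eAff P) (eAff Q)) :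
    omAff P z = omAff Q (trans (eAff P) (eAff Q) z) * deriv (trans (eAff P) (eAff Q)) z :=
  omAff_compat P Q z hz.1 hz.2

theorem trans_inf_ne {P : AffC} {z : ℂ} (hz : z ∈ dom (eAff P) eInf) :
    trans (eAff P) eInf z ≠ 0 := by
  have h1 : (eAff P).symm z ∈ CA.dom none := hz.2
  have h2 : (eAff P).symm z ∈ CA.dom (some P) := (eAff P).map_target hz.1
  exact zc_ne h1 (ne_pinf_of_mem h2)

theorem dom_inf_ne {P : AffC} {z : ℂ} (hz : z ∈ dom eInf (eAff P)) : z ≠ 0 := by
  intro h0
  have h1 := hz.2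
  rw [mem_preimage, h0, eInf_symm_zero] at h1
  exact infty_notMem P h1

/-- conjugation by the transition matrices -/
theorem dg_N1 {a m : ℂ} (ha : a ≠ 0) : dg a⁻¹ * ((m * a ^ 2) • N1) = ((m * a) • N1) * dg a⁻¹ := by
  unfold dg N1
  ext i j
  fin_cases i <;> fin_cases j <;>
    simp [Matrix.mul_apply, Fin.sum_univ_three, Matrix.diagonal] <;> field_simp

theorem dg_N2 {a m : ℂ} (ha : a ≠ 0) : dg a⁻¹ * ((m * a ^ 2) • N2) = (m • N2) * dg a⁻¹ := by
  unfold dg N2
  ext i j
  fin_cases i <;> fin_cases j <;>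
    simp [Matrix.mul_apply, Fin.sum_univ_three, Matrix.diagonal] <;> field_simp

section frames

variable {b : Bun Crv M3}

theorem T_inv (b : Bun Crv M3) {e e' : OpenPartialHomeomorph Crv ℂ} (he : e ∈ atlas ℂ Crv)
    (he' : e' ∈ atlas ℂ Crv) {z : ℂ} (hz : z ∈ dom e e') :
    b.T e e' z * b.T e' e (trans e e' z) = 1 := by
  unfold Bun.T
  rw [trans_trans hz]
  calc b.G e' (trans e e' z) * b.Gi e z * (b.G e z * b.Gi e' (trans e e' z))
      = b.G e' (trans e e' z) * (b.Gi e z * b.G e z) * b.Gi e' (trans e e' z) := by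
        simp only [mul_assoc]
    _ = 1 := by
        rw [b.Gi_mul e he z hz.1, mul_one, b.mul_Gi e' he' _ (trans_mem_target hz)]

theorem T_self (b : Bun Crv M3) {e : OpenPartialHomeomorph Crv ℂ} (he : e ∈ atlas ℂ Crv)
    {z : ℂ} (hz : z ∈ e.target) : b.T e e z = 1 := by
  unfold Bun.T
  rw [trans_self hz, b.mul_Gi e he z hz]

theorem T_comp (b : Bun Crv M3) {e e' : OpenPartialHomeomorph Crv ℂ} (he : e ∈ atlas ℂ Crv)
    (he' : e' ∈ atlas ℂ Crv) {z : ℂ} (hz : z ∈ dom e e') :
    b.T e' e (trans e e' z) * b.T e e' z = 1 :=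
  mul_eq_one_comm.1 (T_inv b he he' hz)

theorem T_aff (h2 : ∀ P Q, ∀ z ∈ dom (eAff P) (eAff Q),
      b.G (eAff Q) (trans (eAff P) (eAff Q) z) * b.Gi (eAff P) z = 1) {P Q : AffC} {z : ℂ}
    (hz : z ∈ dom (eAff P) (eAff Q)) : b.T (eAff P) (eAff Q) z = 1 := h2 P Q z hz

theorem T_aff_inf (h3 : ∀ P, ∀ z ∈ dom (eAff P) eInf,
        b.G eInf (trans (eAff P) eInf z) * b.Gi (eAff P) z =
          Matrix.diagonal ![trans (eAff P) eInf z, 1, (trans (eAff P) eInf z)⁻¹]) {P : AffC} {z : ℂ}
    (hz : z ∈ dom (eAff P) eInf) : b.T (eAff P) eInf z = dg (trans (eAff P) eInf z)⁻¹ := by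
  unfold Bun.T dg
  rw [h3 P z hz, inv_inv]

theorem T_inf_aff (h3 : ∀ P, ∀ z ∈ dom (eAff P) eInf,
        b.G eInf (trans (eAff P) eInf z) * b.Gi (eAff P) z =
          Matrix.diagonal ![trans (eAff P) eInf z, 1, (trans (eAff P) eInf z)⁻¹]) {P : AffC} {z : ℂ}
    (hz : z ∈ dom eInf (eAff P)) : b.T eInf (eAff P) z = dg z := by
  have hz' := trans_mem_dom hz
  have h4 := T_aff_inf h3 hz'
  rw [trans_trans hz] at h4
  have h5 := T_inv b eInf_mem (eAff_mem P) hz
  rw [h4] at h5
  have h0 := dom_inf_ne hz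
  calc b.T eInf (eAff P) z = b.T eInf (eAff P) z * (dg z⁻¹ * dg z) := by
        rw [dg_inv_mul h0, mul_one]
    _ = dg z := by rw [← mul_assoc, h5, one_mul]

/-- the compatibility in one direction gives the other one -/
theorem comp_symm (b : Bun Crv M3) {e e' : OpenPartialHomeomorph Crv ℂ} (he : e ∈ atlas ℂ Crv)
    (he' : e' ∈ atlas ℂ Crv) {z : ℂ} (hz : z ∈ dom e e') {A B : M3}
    (h : b.T e' e (trans e e' z) * B = deriv (trans e' e) (trans e e' z) •
      (A * b.T e' e (trans e e' z))) :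
    b.T e e' z * A = deriv (trans e e') z • (B * b.T e e' z) := by
  have h1 := T_inv b he he' hz
  have h2 := T_comp b he he' hz
  have h3 := trans_deriv_inv he he' hz
  have h4 : b.T e e' z * (b.T e' e (trans e e' z) * B) * b.T e e' z = B * b.T e e' z := by
    rw [← mul_assoc, h1, one_mul]
  have h5 : b.T e e' z * (A * b.T e' e (trans e e' z)) * b.T e e' z = b.T e e' z * A := by
    rw [mul_assoc, mul_assoc, h2, mul_one]
  rw [← h4, h, Matrix.mul_smul, Matrix.smul_mul, h5, smul_smul, mul_comm, h3, one_smul]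

end frames

section base

theorem del_cexp {f : ℂ → ℂ} {z : ℂ} (hf : DifferentiableAt ℝ f z) :
    del (fun w => Complex.exp (f w)) z = Complex.exp (f z) * del f z := by
  have h := hf.hasFDerivAt.cexp
  unfold del
  rw [h.fderiv]
  simp only [smul_apply, smul_eq_mul]
  ring

/-- `diag (e^{-v}, 1, e^v)` -/
def hm (v : ℝ) : M3 := Matrix.diagonal ![((Real.exp (-v) : ℝ) : ℂ), 1, ((Real.exp v : ℝ) : ℂ)]

/-- its inverse -/
def hmi (v : ℝ) : M3 := Matrix.diagonal ![((Real.exp v : ℝ) : ℂ), 1, ((Real.exp (-v) : ℝ) : ℂ)]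

theorem hm_hmi (v : ℝ) : hm v * hmi v = 1 := by
  unfold hm hmi
  rw [Matrix.diagonal_mul_diagonal, ← Matrix.diagonal_one]
  congr 1
  funext i
  fin_cases i
  · show ((Real.exp (-v) : ℝ) : ℂ) * ((Real.exp v : ℝ) : ℂ) = 1
    rw [← Complex.ofReal_mul, ← Real.exp_add]; simp
  · simp
  · show ((Real.exp v : ℝ) : ℂ) * ((Real.exp (-v) : ℝ) : ℂ) = 1
    rw [← Complex.ofReal_mul, ← Real.exp_add]; simp

/-- if `Gi^* Gi = h` then `G G^* = h^{-1}` -/
theorem GG_eq {G Gi : M3} (h1 : G * Gi = 1) (h2 : Gi * G = 1) {v : ℝ} (h : star Gi * Gi = hm v) :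
    G * star G = hmi v := by
  have h3 : hm v * (G * star G) = 1 := by
    rw [← h]
    calc star Gi * Gi * (G * star G) = star Gi * (Gi * G) * star G := by simp only [mul_assoc]
      _ = 1 := by rw [h2, mul_one, ← star_mul, h1, star_one]
  have h4 : hmi v * hm v = 1 := mul_eq_one_comm.1 (hm_hmi v)
  calc G * star G = hmi v * hm v * (G * star G) := by rw [h4, one_mul]
    _ = hmi v := by rw [mul_assoc, h3, mul_one]

theorem adjN1 (w E Ei : ℂ) : (Matrix.diagonal ![E, 1, Ei] : M3) * star (w • N1) *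
    Matrix.diagonal ![Ei, 1, E] =
    !![0, (starRingEnd ℂ) w * E, 0; 0, 0, (starRingEnd ℂ) w * E; 0, 0, 0] := by
  ext i j
  rw [Matrix.mul_diagonal, Matrix.diagonal_mul]
  fin_cases i <;> fin_cases j <;> simp [N1, Matrix.star_apply]
  all_goals ring

theorem N1_comm_adj (w c : ℂ) : (w • N1) * (!![0, c, 0; 0, 0, c; 0, 0, 0] : M3) -
    (!![0, c, 0; 0, 0, c; 0, 0, 0] : M3) * (w • N1) = Matrix.diagonal ![- (w * c), 0, w * c] := by
  unfold N1
  ext i j
  fin_cases i <;> fin_cases j <;> simp [Matrix.mul_apply, Fin.sum_univ_three, Matrix.diagonal]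
  all_goals ring

theorem base_local {U : Set ℂ} (hU : IsOpen U) {v : ℂ → ℝ} (hv : ContDiffOn ℝ ∞ v U)
    {G Gi : ℂ → M3} (h1 : ∀ z ∈ U, G z * Gi z = 1) (h2 : ∀ z ∈ U, Gi z * G z = 1)
    (h : ∀ z ∈ U, star (Gi z) * Gi z = hm (v z)) {z : ℂ} (hz : z ∈ U) {w : ℂ}
    (heq : dzb (dz (fun z => ((v z : ℝ) : ℂ))) z = ((‖w‖ ^ 2 * Real.exp (v z) : ℝ) : ℂ)) :
    dzb (fun x => G x * star (G x) * dz (fun y => star (Gi y) * Gi y) x) z =
        (w • N1) * (G z * star (G z) * star (w • N1) * (star (Gi z) * Gi z)) -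
        (G z * star (G z) * star (w • N1) * (star (Gi z) * Gi z)) * (w • N1) := by
  have two_le : (2 : ℕ∞ω) ≤ ∞ := by
    have : ((2 : ℕ∞) : ℕ∞ω) ≤ ((⊤ : ℕ∞) : ℕ∞ω) := WithTop.coe_le_coe.2 le_top
    exact this
  set f : ℂ → ℂ := fun z => ((v z : ℝ) : ℂ) with hf
  have hfc : ∀ x ∈ U, ContDiffAt ℝ 2 f x := fun x hx =>
    Complex.ofRealCLM.contDiff.contDiffAt.comp x
      (((hv.contDiffAt (hU.mem_nhds hx)).of_le two_le))
  have hfd : ∀ x ∈ U, DifferentiableAt ℝ f x := fun x hx =>
    (hfc x hx).differentiableAt (by norm_num)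
  have hnegd : ∀ x ∈ U, DifferentiableAt ℝ (fun y => - f y) x := fun x hx => (hfd x hx).neg
  -- entries of `hm (v x)`
  have hent : ∀ x, hm (v x) = Matrix.diagonal ![Complex.exp (- f x), 1, Complex.exp (f x)] := by
    intro x
    unfold hm
    simp only [hf, Complex.ofReal_exp, Complex.ofReal_neg]
  have hentd : ∀ x ∈ U, ∀ a b, DifferentiableAt ℝ (fun y => hm (v y) a b) x := by
    intro x hx a b
    simp only [hent]
    fin_cases a <;> fin_cases b <;> simp [Matrix.diagonal]
    · exact (hfd x hx).neg.cexp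
    · exact (hfd x hx).cexp
  have hdelM : ∀ x ∈ U, delM (fun y => hm (v y)) x =
      Matrix.diagonal ![- (Complex.exp (- f x) * del f x), 0, Complex.exp (f x) * del f x] := by
    intro x hx
    have e1 : del (fun y => Complex.exp (- f y)) x = - (Complex.exp (- f x) * del f x) := by
      rw [del_cexp (hnegd x hx), del_neg, mul_neg]
    have e2 := del_cexp (hfd x hx)
    ext a b
    simp only [delM, Matrix.of_apply, hent]
    fin_cases a <;> fin_cases b <;> simp [Matrix.diagonal, del_const, e1, e2]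
  have hmi_ent : ∀ x, hmi (v x) = Matrix.diagonal ![Complex.exp (f x), 1, Complex.exp (- f x)] := by
    intro x
    unfold hmi
    simp only [hf, Complex.ofReal_exp, Complex.ofReal_neg]
  -- the connection form
  set A : ℂ → M3 := fun x => Matrix.diagonal ![- del f x, 0, del f x] with hA
  have hev : (fun x => G x * star (G x) * dz (fun y => star (Gi y) * Gi y) x) =ᶠ[𝓝 z] A := by
    filter_upwards [hU.mem_nhds hz] with x hx
    have h3 : (fun y => star (Gi y) * Gi y) =ᶠ[𝓝 x] fun y => hm (v y) := by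
      filter_upwards [hU.mem_nhds hx] with y hy
      exact h y hy
    rw [GG_eq (h1 x hx) (h2 x hx) (h x hx), Pool.Agent.Lib8bb.dz_congr h3,
      dz_eq_delM (diffAt_of_entries (hentd x hx)), hdelM x hx, hmi_ent,
      Matrix.diagonal_mul_diagonal]
    simp only [hA]
    congr 1
    funext i
    fin_cases i
    · show Complex.exp (f x) * (- (Complex.exp (- f x) * del f x)) = - del f x
      have := Complex.exp_neg (f x)
      rw [this]
      field_simp
    · simp
    · show Complex.exp (- f x) * (Complex.exp (f x) * del f x) = del f x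
      have := Complex.exp_neg (f x)
      rw [this]
      field_simp
  have hAd : ∀ a b, DifferentiableAt ℝ (fun x => A x a b) z := by
    intro a b
    simp only [hA]
    have h4 := diff_del (hfc z hz)
    fin_cases a <;> fin_cases b <;> simp [Matrix.diagonal]
    · exact h4
    · exact h4
  have hdb : delbar (del f) z = ((‖w‖ ^ 2 * Real.exp (v z) : ℝ) : ℂ) := by
    rw [← heq, dz_eq_del, dzb_eq_delbar]
  have hL : delbarM A z = Matrix.diagonal ![- ((‖w‖ ^ 2 * Real.exp (v z) : ℝ) : ℂ), 0,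
      ((‖w‖ ^ 2 * Real.exp (v z) : ℝ) : ℂ)] := by
    have e1 : delbar (fun x => - del f x) z = - ((‖w‖ ^ 2 * Real.exp (v z) : ℝ) : ℂ) := by
      rw [delbar_neg, hdb]
    ext a b
    simp only [delbarM, Matrix.of_apply, hA]
    fin_cases a <;> fin_cases b <;> simp [Matrix.diagonal, delbar_const, e1, hdb]
  rw [Pool.Agent.Lib8bb.dzb_congr hev, dzb_eq_delbarM (diffAt_of_entries hAd), hL,
    GG_eq (h1 z hz) (h2 z hz) (h z hz), h z hz]
  have hww : ((‖w‖ ^ 2 * Real.exp (v z) : ℝ) : ℂ) = w * ((starRingEnd ℂ) w * (Real.exp (v z) : ℝ)) := by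
    rw [← mul_assoc, Complex.mul_conj, Complex.normSq_eq_norm_sq]
    push_cast
    ring
  rw [hww]
  unfold hm hmi
  rw [adjN1, N1_comm_adj]

theorem nondeg_local {w : ℂ} (hw : w ≠ 0) {v : ℝ} {a : M3} (hcomm : a * (w • N1) = (w • N1) * a)
    (hsa : hmi v * star a * hm v = a) (htr : Matrix.trace a = 0) : a = 0 := by
  have h1 : a * N1 = N1 * a := by
    rw [Matrix.mul_smul, Matrix.smul_mul] at hcomm
    exact smul_right_injective _ hw hcomm
  unfold N1 at h1
  have e00 := congrFun (congrFun h1 0) 0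
  have e01 := congrFun (congrFun h1 0) 1
  have e10 := congrFun (congrFun h1 1) 0
  have e11 := congrFun (congrFun h1 1) 1
  have e21 := congrFun (congrFun h1 2) 1
  simp [Matrix.mul_apply, Fin.sum_univ_three] at e00 e01 e10 e11 e21
  rw [Matrix.trace_fin_three] at htr
  have d0 : a 0 0 = 0 := by
    have : 3 * a 0 0 = 0 := by linear_combination htr - 2 * e10 - e21
    simpa using this
  have f10 := congrFun (congrFun hsa 1) 0
  have f20 := congrFun (congrFun hsa 2) 0
  have f21 := congrFun (congrFun hsa 2) 1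
  unfold hm hmi at f10 f20 f21
  rw [Matrix.star_eq_conjTranspose] at f10 f20 f21
  simp [Matrix.mul_apply, Fin.sum_univ_three, Matrix.diagonal, Matrix.conjTranspose_apply, e00, e01]
    at f10 f20 f21
  have e12 : a 1 2 = 0 := by rw [e11, e00]
  rw [e12] at f21
  simp at f21
  ext i j
  fin_cases i <;> fin_cases j <;> simp
  · exact d0
  · exact e00
  · exact e01
  · exact f10.symm
  · rw [e10, d0]
  · exact e12
  · exact f20.symm
  · exact f21.symm
  · rw [e21, e10, d0]

end base

/-- **Existence**, from the analytic part. -/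
theorem exists_harmonic : ∃ S : ℝ, 0 < S ∧ ∀ s : ℝ, S ≤ s → ∃ h, (EC.scale s).IsHarmonic h := by
  obtain ⟨u, sf, hbase⟩ := exists_baseMetric
  obtain ⟨b, hdet, hT1, hT2, hG1, hG2⟩ := exists_frame hbase
  -- holomorphy
  have hol0 : ∀ e ∈ atlas ℂ Crv, DifferentiableOn ℂ (fun z => w0 e z • N1) e.target := by
    intro e he
    rcases atlas_cases he with rfl | ⟨P, rfl⟩
    · have h1 : DifferentiableOn ℂ (fun z => mfun z * z) eInf.target := by
        rw [eInf_target]; exact mfun_diff.mul differentiableOn_id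
      exact (h1.smul_const N1).congr fun z _ => by rw [w0_inf]
    · exact ((omAff_holo P).smul_const N1).congr fun z hz => by rw [w0_aff P hz]
  have hol1 : ∀ e ∈ atlas ℂ Crv, DifferentiableOn ℂ (fun z => w1 e z • N2) e.target := by
    intro e he
    rcases atlas_cases he with rfl | ⟨P, rfl⟩
    · have h1 : DifferentiableOn ℂ mfun eInf.target := by
        rw [eInf_target]; exact mfun_diff
      exact (h1.smul_const N2).congr fun z _ => by rw [w1_inf]
    · exact ((omAff_holo P).smul_const N2).congr fun z hz => by rw [w1_aff P hz]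
  -- compatibility
  have comp0' : ∀ P, ∀ z ∈ dom (eAff P) eInf, b.T (eAff P) eInf z * (w0 (eAff P) z • N1) =
      deriv (trans (eAff P) eInf) z •
        ((w0 eInf (trans (eAff P) eInf z) • N1) * b.T (eAff P) eInf z) := by
    intro P z hz
    rw [T_aff_inf hT2 hz, w0_aff P hz.1, w0_inf, om_inf_trans hz, ← dg_N1 (trans_inf_ne hz),
      ← Matrix.mul_smul, smul_smul, mul_comm (deriv _ _)]
  have comp1' : ∀ P, ∀ z ∈ dom (eAff P) eInf, b.T (eAff P) eInf z * (w1 (eAff P) z • N2) =
      deriv (trans (eAff P) eInf) z •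
        ((w1 eInf (trans (eAff P) eInf z) • N2) * b.T (eAff P) eInf z) := by
    intro P z hz
    rw [T_aff_inf hT2 hz, w1_aff P hz.1, w1_inf, om_inf_trans hz, ← dg_N2 (trans_inf_ne hz),
      ← Matrix.mul_smul, smul_smul, mul_comm (deriv _ _)]
  have comp0 : ∀ e ∈ atlas ℂ Crv, ∀ e' ∈ atlas ℂ Crv, ∀ z ∈ dom e e',
      b.T e e' z * (w0 e z • N1) =
        deriv (trans e e') z • ((w0 e' (trans e e' z) • N1) * b.T e e' z) := by
    intro e he e' he' z hz
    rcases atlas_cases he with rfl | ⟨P, rfl⟩ <;> rcases atlas_cases he' with rfl | ⟨Q, rfl⟩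
    · rw [T_self b he hz.1, trans_self hz.1, deriv_trans_self hz.1, one_smul, one_mul, mul_one]
    · have hz' := trans_mem_dom hz
      have h1 := comp0' Q _ hz'
      rw [trans_trans hz] at h1
      exact comp_symm b he he' hz h1
    · exact comp0' P z hz
    · rw [T_aff hT1 hz, w0_aff P hz.1, w0_aff Q (trans_mem_target hz), one_mul, mul_one,
        om_aff_trans hz, smul_smul, mul_comm (deriv _ _)]
  have comp1 : ∀ e ∈ atlas ℂ Crv, ∀ e' ∈ atlas ℂ Crv, ∀ z ∈ dom e e',
      b.T e e' z * (w1 e z • N2) =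
        deriv (trans e e') z • ((w1 e' (trans e e' z) • N2) * b.T e e' z) := by
    intro e he e' he' z hz
    rcases atlas_cases he with rfl | ⟨P, rfl⟩ <;> rcases atlas_cases he' with rfl | ⟨Q, rfl⟩
    · rw [T_self b he hz.1, trans_self hz.1, deriv_trans_self hz.1, one_smul, one_mul, mul_one]
    · have hz' := trans_mem_dom hz
      have h1 := comp1' Q _ hz'
      rw [trans_trans hz] at h1
      exact comp_symm b he he' hz h1
    · exact comp1' P z hz
    · rw [T_aff hT1 hz, w1_aff P hz.1, w1_aff Q (trans_mem_target hz), one_mul, mul_one,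
        om_aff_trans hz, smul_smul, mul_comm (deriv _ _)]
  -- the base metric
  have hbase_eq : ∀ e ∈ atlas ℂ Crv, ∀ z ∈ e.target,
      dzb (fun x => b.G e x * star (b.G e x) * dz (fun y => star (b.Gi e y) * b.Gi e y) x) z =
        (w0 e z • N1) * (b.G e z * star (b.G e z) * star (w0 e z • N1) *
          (star (b.Gi e z) * b.Gi e z)) -
        (b.G e z * star (b.G e z) * star (w0 e z • N1) * (star (b.Gi e z) * b.Gi e z)) *
          (w0 e z • N1) := by
    intro e he z hz
    rcases atlas_cases he with rfl | ⟨P, rfl⟩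
    · have hs : ContDiffOn ℝ ∞ sf eInf.target := by rw [eInf_target]; exact hbase.s_smooth
      refine base_local eInf.open_target hs (b.mul_Gi _ he) (b.Gi_mul _ he) hG2 hz ?_
      rw [hbase.s_eq z (by rw [← eInf_target]; exact hz), w0_inf]
      congr 2
      rw [norm_mul, mul_pow]
      have h2 : ‖mfun z‖ ^ 2 = 4 * ‖1 + z ^ 10‖⁻¹ := by
        unfold mfun
        have h3 : ‖(1 + z ^ 10) ^ (1 / 2 : ℂ)‖ ^ 2 = ‖1 + z ^ 10‖ := by
          rw [← norm_pow, root2_sq]
        rw [norm_mul, norm_inv, mul_pow, inv_pow, h3]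
        norm_num
      rw [h2]
      ring
    · refine base_local (eAff P).open_target (hbase.u_smooth P) (b.mul_Gi _ he) (b.Gi_mul _ he)
        (hG1 P) hz ?_
      rw [hbase.u_eq P z hz, w0_aff P hz]
  have hw0 : ∀ e ∈ atlas ℂ Crv, ∀ z ∈ e.target, e.symm z ≠ pinf → w0 e z ≠ 0 := by
    intro e he z hz hp
    rcases atlas_cases he with rfl | ⟨P, rfl⟩
    · rw [w0_inf]
      refine mul_ne_zero (mfun_ne (by rw [← eInf_target]; exact hz)) ?_
      rintro rfl
      exact hp eInf_symm_zero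
    · rw [w0_aff P hz]
      exact omAff_ne P z hz
  have hnd : ∀ e ∈ atlas ℂ Crv, ∀ z ∈ e.target, e.symm z ≠ pinf → ∀ a : M3,
      a * (w0 e z • N1) = (w0 e z • N1) * a →
      b.G e z * star (b.G e z) * star a * (star (b.Gi e z) * b.Gi e z) = a →
      Matrix.trace a = 0 → a = 0 := by
    intro e he z hz hp a ha hsa htr
    rcases atlas_cases he with rfl | ⟨P, rfl⟩
    · have h1 : star (b.Gi eInf z) * b.Gi eInf z = hm (sf z) := hG2 z hz
      rw [GG_eq (b.mul_Gi _ he z hz) (b.Gi_mul _ he z hz) h1, h1] at hsa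
      exact nondeg_local (hw0 _ he z hz hp) ha hsa htr
    · have h1 : star (b.Gi (eAff P) z) * b.Gi (eAff P) z = hm (u ((eAff P).symm z)) := hG1 P z hz
      rw [GG_eq (b.mul_Gi _ he z hz) (b.Gi_mul _ he z hz) h1, h1] at hsa
      exact nondeg_local (hw0 _ he z hz hp) ha hsa htr
  letI : MeasurableSpace Crv := borel Crv
  haveI : BorelSpace Crv := ⟨rfl⟩
  obtain ⟨t0, ht0, hper⟩ := perturb b hdet (fun e z => w0 e z • N1) (fun e z => w1 e z • N2) hol0
    hol1 comp0 comp1 hbase_eq pinf hnd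
  refine ⟨2 / t0, by positivity, fun s hs => ?_⟩
  have hspos : 0 < s := lt_of_lt_of_le (by positivity) hs
  have ht : |s⁻¹| < t0 := by
    rw [abs_of_pos (inv_pos.2 hspos), inv_lt_comm₀ hspos ht0]
    have h1 : t0⁻¹ < 2 / t0 := by
      rw [inv_eq_one_div]
      exact div_lt_div_of_pos_right (by norm_num) ht0
    linarith
  obtain ⟨h, hsm, hpd, hcomp, heq⟩ := hper s⁻¹ ht
  have hs0 : (s : ℂ) ≠ 0 := by exact_mod_cast hspos.ne'
  -- the gauge
  set D : M3 := Matrix.diagonal ![(s : ℂ), 1, (s : ℂ)⁻¹] with hD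
  set Di : M3 := Matrix.diagonal ![(s : ℂ)⁻¹, 1, (s : ℂ)] with hDi
  have hD1 : D * Di = 1 := by
    rw [hD, hDi, Matrix.diagonal_mul_diagonal, ← Matrix.diagonal_one]
    congr 1
    funext i
    fin_cases i <;> simp [hs0]
  have hD2 : Di * D = 1 := mul_eq_one_comm.1 hD1
  have hDdet : D.det = 1 := by
    rw [hD, Matrix.det_diagonal, Fin.prod_univ_three]
    simp [hs0]
  have hch : ∀ i : CA.I, CA.chart i ∈ atlas ℂ Crv := by
    intro i
    cases i with
    | none => exact eInf_mem
    | some P => exact eAff_mem P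
  set K : CA.I → Crv → M3 := fun i x => Dᴴ * h (CA.chart i) (CA.chart i x) * D with hK
  have hKpt : ∀ i, ∀ z ∈ CA.img i, K i (CA.pt i z) = Dᴴ * h (CA.chart i) z * D := by
    intro i z hz
    simp only [hK]
    rw [CA.chart_pt hz]
  refine ⟨K, ?_, ?_, ?_, ?_, ?_⟩
  · intro i x hx
    have h1 := (hpd _ (hch i) (CA.chart i x) (CA.chart_mem hx)).1
    refine h1.conjTranspose_mul_mul_same ?_
    intro v w hvw
    have h2 : Di *ᵥ (D *ᵥ v) = Di *ᵥ (D *ᵥ w) := by rw [hvw]
    rwa [Matrix.mulVec_mulVec, Matrix.mulVec_mulVec, hD2, Matrix.one_mulVec,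
      Matrix.one_mulVec] at h2
  · intro i x hx
    have h1 := (hpd _ (hch i) (CA.chart i x) (CA.chart_mem hx)).2
    simp only [hK]
    rw [Matrix.det_mul, Matrix.det_mul, Matrix.det_conjTranspose, h1, hDdet]
    simp
  · intro i a c
    have h1 : ContDiffOn ℝ ∞ (fun z => (Dᴴ * h (CA.chart i) z * D) a c) (CA.img i) := by
      refine entries_contDiffOn ?_ a c
      exact (contDiffOn_const.mul (hsm _ (hch i))).mul contDiffOn_const
    exact h1.congr fun z hz => by rw [hKpt i z hz]
  · intro i j x hi hj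
    have hz : CA.chart j x ∈ dom (CA.chart j) (CA.chart i) := mem_dom_of hj hi
    have h1 := hcomp _ (hch j) _ (hch i) _ hz
    have h2 : trans (CA.chart j) (CA.chart i) (CA.chart j x) = CA.chart i x := trans_apply hj
    rw [h2] at h1
    -- identify the transition matrix
    have h3 : b.T (CA.chart j) (CA.chart i) (CA.chart j x) = gC i j x := by
      cases i with
      | none =>
        cases j with
        | none => exact T_self b eInf_mem (CA.chart_mem hj)
        | some P =>
          refine (T_aff_inf hT2 hz).trans ?_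
          show dg (Pool.Agent.Lib8bb.trans (eAff P) eInf (eAff P x))⁻¹ = dg (zc x)⁻¹
          have h6 : Pool.Agent.Lib8bb.trans (eAff P) eInf (eAff P x) = zc x := h2
          rw [h6]
      | some P =>
        cases j with
        | none => exact T_inf_aff hT2 hz
        | some Q => exact T_aff hT1 hz
    rw [h3] at h1
    have h4 : gC i j x * D = D * gC i j x := by
      have hdg : ∀ c : ℂ, dg c * D = D * dg c := by
        intro c
        unfold dg
        rw [hD, Matrix.diagonal_mul_diagonal, Matrix.diagonal_mul_diagonal]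
        congr 1
        funext i
        exact mul_comm _ _
      cases i <;> cases j
      · show (1 : M3) * D = D * 1
        rw [one_mul, mul_one]
      · exact hdg _
      · exact hdg _
      · show (1 : M3) * D = D * 1
        rw [one_mul, mul_one]
    have h5 : Dᴴ * (gC i j x)ᴴ = (gC i j x)ᴴ * Dᴴ := by
      rw [← Matrix.conjTranspose_mul, ← Matrix.conjTranspose_mul, h4]
    show Dᴴ * h (CA.chart j) (CA.chart j x) * D = (gC i j x)ᴴ * (Dᴴ * h (CA.chart i)
      (CA.chart i x) * D) * gC i j x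
    rw [h1, Matrix.star_eq_conjTranspose]
    calc Dᴴ * ((gC i j x)ᴴ * h (CA.chart i) (CA.chart i x) * gC i j x) * D
        = (Dᴴ * (gC i j x)ᴴ) * h (CA.chart i) (CA.chart i x) * (gC i j x * D) := by
          simp only [Matrix.mul_assoc]
      _ = _ := by rw [h4, h5]; simp only [Matrix.mul_assoc]
  · intro i z hz
    refine hitchin_transfer (CA.isOpen_img i) (hsm _ (hch i)) (fun w hw => (hpd _ (hch i) w hw).1)
      hz (Ψ := fun z => w0 (CA.chart i) z • N1 + ((s⁻¹ : ℝ) : ℂ) • (w1 (CA.chart i) z • N2))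
      hD1 hD2 ?_ (heq _ (hch i) z hz) (hKpt i)
    cases i with
    | none =>
      show (w0 eInf z • N1 + ((s⁻¹ : ℝ) : ℂ) • (w1 eInf z • N2)) * D =
        D * ((s : ℂ) • (!![0, 0, 0; mfun (zc (CA.pt none z)) * zc (CA.pt none z), 0, 0;
          mfun (zc (CA.pt none z)), mfun (zc (CA.pt none z)) * zc (CA.pt none z), 0] : M3))
      rw [zc_pt hz, w0_inf, w1_inf, hD]
      unfold N1 N2
      ext a c
      fin_cases a <;> fin_cases c <;>
        simp [Matrix.mul_apply, Fin.sum_univ_three, Matrix.diagonal] <;> field_simp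
    | some P =>
      show (w0 (eAff P) z • N1 + ((s⁻¹ : ℝ) : ℂ) • (w1 (eAff P) z • N2)) * D =
        D * ((s : ℂ) • (omAff P (eAff P ((eAff P).symm z)) • NN))
      rw [(eAff P).right_inv hz, w0_aff P hz, w1_aff P hz, hD]
      unfold N1 N2 NN
      ext a c
      fin_cases a <;> fin_cases c <;>
        simp [Matrix.mul_apply, Fin.sum_univ_three, Matrix.diagonal] <;> field_simp

end MP_8bb00a_gt
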