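import Pool.Agent.Lib_MP_8bb00a_gt.EDefs
import Pool.Agent.Lib_MP_8bb00a_gt.Curve

/-!
The structure `BaseMetric` (shared by pieces K and L of MP_8bb00a_gt).
-/

open MeasureTheory Complex Set Metric Filter Topology
open scoped Real ContDiff ComplexConjugate Manifold

noncomputable section

namespace Pool.Agent.Lib8bb

/-- `h_0 = diag (e^{-u}, 1, e^u)`; `u` is the log of the conformal factor with respect to
`dx/y`, `s` is its regularisation at infinity -/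
structure BaseMetric (u : Crv → ℝ) (s : ℂ → ℝ) : Prop where
  u_smooth : ∀ P, ContDiffOn ℝ ∞ (fun z => u ((eAff P).symm z)) (eAff P).target
  u_eq : ∀ P, ∀ z ∈ (eAff P).target, dzb (dz (fun z => ((u ((eAff P).symm z) : ℝ) : ℂ))) z =
    ((‖omAff P z‖ ^ 2 * Real.exp (u ((eAff P).symm z)) : ℝ) : ℂ)
  s_smooth : ContDiffOn ℝ ∞ s (ball 0 1)
  s_u : ∀ z ∈ ball (0:ℂ) 1, z ≠ 0 → u (eInf.symm z) = s z - 2 * Real.log ‖z‖
  s_eq : ∀ z ∈ ball (0:ℂ) 1, dzb (dz (fun z => ((s z : ℝ) : ℂ))) z =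
    ((4 * ‖z‖ ^ 2 * ‖1 + z ^ 10‖⁻¹ * Real.exp (s z) : ℝ) : ℂ)

end Pool.Agent.Lib8bb
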