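import Pool.Agent.Lib_MP_8bb00a_gt.Surf3
import Pool.Agent.Lib_MP_8bb00a_gt.Solver

/-!
The Banach space of selfadjoint sections of class `C^1` and the bounded solution operator.
-/

open MeasureTheory Complex Set Metric Filter Topology
open scoped Real ContDiff ComplexConjugate Manifold

noncomputable section

namespace Pool.Agent.Lib8bb

section banach_aux

variable {V : Type*} [NormedAddCommGroup V] [NormedSpace ℂ V]

/-- the real linear map with given Wirtinger components -/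
def bnL (P Q : V) : ℂ →L[ℝ] V :=
  (((1 : ℂ →L[ℂ] ℂ).smulRight P).restrictScalars ℝ) +
    ((((1 : ℂ →L[ℂ] ℂ).smulRight Q).restrictScalars ℝ)).comp (conjCLE : ℂ →L[ℝ] ℂ)

theorem bnL_apply (P Q : V) (v : ℂ) : bnL P Q v = v • P + conj v • Q := by
  simp [bnL]

theorem bnL_sub (P Q P' Q' : V) : bnL P Q - bnL P' Q' = bnL (P - P') (Q - Q') := by
  ext v
  simp only [sub_apply, bnL_apply, smul_sub]
  abel

theorem bn_norm_le (P Q : V) : ‖bnL P Q‖ ≤ ‖P‖ + ‖Q‖ := by
  refine ContinuousLinearMap.opNorm_le_bound _ (by positivity) fun v => ?_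
  rw [bnL_apply]
  refine (norm_add_le _ _).trans ?_
  rw [norm_smul, norm_smul, RCLike.norm_conj]
  exact le_of_eq (by ring)

theorem bn_fderiv_eq (f : ℂ → V) (z : ℂ) : fderiv ℝ f z = bnL (dz f z) (dzb f z) := by
  ext v
  rw [fderiv_apply_eq, bnL_apply]

theorem bn_dz_of {f : ℂ → V} {P Q : V} {z : ℂ} (h : HasFDerivAt f (bnL P Q) z) :
    dz f z = P := by
  rw [HasFDerivAt.dz_eq h, bnL_apply, bnL_apply]
  simp only [one_smul, map_one, conj_I]
  match_scalars <;>
    first | linear_combination (-1 / 2 : ℂ) * I_sq | linear_combination (1 / 2 : ℂ) * I_sq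

theorem bn_dzb_of {f : ℂ → V} {P Q : V} {z : ℂ} (h : HasFDerivAt f (bnL P Q) z) :
    dzb f z = Q := by
  rw [HasFDerivAt.dzb_eq h, bnL_apply, bnL_apply]
  simp only [one_smul, map_one, conj_I]
  match_scalars <;>
    first | linear_combination (-1 / 2 : ℂ) * I_sq | linear_combination (1 / 2 : ℂ) * I_sq

theorem bn_tlu {E' : Type*} [NormedAddCommGroup E'] {s : Set ℂ} (hs : IsOpen s)
    {F : ℕ → ℂ → E'} {g : ℂ → E'} {c : ℂ → ℝ} (hc : ContinuousOn c s) {ε : ℕ → ℝ}
    (hε : Tendsto ε atTop (𝓝 0)) (hε0 : ∀ j, 0 ≤ ε j)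
    (h : ∀ j, ∀ z ∈ s, ‖F j z - g z‖ ≤ c z * ε j) :
    TendstoLocallyUniformlyOn F g atTop s := by
  rw [tendstoLocallyUniformlyOn_iff_forall_isCompact hs]
  intro K hK hKc
  obtain ⟨M, hM⟩ := hKc.exists_bound_of_continuousOn (hc.mono hK)
  rw [Metric.tendstoUniformlyOn_iff]
  intro δ hδ
  have h1 : Tendsto (fun j => M * ε j) atTop (𝓝 0) := by simpa using hε.const_mul M
  filter_upwards [h1.eventually (gt_mem_nhds hδ)] with j hj z hz
  rw [dist_comm, dist_eq_norm]
  refine (h j z (hK hz)).trans_lt (lt_of_le_of_lt ?_ hj)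
  exact mul_le_mul_of_nonneg_right ((le_abs_self _).trans (hM z hz)) (hε0 j)

end banach_aux

set_option linter.unusedSectionVars false

section F

variable {X : Type*} [TopologicalSpace X] [ChartedSpace ℂ X] [IsManifold 𝓘(ℂ) ω X]
  [CompactSpace X] [T2Space X] [MeasurableSpace X] [BorelSpace X]
variable {𝔸 : Type*} [NormedRing 𝔸] [NormedAlgebra ℂ 𝔸] [StarRing 𝔸] [StarModule ℂ 𝔸]
  [NormedStarGroup 𝔸] [TrAlg 𝔸] [FiniteDimensional ℂ 𝔸]

/-- the derivative in a chart, computed from the normalised derivatives -/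
def bnQ (D : SurfData X) (e : OpenPartialHomeomorph X ℂ) (p : C(X, 𝔸) × (D.A → C(X, 𝔸))) (z : ℂ) :
    𝔸 := ∑ a, kap D e a z • p.2 a (e.symm z)

/-- the `∂` component -/
def bnP (D : SurfData X) (b : Bun X 𝔸) (e : OpenPartialHomeomorph X ℂ)
    (p : C(X, 𝔸) × (D.A → C(X, 𝔸))) (z : ℂ) : 𝔸 :=
  star (bnQ D e p z) + (star (b.B e z) * p.1 (e.symm z) - p.1 (e.symm z) * star (b.B e z))

/-- the `∂̄` component -/
def bnPb (D : SurfData X) (b : Bun X 𝔸) (e : OpenPartialHomeomorph X ℂ)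
    (p : C(X, 𝔸) × (D.A → C(X, 𝔸))) (z : ℂ) : 𝔸 :=
  bnQ D e p z - (b.B e z * p.1 (e.symm z) - p.1 (e.symm z) * b.B e z)

omit [IsManifold 𝓘(ℂ) ω X] [T2Space X] [BorelSpace X] [ChartedSpace ℂ X] [StarRing 𝔸]
  [StarModule ℂ 𝔸] [NormedStarGroup 𝔸] [TrAlg 𝔸] [FiniteDimensional ℂ 𝔸] [MeasurableSpace X]
  [NormedAlgebra ℂ 𝔸] in
theorem bn_comm_bound (B u v : 𝔸) : ‖(B * u - u * B) - (B * v - v * B)‖ ≤ 2 * ‖B‖ * ‖u - v‖ := by
  have : (B * u - u * B) - (B * v - v * B) = B * (u - v) - (u - v) * B := by noncomm_ring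
  rw [this]
  refine (norm_sub_le _ _).trans ?_
  have h1 := norm_mul_le B (u - v)
  have h2 := norm_mul_le (u - v) B
  nlinarith

theorem isClosed_sec (D : SurfData X) (b : Bun X 𝔸) :
    IsClosed {p : C(X, 𝔸) × (D.A → C(X, 𝔸)) | Sec1 p.1 ∧ ∀ a x, p.2 a x = pa D b a p.1 x} := by
  apply IsSeqClosed.isClosed
  intro p q hp hpq
  -- pointwise convergence and the bound
  set ε : ℕ → ℝ := fun j => ‖p j - q‖ with hε
  have hε0 : ∀ j, 0 ≤ ε j := fun j => norm_nonneg _
  have hεt : Tendsto ε atTop (𝓝 0) := tendsto_iff_norm_sub_tendsto_zero.1 hpq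
  have h1 : ∀ j x, ‖(p j).1 x - q.1 x‖ ≤ ε j := fun j x =>
    (((p j).1 - q.1).norm_coe_le_norm x).trans (norm_fst_le (p j - q))
  have h2 : ∀ j a x, ‖(p j).2 a x - q.2 a x‖ ≤ ε j := fun j a x =>
    (((p j).2 a - q.2 a).norm_coe_le_norm x).trans
      ((norm_le_pi_norm ((p j).2 - q.2) a).trans (norm_snd_le (p j - q)))
  have t1 : ∀ x, Tendsto (fun j => (p j).1 x) atTop (𝓝 (q.1 x)) := fun x =>
    tendsto_iff_norm_sub_tendsto_zero.2
      (squeeze_zero (fun _ => norm_nonneg _) (fun j => h1 j x) hεt)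
  have t2 : ∀ a x, Tendsto (fun j => (p j).2 a x) atTop (𝓝 (q.2 a x)) := fun a x =>
    tendsto_iff_norm_sub_tendsto_zero.2
      (squeeze_zero (fun _ => norm_nonneg _) (fun j => h2 j a x) hεt)
  have hstar : ∀ x, star (q.1 x) = q.1 x := by
    intro x
    have := (continuous_star.tendsto (q.1 x)).comp (t1 x)
    refine tendsto_nhds_unique this ?_
    refine (t1 x).congr fun j => ?_
    exact ((hp j).1.2 x).symm
  -- derivative of the terms
  have hder : ∀ j, ∀ e ∈ atlas ℂ X, ∀ z ∈ e.target,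
      fderiv ℝ (fun w => (p j).1 (e.symm w)) z = bnL (bnP D b e (p j) z) (bnPb D b e (p j) z) := by
    intro j e he z hz
    have hC := (hp j).1.1
    have hd : DifferentiableAt ℝ (fun w => (p j).1 (e.symm w)) z :=
      (hC.contDiffAt he hz).differentiableAt (by simp)
    have e1 : Db (b.B e) (fun w => (p j).1 (e.symm w)) z = bnQ D e (p j) z := by
      rw [Db_eq_sum D b he hz hC, bnQ]
      exact Finset.sum_congr rfl fun a _ => by rw [(hp j).2 a]
    have e2 : Dd (b.B e) (fun w => (p j).1 (e.symm w)) z = star (bnQ D e (p j) z) := by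
      have := Db_star (B := b.B e) hd
      have e3 : (fun x => star ((p j).1 (e.symm x))) = fun x => (p j).1 (e.symm x) :=
        funext fun x => (hp j).1.2 _
      rw [e3, e1] at this
      rw [this, star_star]
    rw [bn_fderiv_eq]
    congr 1
    · rw [bnP, ← e2, Dd]; abel
    · rw [bnPb, ← e1, Db]; abel
  -- locally uniform convergence
  have hlu : ∀ e ∈ atlas ℂ X, TendstoLocallyUniformlyOn
      (fun j z => fderiv ℝ (fun w => (p j).1 (e.symm w)) z)
      (fun z => bnL (bnP D b e q z) (bnPb D b e q z)) atTop e.target := by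
    intro e he
    refine bn_tlu e.open_target
      (c := fun z => 2 * (∑ a, ‖kap D e a z‖) + 2 * ‖b.B e z‖ + 2 * ‖b.B e z‖) ?_ hεt hε0 ?_
    · refine ContinuousOn.add (ContinuousOn.add (continuousOn_const.mul ?_) ?_) ?_
      · exact continuousOn_finsetSum _ fun a _ => (kap_smooth D he a).continuousOn.norm
      · exact continuousOn_const.mul (b.B_smooth he).continuousOn.norm
      · exact continuousOn_const.mul (b.B_smooth he).continuousOn.norm
    · intro j z hz
      rw [hder j e he z hz, bnL_sub]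
      refine (bn_norm_le _ _).trans ?_
      have hQ : ‖bnQ D e (p j) z - bnQ D e q z‖ ≤ (∑ a, ‖kap D e a z‖) * ε j := by
        rw [bnQ, bnQ, ← Finset.sum_sub_distrib, Finset.sum_mul]
        refine (norm_sum_le _ _).trans (Finset.sum_le_sum fun a _ => ?_)
        rw [← smul_sub, norm_smul]
        exact mul_le_mul_of_nonneg_left (h2 j a _) (norm_nonneg _)
      have hP1 : ‖bnP D b e (p j) z - bnP D b e q z‖ ≤
          (∑ a, ‖kap D e a z‖) * ε j + 2 * ‖b.B e z‖ * ε j := by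
        have : bnP D b e (p j) z - bnP D b e q z = star (bnQ D e (p j) z - bnQ D e q z) +
          ((star (b.B e z) * (p j).1 (e.symm z) - (p j).1 (e.symm z) * star (b.B e z)) -
          (star (b.B e z) * q.1 (e.symm z) - q.1 (e.symm z) * star (b.B e z))) := by
          rw [bnP, bnP, star_sub]; abel
        rw [this]
        refine (norm_add_le _ _).trans (add_le_add ?_ ?_)
        · rw [norm_star]; exact hQ
        · refine (bn_comm_bound _ _ _).trans ?_
          rw [norm_star]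
          exact mul_le_mul_of_nonneg_left (h1 j _) (by positivity)
      have hP2 : ‖bnPb D b e (p j) z - bnPb D b e q z‖ ≤
          (∑ a, ‖kap D e a z‖) * ε j + 2 * ‖b.B e z‖ * ε j := by
        have : bnPb D b e (p j) z - bnPb D b e q z = (bnQ D e (p j) z - bnQ D e q z) -
          ((b.B e z * (p j).1 (e.symm z) - (p j).1 (e.symm z) * b.B e z) -
          (b.B e z * q.1 (e.symm z) - q.1 (e.symm z) * b.B e z)) := by
          rw [bnPb, bnPb]; abel
        rw [this]
        refine (norm_sub_le _ _).trans (add_le_add hQ ?_)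
        refine (bn_comm_bound _ _ _).trans ?_
        exact mul_le_mul_of_nonneg_left (h1 j _) (by positivity)
      refine (add_le_add hP1 hP2).trans (le_of_eq (by ring))
  have hfd : ∀ e ∈ atlas ℂ X, ∀ z ∈ e.target,
      HasFDerivAt (fun w => q.1 (e.symm w)) (bnL (bnP D b e q z) (bnPb D b e q z)) z := by
    intro e he z hz
    refine hasFDerivAt_of_tendstoLocallyUniformlyOn e.open_target (hlu e he) ?_
      (fun x _ => t1 (e.symm x)) hz
    intro j x hx
    exact (((hp j).1.1.contDiffAt he hx).differentiableAt (by simp)).hasFDerivAt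
  have hC1 : Ck 1 q.1 := by
    intro e he
    have h3 : ContDiffOn ℝ (0 + 1) (fun w => q.1 (e.symm w)) e.target := by
      rw [contDiffOn_succ_iff_fderiv_of_isOpen e.open_target]
      refine ⟨fun z hz => (hfd e he z hz).differentiableAt.differentiableWithinAt, by simp, ?_⟩
      rw [contDiffOn_zero]
      have h4 : ContinuousOn (fun z => bnL (bnP D b e q z) (bnPb D b e q z)) e.target := by
        refine (hlu e he).continuousOn (Frequently.of_forall fun j => ?_)
        exact ((hp j).1.1 e he).continuousOn_fderiv_of_isOpen e.open_target le_rfl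
      exact h4.congr fun z hz => (hfd e he z hz).fderiv
    simpa using h3
  refine ⟨⟨hC1, hstar⟩, fun a x => ?_⟩
  refine tendsto_nhds_unique (t2 a x) ?_
  have hpj : ∀ j, (p j).2 a x = pa D b a (p j).1 x := fun j => (hp j).2 a x
  by_cases hx : x ∈ (D.c a).source
  · have hz := (D.c a).map_source hx
    have e1 : ∀ j, (p j).2 a x = D.m a x • bnQ D (D.c a) (p j) (D.c a x) := by
      intro j
      rw [hpj, pa, Db_eq_sum D b (D.c_mem a) hz (hp j).1.1, bnQ]
      congr 1
      exact Finset.sum_congr rfl fun a' _ => by rw [(hp j).2 a']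
    have e2 : pa D b a q.1 x = D.m a x • bnQ D (D.c a) q (D.c a x) := by
      rw [pa, Db, bn_dzb_of (hfd _ (D.c_mem a) _ hz), bnPb]
      congr 1
      abel
    rw [e2]
    refine Tendsto.congr (fun j => (e1 j).symm) ?_
    refine Tendsto.const_smul ?_ _
    refine tendsto_finsetSum _ fun a' _ => ?_
    exact (t2 a' _).const_smul _
  · have hm : D.m a x = 0 := by
      apply D.m_supp a x
      rintro ⟨z, hz, rfl⟩
      exact hx ((D.c a).map_target (D.K_target a hz))
    have e2 : ∀ w : X → 𝔸, pa D b a w x = 0 := fun w => by rw [pa, hm, zero_smul]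
    rw [e2]
    refine Tendsto.congr (fun j => ?_) tendsto_const_nhds
    rw [hpj, e2]

theorem bn_sec1_zero : Sec1 (fun _ : X => (0 : 𝔸)) :=
  ⟨Ck.const 0, fun _ => star_zero _⟩

theorem bn_pa_zero (D : SurfData X) (b : Bun X 𝔸) (a : D.A) (x : X) :
    pa D b a (fun _ => (0 : 𝔸)) x = 0 := by
  rw [pa, Db]
  simp

/-- the Banach space of `C¹` selfadjoint sections -/
def XSp (D : SurfData X) (b : Bun X 𝔸) : Submodule ℝ (C(X, 𝔸) × (D.A → C(X, 𝔸))) where
  carrier := {p | Sec1 p.1 ∧ ∀ a x, p.2 a x = pa D b a p.1 x}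
  add_mem' := by
    rintro p q ⟨h1, h2⟩ ⟨h3, h4⟩
    refine ⟨h1.add h3, fun a x => ?_⟩
    rw [show (p + q).2 a x = p.2 a x + q.2 a x from rfl, h2, h4]
    exact (pa_add D b h1.1 h3.1 a x).symm
  zero_mem' := ⟨bn_sec1_zero, fun a x => (bn_pa_zero D b a x).symm⟩
  smul_mem' := by
    rintro c p ⟨h1, h2⟩
    refine ⟨h1.smul c, fun a x => ?_⟩
    rw [show (c • p).2 a x = c • p.2 a x from rfl, h2]
    exact (pa_smul D b h1.1 c a x).symm

theorem mem_XSp {D : SurfData X} {b : Bun X 𝔸} {p : C(X, 𝔸) × (D.A → C(X, 𝔸))} :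
    p ∈ XSp D b ↔ Sec1 p.1 ∧ ∀ a x, p.2 a x = pa D b a p.1 x := Iff.rfl

theorem completeSpace_XSp (D : SurfData X) (b : Bun X 𝔸) : CompleteSpace (XSp D b) := by
  have : CompleteSpace 𝔸 := FiniteDimensional.complete ℂ 𝔸
  exact (isClosed_sec D b).completeSpace_coe

/-- convergence of the energy forms -/
theorem bn_tendsto_en (D : SurfData X) (b : Bun X 𝔸) {W : X → 𝔸 →L[ℝ] 𝔸} (hW : Continuous W)
    {p : ℕ → XSp D b} {q : XSp D b} (h : Tendsto p atTop (𝓝 q)) {ζ : X → 𝔸} (hζ : Sec1 ζ) :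
    Tendsto (fun j => en D b W (p j).1.1 ζ) atTop (𝓝 (en D b W q.1.1 ζ)) := by
  obtain ⟨L, hL⟩ := exists_ipL (𝔸 := 𝔸)
  set ε : ℕ → ℝ := fun j => ‖(p j).1 - q.1‖ with hε
  have hεt : Tendsto ε atTop (𝓝 0) :=
    tendsto_iff_norm_sub_tendsto_zero.1 ((continuous_subtype_val.tendsto q).comp h)
  have h1 : ∀ j x, ‖(p j).1.1 x - q.1.1 x‖ ≤ ε j := fun j x =>
    (((p j).1.1 - q.1.1).norm_coe_le_norm x).trans (norm_fst_le ((p j).1 - q.1))
  have h2 : ∀ j a x, ‖(p j).1.2 a x - q.1.2 a x‖ ≤ ε j := fun j a x =>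
    (((p j).1.2 a - q.1.2 a).norm_coe_le_norm x).trans
      ((norm_le_pi_norm ((p j).1.2 - q.1.2) a).trans (norm_snd_le ((p j).1 - q.1)))
  -- bounds of the fixed functions
  have hζc : Continuous ζ := hζ.1.continuous
  have hpc : ∀ a, Continuous (pa D b a ζ) := fun a => pa_continuous D b hζ.1 a
  obtain ⟨Z, hZ⟩ := isCompact_univ.exists_bound_of_continuousOn hζc.continuousOn
  choose P hP using fun a => isCompact_univ.exists_bound_of_continuousOn (hpc a).continuousOn
  obtain ⟨Wm, hWm⟩ := isCompact_univ.exists_bound_of_continuousOn hW.continuousOn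
  -- the difference
  have hint : ∀ w : XSp D b, Continuous fun x =>
      (∑ a, ip (w.1.2 a x) (pa D b a ζ x)) + ip (W x (w.1.1 x)) (ζ x) := by
    intro w
    simp only [← hL]
    refine Continuous.add (continuous_finsetSum _ fun a _ => ?_) ?_
    · exact (L.continuous.comp (w.1.2 a).continuous).clm_apply (hpc a)
    · exact (L.continuous.comp (hW.clm_apply w.1.1.continuous)).clm_apply hζc
  have hen : ∀ w : XSp D b, en D b W w.1.1 ζ =
      ∫ x, ((∑ a, ip (w.1.2 a x) (pa D b a ζ x)) + ip (W x (w.1.1 x)) (ζ x)) ∂D.ν := by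
    intro w
    rw [en]
    congr 1
    funext x
    congr 1
    exact Finset.sum_congr rfl fun a _ => by rw [w.2.2 a x]
  simp only [hen]
  obtain ⟨M, hM⟩ := hεt.bddAbove_range
  have hM' : ∀ j, ε j ≤ M := fun j => hM ⟨j, rfl⟩
  have hb1 : ∀ j x, ‖(p j).1.1 x‖ ≤ ‖q.1.1‖ + M := by
    intro j x
    have h3 := norm_le_norm_add_norm_sub' ((p j).1.1 x) (q.1.1 x)
    have h4 := q.1.1.norm_coe_le_norm x
    have h5 := (h1 j x).trans (hM' j)
    linarith
  have hb2 : ∀ j a x, ‖(p j).1.2 a x‖ ≤ ‖q.1.2 a‖ + M := by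
    intro j a x
    have h3 := norm_le_norm_add_norm_sub' ((p j).1.2 a x) (q.1.2 a x)
    have h4 := (q.1.2 a).norm_coe_le_norm x
    have h5 := (h2 j a x).trans (hM' j)
    linarith
  refine tendsto_integral_of_dominated_convergence
    (fun _ => (∑ a, (‖q.1.2 a‖ + M) * P a) + Wm * (‖q.1.1‖ + M) * Z) ?_ (integrable_const _) ?_ ?_
  · exact fun j => (hint (p j)).aestronglyMeasurable
  · intro j
    refine Eventually.of_forall fun x => ?_
    rw [Real.norm_eq_abs]
    refine (abs_add_le _ _).trans (add_le_add ?_ ?_)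
    · refine (Finset.abs_sum_le_sum_abs _ _).trans (Finset.sum_le_sum fun a _ => ?_)
      refine (abs_ip_le _ _).trans ?_
      exact mul_le_mul (hb2 j a x) (hP a x (mem_univ x)) (norm_nonneg _)
        ((norm_nonneg _).trans (hb2 j a x))
    · refine (abs_ip_le _ _).trans ?_
      have h6 : ‖W x ((p j).1.1 x)‖ ≤ Wm * (‖q.1.1‖ + M) := by
        refine ((W x).le_opNorm _).trans ?_
        exact mul_le_mul (hWm x (mem_univ x)) (hb1 j x) (norm_nonneg _)
          ((norm_nonneg _).trans (hWm x (mem_univ x)))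
      exact mul_le_mul h6 (hZ x (mem_univ x)) (norm_nonneg _) ((norm_nonneg _).trans h6)
  · refine Eventually.of_forall fun x => ?_
    have t1 : Tendsto (fun j => (p j).1.1 x) atTop (𝓝 (q.1.1 x)) :=
      tendsto_iff_norm_sub_tendsto_zero.2
        (squeeze_zero (fun _ => norm_nonneg _) (fun j => h1 j x) hεt)
    have t2 : ∀ a, Tendsto (fun j => (p j).1.2 a x) atTop (𝓝 (q.1.2 a x)) := fun a =>
      tendsto_iff_norm_sub_tendsto_zero.2
        (squeeze_zero (fun _ => norm_nonneg _) (fun j => h2 j a x) hεt)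
    simp only [← hL]
    refine Tendsto.add (tendsto_finsetSum _ fun a _ => ?_) ?_
    · exact ((L.flip (pa D b a ζ x)).continuous.tendsto _).comp (t2 a)
    · exact ((L.flip (ζ x)).continuous.tendsto _).comp (((W x).continuous.tendsto _).comp t1)

/-- convergence of the right hand sides -/
theorem bn_tendsto_rhs (D : SurfData X) {u : ℕ → C(X, 𝔸)} {v : C(X, 𝔸)}
    (h : Tendsto u atTop (𝓝 v)) {ζ : X → 𝔸} (hζ : Sec1 ζ) :
    Tendsto (fun j => ∫ x, ip (u j x) (ζ x) ∂D.ν) atTop (𝓝 (∫ x, ip (v x) (ζ x) ∂D.ν)) := by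
  obtain ⟨L, hL⟩ := exists_ipL (𝔸 := 𝔸)
  set ε : ℕ → ℝ := fun j => ‖u j - v‖ with hε
  have hεt : Tendsto ε atTop (𝓝 0) := tendsto_iff_norm_sub_tendsto_zero.1 h
  have h1 : ∀ j x, ‖u j x - v x‖ ≤ ε j := fun j x => (u j - v).norm_coe_le_norm x
  have hζc : Continuous ζ := hζ.1.continuous
  obtain ⟨Z, hZ⟩ := isCompact_univ.exists_bound_of_continuousOn hζc.continuousOn
  obtain ⟨M, hM⟩ := hεt.bddAbove_range
  have hM' : ∀ j, ε j ≤ M := fun j => hM ⟨j, rfl⟩
  have hb1 : ∀ j x, ‖u j x‖ ≤ ‖v‖ + M := by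
    intro j x
    have h3 := norm_le_norm_add_norm_sub' (u j x) (v x)
    have h4 := v.norm_coe_le_norm x
    have h5 := (h1 j x).trans (hM' j)
    linarith
  refine tendsto_integral_of_dominated_convergence
    (fun _ => (‖v‖ + M) * Z) ?_ (integrable_const _) ?_ ?_
  · intro j
    simp only [← hL]
    exact ((L.continuous.comp (u j).continuous).clm_apply hζc).aestronglyMeasurable
  · intro j
    refine Eventually.of_forall fun x => ?_
    rw [Real.norm_eq_abs]
    refine (abs_ip_le _ _).trans ?_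
    exact mul_le_mul (hb1 j x) (hZ x (mem_univ x)) (norm_nonneg _)
      ((norm_nonneg _).trans (hb1 j x))
  · refine Eventually.of_forall fun x => ?_
    have t1 : Tendsto (fun j => u j x) atTop (𝓝 (v x)) :=
      tendsto_iff_norm_sub_tendsto_zero.2
        (squeeze_zero (fun _ => norm_nonneg _) (fun j => h1 j x) hεt)
    simp only [← hL]
    exact ((L.flip (ζ x)).continuous.tendsto _).comp t1

theorem bn_integrable_ip (D : SurfData X) (ρ : C(X, 𝔸)) {ζ : X → 𝔸} (hζ : Sec1 ζ) :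
    Integrable (fun x => ip (ρ x) (ζ x)) D.ν := by
  obtain ⟨L, hL⟩ := exists_ipL (𝔸 := 𝔸)
  have hc : Continuous fun x => ip (ρ x) (ζ x) := by
    simp only [← hL]
    exact (L.continuous.comp ρ.continuous).clm_apply hζ.1.continuous
  obtain ⟨Z, hZ⟩ := isCompact_univ.exists_bound_of_continuousOn hc.continuousOn
  exact Integrable.of_bound hc.aestronglyMeasurable Z (Eventually.of_forall fun x => hZ x (mem_univ x))

theorem bn_integrable_en (D : SurfData X) (b : Bun X 𝔸) {W : X → 𝔸 →L[ℝ] 𝔸} (hW : Continuous W)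
    {w ζ : X → 𝔸} (hw : Sec1 w) (hζ : Sec1 ζ) :
    Integrable (fun x => (∑ a, ip (pa D b a w x) (pa D b a ζ x)) + ip (W x (w x)) (ζ x)) D.ν := by
  obtain ⟨L, hL⟩ := exists_ipL (𝔸 := 𝔸)
  have hc : Continuous fun x =>
      (∑ a, ip (pa D b a w x) (pa D b a ζ x)) + ip (W x (w x)) (ζ x) := by
    simp only [← hL]
    refine Continuous.add (continuous_finsetSum _ fun a _ => ?_) ?_
    · exact (L.continuous.comp (pa_continuous D b hw.1 a)).clm_apply (pa_continuous D b hζ.1 a)
    · exact (L.continuous.comp (hW.clm_apply hw.1.continuous)).clm_apply hζ.1.continuous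
  obtain ⟨Z, hZ⟩ := isCompact_univ.exists_bound_of_continuousOn hc.continuousOn
  exact Integrable.of_bound hc.aestronglyMeasurable Z (Eventually.of_forall fun x => hZ x (mem_univ x))

theorem bn_en_add (D : SurfData X) (b : Bun X 𝔸) {W : X → 𝔸 →L[ℝ] 𝔸} (hW : Continuous W)
    {w w' ζ : X → 𝔸} (hw : Sec1 w) (hw' : Sec1 w') (hζ : Sec1 ζ) :
    en D b W (fun x => w x + w' x) ζ = en D b W w ζ + en D b W w' ζ := by
  rw [en, en, en, ← integral_add (bn_integrable_en D b hW hw hζ) (bn_integrable_en D b hW hw' hζ)]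
  congr 1
  funext x
  have h1 : ∀ a, ip (pa D b a (fun x => w x + w' x) x) (pa D b a ζ x) =
      ip (pa D b a w x) (pa D b a ζ x) + ip (pa D b a w' x) (pa D b a ζ x) := fun a => by
    rw [pa_add D b hw.1 hw'.1, ip_add_left]
  rw [Finset.sum_congr rfl fun a _ => h1 a, Finset.sum_add_distrib, map_add, ip_add_left]
  ring

theorem bn_en_smul (D : SurfData X) (b : Bun X 𝔸) {W : X → 𝔸 →L[ℝ] 𝔸}
    {w ζ : X → 𝔸} (hw : Sec1 w) (r : ℝ) :
    en D b W (fun x => r • w x) ζ = r * en D b W w ζ := by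
  rw [en, en, ← integral_const_mul]
  congr 1
  funext x
  have h1 : ∀ a, ip (pa D b a (fun x => r • w x) x) (pa D b a ζ x) =
      r * ip (pa D b a w x) (pa D b a ζ x) := fun a => by
    rw [pa_smul D b hw.1, ip_smul_left]
  rw [Finset.sum_congr rfl fun a _ => h1 a, ← Finset.mul_sum, map_smul, ip_smul_left]
  ring

/-- the selfadjoint part -/
def bnSym (ρ : C(X, 𝔸)) : C(X, 𝔸) :=
  ⟨fun x => (1 / 2 : ℝ) • (ρ x + star (ρ x)), by fun_prop⟩

theorem exists_S (D : SurfData X) (b : Bun X 𝔸) {W : X → 𝔸 →L[ℝ] 𝔸} (hW : Pot X 𝔸 W)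
    {δ : ℝ} (hδ : 0 < δ) (hco : Coer D b W δ) :
    ∃ S : C(X, 𝔸) →L[ℝ] XSp D b, ∀ ρ : C(X, 𝔸), (∀ x, star (ρ x) = ρ x) →
      ∀ ζ : X → 𝔸, Sec1 ζ → en D b W ((S ρ).1.1) ζ = ∫ x, ip (ρ x) (ζ x) ∂D.ν := by
  have hA : CompleteSpace 𝔸 := FiniteDimensional.complete ℂ 𝔸
  have hXc : CompleteSpace (XSp D b) := completeSpace_XSp D b
  have hprop : ProperSpace 𝔸 := FiniteDimensional.proper ℂ 𝔸
  have hsym : ∀ (ρ : C(X, 𝔸)) x, star (bnSym ρ x) = bnSym ρ x := by
    intro ρ x
    have : star ((1 / 2 : ℝ) • (ρ x + star (ρ x))) = (1 / 2 : ℝ) • (ρ x + star (ρ x)) := by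
      have h1 : ((1 / 2 : ℝ) • (ρ x + star (ρ x))) = ((1 / 2 : ℂ)) • (ρ x + star (ρ x)) := by
        rw [← Complex.coe_smul]; norm_num
      rw [h1, star_smul, star_add, star_star, add_comm]
      simp
    exact this
  have hex : ∀ ρ : C(X, 𝔸), ∃ p : XSp D b, ∀ ζ : X → 𝔸, Sec1 ζ →
      en D b W p.1.1 ζ = ∫ x, ip (bnSym ρ x) (ζ x) ∂D.ν := by
    intro ρ
    obtain ⟨w, hw, h⟩ := solver D b hW hδ hco (ρ := bnSym ρ)
      (bnSym ρ).continuous.aestronglyMeasurable (C := ‖bnSym ρ‖) (fun x => (bnSym ρ).norm_coe_le_norm x)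
      (Eventually.of_forall (hsym ρ))
    exact ⟨⟨(⟨w, hw.1.continuous⟩, fun a => ⟨pa D b a w, pa_continuous D b hw.1 a⟩),
      hw, fun a x => rfl⟩, h⟩
  choose S0 hS0 using hex
  have huniq : ∀ p q : XSp D b, (∀ ζ : X → 𝔸, Sec1 ζ → en D b W p.1.1 ζ = en D b W q.1.1 ζ) →
      p = q := by
    intro p q h
    have h1 : (p.1.1 : X → 𝔸) = q.1.1 := solver_unique D b hW hδ hco p.2.1 q.2.1 h
    apply Subtype.ext
    refine Prod.ext (ContinuousMap.coe_injective h1) ?_
    funext a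
    ext x
    rw [p.2.2 a x, q.2.2 a x, h1]
  let S1 : C(X, 𝔸) →ₗ[ℝ] XSp D b :=
    { toFun := S0
      map_add' := by
        intro ρ ρ'
        apply huniq
        intro ζ hζ
        have e1 := bn_en_add D b hW.cont (S0 ρ).2.1 (S0 ρ').2.1 hζ
        have e2 : en D b W (S0 ρ + S0 ρ').1.1 ζ =
            en D b W (fun x => (S0 ρ).1.1 x + (S0 ρ').1.1 x) ζ := rfl
        rw [e2, e1, hS0 _ ζ hζ, hS0 _ ζ hζ, hS0 _ ζ hζ,
          ← integral_add (bn_integrable_ip D _ hζ) (bn_integrable_ip D _ hζ)]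
        congr 1
        funext x
        rw [← ip_add_left]
        congr 1
        change (1 / 2 : ℝ) • ((ρ + ρ') x + star ((ρ + ρ') x)) =
          (1 / 2 : ℝ) • (ρ x + star (ρ x)) + (1 / 2 : ℝ) • (ρ' x + star (ρ' x))
        rw [ContinuousMap.add_apply, star_add, ← smul_add]
        congr 1
        abel
      map_smul' := by
        intro r ρ
        apply huniq
        intro ζ hζ
        have e1 := bn_en_smul D b (W := W) (ζ := ζ) (S0 ρ).2.1 r
        have e2 : en D b W ((RingHom.id ℝ) r • S0 ρ).1.1 ζ =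
            en D b W (fun x => r • (S0 ρ).1.1 x) ζ := rfl
        rw [e2, e1, hS0 _ ζ hζ, hS0 _ ζ hζ, ← integral_const_mul]
        congr 1
        funext x
        rw [← ip_smul_left]
        congr 1
        change (1 / 2 : ℝ) • ((r • ρ) x + star ((r • ρ) x)) =
          r • (1 / 2 : ℝ) • (ρ x + star (ρ x))
        have h1 : star (r • ρ x) = r • star (ρ x) := by
          rw [← Complex.coe_smul, star_smul, ← Complex.coe_smul]
          simp
        rw [ContinuousMap.smul_apply, h1, ← smul_add, smul_comm] }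
  have hcont : Continuous S1 := by
    apply S1.continuous_of_seq_closed_graph
    intro u v y hu hy
    apply huniq
    intro ζ hζ
    have t1 := bn_tendsto_en D b hW.cont hy hζ
    have hs : Tendsto (fun j => bnSym (u j)) atTop (𝓝 (bnSym v)) := by
      rw [tendsto_iff_norm_sub_tendsto_zero] at hu ⊢
      refine squeeze_zero (fun _ => norm_nonneg _) (fun j => ?_) hu
      rw [ContinuousMap.norm_le _ (norm_nonneg _)]
      intro x
      have h1 : (bnSym (u j) - bnSym v) x =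
          (1 / 2 : ℝ) • ((u j x - v x) + star (u j x - v x)) := by
        change (1 / 2 : ℝ) • (u j x + star (u j x)) - (1 / 2 : ℝ) • (v x + star (v x)) = _
        rw [← smul_sub, star_sub]
        congr 1
        abel
      rw [h1, norm_smul]
      have h2 := norm_add_le (u j x - v x) (star (u j x - v x))
      rw [norm_star] at h2
      have h3 : ‖u j x - v x‖ ≤ ‖u j - v‖ := (u j - v).norm_coe_le_norm x
      have h4 : ‖(1 / 2 : ℝ)‖ = 1 / 2 := by norm_num
      rw [h4]
      linarith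
    have t2 := bn_tendsto_rhs D hs hζ
    have t3 : Tendsto (fun j => en D b W (S0 (u j)).1.1 ζ) atTop
        (𝓝 (∫ x, ip (bnSym v x) (ζ x) ∂D.ν)) := t2.congr fun j => (hS0 _ ζ hζ).symm
    rw [show (S1 v) = S0 v from rfl, hS0 v ζ hζ]
    exact tendsto_nhds_unique t1 t3
  refine ⟨⟨S1, hcont⟩, fun ρ hρ ζ hζ => ?_⟩
  have h1 : bnSym ρ = ρ := by
    ext x
    change (1 / 2 : ℝ) • (ρ x + star (ρ x)) = ρ x
    rw [hρ, ← two_smul ℝ (ρ x), smul_smul]
    norm_num
  have h2 := hS0 ρ ζ hζ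
  rw [h1] at h2
  exact h2

end F

end Pool.Agent.Lib8bb
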