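import Pool.Agent.Lib_MP_8bb00a_gt.LogLap
import Pool.Agent.Lib_MP_8bb00a_gt.BMDef

/-!
PIECE K of the existence part of MP_8bb00a_gt: the base metric on the curve, reduced to the Liouville
equation (piece J).
-/

open MeasureTheory Complex Set Metric Filter Topology
open scoped Real ContDiff ComplexConjugate Manifold InnerProductSpace

noncomputable section

namespace Pool.Agent.Lib8bb

namespace BM

/-- the receiving space -/
abbrev V4 : Type := EuclideanSpace ℂ (Fin 4)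

/-- `(1, x, x^2, y)` -/
def fGen (P : Crv) : V4 := !₂[1, xC P, xC P ^ 2, yC P]

/-- `(z^5, z^3, z, sqrt (1+z^10))` -/
def fInf (z : ℂ) : V4 := !₂[z ^ 5, z ^ 3, z, (1 + z ^ 10) ^ (1 / 2 : ℂ)]

open Classical in
/-- the map to `ℂ^4` in a chart -/
def FF (e : OpenPartialHomeomorph Crv ℂ) (z : ℂ) : V4 :=
  if (OnePoint.infty : Crv) ∈ e.source then fInf z else fGen (e.symm z)

theorem FF_inf : FF eInf = fInf := by
  funext z; unfold FF; rw [if_pos infty_mem_source]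

theorem FF_aff (P : AffC) : FF (eAff P) = fun z => fGen ((eAff P).symm z) := by
  funext z; unfold FF; rw [if_neg (infty_notMem P)]

theorem eInf_mem : eInf ∈ atlas ℂ Crv := Or.inl rfl
theorem eAff_mem (P : AffC) : eAff P ∈ atlas ℂ Crv := Or.inr ⟨P, rfl⟩

theorem atlas_cases {e : OpenPartialHomeomorph Crv ℂ} (he : e ∈ atlas ℂ Crv) :
    e = eInf ∨ ∃ P, e = eAff P := by
  rcases he with he | ⟨P, rfl⟩
  · left; exact he
  · right; exact ⟨P, rfl⟩

theorem diff_sqrt10 : DifferentiableOn ℂ (fun z : ℂ => (1 + z ^ 10) ^ (1 / 2 : ℂ)) (ball 0 1) := by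
  refine DifferentiableOn.cpow_const (by fun_prop) (fun x hx => slit_ball hx)

theorem FF_holo {e : OpenPartialHomeomorph Crv ℂ} (he : e ∈ atlas ℂ Crv) :
    DifferentiableOn ℂ (FF e) e.target := by
  rcases atlas_cases he with rfl | ⟨P, rfl⟩
  · rw [FF_inf, eInf_target, differentiableOn_euclidean]
    intro i
    fin_cases i
    · show DifferentiableOn ℂ (fun z : ℂ => z ^ 5) _
      fun_prop
    · show DifferentiableOn ℂ (fun z : ℂ => z ^ 3) _
      fun_prop
    · show DifferentiableOn ℂ (fun z : ℂ => z) _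
      fun_prop
    · exact diff_sqrt10
  · rw [FF_aff, differentiableOn_euclidean]
    intro i
    fin_cases i
    · show DifferentiableOn ℂ (fun z : ℂ => (1:ℂ)) _
      fun_prop
    · exact x_eAff P
    · exact (x_eAff P).pow 2
    · exact y_eAff P

theorem FF_ne {e : OpenPartialHomeomorph Crv ℂ} (he : e ∈ atlas ℂ Crv) :
    ∀ z ∈ e.target, FF e z ≠ 0 := by
  intro z hz h
  rcases atlas_cases he with rfl | ⟨P, rfl⟩
  · rw [FF_inf] at h
    have h2 : fInf z 2 = 0 := by rw [h]; rfl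
    have h3 : fInf z 3 = 0 := by rw [h]; rfl
    change z = 0 at h2
    change (1 + z ^ 10) ^ (1 / 2 : ℂ) = 0 at h3
    rw [h2] at h3
    have := root2_sq (1 + (0:ℂ) ^ 10)
    rw [h3] at this
    norm_num at this
  · rw [FF_aff] at h
    have h2 : fGen ((eAff P).symm z) 0 = 0 := by
      have := congrArg (fun v : V4 => v 0) h
      exact this
    exact one_ne_zero (α := ℂ) h2

theorem deriv_comp_apply {f : ℂ → V4} {z : ℂ} (hf : DifferentiableAt ℂ f z) (i : Fin 4) :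
    deriv (fun w => f w i) z = deriv f z i :=
  ((EuclideanSpace.proj (𝕜 := ℂ) i).hasFDerivAt.comp_hasDerivAt z hf.hasDerivAt).deriv

theorem FF_indep {e : OpenPartialHomeomorph Crv ℂ} (he : e ∈ atlas ℂ Crv) :
    ∀ z ∈ e.target, ∀ r : ℂ, deriv (FF e) z ≠ r • FF e z := by
  intro z hz r h
  have hd : DifferentiableAt ℂ (FF e) z :=
    (FF_holo he).differentiableAt (e.open_target.mem_nhds hz)
  have hc : ∀ i, deriv (fun w => FF e w i) z = r * FF e z i := by
    intro i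
    rw [deriv_comp_apply hd, h]; rfl
  rcases atlas_cases he with rfl | ⟨P, rfl⟩
  · have h2 := hc 2
    have h1 := hc 1
    rw [FF_inf] at h1 h2
    change deriv (fun w : ℂ => w) z = r * z at h2
    change deriv (fun w : ℂ => w ^ 3) z = r * z ^ 3 at h1
    rw [deriv_id''] at h2
    rw [deriv_pow_field] at h1
    norm_num at h1
    have h3 : z ^ 2 = 0 := by linear_combination (1/2) * h1 - (1/2) * z ^ 2 * h2
    have h4 : z = 0 := pow_eq_zero_iff (two_ne_zero) |>.1 h3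
    rw [h4] at h2
    norm_num at h2
  · have h0 := hc 0
    have h1 := hc 1
    have h3 := hc 3
    rw [FF_aff] at h0 h1 h3
    change deriv (fun w : ℂ => (1:ℂ)) z = r * 1 at h0
    change deriv (fun w : ℂ => xC ((eAff P).symm w)) z = r * _ at h1
    change deriv (fun w : ℂ => yC ((eAff P).symm w)) z = r * _ at h3
    have hr : r = 0 := by
      rw [deriv_const] at h0; simpa using h0.symm
    rw [hr, zero_mul] at h1 h3
    have e1 := omAff_spec P z hz
    have e2 := omAff_spec' P z hz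
    have e3 := omAff_ne P z hz
    rw [h1] at e1
    rw [h3] at e2
    have hy : yC ((eAff P).symm z) = 0 := (mul_eq_zero.1 e1.symm).resolve_right e3
    have hx : xC ((eAff P).symm z) = 0 := by
      have h5 : (5:ℂ) * xC ((eAff P).symm z) ^ 4 = 0 := by
        apply (mul_eq_zero.1 (show (5 * xC ((eAff P).symm z) ^ 4) * omAff P z = 0 by
          rw [← e2]; ring)).resolve_right e3
      have h6 := (mul_eq_zero.1 h5).resolve_left (by norm_num)
      exact pow_eq_zero_iff (by norm_num) |>.1 h6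
    have h7 : yC ((eAff P).symm z) ^ 2 = xC ((eAff P).symm z) ^ 5 + 1 := ((affCh P).symm z).2
    rw [hx, hy] at h7
    norm_num at h7

/-- the potential -/
def phi (e : OpenPartialHomeomorph Crv ℂ) (z : ℂ) : ℝ := (1 / 5) * Real.log (‖FF e z‖ ^ 2)

def uu (P : Crv) : ℝ := (1 / 5) * Real.log (‖fGen P‖ ^ 2)

theorem phi_aff (P : AffC) (z : ℂ) : phi (eAff P) z = uu ((eAff P).symm z) := by
  unfold phi uu; rw [FF_aff]

theorem phi_smooth {e : OpenPartialHomeomorph Crv ℂ} (he : e ∈ atlas ℂ Crv) :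
    ContDiffOn ℝ ∞ (phi e) e.target :=
  contDiffOn_const.mul (contDiffOn_log_norm e.open_target (FF_holo he) (FF_ne he))

/-- the curvature term -/
def kp (e : OpenPartialHomeomorph Crv ℂ) (z : ℂ) : ℝ :=
  (dzb (dz (fun w => ((phi e w : ℝ) : ℂ))) z).re

theorem lap_const_mul {U : Set ℂ} (hU : IsOpen U) {f : ℂ → ℂ} (c : ℂ) (hf : ContDiffOn ℝ 2 f U)
    {z : ℂ} (hz : z ∈ U) : dzb (dz (fun w => c * f w)) z = c * dzb (dz f) z := by
  have h1 : dz (fun w => c * f w) =ᶠ[𝓝 z] fun w => c * dz f w := by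
    filter_upwards [hU.mem_nhds hz] with w hw
    rw [dz_mul (differentiableAt_const c) (diffAt_of_Ck hU two_ne_zero hf hw), dz_const, zero_mul,
      zero_add]
  rw [dzb_congr h1, dzb_mul (differentiableAt_const c)
    (diffAt_of_Ck hU one_ne_zero (contDiffOn_dz' hU hf (by norm_num)) hz), dzb_const, zero_mul,
      zero_add]

theorem ofReal_Ck {U : Set ℂ} {f : ℂ → ℝ} {n : ℕ∞ω} (hf : ContDiffOn ℝ n f U) :
    ContDiffOn ℝ n (fun w => ((f w : ℝ) : ℂ)) U :=
  Complex.ofRealCLM.contDiff.comp_contDiffOn hf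

theorem log_norm_Ck {e : OpenPartialHomeomorph Crv ℂ} (he : e ∈ atlas ℂ Crv) :
    ContDiffOn ℝ 2 (fun w => ((Real.log (‖FF e w‖ ^ 2) : ℝ) : ℂ)) e.target :=
  ofReal_Ck ((contDiffOn_log_norm e.open_target (FF_holo he) (FF_ne he)).of_le (WithTop.coe_le_coe.2 (le_top : (2:ℕ∞) ≤ ⊤)))

theorem lap_phi {e : OpenPartialHomeomorph Crv ℂ} (he : e ∈ atlas ℂ Crv) {z : ℂ}
    (hz : z ∈ e.target) : dzb (dz (fun w => ((phi e w : ℝ) : ℂ))) z =
      (1 / 5) * dzb (dz (fun w => ((Real.log (‖FF e w‖ ^ 2) : ℝ) : ℂ))) z := by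
  have h : (fun w => ((phi e w : ℝ) : ℂ)) =
      fun w => (1 / 5 : ℂ) * ((Real.log (‖FF e w‖ ^ 2) : ℝ) : ℂ) := by
    funext w; unfold phi; push_cast; ring
  rw [h]
  exact lap_const_mul e.open_target _ (log_norm_Ck he) hz

theorem kp_eq {e : OpenPartialHomeomorph Crv ℂ} (he : e ∈ atlas ℂ Crv) {z : ℂ}
    (hz : z ∈ e.target) : dzb (dz (fun w => ((phi e w : ℝ) : ℂ))) z = ((kp e z : ℝ) : ℂ) := by
  unfold kp
  rw [lap_phi he hz, lap_log_norm e.open_target (FF_holo he) (FF_ne he) hz]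
  apply Complex.ext
  · simp
  · rw [show (1 / 5 : ℂ) = ((1 / 5 : ℝ) : ℂ) by norm_num, ← ofReal_mul, ofReal_im, ofReal_im]

theorem kp_pos {e : OpenPartialHomeomorph Crv ℂ} (he : e ∈ atlas ℂ Crv) {z : ℂ}
    (hz : z ∈ e.target) : 0 < kp e z := by
  unfold kp
  rw [lap_phi he hz]
  have := lap_log_norm_pos e.open_target (FF_holo he) (FF_ne he) hz (FF_indep he z hz)
  rw [show (1 / 5 : ℂ) = ((1 / 5 : ℝ) : ℂ) by norm_num, re_ofReal_mul]
  positivity

theorem kp_smooth {e : OpenPartialHomeomorph Crv ℂ} (he : e ∈ atlas ℂ Crv) :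
    ContDiffOn ℝ ∞ (kp e) e.target := by
  have h1 := ofReal_Ck (phi_smooth he)
  have h2 := contDiffOn_dz' e.open_target h1 (m := ∞) (by simp)
  have h3 := contDiffOn_dzb' e.open_target h2 (m := ∞) (by simp)
  exact Complex.reCLM.contDiff.comp_contDiffOn h3

/-! ### transition laws -/

theorem fGen_eInf {z : ℂ} (hz : z ∈ ball (0:ℂ) 1) (h0 : z ≠ 0) :
    fInf z = (z ^ 5) • fGen (eInf.symm z) := by
  ext i
  fin_cases i
  · show z ^ 5 = z ^ 5 * 1
    ring
  · show z ^ 3 = z ^ 5 * xC _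
    rw [x_eInf hz h0]; field_simp
  · show z = z ^ 5 * xC _ ^ 2
    rw [x_eInf hz h0]; field_simp
  · show (1 + z ^ 10) ^ (1 / 2 : ℂ) = z ^ 5 * yC _
    rw [y_eInf hz h0]; field_simp

theorem norm_fInf {z : ℂ} (hz : z ∈ ball (0:ℂ) 1) (h0 : z ≠ 0) :
    phi eInf z = uu (eInf.symm z) + Real.log (‖z‖ ^ 2) := by
  unfold phi uu
  rw [FF_inf, fGen_eInf hz h0, norm_smul, norm_pow]
  have h1 : 0 < ‖z‖ := norm_pos_iff.2 h0
  have h2 : fGen (eInf.symm z) ≠ 0 := by
    intro h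
    have : fInf z = 0 := by rw [fGen_eInf hz h0, h, smul_zero]
    exact FF_ne eInf_mem z hz (by rw [FF_inf]; exact this)
  have h3 : 0 < ‖fGen (eInf.symm z)‖ := norm_pos_iff.2 h2
  rw [mul_pow, Real.log_mul (by positivity) (by positivity), ← pow_mul, Real.log_pow, Real.log_pow,
    Real.log_pow]
  push_cast
  ring


theorem zInf_ne {z : ℂ} {P : AffC} (hz : z ∈ dom (eAff P) eInf) : trans (eAff P) eInf z ≠ 0 := by
  have h1 := hz.2
  rw [mem_preimage, eAff_symm, coe_mem_eInf_source] at h1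
  have := (zInf_facts h1).1
  rwa [trans, eAff_symm, eInf_coe]

theorem inf_aff_ne {z : ℂ} {P : AffC} (hz : z ∈ dom eInf (eAff P)) : z ≠ 0 := by
  intro h
  have h1 := hz.2
  rw [mem_preimage, h, eInf_symm_zero] at h1
  exact infty_notMem P h1

/-- the relation of the potentials -/
theorem phi_aff_inf {P : AffC} {z : ℂ} (hz : z ∈ dom (eAff P) eInf) :
    phi (eAff P) z = phi eInf (trans (eAff P) eInf z) -
      Real.log (‖trans (eAff P) eInf z‖ ^ 2) := by
  have h1 := trans_mem_target hz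
  rw [norm_fInf h1 (zInf_ne hz), phi_aff, symm_trans hz]
  ring

theorem phi_aff_aff {P Q : AffC} {z : ℂ} (hz : z ∈ dom (eAff P) (eAff Q)) :
    phi (eAff P) z = phi (eAff Q) (trans (eAff P) (eAff Q) z) := by
  rw [phi_aff, phi_aff, symm_trans hz]

theorem mapsTo_trans {e e' : OpenPartialHomeomorph Crv ℂ} :
    MapsTo (trans e e') (dom e e') e'.target := fun _ hz => trans_mem_target hz

theorem two_le_infty : (2 : ℕ∞ω) ≤ ∞ := WithTop.coe_le_coe.2 (le_top : (2:ℕ∞) ≤ ⊤)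

/-- a law is symmetric in the two charts -/
theorem law_symm {g g' : ℂ → ℝ} {e e' : OpenPartialHomeomorph Crv ℂ} (he : e ∈ atlas ℂ Crv)
    (he' : e' ∈ atlas ℂ Crv)
    (h : ∀ z ∈ dom e e', g z = g' (trans e e' z) * ‖deriv (trans e e') z‖ ^ 2) :
    ∀ z ∈ dom e' e, g' z = g (trans e' e z) * ‖deriv (trans e' e) z‖ ^ 2 := by
  intro z hz
  have h1 := h (trans e' e z) (trans_mem_dom hz)
  rw [trans_trans hz] at h1
  rw [h1, mul_assoc, ← mul_pow, ← norm_mul, trans_deriv_inv he' he hz]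
  simp

theorem kp_aff_aff (P Q : AffC) : ∀ z ∈ dom (eAff P) (eAff Q),
    kp (eAff P) z = kp (eAff Q) (trans (eAff P) (eAff Q) z) *
      ‖deriv (trans (eAff P) (eAff Q)) z‖ ^ 2 := by
  intro z hz
  have h1 : (fun w => ((phi (eAff P) w : ℝ) : ℂ)) =ᶠ[𝓝 z]
      fun w => ((phi (eAff Q) (trans (eAff P) (eAff Q) w) : ℝ) : ℂ) := by
    filter_upwards [(isOpen_dom (eAff P) (eAff Q)).mem_nhds hz] with w hw
    rw [phi_aff_aff hw]
  unfold kp
  rw [lap_congr h1]
  rw [lap_comp_holo (f := fun w => ((phi (eAff Q) w : ℝ) : ℂ)) (isOpen_dom _ _)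
    (eAff Q).open_target ((ofReal_Ck (phi_smooth (eAff_mem Q))).of_le two_le_infty)
    (trans_holo (eAff_mem P) (eAff_mem Q)) mapsTo_trans hz, smul_eq_mul, re_ofReal_mul]
  ring

theorem kp_aff_inf (P : AffC) : ∀ z ∈ dom (eAff P) eInf,
    kp (eAff P) z = kp eInf (trans (eAff P) eInf z) *
      ‖deriv (trans (eAff P) eInf) z‖ ^ 2 := by
  intro z hz
  have hop := isOpen_dom (eAff P) eInf
  have h1 : (fun w => ((phi (eAff P) w : ℝ) : ℂ)) =ᶠ[𝓝 z]
      fun w => ((phi eInf (trans (eAff P) eInf w) : ℝ) : ℂ) -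
        ((Real.log (‖trans (eAff P) eInf w‖ ^ 2) : ℝ) : ℂ) := by
    filter_upwards [hop.mem_nhds hz] with w hw
    rw [phi_aff_inf hw]; push_cast; rfl
  have hτ := trans_holo (eAff_mem P) eInf_mem
  have hne : ∀ w ∈ dom (eAff P) eInf, trans (eAff P) eInf w ≠ 0 := fun w hw => zInf_ne hw
  have c1 : ContDiffOn ℝ 2 (fun w => ((phi eInf w : ℝ) : ℂ)) eInf.target :=
    (ofReal_Ck (phi_smooth eInf_mem)).of_le two_le_infty
  have c2 : ContDiffOn ℝ 2 (trans (eAff P) eInf) (dom (eAff P) eInf) :=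
    ((hτ.contDiffOn hop (n := 2))).restrict_scalars ℝ
  have c3 : ContDiffOn ℝ 2 (fun w => ((phi eInf (trans (eAff P) eInf w) : ℝ) : ℂ))
      (dom (eAff P) eInf) := c1.comp c2 mapsTo_trans
  have c4 : ContDiffOn ℝ 2 (fun w => ((Real.log (‖trans (eAff P) eInf w‖ ^ 2) : ℝ) : ℂ))
      (dom (eAff P) eInf) :=
    (ofReal_Ck (contDiffOn_log_norm hop hτ hne)).of_le two_le_infty
  unfold kp
  rw [lap_congr h1, lap_sub hop c3 c4 hz, lap_log_norm_complex hop hτ hne hz, sub_zero,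
    lap_comp_holo (f := fun w => ((phi eInf w : ℝ) : ℂ)) hop eInf.open_target c1 hτ mapsTo_trans hz,
    smul_eq_mul, re_ofReal_mul]
  ring

theorem trans_inf_inf' {z : ℂ} (hz : z ∈ dom eInf eInf) :
    trans eInf eInf z = z ∧ deriv (trans eInf eInf) z = 1 :=
  ⟨trans_self hz.1, deriv_trans_self hz.1⟩

/-- the coefficient of the holomorphic form -/
def om (e : OpenPartialHomeomorph Crv ℂ) : ℂ → ℂ :=
  open Classical in
  if h : ∃ P, e = eAff P then omAff h.choose else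
    fun z => 2 * z * ((1 + z ^ 10) ^ (1 / 2 : ℂ))⁻¹

theorem om_inf : om eInf = fun z => 2 * z * ((1 + z ^ 10) ^ (1 / 2 : ℂ))⁻¹ := by
  unfold om
  rw [dif_neg]
  rintro ⟨P, hP⟩
  have := infty_mem_source
  rw [hP] at this
  exact infty_notMem P this

theorem om_aff (P : AffC) : ∀ z ∈ (eAff P).target, om (eAff P) z = omAff P z := by
  intro z hz
  have hex : ∃ Q, eAff P = eAff Q := ⟨P, rfl⟩
  unfold om
  rw [dif_pos hex]
  have hQ : eAff P = eAff hex.choose := hex.choose_spec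
  set Q := hex.choose with hQdef
  have h1 : (eAff P).symm z ∈ (eAff Q).source := by
    rw [← hQ]; exact (eAff P).map_target hz
  have h2 := omAff_compat P Q z hz h1
  rw [← hQ] at h2
  have h3 : deriv (fun w => (eAff P) ((eAff P).symm w)) z = 1 := deriv_trans_self hz
  rw [h3, (eAff P).right_inv hz, mul_one] at h2
  exact h2.symm

theorem sqrt10_ne {z : ℂ} (hz : z ∈ ball (0:ℂ) 1) : (1 + z ^ 10) ^ (1 / 2 : ℂ) ≠ 0 := by
  intro h
  have hs2 := root2_sq (1 + z ^ 10)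
  rw [h] at hs2
  exact slitPlane_ne_zero (slit_ball hz) (by rw [← hs2]; norm_num)

theorem om_holo {e : OpenPartialHomeomorph Crv ℂ} (he : e ∈ atlas ℂ Crv) :
    DifferentiableOn ℂ (om e) e.target := by
  rcases atlas_cases he with rfl | ⟨P, rfl⟩
  · rw [om_inf]
    refine DifferentiableOn.mul (by fun_prop) (DifferentiableOn.inv diff_sqrt10 ?_)
    intro z hz; exact sqrt10_ne hz
  · exact (omAff_holo P).congr (om_aff P)

/-- the density `|ω|² e^φ` -/
def KK (e : OpenPartialHomeomorph Crv ℂ) (z : ℂ) : ℝ := ‖om e z‖ ^ 2 * Real.exp (phi e z)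

theorem KK_smooth {e : OpenPartialHomeomorph Crv ℂ} (he : e ∈ atlas ℂ Crv) :
    ContDiffOn ℝ ∞ (KK e) e.target := by
  have h1 : ContDiffOn ℂ ∞ (om e) e.target := (om_holo he).contDiffOn e.open_target
  have h2 : ContDiffOn ℝ ∞ (om e) e.target := h1.restrict_scalars ℝ
  exact (h2.norm_sq ℝ).mul ((phi_smooth he).exp)

theorem KK_nonneg (e : OpenPartialHomeomorph Crv ℂ) (z : ℂ) : 0 ≤ KK e z := by
  unfold KK; positivity

theorem KK_pos {e : OpenPartialHomeomorph Crv ℂ} (he : e ∈ atlas ℂ Crv) {z : ℂ}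
    (hz : z ∈ e.target) (h : e.symm z ≠ OnePoint.infty) : 0 < KK e z := by
  have h1 : om e z ≠ 0 := by
    rcases atlas_cases he with rfl | ⟨P, rfl⟩
    · rw [om_inf]
      have hz0 : z ≠ 0 := by
        intro h0; exact h (by rw [h0, eInf_symm_zero])
      exact mul_ne_zero (mul_ne_zero two_ne_zero hz0) (inv_ne_zero (sqrt10_ne hz))
    · rw [om_aff P z hz]; exact omAff_ne P z hz
  have h2 : 0 < ‖om e z‖ := norm_pos_iff.2 h1
  unfold KK; positivity

theorem KK_aff_aff (P Q : AffC) : ∀ z ∈ dom (eAff P) (eAff Q),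
    KK (eAff P) z = KK (eAff Q) (trans (eAff P) (eAff Q) z) *
      ‖deriv (trans (eAff P) (eAff Q)) z‖ ^ 2 := by
  intro z hz
  unfold KK
  rw [om_aff P z hz.1, om_aff Q _ (trans_mem_target hz), phi_aff_aff hz,
    omAff_compat P Q z hz.1 hz.2, norm_mul]
  have h1 : (fun w => (eAff Q) ((eAff P).symm w)) = trans (eAff P) (eAff Q) := rfl
  rw [h1, show (eAff Q) ((eAff P).symm z) = trans (eAff P) (eAff Q) z from rfl]
  ring

theorem KK_aff_inf (P : AffC) : ∀ z ∈ dom (eAff P) eInf,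
    KK (eAff P) z = KK eInf (trans (eAff P) eInf z) * ‖deriv (trans (eAff P) eInf) z‖ ^ 2 := by
  intro z hz
  unfold KK
  have hne := zInf_ne hz
  have h0 : 0 < ‖trans (eAff P) eInf z‖ := norm_pos_iff.2 hne
  rw [om_aff P z hz.1, om_inf, phi_aff_inf hz, omInf_compat P z hz.1 hz.2, Real.exp_sub,
    Real.exp_log (by positivity)]
  have h1 : (fun w => eInf ((eAff P).symm w)) = trans (eAff P) eInf := rfl
  rw [h1, show eInf ((eAff P).symm z) = trans (eAff P) eInf z from rfl]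
  set τ := trans (eAff P) eInf z
  simp only [norm_mul, norm_inv, norm_pow, norm_neg]
  field_simp

/-- all transition laws -/
theorem all_laws {g : OpenPartialHomeomorph Crv ℂ → ℂ → ℝ}
    (h1 : ∀ P Q, ∀ z ∈ dom (eAff P) (eAff Q), g (eAff P) z =
      g (eAff Q) (trans (eAff P) (eAff Q) z) * ‖deriv (trans (eAff P) (eAff Q)) z‖ ^ 2)
    (h2 : ∀ P, ∀ z ∈ dom (eAff P) eInf, g (eAff P) z =
      g eInf (trans (eAff P) eInf z) * ‖deriv (trans (eAff P) eInf) z‖ ^ 2) :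
    ∀ e ∈ atlas ℂ Crv, ∀ e' ∈ atlas ℂ Crv, ∀ z ∈ dom e e',
      g e z = g e' (trans e e' z) * ‖deriv (trans e e') z‖ ^ 2 := by
  intro e he e' he'
  rcases atlas_cases he with rfl | ⟨P, rfl⟩ <;> rcases atlas_cases he' with rfl | ⟨Q, rfl⟩
  · intro z hz
    rw [(trans_inf_inf' hz).1, (trans_inf_inf' hz).2]; simp
  · exact law_symm (eAff_mem Q) eInf_mem (h2 Q)
  · exact h2 P
  · exact h1 P Q

/-- the Liouville statement on the curve -/
def LiouvilleCrv : Prop := ∀ (K κ : OpenPartialHomeomorph Crv ℂ → ℂ → ℝ)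
    (_ : ∀ e ∈ atlas ℂ Crv, ContDiffOn ℝ ∞ (K e) e.target)
    (_ : ∀ e ∈ atlas ℂ Crv, ContDiffOn ℝ ∞ (κ e) e.target)
    (_ : ∀ e ∈ atlas ℂ Crv, ∀ e' ∈ atlas ℂ Crv, ∀ z ∈ dom e e',
      K e z = K e' (trans e e' z) * ‖deriv (trans e e') z‖ ^ 2)
    (_ : ∀ e ∈ atlas ℂ Crv, ∀ e' ∈ atlas ℂ Crv, ∀ z ∈ dom e e',
      κ e z = κ e' (trans e e' z) * ‖deriv (trans e e') z‖ ^ 2)
    (_ : ∀ e ∈ atlas ℂ Crv, ∀ z ∈ e.target, 0 ≤ K e z)
    (_ : ∀ e ∈ atlas ℂ Crv, ∀ z ∈ e.target, 0 < κ e z) (p : Crv)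
    (_ : ∀ e ∈ atlas ℂ Crv, ∀ z ∈ e.target, e.symm z ≠ p → 0 < K e z),
    ∃ v : Crv → ℝ, Ck ∞ v ∧ ∀ e ∈ atlas ℂ Crv, ∀ z ∈ e.target,
      dzb (dz (fun x => ((v (e.symm x) : ℝ) : ℂ))) z =
        ((K e z * Real.exp (v (e.symm z)) - κ e z : ℝ) : ℂ)

theorem norm_om_inf_sq (z : ℂ) : ‖om eInf z‖ ^ 2 = 4 * ‖z‖ ^ 2 * ‖1 + z ^ 10‖⁻¹ := by
  rw [om_inf]
  simp only [norm_mul, norm_inv, mul_pow]
  have h : ‖(1 + z ^ 10) ^ (1 / 2 : ℂ)‖ ^ 2 = ‖1 + z ^ 10‖ := by
    rw [← norm_pow, root2_sq]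
  rw [inv_pow, h]
  norm_num

theorem exists_baseMetric_of (hL : LiouvilleCrv) : ∃ u s, BaseMetric u s := by
  obtain ⟨v, hv, hveq⟩ := hL KK kp (fun e he => KK_smooth he) (fun e he => kp_smooth he)
    (all_laws KK_aff_aff KK_aff_inf) (all_laws kp_aff_aff kp_aff_inf)
    (fun e _ z _ => KK_nonneg e z) (fun e he z hz => kp_pos he hz) OnePoint.infty
    (fun e he z hz h => KK_pos he hz h)
  have key : ∀ e ∈ atlas ℂ Crv, ∀ z ∈ e.target,
      dzb (dz (fun x => ((phi e x + v (e.symm x) : ℝ) : ℂ))) z =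
        ((‖om e z‖ ^ 2 * Real.exp (phi e z + v (e.symm z)) : ℝ) : ℂ) := by
    intro e he z hz
    have h1 : (fun x => ((phi e x + v (e.symm x) : ℝ) : ℂ)) =
        fun x => ((phi e x : ℝ) : ℂ) + ((v (e.symm x) : ℝ) : ℂ) := by
      funext x; push_cast; rfl
    rw [h1, lap_add e.open_target ((ofReal_Ck (phi_smooth he)).of_le two_le_infty)
      ((ofReal_Ck (hv e he)).of_le two_le_infty) hz, kp_eq he hz, hveq e he z hz, KK, Real.exp_add]
    push_cast
    ring
  refine ⟨fun P => uu P + v P, fun z => phi eInf z + v (eInf.symm z), ?_, ?_, ?_, ?_, ?_⟩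
  · intro P
    have h1 := (phi_smooth (eAff_mem P)).add (hv _ (eAff_mem P))
    refine h1.congr ?_
    intro z hz
    rw [← phi_aff]
  · intro P z hz
    have h1 := key _ (eAff_mem P) z hz
    simp_rw [phi_aff] at h1
    rw [om_aff P z hz] at h1
    exact h1
  · exact (phi_smooth eInf_mem).add (hv _ eInf_mem)
  · intro z hz h0
    show uu (eInf.symm z) + v (eInf.symm z) = _
    rw [norm_fInf hz h0, Real.log_pow]
    push_cast; ring
  · intro z hz
    have h1 := key _ eInf_mem z hz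
    rw [norm_om_inf_sq] at h1
    exact h1

end BM

end Pool.Agent.Lib8bb
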