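import Pool.Agent.Lib_MP_8bb00a_gt.CT5

/-!
Product rules for the weak equations `∂̄ w = q`, `∂ w = q` (continuous functions, `C¹`
coefficients), adjoints, gluing of local continuous representatives.
-/

open MeasureTheory Complex Set Metric Filter Topology
open scoped Real ContDiff ComplexConjugate Convolution

noncomputable section

namespace Pool.Agent.Lib8bb

variable {V W : Type*} [NormedAddCommGroup V] [NormedSpace ℂ V]
  [NormedAddCommGroup W] [NormedSpace ℂ W]

theorem dzb_clm_apply {a : ℂ → V →L[ℂ] W} {f : ℂ → V} {z : ℂ} (ha : DifferentiableAt ℝ a z)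
    (hf : DifferentiableAt ℝ f z) :
    dzb (fun x => a x (f x)) z = dzb a z (f z) + a z (dzb f z) := by
  have hB : HasFDerivAt (fun x => a x (f x))
      ((((a z).restrictScalars ℝ).comp (fderiv ℝ f z)) +
        ((ContinuousLinearMap.apply ℂ W (f z)).restrictScalars ℝ).comp (fderiv ℝ a z)) z := by
    have h1 : HasFDerivAt (fun x => (ContinuousLinearMap.restrictScalarsL ℂ V W ℝ ℝ) (a x))
        ((ContinuousLinearMap.restrictScalarsL ℂ V W ℝ ℝ).comp (fderiv ℝ a z)) z :=
      (ContinuousLinearMap.restrictScalarsL ℂ V W ℝ ℝ).hasFDerivAt.comp z ha.hasFDerivAt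
    have h2 := h1.clm_apply hf.hasFDerivAt
    refine h2.congr_fderiv ?_
    ext v
    simp
  rw [HasFDerivAt.dzb_eq hB]
  simp only [dzb, add_apply, ContinuousLinearMap.comp_apply,
    ContinuousLinearMap.coe_restrictScalars', ContinuousLinearMap.apply_apply, map_smul, map_add,
    smul_apply]
  module

theorem integral_fderiv_zero {F : ℂ → W} (hF : ContDiff ℝ 1 F) (hc : HasCompactSupport F)
    (v : ℂ) : ∫ z, fderiv ℝ F z v = 0 := by
  have hFd : Differentiable ℝ F := hF.differentiable one_ne_zero
  have hcont : Continuous (fun z => fderiv ℝ F z v) :=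
    (hF.continuous_fderiv one_ne_zero).clm_apply continuous_const
  have hcs := hasCompactSupport_fderiv_apply hc v
  have h := integral_bilinear_hasFDerivAt_right_eq_neg_left_of_integrable (μ := volume)
    (f := fun _ : ℂ => (1:ℝ)) (f' := fun _ => 0) (g := F) (g' := fderiv ℝ F) (v := v)
    (B := (ContinuousLinearMap.lsmul ℝ ℝ : ℝ →L[ℝ] W →L[ℝ] W))
    (by simp) (by simpa using hcont.integrable_of_hasCompactSupport hcs)
    (by simpa using hF.continuous.integrable_of_hasCompactSupport hc)
    (fun x _ => hasFDerivAt_const _ _) (fun x _ => (hFd x).hasFDerivAt)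
  simpa using h

theorem integral_dzb_zero {F : ℂ → W} (hF : ContDiff ℝ 1 F) (hc : HasCompactSupport F) :
    ∫ z, dzb F z = 0 := by
  have hcont : ∀ v : ℂ, Continuous (fun z => fderiv ℝ F z v) := fun v =>
    (hF.continuous_fderiv one_ne_zero).clm_apply continuous_const
  have i : ∀ v : ℂ, Integrable (fun z => fderiv ℝ F z v) := fun v =>
    (hcont v).integrable_of_hasCompactSupport (hasCompactSupport_fderiv_apply hc v)
  have i2 : Integrable (fun z => I • fderiv ℝ F z I) := (i I).smul I
  simp only [dzb]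
  rw [integral_smul, integral_add (i 1) i2, integral_smul,
    integral_fderiv_zero hF hc, integral_fderiv_zero hF hc, smul_zero, add_zero, smul_zero]

/-- mollification of a weak solution, only `∂̄` -/
theorem moll_dzb [CompleteSpace V] {U : Set ℂ} {w q : ℂ → V} (hw : ContinuousOn w U)
    (h : WDbar U w q) {K : Set ℂ} (hK : IsCompact K) (hKU : K ⊆ U)
    (φ : ContDiffBump (0:ℂ)) {x : ℂ} (hx : closedBall x φ.rOut ⊆ K) :
    dzb (φ.normed volume ⋆[ContinuousLinearMap.lsmul ℝ ℝ, volume] K.indicator w) x =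
      (φ.normed volume ⋆[ContinuousLinearMap.lsmul ℝ ℝ, volume] K.indicator q) x := by
  have hKm : MeasurableSet K := hK.isClosed.measurableSet
  have hwK : IntegrableOn w K := (hw.mono hKU).integrableOn_compact hK
  have hiw : Integrable (K.indicator w) := (integrable_indicator_iff hKm).mpr hwK
  have hφs : ContDiff ℝ ∞ (φ.normed (volume : Measure ℂ)) := φ.contDiff_normed
  have hφc : HasCompactSupport (φ.normed (volume : Measure ℂ)) := φ.hasCompactSupport_normed
  have hd := hφc.hasFDerivAt_convolution_left (ContinuousLinearMap.lsmul ℝ ℝ : ℝ →L[ℝ] V →L[ℝ] V)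
    (hφs.of_le (by simp) : ContDiff ℝ 1 _) hiw.locallyIntegrable x
  set ζ : ℂ → ℂ := fun t => ((φ.normed (volume : Measure ℂ) (x - t) : ℝ) : ℂ) with hζdef
  have hζ : ContDiff ℝ ∞ ζ :=
    Complex.ofRealCLM.contDiff.comp (hφs.comp (contDiff_const.sub contDiff_id))
  have hsupp : ∀ t, t ∉ closedBall x φ.rOut → φ.normed (volume : Measure ℂ) (x - t) = 0 := by
    intro t ht
    have h3 : x - t ∉ Function.support (φ.normed (volume : Measure ℂ)) := by
      rw [φ.support_normed_eq]
      intro h4
      apply ht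
      rw [mem_ball_zero_iff] at h4
      rw [mem_closedBall, dist_comm, dist_eq_norm]; exact h4.le
    simpa using h3
  have hζsub : tsupport ζ ⊆ closedBall x φ.rOut := by
    refine closure_minimal ?_ isClosed_closedBall
    intro t ht
    by_contra h3
    apply ht
    simp [hζdef, hsupp t h3]
  have hζc : HasCompactSupport ζ :=
    (isCompact_closedBall x φ.rOut).of_isClosed_subset (isClosed_tsupport _) hζsub
  have hζU : tsupport ζ ⊆ U := hζsub.trans (hx.trans hKU)
  have e1 := h ζ hζ hζc hζU
  have hconv : ∀ f : ℂ → V, (φ.normed volume ⋆[ContinuousLinearMap.lsmul ℝ ℝ, volume]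
        K.indicator f) x = ∫ t, ζ t • f t := by
    intro f
    rw [convolution_eq_swap]
    congr 1; ext t
    simp only [ContinuousLinearMap.lsmul_apply]
    by_cases ht : t ∈ closedBall x φ.rOut
    · rw [indicator_of_mem (hx ht)]; simp only [hζdef, Complex.coe_smul]
    · rw [hsupp t ht]; simp [hζdef, hsupp t ht]
  have hφd : Differentiable ℝ (φ.normed (volume : Measure ℂ)) := hφs.differentiable (by simp)
  have hfd : ∀ t v, ((fderiv ℝ (φ.normed (volume : Measure ℂ)) (x - t) v : ℝ) : ℂ) =
      - fderiv ℝ ζ t v := by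
    intro t v
    have h3 : HasFDerivAt (fun t : ℂ => x - t) (-(ContinuousLinearMap.id ℝ ℂ)) t :=
      (hasFDerivAt_id t).const_sub x
    have h4 := (hφd (x - t)).hasFDerivAt.comp t h3
    have h5 := (Complex.ofRealCLM.hasFDerivAt).comp t h4
    have h6 : HasFDerivAt ζ _ t := h5
    rw [h6.fderiv]
    simp
  have hconvex := ((hφc.fderiv ℝ).convolutionExists_left
    ((ContinuousLinearMap.lsmul ℝ ℝ : ℝ →L[ℝ] V →L[ℝ] V).precompL ℂ)
    (hφs.continuous_fderiv (by simp)) hiw.locallyIntegrable x)
  have hz0 : ∀ t, t ∉ closedBall x φ.rOut → ζ =ᶠ[𝓝 t] 0 := fun t ht =>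
    notMem_tsupport_iff_eventuallyEq.mp (fun h => ht (hζsub h))
  -- derivative of the convolution
  have key : ∀ v : ℂ, fderiv ℝ (φ.normed volume ⋆[ContinuousLinearMap.lsmul ℝ ℝ, volume]
      K.indicator w) x v = - ∫ t, fderiv ℝ ζ t v • w t := by
    intro v
    rw [hd.fderiv]
    have h3 : ((fderiv ℝ (φ.normed volume)) ⋆[(ContinuousLinearMap.lsmul ℝ ℝ).precompL ℂ, volume]
        K.indicator w) x v = ∫ t, (fderiv ℝ (φ.normed volume) t v) • K.indicator w (x - t) := by
      rw [convolution_def]
      rw [ContinuousLinearMap.integral_apply hconvex]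
      rfl
    rw [h3]
    have h4 : ∫ t, (fderiv ℝ (φ.normed volume) t v) • K.indicator w (x - t) =
        ∫ t, (fderiv ℝ (φ.normed volume) (x - t) v) • K.indicator w t := by
      rw [← integral_sub_left_eq_self _ volume x]
      simp
    rw [h4, ← integral_neg]
    congr 1; ext t
    by_cases ht : t ∈ closedBall x φ.rOut
    · rw [indicator_of_mem (hx ht), ← Complex.coe_smul, hfd, neg_smul]
    · have h6 := hfd t v
      rw [(hz0 t ht).fderiv_eq] at h6 ⊢
      simp at h6
      rw [h6]
      simp
  have hint : ∀ v : ℂ, Integrable (fun t => fderiv ℝ ζ t v • w t) := by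
    intro v
    have hc1 : Continuous (fun t => fderiv ℝ ζ t v) :=
      (hζ.continuous_fderiv (by simp)).clm_apply continuous_const
    refine integrable_smul_local hc1 (hasCompactSupport_fderiv_apply hζc v) hKm hwK ?_
    refine closure_minimal ?_ hK.isClosed
    intro t ht
    by_contra h3
    apply ht
    show fderiv ℝ ζ t v = 0
    rw [(hz0 t (fun h => h3 (hx h))).fderiv_eq]
    simp
  rw [hconv]
  have e2 : ∫ t, dzb ζ t • w t = (1 / 2 : ℂ) • ((∫ t, fderiv ℝ ζ t 1 • w t) +
      I • ∫ t, fderiv ℝ ζ t I • w t) := by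
    have i2 : Integrable (fun t => I • (fderiv ℝ ζ t I • w t)) := (hint I).smul I
    rw [← integral_smul I, ← integral_add (hint 1) i2, ← integral_smul]
    congr 1; ext t
    simp only [dzb, smul_eq_mul]
    module
  have e3 : ∫ t, ζ t • q t = - ∫ t, dzb ζ t • w t := by rw [e1, neg_neg]
  rw [e3, e2, dzb, key 1, key I]
  module

/-- testing the weak equation with a compactly supported operator valued function of class
`C¹` -/
theorem WDbar.test [CompleteSpace V] {U : Set ℂ} (hU : IsOpen U) {w q : ℂ → V}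
    (hw : ContinuousOn w U) (hq : ContinuousOn q U) (h : WDbar U w q) {a : ℂ → V →L[ℂ] W}
    (ha : ContDiff ℝ 1 a) (hac : HasCompactSupport a) (has : tsupport a ⊆ U) :
    ∫ z, dzb a z (w z) = - ∫ z, a z (q z) := by
  obtain ⟨δ, hδ, hδU⟩ := hac.isCompact.exists_cthickening_subset_open hU has
  set K := cthickening δ (tsupport a) with hKdef
  have hK : IsCompact K := hac.isCompact.cthickening
  have hKm : MeasurableSet K := hK.isClosed.measurableSet
  have haK : tsupport a ⊆ K := self_subset_cthickening _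
  have hdc : Continuous (dzb a) := (contDiff_dzb (m := 0) ha (by simp)).continuous
  have hdcs := hasCompactSupport_dzb hac
  have hds : tsupport (dzb a) ⊆ tsupport a := tsupport_dzb_subset
  -- integrability
  have hL1 : ∀ {b : ℂ → V →L[ℂ] W} {u : ℂ → V}, Continuous b → HasCompactSupport b →
      tsupport b ⊆ U → ContinuousOn u U → Integrable (fun z => b z (u z)) := by
    intro b u hb hbc hbs hu
    refine Continuous.integrable_of_hasCompactSupport ?_ ?_
    · rw [continuous_iff_continuousAt]
      intro z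
      by_cases hz : z ∈ tsupport b
      · exact hb.continuousAt.clm_apply (hu.continuousAt (hU.mem_nhds (hbs hz)))
      · have h1 := notMem_tsupport_iff_eventuallyEq.mp hz
        have h2 : (fun z => b z (u z)) =ᶠ[𝓝 z] fun _ => 0 := by
          filter_upwards [h1] with y hy
          rw [hy]; simp
        exact continuousAt_const.congr h2.symm
    · refine hbc.mono ?_
      intro z hz h0
      apply hz
      simp [h0]
  -- mollifiers
  have hbound : ∀ ε > 0, ‖(∫ z, dzb a z (w z)) + ∫ z, a z (q z)‖ ≤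
      ε * ((∫ z, ‖dzb a z‖) + ∫ z, ‖a z‖) := by
    intro ε hε
    have hu : ∀ u : ℂ → V, ContinuousOn u U → ∃ η > 0, ∀ x ∈ K, ∀ y ∈ K, dist x y < η →
        dist (u x) (u y) ≤ ε := by
      intro u hu
      have huc := hK.uniformContinuousOn_of_continuous (hu.mono hδU)
      rw [Metric.uniformContinuousOn_iff] at huc
      obtain ⟨η, hη, hη2⟩ := huc ε hε
      exact ⟨η, hη, fun x hx y hy hxy => (hη2 x hx y hy hxy).le⟩
    obtain ⟨η1, hη1, hw1⟩ := hu w hw
    obtain ⟨η2, hη2, hq1⟩ := hu q hq
    set r := min δ (min η1 η2) with hr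
    have hrpos : 0 < r := lt_min hδ (lt_min hη1 hη2)
    let φ : ContDiffBump (0:ℂ) := ⟨r / 2, r, by positivity, by linarith⟩
    have hφr : φ.rOut = r := rfl
    have hxK : ∀ x ∈ tsupport a, closedBall x φ.rOut ⊆ K := by
      intro x hx
      refine (closedBall_subset_closedBall (show φ.rOut ≤ δ from min_le_left _ _)).trans ?_
      exact closedBall_subset_cthickening hx δ
    have hconv : ∀ (u : ℂ → V), ContinuousOn u U → (∀ x ∈ K, ∀ y ∈ K, dist x y < r →
        dist (u x) (u y) ≤ ε) → ∀ x ∈ tsupport a,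
        ‖(φ.normed volume ⋆[ContinuousLinearMap.lsmul ℝ ℝ, volume] K.indicator u) x - u x‖ ≤ ε := by
      intro u hu hux x hx
      have hxf : K.indicator u x = u x := indicator_of_mem (haK hx) _
      rw [← dist_eq_norm, ← hxf]
      refine φ.dist_normed_convolution_le ?_ ?_
      · exact ((integrable_indicator_iff hKm).mpr
          ((hu.mono hδU).integrableOn_compact hK)).aestronglyMeasurable
      · intro t ht
        have htK : t ∈ K := hxK x hx (ball_subset_closedBall ht)
        rw [hxf, indicator_of_mem htK]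
        exact hux t htK x (haK hx) ht
    have c1 := hconv w hw (fun x hx y hy hxy => hw1 x hx y hy
      (lt_of_lt_of_le hxy ((min_le_right _ _).trans (min_le_left _ _))))
    have c2 := hconv q hq (fun x hx y hy hxy => hq1 x hx y hy
      (lt_of_lt_of_le hxy ((min_le_right _ _).trans (min_le_right _ _))))
    set wn := (φ.normed volume ⋆[ContinuousLinearMap.lsmul ℝ ℝ, volume] K.indicator w) with hwn
    set qn := (φ.normed volume ⋆[ContinuousLinearMap.lsmul ℝ ℝ, volume] K.indicator q) with hqn
    have hsm : ∀ (u : ℂ → V), ContinuousOn u U → ContDiff ℝ 1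
        (φ.normed volume ⋆[ContinuousLinearMap.lsmul ℝ ℝ, volume] K.indicator u) := by
      intro u hu
      have hi : Integrable (K.indicator u) := (integrable_indicator_iff hKm).mpr
          ((hu.mono hδU).integrableOn_compact hK)
      exact φ.hasCompactSupport_normed.contDiff_convolution_left (n := 1) _
        (φ.contDiff_normed (n := 1)) hi.locallyIntegrable
    have hwns : ContDiff ℝ 1 wn := hsm w hw
    have hqns : ContDiff ℝ 1 qn := hsm q hq
    have hd : ∀ x ∈ tsupport a, dzb wn x = qn x := fun x hx =>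
      moll_dzb hw h hK hδU φ (hxK x hx)
    -- integration by parts
    have hF : ContDiff ℝ 1 (fun z => a z (wn z)) := by
      have h1 : ContDiff ℝ 1 (fun x => (ContinuousLinearMap.restrictScalarsL ℂ V W ℝ ℝ) (a x)) :=
        (ContinuousLinearMap.restrictScalarsL ℂ V W ℝ ℝ).contDiff.comp ha
      exact h1.clm_apply hwns
    have hFc : HasCompactSupport (fun z => a z (wn z)) := by
      refine hac.mono ?_
      intro z hz h0
      apply hz
      simp [h0]
    have e0 := integral_dzb_zero hF hFc
    have i1 : Integrable (fun z => dzb a z (wn z)) :=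
      hL1 hdc hdcs (hds.trans has) hwns.continuous.continuousOn
    have i2 : Integrable (fun z => a z (qn z)) :=
      hL1 ha.continuous hac has hqns.continuous.continuousOn
    have i3 : Integrable (fun z => dzb a z (w z)) := hL1 hdc hdcs (hds.trans has) hw
    have i4 : Integrable (fun z => a z (q z)) := hL1 ha.continuous hac has hq
    have e1 : (∫ z, dzb a z (wn z)) + ∫ z, a z (qn z) = 0 := by
      rw [← integral_add i1 i2, ← e0]
      congr 1; ext z
      rw [dzb_clm_apply (ha.differentiable one_ne_zero z) (hwns.differentiable one_ne_zero z)]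
      by_cases hz : z ∈ tsupport a
      · rw [hd z hz]
      · rw [image_eq_zero_of_notMem_tsupport hz]; simp
    have e2 : (∫ z, dzb a z (w z)) + ∫ z, a z (q z) =
        (∫ z, dzb a z (w z - wn z)) + ∫ z, a z (q z - qn z) := by
      have e3 : ∫ z, dzb a z (w z - wn z) = (∫ z, dzb a z (w z)) - ∫ z, dzb a z (wn z) := by
        rw [← integral_sub i3 i1]; congr 1; ext z; rw [map_sub]
      have e4 : ∫ z, a z (q z - qn z) = (∫ z, a z (q z)) - ∫ z, a z (qn z) := by
        rw [← integral_sub i4 i2]; congr 1; ext z; rw [map_sub]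
      rw [e3, e4]
      have e5 : ∫ z, a z (qn z) = - ∫ z, dzb a z (wn z) := by
        rw [eq_neg_iff_add_eq_zero, add_comm]; exact e1
      rw [e5]; abel
    rw [e2]
    have n1 : ‖∫ z, dzb a z (w z - wn z)‖ ≤ ε * ∫ z, ‖dzb a z‖ := by
      rw [← integral_const_mul]
      refine norm_integral_le_of_norm_le ?_ (ae_of_all _ fun z => ?_)
      · exact (hdc.integrable_of_hasCompactSupport hdcs).norm.const_mul ε
      · by_cases hz : z ∈ tsupport a
        · calc ‖dzb a z (w z - wn z)‖ ≤ ‖dzb a z‖ * ‖w z - wn z‖ :=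
                ContinuousLinearMap.le_opNorm _ _
            _ ≤ ‖dzb a z‖ * ε := by
                have := c1 z hz
                rw [norm_sub_rev] at this
                gcongr
            _ = ε * ‖dzb a z‖ := mul_comm _ _
        · rw [image_eq_zero_of_notMem_tsupport (fun h => hz (hds h))]; simp
    have n2 : ‖∫ z, a z (q z - qn z)‖ ≤ ε * ∫ z, ‖a z‖ := by
      rw [← integral_const_mul]
      refine norm_integral_le_of_norm_le ?_ (ae_of_all _ fun z => ?_)
      · exact (ha.continuous.integrable_of_hasCompactSupport hac).norm.const_mul ε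
      · by_cases hz : z ∈ tsupport a
        · calc ‖a z (q z - qn z)‖ ≤ ‖a z‖ * ‖q z - qn z‖ :=
                ContinuousLinearMap.le_opNorm _ _
            _ ≤ ‖a z‖ * ε := by
                have := c2 z hz
                rw [norm_sub_rev] at this
                gcongr
            _ = ε * ‖a z‖ := mul_comm _ _
        · rw [image_eq_zero_of_notMem_tsupport hz]; simp
    calc _ ≤ ‖∫ z, dzb a z (w z - wn z)‖ + ‖∫ z, a z (q z - qn z)‖ := norm_add_le _ _
      _ ≤ ε * (∫ z, ‖dzb a z‖) + ε * ∫ z, ‖a z‖ := add_le_add n1 n2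
      _ = _ := by ring
  -- conclusion
  have hzero : ‖(∫ z, dzb a z (w z)) + ∫ z, a z (q z)‖ ≤ 0 := by
    have hC : 0 ≤ (∫ z, ‖dzb a z‖) + ∫ z, ‖a z‖ :=
      add_nonneg (integral_nonneg fun _ => norm_nonneg _) (integral_nonneg fun _ => norm_nonneg _)
    set C := (∫ z, ‖dzb a z‖) + ∫ z, ‖a z‖ with hCdef
    refine le_of_forall_pos_le_add fun ε hε => ?_
    have h1 := hbound (ε / (C + 1)) (by positivity)
    refine h1.trans ?_
    rw [zero_add, div_mul_eq_mul_div, div_le_iff₀ (by positivity)]
    nlinarith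
  rw [eq_neg_iff_add_eq_zero]
  exact norm_le_zero_iff.mp hzero

/-- product rule -/
theorem WDbar.clm_apply [CompleteSpace V] {U : Set ℂ} (hU : IsOpen U) {w q : ℂ → V}
    (hw : ContinuousOn w U) (hq : ContinuousOn q U) (h : WDbar U w q) {a : ℂ → V →L[ℂ] W}
    (ha : ContDiffOn ℝ 1 a U) :
    WDbar U (fun z => a z (w z)) (fun z => dzb a z (w z) + a z (q z)) := by
  intro ζ hζ hζc hζs
  have h1 : ContDiff ℝ 1 (fun z => ζ z • a z) :=
    contDiff_cutoff_smul hU hζ hζs (k := 1) (by exact_mod_cast ha)
  have h2 : HasCompactSupport (fun z => ζ z • a z) := hasCompactSupport_smul_left hζc a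
  have h3 : tsupport (fun z => ζ z • a z) ⊆ U := (tsupport_smul_subset a).trans hζs
  have h4 := h.test hU hw hq h1 h2 h3
  have hdζ : ContDiff ℝ 0 (dzb ζ) := contDiff_dzb (m := 0) hζ (by simp)
  have i1 : Integrable (fun z => dzb ζ z • a z (w z)) := by
    refine (continuous_cutoff_smul hU hdζ.continuous (tsupport_dzb_subset.trans hζs) ?_
      ).integrable_of_hasCompactSupport (hasCompactSupport_smul_left (hasCompactSupport_dzb hζc) _)
    exact ha.continuousOn.clm_apply hw
  have hda : ContinuousOn (dzb a) U := by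
    have h5 : ContinuousOn (fderiv ℝ a) U := ha.continuousOn_fderiv_of_isOpen hU le_rfl
    have h6 : ContinuousOn (fun z => fderiv ℝ a z 1) U := h5.clm_apply continuousOn_const
    have h7 : ContinuousOn (fun z => fderiv ℝ a z I) U := h5.clm_apply continuousOn_const
    have h8 : ContinuousOn (fun z => I • fderiv ℝ a z I) U := h7.const_smul I
    exact (h6.add h8).const_smul (1 / 2 : ℂ)
  have i2 : Integrable (fun z => ζ z • dzb a z (w z)) := by
    refine (continuous_cutoff_smul hU hζ.continuous hζs ?_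
      ).integrable_of_hasCompactSupport (hasCompactSupport_smul_left hζc _)
    exact hda.clm_apply hw
  have i3 : Integrable (fun z => ζ z • a z (q z)) := by
    refine (continuous_cutoff_smul hU hζ.continuous hζs ?_
      ).integrable_of_hasCompactSupport (hasCompactSupport_smul_left hζc _)
    exact ha.continuousOn.clm_apply hq
  have e1 : ∫ z, dzb (fun z => ζ z • a z) z (w z) =
      (∫ z, dzb ζ z • a z (w z)) + ∫ z, ζ z • dzb a z (w z) := by
    rw [← integral_add i1 i2]
    congr 1; ext z
    by_cases hz : z ∈ tsupport ζ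
    · have ha' : DifferentiableAt ℝ a z :=
        (ha.contDiffAt (hU.mem_nhds (hζs hz))).differentiableAt one_ne_zero
      rw [dzb_smul (hζ.differentiable (by simp) z) ha']
      simp
    · have h5 := notMem_tsupport_iff_eventuallyEq.mp hz
      have h6 : (fun z => ζ z • a z) =ᶠ[𝓝 z] fun _ => 0 := by
        filter_upwards [h5] with y hy
        rw [hy]; simp
      rw [dzb_congr h6, dzb_congr h5, image_eq_zero_of_notMem_tsupport hz]
      have : dzb (0 : ℂ → ℂ) z = 0 := dzb_const (0:ℂ) z
      rw [this]; simp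
  have e2 : ∫ z, ζ z • (dzb a z (w z) + a z (q z)) =
      (∫ z, ζ z • dzb a z (w z)) + ∫ z, ζ z • a z (q z) := by
    rw [← integral_add i2 i3]
    congr 1; ext z; rw [smul_add]
  have e3 : ∫ z, (ζ z • a z) (q z) = ∫ z, ζ z • a z (q z) := by
    congr 1
  rw [e1, e3] at h4
  rw [e2, neg_add, ← h4]
  abel

section ring

variable {𝔸 : Type*} [NormedRing 𝔸] [NormedAlgebra ℂ 𝔸]

theorem WDbar.mul_left [CompleteSpace 𝔸] {U : Set ℂ} (hU : IsOpen U) {w q : ℂ → 𝔸}
    (hw : ContinuousOn w U) (hq : ContinuousOn q U) (h : WDbar U w q) {a : ℂ → 𝔸}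
    (ha : ContDiffOn ℝ 1 a U) :
    WDbar U (fun z => a z * w z) (fun z => dzb a z * w z + a z * q z) := by
  have h1 : ContDiffOn ℝ 1 (fun z => ContinuousLinearMap.mul ℂ 𝔸 (a z)) U :=
    ((ContinuousLinearMap.mul ℂ 𝔸).restrictScalars ℝ).contDiff.comp_contDiffOn ha
  have h2 := h.clm_apply hU hw hq h1
  intro ζ hζ hζc hζs
  have h3 := h2 ζ hζ hζc hζs
  simp only [ContinuousLinearMap.mul_apply'] at h3
  rw [h3]
  congr 2; ext z
  by_cases hz : z ∈ U
  · have ha' : DifferentiableAt ℝ a z :=
        (ha.contDiffAt (hU.mem_nhds hz)).differentiableAt one_ne_zero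
    rw [dzb_clm_comp (ContinuousLinearMap.mul ℂ 𝔸) ha']
    simp
  · rw [image_eq_zero_of_notMem_tsupport (fun h => hz (hζs h))]; simp

theorem WDbar.mul_right [CompleteSpace 𝔸] {U : Set ℂ} (hU : IsOpen U) {w q : ℂ → 𝔸}
    (hw : ContinuousOn w U) (hq : ContinuousOn q U) (h : WDbar U w q) {a : ℂ → 𝔸}
    (ha : ContDiffOn ℝ 1 a U) :
    WDbar U (fun z => w z * a z) (fun z => w z * dzb a z + q z * a z) := by
  have h1 : ContDiffOn ℝ 1 (fun z => (ContinuousLinearMap.mul ℂ 𝔸).flip (a z)) U :=
    ((ContinuousLinearMap.mul ℂ 𝔸).flip.restrictScalars ℝ).contDiff.comp_contDiffOn ha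
  have h2 := h.clm_apply hU hw hq h1
  intro ζ hζ hζc hζs
  have h3 := h2 ζ hζ hζc hζs
  simp only [ContinuousLinearMap.flip_apply, ContinuousLinearMap.mul_apply'] at h3
  rw [h3]
  congr 2; ext z
  by_cases hz : z ∈ U
  · have ha' : DifferentiableAt ℝ a z :=
        (ha.contDiffAt (hU.mem_nhds hz)).differentiableAt one_ne_zero
    rw [dzb_clm_comp (ContinuousLinearMap.mul ℂ 𝔸).flip ha']
    simp
  · rw [image_eq_zero_of_notMem_tsupport (fun h => hz (hζs h))]; simp

end ring

/-! ### adjoints -/

section star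

variable {A : Type*} [NormedAddCommGroup A] [StarAddMonoid A] [NormedStarGroup A]
    [NormedSpace ℂ A] [StarModule ℂ A]

theorem integral_star (f : ℂ → A) : ∫ z, star (f z) = star (∫ z, f z) := by
  by_cases hA : CompleteSpace A
  · exact ((starL' ℝ : A ≃L[ℝ] A)).integral_comp_comm f
  · simp [integral, hA]

theorem WDbar.star {U : Set ℂ} {w q : ℂ → A} (h : WDbar U w q) :
    WDz U (fun z => star (w z)) (fun z => star (q z)) := by
  intro ζ hζ hζc hζs
  set ζ' : ℂ → ℂ := fun z => conj (ζ z) with hζ'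
  have h1 : ContDiff ℝ ∞ ζ' := Complex.conjCLE.contDiff.comp hζ
  have h2 : HasCompactSupport ζ' := hζc.comp_left (g := fun x : ℂ => conj x) (by simp)
  have h3 : tsupport ζ' ⊆ U := by
    refine (closure_mono ?_).trans hζs
    intro z hz h0
    apply hz
    simp [hζ', h0]
  have h4 := h ζ' h1 h2 h3
  have h5 : ∀ z, dz ζ z = Star.star (dzb ζ' z) := by
    intro z
    have h6 := dz_star (f := ζ') (z := z) (h1.differentiable (by simp) z)
    rw [← h6]
    congr 1; ext x; simp [hζ']
  have e1 : ∫ z, dz ζ z • Star.star (w z) = Star.star (∫ z, dzb ζ' z • w z) := by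
    rw [← integral_star]; congr 1; ext z; rw [h5, star_smul]
  have e2 : ∫ z, ζ z • Star.star (q z) = Star.star (∫ z, ζ' z • q z) := by
    rw [← integral_star]; congr 1; ext z; rw [star_smul]; simp [hζ']
  rw [e1, e2, h4, star_neg]

theorem WDz.star {U : Set ℂ} {w q : ℂ → A} (h : WDz U w q) :
    WDbar U (fun z => star (w z)) (fun z => star (q z)) := by
  intro ζ hζ hζc hζs
  set ζ' : ℂ → ℂ := fun z => conj (ζ z) with hζ'
  have h1 : ContDiff ℝ ∞ ζ' := Complex.conjCLE.contDiff.comp hζ
  have h2 : HasCompactSupport ζ' := hζc.comp_left (g := fun x : ℂ => conj x) (by simp)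
  have h3 : tsupport ζ' ⊆ U := by
    refine (closure_mono ?_).trans hζs
    intro z hz h0
    apply hz
    simp [hζ', h0]
  have h4 := h ζ' h1 h2 h3
  have h5 : ∀ z, dzb ζ z = Star.star (dz ζ' z) := by
    intro z
    have h6 := dzb_star (f := ζ') (z := z) (h1.differentiable (by simp) z)
    rw [← h6]
    congr 1; ext x; simp [hζ']
  have e1 : ∫ z, dzb ζ z • Star.star (w z) = Star.star (∫ z, dz ζ' z • w z) := by
    rw [← integral_star]; congr 1; ext z; rw [h5, star_smul]
  have e2 : ∫ z, ζ z • Star.star (q z) = Star.star (∫ z, ζ' z • q z) := by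
    rw [← integral_star]; congr 1; ext z; rw [star_smul]; simp [hζ']
  rw [e1, e2, h4, star_neg]

end star

/-! ### gluing -/

omit [NormedSpace ℂ V] in
/-- local continuous representatives glue -/
theorem exists_glue {U : Set ℂ} (hU : IsOpen U) {f : ℂ → V}
    (h : ∀ z0 ∈ U, ∃ r > 0, ∃ u : ℂ → V, ContinuousOn u (ball z0 r) ∧
      f =ᵐ[volume.restrict (ball z0 r)] u) :
    ∃ f' : ℂ → V, ContinuousOn f' U ∧ f =ᵐ[volume.restrict U] f' := by
  classical
  choose! r hr u hu hfu using h
  have hloc : ∀ z0 ∈ U, ∀ z ∈ U ∩ ball z0 (r z0), u z z = u z0 z := by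
    intro z0 hz0 z hz
    have h1 : u z =ᵐ[volume.restrict (ball z (r z) ∩ ball z0 (r z0))] u z0 := by
      have h2 := ae_restrict_of_ae_restrict_of_subset (inter_subset_left
        (s := ball z (r z)) (t := ball z0 (r z0))) (hfu z hz.1)
      have h3 := ae_restrict_of_ae_restrict_of_subset (inter_subset_right
        (s := ball z (r z)) (t := ball z0 (r z0))) (hfu z0 hz0)
      filter_upwards [h2, h3] with y hy1 hy2
      rw [← hy1, hy2]
    have h4 := Measure.eqOn_open_of_ae_eq h1 (isOpen_ball.inter isOpen_ball)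
      ((hu z hz.1).mono inter_subset_left) ((hu z0 hz0).mono inter_subset_right)
    exact h4 ⟨mem_ball_self (hr z hz.1), hz.2⟩
  refine ⟨fun z => u z z, ?_, ?_⟩
  · intro z0 hz0
    have h1 : ContinuousWithinAt (u z0) U z0 :=
      ((hu z0 hz0).continuousAt (isOpen_ball.mem_nhds (mem_ball_self (hr z0 hz0)))
        ).continuousWithinAt
    refine h1.congr_of_eventuallyEq ?_ rfl
    filter_upwards [inter_mem_nhdsWithin U (isOpen_ball.mem_nhds (mem_ball_self (hr z0 hz0)))]
      with z hz using hloc z0 hz0 z hz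
  · rw [Filter.EventuallyEq, ae_restrict_iff' hU.measurableSet, ae_iff]
    refine measure_null_of_locally_null _ fun z0 hz0 => ?_
    simp only [mem_ofPred_eq, Classical.not_imp] at hz0
    obtain ⟨hz0U, -⟩ := hz0
    refine ⟨{z | ¬(z ∈ U → f z = u z z)} ∩ ball z0 (r z0),
      inter_mem_nhdsWithin _ (isOpen_ball.mem_nhds (mem_ball_self (hr z0 hz0U))), ?_⟩
    have h1 := hfu z0 hz0U
    rw [Filter.EventuallyEq, ae_restrict_iff' measurableSet_ball, ae_iff] at h1
    refine measure_mono_null ?_ h1
    rintro z ⟨hz1, hz2⟩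
    simp only [mem_ofPred_eq, Classical.not_imp] at hz1 ⊢
    refine ⟨hz2, fun h => hz1.2 ?_⟩
    rw [h, hloc z0 hz0U z ⟨hz1.1, hz2⟩]

end Pool.Agent.Lib8bb
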