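import Pool.Agent.Lib_MP_8bb00a_gt.EDb
import Pool.Agent.Lib_MP_8bb00a_gt.WProd

/-!
Higher regularity for the nonlinear equation.
-/

open MeasureTheory Complex Set Metric Filter Topology
open scoped Real ContDiff ComplexConjugate Convolution

noncomputable section

namespace Pool.Agent.Lib8bb

variable {𝔸 : Type*} [NormedRing 𝔸] [NormedAlgebra ℂ 𝔸] [StarRing 𝔸] [StarModule ℂ 𝔸]
  [NormedStarGroup 𝔸] [CompleteSpace 𝔸]

namespace Boot

omit [StarRing 𝔸] [StarModule ℂ 𝔸] [NormedStarGroup 𝔸] [CompleteSpace 𝔸] in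
theorem WDbar_congr {U : Set ℂ} {f g f' g' : ℂ → 𝔸} (h : WDbar U f g)
    (h1 : ∀ z ∈ U, f z = f' z) (h2 : ∀ z ∈ U, g z = g' z) : WDbar U f' g' := by
  intro ζ hζ hc hs
  have e1 : (fun z => dzb ζ z • f' z) = fun z => dzb ζ z • f z := by
    funext z
    by_cases hz : z ∈ U
    · rw [h1 z hz]
    · have : dzb ζ z = 0 := image_eq_zero_of_notMem_tsupport
        (fun h => hz (hs (tsupport_dzb_subset h)))
      rw [this, zero_smul, zero_smul]
  have e2 : (fun z => ζ z • g' z) = fun z => ζ z • g z := by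
    funext z
    by_cases hz : z ∈ U
    · rw [h2 z hz]
    · have : ζ z = 0 := image_eq_zero_of_notMem_tsupport (fun h => hz (hs h))
      rw [this, zero_smul, zero_smul]
  rw [e1, e2]
  exact h ζ hζ hc hs

omit [StarRing 𝔸] [StarModule ℂ 𝔸] [NormedStarGroup 𝔸] in
/-- the pointwise inverse of a `C^n` function is `C^n` -/
theorem contDiffOn_inv {U : Set ℂ} {k ki : ℂ → 𝔸} {n : ℕ∞ω} (hk : ContDiffOn ℝ n k U)
    (h3 : ∀ z ∈ U, k z * ki z = 1) (h4 : ∀ z ∈ U, ki z * k z = 1) : ContDiffOn ℝ n ki U := by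
  let _ : NormedAlgebra ℝ 𝔸 := NormedAlgebra.restrictScalars ℝ ℂ 𝔸
  have e : ∀ z ∈ U, ki z = Ring.inverse (k z) := by
    intro z hz
    have hu : IsUnit (k z) := ⟨⟨k z, ki z, h3 z hz, h4 z hz⟩, rfl⟩
    exact (Ring.inverse_unit ⟨k z, ki z, h3 z hz, h4 z hz⟩).symm
  have h : ContDiffOn ℝ n (fun z => Ring.inverse (k z)) U := by
    intro z hz
    have hu : k z = ((⟨k z, ki z, h3 z hz, h4 z hz⟩ : 𝔸ˣ) : 𝔸) := rfl
    have h1 : ContDiffAt ℝ n (Ring.inverse (M₀ := 𝔸)) (k z) := by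
      rw [hu]
      exact contDiffAt_ringInverse ℝ _
    exact h1.comp_contDiffWithinAt z (hk z hz)
  exact h.congr e

omit [StarRing 𝔸] [StarModule ℂ 𝔸] [NormedStarGroup 𝔸] in
/-- elliptic regularity for continuous functions -/
theorem reg_cont {U : Set ℂ} (hU : IsOpen U) {w q : ℂ → 𝔸} (hw : ContinuousOn w U) {j : ℕ∞}
    (hq : ContDiffOn ℝ j q U) (h : WDbar U w q) :
    ContDiffOn ℝ j w U ∧ (1 ≤ j → ∀ z ∈ U, dzb w z = q z) := by
  have key : ∀ z0 ∈ U, ∃ r > 0, ContDiffOn ℝ j w (ball z0 r) ∧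
      (1 ≤ j → ∀ z ∈ ball z0 r, dzb w z = q z) := by
    intro z0 hz0
    obtain ⟨r', hr', hsub⟩ := Metric.isOpen_iff.mp hU z0 hz0
    have hr : 0 < r' / 3 := by positivity
    have hcl : closedBall z0 (2 * (r' / 3)) ⊆ U :=
      (closedBall_subset_ball (by linarith)).trans hsub
    obtain ⟨u, hu, hwu, hd⟩ := reg_Ck hU hr hcl
      ((hw.mono hcl).integrableOn_compact (isCompact_closedBall _ _)) hq h
    have hbU : ball z0 (r' / 3) ⊆ U := (ball_subset_ball (by linarith)).trans hsub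
    have heq : EqOn w u (ball z0 (r' / 3)) :=
      Measure.eqOn_open_of_ae_eq hwu isOpen_ball (hw.mono hbU) hu.continuousOn
    refine ⟨r' / 3, hr, hu.congr heq, fun hj z hz => ?_⟩
    rw [← hd hj z hz]
    apply dzb_congr
    filter_upwards [isOpen_ball.mem_nhds hz] with y hy using heq hy
  refine ⟨fun z hz => ?_, fun hj z hz => ?_⟩
  · obtain ⟨r, hr, h1, -⟩ := key z hz
    exact (h1.contDiffAt (isOpen_ball.mem_nhds (mem_ball_self hr))).contDiffWithinAt
  · obtain ⟨r, hr, -, h2⟩ := key z hz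
    exact h2 hj z (mem_ball_self hr)

omit [StarRing 𝔸] [StarModule ℂ 𝔸] [NormedStarGroup 𝔸] [CompleteSpace 𝔸] in
theorem contDiffOn_mkL {U : Set ℂ} {f g : ℂ → 𝔸} {n : ℕ∞ω} (hf : ContDiffOn ℝ n f U)
    (hg : ContDiffOn ℝ n g U) : ContDiffOn ℝ n (fun z => mkL (f z) (g z)) U := by
  have h1 : ContDiffOn ℝ n (fun z => (ContinuousLinearMap.lsmul ℝ ℂ :
      ℂ →L[ℝ] 𝔸 →L[ℝ] 𝔸).flip (f z)) U :=
    ((ContinuousLinearMap.lsmul ℝ ℂ : ℂ →L[ℝ] 𝔸 →L[ℝ] 𝔸).flip).contDiff.comp_contDiffOn hf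
  have h2 : ContDiffOn ℝ n (fun z => ((ContinuousLinearMap.lsmul ℝ ℂ :
      ℂ →L[ℝ] 𝔸 →L[ℝ] 𝔸).flip (g z)).comp (Complex.conjCLE : ℂ →L[ℝ] ℂ)) U :=
    (((ContinuousLinearMap.lsmul ℝ ℂ : ℂ →L[ℝ] 𝔸 →L[ℝ] 𝔸).flip).contDiff.comp_contDiffOn
      hg).clm_comp contDiffOn_const
  refine (h1.add h2).congr fun z _ => ?_
  ext v
  · simp [mkL_apply]

omit [StarRing 𝔸] [StarModule ℂ 𝔸] [NormedStarGroup 𝔸] [CompleteSpace 𝔸] in
/-- a differentiable function with Wirtinger derivatives of class `C^j` is `C^{j+1}` -/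
theorem contDiffOn_succ_of_wirt {U : Set ℂ} (hU : IsOpen U) {f : ℂ → 𝔸} {j : ℕ}
    (hf : ∀ z ∈ U, DifferentiableAt ℝ f z) (h1 : ContDiffOn ℝ j (dz f) U)
    (h2 : ContDiffOn ℝ j (dzb f) U) : ContDiffOn ℝ (j + 1 : ℕ) f U := by
  have h3 : ContDiffOn ℝ j (fderiv ℝ f) U :=
    (contDiffOn_mkL h1 h2).congr fun z hz => (hasFDerivAt_mkL (hf z hz)).fderiv
  have := (contDiffOn_succ_iff_fderiv_of_isOpen (𝕜 := ℝ) (n := (j : ℕ∞ω)) (f := f) hU).mpr
    ⟨fun z hz => (hf z hz).differentiableWithinAt, by simp, h3⟩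
  exact_mod_cast this

end Boot

open Boot

/-- higher regularity of the nonlinear equation -/
theorem bootstrap {U : Set ℂ} (hU : IsOpen U) {G Gi : ℂ → 𝔸}
    (hG : ContDiffOn ℝ ∞ G U) (hGi : ContDiffOn ℝ ∞ Gi U)
    (hGG : ∀ z ∈ U, G z * Gi z = 1) (hGG' : ∀ z ∈ U, Gi z * G z = 1)
    {k ki R : ℂ → 𝔸} (hk : ContDiffOn ℝ 1 k U) (hks : ∀ z ∈ U, star (k z) = k z)
    (h3 : ∀ z ∈ U, k z * ki z = 1) (h4 : ∀ z ∈ U, ki z * k z = 1)
    (hR : ∀ j : ℕ, ContDiffOn ℝ j k U → ContDiffOn ℝ j R U)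
    (h2 : WDz U (fun z => star (Gi z) * Db (fun x => Gi x * dzb G x) k z * star (G z))
      (fun z => star (Gi z) * (Db (fun x => Gi x * dzb G x) k z * ki z *
        star (Db (fun x => Gi x * dzb G x) k z) + star (R z) * k z) * star (G z))) :
    ContDiffOn ℝ ∞ k U ∧
      ∀ z ∈ U, Db (fun x => Gi x * dzb G x) (fun x => ki x * Dd (fun y => Gi y * dzb G y) k x) z
        = R z := by
  set B : ℂ → 𝔸 := fun x => Gi x * dzb G x with hBdef
  have hG1 : ContDiffOn ℝ 1 G U := hG.of_le (by exact_mod_cast le_top)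
  have hGi1 : ContDiffOn ℝ 1 Gi U := hGi.of_le (by exact_mod_cast le_top)
  have hB : ContDiffOn ℝ ∞ B U := hGi.mul (contDiffOn_dzb hU hG (by simp))
  have hBs : ContDiffOn ℝ ∞ (fun x => star (B x)) U := contDiffOn_star hB
  have hki1 : ContDiffOn ℝ 1 ki U := contDiffOn_inv hk h3 h4
  have hkis : ∀ z ∈ U, star (ki z) = ki z := by
    intro z hz
    have e1 : star (ki z) * k z = 1 := by
      have := congrArg star (h3 z hz)
      rwa [star_mul, star_one, hks z hz] at this
    calc star (ki z) = star (ki z) * (k z * ki z) := by rw [h3 z hz, mul_one]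
      _ = ki z := by rw [← mul_assoc, e1, one_mul]
  have hkd : ∀ z ∈ U, DifferentiableAt ℝ k z := fun z hz => ContDiffOn.diffAt hU hk le_rfl hz
  have hkid : ∀ z ∈ U, DifferentiableAt ℝ ki z := fun z hz => ContDiffOn.diffAt hU hki1 le_rfl hz
  -- `Dd k = star (Db k)`
  have hDd : ∀ z ∈ U, Dd B k z = star (Db B k z) := by
    intro z hz
    rw [← Dd_star (hkd z hz)]
    simp only [Dd]
    rw [hks z hz]
    congr 1
    apply dz_congr
    filter_upwards [hU.mem_nhds hz] with y hy using (hks y hy).symm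
  -- derivative of the inverse
  have hDki : ∀ z ∈ U, Db B ki z = -(ki z * Db B k z * ki z) := by
    intro z hz
    have e1 : Db B (fun x => k x * ki x) z = 0 := by
      have : dzb (fun x => k x * ki x) z = 0 := by
        rw [dzb_congr (g := fun _ => (1 : 𝔸)) (by
          filter_upwards [hU.mem_nhds hz] with y hy using h3 y hy)]
        exact dzb_const _ _
      simp only [Db]
      rw [this, h3 z hz]
      simp
    rw [Db_mul (hkd z hz) (hkid z hz)] at e1
    have e2 : ki z * (Db B k z * ki z + k z * Db B ki z) = 0 := by rw [e1, mul_zero]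
    rw [mul_add, ← mul_assoc, ← mul_assoc, h4 z hz, one_mul] at e2
    rw [eq_neg_iff_add_eq_zero, add_comm]
    exact e2
  -- regularity of Db, Dd
  have hDbreg : ∀ j : ℕ, ContDiffOn ℝ (j + 1 : ℕ) k U → ContDiffOn ℝ j (Db B k) U := by
    intro j hj
    have hB' : ContDiffOn ℝ j B U := hB.of_le (by exact_mod_cast le_top)
    have hj' : ContDiffOn ℝ j k U := hj.of_le (by exact_mod_cast Nat.le_succ j)
    exact (contDiffOn_dzb hU hj (by exact_mod_cast le_refl _)).add
      ((hB'.mul hj').sub (hj'.mul hB'))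
  have hDb0 : ContinuousOn (Db B k) U := by
    have := hDbreg 0 (by simpa using hk)
    simpa using this.continuousOn
  have hDd0 : ContinuousOn (Dd B k) U :=
    (continuous_star.comp_continuousOn hDb0).congr hDd
  have hR1 : ContDiffOn ℝ 1 R U := by
    have := hR 1 (by simpa using hk)
    simpa using this
  -- the weak equation for `G Dd k Gi`
  have w1 : WDbar U (fun z => G z * Dd B k z * Gi z)
      (fun z => G z * (Db B k z * ki z * Dd B k z + k z * R z) * Gi z) := by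
    refine WDbar_congr (WDz.star h2) (fun z hz => ?_) (fun z hz => ?_)
    · rw [hDd z hz]
      simp only [star_mul, star_star, mul_assoc]
    · rw [hDd z hz]
      simp only [star_mul, star_star, star_add, hks z hz, hkis z hz]
      simp only [mul_assoc]
  have hac : ContDiffOn ℝ 1 (fun z => G z * ki z * Gi z) U := (hG1.mul hki1).mul hGi1
  have w2 := WDbar.mul_left hU (a := fun z => G z * ki z * Gi z)
    (w := fun z => G z * Dd B k z * Gi z)
    (q := fun z => G z * (Db B k z * ki z * Dd B k z + k z * R z) * Gi z)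
    (((hG1.continuousOn.mul hDd0)).mul hGi1.continuousOn)
    ((hG1.continuousOn.mul (((hDb0.mul hki1.continuousOn).mul hDd0).add
      (hk.continuousOn.mul hR1.continuousOn))).mul hGi1.continuousOn) w1 hac
  have w3 : WDbar U (fun z => G z * (ki z * Dd B k z) * Gi z) (fun z => G z * R z * Gi z) := by
    refine WDbar_congr w2 (fun z hz => ?_) (fun z hz => ?_)
    · have : G z * ki z * Gi z * (G z * Dd B k z * Gi z) =
          G z * ki z * (Gi z * G z) * Dd B k z * Gi z := by noncomm_ring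
      rw [this, hGG' z hz]
      noncomm_ring
    · rw [Db_frame hU hG1 hGi1 hGG hGG' hz (hkid z hz), ← hBdef, hDki z hz]
      have : G z * -(ki z * Db B k z * ki z) * Gi z * (G z * Dd B k z * Gi z) +
          G z * ki z * Gi z * (G z * (Db B k z * ki z * Dd B k z + k z * R z) * Gi z) =
          -(G z * ki z * Db B k z * ki z * (Gi z * G z) * Dd B k z * Gi z) +
          G z * ki z * (Gi z * G z) * Db B k z * ki z * Dd B k z * Gi z +
          G z * ki z * (Gi z * G z) * k z * R z * Gi z := by noncomm_ring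
      rw [this, hGG' z hz]
      have e3 : G z * ki z * 1 * k z * R z * Gi z = G z * (ki z * k z) * R z * Gi z := by
        noncomm_ring
      rw [e3, h4 z hz]
      noncomm_ring
  have hAc : ContinuousOn (fun z => G z * (ki z * Dd B k z) * Gi z) U :=
    (hG1.continuousOn.mul (hki1.continuousOn.mul hDd0)).mul hGi1.continuousOn
  -- induction step
  have step : ∀ j : ℕ, ContDiffOn ℝ (j + 1 : ℕ) k U → ContDiffOn ℝ (j + 2 : ℕ) k U := by
    intro j hj
    have hGj : ContDiffOn ℝ (j + 1 : ℕ) G U := hG.of_le (by exact_mod_cast le_top)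
    have hGij : ContDiffOn ℝ (j + 1 : ℕ) Gi U := hGi.of_le (by exact_mod_cast le_top)
    have hBj : ContDiffOn ℝ (j + 1 : ℕ) B U := hB.of_le (by exact_mod_cast le_top)
    have hBsj : ContDiffOn ℝ (j + 1 : ℕ) (fun x => star (B x)) U :=
      hBs.of_le (by exact_mod_cast le_top)
    have hRj := hR _ hj
    have r1 := (reg_cont hU hAc (j := ((j + 1 : ℕ) : ℕ∞)) ((hGj.mul hRj).mul hGij) w3).1
    have r2 : ContDiffOn ℝ (j + 1 : ℕ) (Dd B k) U := by
      refine ((hj.mul (hGij.mul (r1.mul hGj)))).congr fun z hz => ?_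
      have : k z * (Gi z * (G z * (ki z * Dd B k z) * Gi z * G z)) =
          k z * (Gi z * G z) * ki z * Dd B k z * (Gi z * G z) := by noncomm_ring
      rw [this, hGG' z hz, mul_one, mul_one, h3 z hz, one_mul]
    have r3 : ContDiffOn ℝ (j + 1 : ℕ) (Db B k) U := by
      refine (contDiffOn_star r2).congr fun z hz => ?_
      rw [hDd z hz, star_star]
    refine contDiffOn_succ_of_wirt hU hkd ?_ ?_
    · refine (r2.add ((hBsj.mul hj).sub (hj.mul hBsj))).congr fun z hz => ?_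
      simp only [Dd]
      abel
    · refine (r3.sub ((hBj.mul hj).sub (hj.mul hBj))).congr fun z hz => ?_
      simp only [Db]
      abel
  have all : ∀ j : ℕ, ContDiffOn ℝ (j + 1 : ℕ) k U := by
    intro j
    induction j with
    | zero => simpa using hk
    | succ j ih => exact step j ih
  refine ⟨?_, ?_⟩
  · rw [contDiffOn_infty]
    intro n
    exact (all n).of_le (by exact_mod_cast Nat.le_succ n)
  · intro z hz
    have r1 := reg_cont hU hAc (j := 1) (((hG1.mul hR1).mul hGi1)) w3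
    have r2 := r1.2 le_rfl z hz
    have hA : ContDiffOn ℝ 1 (fun z => ki z * Dd B k z) U := by
      refine ((hGi1.mul (r1.1.mul hG1))).congr fun z hz => ?_
      have : Gi z * (G z * (ki z * Dd B k z) * Gi z * G z) =
          (Gi z * G z) * ki z * Dd B k z * (Gi z * G z) := by noncomm_ring
      rw [this, hGG' z hz, mul_one, one_mul]
    rw [Db_frame hU hG1 hGi1 hGG hGG' hz (ContDiffOn.diffAt hU hA le_rfl hz)] at r2
    have e1 : Gi z * (G z * Db (fun x => Gi x * dzb G x) (fun z => ki z * Dd B k z) z * Gi z) * G z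
        = Gi z * (G z * R z * Gi z) * G z := by rw [r2]
    have e2 : ∀ x : 𝔸, Gi z * (G z * x * Gi z) * G z = x := by
      intro x
      have : Gi z * (G z * x * Gi z) * G z = (Gi z * G z) * x * (Gi z * G z) := by noncomm_ring
      rw [this, hGG' z hz, mul_one, one_mul]
    rw [e2, e2] at e1
    exact e1

end Pool.Agent.Lib8bb
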