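import Mathlib
import Pool.Agent.Lib_MP_8bb00a_gt.Bundle
import Pool.Agent.Lib_MP_8bb00a_gt.Ineq3

/-!
# The universal bound for the energy density at the point at infinity
-/

open Complex Set
open scoped ComplexConjugate Topology ContDiff Matrix ComplexOrder

namespace MP_8bb00a_gt

open Pool.Agent.Lib8bb

section calc2

variable {z : ℂ}

/-- the Laplacian of `|X|²` and of `log (1 + |X|²)` for holomorphic `X` -/
theorem normSq_facts {X : ℂ → ℂ} {U : Set ℂ} (hU : IsOpen U) (hX : DifferentiableOn ℂ X U)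
    (hz : z ∈ U) (c : ℝ) :
    ContDiffAt ℝ 2 (fun w => c + normSq (X w)) z ∧
    lap (fun w => c + normSq (X w)) z = 4 * normSq (deriv X z) ∧
    grad2 (fun w => c + normSq (X w)) z = 4 * (normSq (deriv X z) * normSq (X z)) := by
  have hXd : ∀ w ∈ U, DifferentiableAt ℂ X w := fun w hw =>
    hX.differentiableAt (hU.mem_nhds hw)
  have hXr : ∀ w ∈ U, DifferentiableAt ℝ X w := fun w hw => (hXd w hw).restrictScalars ℝ
  have hXc : ContDiffAt ℝ 2 X z :=
    ((hX.contDiffOn hU).contDiffAt (hU.mem_nhds hz)).restrict_scalars ℝ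
  have hX'c : DifferentiableAt ℂ (deriv X) z :=
    ((hX.deriv hU).differentiableAt (hU.mem_nhds hz))
  set f : ℂ → ℂ := fun w => (c : ℂ) + X w * conj (X w) with hf
  have hconjc : ContDiffAt ℝ 2 (fun w => conj (X w)) z :=
    Complex.conjCLE.toContinuousLinearMap.contDiff.contDiffAt.comp z hXc
  have hfc : ContDiffAt ℝ 2 f z := contDiffAt_const.add (hXc.mul hconjc)
  have hre : (fun w => c + normSq (X w)) = fun w => (f w).re := by
    funext w
    simp only [hf, Complex.mul_conj]
    rw [← Complex.ofReal_add, Complex.ofReal_re]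
  have him : ∀ w, (f w).im = 0 := by
    intro w
    simp only [hf, Complex.mul_conj]
    rw [← Complex.ofReal_add, Complex.ofReal_im]
  have hdelf : ∀ w ∈ U, del f w = deriv X w * conj (X w) := by
    intro w hw
    have h1 : DifferentiableAt ℝ (fun w => conj (X w)) w :=
      (Complex.conjCLE.toContinuousLinearMap.differentiableAt).comp w (hXr w hw)
    have h2 : DifferentiableAt ℝ (fun w => X w * conj (X w)) w := (hXr w hw).mul h1
    rw [hf, del_add (differentiableAt_const _) h2, del_const, zero_add,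
      del_mul (hXr w hw) h1, del_of_holo (hXd w hw), del_conj (hXr w hw),
      delbar_of_holo (hXd w hw), map_zero, mul_zero, add_zero]
  have hsecond : delbar (del f) z = (normSq (deriv X z) : ℂ) := by
    have hev : del f =ᶠ[𝓝 z] fun w => deriv X w * conj (X w) := by
      filter_upwards [hU.mem_nhds hz] with w hw
      exact hdelf w hw
    have h1 : DifferentiableAt ℝ (fun w => conj (X w)) z :=
      (Complex.conjCLE.toContinuousLinearMap.differentiableAt).comp z (hXr z hz)
    rw [delbar_congr hev, delbar_mul (hX'c.restrictScalars ℝ) h1, delbar_of_holo hX'c, zero_mul,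
      zero_add, delbar_conj (hXr z hz), del_of_holo (hXd z hz), Complex.mul_conj]
  refine ⟨?_, ?_, ?_⟩
  · rw [hre]
    exact Complex.reCLM.contDiff.contDiffAt.comp z hfc
  · rw [hre, lap_re hfc, hsecond, Complex.ofReal_re]
  · rw [hre, grad2_re (hfc.differentiableAt (by norm_num)) (Filter.Eventually.of_forall him),
      hdelf z hz, Complex.normSq_mul, Complex.normSq_conj]

theorem lap_log_one_add {X : ℂ → ℂ} {U : Set ℂ} (hU : IsOpen U) (hX : DifferentiableOn ℂ X U)
    (hz : z ∈ U) :
    lap (fun w => Real.log (1 + normSq (X w))) z =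
      4 * normSq (deriv X z) / (1 + normSq (X z)) ^ 2 := by
  obtain ⟨h1, h2, h3⟩ := normSq_facts hU hX hz 1
  have hpos : 0 < 1 + normSq (X z) := by
    have := normSq_nonneg (X z); linarith
  rw [lap_log h1 hpos, h2, h3]
  field_simp
  ring

end calc2

theorem two_le_inf : (2 : ℕ∞ω) ≤ ∞ := by
  have : ((2 : ℕ∞) : ℕ∞ω) ≤ ((⊤ : ℕ∞) : ℕ∞ω) := WithTop.coe_le_coe.2 le_top
  exact this

section main

variable {s : ℝ} {h : CA.I → Crv → Matrix (Fin 3) (Fin 3) ℂ}

theorem h_contDiffAt {E : HiggsBundle CA 3} (hh : E.IsHarmonic h) {i : CA.I} {z : ℂ}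
    (hz : z ∈ CA.img i) (a b : Fin 3) :
    ContDiffAt ℝ 2 (fun w => h i (CA.pt i w) a b) z :=
  ((hh.smooth i a b).contDiffAt ((CA.isOpen_img i).mem_nhds hz)).of_le two_le_inf

theorem h_pos_ev {E : HiggsBundle CA 3} (hh : E.IsHarmonic h) {i : CA.I} {z : ℂ}
    (hz : z ∈ CA.img i) : ∀ᶠ w in 𝓝 z, (h i (CA.pt i w)).PosDef := by
  filter_upwards [(CA.isOpen_img i).mem_nhds hz] with w hw
  exact hh.posDef i _ (CA.pt_mem hw)

theorem afun_contDiffAt {E : HiggsBundle CA 3} (hh : E.IsHarmonic h) {i : CA.I} {z : ℂ}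
    (hz : z ∈ CA.img i) : ContDiffAt ℝ 2 (fun w => afun (h i (CA.pt i w))) z := by
  have hu := isUnit_det_of_posDef (hh.posDef i _ (CA.pt_mem hz))
  have h1 : ContDiffAt ℝ 2 (fun w => (h i (CA.pt i w) 2 2).re) z :=
    Complex.reCLM.contDiff.contDiffAt.comp z (h_contDiffAt hh hz 2 2)
  have h2 : ContDiffAt ℝ 2 (fun w => ((h i (CA.pt i w))⁻¹ 0 0).re) z :=
    Complex.reCLM.contDiff.contDiffAt.comp z
      (contDiffAt_inv (fun a b => h_contDiffAt hh hz a b) hu.ne_zero 0 0)
  exact h1.mul h2

/-- on overlaps of two affine charts the metrics agree -/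
theorem h_affine {E : HiggsBundle CA 3} (hg : E.g = gC) (hh : E.IsHarmonic h) {P Q : AffC}
    {x : Crv} (hP : x ∈ CA.dom (some P)) (hQ : x ∈ CA.dom (some Q)) :
    h (some Q) x = h (some P) x := by
  have h1 := hh.compat (some P) (some Q) x hP hQ
  rw [hg] at h1
  have h2 : gC (some P) (some Q) x = 1 := rfl
  rw [h2, Matrix.conjTranspose_one, Matrix.one_mul, Matrix.mul_one] at h1
  exact h1

theorem afun_dg {H : Matrix (Fin 3) (Fin 3) ℂ} {a : ℂ} (ha : a ≠ 0) :
    afun ((dg a)ᴴ * H * dg a) = normSq a ^ 2 * afun H := by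
  have h1 : (((dg a)ᴴ * H * dg a) 2 2) = (normSq a : ℂ) * H 2 2 := by
    unfold dg
    rw [Matrix.diagonal_conjTranspose, Matrix.mul_assoc, Matrix.diagonal_mul, Matrix.mul_diagonal]
    simp only [Matrix.cons_val]
    rw [Complex.normSq_eq_conj_mul_self]
    show star a * (H 2 2 * a) = _
    simp only [RCLike.star_def]
    ring
  have h2 : (((dg a)ᴴ * H * dg a)⁻¹ 0 0) = (normSq a : ℂ) * H⁻¹ 0 0 := by
    have e1 : ((dg a)ᴴ * H * dg a)⁻¹ = (dg a)⁻¹ * H⁻¹ * ((dg a)ᴴ)⁻¹ := by
      rw [Matrix.mul_inv_rev, Matrix.mul_inv_rev, ← Matrix.mul_assoc]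
    have e2 : (dg a)⁻¹ = dg a⁻¹ := Matrix.inv_eq_right_inv (dg_mul_inv ha)
    have e3 : ((dg a)ᴴ)⁻¹ = (dg a⁻¹)ᴴ := by
      rw [← Matrix.conjTranspose_nonsing_inv, e2]
    rw [e1, e2, e3]
    unfold dg
    rw [Matrix.diagonal_conjTranspose, Matrix.mul_assoc, Matrix.diagonal_mul, Matrix.mul_diagonal]
    simp only [Matrix.cons_val]
    rw [Complex.normSq_eq_conj_mul_self]
    show a⁻¹⁻¹ * (H⁻¹ 0 0 * star a⁻¹⁻¹) = _
    simp only [RCLike.star_def, inv_inv]
    ring
  unfold afun
  rw [h1, h2, Complex.re_ofReal_mul, Complex.re_ofReal_mul]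
  ring

theorem afun_inf {E : HiggsBundle CA 3} (hg : E.g = gC) (hh : E.IsHarmonic h) {P : AffC}
    {x : Crv} (hP : x ∈ CA.dom (some P)) (hx : x ∈ CA.dom none) :
    afun (h none x) = normSq (zc x) ^ 2 * afun (h (some P) x) := by
  have h1 := hh.compat (some P) none x hP hx
  rw [hg] at h1
  have h2 : gC (some P) none x = dg (zc x) := rfl
  rw [h1, h2, afun_dg (zc_ne hx (ne_pinf_of_mem hP))]

/-- the global function `s⁴ a / (1 + |x|²)²`, extended by zero at infinity -/
noncomputable def Gf (s : ℝ) (h : CA.I → Crv → Matrix (Fin 3) (Fin 3) ℂ) (x : Crv) : ℝ :=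
  x.elim 0 (fun p => s ^ 4 * afun (h (some p) (p : Crv)) / (1 + normSq (xC (p : Crv))) ^ 2)

theorem coe_mem_dom (p : AffC) : (p : Crv) ∈ CA.dom (some p) :=
  coe_mem_eAff_source.2 (mem_affCh_source p)

theorem exists_coe {x : Crv} (hx : x ≠ pinf) : ∃ p : AffC, (p : Crv) = x :=
  OnePoint.ne_infty_iff_exists.1 hx

theorem Gf_aff {E : HiggsBundle CA 3} (hg : E.g = gC) (hh : E.IsHarmonic h) {Q : AffC}
    {x : Crv} (hQ : x ∈ CA.dom (some Q)) :
    Gf s h x = s ^ 4 * afun (h (some Q) x) / (1 + normSq (xC x)) ^ 2 := by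
  obtain ⟨p, rfl⟩ := exists_coe (ne_pinf_of_mem hQ)
  show s ^ 4 * afun (h (some p) (p : Crv)) / (1 + normSq (xC (p : Crv))) ^ 2 = _
  rw [h_affine hg hh hQ (coe_mem_dom p)]

theorem Gf_inf {E : HiggsBundle CA 3} (hg : E.g = gC) (hh : E.IsHarmonic h)
    {x : Crv} (hx : x ∈ CA.dom none) :
    Gf s h x = s ^ 4 * afun (h none x) * normSq (zc x) ^ 2 / (1 + normSq (zc x) ^ 2) ^ 2 := by
  by_cases hxp : x = pinf
  · subst hxp
    show (0 : ℝ) = _
    rw [zc_pinf]
    simp
  · obtain ⟨p, rfl⟩ := exists_coe hxp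
    rw [Gf_aff hg hh (coe_mem_dom p), afun_inf hg hh (coe_mem_dom p) hx, xC_zc hx hxp]
    have h0 := zc_ne hx hxp
    have h1 : normSq (zc (p : Crv)) ≠ 0 := by
      rwa [Ne, Complex.normSq_eq_zero]
    rw [Complex.normSq_inv, map_pow]
    have h2 : (1 + normSq (zc (p : Crv)) ^ 2) ≠ 0 := by positivity
    field_simp
    ring

theorem Gf_continuous {E : HiggsBundle CA 3} (hg : E.g = gC) (hh : E.IsHarmonic h) :
    Continuous (Gf s h) := by
  rw [continuous_iff_continuousAt]
  -- it is enough to have continuity in a chart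
  have key : ∀ (i : CA.I) (x : Crv), x ∈ CA.dom i →
      ContinuousAt (fun z => Gf s h (CA.pt i z)) (CA.chart i x) → ContinuousAt (Gf s h) x := by
    intro i x hx hc
    have h1 := ContinuousAt.comp (f := CA.chart i) hc (CA.chart_contAt hx)
    refine h1.congr ?_
    filter_upwards [(CA.isOpen_dom i).mem_nhds hx] with y hy
    simp only [Function.comp_apply]
    rw [CA.pt_chart hy]
  intro x
  by_cases hxp : x = pinf
  · subst hxp
    refine key none pinf pinf_mem_dom ?_
    have hm := CA.chart_mem (i := none) pinf_mem_dom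
    have h1 := (afun_contDiffAt hh hm).continuousAt
    have h2 : ContinuousAt (fun z => s ^ 4 * afun (h none (CA.pt none z)) * normSq z ^ 2 /
        (1 + normSq z ^ 2) ^ 2) (CA.chart none pinf) := by
      have h3 : ContinuousAt (fun z : ℂ => normSq z) (CA.chart none pinf) :=
        Complex.continuous_normSq.continuousAt
      refine ContinuousAt.div ?_ ?_ (by positivity)
      · exact (continuousAt_const.mul h1).mul (h3.pow 2)
      · exact (continuousAt_const.add (h3.pow 2)).pow 2
    refine h2.congr ?_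
    filter_upwards [(CA.isOpen_img none).mem_nhds hm] with z hz
    rw [Gf_inf hg hh (CA.pt_mem hz), zc_pt hz]
  · obtain ⟨p, rfl⟩ := exists_coe hxp
    refine key (some p) p (coe_mem_dom p) ?_
    have hm := CA.chart_mem (coe_mem_dom p)
    have h1 := (afun_contDiffAt hh hm).continuousAt
    have hX : ContinuousAt (fun z => xC (CA.pt (some p) z)) (CA.chart (some p) (p : Crv)) :=
      ((x_eAff p).differentiableAt ((CA.isOpen_img (some p)).mem_nhds hm)).continuousAt
    have h2 : ContinuousAt (fun z => s ^ 4 * afun (h (some p) (CA.pt (some p) z)) /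
        (1 + normSq (xC (CA.pt (some p) z))) ^ 2) (CA.chart (some p) (p : Crv)) := by
      have h3 : ContinuousAt (fun z : ℂ => normSq (xC (CA.pt (some p) z)))
          (CA.chart (some p) (p : Crv)) := Complex.continuous_normSq.continuousAt.comp hX
      have hpos : (1 + normSq (xC (CA.pt (some p) (CA.chart (some p) (p : Crv))))) ^ 2 ≠ 0 := by
        have := normSq_nonneg (xC (CA.pt (some p) (CA.chart (some p) (p : Crv))))
        positivity
      exact ContinuousAt.div (continuousAt_const.mul h1) ((continuousAt_const.add h3).pow 2) hpos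
    refine h2.congr ?_
    filter_upwards [(CA.isOpen_img (some p)).mem_nhds hm] with z hz
    rw [Gf_aff hg hh (CA.pt_mem hz)]

/-- the elementary inequality `|y|² ≤ (1 + |x|²)³` on the curve -/
theorem y_bound (p : AffC) : normSq (yC (p : Crv)) ≤ (1 + normSq (xC (p : Crv))) ^ 3 := by
  have h1 : yC (p : Crv) ^ 2 = xC (p : Crv) ^ 5 + 1 := p.2
  set x := xC (p : Crv)
  set y := yC (p : Crv)
  have h2 : normSq y = ‖x ^ 5 + 1‖ := by
    rw [← h1, norm_pow, Complex.normSq_eq_norm_sq]
  rw [h2, Complex.normSq_eq_norm_sq]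
  have h3 : ‖x ^ 5 + 1‖ ≤ ‖x‖ ^ 5 + 1 := by
    refine (norm_add_le _ _).trans ?_
    rw [norm_pow, norm_one]
  refine h3.trans ?_
  have h4 : 0 ≤ ‖x‖ := norm_nonneg x
  nlinarith [sq_nonneg (‖x‖ ^ 2 * (‖x‖ - 1)), sq_nonneg (‖x‖ ^ 2), pow_nonneg h4 2, pow_nonneg h4 4,
    pow_nonneg h4 6, sq_nonneg (‖x‖ ^ 3 - ‖x‖ ^ 2)]

/-- first step: `s⁴ a ≤ (1 + |x|²)²` on the affine part -/
theorem Gf_le_one (hs : 0 < s) (hh : (EC.scale s).IsHarmonic h) (x : Crv) : Gf s h x ≤ 1 := by
  have hg : (EC.scale s).g = gC := rfl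
  obtain ⟨x0, -, hmax⟩ := isCompact_univ.exists_isMaxOn (Set.univ_nonempty)
    (Gf_continuous (s := s) hg hh).continuousOn
  have hmax' : ∀ y, Gf s h y ≤ Gf s h x0 := fun y => hmax (Set.mem_univ y)
  refine (hmax' x).trans ?_
  by_cases hxp : x0 = pinf
  · subst hxp
    show (0 : ℝ) ≤ 1
    exact zero_le_one
  obtain ⟨p, rfl⟩ := exists_coe hxp
  have hdom := coe_mem_dom p
  have hm := CA.chart_mem hdom
  set z0 := CA.chart (some p) (p : Crv) with hz0
  have hpt : CA.pt (some p) z0 = (p : Crv) := CA.pt_chart hdom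
  set U := CA.img (some p) with hU
  have hUo : IsOpen U := CA.isOpen_img (some p)
  set X : ℂ → ℂ := fun z => xC (CA.pt (some p) z) with hX
  have hXd : DifferentiableOn ℂ X U := x_eAff p
  set a : ℂ → ℝ := fun z => afun (h (some p) (CA.pt (some p) z)) with ha
  have hapos : ∀ z ∈ U, 0 < a z := fun z hz => afun_pos (hh.posDef _ _ (CA.pt_mem hz))
  have hq : ∀ z, 0 < 1 + normSq (X z) := fun z => by
    have := normSq_nonneg (X z); linarith
  -- the logarithm of G
  set u : ℂ → ℝ := fun z => Real.log (a z) + (-2) * Real.log (1 + normSq (X z)) with hu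
  have hGu : ∀ z ∈ U, Real.log (Gf s h (CA.pt (some p) z)) = Real.log (s ^ 4) + u z := by
    intro z hz
    rw [Gf_aff hg hh (CA.pt_mem hz), Real.log_div (by have := hapos z hz; positivity)
      (by have := hq z; positivity), Real.log_mul (by positivity) (hapos z hz).ne']
    have h1 : Real.log ((1 + normSq (xC (CA.pt (some p) z))) ^ 2) =
        2 * Real.log (1 + normSq (xC (CA.pt (some p) z))) := by
      rw [Real.log_pow]; norm_num
    simp only [hu, ha, hX]
    rw [h1]
    ring
  have hlocmax : IsLocalMax u z0 := by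
    filter_upwards [hUo.mem_nhds hm] with z hz
    have h1 : Gf s h (CA.pt (some p) z) ≤ Gf s h (CA.pt (some p) z0) := by
      rw [hpt]; exact hmax' _
    have h2 : 0 < Gf s h (CA.pt (some p) z) := by
      rw [Gf_aff hg hh (CA.pt_mem hz)]
      have := hapos z hz
      have := hq z
      positivity
    have h3 := Real.log_le_log h2 h1
    rw [hGu z hz, hGu z0 hm] at h3
    linarith
  have hloga : ContDiffAt ℝ 2 (fun z => Real.log (a z)) z0 :=
    (afun_contDiffAt hh hm).log (hapos z0 hm).ne'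
  obtain ⟨hn1, -, -⟩ := normSq_facts hUo hXd hm 1
  have hlogq : ContDiffAt ℝ 2 (fun z => Real.log (1 + normSq (X z))) z0 :=
    hn1.log (hq z0).ne'
  have hlogq2 : ContDiffAt ℝ 2 (fun z => (-2) * Real.log (1 + normSq (X z))) z0 :=
    contDiffAt_const.mul hlogq
  have hlap := lap_nonpos_of_isLocalMax (hloga.add hlogq2) hlocmax
  rw [lap_add hloga hlogq2, lap_const_mul _ hlogq, lap_log_one_add hUo hXd hm] at hlap
  -- the inequality for a
  have hPhi : (fun w => (EC.scale s).phi (some p) (CA.pt (some p) w)) z0 =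
      !![0, 0, 0; (s : ℂ) * om (some p) p, 0, 0; (s : ℂ) * om (some p) p,
        (s : ℂ) * om (some p) p, 0] := by
    show (s : ℂ) • (om (some p) (CA.pt (some p) z0) • NN) = _
    rw [hpt]
    unfold NN
    ext i j
    fin_cases i <;> fin_cases j <;> simp
  have hin := lap_log_afun (H := fun w => h (some p) (CA.pt (some p) w))
    (fun a b => h_contDiffAt hh hm a b) (h_pos_ev hh hm)
    (hh.det_one _ _ (CA.pt_mem hm)) (hh.hitchin (some p) z0 hm) hPhi
  have hderiv : deriv X z0 = yC (p : Crv) * om (some p) p := by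
    have := omAff_spec p z0 hm
    have h2 : (eAff p).symm z0 = (p : Crv) := hpt
    rw [h2] at this
    exact this
  rw [hderiv] at hlap
  set w := om (some p) (p : Crv) with hw
  have hw0 : 0 < normSq w := Complex.normSq_pos.2 (om_ne p hdom)
  set y := yC (p : Crv) with hy
  have hXz : X z0 = xC (p : Crv) := by simp only [hX, hpt]
  rw [Complex.normSq_mul, Complex.normSq_ofReal] at hin
  rw [Complex.normSq_mul, hXz] at hlap
  set q := 1 + normSq (xC (p : Crv)) with hqdef
  have hqpos : 0 < q := by rw [← hXz] at hqdef; rw [hqdef]; exact hq z0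
  set A := afun (h (some p) (CA.pt (some p) z0)) with hA
  have hApos : 0 < A := hapos z0 hm
  -- conclusion of the maximum principle
  have h5 : 8 * (s * s * normSq w) * √A ≤ 2 * (4 * (normSq y * normSq w) / q ^ 2) := by
    have h6 : 8 * (s * s * normSq w) * √A ≤ lap (fun z => Real.log (a z)) z0 := hin
    linarith
  have h7 : s ^ 2 * √A ≤ normSq y / q ^ 2 := by
    have h8 : 2 * (4 * (normSq y * normSq w) / q ^ 2) = 8 * normSq w * (normSq y / q ^ 2) := by
      ring
    rw [h8] at h5
    have h9 : 8 * normSq w * (s ^ 2 * √A) ≤ 8 * normSq w * (normSq y / q ^ 2) := by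
      calc 8 * normSq w * (s ^ 2 * √A) = 8 * (s * s * normSq w) * √A := by ring
        _ ≤ _ := h5
    exact le_of_mul_le_mul_left h9 (by positivity)
  have h10 : s ^ 2 * √A ≤ q := by
    refine h7.trans ?_
    rw [div_le_iff₀ (by positivity)]
    have := y_bound p
    calc normSq y ≤ q ^ 3 := this
      _ = q * q ^ 2 := by ring
  have h11 : s ^ 4 * A ≤ q ^ 2 := by
    have h12 : s ^ 4 * A = (s ^ 2 * √A) ^ 2 := by
      rw [mul_pow, Real.sq_sqrt hApos.le]; ring
    rw [h12]
    exact pow_le_pow_left₀ (by positivity) h10 2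
  rw [Gf_aff hg hh hdom, div_le_one (by positivity)]
  rw [hA, hpt] at h11
  exact h11

/-- second step: the bound at infinity -/
theorem afun_pinf_le (hs : 0 < s) (hh : (EC.scale s).IsHarmonic h) :
    afun (h none pinf) ≤ 289 / (16 * s ^ 4) := by
  have hg : (EC.scale s).g = gC := rfl
  set a : ℂ → ℝ := fun z => afun (h none (CA.pt none z)) with ha
  have himg : CA.img none = Metric.ball 0 1 := CA_img_none
  have hball : Metric.closedBall (0 : ℂ) (1 / 2) ⊆ CA.img none := by
    rw [himg]; exact Metric.closedBall_subset_ball (by norm_num)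
  have hapos : ∀ z ∈ CA.img none, 0 < a z := fun z hz => afun_pos (hh.posDef _ _ (CA.pt_mem hz))
  set v : ℂ → ℝ := fun z => Real.log (a z) with hv
  have hvc : ∀ z ∈ CA.img none, ContDiffAt ℝ 2 v z := fun z hz =>
    (afun_contDiffAt hh hz).log (hapos z hz).ne'
  have hvlap : ∀ z ∈ CA.img none, 0 ≤ lap v z := by
    intro z hz
    have hPhi : (fun w => (EC.scale s).phi none (CA.pt none w)) z =
        !![0, 0, 0; (s : ℂ) * (mfun (zc (CA.pt none z)) * zc (CA.pt none z)), 0, 0;
          (s : ℂ) * mfun (zc (CA.pt none z)),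
          (s : ℂ) * (mfun (zc (CA.pt none z)) * zc (CA.pt none z)), 0] := by
      show (s : ℂ) • phiC none (CA.pt none z) = _
      unfold phiC
      ext i j
      fin_cases i <;> fin_cases j <;> simp
    have hin := lap_log_afun (H := fun w => h none (CA.pt none w))
      (fun a b => h_contDiffAt hh hz a b) (h_pos_ev hh hz)
      (hh.det_one _ _ (CA.pt_mem hz)) (hh.hitchin none z hz) hPhi
    refine le_trans ?_ hin
    have := normSq_nonneg ((s : ℂ) * (mfun (zc (CA.pt none z)) * zc (CA.pt none z)))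
    positivity
  -- values on the circle
  have hcircle : ∀ z : ℂ, ‖z‖ = 1 / 2 → v z ≤ Real.log (289 / (16 * s ^ 4)) := by
    intro z hz
    have hzi : z ∈ CA.img none := hball (by simp [hz])
    have h1 := Gf_le_one hs hh (CA.pt none z)
    rw [Gf_inf hg hh (CA.pt_mem hzi), zc_pt hzi] at h1
    have h2 : normSq z = 1 / 4 := by
      rw [Complex.normSq_eq_norm_sq, hz]; norm_num
    rw [h2, div_le_one (by positivity)] at h1
    apply Real.log_le_log (hapos z hzi)
    rw [le_div_iff₀ (by positivity)]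
    have h3 : s ^ 4 * a z * (1 / 4) ^ 2 ≤ (1 + (1 / 4) ^ 2) ^ 2 := h1
    nlinarith [h3]
  -- maximum principle
  have hmain : ∀ η : ℝ, 0 < η → v 0 ≤ Real.log (289 / (16 * s ^ 4)) + η / 4 := by
    intro η hη
    set vη : ℂ → ℝ := fun z => v z + η * (0 + normSq z) with hvη
    have hns : ∀ z : ℂ, ContDiffAt ℝ 2 (fun w : ℂ => 0 + normSq w) z ∧
        lap (fun w : ℂ => 0 + normSq w) z = 4 := by
      intro z
      obtain ⟨h1, h2, -⟩ := normSq_facts (X := fun w => w) isOpen_univ differentiableOn_id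
        (Set.mem_univ z) 0
      refine ⟨h1, ?_⟩
      rw [h2, deriv_id'']
      simp
    have hcont : ContinuousOn vη (Metric.closedBall 0 (1 / 2)) := by
      intro z hz
      exact ((hvc z (hball hz)).continuousAt.add
        (continuousAt_const.mul (hns z).1.continuousAt)).continuousWithinAt
    obtain ⟨z1, hz1, hmax⟩ := (isCompact_closedBall (0 : ℂ) (1 / 2)).exists_isMaxOn
      ⟨0, by simp⟩ hcont
    have h0 : vη 0 ≤ vη z1 := hmax (by simp)
    have hv0 : vη 0 = v 0 := by simp [hvη]
    rw [hv0] at h0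
    have hz1' : ‖z1‖ ≤ 1 / 2 := by simpa using hz1
    rcases hz1'.lt_or_eq with hlt | heq
    · exfalso
      have hloc : IsLocalMax vη z1 := by
        have hn : Metric.closedBall (0 : ℂ) (1 / 2) ∈ 𝓝 z1 :=
          Filter.mem_of_superset (Metric.isOpen_ball.mem_nhds (by simpa using hlt))
            Metric.ball_subset_closedBall
        filter_upwards [hn] with z hz
        exact hmax hz
      have hi := hball hz1
      have h1 := lap_nonpos_of_isLocalMax ((hvc z1 hi).add (contDiffAt_const.mul (hns z1).1)) hloc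
      rw [lap_add (hvc z1 hi) (contDiffAt_const.mul (hns z1).1), lap_const_mul _ (hns z1).1,
        (hns z1).2] at h1
      have h2 := hvlap z1 hi
      linarith
    · have h1 := hcircle z1 heq
      have h2 : vη z1 = v z1 + η / 4 := by
        simp only [hvη]
        rw [Complex.normSq_eq_norm_sq, heq]
        ring
      linarith
  have hv0 : v 0 ≤ Real.log (289 / (16 * s ^ 4)) := by
    refine le_of_forall_pos_le_add fun ε hε => ?_
    have := hmain (4 * ε) (by positivity)
    have h2 : 4 * ε / 4 = ε := by ring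
    rwa [h2] at this
  have h0i : (0 : ℂ) ∈ CA.img none := hball (by simp)
  have hpos : 0 < 289 / (16 * s ^ 4) := by positivity
  have h1 := (Real.log_le_log_iff (hapos 0 h0i) hpos).1 hv0
  simp only [ha, pt_zero] at h1
  exact h1

/-- the energy at infinity -/
theorem energy_pinf (s : ℝ) (hherm : (h none pinf).PosDef) :
    (EC.scale s).energy h none pinf = 4 * s ^ 2 * afun (h none pinf) := by
  have hphi : (EC.scale s).phi none pinf = (-2 * s : ℂ) • Matrix.single 2 0 1 := by
    show (s : ℂ) • (!![0, 0, 0; mfun (zc pinf) * zc pinf, 0, 0; mfun (zc pinf),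
      mfun (zc pinf) * zc pinf, 0] : Matrix (Fin 3) (Fin 3) ℂ) = _
    rw [zc_pinf, mfun_zero]
    ext i j
    fin_cases i <;> fin_cases j <;> simp [Matrix.single]
    ring
  unfold HiggsBundle.energy HiggsBundle.adj afun
  rw [hphi]
  set H := h none pinf
  have h1 : (((-2 * s : ℂ) • Matrix.single 2 0 1 *
      (H⁻¹ * ((-2 * s : ℂ) • Matrix.single 2 0 1)ᴴ * H) : Matrix (Fin 3) (Fin 3) ℂ)).trace =
      (4 * s ^ 2 : ℝ) * (H⁻¹ 0 0 * H 2 2) := by
    rw [Matrix.conjTranspose_smul, Matrix.conjTranspose_single]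
    rw [Matrix.trace_fin_three]
    simp [Matrix.mul_apply, Fin.sum_univ_three, Matrix.single]
    ring
  rw [h1, Complex.re_ofReal_mul]
  have h2 := herm_diag_real hherm.isHermitian 2
  have h3 := herm_diag_real hherm.inv.isHermitian 0
  rw [h2, h3, ← Complex.ofReal_mul, Complex.ofReal_re, Complex.ofReal_re, Complex.ofReal_re]
  ring

/-- **The universal bound.** -/
theorem energy_bound (hs : 0 < s) (hh : (EC.scale s).IsHarmonic h) :
    0 < (EC.scale s).energy h none pinf ∧
      (EC.scale s).energy h none pinf ≤ 289 / 4 / s ^ 2 := by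
  have hp := hh.posDef none pinf pinf_mem_dom
  rw [energy_pinf s hp]
  have h1 := afun_pinf_le hs hh
  have h2 := afun_pos hp
  refine ⟨by positivity, ?_⟩
  calc 4 * s ^ 2 * afun (h none pinf) ≤ 4 * s ^ 2 * (289 / (16 * s ^ 4)) := by gcongr
    _ = 289 / 4 / s ^ 2 := by field_simp; ring

end main

end MP_8bb00a_gt
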