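import Pool.Agent.Lib_MP_8bb00a_gt.Wirt

/-!
The Cauchy transform on the complex plane.
-/

open MeasureTheory Complex Set Metric Filter Topology
open scoped Real ENNReal ContDiff ComplexConjugate Convolution

noncomputable section

namespace Pool.Agent.Lib8bb

variable {V W : Type*} [NormedAddCommGroup V] [NormedSpace ℂ V]
  [NormedAddCommGroup W] [NormedSpace ℂ W]

/-- The Cauchy kernel `1/(π z)`. -/
def CK (z : ℂ) : ℂ := (π : ℂ)⁻¹ * z⁻¹

theorem norm_CK (z : ℂ) : ‖CK z‖ = π⁻¹ * ‖z‖⁻¹ := by
  rw [CK, norm_mul, norm_inv, norm_inv, Complex.norm_real, Real.norm_eq_abs, abs_of_pos Real.pi_pos]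

theorem measurable_CK : Measurable CK := by
  unfold CK; fun_prop

theorem CK_neg (z : ℂ) : CK (-z) = - CK z := by
  simp [CK]

theorem locInt_CK : LocallyIntegrable CK volume := by
  refine locallyIntegrable_of_norm_le_rpow (C := π⁻¹) (α := 1) ?_ ?_ ?_ ?_
  · rw [Complex.finrank_real_complex]; norm_num
  · rw [Complex.finrank_real_complex]; norm_num
  · refine ae_of_all _ fun x => ?_
    rw [norm_CK, Real.rpow_neg (norm_nonneg _), Real.rpow_one]
  · exact measurable_CK.aestronglyMeasurable

/-- The Cauchy transform. -/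
def CT (g : ℂ → V) : ℂ → V := CK ⋆[ContinuousLinearMap.lsmul ℝ ℂ, volume] g

theorem CT_apply (g : ℂ → V) (x : ℂ) : CT g x = ∫ t, CK t • g (x - t) := rfl

theorem CT_apply' (g : ℂ → V) (x : ℂ) : CT g x = ∫ t, CK (x - t) • g t := by
  rw [CT_apply, ← integral_sub_left_eq_self _ volume x]
  simp_rw [sub_sub_self]

theorem continuous_CT {g : ℂ → V} (hg : Continuous g) (hc : HasCompactSupport g) :
    Continuous (CT g) :=
  hc.continuous_convolution_right _ locInt_CK hg

theorem contDiff_CT {g : ℂ → V} {n : ℕ∞} (hg : ContDiff ℝ n g) (hc : HasCompactSupport g) :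
    ContDiff ℝ n (CT g) :=
  hc.contDiff_convolution_right _ locInt_CK hg

theorem integrable_CK_smul {g : ℂ → V} (hg : Continuous g) (hc : HasCompactSupport g) (x : ℂ) :
    Integrable (fun t => CK t • g (x - t)) := by
  have := hc.convolutionExists_right (ContinuousLinearMap.lsmul ℝ ℂ : ℂ →L[ℝ] V →L[ℝ] V)
    locInt_CK hg x
  exact this

theorem hasCompactSupport_fderiv_apply {g : ℂ → V} (hc : HasCompactSupport g) (v : ℂ) :
    HasCompactSupport (fun z => fderiv ℝ g z v) := by
  have := hc.fderiv (𝕜 := ℝ)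
  exact this.comp_left (g := fun L : ℂ →L[ℝ] V => L v) (by simp)

theorem hasCompactSupport_dzb {g : ℂ → V} (hc : HasCompactSupport g) :
    HasCompactSupport (dzb g) := by
  have := hc.fderiv (𝕜 := ℝ)
  exact this.comp_left (g := fun L : ℂ →L[ℝ] V => (1 / 2 : ℂ) • (L 1 + I • L I)) (by simp)

theorem hasCompactSupport_dz {g : ℂ → V} (hc : HasCompactSupport g) :
    HasCompactSupport (dz g) := by
  have := hc.fderiv (𝕜 := ℝ)
  exact this.comp_left (g := fun L : ℂ →L[ℝ] V => (1 / 2 : ℂ) • (L 1 - I • L I)) (by simp)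

theorem fderiv_CT {g : ℂ → V} (hg : ContDiff ℝ 1 g) (hc : HasCompactSupport g) (x v : ℂ) :
    fderiv ℝ (CT g) x v = CT (fun z => fderiv ℝ g z v) x := by
  have h := hc.hasFDerivAt_convolution_right
    (ContinuousLinearMap.lsmul ℝ ℂ : ℂ →L[ℝ] V →L[ℝ] V) locInt_CK hg x
  have h2 : fderiv ℝ (CT g) x = _ := h.fderiv
  rw [h2, convolution_precompR_apply _ locInt_CK (hc.fderiv ℝ) (hg.continuous_fderiv one_ne_zero)]
  rfl

theorem dzb_CT_eq {g : ℂ → V} (hg : ContDiff ℝ 1 g) (hc : HasCompactSupport g) (x : ℂ) :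
    dzb (CT g) x = CT (dzb g) x := by
  have hcont : ∀ v : ℂ, Continuous (fun z => fderiv ℝ g z v) := fun v =>
    (hg.continuous_fderiv one_ne_zero).clm_apply continuous_const
  rw [dzb, fderiv_CT hg hc, fderiv_CT hg hc, CT_apply, CT_apply, CT_apply]
  rw [← integral_smul, ← integral_add, ← integral_smul]
  · congr 1; ext t; simp only [dzb]; module
  · exact integrable_CK_smul (hcont 1) (hasCompactSupport_fderiv_apply hc 1) x
  · exact (integrable_CK_smul (hcont I) (hasCompactSupport_fderiv_apply hc I) x).smul I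

theorem dz_CT_eq {g : ℂ → V} (hg : ContDiff ℝ 1 g) (hc : HasCompactSupport g) (x : ℂ) :
    dz (CT g) x = CT (dz g) x := by
  have hcont : ∀ v : ℂ, Continuous (fun z => fderiv ℝ g z v) := fun v =>
    (hg.continuous_fderiv one_ne_zero).clm_apply continuous_const
  rw [dz, fderiv_CT hg hc, fderiv_CT hg hc, CT_apply, CT_apply, CT_apply]
  rw [← integral_smul, ← integral_sub, ← integral_smul]
  · congr 1; ext t; simp only [dz]; module
  · exact integrable_CK_smul (hcont 1) (hasCompactSupport_fderiv_apply hc 1) x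
  · exact (integrable_CK_smul (hcont I) (hasCompactSupport_fderiv_apply hc I) x).smul I

theorem aux_polar (r p x y : ℂ) (P D : V) (hr : r ≠ 0) :
    r • (p * (r⁻¹ * y)) • D =
      p • ((1/2:ℂ) • ((x • P + y • D) + I • ((I * x) • P + (-I * y) • D))) := by
  have h := mul_inv_cancel₀ hr
  match_scalars
  · linear_combination (p * y) * h + (p * y / 2) * I_mul_I
  · linear_combination (-(1:ℂ)/2 * p * x) * I_mul_I

/-- Cauchy-Pompeiu at the origin, in polar coordinates. -/
theorem integral_CK_dzb [CompleteSpace V] {G : ℂ → V} (hG : ContDiff ℝ 1 G)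
    (hc : HasCompactSupport G) :
    ∫ t, CK t • dzb G t = - G 0 := by
  -- radius containing the support
  obtain ⟨R, hRpos, hR⟩ : ∃ R : ℝ, 0 < R ∧ ∀ z : ℂ, R ≤ ‖z‖ → G =ᶠ[𝓝 z] 0 := by
    obtain ⟨R, hR⟩ := hc.isBounded.subset_ball 0
    refine ⟨max R 1, by positivity, fun z hz => ?_⟩
    have : z ∉ tsupport G := fun h => by
      have := hR h
      rw [mem_ball_zero_iff] at this
      exact absurd (lt_of_lt_of_le this (le_max_left R 1)) (not_lt.mpr hz)
    exact notMem_tsupport_iff_eventuallyEq.mp this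
  have hGd : Differentiable ℝ G := hG.differentiable one_ne_zero
  have hcf : Continuous (fderiv ℝ G) := hG.continuous_fderiv one_ne_zero
  have hfz : ∀ z : ℂ, R ≤ ‖z‖ → fderiv ℝ G z = 0 := fun z hz => by
    rw [(hR z hz).fderiv_eq]; simp
  rw [← Complex.integral_comp_polarCoord_symm]
  rw [polarCoord_target]
  set e : ℝ → ℂ := fun θ => Real.cos θ + Real.sin θ * I with he
  have hemul : ∀ θ, e θ = Complex.exp (θ * I) := fun θ => by
    rw [he, exp_mul_I]; simp
  have heconj : ∀ θ, (e θ)⁻¹ = conj (e θ) := fun θ => by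
    rw [hemul, ← Complex.exp_neg, ← Complex.exp_conj]; simp
  have hene : ∀ θ, e θ ≠ 0 := fun θ => by rw [hemul]; exact exp_ne_zero _
  -- the integrand
  have hint : ∀ p ∈ Ioi (0:ℝ) ×ˢ Ioo (-π) π,
      p.1 • (CK (Complex.polarCoord.symm p) • dzb G (Complex.polarCoord.symm p)) =
      (π:ℂ)⁻¹ • ((1/2:ℂ) • (fderiv ℝ G (p.1 * e p.2) (e p.2) +
        I • fderiv ℝ G (p.1 * e p.2) (I * e p.2))) := by
    rintro ⟨r, θ⟩ ⟨hr, -⟩
    have hr : (0:ℝ) < r := hr
    have hr' : (r:ℂ) ≠ 0 := by exact_mod_cast hr.ne'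
    simp only [Complex.polarCoord_symm_apply]
    change r • (CK (r * e θ) • dzb G (r * e θ)) = _
    rw [fderiv_apply_eq, fderiv_apply_eq, CK, mul_inv, ← Complex.coe_smul r]
    have h1 : conj (I * e θ) = - I * conj (e θ) := by simp
    rw [h1, ← heconj θ]
    exact aux_polar _ _ _ _ _ _ hr'
  rw [setIntegral_congr_fun (measurableSet_Ioi.prod measurableSet_Ioo) hint]
  rw [integral_smul, integral_smul]
  set A : ℝ × ℝ → V := fun p => fderiv ℝ G (p.1 * e p.2) (e p.2) with hA
  set B : ℝ × ℝ → V := fun p => fderiv ℝ G (p.1 * e p.2) (I * e p.2) with hB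
  have hecont : Continuous e := by
    rw [he]; fun_prop
  have hAc : Continuous A := by
    rw [hA]
    refine (hcf.comp ?_).clm_apply (hecont.comp continuous_snd)
    fun_prop
  have hBc : Continuous B := by
    rw [hB]
    refine (hcf.comp ?_).clm_apply (continuous_const.mul (hecont.comp continuous_snd))
    fun_prop
  have hnorm : ∀ (r θ : ℝ), 0 < r → ‖(r:ℂ) * e θ‖ = r := fun r θ hr => by
    rw [norm_mul, hemul, norm_exp_ofReal_mul_I, mul_one, Complex.norm_real, Real.norm_eq_abs,
      abs_of_pos hr]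
  have hA0 : ∀ p : ℝ × ℝ, R ≤ p.1 → A p = 0 := fun p hp => by
    simp only [hA]
    rw [hfz _ (by rw [hnorm _ _ (lt_of_lt_of_le hRpos hp)]; exact hp)]; simp
  have hB0 : ∀ p : ℝ × ℝ, R ≤ p.1 → B p = 0 := fun p hp => by
    simp only [hB]
    rw [hfz _ (by rw [hnorm _ _ (lt_of_lt_of_le hRpos hp)]; exact hp)]; simp
  have hinteg : ∀ F : ℝ × ℝ → V, Continuous F → (∀ p : ℝ × ℝ, R ≤ p.1 → F p = 0) →
      IntegrableOn F (Ioi (0:ℝ) ×ˢ Ioo (-π) π) := by
    intro F hF h0
    have hsub : IntegrableOn F (Icc (0:ℝ) R ×ˢ Icc (-π) π) :=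
      hF.continuousOn.integrableOn_compact (isCompact_Icc.prod isCompact_Icc)
    have : IntegrableOn F ((Icc (0:ℝ) R ×ˢ Icc (-π) π) ∪ (Ioi R ×ˢ univ)) := by
      refine hsub.union ?_
      refine (integrableOn_zero).congr_fun (fun p hp => ?_) (measurableSet_Ioi.prod MeasurableSet.univ)
      exact (h0 p (le_of_lt hp.1)).symm
    refine this.mono_set ?_
    rintro ⟨r, θ⟩ ⟨hr, hθ⟩
    by_cases h : r ≤ R
    · left; exact ⟨⟨le_of_lt hr, h⟩, ⟨hθ.1.le, hθ.2.le⟩⟩
    · right; exact ⟨not_le.mp h, trivial⟩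
  have hAi := hinteg A hAc hA0
  have hBi := hinteg B hBc hB0
  have hsum : ∫ a in Ioi (0:ℝ) ×ˢ Ioo (-π) π, (fderiv ℝ G (a.1 * e a.2) (e a.2) +
      I • fderiv ℝ G (a.1 * e a.2) (I * e a.2)) =
      (∫ a in Ioi (0:ℝ) ×ˢ Ioo (-π) π, A a) + I • ∫ a in Ioi (0:ℝ) ×ˢ Ioo (-π) π, B a := by
    rw [← integral_smul]
    exact integral_add hAi (hBi.smul I)
  rw [hsum]
  -- compute the A part
  have hAint : ∫ p in Ioi (0:ℝ) ×ˢ Ioo (-π) π, A p = -((2 * π : ℝ) • G 0) := by
    rw [Measure.volume_eq_prod, ← setIntegral_prod_swap, setIntegral_prod]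
    · have hin : ∀ θ ∈ Ioo (-π) π, ∫ r in Ioi (0:ℝ), A (Prod.swap (θ, r)) = - G 0 := by
        intro θ _
        have hd : ∀ r : ℝ, HasDerivAt (fun r : ℝ => G (r * e θ)) (A (r, θ)) r := by
          intro r
          have h1 : HasDerivAt (fun r : ℝ => (r:ℂ) * e θ) (e θ) r := by
            have := (Complex.ofRealCLM.hasDerivAt (x := r)).mul_const (e θ)
            simpa using this
          exact (hGd (r * e θ)).hasFDerivAt.comp_hasDerivAt r h1
        have h3 : Tendsto (fun r : ℝ => G (r * e θ)) atTop (𝓝 0) := by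
          refine tendsto_const_nhds.congr' ?_
          filter_upwards [eventually_ge_atTop R, eventually_gt_atTop 0] with r hr hr0
          rw [(hR (r * e θ) (by rw [hnorm r θ hr0]; exact hr)).eq_of_nhds]
          rfl
        have h4 : IntegrableOn (fun r : ℝ => A (r, θ)) (Ioi 0) := by
          have hc1 : Continuous (fun r : ℝ => A (r, θ)) := hAc.comp (by fun_prop)
          have : IntegrableOn (fun r : ℝ => A (r, θ)) (Icc 0 R ∪ Ioi R) := by
            refine (hc1.continuousOn.integrableOn_compact isCompact_Icc).union ?_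
            refine integrableOn_zero.congr_fun (fun r hr => ?_) measurableSet_Ioi
            exact (hA0 (r, θ) (le_of_lt hr)).symm
          refine this.mono_set fun r hr => ?_
          by_cases h : r ≤ R
          · left; exact ⟨le_of_lt hr, h⟩
          · right; exact not_le.mp h
        have := integral_Ioi_of_hasDerivAt_of_tendsto (a := (0:ℝ)) (hd 0).continuousAt.continuousWithinAt
          (fun r _ => hd r) h4 h3
        simpa using this
      rw [setIntegral_congr_fun measurableSet_Ioo hin, setIntegral_const]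
      simp only [Measure.real, Real.volume_Ioo, smul_neg]
      congr 2
      rw [ENNReal.toReal_ofReal (by linarith [Real.pi_pos])]; ring
    · have := (hAi : IntegrableOn A _ _)
      rw [Measure.volume_eq_prod] at this
      exact this.swap
  have hBint : ∫ p in Ioi (0:ℝ) ×ˢ Ioo (-π) π, B p = 0 := by
    rw [Measure.volume_eq_prod, setIntegral_prod]
    · have hin : ∀ r ∈ Ioi (0:ℝ), ∫ θ in Ioo (-π) π, B (r, θ) = 0 := by
        intro r hr
        have hr : (0:ℝ) < r := hr
        have hd : ∀ θ : ℝ, HasDerivAt (fun θ : ℝ => G (r * e θ)) (r • B (r, θ)) θ := by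
          intro θ
          have h1 : HasDerivAt (fun θ : ℝ => (r:ℂ) * e θ) (r • (I * e θ)) θ := by
            have h2 : HasDerivAt (fun θ : ℝ => Complex.exp (θ * I)) (Complex.exp (θ * I) * I) θ := by
              have h3 : HasDerivAt (fun θ : ℝ => (θ:ℂ) * I) I θ := by
                have := (Complex.ofRealCLM.hasDerivAt (x := θ)).mul_const I
                simpa using this
              exact h3.cexp
            have h4 := h2.const_mul (r:ℂ)
            have h5 : (fun θ : ℝ => (r:ℂ) * e θ) = fun θ : ℝ => (r:ℂ) * Complex.exp (θ * I) := by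
              ext θ; rw [hemul]
            rw [h5]
            refine h4.congr_deriv ?_
            rw [hemul, ← Complex.coe_smul]; simp only [smul_eq_mul]; ring
          have h6 := (hGd (r * e θ)).hasFDerivAt.comp_hasDerivAt θ h1
          have h7 : HasDerivAt (fun θ : ℝ => G (r * e θ)) _ θ := h6
          rw [map_smul] at h7
          exact h7
        have hc1 : Continuous (fun θ : ℝ => r • B (r, θ)) :=
          (hBc.comp (by fun_prop : Continuous fun θ : ℝ => (r, θ))).const_smul r
        have h7 : ∫ θ in (-π)..π, r • B (r, θ) = 0 := by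
          rw [intervalIntegral.integral_eq_sub_of_hasDerivAt (fun θ _ => hd θ)
            (hc1.intervalIntegrable _ _)]
          have : e π = e (-π) := by
            simp only [he]; simp
          rw [this, sub_self]
        rw [intervalIntegral.integral_smul] at h7
        have h8 := (smul_eq_zero.mp h7).resolve_left hr.ne'
        rw [intervalIntegral.integral_of_le (by linarith [Real.pi_pos]),
          integral_Ioc_eq_integral_Ioo] at h8
        exact h8
      rw [setIntegral_congr_fun measurableSet_Ioi hin]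
      simp
    · have := (hBi : IntegrableOn B _ _)
      rw [Measure.volume_eq_prod] at this
      exact this
  rw [hAint, hBint, smul_zero, add_zero, smul_neg, smul_neg, ← Complex.coe_smul (2 * π : ℝ),
    smul_smul, smul_smul]
  have hπ : (π:ℂ) ≠ 0 := by exact_mod_cast Real.pi_ne_zero
  have : (π:ℂ)⁻¹ * (1 / 2) * ((2 * π : ℝ) : ℂ) = 1 := by
    push_cast; field_simp
  rw [this, one_smul]

end Pool.Agent.Lib8bb
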