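import Pool.Agent.Lib_MP_8bb00a_gt.CT

/-!
The Cauchy transform: inversion, holomorphy off the support, representation of weak solutions
of the inhomogeneous Cauchy-Riemann equation.
-/

open MeasureTheory Complex Set Metric Filter Topology
open scoped Real ENNReal ContDiff ComplexConjugate Convolution

noncomputable section

namespace Pool.Agent.Lib8bb

variable {V W : Type*} [NormedAddCommGroup V] [NormedSpace ℂ V]
  [NormedAddCommGroup W] [NormedSpace ℂ W]

theorem fderiv_const_sub_arg {g : ℂ → V} (hg : Differentiable ℝ g) (x t v : ℂ) :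
    fderiv ℝ (fun t => g (x - t)) t v = - fderiv ℝ g (x - t) v := by
  have h1 : HasFDerivAt (fun t : ℂ => x - t) (-(ContinuousLinearMap.id ℝ ℂ)) t :=
    (hasFDerivAt_id t).const_sub x
  have h2 := (hg (x - t)).hasFDerivAt.comp t h1
  have h3 : HasFDerivAt (fun t => g (x - t)) _ t := h2
  rw [h3.fderiv]
  simp

theorem dzb_comp_const_sub {g : ℂ → V} (hg : Differentiable ℝ g) (x t : ℂ) :
    dzb (fun t => g (x - t)) t = - dzb g (x - t) := by
  simp only [dzb, fderiv_const_sub_arg hg]
  module

theorem dz_comp_const_sub {g : ℂ → V} (hg : Differentiable ℝ g) (x t : ℂ) :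
    dz (fun t => g (x - t)) t = - dz g (x - t) := by
  simp only [dz, fderiv_const_sub_arg hg]
  module

theorem CT_dzb [CompleteSpace V] {g : ℂ → V} (hg : ContDiff ℝ 1 g) (hc : HasCompactSupport g)
    (x : ℂ) : CT (dzb g) x = g x := by
  have h1 : ContDiff ℝ 1 (fun t => g (x - t)) := hg.comp (contDiff_const.sub contDiff_id)
  have h2 : HasCompactSupport (fun t => g (x - t)) := by
    exact hc.comp_homeomorph (Homeomorph.subLeft x)
  have h3 := integral_CK_dzb h1 h2
  rw [CT_apply]
  simp only [dzb_comp_const_sub (hg.differentiable one_ne_zero), smul_neg, integral_neg,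
    sub_zero] at h3
  exact neg_injective h3

theorem dzb_CT [CompleteSpace V] {g : ℂ → V} (hg : ContDiff ℝ 1 g) (hc : HasCompactSupport g)
    (x : ℂ) : dzb (CT g) x = g x := by
  rw [dzb_CT_eq hg hc, CT_dzb hg hc]

/-- The Cauchy transform is holomorphic off the support. -/
theorem differentiableAt_CT [CompleteSpace V] {g : ℂ → V} (hg : Integrable g) {x : ℂ}
    (hx : x ∉ tsupport g) : DifferentiableAt ℂ (CT g) x := by
  have hopen : IsOpen (tsupport g)ᶜ := (isClosed_tsupport g).isOpen_compl
  obtain ⟨δ, hδ, hball⟩ := Metric.isOpen_iff.mp hopen x hx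
  have hfar : ∀ y ∈ ball x (δ/2), ∀ t, g t ≠ 0 → δ/2 ≤ ‖y - t‖ := by
    intro y hy t ht
    by_contra hlt
    push Not at hlt
    have : t ∈ ball x δ := by
      rw [mem_ball, dist_comm, dist_eq_norm]
      rw [mem_ball, dist_eq_norm] at hy
      calc ‖x - t‖ = ‖(y - t) - (y - x)‖ := by congr 1; ring
        _ ≤ ‖y - t‖ + ‖y - x‖ := norm_sub_le _ _
        _ < δ/2 + δ/2 := add_lt_add hlt hy
        _ = δ := by ring
    exact hball this (subset_tsupport g ht)
  have hmeas : ∀ y : ℂ, AEStronglyMeasurable (fun t => CK (y - t) • g t) volume := fun y =>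
    ((measurable_CK.comp (measurable_const.sub measurable_id)).aestronglyMeasurable).smul hg.1
  have hgm := hg.1
  have key : HasDerivAt (fun y => ∫ t, CK (y - t) • g t)
      (∫ t, (-((π : ℂ)⁻¹ * ((x - t) ^ 2)⁻¹)) • g t) x := by
    refine (hasDerivAt_integral_of_dominated_loc_of_deriv_le (μ := volume)
      (F := fun y t => CK (y - t) • g t)
      (F' := fun y t => (-((π : ℂ)⁻¹ * ((y - t) ^ 2)⁻¹)) • g t)
      (bound := fun t => π⁻¹ * ((δ/2)^2)⁻¹ * ‖g t‖) (s := ball x (δ/2))
      (ball_mem_nhds x (by positivity)) (Eventually.of_forall hmeas) ?_ ?_ ?_ ?_ ?_).2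
    · -- integrable F x
      refine Integrable.mono' (hg.norm.const_mul (π⁻¹ * (δ/2)⁻¹)) (hmeas x) (ae_of_all _ fun t => ?_)
      by_cases ht : g t = 0
      · simp [ht]
      · rw [norm_smul, norm_CK]
        have := hfar x (mem_ball_self (by positivity)) t ht
        gcongr
    · refine AEStronglyMeasurable.smul ?_ hgm
      refine Measurable.aestronglyMeasurable ?_
      fun_prop
    · refine ae_of_all _ fun t y hy => ?_
      by_cases ht : g t = 0
      · simp [ht]
      · have := hfar y hy t ht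
        rw [norm_smul, norm_neg, norm_mul, norm_inv, norm_inv, norm_pow, Complex.norm_real,
          Real.norm_eq_abs, abs_of_pos Real.pi_pos]
        gcongr
    · exact hg.norm.const_mul _
    · refine ae_of_all _ fun t y hy => ?_
      by_cases ht : g t = 0
      · simp only [ht, smul_zero]; exact hasDerivAt_const _ _
      · have h1 := hfar y hy t ht
        have hne : y - t ≠ 0 := by
          intro h0; rw [h0, norm_zero] at h1; linarith
        have h2 : HasDerivAt (fun y : ℂ => CK (y - t)) (-((π : ℂ)⁻¹ * ((y - t) ^ 2)⁻¹)) y := by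
          have h3 : HasDerivAt (fun y : ℂ => y - t) 1 y := (hasDerivAt_id y).sub_const t
          have h4 := (h3.inv hne).const_mul (π : ℂ)⁻¹
          refine h4.congr_deriv ?_
          field_simp
        exact h2.smul_const (g t)
  have : CT g = fun y => ∫ t, CK (y - t) • g t := by
    ext y; exact CT_apply' g y
  rw [this]
  exact key.differentiableAt

/-- The kernel average `∫ ‖CK (y - z) * ζ y‖ dy` is continuous in `z`. -/
theorem continuous_kernel_avg {ζ : ℂ → ℂ} (hζ : Continuous ζ) (hζc : HasCompactSupport ζ) :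
    Continuous (fun z => ∫ y, ‖CK (y - z) * ζ y‖) := by
  have hl : LocallyIntegrable (fun t => ‖CK t‖) volume := fun x => by
    obtain ⟨U, hU, hi⟩ := locInt_CK x
    exact ⟨U, hU, hi.norm⟩
  have hψ : Continuous (fun s : ℂ => ‖ζ (-s)‖) := (hζ.comp continuous_neg).norm
  have hψc : HasCompactSupport (fun s : ℂ => ‖ζ (-s)‖) :=
    (hζc.comp_homeomorph (Homeomorph.neg ℂ)).norm
  have h1 := hψc.continuous_convolution_right (ContinuousLinearMap.mul ℝ ℝ) hl hψ
  have h2 : (fun z => ∫ y, ‖CK (y - z) * ζ y‖) = fun z =>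
      ((fun t => ‖CK t‖) ⋆[ContinuousLinearMap.mul ℝ ℝ, volume] (fun s : ℂ => ‖ζ (-s)‖)) (-z) := by
    ext z
    rw [convolution_def]
    rw [← integral_add_right_eq_self (fun y => ‖CK (y - z) * ζ y‖) z]
    congr 1; ext t
    simp only [ContinuousLinearMap.mul_apply', norm_mul]
    congr 2
    · congr 1; ring
    · congr 1; ring
  rw [h2]
  exact h1.comp continuous_neg

theorem integrable_kernel {ζ : ℂ → ℂ} (hζ : Continuous ζ) (hζc : HasCompactSupport ζ) (z : ℂ) :
    Integrable (fun y => CK (y - z) * ζ y) := by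
  have h1 := integrable_CK_smul (g := fun s => ζ (-s)) (hζ.comp continuous_neg)
    (hζc.comp_homeomorph (Homeomorph.neg ℂ)) (-z)
  have h2 := h1.comp_sub_right z
  refine h2.congr (ae_of_all _ fun y => ?_)
  simp only [smul_eq_mul]
  congr 2; ring

theorem integrable_kernel_prod {g : ℂ → V} (hg : Integrable g) (hgc : HasCompactSupport g)
    {ζ : ℂ → ℂ} (hζ : Continuous ζ) (hζc : HasCompactSupport ζ) :
    Integrable (fun p : ℂ × ℂ => (CK (p.1 - p.2) * ζ p.1) • g p.2) (volume.prod volume) := by
  have hmeas : AEStronglyMeasurable (fun p : ℂ × ℂ => (CK (p.1 - p.2) * ζ p.1) • g p.2)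
      (volume.prod volume) := by
    refine AEStronglyMeasurable.smul ?_ hg.1.comp_snd
    refine Measurable.aestronglyMeasurable ?_
    exact (measurable_CK.comp (measurable_fst.sub measurable_snd)).mul
      (hζ.measurable.comp measurable_fst)
  rw [integrable_prod_iff' hmeas]
  refine ⟨ae_of_all _ fun z => ?_, ?_⟩
  · exact (integrable_kernel hζ hζc z).smul_const (g z)
  · have hN := continuous_kernel_avg hζ hζc
    obtain ⟨M, hM⟩ := hgc.isCompact.exists_bound_of_continuousOn (f := fun z => ∫ y, ‖CK (y - z) * ζ y‖)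
      hN.continuousOn
    have heq : (fun z => ∫ y, ‖(CK (y - z) * ζ y) • g z‖) =
        fun z => (∫ y, ‖CK (y - z) * ζ y‖) * ‖g z‖ := by
      ext z
      rw [← integral_mul_const]
      congr 1; ext y; rw [norm_smul]
    rw [heq]
    refine Integrable.mono' (hg.norm.const_mul M) ?_ (ae_of_all _ fun z => ?_)
    · exact hN.aestronglyMeasurable.mul hg.1.norm
    · rw [norm_mul, norm_norm]
      by_cases hz : z ∈ tsupport g
      · exact mul_le_mul_of_nonneg_right (hM z hz) (norm_nonneg _)
      · rw [image_eq_zero_of_notMem_tsupport hz]; simp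

/-- Antisymmetry of the Cauchy transform. -/
theorem integral_smul_CT [CompleteSpace V] {g : ℂ → V} (hg : Integrable g)
    (hgc : HasCompactSupport g) {ζ : ℂ → ℂ} (hζ : Continuous ζ) (hζc : HasCompactSupport ζ) :
    ∫ y, ζ y • CT g y = - ∫ z, CT ζ z • g z := by
  have hF := integrable_kernel_prod hg hgc hζ hζc
  have h1 : ∫ y, ζ y • CT g y = ∫ y, ∫ z, (CK (y - z) * ζ y) • g z := by
    congr 1; ext y
    rw [CT_apply', ← integral_smul]
    congr 1; ext z
    rw [smul_smul, mul_comm]
  have h2 : ∫ y, ∫ z, (CK (y - z) * ζ y) • g z = ∫ z, ∫ y, (CK (y - z) * ζ y) • g z :=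
    integral_integral_swap hF
  rw [h1, h2, ← integral_neg]
  congr 1; ext z
  rw [integral_smul_const, ← neg_smul]
  congr 1
  rw [CT_apply', ← integral_neg]
  congr 1; ext y
  have : z - y = -(y - z) := by ring
  rw [this, CK_neg, smul_eq_mul]; ring

theorem locallyIntegrable_CT {g : ℂ → V} (hg : Integrable g)
    (hgc : HasCompactSupport g) : LocallyIntegrable (CT g) volume := by
  -- on a ball use a bump function
  intro x
  let f : ContDiffBump x := ⟨1, 2, by norm_num, by norm_num⟩
  have hfc : Continuous (fun y => ((f y : ℝ) : ℂ)) := Complex.continuous_ofReal.comp f.continuous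
  have hfs : HasCompactSupport (fun y => ((f y : ℝ) : ℂ)) :=
    f.hasCompactSupport.comp_left (g := fun r : ℝ => (r : ℂ)) (by simp)
  have h1 := (integrable_kernel_prod hg hgc hfc hfs).integral_prod_left
  refine ⟨ball x 1, ball_mem_nhds x one_pos, ?_⟩
  have h2 : IntegrableOn (fun y => ∫ z, (CK (y - z) * ((f y : ℝ) : ℂ)) • g z) (ball x 1) volume :=
    h1.integrableOn
  refine h2.congr_fun (fun y hy => ?_) measurableSet_ball
  have hfy : f y = 1 := f.one_of_mem_closedBall (ball_subset_closedBall hy)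
  simp only [hfy, Complex.ofReal_one, mul_one]
  exact (CT_apply' g y).symm

/-- The kernel integrand is integrable for almost every point. -/
theorem ae_integrable_CK {g : ℂ → V} (hg : Integrable g) (hgc : HasCompactSupport g) :
    ∀ᵐ y ∂(volume : Measure ℂ), Integrable (fun t => CK (y - t) • g t) := by
  have h1 : ∀ n : ℕ, ∀ᵐ y ∂(volume : Measure ℂ), ‖y‖ < n →
      Integrable (fun t => CK (y - t) • g t) := by
    intro n
    obtain ⟨χ, hχ, hχc, hχ1⟩ : ∃ χ : ℂ → ℂ, Continuous χ ∧ HasCompactSupport χ ∧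
        ∀ z, ‖z‖ < n → χ z = 1 := by
      let f : ContDiffBump (0:ℂ) := ⟨(n:ℝ) + 1, n + 2, by positivity, by linarith⟩
      refine ⟨fun z => ((f z : ℝ) : ℂ), ?_, ?_, ?_⟩
      · exact Complex.continuous_ofReal.comp f.continuous
      · exact f.hasCompactSupport.comp_left (g := fun r : ℝ => (r : ℂ)) (by simp)
      · intro z hz
        have : f z = 1 := f.one_of_mem_closedBall (by
          rw [mem_closedBall_zero_iff]; change ‖z‖ ≤ (n:ℝ) + 1; linarith)
        simp [this]
    have h2 := (integrable_kernel_prod hg hgc hχ hχc).prod_right_ae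
    filter_upwards [h2] with y hy hyn
    simp only [hχ1 y hyn, mul_one] at hy
    exact hy
  rw [← ae_all_iff] at h1
  filter_upwards [h1] with y hy
  obtain ⟨n, hn⟩ := exists_nat_gt ‖y‖
  exact hy n hn

theorem CT_add_ae {g₁ g₂ : ℂ → V} (hg₁ : Integrable g₁) (hc₁ : HasCompactSupport g₁)
    (hg₂ : Integrable g₂) (hc₂ : HasCompactSupport g₂) :
    CT (fun z => g₁ z + g₂ z) =ᵐ[volume] fun z => CT g₁ z + CT g₂ z := by
  filter_upwards [ae_integrable_CK hg₁ hc₁, ae_integrable_CK hg₂ hc₂] with y h1 h2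
  rw [CT_apply', CT_apply', CT_apply', ← integral_add h1 h2]
  congr 1; ext t; rw [smul_add]

/-- Weak inhomogeneous Cauchy-Riemann equation on an open set. -/
def WDbar (U : Set ℂ) (w q : ℂ → V) : Prop :=
  ∀ ζ : ℂ → ℂ, ContDiff ℝ ∞ ζ → HasCompactSupport ζ → tsupport ζ ⊆ U →
    ∫ z, dzb ζ z • w z = - ∫ z, ζ z • q z

/-- A cutoff equal to one on a given closed ball. -/
theorem exists_cutoff (R : ℝ) : ∃ χ : ℂ → ℂ, ContDiff ℝ ∞ χ ∧ HasCompactSupport χ ∧
    ∀ z, ‖z‖ < R → χ =ᶠ[𝓝 z] 1 := by
  have hpos : 0 < max R 1 := by positivity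
  let f : ContDiffBump (0:ℂ) := ⟨max R 1, max R 1 + 1, hpos, by linarith⟩
  refine ⟨fun z => ((f z : ℝ) : ℂ), ?_, ?_, ?_⟩
  · exact Complex.ofRealCLM.contDiff.comp f.contDiff
  · exact f.hasCompactSupport.comp_left (g := fun r : ℝ => (r : ℂ)) (by simp)
  · intro z hz
    have hz' : z ∈ ball (0:ℂ) (max R 1) := by
      rw [mem_ball_zero_iff]; exact lt_of_lt_of_le hz (le_max_left _ _)
    filter_upwards [isOpen_ball.mem_nhds hz'] with y hy
    have : f y = 1 := f.one_of_mem_closedBall (ball_subset_closedBall hy)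
    simp [this]

/-- Representation: a compactly supported integrable weak solution is the Cauchy transform. -/
theorem ae_eq_CT [CompleteSpace V] {v g : ℂ → V} (hv : Integrable v) (hvc : HasCompactSupport v)
    (hg : Integrable g) (hgc : HasCompactSupport g) (h : WDbar univ v g) :
    v =ᵐ[volume] CT g := by
  refine ae_eq_of_integral_contDiff_smul_eq hv.locallyIntegrable (locallyIntegrable_CT hg hgc) ?_
  intro ζ hζ hζc
  set ζc : ℂ → ℂ := fun z => ((ζ z : ℝ) : ℂ) with hζcdef
  have hζcs : ContDiff ℝ ∞ ζc := Complex.ofRealCLM.contDiff.comp hζ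
  have hζcc : HasCompactSupport ζc :=
    hζc.comp_left (g := fun r : ℝ => (r : ℂ)) (by simp)
  have hsm : ∀ (u : ℂ → V), ∫ x, ζ x • u x = ∫ x, ζc x • u x := fun u => by
    congr 1
  rw [hsm, hsm, integral_smul_CT hg hgc hζcs.continuous hζcc]
  -- cutoff
  obtain ⟨R, hR⟩ := (hvc.isCompact.union hgc.isCompact).isBounded.subset_ball 0
  obtain ⟨χ, hχ, hχc, hχ1⟩ := exists_cutoff R
  have hZ : ContDiff ℝ ∞ (CT ζc) := contDiff_CT hζcs hζcc
  have h1 := h (fun z => χ z * CT ζc z) (hχ.mul hZ) (hχc.mul_right) (subset_univ _)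
  have h2 : ∀ z ∈ tsupport v ∪ tsupport g, χ =ᶠ[𝓝 z] 1 := fun z hz => by
    have := hR hz
    rw [mem_ball_zero_iff] at this
    exact hχ1 z this
  have h3 : ∫ z, dzb (fun z => χ z * CT ζc z) z • v z = ∫ z, ζc z • v z := by
    congr 1; ext z
    by_cases hz : z ∈ tsupport v
    · have h4 : (fun z => χ z * CT ζc z) =ᶠ[𝓝 z] CT ζc := by
        filter_upwards [h2 z (Or.inl hz)] with y hy
        rw [hy]; simp
      rw [dzb_congr h4, dzb_CT (hζcs.of_le (by simp)) hζcc]
    · rw [image_eq_zero_of_notMem_tsupport hz]; simp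
  have h5 : ∫ z, (χ z * CT ζc z) • g z = ∫ z, CT ζc z • g z := by
    congr 1; ext z
    by_cases hz : z ∈ tsupport g
    · have h6 := (h2 z (Or.inr hz)).eq_of_nhds
      rw [h6]; simp
    · rw [image_eq_zero_of_notMem_tsupport hz]; simp
  rw [← h3, h1, h5]

/-- the complexified bump function of radii `r`, `2r` at `z0` -/
def cbump (z0 : ℂ) (r : ℝ) (hr : 0 < r) : ℂ → ℂ :=
  fun z => (((⟨r, 2 * r, hr, by linarith⟩ : ContDiffBump z0) z : ℝ) : ℂ)

theorem cbump_contDiff (z0 : ℂ) (r : ℝ) (hr : 0 < r) : ContDiff ℝ ∞ (cbump z0 r hr) :=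
  Complex.ofRealCLM.contDiff.comp (ContDiffBump.contDiff _)

theorem cbump_compact (z0 : ℂ) (r : ℝ) (hr : 0 < r) : HasCompactSupport (cbump z0 r hr) :=
  (ContDiffBump.hasCompactSupport _).comp_left (g := fun r : ℝ => (r : ℂ)) (by simp)

theorem cbump_one (z0 : ℂ) (r : ℝ) (hr : 0 < r) {z : ℂ} (hz : z ∈ closedBall z0 r) :
    cbump z0 r hr z = 1 := by
  have := (⟨r, 2 * r, hr, by linarith⟩ : ContDiffBump z0).one_of_mem_closedBall hz
  simp [cbump, this]

theorem cbump_tsupport (z0 : ℂ) (r : ℝ) (hr : 0 < r) :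
    tsupport (cbump z0 r hr) ⊆ closedBall z0 (2 * r) := by
  have h1 : Function.support (cbump z0 r hr) ⊆ closedBall z0 (2 * r) := by
    intro z hz
    by_contra h
    apply hz
    have : (⟨r, 2 * r, hr, by linarith⟩ : ContDiffBump z0) z = 0 := by
      apply (⟨r, 2 * r, hr, by linarith⟩ : ContDiffBump z0).zero_of_le_dist
      rw [mem_closedBall] at h
      push Not at h
      exact h.le
    simp [cbump, this]
  exact closure_minimal h1 isClosed_closedBall

theorem cbump_norm_le (z0 : ℂ) (r : ℝ) (hr : 0 < r) (z : ℂ) : ‖cbump z0 r hr z‖ ≤ 1 := by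
  rw [cbump, Complex.norm_real, Real.norm_eq_abs, abs_of_nonneg (ContDiffBump.nonneg _)]
  exact ContDiffBump.le_one _

/-- product of a compactly supported continuous function with a locally integrable one -/
theorem integrable_smul_local {φ : ℂ → ℂ} (hφ : Continuous φ) (hφc : HasCompactSupport φ)
    {w : ℂ → V} {K : Set ℂ} (hK : MeasurableSet K) (hw : IntegrableOn w K)
    (hsub : tsupport φ ⊆ K) : Integrable (fun z => φ z • w z) := by
  obtain ⟨M, hM⟩ := hφc.exists_bound_of_continuous hφ
  have h1 : IntegrableOn (fun z => φ z • w z) K :=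
    Integrable.bdd_smul hw M hφ.aestronglyMeasurable.restrict (ae_of_all _ hM)
  rw [← integrableOn_iff_integrable_of_support_subset (s := K)]
  · exact h1
  · intro z hz
    apply hsub
    apply subset_tsupport
    intro h0
    apply hz
    simp [h0]

theorem hasCompactSupport_smul_left {φ : ℂ → ℂ} (hφc : HasCompactSupport φ) (w : ℂ → V) :
    HasCompactSupport (fun z => φ z • w z) := by
  exact hφc.smul_right

theorem tsupport_smul_subset {φ : ℂ → ℂ} (w : ℂ → V) :
    tsupport (fun z => φ z • w z) ⊆ tsupport φ := by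
  apply closure_mono
  intro z hz h0
  apply hz
  simp [h0]

theorem tsupport_dzb_subset {φ : ℂ → V} : tsupport (dzb φ) ⊆ tsupport φ := by
  apply closure_minimal _ (isClosed_tsupport _)
  intro z hz
  by_contra h
  apply hz
  have h1 := notMem_tsupport_iff_eventuallyEq.mp h
  rw [dzb_congr h1]
  exact dzb_const (0 : V) z

/-- multiply the weak equation by a cutoff -/
theorem WDbar.cutoff {U : Set ℂ} {w q : ℂ → V} (h : WDbar U w q) {φ : ℂ → ℂ}
    (hφ : ContDiff ℝ ∞ φ) (hφc : HasCompactSupport φ) {K : Set ℂ} (hK : MeasurableSet K)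
    (hKφ : tsupport φ ⊆ K) (hKU : K ⊆ U) (hw : IntegrableOn w K) (hq : IntegrableOn q K) :
    WDbar univ (fun z => φ z • w z) (fun z => φ z • q z + dzb φ z • w z) := by
  intro ζ hζ hζc _
  have hφζ : tsupport (fun z => φ z * ζ z) ⊆ K :=
    (tsupport_smul_subset (φ := φ) ζ).trans hKφ
  have h1 := h (fun z => φ z * ζ z) (hφ.mul hζ) (hφc.mul_right) (hφζ.trans hKU)
  have hd : Continuous (dzb φ) := (contDiff_dzb (m := 0) hφ (by simp)).continuous
  have hdζ : Continuous (dzb ζ) := (contDiff_dzb (m := 0) hζ (by simp)).continuous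
  have i1 : Integrable (fun z => (φ z * ζ z) • q z) :=
    integrable_smul_local (hφ.continuous.mul hζ.continuous) (hφc.mul_right) hK hq hφζ
  have i2 : Integrable (fun z => (dzb φ z * ζ z) • w z) := by
    refine integrable_smul_local (hd.mul hζ.continuous) ((hasCompactSupport_dzb hφc).mul_right)
      hK hw ?_
    exact (tsupport_smul_subset (φ := dzb φ) ζ).trans (tsupport_dzb_subset.trans hKφ)
  have i3 : Integrable (fun z => (φ z * dzb ζ z) • w z) := by
    refine integrable_smul_local (hφ.continuous.mul hdζ) (hφc.mul_right)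
      hK hw ?_
    exact (tsupport_smul_subset (φ := φ) (dzb ζ)).trans hKφ
  have h2 : ∫ z, dzb (fun z => φ z * ζ z) z • w z =
      (∫ z, (dzb φ z * ζ z) • w z) + ∫ z, (φ z * dzb ζ z) • w z := by
    rw [← integral_add i2 i3]
    congr 1; ext z
    rw [dzb_mul (hφ.differentiable (by simp) z) (hζ.differentiable (by simp) z), add_smul]
  rw [h2] at h1
  have h3 : ∫ z, ζ z • (φ z • q z + dzb φ z • w z) =
      (∫ z, (φ z * ζ z) • q z) + ∫ z, (dzb φ z * ζ z) • w z := by
    rw [← integral_add i1 i2]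
    congr 1; ext z
    rw [smul_add, smul_smul, smul_smul, mul_comm (ζ z), mul_comm (ζ z)]
  rw [h3]
  have h4 : ∫ z, dzb ζ z • φ z • w z = ∫ z, (φ z * dzb ζ z) • w z := by
    congr 1; ext z; rw [smul_smul, mul_comm]
  rw [h4, neg_add, ← h1]
  abel

/-- local representation of weak solutions -/
theorem local_rep [CompleteSpace V] {U : Set ℂ} {w q : ℂ → V} (h : WDbar U w q) {z0 : ℂ} {r : ℝ}
    (hr : 0 < r) (hU : closedBall z0 (2 * r) ⊆ U)
    (hw : IntegrableOn w (closedBall z0 (2 * r))) (hq : IntegrableOn q (closedBall z0 (2 * r))) :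
    w =ᵐ[volume.restrict (ball z0 r)] fun z =>
      CT (fun z => cbump z0 r hr z • q z) z + CT (fun z => dzb (cbump z0 r hr) z • w z) z := by
  have hφ := cbump_contDiff z0 r hr
  have hφc := cbump_compact z0 r hr
  have hd : Continuous (dzb (cbump z0 r hr)) := (contDiff_dzb (m := 0) hφ (by simp)).continuous
  have h1 := h.cutoff hφ hφc measurableSet_closedBall (cbump_tsupport z0 r hr) hU hw hq
  have i1 := integrable_smul_local hφ.continuous hφc measurableSet_closedBall hw
    (cbump_tsupport z0 r hr)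
  have i2 := integrable_smul_local hφ.continuous hφc measurableSet_closedBall hq
    (cbump_tsupport z0 r hr)
  have i3 := integrable_smul_local hd (hasCompactSupport_dzb hφc) measurableSet_closedBall hw
    (tsupport_dzb_subset.trans (cbump_tsupport z0 r hr))
  have c1 := hasCompactSupport_smul_left hφc w
  have c2 := hasCompactSupport_smul_left hφc q
  have c3 := hasCompactSupport_smul_left (hasCompactSupport_dzb hφc) w
  have h2 := ae_eq_CT i1 c1 (i2.add i3) (c2.add c3) h1
  have h3 := CT_add_ae i2 c2 i3 c3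
  have h4 := ae_restrict_of_ae (s := ball z0 r) (h2.trans h3)
  filter_upwards [h4, ae_restrict_mem measurableSet_ball] with z hz hzb
  rw [← hz, cbump_one z0 r hr (ball_subset_closedBall hzb), one_smul]

/-- the holomorphic remainder in `local_rep` -/
theorem holo_remainder [CompleteSpace V] {w : ℂ → V} {z0 : ℂ} {r : ℝ}
    (hr : 0 < r) (hw : IntegrableOn w (closedBall z0 (2 * r))) :
    DifferentiableOn ℂ (CT (fun z => dzb (cbump z0 r hr) z • w z)) (ball z0 r) := by
  have hφ := cbump_contDiff z0 r hr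
  have hφc := cbump_compact z0 r hr
  have hd : Continuous (dzb (cbump z0 r hr)) := (contDiff_dzb (m := 0) hφ (by simp)).continuous
  have i3 := integrable_smul_local hd (hasCompactSupport_dzb hφc) measurableSet_closedBall hw
    (tsupport_dzb_subset.trans (cbump_tsupport z0 r hr))
  intro z hz
  refine (differentiableAt_CT i3 ?_).differentiableWithinAt
  rw [notMem_tsupport_iff_eventuallyEq]
  filter_upwards [isOpen_ball.mem_nhds hz] with y hy
  have : cbump z0 r hr =ᶠ[𝓝 y] fun _ => 1 := by
    filter_upwards [isOpen_ball.mem_nhds hy] with x hx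
    exact cbump_one z0 r hr (ball_subset_closedBall hx)
  rw [dzb_congr this]
  simp

end Pool.Agent.Lib8bb
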