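import Pool.Agent.Lib_MP_8bb00a_gt.CT2

/-!
The Cauchy transform improves integrability: `L² → L⁴` and `L⁴ → C⁰` locally.
-/

open MeasureTheory Complex Set Metric Filter Topology
open scoped Real ENNReal ComplexConjugate Convolution

noncomputable section

namespace Pool.Agent.Lib8bb

variable {V W : Type*} [NormedAddCommGroup V] [NormedSpace ℂ V]
  [NormedAddCommGroup W] [NormedSpace ℂ W]

theorem lintegral_CS {α : Type*} [MeasurableSpace α] {μ : Measure α} {f g : α → ℝ≥0∞}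
    (hf : AEMeasurable f μ) (hg : AEMeasurable g μ) :
    (∫⁻ a, f a * g a ∂μ) ^ 2 ≤ (∫⁻ a, f a ^ 2 ∂μ) * (∫⁻ a, g a ^ 2 ∂μ) := by
  have h := ENNReal.lintegral_mul_le_Lp_mul_Lq μ Real.HolderConjugate.two_two hf hg
  have h2 : (∫⁻ a, f a * g a ∂μ) ≤
      (∫⁻ a, f a ^ 2 ∂μ) ^ (1/2:ℝ) * (∫⁻ a, g a ^ 2 ∂μ) ^ (1/2:ℝ) := by
    simpa [ENNReal.rpow_two] using h
  calc (∫⁻ a, f a * g a ∂μ) ^ 2
      ≤ ((∫⁻ a, f a ^ 2 ∂μ) ^ (1/2:ℝ) * (∫⁻ a, g a ^ 2 ∂μ) ^ (1/2:ℝ)) ^ 2 := by gcongr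
    _ = _ := by
      rw [mul_pow, ← ENNReal.rpow_two, ← ENNReal.rpow_two, ← ENNReal.rpow_mul,
        ← ENNReal.rpow_mul]
      norm_num

/-- truncated cube root of the Cauchy kernel -/
def kk (ρ : ℝ) (z : ℂ) : ℝ≥0∞ := (closedBall (0:ℂ) ρ).indicator (fun z => ‖CK z‖ₑ ^ (1/3:ℝ)) z

theorem measurable_kk (ρ : ℝ) : Measurable (kk ρ) :=
  (measurable_CK.enorm.pow_const _).indicator measurableSet_closedBall

theorem kk_cube {ρ : ℝ} {z : ℂ} (hz : ‖z‖ ≤ ρ) : kk ρ z ^ 3 = ‖CK z‖ₑ := by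
  have : z ∈ closedBall (0:ℂ) ρ := by simpa using hz
  rw [kk, indicator_of_mem this, ← ENNReal.rpow_natCast, ← ENNReal.rpow_mul]
  norm_num

theorem lintegral_kk_lt_top (ρ : ℝ) : ∫⁻ z, kk ρ z ^ 4 < ∞ := by
  have h1 : IntegrableOn (fun z : ℂ => ‖CK z‖ ^ (4/3:ℝ)) (ball 0 (ρ + 1)) volume := by
    refine integrableOn_ball_of_norm_le_rpow (C := π⁻¹ ^ (4/3:ℝ)) (α := 4/3) ?_ ?_ ?_ ?_
    · rw [Complex.finrank_real_complex]; norm_num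
    · rw [Complex.finrank_real_complex]; norm_num
    · refine ae_of_all _ fun x => ?_
      rw [Real.norm_of_nonneg (by positivity), norm_CK, Real.mul_rpow (by positivity) (by positivity),
        Real.inv_rpow (norm_nonneg _), Real.rpow_neg (norm_nonneg _)]
    · exact (measurable_CK.norm.pow_const _).aestronglyMeasurable
  have h2 : ∫⁻ z in ball (0:ℂ) (ρ + 1), ‖‖CK z‖ ^ (4/3:ℝ)‖ₑ < ∞ := h1.2
  refine lt_of_le_of_lt ?_ h2
  rw [← lintegral_indicator measurableSet_ball]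
  refine lintegral_mono fun z => ?_
  by_cases hz : z ∈ closedBall (0:ℂ) ρ
  · have hz' : z ∈ ball (0:ℂ) (ρ + 1) := by
      rw [mem_closedBall_zero_iff] at hz; rw [mem_ball_zero_iff]; linarith
    rw [indicator_of_mem hz', kk, indicator_of_mem hz, ← ENNReal.rpow_natCast,
      ← ENNReal.rpow_mul, ← enorm_norm (CK z), Real.enorm_rpow_of_nonneg (by positivity) (by norm_num)]
    norm_num
  · rw [kk, indicator_of_notMem hz]; simp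

theorem enorm_CT_le {g : ℂ → V} {z0 : ℂ} {ρ : ℝ} (hg0 : ∀ t, t ∉ closedBall z0 ρ → g t = 0)
    {x : ℂ} (hx : x ∈ closedBall z0 ρ) :
    ‖CT g x‖ₑ ≤ ∫⁻ t, kk (2 * ρ) (x - t) ^ 3 * ‖g t‖ₑ := by
  rw [CT_apply']
  refine (enorm_integral_le_lintegral_enorm _).trans (lintegral_mono fun t => ?_)
  by_cases ht : t ∈ closedBall z0 ρ
  · have h1 : ‖x - t‖ ≤ 2 * ρ := by
      rw [← dist_eq_norm]
      calc dist x t ≤ dist x z0 + dist t z0 := dist_triangle_right _ _ _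
        _ ≤ ρ + ρ := add_le_add hx ht
        _ = 2 * ρ := by ring
    rw [kk_cube h1, enorm_smul]
  · rw [hg0 t ht]; simp

omit [NormedSpace ℂ V] in
theorem kk_bound4 (ρ : ℝ) : ∃ C : ℝ≥0∞, C ≠ ∞ ∧ ∀ g : ℂ → V,
    AEStronglyMeasurable g volume →
    ∀ x, (∫⁻ t, kk (2 * ρ) (x - t) ^ 3 * ‖g t‖ₑ) ^ 4 ≤ C * ∫⁻ t, ‖g t‖ₑ ^ 4 := by
  set A := ∫⁻ z, kk (2 * ρ) z ^ 4 with hA
  have hAtop : A < ∞ := lintegral_kk_lt_top _
  refine ⟨A ^ 3, ENNReal.pow_ne_top hAtop.ne, fun g hg x => ?_⟩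
  have hk : Measurable (fun t => kk (2 * ρ) (x - t)) :=
    (measurable_kk _).comp (measurable_const.sub measurable_id)
  have hAx : ∫⁻ t, kk (2 * ρ) (x - t) ^ 4 = A := by
    rw [hA, ← lintegral_sub_left_eq_self _ x]
    simp
  have h2 : (∫⁻ t, kk (2 * ρ) (x - t) ^ 3 * ‖g t‖ₑ) ^ 2 ≤
      A * ∫⁻ t, (kk (2 * ρ) (x - t) * ‖g t‖ₑ) ^ 2 := by
    have := lintegral_CS (μ := volume) (f := fun t => kk (2 * ρ) (x - t) ^ 2)
      (g := fun t => kk (2 * ρ) (x - t) * ‖g t‖ₑ) (hk.pow_const 2).aemeasurable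
      (hk.aemeasurable.mul hg.enorm)
    calc (∫⁻ t, kk (2 * ρ) (x - t) ^ 3 * ‖g t‖ₑ) ^ 2
        = (∫⁻ t, kk (2 * ρ) (x - t) ^ 2 * (kk (2 * ρ) (x - t) * ‖g t‖ₑ)) ^ 2 := by
          congr 2; ext t; ring
      _ ≤ (∫⁻ t, (kk (2 * ρ) (x - t) ^ 2) ^ 2) * _ := this
      _ = _ := by
          rw [← hAx]; congr 2; ext t; ring
  have h3 : (∫⁻ t, (kk (2 * ρ) (x - t) * ‖g t‖ₑ) ^ 2) ^ 2 ≤ A * ∫⁻ t, ‖g t‖ₑ ^ 4 := by
    have := lintegral_CS (μ := volume) (f := fun t => kk (2 * ρ) (x - t) ^ 2)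
      (g := fun t => ‖g t‖ₑ ^ 2) (hk.pow_const 2).aemeasurable (hg.enorm.pow_const 2)
    calc (∫⁻ t, (kk (2 * ρ) (x - t) * ‖g t‖ₑ) ^ 2) ^ 2
        = (∫⁻ t, kk (2 * ρ) (x - t) ^ 2 * ‖g t‖ₑ ^ 2) ^ 2 := by
          congr 2; ext t; ring
      _ ≤ _ := this
      _ = _ := by
          rw [← hAx]; congr 2
          · ext t; ring
          · ext t; ring
  calc (∫⁻ t, kk (2 * ρ) (x - t) ^ 3 * ‖g t‖ₑ) ^ 4
      = ((∫⁻ t, kk (2 * ρ) (x - t) ^ 3 * ‖g t‖ₑ) ^ 2) ^ 2 := by ring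
    _ ≤ (A * ∫⁻ t, (kk (2 * ρ) (x - t) * ‖g t‖ₑ) ^ 2) ^ 2 := by gcongr
    _ = A ^ 2 * (∫⁻ t, (kk (2 * ρ) (x - t) * ‖g t‖ₑ) ^ 2) ^ 2 := by ring
    _ ≤ A ^ 2 * (A * ∫⁻ t, ‖g t‖ₑ ^ 4) := by gcongr
    _ = A ^ 3 * ∫⁻ t, ‖g t‖ₑ ^ 4 := by ring

/-- `L⁴` control gives a sup bound. -/
theorem CT_bound4 (z0 : ℂ) (ρ : ℝ) : ∃ C : ℝ≥0∞, C ≠ ∞ ∧ ∀ g : ℂ → V,
    AEStronglyMeasurable g volume → (∀ t, t ∉ closedBall z0 ρ → g t = 0) →
    ∀ x ∈ closedBall z0 ρ, ‖CT g x‖ₑ ^ 4 ≤ C * ∫⁻ t, ‖g t‖ₑ ^ 4 := by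
  obtain ⟨C, hC, hb⟩ := kk_bound4 (V := V) ρ
  refine ⟨C, hC, fun g hg hg0 x hx => le_trans ?_ (hb g hg x)⟩
  have h1 := enorm_CT_le hg0 hx
  gcongr

theorem integrable_CK_L4 {g : ℂ → V} (hg : AEStronglyMeasurable g volume)
    (h4 : ∫⁻ t, ‖g t‖ₑ ^ 4 < ∞) {z0 : ℂ} {ρ : ℝ}
    (hg0 : ∀ t, t ∉ closedBall z0 ρ → g t = 0) {x : ℂ} (hx : x ∈ closedBall z0 ρ) :
    Integrable (fun t => CK (x - t) • g t) := by
  obtain ⟨C, hC, hb⟩ := kk_bound4 (V := V) ρ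
  refine ⟨((measurable_CK.comp (measurable_const.sub measurable_id)).aestronglyMeasurable).smul hg, ?_⟩
  have h1 : ∫⁻ t, ‖CK (x - t) • g t‖ₑ ≤ ∫⁻ t, kk (2 * ρ) (x - t) ^ 3 * ‖g t‖ₑ := by
    refine lintegral_mono fun t => ?_
    by_cases ht : t ∈ closedBall z0 ρ
    · have h1 : ‖x - t‖ ≤ 2 * ρ := by
        rw [← dist_eq_norm]
        calc dist x t ≤ dist x z0 + dist t z0 := dist_triangle_right _ _ _
          _ ≤ ρ + ρ := add_le_add hx ht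
          _ = 2 * ρ := by ring
      rw [kk_cube h1, enorm_smul]
    · rw [hg0 t ht]; simp
  refine lt_of_le_of_lt h1 ?_
  have h2 := hb g hg x
  have h3 : C * ∫⁻ t, ‖g t‖ₑ ^ 4 < ∞ := ENNReal.mul_lt_top hC.lt_top h4
  have h5 := lt_of_le_of_lt h2 h3
  exact (ENNReal.pow_lt_top_iff.mp h5).resolve_right (by norm_num)

/-- `L² → L⁴`. -/
theorem CT_L2_L4 {g : ℂ → V} (hg : AEStronglyMeasurable g volume) {z0 : ℂ} {ρ : ℝ}
    (hg0 : ∀ t, t ∉ closedBall z0 ρ → g t = 0) (h2 : ∫⁻ t, ‖g t‖ₑ ^ 2 < ∞) :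
    ∫⁻ x in closedBall z0 ρ, ‖CT g x‖ₑ ^ 4 < ∞ := by
  set A := ∫⁻ z, kk (2 * ρ) z ^ 4 with hA
  set B := ∫⁻ t, ‖g t‖ₑ ^ 2 with hB
  have hAtop : A < ∞ := lintegral_kk_lt_top _
  have hk : ∀ x, Measurable (fun t => kk (2 * ρ) (x - t)) := fun x =>
    (measurable_kk _).comp (measurable_const.sub measurable_id)
  have hAx : ∀ x, ∫⁻ t, kk (2 * ρ) (x - t) ^ 4 = A := fun x => by
    rw [hA, ← lintegral_sub_left_eq_self _ x]
    simp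
  have hAt : ∀ t, ∫⁻ x, kk (2 * ρ) (x - t) ^ 4 = A := fun t => by
    rw [hA]
    exact lintegral_sub_right_eq_self (fun x => kk (2 * ρ) x ^ 4) t
  have key : ∀ x ∈ closedBall z0 ρ, ‖CT g x‖ₑ ^ 4 ≤
      A ^ 2 * B * ∫⁻ t, kk (2 * ρ) (x - t) ^ 4 * ‖g t‖ₑ ^ 2 := by
    intro x hx
    have h1 := enorm_CT_le hg0 hx
    have h3 : (∫⁻ t, kk (2 * ρ) (x - t) ^ 3 * ‖g t‖ₑ) ^ 2 ≤
        A * ∫⁻ t, (kk (2 * ρ) (x - t) * ‖g t‖ₑ) ^ 2 := by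
      have := lintegral_CS (μ := volume) (f := fun t => kk (2 * ρ) (x - t) ^ 2)
        (g := fun t => kk (2 * ρ) (x - t) * ‖g t‖ₑ) ((hk x).pow_const 2).aemeasurable
        ((hk x).aemeasurable.mul hg.enorm)
      calc (∫⁻ t, kk (2 * ρ) (x - t) ^ 3 * ‖g t‖ₑ) ^ 2
          = (∫⁻ t, kk (2 * ρ) (x - t) ^ 2 * (kk (2 * ρ) (x - t) * ‖g t‖ₑ)) ^ 2 := by
            congr 2; ext t; ring
        _ ≤ (∫⁻ t, (kk (2 * ρ) (x - t) ^ 2) ^ 2) * _ := this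
        _ = _ := by
            rw [← hAx x]; congr 2; ext t; ring
    have h4 : (∫⁻ t, (kk (2 * ρ) (x - t) * ‖g t‖ₑ) ^ 2) ^ 2 ≤
        (∫⁻ t, kk (2 * ρ) (x - t) ^ 4 * ‖g t‖ₑ ^ 2) * B := by
      have := lintegral_CS (μ := volume) (f := fun t => kk (2 * ρ) (x - t) ^ 2 * ‖g t‖ₑ)
        (g := fun t => ‖g t‖ₑ) (((hk x).pow_const 2).aemeasurable.mul hg.enorm) hg.enorm
      calc (∫⁻ t, (kk (2 * ρ) (x - t) * ‖g t‖ₑ) ^ 2) ^ 2
          = (∫⁻ t, (kk (2 * ρ) (x - t) ^ 2 * ‖g t‖ₑ) * ‖g t‖ₑ) ^ 2 := by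
            congr 2; ext t; ring
        _ ≤ _ := this
        _ = _ := by
            congr 2; ext t; ring
    calc ‖CT g x‖ₑ ^ 4 = (‖CT g x‖ₑ ^ 2) ^ 2 := by ring
      _ ≤ ((∫⁻ t, kk (2 * ρ) (x - t) ^ 3 * ‖g t‖ₑ) ^ 2) ^ 2 := by gcongr
      _ ≤ (A * ∫⁻ t, (kk (2 * ρ) (x - t) * ‖g t‖ₑ) ^ 2) ^ 2 := by gcongr
      _ = A ^ 2 * (∫⁻ t, (kk (2 * ρ) (x - t) * ‖g t‖ₑ) ^ 2) ^ 2 := by ring
      _ ≤ A ^ 2 * ((∫⁻ t, kk (2 * ρ) (x - t) ^ 4 * ‖g t‖ₑ ^ 2) * B) := by gcongr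
      _ = _ := by ring
  have hfin : A ^ 2 * B * (A * B) < ∞ := by
    have hB' : B < ∞ := h2
    refine ENNReal.mul_lt_top (ENNReal.mul_lt_top (ENNReal.pow_lt_top hAtop) hB')
      (ENNReal.mul_lt_top hAtop hB')
  refine lt_of_le_of_lt ?_ hfin
  calc ∫⁻ x in closedBall z0 ρ, ‖CT g x‖ₑ ^ 4
      ≤ ∫⁻ x in closedBall z0 ρ, A ^ 2 * B * ∫⁻ t, kk (2 * ρ) (x - t) ^ 4 * ‖g t‖ₑ ^ 2 :=
        setLIntegral_mono' measurableSet_closedBall key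
    _ ≤ ∫⁻ x, A ^ 2 * B * ∫⁻ t, kk (2 * ρ) (x - t) ^ 4 * ‖g t‖ₑ ^ 2 := setLIntegral_le_lintegral _ _
    _ = A ^ 2 * B * ∫⁻ x, ∫⁻ t, kk (2 * ρ) (x - t) ^ 4 * ‖g t‖ₑ ^ 2 := by
        rw [lintegral_const_mul']
        exact ENNReal.mul_ne_top (ENNReal.pow_ne_top hAtop.ne) h2.ne
    _ = A ^ 2 * B * ∫⁻ t, ∫⁻ x, kk (2 * ρ) (x - t) ^ 4 * ‖g t‖ₑ ^ 2 := by
        rw [lintegral_lintegral_swap]
        refine AEMeasurable.mul ?_ ?_
        · exact (((measurable_kk _).comp (measurable_fst.sub measurable_snd)).pow_const 4).aemeasurable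
        · exact ((hg.enorm.comp_quasiMeasurePreserving
            Measure.quasiMeasurePreserving_snd).pow_const 2)
    _ = A ^ 2 * B * (A * B) := by
        congr 1
        rw [hB, ← lintegral_const_mul'' A (hg.enorm.pow_const 2)]
        congr 1; ext t
        rw [lintegral_mul_const, hAt t]
        exact ((measurable_kk _).comp (measurable_id.sub measurable_const)).pow_const 4

/-- `L⁴ → C⁰`. -/
theorem CT_L4_C0 [CompleteSpace V] {g : ℂ → V} (hg : MemLp g 4 volume) {z0 : ℂ} {ρ : ℝ} (hρ : 0 < ρ)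
    (hg0 : ∀ t, t ∉ closedBall z0 ρ → g t = 0) :
    ContinuousOn (CT g) (closedBall z0 ρ) := by
  obtain ⟨C, hC, hCb⟩ := CT_bound4 (V := V) z0 (2 * ρ)
  refine continuousOn_of_uniform_approx_of_continuousOn fun u hu => ?_
  obtain ⟨ε, hε, hεu⟩ := Metric.mem_uniformity_dist.mp hu
  -- choose δ with C * δ^4 < ε^4
  set δ : ℝ := ε / (1 + C.toReal) with hδdef
  have hCr : 0 ≤ C.toReal := ENNReal.toReal_nonneg
  have hδ : 0 < δ := by positivity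
  have hCδ : C.toReal * δ ^ 4 < ε ^ 4 := by
    have h1 : ε = δ * (1 + C.toReal) := by rw [hδdef]; field_simp
    rw [h1, mul_pow]
    have h2 : C.toReal < (1 + C.toReal) ^ 4 := by nlinarith [sq_nonneg C.toReal, pow_nonneg hCr 3, pow_nonneg hCr 4, pow_nonneg hCr 2]
    have h3 : 0 < δ ^ 4 := by positivity
    nlinarith
  obtain ⟨g', hg'c, hg'n, hg'cont, hg'm⟩ := hg.exists_hasCompactSupport_eLpNorm_sub_le
    (by norm_num : (4:ℝ≥0∞) ≠ ∞) (ε := ENNReal.ofReal δ) (by simpa using hδ)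
  set φ := cbump z0 ρ hρ with hφdef
  set g'' : ℂ → V := fun z => φ z • g' z with hg''
  have hg''c : Continuous g'' := (cbump_contDiff z0 ρ hρ).continuous.smul hg'cont
  have hg''s : HasCompactSupport g'' := hasCompactSupport_smul_left (cbump_compact z0 ρ hρ) g'
  have hg''0 : ∀ t, t ∉ closedBall z0 (2 * ρ) → g'' t = 0 := by
    intro t ht
    have : φ t = 0 := image_eq_zero_of_notMem_tsupport (fun h => ht (cbump_tsupport z0 ρ hρ h))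
    simp [hg'', this]
  have hgφ : ∀ t, g t = φ t • g t := by
    intro t
    by_cases ht : t ∈ closedBall z0 ρ
    · rw [hφdef, cbump_one z0 ρ hρ ht, one_smul]
    · rw [hg0 t ht, smul_zero]
  have hsub : closedBall z0 ρ ⊆ closedBall z0 (2 * ρ) := closedBall_subset_closedBall (by linarith)
  have hg0' : ∀ t, t ∉ closedBall z0 (2 * ρ) → g t = 0 := fun t ht => hg0 t (fun h => ht (hsub h))
  refine ⟨CT g'', (continuous_CT hg''c hg''s).continuousOn, fun x hx => hεu ?_⟩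
  have hx' := hsub hx
  -- L4 norms
  have hL4 : ∀ f : ℂ → V, ∫⁻ t, ‖f t‖ₑ ^ 4 = eLpNorm f 4 volume ^ 4 := by
    intro f
    have h1 : eLpNorm f 4 volume = eLpNorm' f 4 volume := by
      rw [eLpNorm_eq_eLpNorm' (by norm_num) (by norm_num)]; norm_num
    rw [h1]
    have := lintegral_rpow_enorm_eq_rpow_eLpNorm' (μ := volume) (f := f) (q := 4) (by norm_num)
    have h5 : ∀ y : ℝ≥0∞, y ^ (4:ℝ) = y ^ 4 := fun y => by
      rw [← ENNReal.rpow_natCast]; norm_num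
    simp only [h5] at this
    exact this
  have hgL : ∫⁻ t, ‖g t‖ₑ ^ 4 < ∞ := by rw [hL4]; exact ENNReal.pow_lt_top hg.2
  have hg''L : ∫⁻ t, ‖g'' t‖ₑ ^ 4 < ∞ := by
    rw [hL4]; exact ENNReal.pow_lt_top (hg''c.memLp_of_hasCompactSupport hg''s).2
  have hi1 := integrable_CK_L4 hg.1 hgL hg0' hx'
  have hi2 := integrable_CK_L4 hg''c.aestronglyMeasurable hg''L hg''0 hx'
  have hdiff : CT g x - CT g'' x = CT (fun t => g t - g'' t) x := by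
    rw [CT_apply', CT_apply', CT_apply', ← integral_sub hi1 hi2]
    congr 1; ext t; rw [smul_sub]
  have hbd := hCb (fun t => g t - g'' t) (hg.1.sub hg''c.aestronglyMeasurable)
    (fun t ht => by rw [hg0' t ht, hg''0 t ht, sub_zero]) x hx'
  have hle : ∫⁻ t, ‖g t - g'' t‖ₑ ^ 4 ≤ ENNReal.ofReal δ ^ 4 := by
    calc ∫⁻ t, ‖g t - g'' t‖ₑ ^ 4 ≤ ∫⁻ t, ‖(g - g') t‖ₑ ^ 4 := by
          refine lintegral_mono fun t => ?_
          have h1 : g t - g'' t = φ t • (g - g') t := by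
            simp only [hg'', Pi.sub_apply, smul_sub]; rw [← hgφ]
          have h2 : ‖g t - g'' t‖ₑ ≤ ‖(g - g') t‖ₑ := by
            rw [h1, enorm_smul]
            have : ‖φ t‖ₑ ≤ 1 := by
              rw [← ofReal_norm]
              exact ENNReal.ofReal_le_one.mpr (cbump_norm_le z0 ρ hρ t)
            calc ‖φ t‖ₑ * ‖(g - g') t‖ₑ ≤ 1 * ‖(g - g') t‖ₑ := by gcongr
              _ = _ := one_mul _
          gcongr
      _ = eLpNorm (g - g') 4 volume ^ 4 := hL4 _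
      _ ≤ ENNReal.ofReal δ ^ 4 := by gcongr
  rw [← hdiff] at hbd
  have hfin : ‖CT g x - CT g'' x‖ₑ ^ 4 < ENNReal.ofReal ε ^ 4 := by
    refine lt_of_le_of_lt (hbd.trans (mul_le_mul_right hle C)) ?_
    rw [← ENNReal.ofReal_toReal hC, ← ENNReal.ofReal_pow hδ.le, ← ENNReal.ofReal_mul hCr,
      ← ENNReal.ofReal_pow hε.le]
    exact (ENNReal.ofReal_lt_ofReal_iff (by positivity)).mpr hCδ
  have h5 : ‖CT g x - CT g'' x‖ₑ < ENNReal.ofReal ε := lt_of_pow_lt_pow_left' 4 hfin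
  rw [dist_eq_norm]
  rw [← ofReal_norm] at h5
  exact (ENNReal.ofReal_lt_ofReal_iff hε).mp h5

end Pool.Agent.Lib8bb
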