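import Pool.Agent.Lib_MP_8bb00a_gt.CT3

/-!
Continuous functions with continuous weak Wirtinger derivatives are continuously differentiable.
-/

open MeasureTheory Complex Set Metric Filter Topology
open scoped Real ContDiff ComplexConjugate Convolution

noncomputable section

namespace Pool.Agent.Lib8bb

variable {V W : Type*} [NormedAddCommGroup V] [NormedSpace ℂ V]
  [NormedAddCommGroup W] [NormedSpace ℂ W]

/-- Weak equation `∂ w = q` on an open set. -/
def WDz (U : Set ℂ) (w q : ℂ → V) : Prop :=
  ∀ ζ : ℂ → ℂ, ContDiff ℝ ∞ ζ → HasCompactSupport ζ → tsupport ζ ⊆ U →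
    ∫ z, dz ζ z • w z = - ∫ z, ζ z • q z

/-- The real-linear map with Wirtinger components `a`, `b`. -/
def mkL (a b : V) : ℂ →L[ℝ] V :=
  (ContinuousLinearMap.id ℝ ℂ).smulRight a + (Complex.conjCLE : ℂ →L[ℝ] ℂ).smulRight b

theorem mkL_apply (a b : V) (v : ℂ) : mkL a b v = v • a + conj v • b := by
  simp [mkL]

theorem mkL_norm_sub_le (a b a' b' : V) : ‖mkL a b - mkL a' b'‖ ≤ ‖a - a'‖ + ‖b - b'‖ := by
  refine ContinuousLinearMap.opNorm_le_bound _ (by positivity) fun v => ?_
  have : (mkL a b - mkL a' b') v = v • (a - a') + conj v • (b - b') := by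
    rw [sub_apply, mkL_apply, mkL_apply]; module
  rw [this]
  calc ‖v • (a - a') + conj v • (b - b')‖ ≤ ‖v • (a - a')‖ + ‖conj v • (b - b')‖ := norm_add_le _ _
    _ = (‖a - a'‖ + ‖b - b'‖) * ‖v‖ := by
      rw [norm_smul, norm_smul, RCLike.norm_conj]; ring

theorem dz_of_hasFDerivAt_mkL {f : ℂ → V} {z : ℂ} {a b : V} (h : HasFDerivAt f (mkL a b) z) :
    dz f z = a := by
  rw [HasFDerivAt.dz_eq h, mkL_apply, mkL_apply]
  simp only [map_one, conj_I]
  match_scalars
  · linear_combination (-1/2) * I_mul_I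
  · linear_combination (1/2) * I_mul_I

theorem dzb_of_hasFDerivAt_mkL {f : ℂ → V} {z : ℂ} {a b : V} (h : HasFDerivAt f (mkL a b) z) :
    dzb f z = b := by
  rw [HasFDerivAt.dzb_eq h, mkL_apply, mkL_apply]
  simp only [map_one, conj_I]
  match_scalars
  · linear_combination (1/2) * I_mul_I
  · linear_combination (-1/2) * I_mul_I

theorem hasFDerivAt_mkL {f : ℂ → V} {z : ℂ} (h : DifferentiableAt ℝ f z) :
    HasFDerivAt f (mkL (dz f z) (dzb f z)) z := by
  have : fderiv ℝ f z = mkL (dz f z) (dzb f z) := by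
    ext v
    · rw [fderiv_apply_eq, mkL_apply]
  rw [← this]; exact h.hasFDerivAt

/-- mollification step -/
theorem moll_step [CompleteSpace V] {U : Set ℂ} {w q₁ q₂ : ℂ → V}
    (hw : ContinuousOn w U) (hq₁ : ContinuousOn q₁ U)
    (hq₂ : ContinuousOn q₂ U) (h1 : WDbar U w q₁) (h2 : WDz U w q₂) {z0 : ℂ} {r : ℝ} (hr : 0 < r)
    (hU' : closedBall z0 (2 * r) ⊆ U) (φ : ContDiffBump (0:ℂ)) (hφ : φ.rOut ≤ r) {x : ℂ}
    (hx : x ∈ ball z0 r) :
    HasFDerivAt (φ.normed volume ⋆[ContinuousLinearMap.lsmul ℝ ℝ, volume]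
        (closedBall z0 (2 * r)).indicator w)
      (mkL ((φ.normed volume ⋆[ContinuousLinearMap.lsmul ℝ ℝ, volume]
        (closedBall z0 (2 * r)).indicator q₂) x)
        ((φ.normed volume ⋆[ContinuousLinearMap.lsmul ℝ ℝ, volume]
        (closedBall z0 (2 * r)).indicator q₁) x)) x := by
  set B := closedBall z0 (2 * r) with hB
  have hcomp : IsCompact B := isCompact_closedBall _ _
  have hint : ∀ {f : ℂ → V}, ContinuousOn f U → Integrable (B.indicator f) := fun {f} hf =>
    (integrable_indicator_iff measurableSet_closedBall).mpr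
      ((hf.mono hU').integrableOn_compact hcomp)
  have hiw := hint hw
  have hφs : ContDiff ℝ ∞ (φ.normed (volume : Measure ℂ)) := φ.contDiff_normed
  have hφc : HasCompactSupport (φ.normed (volume : Measure ℂ)) := φ.hasCompactSupport_normed
  have hd := hφc.hasFDerivAt_convolution_left (ContinuousLinearMap.lsmul ℝ ℝ : ℝ →L[ℝ] V →L[ℝ] V)
    (hφs.of_le (by simp) : ContDiff ℝ 1 _) hiw.locallyIntegrable x
  refine hd.congr_fderiv ?_
  -- test function
  set ζ : ℂ → ℂ := fun t => ((φ.normed (volume : Measure ℂ) (x - t) : ℝ) : ℂ) with hζdef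
  have hζ : ContDiff ℝ ∞ ζ :=
    Complex.ofRealCLM.contDiff.comp (hφs.comp (contDiff_const.sub contDiff_id))
  have hsupp : ∀ t, t ∉ closedBall x φ.rOut → φ.normed (volume : Measure ℂ) (x - t) = 0 := by
    intro t ht
    have h3 : x - t ∉ Function.support (φ.normed (volume : Measure ℂ)) := by
      rw [φ.support_normed_eq]
      intro h4
      apply ht
      rw [mem_ball_zero_iff] at h4
      rw [mem_closedBall, dist_comm, dist_eq_norm]; exact h4.le
    simpa using h3
  have hζsub : tsupport ζ ⊆ closedBall x φ.rOut := by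
    refine closure_minimal ?_ isClosed_closedBall
    intro t ht
    by_contra h3
    apply ht
    simp [hζdef, hsupp t h3]
  have hζc : HasCompactSupport ζ :=
    (isCompact_closedBall x φ.rOut).of_isClosed_subset (isClosed_tsupport _) hζsub
  have hxB : closedBall x φ.rOut ⊆ B := by
    intro t ht
    rw [mem_closedBall] at ht ⊢
    rw [mem_ball] at hx
    calc dist t z0 ≤ dist t x + dist x z0 := dist_triangle _ _ _
      _ ≤ r + r := add_le_add (ht.trans hφ) hx.le
      _ = 2 * r := by ring
  have hζU : tsupport ζ ⊆ U := hζsub.trans (hxB.trans hU')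
  have e1 := h1 ζ hζ hζc hζU
  have e2 := h2 ζ hζ hζc hζU
  -- convolution with the indicator versus integral against the test function
  have hconv : ∀ f : ℂ → V, (φ.normed volume ⋆[ContinuousLinearMap.lsmul ℝ ℝ, volume]
        B.indicator f) x = ∫ t, ζ t • f t := by
    intro f
    rw [convolution_eq_swap]
    congr 1; ext t
    simp only [ContinuousLinearMap.lsmul_apply]
    by_cases ht : t ∈ closedBall x φ.rOut
    · rw [indicator_of_mem (hxB ht)]; simp only [hζdef, Complex.coe_smul]
    · rw [hsupp t ht]; simp [hζdef, hsupp t ht]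
  rw [hconv, hconv]
  have hζd : Differentiable ℝ ζ := hζ.differentiable (by simp)
  have hφd : Differentiable ℝ (φ.normed (volume : Measure ℂ)) := hφs.differentiable (by simp)
  have hfd : ∀ t v, ((fderiv ℝ (φ.normed (volume : Measure ℂ)) (x - t) v : ℝ) : ℂ) =
      - fderiv ℝ ζ t v := by
    intro t v
    have h3 : HasFDerivAt (fun t : ℂ => x - t) (-(ContinuousLinearMap.id ℝ ℂ)) t :=
      (hasFDerivAt_id t).const_sub x
    have h4 := (hφd (x - t)).hasFDerivAt.comp t h3
    have h5 := (Complex.ofRealCLM.hasFDerivAt).comp t h4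
    have h6 : HasFDerivAt ζ _ t := h5
    rw [h6.fderiv]
    simp
  have hconvex := ((hφc.fderiv ℝ).convolutionExists_left
    ((ContinuousLinearMap.lsmul ℝ ℝ : ℝ →L[ℝ] V →L[ℝ] V).precompL ℂ)
    (hφs.continuous_fderiv (by simp)) hiw.locallyIntegrable x)
  have hz0 : ∀ t, t ∉ closedBall x φ.rOut → ζ =ᶠ[𝓝 t] 0 := fun t ht =>
    notMem_tsupport_iff_eventuallyEq.mp (fun h => ht (hζsub h))
  have hdz : Continuous (dz ζ) := (contDiff_dz (m := 0) hζ (by simp)).continuous
  have hdzb : Continuous (dzb ζ) := (contDiff_dzb (m := 0) hζ (by simp)).continuous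
  have i1 : Integrable (fun t => dz ζ t • w t) := by
    refine integrable_smul_local hdz (hasCompactSupport_dz hζc) measurableSet_closedBall
      ((hw.mono hU').integrableOn_compact hcomp) ?_
    refine closure_minimal ?_ isClosed_closedBall
    intro t ht
    by_contra h3
    apply ht
    rw [dz_congr (hz0 t (fun h => h3 (hxB h)))]
    exact dz_const (0:ℂ) t
  have i2 : Integrable (fun t => dzb ζ t • w t) :=
    integrable_smul_local hdzb (hasCompactSupport_dzb hζc) measurableSet_closedBall
      ((hw.mono hU').integrableOn_compact hcomp) (tsupport_dzb_subset.trans (hζsub.trans hxB))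
  ext v
  · rw [mkL_apply]
    have h3 : ((fderiv ℝ (φ.normed volume)) ⋆[(ContinuousLinearMap.lsmul ℝ ℝ).precompL ℂ, volume]
        B.indicator w) x v = ∫ t, (fderiv ℝ (φ.normed volume) t v) • B.indicator w (x - t) := by
      rw [convolution_def]
      rw [ContinuousLinearMap.integral_apply hconvex]
      rfl
    rw [h3]
    have h4 : ∫ t, (fderiv ℝ (φ.normed volume) t v) • B.indicator w (x - t) =
        ∫ t, (fderiv ℝ (φ.normed volume) (x - t) v) • B.indicator w t := by
      rw [← integral_sub_left_eq_self _ volume x]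
      simp
    rw [h4]
    have h5 : ∀ t, (fderiv ℝ (φ.normed volume) (x - t) v) • B.indicator w t =
        - (v • (dz ζ t • w t) + conj v • (dzb ζ t • w t)) := by
      intro t
      by_cases ht : t ∈ closedBall x φ.rOut
      · rw [indicator_of_mem (hxB ht), ← Complex.coe_smul, hfd, fderiv_apply_eq]
        simp only [smul_eq_mul]
        module
      · have h6 := hfd t v
        rw [(hz0 t ht).fderiv_eq] at h6
        simp at h6
        have h7 : dz ζ t = 0 := by rw [dz_congr (hz0 t ht)]; exact dz_const (0:ℂ) t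
        have h8 : dzb ζ t = 0 := by rw [dzb_congr (hz0 t ht)]; exact dzb_const (0:ℂ) t
        rw [h6, h7, h8]
        simp
    simp_rw [h5]
    have h9 : ∫ a, (v • (dz ζ a • w a) + conj v • (dzb ζ a • w a)) =
        v • (∫ a, dz ζ a • w a) + conj v • ∫ a, dzb ζ a • w a := by
      rw [← integral_smul, ← integral_smul]
      exact integral_add (i1.smul v) (i2.smul (conj v))
    rw [integral_neg, h9, e1, e2]
    simp only [smul_neg, neg_add_rev, neg_neg]
    abel

/-- Continuous functions with continuous weak derivatives are differentiable. -/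
theorem hasFDerivAt_of_weak [CompleteSpace V] {U : Set ℂ} (hU : IsOpen U) {w q₁ q₂ : ℂ → V}
    (hw : ContinuousOn w U) (hq₁ : ContinuousOn q₁ U)
    (hq₂ : ContinuousOn q₂ U) (h1 : WDbar U w q₁) (h2 : WDz U w q₂) {z0 : ℂ} (hz0 : z0 ∈ U) :
    HasFDerivAt w (mkL (q₂ z0) (q₁ z0)) z0 := by
  obtain ⟨r', hr', hU''⟩ := Metric.isOpen_iff.mp hU z0 hz0
  set r := r' / 3 with hrdef
  have hr : 0 < r := by positivity
  have hU' : closedBall z0 (2 * r) ⊆ U := by
    refine (closedBall_subset_ball ?_).trans hU''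
    rw [hrdef]; linarith
  set B := closedBall z0 (2 * r) with hB
  have hcomp : IsCompact B := isCompact_closedBall _ _
  have hε : ∀ n : ℕ, 0 < r / (n + 2) := fun n => by positivity
  let φ : ℕ → ContDiffBump (0:ℂ) := fun n => ⟨r / (n + 2) / 2, r / (n + 2), by
    have := hε n; positivity, by have := hε n; linarith⟩
  have hφr : ∀ n, (φ n).rOut = r / (n + 2) := fun n => rfl
  have hφle : ∀ n, (φ n).rOut ≤ r := fun n => by
    rw [hφr, div_le_iff₀ (by positivity)]
    nlinarith [hr, (Nat.cast_nonneg n : (0:ℝ) ≤ n)]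
  have hφ0 : Tendsto (fun n => (φ n).rOut) atTop (𝓝 0) := by
    simp only [hφr]
    have h3 : Tendsto (fun n : ℕ => ((n:ℝ) + 2)) atTop atTop :=
      tendsto_atTop_add_const_right _ _ tendsto_natCast_atTop_atTop
    exact tendsto_const_nhds.div_atTop h3
  -- uniform convergence of mollifications
  have hunif : ∀ f : ℂ → V, ContinuousOn f U → ∀ ε > 0, ∀ᶠ n in atTop, ∀ x ∈ ball z0 r,
      dist (((φ n).normed volume ⋆[ContinuousLinearMap.lsmul ℝ ℝ, volume] B.indicator f) x)
        (f x) ≤ ε := by
    intro f hf ε hε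
    have huc := hcomp.uniformContinuousOn_of_continuous (hf.mono hU')
    rw [Metric.uniformContinuousOn_iff] at huc
    obtain ⟨δ, hδ, hδ2⟩ := huc ε hε
    have h3 : ∀ᶠ n in atTop, (φ n).rOut < δ := hφ0.eventually_lt_const hδ
    filter_upwards [h3] with n hn x hx
    have hxB : x ∈ B := (ball_subset_closedBall.trans (closedBall_subset_closedBall (by linarith))) hx
    have hxf : B.indicator f x = f x := indicator_of_mem hxB _
    rw [← hxf]
    refine (φ n).dist_normed_convolution_le ?_ ?_
    · exact ((integrable_indicator_iff measurableSet_closedBall).mpr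
        ((hf.mono hU').integrableOn_compact hcomp)).aestronglyMeasurable
    · intro t ht
      have htB : t ∈ B := by
        rw [mem_ball] at ht hx
        rw [hB, mem_closedBall]
        calc dist t z0 ≤ dist t x + dist x z0 := dist_triangle _ _ _
          _ ≤ r + r := add_le_add (ht.le.trans (hφle n)) hx.le
          _ = 2 * r := by ring
      rw [hxf, indicator_of_mem htB]
      exact (hδ2 t htB x hxB (lt_trans (mem_ball.mp ht) hn)).le
  have hlim : ∀ f : ℂ → V, ContinuousOn f U → ∀ x ∈ ball z0 r,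
      Tendsto (fun n => ((φ n).normed volume ⋆[ContinuousLinearMap.lsmul ℝ ℝ, volume]
        B.indicator f) x) atTop (𝓝 (f x)) := by
    intro f hf x hx
    rw [Metric.tendsto_nhds]
    intro ε hε
    filter_upwards [hunif f hf (ε/2) (by positivity)] with n hn
    exact lt_of_le_of_lt (hn x hx) (by linarith)
  refine hasFDerivAt_of_tendstoUniformlyOn (𝕜 := ℝ) (l := atTop) (s := ball z0 r)
    (f := fun n => ((φ n).normed volume ⋆[ContinuousLinearMap.lsmul ℝ ℝ, volume] B.indicator w))
    (f' := fun n x => mkL (((φ n).normed volume ⋆[ContinuousLinearMap.lsmul ℝ ℝ, volume]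
        B.indicator q₂) x) (((φ n).normed volume ⋆[ContinuousLinearMap.lsmul ℝ ℝ, volume]
        B.indicator q₁) x)) (g' := fun x => mkL (q₂ x) (q₁ x)) isOpen_ball ?_ ?_ (hlim w hw)
    (mem_ball_self hr)
  · rw [Metric.tendstoUniformlyOn_iff]
    intro ε hε
    filter_upwards [hunif q₁ hq₁ (ε/3) (by positivity), hunif q₂ hq₂ (ε/3) (by positivity)]
      with n hn1 hn2 x hx
    rw [dist_comm, dist_eq_norm]
    refine lt_of_le_of_lt (mkL_norm_sub_le _ _ _ _) ?_
    have := hn1 x hx
    have := hn2 x hx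
    rw [dist_eq_norm] at *
    linarith
  · intro n x hx
    exact moll_step hw hq₁ hq₂ h1 h2 hr hU' (φ n) (hφle n) hx

end Pool.Agent.Lib8bb
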