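import Pool.Agent.Lib_MP_8bb00a_gt.CT4

/-!
Local regularity for the weak equations `∂̄ w = q` and `∂ w = q`.
-/

open MeasureTheory Complex Set Metric Filter Topology
open scoped Real ContDiff ComplexConjugate Convolution

noncomputable section

namespace Pool.Agent.Lib8bb

variable {V W : Type*} [NormedAddCommGroup V] [NormedSpace ℂ V]
  [NormedAddCommGroup W] [NormedSpace ℂ W]

theorem contDiff_cutoff_smul {U : Set ℂ} (hU : IsOpen U) {φ : ℂ → ℂ} (hφ : ContDiff ℝ ∞ φ)
    (hsub : tsupport φ ⊆ U) {q : ℂ → V} {k : ℕ∞} (hq : ContDiffOn ℝ k q U) :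
    ContDiff ℝ k (fun z => φ z • q z) := by
  rw [contDiff_iff_contDiffAt]
  intro z
  by_cases hz : z ∈ tsupport φ
  · have h1 : ContDiffAt ℝ k q z := hq.contDiffAt (hU.mem_nhds (hsub hz))
    exact ((hφ.of_le (by exact_mod_cast le_top)).contDiffAt).smul h1
  · have h1 := notMem_tsupport_iff_eventuallyEq.mp hz
    have h2 : (fun z => φ z • q z) =ᶠ[𝓝 z] fun _ => 0 := by
      filter_upwards [h1] with y hy
      rw [hy]; simp
    exact contDiffAt_const.congr_of_eventuallyEq h2

theorem continuous_cutoff_smul {U : Set ℂ} (hU : IsOpen U) {φ : ℂ → ℂ} (hφ : Continuous φ)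
    (hsub : tsupport φ ⊆ U) {q : ℂ → V} (hq : ContinuousOn q U) :
    Continuous (fun z => φ z • q z) := by
  rw [continuous_iff_continuousAt]
  intro z
  by_cases hz : z ∈ tsupport φ
  · have h1 : ContinuousAt q z := hq.continuousAt (hU.mem_nhds (hsub hz))
    exact hφ.continuousAt.smul h1
  · have h1 := notMem_tsupport_iff_eventuallyEq.mp hz
    have h2 : (fun z => φ z • q z) =ᶠ[𝓝 z] fun _ => 0 := by
      filter_upwards [h1] with y hy
      rw [hy]; simp
    exact continuousAt_const.congr h2.symm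

theorem contDiffOn_of_holo [CompleteSpace V] {H : ℂ → V} {U : Set ℂ} (hU : IsOpen U)
    (hH : DifferentiableOn ℂ H U) {k : ℕ∞ω} : ContDiffOn ℝ k H U :=
  (hH.contDiffOn hU).restrict_scalars ℝ

/-- Hypoellipticity of `∂̄` in the classes `C^k`. -/
theorem reg_Ck [CompleteSpace V] {U : Set ℂ} (hU : IsOpen U) {w q : ℂ → V} {z0 : ℂ} {r : ℝ}
    (hr : 0 < r) (hball : closedBall z0 (2 * r) ⊆ U) (hw : IntegrableOn w (closedBall z0 (2 * r)))
    {k : ℕ∞} (hq : ContDiffOn ℝ k q U) (h : WDbar U w q) :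
    ∃ u : ℂ → V, ContDiffOn ℝ k u (ball z0 r) ∧ w =ᵐ[volume.restrict (ball z0 r)] u ∧
      (1 ≤ k → ∀ z ∈ ball z0 r, dzb u z = q z) := by
  have hφ := cbump_contDiff z0 r hr
  have hφc := cbump_compact z0 r hr
  have hφs := cbump_tsupport z0 r hr
  have hqi : IntegrableOn q (closedBall z0 (2 * r)) :=
    (hq.continuousOn.mono hball).integrableOn_compact (isCompact_closedBall _ _)
  have h1 := local_rep h hr hball hw hqi
  have h2 : ContDiff ℝ k (fun z => cbump z0 r hr z • q z) :=
    contDiff_cutoff_smul hU hφ (hφs.trans hball) hq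
  have h2c := hasCompactSupport_smul_left hφc q
  have h3 := contDiff_CT h2 h2c
  have h4 := holo_remainder hr hw
  refine ⟨_, (h3.contDiffOn).add (contDiffOn_of_holo isOpen_ball h4), h1, fun hk z hz => ?_⟩
  have h5 : ContDiff ℝ 1 (fun z => cbump z0 r hr z • q z) := h2.of_le (by exact_mod_cast hk)
  have h6 : DifferentiableAt ℂ (CT (fun z => dzb (cbump z0 r hr) z • w z)) z :=
    h4.differentiableAt (isOpen_ball.mem_nhds hz)
  rw [dzb_add ((contDiff_CT (n := 1) h5 h2c).differentiable (by simp) z)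
    (h6.restrictScalars ℝ), dzb_CT h5 h2c, dzb_of_holo h6,
    cbump_one z0 r hr (ball_subset_closedBall hz)]
  simp

/-- continuous version -/
theorem reg_C0 [CompleteSpace V] {U : Set ℂ} (hU : IsOpen U) {w q : ℂ → V} {z0 : ℂ} {r : ℝ}
    (hr : 0 < r) (hball : closedBall z0 (2 * r) ⊆ U) (hw : IntegrableOn w (closedBall z0 (2 * r)))
    (hq : ContinuousOn q U) (h : WDbar U w q) :
    ∃ u : ℂ → V, ContinuousOn u (ball z0 r) ∧ w =ᵐ[volume.restrict (ball z0 r)] u := by
  obtain ⟨u, hu, hw, -⟩ := reg_Ck (k := 0) hU hr hball hw (by simpa using hq) h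
  exact ⟨u, by simpa using hu, hw⟩

theorem memLp_restrict_smul {p : ENNReal} {φ : ℂ → ℂ} (hφ : Continuous φ)
    (hφ1 : ∀ z, ‖φ z‖ ≤ 1) {K : Set ℂ} (hK : MeasurableSet K) (hsub : tsupport φ ⊆ K)
    {q : ℂ → V} (hq : MemLp q p (volume.restrict K)) : MemLp (fun z => φ z • q z) p volume := by
  have h1 : MemLp (K.indicator q) p volume := (memLp_indicator_iff_restrict hK).mpr hq
  have h2 : (fun z => φ z • q z) = fun z => φ z • K.indicator q z := by
    ext z
    by_cases hz : z ∈ K
    · rw [indicator_of_mem hz]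
    · have : φ z = 0 := image_eq_zero_of_notMem_tsupport (fun h => hz (hsub h))
      simp [this]
  rw [h2]
  refine h1.of_le (hφ.aestronglyMeasurable.smul h1.1) (ae_of_all _ fun z => ?_)
  rw [norm_smul]
  calc ‖φ z‖ * ‖K.indicator q z‖ ≤ 1 * ‖K.indicator q z‖ := by gcongr; exact hφ1 z
    _ = _ := one_mul _

omit [NormedSpace ℂ V] in
theorem lintegral_four_eq {α : Type*} [MeasurableSpace α] {μ : Measure α} (f : α → V) :
    ∫⁻ t, ‖f t‖ₑ ^ 4 ∂μ = eLpNorm f 4 μ ^ 4 := by
  have h1 : eLpNorm f 4 μ = eLpNorm' f 4 μ := by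
    rw [eLpNorm_eq_eLpNorm' (by norm_num) (by norm_num)]; norm_num
  rw [h1]
  have := lintegral_rpow_enorm_eq_rpow_eLpNorm' (μ := μ) (f := f) (q := 4) (by norm_num)
  have h5 : ∀ y : ENNReal, y ^ (4:ℝ) = y ^ 4 := fun y => by
    rw [← ENNReal.rpow_natCast]; norm_num
  simp only [h5] at this
  exact this

omit [NormedSpace ℂ V] in
theorem lintegral_two_eq {α : Type*} [MeasurableSpace α] {μ : Measure α} (f : α → V) :
    ∫⁻ t, ‖f t‖ₑ ^ 2 ∂μ = eLpNorm f 2 μ ^ 2 := by
  have h1 : eLpNorm f 2 μ = eLpNorm' f 2 μ := by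
    rw [eLpNorm_eq_eLpNorm' (by norm_num) (by norm_num)]; norm_num
  rw [h1]
  have := lintegral_rpow_enorm_eq_rpow_eLpNorm' (μ := μ) (f := f) (q := 2) (by norm_num)
  simp only [ENNReal.rpow_two] at this
  exact this

/-- `q ∈ L⁴` gives a continuous representative -/
theorem reg_L4_C0 [CompleteSpace V] {U : Set ℂ} {w q : ℂ → V} {z0 : ℂ} {r : ℝ}
    (hr : 0 < r) (hball : closedBall z0 (2 * r) ⊆ U) (hw : IntegrableOn w (closedBall z0 (2 * r)))
    (hq : MemLp q 4 (volume.restrict (closedBall z0 (2 * r)))) (h : WDbar U w q) :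
    ∃ u : ℂ → V, ContinuousOn u (ball z0 r) ∧ w =ᵐ[volume.restrict (ball z0 r)] u := by
  have hφ := cbump_contDiff z0 r hr
  have hφc := cbump_compact z0 r hr
  have hφs := cbump_tsupport z0 r hr
  have hfin : IsFiniteMeasure (volume.restrict (closedBall z0 (2 * r))) :=
    ⟨by rw [Measure.restrict_apply_univ]; exact (isCompact_closedBall _ _).measure_lt_top⟩
  have hqi : IntegrableOn q (closedBall z0 (2 * r)) := hq.integrable (by norm_num)
  have h1 := local_rep h hr hball hw hqi
  have h2 : MemLp (fun z => cbump z0 r hr z • q z) 4 volume :=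
    memLp_restrict_smul hφ.continuous (cbump_norm_le z0 r hr) measurableSet_closedBall hφs hq
  have h3 : ContinuousOn (CT (fun z => cbump z0 r hr z • q z)) (closedBall z0 (2 * r)) := by
    refine CT_L4_C0 h2 (by positivity) fun t ht => ?_
    rw [image_eq_zero_of_notMem_tsupport (fun h => ht (hφs h)), zero_smul]
  have h4 := holo_remainder hr hw
  refine ⟨_, (h3.mono ?_).add h4.continuousOn, h1⟩
  exact ball_subset_closedBall.trans (closedBall_subset_closedBall (by linarith))

/-- `q ∈ L²` gives `w ∈ L⁴` -/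
theorem reg_L2_L4 [CompleteSpace V] {U : Set ℂ} {w q : ℂ → V} {z0 : ℂ} {r r' : ℝ}
    (hr : 0 < r) (hr' : r' < r) (hball : closedBall z0 (2 * r) ⊆ U)
    (hw : IntegrableOn w (closedBall z0 (2 * r)))
    (hq : MemLp q 2 (volume.restrict (closedBall z0 (2 * r)))) (h : WDbar U w q) :
    MemLp w 4 (volume.restrict (closedBall z0 r')) := by
  have hφ := cbump_contDiff z0 r hr
  have hφc := cbump_compact z0 r hr
  have hφs := cbump_tsupport z0 r hr
  have hfin : IsFiniteMeasure (volume.restrict (closedBall z0 (2 * r))) :=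
    ⟨by rw [Measure.restrict_apply_univ]; exact (isCompact_closedBall _ _).measure_lt_top⟩
  have hfin' : IsFiniteMeasure (volume.restrict (closedBall z0 r')) :=
    ⟨by rw [Measure.restrict_apply_univ]; exact (isCompact_closedBall _ _).measure_lt_top⟩
  have hqi : IntegrableOn q (closedBall z0 (2 * r)) := hq.integrable (by norm_num)
  have h1 := local_rep h hr hball hw hqi
  have h2 : MemLp (fun z => cbump z0 r hr z • q z) 2 volume :=
    memLp_restrict_smul hφ.continuous (cbump_norm_le z0 r hr) measurableSet_closedBall hφs hq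
  have hsub : closedBall z0 r' ⊆ ball z0 r := closedBall_subset_ball hr'
  have hsub2 : closedBall z0 r' ⊆ closedBall z0 (2 * r) :=
    closedBall_subset_closedBall (by linarith)
  have h3 : ∫⁻ x in closedBall z0 (2 * r), ‖CT (fun z => cbump z0 r hr z • q z) x‖ₑ ^ 4 < ⊤ := by
    refine CT_L2_L4 h2.1 (fun t ht => ?_) ?_
    · rw [image_eq_zero_of_notMem_tsupport (fun h => ht (hφs h)), zero_smul]
    · rw [lintegral_two_eq]; exact ENNReal.pow_lt_top h2.2
  have hCTm : AEStronglyMeasurable (CT (fun z => cbump z0 r hr z • q z))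
      (volume.restrict (closedBall z0 r')) := by
    have := (locallyIntegrable_CT (integrable_smul_local hφ.continuous hφc
      measurableSet_closedBall hqi hφs) (hasCompactSupport_smul_left hφc q)).aestronglyMeasurable
    exact this.restrict
  have h4 : MemLp (CT (fun z => cbump z0 r hr z • q z)) 4 (volume.restrict (closedBall z0 r')) := by
    refine ⟨hCTm, ?_⟩
    have h5 := lintegral_four_eq (μ := volume.restrict (closedBall z0 r'))
      (CT (fun z => cbump z0 r hr z • q z))
    have h6 : ∫⁻ x in closedBall z0 r', ‖CT (fun z => cbump z0 r hr z • q z) x‖ₑ ^ 4 < ⊤ :=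
      lt_of_le_of_lt (lintegral_mono_set hsub2) h3
    rw [h5] at h6
    exact (ENNReal.pow_lt_top_iff.mp h6).resolve_right (by norm_num)
  have h7 : MemLp (CT (fun z => dzb (cbump z0 r hr) z • w z)) 4
      (volume.restrict (closedBall z0 r')) := by
    have h8 : ContinuousOn (CT (fun z => dzb (cbump z0 r hr) z • w z)) (closedBall z0 r') :=
      (holo_remainder hr hw).continuousOn.mono hsub
    obtain ⟨M, hM⟩ := (isCompact_closedBall z0 r').exists_bound_of_continuousOn h8
    refine MemLp.of_bound (h8.aestronglyMeasurable measurableSet_closedBall) M ?_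
    filter_upwards [ae_restrict_mem measurableSet_closedBall] with z hz using hM z hz
  refine (h4.add h7).ae_eq ?_
  have h9 := ae_restrict_of_ae_restrict_of_subset hsub h1
  filter_upwards [h9] with z hz using hz.symm

/-! ### transfer to `∂` by complex conjugation -/

theorem measurePreserving_conj : MeasurePreserving (fun z : ℂ => conj z) volume volume :=
  Complex.conjLIE.measurePreserving

theorem dzb_comp_conj {f : ℂ → V} {z : ℂ} (hf : DifferentiableAt ℝ f (conj z)) :
    dzb (fun z => f (conj z)) z = dz f (conj z) := by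
  have h1 : HasFDerivAt (fun z : ℂ => conj z) (Complex.conjCLE : ℂ →L[ℝ] ℂ) z :=
    (Complex.conjCLE : ℂ →L[ℝ] ℂ).hasFDerivAt
  have h2 : HasFDerivAt (fun z => f (conj z)) _ z := hf.hasFDerivAt.comp z h1
  rw [HasFDerivAt.dzb_eq h2, dz]
  simp only [ContinuousLinearMap.comp_apply, ContinuousLinearEquiv.coe_coe, conjCLE_apply, map_one,
    conj_I, map_neg]
  module

theorem dz_comp_conj {f : ℂ → V} {z : ℂ} (hf : DifferentiableAt ℝ f (conj z)) :
    dz (fun z => f (conj z)) z = dzb f (conj z) := by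
  have h1 : HasFDerivAt (fun z : ℂ => conj z) (Complex.conjCLE : ℂ →L[ℝ] ℂ) z :=
    (Complex.conjCLE : ℂ →L[ℝ] ℂ).hasFDerivAt
  have h2 : HasFDerivAt (fun z => f (conj z)) _ z := hf.hasFDerivAt.comp z h1
  rw [HasFDerivAt.dz_eq h2, dzb]
  simp only [ContinuousLinearMap.comp_apply, ContinuousLinearEquiv.coe_coe, conjCLE_apply, map_one,
    conj_I, map_neg]
  module

theorem integral_comp_conj (f : ℂ → V) : ∫ z, f (conj z) = ∫ z, f z := by
  have := Complex.conjLIE.measurePreserving.integral_comp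
    (Complex.conjLIE.toHomeomorph.measurableEmbedding) f
  exact this

theorem WDz.conj_comp {U : Set ℂ} {w q : ℂ → V} (h : WDz U w q) :
    WDbar ((fun z => conj z) ⁻¹' U) (fun z => w (conj z)) (fun z => q (conj z)) := by
  intro ζ hζ hζc hζs
  set ζ' : ℂ → ℂ := fun z => ζ (conj z) with hζ'
  have hconj : ContDiff ℝ ∞ (fun z : ℂ => conj z) := Complex.conjCLE.contDiff
  have h1 : ContDiff ℝ ∞ ζ' := hζ.comp hconj
  have h2 : HasCompactSupport ζ' := hζc.comp_homeomorph Complex.conjLIE.toHomeomorph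
  have h3 : tsupport ζ' ⊆ U := by
    have h4 : tsupport ζ' ⊆ (fun z => conj z) ⁻¹' (tsupport ζ) := by
      refine closure_minimal ?_ ((isClosed_tsupport ζ).preimage hconj.continuous)
      intro z hz
      exact subset_tsupport ζ hz
    intro z hz
    have := hζs (h4 hz)
    simpa using this
  have h5 := h ζ' h1 h2 h3
  have h6 : ∫ z, dzb ζ z • w (conj z) = ∫ z, dz ζ' z • w z := by
    rw [← integral_comp_conj (fun z => dz ζ' z • w z)]
    congr 1; ext z
    have : dz ζ' (conj z) = dzb ζ z := by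
      have h7 := dz_comp_conj (f := ζ) (z := conj z) (hζ.differentiable (by simp) _)
      simpa using h7
    rw [this]
  have h7 : ∫ z, ζ z • q (conj z) = ∫ z, ζ' z • q z := by
    rw [← integral_comp_conj (fun z => ζ' z • q z)]
    congr 1; ext z
    simp [hζ']
  rw [h6, h7, h5]

theorem closedBall_conj (z0 : ℂ) (r : ℝ) :
    (fun z : ℂ => conj z) ⁻¹' closedBall z0 r = closedBall (conj z0) r := by
  ext z
  simp only [mem_preimage, mem_closedBall, dist_eq_norm]
  rw [← RCLike.norm_conj (z - conj z0)]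
  simp

theorem ball_conj (z0 : ℂ) (r : ℝ) :
    (fun z : ℂ => conj z) ⁻¹' ball z0 r = ball (conj z0) r := by
  ext z
  simp only [mem_preimage, mem_ball, dist_eq_norm]
  rw [← RCLike.norm_conj (z - conj z0)]
  simp

theorem mp_restrict_conj (s : Set ℂ) (hs : MeasurableSet s) :
    MeasurePreserving (fun z : ℂ => conj z) (volume.restrict ((fun z : ℂ => conj z) ⁻¹' s))
      (volume.restrict s) :=
  measurePreserving_conj.restrict_preimage hs

omit [NormedSpace ℂ V] in
theorem integrableOn_conj {w : ℂ → V} {z0 : ℂ} {r : ℝ} (hw : IntegrableOn w (closedBall z0 r)) :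
    IntegrableOn (fun z => w (conj z)) (closedBall (conj z0) r) := by
  rw [← closedBall_conj]
  have h1 := mp_restrict_conj (closedBall z0 r) measurableSet_closedBall
  exact h1.integrable_comp_of_integrable hw

omit [NormedSpace ℂ V] in
theorem memLp_conj {p : ENNReal} {w : ℂ → V} {z0 : ℂ} {r : ℝ}
    (hw : MemLp w p (volume.restrict (closedBall z0 r))) :
    MemLp (fun z => w (conj z)) p (volume.restrict (closedBall (conj z0) r)) := by
  rw [← closedBall_conj]
  exact hw.comp_measurePreserving (mp_restrict_conj (closedBall z0 r) measurableSet_closedBall)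

theorem ae_conj_ball {w u : ℂ → V} {z0 : ℂ} {r : ℝ}
    (h : (fun z => w (conj z)) =ᵐ[volume.restrict (ball (conj z0) r)] u) :
    w =ᵐ[volume.restrict (ball z0 r)] fun z => u (conj z) := by
  have h1 := mp_restrict_conj (ball (conj z0) r) measurableSet_ball
  rw [ball_conj, RingHomCompTriple.comp_apply, RingHom.id_apply] at h1
  have h2 := h1.quasiMeasurePreserving.ae h
  filter_upwards [h2] with z hz
  simpa using hz

/-- Hypoellipticity of `∂` in the classes `C^k`. -/
theorem reg_Ck' [CompleteSpace V] {U : Set ℂ} (hU : IsOpen U) {w q : ℂ → V} {z0 : ℂ} {r : ℝ}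
    (hr : 0 < r) (hball : closedBall z0 (2 * r) ⊆ U) (hw : IntegrableOn w (closedBall z0 (2 * r)))
    {k : ℕ∞} (hq : ContDiffOn ℝ k q U) (h : WDz U w q) :
    ∃ u : ℂ → V, ContDiffOn ℝ k u (ball z0 r) ∧ w =ᵐ[volume.restrict (ball z0 r)] u ∧
      (1 ≤ k → ∀ z ∈ ball z0 r, dz u z = q z) := by
  have hcc : ContDiff ℝ k (fun z : ℂ => conj z) := Complex.conjCLE.contDiff
  have hcont : Continuous (fun z : ℂ => conj z) := Complex.continuous_conj
  obtain ⟨u, hu, hwu, hd⟩ := reg_Ck (hU.preimage hcont) (z0 := conj z0) hr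
    (by rw [← closedBall_conj]; exact preimage_mono hball) (integrableOn_conj hw)
    (hq.comp hcc.contDiffOn (fun z hz => hz)) h.conj_comp
  have hmaps : MapsTo (fun z : ℂ => conj z) (ball z0 r) (ball (conj z0) r) := by
    intro z hz
    have : conj z ∈ (fun z : ℂ => conj z) ⁻¹' ball z0 r := by simpa using hz
    rw [ball_conj] at this
    exact this
  refine ⟨fun z => u (conj z), hu.comp hcc.contDiffOn hmaps, ae_conj_ball hwu, fun hk z hz => ?_⟩
  have h1 : DifferentiableAt ℝ u (conj z) :=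
    (hu.contDiffAt (isOpen_ball.mem_nhds (hmaps hz))).differentiableAt
      (by simpa using (by intro h0; simp [h0] at hk : k ≠ 0))
  rw [dz_comp_conj h1, hd hk (conj z) (hmaps hz)]
  simp

theorem reg_C0' [CompleteSpace V] {U : Set ℂ} (hU : IsOpen U) {w q : ℂ → V} {z0 : ℂ} {r : ℝ}
    (hr : 0 < r) (hball : closedBall z0 (2 * r) ⊆ U) (hw : IntegrableOn w (closedBall z0 (2 * r)))
    (hq : ContinuousOn q U) (h : WDz U w q) :
    ∃ u : ℂ → V, ContinuousOn u (ball z0 r) ∧ w =ᵐ[volume.restrict (ball z0 r)] u := by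
  obtain ⟨u, hu, hw, -⟩ := reg_Ck' (k := 0) hU hr hball hw (by simpa using hq) h
  exact ⟨u, by simpa using hu, hw⟩

theorem reg_L2_L4' [CompleteSpace V] {U : Set ℂ} {w q : ℂ → V} {z0 : ℂ} {r r' : ℝ}
    (hr : 0 < r) (hr' : r' < r) (hball : closedBall z0 (2 * r) ⊆ U)
    (hw : IntegrableOn w (closedBall z0 (2 * r)))
    (hq : MemLp q 2 (volume.restrict (closedBall z0 (2 * r)))) (h : WDz U w q) :
    MemLp w 4 (volume.restrict (closedBall z0 r')) := by
  have h1 := reg_L2_L4 (z0 := conj z0) hr hr'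
    (by rw [← closedBall_conj]; exact preimage_mono hball) (integrableOn_conj hw)
    (memLp_conj hq) h.conj_comp
  have h2 := memLp_conj h1
  simpa using h2

end Pool.Agent.Lib8bb
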