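import Pool.Agent.Lib_MP_8bb00a_gt.EDefs

/-!
Determinants of `3 x 3` matrices: smoothness, Jacobi's formula, positivity of `1 + w`.
-/

open MeasureTheory Complex Set Metric Filter Topology
open scoped Real ContDiff ComplexConjugate Manifold

noncomputable section

namespace Pool.Agent.Lib8bb

section M1

open scoped Matrix.Norms.Frobenius Matrix ComplexOrder

/-- entries as continuous linear maps -/
def entry (i j : Fin 3) : M3 →L[ℝ] ℂ :=
  LinearMap.toContinuousLinearMap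
    { toFun := fun k : M3 => k i j
      map_add' := fun _ _ => rfl
      map_smul' := fun _ _ => rfl }

@[simp] theorem entry_apply (i j : Fin 3) (k : M3) : entry i j k = k i j := rfl

theorem norm_quad_le (w : M3) (x : Fin 3 → ℂ) :
    ‖star x ⬝ᵥ (w *ᵥ x)‖ ≤ ‖w‖ * ∑ i, ‖x i‖ ^ 2 := by
  have hw : ‖w‖ = Real.sqrt (∑ i, ∑ j, ‖w i j‖ ^ 2) := by
    rw [Matrix.frobenius_norm_def, Real.sqrt_eq_rpow]
    norm_num
  have e1 : star x ⬝ᵥ (w *ᵥ x) = ∑ p : Fin 3 × Fin 3, w p.1 p.2 * (star (x p.1) * x p.2) := by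
    rw [Fintype.sum_prod_type]
    simp only [dotProduct, Matrix.mulVec, Pi.star_apply, Finset.mul_sum]
    exact Finset.sum_congr rfl fun i _ => Finset.sum_congr rfl fun j _ => by ring
  have e2 : ‖star x ⬝ᵥ (w *ᵥ x)‖ ≤
      ∑ p : Fin 3 × Fin 3, ‖w p.1 p.2‖ * (‖x p.1‖ * ‖x p.2‖) := by
    rw [e1]
    refine (norm_sum_le _ _).trans (le_of_eq (Finset.sum_congr rfl fun p _ => ?_))
    rw [norm_mul, norm_mul, norm_star]
  have e3 := Finset.sum_mul_sq_le_sq_mul_sq (Finset.univ : Finset (Fin 3 × Fin 3))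
    (fun p => ‖w p.1 p.2‖) (fun p => ‖x p.1‖ * ‖x p.2‖)
  have e4 : ∑ p : Fin 3 × Fin 3, (‖x p.1‖ * ‖x p.2‖) ^ 2 = (∑ i, ‖x i‖ ^ 2) ^ 2 := by
    rw [Fintype.sum_prod_type, sq (∑ i, ‖x i‖ ^ 2), Finset.sum_mul_sum]
    exact Finset.sum_congr rfl fun i _ => Finset.sum_congr rfl fun j _ => by ring
  have e5 : ∑ p : Fin 3 × Fin 3, ‖w p.1 p.2‖ ^ 2 = ‖w‖ ^ 2 := by
    rw [hw, Real.sq_sqrt (by positivity), Fintype.sum_prod_type]
  rw [e4, e5, ← mul_pow] at e3
  exact e2.trans (abs_le_of_sq_le_sq' e3 (by positivity)).2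

theorem posDef_one_add {w : M3} (hw : star w = w) (h1 : ‖w‖ < 1) : (1 + w).PosDef := by
  refine Matrix.PosDef.of_dotProduct_mulVec_pos ?_ fun x hx => ?_
  · show (1 + w)ᴴ = 1 + w
    rw [Matrix.conjTranspose_add, Matrix.conjTranspose_one]
    exact congrArg _ hw
  · have hherm : wᴴ = w := hw
    have hreal : star (star x ⬝ᵥ (w *ᵥ x)) = star x ⬝ᵥ (w *ᵥ x) := by
      rw [← Matrix.star_dotProduct, Matrix.star_mulVec, hherm, Matrix.dotProduct_mulVec]
    have him : (star x ⬝ᵥ (w *ᵥ x)).im = 0 := by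
      have := congrArg Complex.im hreal
      simp only [Complex.star_def, Complex.conj_im] at this
      linarith
    have hx1 : star x ⬝ᵥ x = ((∑ i, ‖x i‖ ^ 2 : ℝ) : ℂ) := by
      simp only [dotProduct, Pi.star_apply, Complex.star_def, Complex.ofReal_sum]
      refine Finset.sum_congr rfl fun i _ => ?_
      rw [← Complex.normSq_eq_conj_mul_self, Complex.normSq_eq_norm_sq]
    have hpos : 0 < ∑ i, ‖x i‖ ^ 2 := by
      obtain ⟨i, hi⟩ : ∃ i, x i ≠ 0 := by
        by_contra hcon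
        push Not at hcon
        exact hx (funext hcon)
      refine Finset.sum_pos' (fun _ _ => by positivity) ⟨i, Finset.mem_univ _, ?_⟩
      have := norm_pos_iff.mpr hi
      positivity
    rw [Matrix.add_mulVec, Matrix.one_mulVec, dotProduct_add, hx1, Complex.pos_iff]
    have h2 := norm_quad_le w x
    have h3 : -‖star x ⬝ᵥ (w *ᵥ x)‖ ≤ (star x ⬝ᵥ (w *ᵥ x)).re :=
      (abs_le.mp (Complex.abs_re_le_norm _)).1
    constructor
    · rw [Complex.add_re, Complex.ofReal_re]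
      nlinarith
    · rw [Complex.add_im, Complex.ofReal_im, him, add_zero]

theorem contDiff_entry (i j : Fin 3) : ContDiff ℝ ∞ (fun k : M3 => k i j) :=
  (entry i j).contDiff

theorem contDiff_det : ContDiff ℝ ∞ (fun k : M3 => Matrix.det k) := by
  have h : (fun k : M3 => Matrix.det k) = fun k : M3 =>
      k 0 0 * k 1 1 * k 2 2 - k 0 0 * k 1 2 * k 2 1 - k 0 1 * k 1 0 * k 2 2 +
        k 0 1 * k 1 2 * k 2 0 + k 0 2 * k 1 0 * k 2 1 - k 0 2 * k 1 1 * k 2 0 := by
    funext k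
    exact Matrix.det_fin_three k
  rw [h]
  have e := contDiff_entry
  exact ((((((((e 0 0).mul (e 1 1)).mul (e 2 2))).sub (((e 0 0).mul (e 1 2)).mul (e 2 1))).sub
    (((e 0 1).mul (e 1 0)).mul (e 2 2))).add (((e 0 1).mul (e 1 2)).mul (e 2 0))).add
    (((e 0 2).mul (e 1 0)).mul (e 2 1))).sub (((e 0 2).mul (e 1 1)).mul (e 2 0))

theorem contDiffOn_inv {U : Set ℂ} {k ki : ℂ → M3} {n : ℕ∞} (hk : ContDiffOn ℝ n k U)
    (h1 : ∀ z ∈ U, k z * ki z = 1) : ContDiffOn ℝ n ki U := by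
  have h2 : ∀ z ∈ U, ki z = Ring.inverse (k z) := by
    intro z hz
    have h3 : ki z * k z = 1 := mul_eq_one_comm.mp (h1 z hz)
    let u : M3ˣ := ⟨k z, ki z, h1 z hz, h3⟩
    exact (Ring.inverse_unit u).symm
  have : CompleteSpace M3 := FiniteDimensional.complete ℝ M3
  refine ContDiffOn.congr ?_ h2
  intro z hz
  have h3 : ki z * k z = 1 := mul_eq_one_comm.mp (h1 z hz)
  let u : M3ˣ := ⟨k z, ki z, h1 z hz, h3⟩
  have h4 : ContDiffAt ℝ n Ring.inverse (k z) := contDiffAt_ringInverse ℝ u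
  exact h4.comp_contDiffWithinAt z (hk z hz)

/-- the differential of the determinant -/
def detD (A : M3) : M3 →L[ℝ] ℂ :=
  LinearMap.toContinuousLinearMap
    { toFun := fun k : M3 => Matrix.trace (Matrix.adjugate A * k)
      map_add' := fun a b => by rw [mul_add, Matrix.trace_add]
      map_smul' := fun c a => by
        rw [mul_smul_comm, Matrix.trace_smul]; rfl }

theorem detD_apply (A k : M3) : detD A k = Matrix.trace (Matrix.adjugate A * k) := rfl

theorem det_hasFDerivAt (A : M3) : HasFDerivAt (fun k : M3 => Matrix.det k) (detD A) A := by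
  have h : (fun k : M3 => Matrix.det k) = fun k : M3 =>
      k 0 0 * k 1 1 * k 2 2 - k 0 0 * k 1 2 * k 2 1 - k 0 1 * k 1 0 * k 2 2 +
        k 0 1 * k 1 2 * k 2 0 + k 0 2 * k 1 0 * k 2 1 - k 0 2 * k 1 1 * k 2 0 := by
    funext k
    exact Matrix.det_fin_three k
  rw [h]
  have e : ∀ i j, HasFDerivAt (fun k : M3 => k i j) (entry i j) A :=
    fun i j => (entry i j).hasFDerivAt
  have h2 := ((((((((e 0 0).fun_mul (e 1 1)).fun_mul (e 2 2))).fun_sub
    (((e 0 0).fun_mul (e 1 2)).fun_mul (e 2 1))).fun_sub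
    (((e 0 1).fun_mul (e 1 0)).fun_mul (e 2 2))).fun_add
    (((e 0 1).fun_mul (e 1 2)).fun_mul (e 2 0))).fun_add
    (((e 0 2).fun_mul (e 1 0)).fun_mul (e 2 1))).fun_sub
    (((e 0 2).fun_mul (e 1 1)).fun_mul (e 2 0))
  refine h2.congr_fderiv ?_
  refine ContinuousLinearMap.ext fun k => ?_
  have h3 : detD A k = Matrix.trace (Matrix.adjugate A * k) := rfl
  refine Eq.trans ?_ h3.symm
  rw [Matrix.adjugate_fin_three]
  have he : ∀ i j, (entry i j) k = k i j := fun _ _ => rfl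
  refine Eq.trans (b := (A 0 0 * A 1 1) * k 2 2 + A 2 2 * (A 0 0 * k 1 1 + A 1 1 * k 0 0) -
      ((A 0 0 * A 1 2) * k 2 1 + A 2 1 * (A 0 0 * k 1 2 + A 1 2 * k 0 0)) -
      ((A 0 1 * A 1 0) * k 2 2 + A 2 2 * (A 0 1 * k 1 0 + A 1 0 * k 0 1)) +
      ((A 0 1 * A 1 2) * k 2 0 + A 2 0 * (A 0 1 * k 1 2 + A 1 2 * k 0 1)) +
      ((A 0 2 * A 1 0) * k 2 1 + A 2 1 * (A 0 2 * k 1 0 + A 1 0 * k 0 2)) -
      ((A 0 2 * A 1 1) * k 2 0 + A 2 0 * (A 0 2 * k 1 1 + A 1 1 * k 0 2))) rfl ?_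
  simp only [Matrix.trace_fin_three, Matrix.mul_apply, Fin.sum_univ_three,
    Matrix.of_apply, Matrix.cons_val_zero, Matrix.cons_val_one,
    Matrix.cons_val, Matrix.cons_val']
  ring

/-- `∂ log det h = tr (h⁻¹ ∂ h)` (Jacobi's formula) -/
theorem dz_log_det {U : Set ℂ} (hU : IsOpen U) {h : ℂ → M3} (hh : DifferentiableOn ℝ h U)
    (hp : ∀ z ∈ U, (h z).PosDef) {z : ℂ} (hz : z ∈ U) :
    dz (fun x => ((Real.log (Matrix.det (h x)).re : ℝ) : ℂ)) z =
      Matrix.trace ((h z)⁻¹ * dz h z) := by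
  have hd : HasFDerivAt h (fderiv ℝ h z) z :=
    ((hh z hz).differentiableAt (hU.mem_nhds hz)).hasFDerivAt
  have hdet : HasFDerivAt (fun x => Matrix.det (h x)) ((detD (h z)).comp (fderiv ℝ h z)) z :=
    (det_hasFDerivAt (h z)).comp z hd
  have hpos : 0 < Matrix.det (h z) := (hp z hz).det_pos
  have hpos' := Complex.pos_iff.mp hpos
  have hre : HasFDerivAt (fun x => (Matrix.det (h x)).re)
      (Complex.reCLM.comp ((detD (h z)).comp (fderiv ℝ h z))) z :=
    Complex.reCLM.hasFDerivAt.comp z hdet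
  have hlog : HasFDerivAt (fun x => Real.log (Matrix.det (h x)).re)
      (((Matrix.det (h z)).re)⁻¹ • (Complex.reCLM.comp ((detD (h z)).comp (fderiv ℝ h z)))) z :=
    hre.log hpos'.1.ne'
  have hof : HasFDerivAt (fun x => ((Real.log (Matrix.det (h x)).re : ℝ) : ℂ))
      (Complex.ofRealCLM.comp
      (((Matrix.det (h z)).re)⁻¹ • (Complex.reCLM.comp ((detD (h z)).comp (fderiv ℝ h z))))) z :=
    Complex.ofRealCLM.hasFDerivAt.comp z hlog
  -- the derivative of the determinant is real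
  have him : HasFDerivAt (fun x => (Matrix.det (h x)).im)
      (Complex.imCLM.comp ((detD (h z)).comp (fderiv ℝ h z))) z :=
    Complex.imCLM.hasFDerivAt.comp z hdet
  have him0 : (Complex.imCLM.comp ((detD (h z)).comp (fderiv ℝ h z)) : ℂ →L[ℝ] ℝ) = 0 := by
    refine him.unique ?_
    refine (hasFDerivAt_const (0 : ℝ) z).congr_of_eventuallyEq ?_
    filter_upwards [hU.mem_nhds hz] with x hx
    exact (Complex.pos_iff.mp (hp x hx).det_pos).2.symm
  have key : ∀ v : ℂ, (Complex.ofRealCLM.comp (((Matrix.det (h z)).re)⁻¹ •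
      (Complex.reCLM.comp ((detD (h z)).comp (fderiv ℝ h z))))) v =
      Matrix.trace ((h z)⁻¹ * fderiv ℝ h z v) := by
    intro v
    have h0 : (detD (h z) (fderiv ℝ h z v)).im = 0 := by
      have := congrArg (fun L : ℂ →L[ℝ] ℝ => L v) him0
      simpa using this
    have h1 : ((detD (h z) (fderiv ℝ h z v)).re : ℂ) = detD (h z) (fderiv ℝ h z v) := by
      apply Complex.ext
      · simp
      · simp [h0]
    have h2 : (((Matrix.det (h z)).re : ℝ) : ℂ) = Matrix.det (h z) := by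
      apply Complex.ext
      · simp
      · simp [hpos'.2.symm]
    have h3 : Matrix.trace ((h z)⁻¹ * fderiv ℝ h z v) =
        (Matrix.det (h z))⁻¹ * detD (h z) (fderiv ℝ h z v) := by
      rw [Matrix.inv_def, Ring.inverse_eq_inv', smul_mul_assoc, Matrix.trace_smul, detD_apply,
        smul_eq_mul]
    rw [h3]
    simp only [ContinuousLinearMap.comp_apply, smul_apply,
      Complex.reCLM_apply, Complex.ofRealCLM_apply, smul_eq_mul, Complex.ofReal_mul,
      Complex.ofReal_inv, h1, h2]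
  rw [HasFDerivAt.dz_eq hof, key, key, dz, mul_smul_comm, Matrix.trace_smul, mul_sub,
    mul_smul_comm, Matrix.trace_sub, Matrix.trace_smul]
  rfl

/-- `∂̄ ∂ log det h = tr (∂̄ (h⁻¹ ∂ h))` (Jacobi's formula) -/
theorem det_lap {U : Set ℂ} (hU : IsOpen U) {h : ℂ → M3} (hh : ContDiffOn ℝ 2 h U)
    (hp : ∀ z ∈ U, (h z).PosDef) {z : ℂ} (hz : z ∈ U) :
    dzb (dz (fun x => ((Real.log (Matrix.det (h x)).re : ℝ) : ℂ))) z =
      Matrix.trace (dzb (fun x => (h x)⁻¹ * dz h x) z) := by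
  have hd : DifferentiableOn ℝ h U := hh.differentiableOn (by norm_num)
  have h1 : dz (fun x => ((Real.log (Matrix.det (h x)).re : ℝ) : ℂ)) =ᶠ[𝓝 z]
      fun x => Matrix.trace ((h x)⁻¹ * dz h x) := by
    filter_upwards [hU.mem_nhds hz] with x hx
    exact dz_log_det hU hd hp hx
  rw [dzb_congr h1]
  have hinv : ContDiffOn ℝ (2 : ℕ∞) (fun x => (h x)⁻¹) U := by
    refine contDiffOn_inv (k := h) (by exact_mod_cast hh) fun x hx => ?_
    exact Matrix.mul_nonsing_inv _ (isUnit_iff_ne_zero.mpr (hp x hx).det_pos.ne')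
  have hinvd : DifferentiableAt ℝ (fun x => (h x)⁻¹) z :=
    (hinv.differentiableOn (by norm_num) z hz).differentiableAt (hU.mem_nhds hz)
  have hcd : ContDiffAt ℝ 2 h z := hh.contDiffAt (hU.mem_nhds hz)
  have hfd : DifferentiableAt ℝ (fderiv ℝ h) z := by
    have := hcd.fderiv_right (m := 1) (by norm_num)
    exact this.differentiableAt (by norm_num)
  have hdz : DifferentiableAt ℝ (dz h) z := by
    have e1 : DifferentiableAt ℝ (fun x => fderiv ℝ h x 1) z :=
      hfd.clm_apply (differentiableAt_const _)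
    have e2 : DifferentiableAt ℝ (fun x => fderiv ℝ h x I) z :=
      hfd.clm_apply (differentiableAt_const _)
    exact (e1.sub (e2.const_smul I)).const_smul (1 / 2 : ℂ)
  have hg : DifferentiableAt ℝ (fun x => (h x)⁻¹ * dz h x) z := hinvd.mul hdz
  exact dzb_clm_comp (LinearMap.toContinuousLinearMap (Matrix.traceLinearMap (Fin 3) ℂ ℂ)) hg

end M1

end Pool.Agent.Lib8bb
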