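import Pool.Agent.Lib_MP_8bb00a_gt.EDefs

/-!
PIECE G of the existence part of MP_8bb00a_gt: fixed points.
-/

open MeasureTheory Complex Set Metric Filter Topology
open scoped Real ContDiff ComplexConjugate Manifold

noncomputable section

namespace Pool.Agent.Lib8bb

theorem ift_fixed {E F : Type*} [NormedAddCommGroup E] [NormedSpace ℝ E] [CompleteSpace E]
    [NormedAddCommGroup F] [NormedSpace ℝ F] (S : F →L[ℝ] E) (N : E × ℝ → F)
    (L : E × ℝ →L[ℝ] F) (hN : HasStrictFDerivAt N L 0) (hN0 : N 0 = 0)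
    (hL : ∀ x, L (x, 0) = 0) :
    ∀ ε > 0, ∃ t0 > 0, ∀ t : ℝ, |t| < t0 → ∃ x : E, ‖x‖ < ε ∧ x = S (N (x, t)) := by
  intro ε hε
  have hL' : ∀ x y t, L (x, t) = L (y, t) := by
    intro x y t
    have h : L ((x, t) - (y, t)) = 0 := by
      rw [Prod.mk_sub_mk, sub_self]; exact hL _
    rw [map_sub, sub_eq_zero] at h
    exact h
  let A : (E × ℝ) ≃L[ℝ] (E × ℝ) := ContinuousLinearEquiv.equivOfInverse
    ((ContinuousLinearMap.fst ℝ E ℝ - S.comp L).prod (ContinuousLinearMap.snd ℝ E ℝ))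
    ((ContinuousLinearMap.fst ℝ E ℝ + S.comp L).prod (ContinuousLinearMap.snd ℝ E ℝ))
    (by
      rintro ⟨x, t⟩
      ext1
      · simp [hL' (x - S (L (x, t))) x t]
      · simp)
    (by
      rintro ⟨x, t⟩
      ext1
      · simp [hL' (x + S (L (x, t))) x t]
      · simp)
  have hΨ : HasStrictFDerivAt (fun p : E × ℝ => (p.1 - S (N p), p.2))
      (A : (E × ℝ) →L[ℝ] (E × ℝ)) 0 := by
    have h1 : HasStrictFDerivAt (fun p : E × ℝ => p.1 - S (N p))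
        (ContinuousLinearMap.fst ℝ E ℝ - S.comp L) 0 :=
      hasStrictFDerivAt_fst.sub (S.hasStrictFDerivAt.comp (0 : E × ℝ) hN)
    exact h1.prodMk hasStrictFDerivAt_snd
  have hmap := hΨ.map_nhds_eq_of_equiv
  have hU : {p : E × ℝ | ‖p.1‖ < ε} ∈ 𝓝 (0 : E × ℝ) := by
    refine IsOpen.mem_nhds (isOpen_lt (by fun_prop) continuous_const) ?_
    simpa using hε
  have him := Filter.image_mem_map (m := fun p : E × ℝ => (p.1 - S (N p), p.2)) hU
  rw [hmap] at him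
  simp only [Prod.fst_zero, hN0, map_zero, sub_zero, Prod.snd_zero] at him
  obtain ⟨t0, ht0, hb⟩ := Metric.mem_nhds_iff.1 him
  refine ⟨t0, ht0, fun t ht => ?_⟩
  have hmem : ((0 : E), t) ∈ ball ((0 : E), (0 : ℝ)) t0 := by
    rw [Metric.mem_ball, Prod.dist_eq]
    simpa using ht
  obtain ⟨⟨x, s⟩, hx, he⟩ := hb hmem
  simp only [Prod.mk.injEq] at he
  obtain ⟨he1, rfl⟩ := he
  exact ⟨x, hx, sub_eq_zero.1 he1⟩

/-- the nonlinear map, in an abstract Banach star algebra -/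
def NN {𝓑 : Type*} [NormedRing 𝓑] [NormedAlgebra ℝ 𝓑] [StarRing 𝓑] {ι : Type*} [Fintype ι]
    (Wc : 𝓑 →L[ℝ] 𝓑) (dt : 𝓑 → 𝓑) (F : 𝓑) (f0 f1 : ι → 𝓑) (x : (𝓑 × (ι → 𝓑)) × ℝ) : 𝓑 :=
  Wc x.1.1 - (∑ a, x.1.2 a * Ring.inverse (1 + x.1.1) * star (x.1.2 a)) - F
    - (1 / 2 : ℝ) • (F * x.1.1 + x.1.1 * F)
    - (∑ a, (1 + x.1.1) * (f0 a + x.2 • f1 a) * Ring.inverse (1 + x.1.1) *
        star (f0 a + x.2 • f1 a) * (1 + x.1.1))
    + (∑ a, star (f0 a + x.2 • f1 a) * (1 + x.1.1) * (f0 a + x.2 • f1 a))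
    - (dt (1 + x.1.1) - 1) * (1 + x.1.1)

theorem nonlin {𝓑 : Type*} [NormedRing 𝓑] [NormedAlgebra ℝ 𝓑] [CompleteSpace 𝓑] [StarRing 𝓑]
    [NormedStarGroup 𝓑] [StarModule ℝ 𝓑] {ι : Type*} [Fintype ι]
    (Wc : 𝓑 →L[ℝ] 𝓑) (dt : 𝓑 → 𝓑) (trL : 𝓑 →L[ℝ] 𝓑) (hdt : HasStrictFDerivAt dt trL 1)
    (hdt1 : dt 1 = 1) (F : 𝓑) (f0 f1 : ι → 𝓑)
    (hF : F = ∑ a, (star (f0 a) * f0 a - f0 a * star (f0 a)))
    (hW : ∀ w, Wc w = (1 / 2 : ℝ) • (∑ a,
      ((f0 a * (star (f0 a) * w - w * star (f0 a)) - (star (f0 a) * w - w * star (f0 a)) * f0 a) +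
       (star (f0 a) * (f0 a * w - w * f0 a) - (f0 a * w - w * f0 a) * star (f0 a)))) + trL w) :
    NN Wc dt F f0 f1 0 = 0 ∧
    ∃ L : (𝓑 × (ι → 𝓑)) × ℝ →L[ℝ] 𝓑, HasStrictFDerivAt (NN Wc dt F f0 f1) L 0 ∧
      ∀ y, L (y, 0) = 0 := by
  classical
  constructor
  · simp only [NN, Prod.fst_zero, Prod.snd_zero, map_zero, Pi.zero_apply, zero_mul, star_zero,
      mul_zero, Finset.sum_const_zero, sub_zero, add_zero, smul_zero, Ring.inverse_one, one_mul,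
      mul_one, zero_smul, hdt1, sub_self, zero_sub]
    rw [hF, Finset.sum_sub_distrib]
    abel
  · -- the basic building blocks
    let P : (𝓑 × (ι → 𝓑)) × ℝ →L[ℝ] 𝓑 :=
      (ContinuousLinearMap.fst ℝ 𝓑 (ι → 𝓑)).comp (ContinuousLinearMap.fst ℝ (𝓑 × (ι → 𝓑)) ℝ)
    let T : (𝓑 × (ι → 𝓑)) × ℝ →L[ℝ] ℝ := ContinuousLinearMap.snd ℝ (𝓑 × (ι → 𝓑)) ℝ
    let V : ι → ((𝓑 × (ι → 𝓑)) × ℝ →L[ℝ] 𝓑) := fun a =>
      (ContinuousLinearMap.proj (R := ℝ) (φ := fun _ : ι => 𝓑) a).comp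
      ((ContinuousLinearMap.snd ℝ 𝓑 (ι → 𝓑)).comp (ContinuousLinearMap.fst ℝ (𝓑 × (ι → 𝓑)) ℝ))
    have hP : HasStrictFDerivAt (fun x : (𝓑 × (ι → 𝓑)) × ℝ => x.1.1) P 0 := P.hasStrictFDerivAt
    have hT : HasStrictFDerivAt (fun x : (𝓑 × (ι → 𝓑)) × ℝ => x.2) T 0 := T.hasStrictFDerivAt
    have hV : ∀ a, HasStrictFDerivAt (fun x : (𝓑 × (ι → 𝓑)) × ℝ => x.1.2 a) (V a) 0 :=
      fun a => (V a).hasStrictFDerivAt
    have hP1 : HasStrictFDerivAt (fun x : (𝓑 × (ι → 𝓑)) × ℝ => 1 + x.1.1) P 0 := hP.const_add 1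
    have hinv : HasStrictFDerivAt (fun x : (𝓑 × (ι → 𝓑)) × ℝ => Ring.inverse (1 + x.1.1))
        (-P) 0 := by
      have h0 : HasStrictFDerivAt (Ring.inverse : 𝓑 → 𝓑)
          (-ContinuousLinearMap.id ℝ 𝓑) ((1 : 𝓑) + (0 : (𝓑 × (ι → 𝓑)) × ℝ).1.1) := by
        have h1 := hasStrictFDerivAt_ringInverse (𝕜 := ℝ) (1 : 𝓑ˣ)
        have h2 : -ContinuousLinearMap.mulLeftRight ℝ 𝓑 ↑(1 : 𝓑ˣ)⁻¹ ↑(1 : 𝓑ˣ)⁻¹ =
            -ContinuousLinearMap.id ℝ 𝓑 := by
          ext w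
          simp
        rw [h2] at h1
        simpa using h1
      have := h0.comp (0 : (𝓑 × (ι → 𝓑)) × ℝ) hP1
      simpa using this
    have hf : ∀ a, HasStrictFDerivAt (fun x : (𝓑 × (ι → 𝓑)) × ℝ => f0 a + x.2 • f1 a)
        (T.smulRight (f1 a)) 0 := fun a => (hT.smul_const (f1 a)).const_add (f0 a)
    have h1 : HasStrictFDerivAt (fun x : (𝓑 × (ι → 𝓑)) × ℝ => Wc x.1.1) (Wc.comp P) 0 :=
      (Wc.comp P).hasStrictFDerivAt
    have h2 : HasStrictFDerivAt (fun x : (𝓑 × (ι → 𝓑)) × ℝ =>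
        ∑ a, x.1.2 a * Ring.inverse (1 + x.1.1) * star (x.1.2 a)) _ 0 :=
      HasStrictFDerivAt.fun_sum fun a _ => ((hV a).mul' hinv).mul' (hV a).star
    have h4 : HasStrictFDerivAt (fun x : (𝓑 × (ι → 𝓑)) × ℝ =>
        (1 / 2 : ℝ) • (F * x.1.1 + x.1.1 * F)) _ 0 :=
      ((hP.const_mul F).add (hP.mul_const' F)).const_smul (1 / 2 : ℝ)
    have h5 : HasStrictFDerivAt (fun x : (𝓑 × (ι → 𝓑)) × ℝ =>
        ∑ a, (1 + x.1.1) * (f0 a + x.2 • f1 a) * Ring.inverse (1 + x.1.1) *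
        star (f0 a + x.2 • f1 a) * (1 + x.1.1)) _ 0 :=
      HasStrictFDerivAt.fun_sum fun a _ =>
        (((hP1.mul' (hf a)).mul' hinv).mul' (hf a).star).mul' hP1
    have h6 : HasStrictFDerivAt (fun x : (𝓑 × (ι → 𝓑)) × ℝ =>
        ∑ a, star (f0 a + x.2 • f1 a) * (1 + x.1.1) * (f0 a + x.2 • f1 a)) _ 0 :=
      HasStrictFDerivAt.fun_sum fun a _ => ((hf a).star.mul' hP1).mul' (hf a)
    have hd : HasStrictFDerivAt (fun x : (𝓑 × (ι → 𝓑)) × ℝ => dt (1 + x.1.1))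
        (trL.comp P) 0 := by
      have h0 : HasStrictFDerivAt dt trL ((1 : 𝓑) + (0 : (𝓑 × (ι → 𝓑)) × ℝ).1.1) := by
        simpa using hdt
      exact h0.comp (0 : (𝓑 × (ι → 𝓑)) × ℝ) hP1
    have h7 : HasStrictFDerivAt (fun x : (𝓑 × (ι → 𝓑)) × ℝ =>
        (dt (1 + x.1.1) - 1) * (1 + x.1.1)) _ 0 :=
      (hd.sub_const 1).mul' hP1
    refine ⟨_, (((((h1.sub h2).sub_const F).sub h4).sub h5).add h6).sub h7, ?_⟩
    rintro ⟨w, v⟩
    have e1 : P ((w, v), 0) = w := rfl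
    have e2 : T ((w, v), 0) = 0 := rfl
    have e3 : ∀ A B C D t : 𝓑, A + t - B - C + D - t = A - B - C + D := by intros; abel
    simp only [one_div, Pi.mul_apply, Prod.fst_zero, Prod.snd_zero, Pi.zero_apply, add_zero,
      Ring.inverse_one, zero_smul, mul_one, one_mul, star_zero, MulOpposite.op_zero,
      MulOpposite.op_one, one_smul, zero_mul, smul_neg, hdt1, sub_self, zero_add, sub_apply,
      ContinuousLinearMap.coe_comp, Function.comp_apply, hW, sum_apply,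
      add_apply, smul_apply, e1, e2, neg_apply,
      ContinuousLinearMap.smulRight_apply, map_zero,
      Finset.sum_const_zero, sub_zero, MulOpposite.smul_eq_mul_unop, MulOpposite.unop_op,
      smul_eq_mul, mul_zero, hF]
    rw [Finset.smul_sum, Finset.sum_mul, Finset.mul_sum, ← Finset.sum_add_distrib,
      Finset.smul_sum, e3, ← Finset.sum_sub_distrib, ← Finset.sum_sub_distrib,
      ← Finset.sum_add_distrib]
    refine Finset.sum_eq_zero fun a _ => ?_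
    simp only [mul_sub, sub_mul, add_mul, neg_mul, mul_assoc]
    module

section detC

/-- strict derivative of a `3 × 3` determinant with entries in a commutative Banach algebra -/
theorem det_strict_aux {E 𝓐 G : Type*} [NormedAddCommGroup E] [NormedSpace ℝ E]
    [NormedCommRing 𝓐] [NormedAlgebra ℝ 𝓐] [NormedAddCommGroup G] [NormedSpace ℝ G]
    (e : Fin 3 → Fin 3 → (E →L[ℝ] 𝓐)) (D : 𝓐 →L[ℝ] G) (x : E)
    (hx : ∀ i j, e i j x = if i = j then 1 else 0) :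
    HasStrictFDerivAt (fun k => D (e 0 0 k * e 1 1 k * e 2 2 k
        - e 0 0 k * e 1 2 k * e 2 1 k - e 0 1 k * e 1 0 k * e 2 2 k
        + e 0 1 k * e 1 2 k * e 2 0 k + e 0 2 k * e 1 0 k * e 2 1 k
        - e 0 2 k * e 1 1 k * e 2 0 k)) (D.comp (e 0 0 + e 1 1 + e 2 2)) x := by
  have hEs : ∀ i j, HasStrictFDerivAt (fun k : E => e i j k) (e i j) x :=
    fun i j => (e i j).hasStrictFDerivAt
  have h3 : ∀ i j i' j' i'' j'', HasStrictFDerivAt
      (fun k : E => e i j k * e i' j' k * e i'' j'' k)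
      ((e i j x * e i' j' x) • e i'' j'' +
        e i'' j'' x • (e i j x • e i' j' + e i' j' x • e i j)) x :=
    fun i j i' j' i'' j'' => ((hEs i j).mul (hEs i' j')).mul (hEs i'' j'')
  have h4 := (((((h3 0 0 1 1 2 2).fun_sub (h3 0 0 1 2 2 1)).fun_sub (h3 0 1 1 0 2 2)).fun_add
      (h3 0 1 1 2 2 0)).fun_add (h3 0 2 1 0 2 1)).fun_sub (h3 0 2 1 1 2 0)
  have hh := (D.hasStrictFDerivAt (x := _)).comp x h4
  refine hh.congr_fderiv ?_
  ext1 w
  simp [hx]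
  abel

open scoped Matrix.Norms.Frobenius

/- The global instances on matrices below are not reducibly equal to the ones coming from the
Frobenius norm, so that e.g. the normed ring structure on `C(X, M3)` is only found without them. -/
attribute [-instance] instTopologicalSpaceMatrix Matrix.instUniformSpace

/-- pointwise determinant times the identity matrix -/
def detC {X : Type*} [TopologicalSpace X] (k : C(X, M3)) : C(X, M3) :=
  ⟨fun x => (Matrix.det (k x)) • (1 : M3), by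
    have h : Continuous fun x => Matrix.det (k x) := Continuous.matrix_det k.continuous
    exact h.smul continuous_const⟩

theorem detC_strict {X : Type*} [TopologicalSpace X] [CompactSpace X] :
    ∃ trL : C(X, M3) →L[ℝ] C(X, M3), (∀ w x, trL w x = (Matrix.trace (w x)) • (1 : M3)) ∧
      HasStrictFDerivAt (detC (X := X)) trL 1 := by
  let en : Fin 3 → Fin 3 → (M3 →L[ℝ] ℂ) := fun i j =>
    LinearMap.toContinuousLinearMap (Matrix.entryLinearMap ℝ ℂ i j)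
  let E : Fin 3 → Fin 3 → (C(X, M3) →L[ℝ] C(X, ℂ)) := fun i j =>
    (en i j).compLeftContinuous ℝ X
  let s : ℂ →L[ℝ] M3 := LinearMap.toContinuousLinearMap
    ((LinearMap.toSpanSingleton ℂ M3 (1 : M3)).restrictScalars ℝ)
  let D : C(X, ℂ) →L[ℝ] C(X, M3) := s.compLeftContinuous ℝ X
  have hE : ∀ i j (k : C(X, M3)) x, E i j k x = k x i j := fun i j k x => rfl
  have hD : ∀ (f : C(X, ℂ)) x, D f x = f x • (1 : M3) := fun f x => rfl
  refine ⟨D.comp (E 0 0 + E 1 1 + E 2 2), ?_, ?_⟩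
  · intro w x
    show D _ x = _
    rw [hD, Matrix.trace_fin_three]
    rfl
  · have hdet : detC (X := X) = fun k => D (E 0 0 k * E 1 1 k * E 2 2 k
        - E 0 0 k * E 1 2 k * E 2 1 k - E 0 1 k * E 1 0 k * E 2 2 k
        + E 0 1 k * E 1 2 k * E 2 0 k + E 0 2 k * E 1 0 k * E 2 1 k
        - E 0 2 k * E 1 1 k * E 2 0 k) := by
      funext k
      ext1 x
      rw [hD]
      show (Matrix.det (k x)) • (1 : M3) = _
      rw [Matrix.det_fin_three]
      rfl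
    rw [hdet]
    refine det_strict_aux (E := C(X, M3)) (𝓐 := C(X, ℂ)) (G := C(X, M3)) E D 1 ?_
    intro i j
    ext1 x
    rw [hE]
    show (1 : M3) i j = _
    rw [Matrix.one_apply]
    split_ifs <;> rfl

theorem detC_apply {X : Type*} [TopologicalSpace X] (k : C(X, M3)) (x : X) :
    detC k x = (Matrix.det (k x)) • (1 : M3) := rfl

theorem detC_one {X : Type*} [TopologicalSpace X] : detC (X := X) 1 = 1 := by
  ext1 x
  rw [detC_apply]
  show (Matrix.det (1 : M3)) • (1 : M3) = 1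
  rw [Matrix.det_one, one_smul]

end detC

end Pool.Agent.Lib8bb
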