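import Pool.Agent.Lib_MP_8bb00a_gt.WeakSol
import Pool.Agent.Lib_MP_8bb00a_gt.EDb

/-!
Convergence in `L²` of compact sets, used for the local form of the weak equations.
-/

open MeasureTheory Complex Set Metric Filter Topology
open scoped Real ContDiff ComplexConjugate Manifold

noncomputable section

namespace Pool.Agent.Lib8bb

section L2c

variable {V W : Type*} [NormedAddCommGroup V] [NormedAddCommGroup W]

/-- convergence in `L²` of a compact set -/
structure L2c (K : Set ℂ) (F : ℕ → ℂ → V) (f : ℂ → V) : Prop where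
  mem : ∀ j, MemLp (F j) 2 (volume.restrict K)
  mem' : MemLp f 2 (volume.restrict K)
  lim : Tendsto (fun j => eLpNorm (fun z => F j z - f z) 2 (volume.restrict K)) atTop (𝓝 0)

theorem memLp_of_bound {K : Set ℂ} (hK : MeasurableSet K) {f : ℂ → V} {g : ℂ → W} {p : ENNReal}
    (hf : MemLp f p (volume.restrict K)) (hg : AEStronglyMeasurable g (volume.restrict K))
    (M : ℝ) (h : ∀ z ∈ K, ‖g z‖ ≤ M * ‖f z‖) : MemLp g p (volume.restrict K) := by
  refine hf.of_le_mul (c := M) hg ?_
  filter_upwards [ae_restrict_mem hK] with z hz using h z hz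

theorem L2c.of_bound {K : Set ℂ} (hK : MeasurableSet K) {F : ℕ → ℂ → V} {f : ℂ → V}
    (h : L2c K F f) {F' : ℕ → ℂ → W} {f' : ℂ → W}
    (hm : ∀ j, AEStronglyMeasurable (F' j) (volume.restrict K))
    (hm' : AEStronglyMeasurable f' (volume.restrict K)) (M : ℝ)
    (h1 : ∀ j, ∀ z ∈ K, ‖F' j z‖ ≤ M * ‖F j z‖) (h2 : ∀ z ∈ K, ‖f' z‖ ≤ M * ‖f z‖)
    (h3 : ∀ j, ∀ z ∈ K, ‖F' j z - f' z‖ ≤ M * ‖F j z - f z‖) : L2c K F' f' where
  mem j := memLp_of_bound hK (h.mem j) (hm j) M (h1 j)
  mem' := memLp_of_bound hK h.mem' hm' M h2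
  lim := by
    have hb : ∀ j, eLpNorm (fun z => F' j z - f' z) 2 (volume.restrict K) ≤
        ENNReal.ofReal M * eLpNorm (fun z => F j z - f z) 2 (volume.restrict K) := by
      intro j
      refine eLpNorm_le_mul_eLpNorm_of_ae_le_mul ?_ 2
      filter_upwards [ae_restrict_mem hK] with z hz using h3 j z hz
    have hl : Tendsto (fun j => ENNReal.ofReal M *
        eLpNorm (fun z => F j z - f z) 2 (volume.restrict K)) atTop (𝓝 (ENNReal.ofReal M * 0)) :=
      ENNReal.Tendsto.const_mul h.lim (Or.inr ENNReal.ofReal_ne_top)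
    rw [mul_zero] at hl
    exact tendsto_of_tendsto_of_tendsto_of_le_of_le tendsto_const_nhds hl (fun _ => zero_le) hb

theorem L2c.add {K : Set ℂ} {F : ℕ → ℂ → V} {f : ℂ → V} {G : ℕ → ℂ → V} {g : ℂ → V}
    (h : L2c K F f) (h' : L2c K G g) : L2c K (fun j z => F j z + G j z) (fun z => f z + g z) where
  mem j := (h.mem j).add (h'.mem j)
  mem' := h.mem'.add h'.mem'
  lim := by
    have hb : ∀ j, eLpNorm (fun z => F j z + G j z - (f z + g z)) 2 (volume.restrict K) ≤
        eLpNorm (fun z => F j z - f z) 2 (volume.restrict K) +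
        eLpNorm (fun z => G j z - g z) 2 (volume.restrict K) := by
      intro j
      have e : (fun z => F j z + G j z - (f z + g z)) =
          (fun z => F j z - f z) + fun z => G j z - g z := by
        ext z; simp only [Pi.add_apply]; abel
      rw [e]
      exact eLpNorm_add_le ((h.mem j).1.sub h.mem'.1) ((h'.mem j).1.sub h'.mem'.1) (by norm_num)
    have hl := h.lim.add h'.lim
    rw [add_zero] at hl
    exact tendsto_of_tendsto_of_tendsto_of_le_of_le tendsto_const_nhds hl (fun _ => zero_le) hb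

theorem L2c.zero (K : Set ℂ) : L2c K (fun _ _ => (0 : V)) (fun _ => 0) where
  mem j := MemLp.zero'
  mem' := MemLp.zero'
  lim := by simp

theorem L2c.sum {ι : Type*} {s : Finset ι} {K : Set ℂ} {F : ι → ℕ → ℂ → V} {f : ι → ℂ → V}
    (h : ∀ i ∈ s, L2c K (F i) (f i)) :
    L2c K (fun j z => ∑ i ∈ s, F i j z) (fun z => ∑ i ∈ s, f i z) := by
  classical
  induction s using Finset.induction_on with
  | empty => simpa using L2c.zero K
  | insert i s hi ih =>
    simp only [Finset.sum_insert hi]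
    exact (h i (Finset.mem_insert_self _ _)).add
      (ih fun k hk => h k (Finset.mem_insert_of_mem hk))

theorem L2c.sub {K : Set ℂ} {F : ℕ → ℂ → V} {f : ℂ → V} {G : ℕ → ℂ → V} {g : ℂ → V}
    (hK : MeasurableSet K) (h : L2c K F f) (h' : L2c K G g) :
    L2c K (fun j z => F j z - G j z) (fun z => f z - g z) := by
  have h2 : L2c K (fun j z => - G j z) (fun z => - g z) := by
    refine h'.of_bound hK (fun j => (h'.mem j).1.neg) h'.mem'.1.neg 1 ?_ ?_ ?_
    · intro j z _; simp
    · intro z _; simp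
    · intro j z _
      rw [one_mul, ← norm_neg]
      apply le_of_eq; congr 1; abel
  simpa only [sub_eq_add_neg] using h.add h2

/-- the integrals converge -/
theorem L2c.integral [NormedSpace ℝ V] {K : Set ℂ} (hK : IsCompact K) {F : ℕ → ℂ → V}
    {f : ℂ → V} (h : L2c K F f) (h0 : ∀ j, ∀ z ∉ K, F j z = 0) (h0' : ∀ z ∉ K, f z = 0) :
    Tendsto (fun j => ∫ z, F j z) atTop (𝓝 (∫ z, f z)) := by
  have hfin : IsFiniteMeasure (volume.restrict K) :=
    ⟨by simpa using hK.measure_lt_top⟩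
  have e1 : ∀ j, ∫ z, F j z = ∫ z in K, F j z := fun j =>
    (setIntegral_eq_integral_of_forall_compl_eq_zero (h0 j)).symm
  have e2 : ∫ z, f z = ∫ z in K, f z :=
    (setIntegral_eq_integral_of_forall_compl_eq_zero h0').symm
  simp_rw [e1]
  rw [e2]
  refine tendsto_integral_of_L1 f h.mem'.1
    (Eventually.of_forall fun j => (h.mem j).integrable (by norm_num)) ?_
  have hb : ∀ j, ∫⁻ z in K, ‖F j z - f z‖ₑ ≤
      eLpNorm (fun z => F j z - f z) 2 (volume.restrict K) *
        (volume.restrict K) univ ^ (1 / (1:ENNReal).toReal - 1 / (2:ENNReal).toReal) := by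
    intro j
    rw [← eLpNorm_one_eq_lintegral_enorm]
    exact eLpNorm_le_eLpNorm_mul_rpow_measure_univ (by norm_num) ((h.mem j).1.sub h.mem'.1)
  have hl : Tendsto (fun j => eLpNorm (fun z => F j z - f z) 2 (volume.restrict K) *
        (volume.restrict K) univ ^ (1 / (1:ENNReal).toReal - 1 / (2:ENNReal).toReal)) atTop
        (𝓝 (0 * (volume.restrict K) univ ^ (1 / (1:ENNReal).toReal - 1 / (2:ENNReal).toReal))) := by
    refine ENNReal.Tendsto.mul_const h.lim (Or.inr ?_)
    exact ENNReal.rpow_ne_top_of_nonneg (by norm_num) (measure_ne_top _ _)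
  rw [zero_mul] at hl
  exact tendsto_of_tendsto_of_tendsto_of_le_of_le tendsto_const_nhds hl (fun _ => zero_le) hb

theorem L2c.integrable [NormedSpace ℝ V] {K : Set ℂ} (hK : IsCompact K) {f : ℂ → V}
    (h : MemLp f 2 (volume.restrict K)) (h0' : ∀ z ∉ K, f z = 0) : Integrable f := by
  have hfin : IsFiniteMeasure (volume.restrict K) :=
    ⟨by simpa using hK.measure_lt_top⟩
  have h1 : IntegrableOn f K := h.integrable (by norm_num)
  rw [← integrableOn_iff_integrable_of_support_subset (s := K)]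
  · exact h1
  · intro z hz
    by_contra hh
    exact hz (h0' z hh)

end L2c

section alg2

variable {𝔸 : Type*} [NormedRing 𝔸]

theorem exists_norm_bound {K : Set ℂ} (hK : IsCompact K) {V : Type*} [NormedAddCommGroup V]
    {G : ℂ → V} (hG : ContinuousOn G K) : ∃ M : ℝ, 0 ≤ M ∧ ∀ z ∈ K, ‖G z‖ ≤ M := by
  obtain ⟨M, hM⟩ := hK.exists_bound_of_continuousOn hG
  exact ⟨max M 0, le_max_right _ _, fun z hz => (hM z hz).trans (le_max_left _ _)⟩

theorem L2c.mul_left {K : Set ℂ} (hK : IsCompact K) {F : ℕ → ℂ → 𝔸} {f : ℂ → 𝔸}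
    (h : L2c K F f) {G : ℂ → 𝔸} (hG : ContinuousOn G K) :
    L2c K (fun j z => G z * F j z) (fun z => G z * f z) := by
  obtain ⟨M, hM0, hM⟩ := exists_norm_bound hK hG
  have hGm : AEStronglyMeasurable G (volume.restrict K) :=
    hG.aestronglyMeasurable hK.measurableSet
  refine h.of_bound hK.measurableSet (fun j => hGm.mul (h.mem j).1) (hGm.mul h.mem'.1) M ?_ ?_ ?_
  · intro j z hz
    exact (norm_mul_le _ _).trans (by gcongr; exact hM z hz)
  · intro z hz
    exact (norm_mul_le _ _).trans (by gcongr; exact hM z hz)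
  · intro j z hz
    rw [← mul_sub]
    exact (norm_mul_le _ _).trans (by gcongr; exact hM z hz)

theorem L2c.mul_right {K : Set ℂ} (hK : IsCompact K) {F : ℕ → ℂ → 𝔸} {f : ℂ → 𝔸}
    (h : L2c K F f) {G : ℂ → 𝔸} (hG : ContinuousOn G K) :
    L2c K (fun j z => F j z * G z) (fun z => f z * G z) := by
  obtain ⟨M, hM0, hM⟩ := exists_norm_bound hK hG
  have hGm : AEStronglyMeasurable G (volume.restrict K) :=
    hG.aestronglyMeasurable hK.measurableSet
  refine h.of_bound hK.measurableSet (fun j => (h.mem j).1.mul hGm) (h.mem'.1.mul hGm) M ?_ ?_ ?_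
  · intro j z hz
    refine (norm_mul_le _ _).trans ?_
    rw [mul_comm]; gcongr; exact hM z hz
  · intro z hz
    refine (norm_mul_le _ _).trans ?_
    rw [mul_comm]; gcongr; exact hM z hz
  · intro j z hz
    rw [← sub_mul]
    refine (norm_mul_le _ _).trans ?_
    rw [mul_comm]; gcongr; exact hM z hz

theorem L2c.csmul {V : Type*} [NormedAddCommGroup V] [NormedSpace ℂ V] {K : Set ℂ}
    (hK : IsCompact K) {F : ℕ → ℂ → V} {f : ℂ → V}
    (h : L2c K F f) {k : ℂ → ℂ} (hk : ContinuousOn k K) :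
    L2c K (fun j z => k z • F j z) (fun z => k z • f z) := by
  obtain ⟨M, hM0, hM⟩ := exists_norm_bound hK hk
  have hkm : AEStronglyMeasurable k (volume.restrict K) :=
    hk.aestronglyMeasurable hK.measurableSet
  refine h.of_bound hK.measurableSet (fun j => hkm.smul (h.mem j).1) (hkm.smul h.mem'.1) M ?_ ?_ ?_
  · intro j z hz
    rw [norm_smul]; gcongr; exact hM z hz
  · intro z hz
    rw [norm_smul]; gcongr; exact hM z hz
  · intro j z hz
    rw [← smul_sub, norm_smul]; gcongr; exact hM z hz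

theorem L2c.congr {V : Type*} [NormedAddCommGroup V] {K : Set ℂ} (hK : MeasurableSet K)
    {F : ℕ → ℂ → V} {f : ℂ → V} (h : L2c K F f) {F' : ℕ → ℂ → V} {f' : ℂ → V}
    (h1 : ∀ j, ∀ z ∈ K, F j z = F' j z) (h2 : ∀ z ∈ K, f z = f' z) : L2c K F' f' := by
  have e1 : ∀ j, F j =ᵐ[volume.restrict K] F' j := by
    intro j
    filter_upwards [ae_restrict_mem hK] with z hz using h1 j z hz
  have e2 : f =ᵐ[volume.restrict K] f' := by
    filter_upwards [ae_restrict_mem hK] with z hz using h2 z hz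
  refine ⟨fun j => (memLp_congr_ae (e1 j)).1 (h.mem j), (memLp_congr_ae e2).1 h.mem', ?_⟩
  have e3 : ∀ j, eLpNorm (fun z => F' j z - f' z) 2 (volume.restrict K) =
      eLpNorm (fun z => F j z - f z) 2 (volume.restrict K) := fun j =>
    eLpNorm_congr_ae ((e1 j).symm.sub e2.symm)
  simp_rw [e3]
  exact h.lim

section bil

variable {E F H : Type*} [NormedAddCommGroup E] [NormedSpace ℝ E]
    [NormedAddCommGroup F] [NormedSpace ℝ F] [NormedAddCommGroup H] [NormedSpace ℝ H]
    (L : E →L[ℝ] F →L[ℝ] H)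

theorem memLp_bilin {K : Set ℂ} (hK : IsCompact K) {f : ℂ → E} {g : ℂ → F} {p : ENNReal}
    (hf : MemLp f p (volume.restrict K)) (hg : ContinuousOn g K) :
    MemLp (fun z => L (f z) (g z)) p (volume.restrict K) := by
  obtain ⟨M, hM0, hM⟩ := exists_norm_bound hK hg
  have hgm : AEStronglyMeasurable g (volume.restrict K) :=
    hg.aestronglyMeasurable hK.measurableSet
  refine memLp_of_bound hK.measurableSet hf (L.aestronglyMeasurable_comp₂ hf.1 hgm) (‖L‖ * M) ?_
  intro z hz
  calc ‖L (f z) (g z)‖ ≤ ‖L‖ * ‖f z‖ * ‖g z‖ := L.le_opNorm₂ _ _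
    _ ≤ ‖L‖ * ‖f z‖ * M := by gcongr; exact hM z hz
    _ = ‖L‖ * M * ‖f z‖ := by ring

theorem L2c.bilin {K : Set ℂ} (hK : IsCompact K) {f : ℕ → ℂ → E} {f' : ℂ → E} {g : ℂ → F}
    (h : L2c K f f') (hg : ContinuousOn g K) :
    L2c K (fun j z => L (f j z) (g z)) (fun z => L (f' z) (g z)) := by
  obtain ⟨M, hM0, hM⟩ := exists_norm_bound hK hg
  have hgm : AEStronglyMeasurable g (volume.restrict K) :=
    hg.aestronglyMeasurable hK.measurableSet
  have key : ∀ v : E, ∀ z ∈ K, ‖L v (g z)‖ ≤ ‖L‖ * M * ‖v‖ := by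
    intro v z hz
    calc ‖L v (g z)‖ ≤ ‖L‖ * ‖v‖ * ‖g z‖ := L.le_opNorm₂ _ _
      _ ≤ ‖L‖ * ‖v‖ * M := by gcongr; exact hM z hz
      _ = ‖L‖ * M * ‖v‖ := by ring
  refine h.of_bound hK.measurableSet (fun j => L.aestronglyMeasurable_comp₂ (h.mem j).1 hgm)
    (L.aestronglyMeasurable_comp₂ h.mem'.1 hgm) (‖L‖ * M) (fun j z hz => key _ z hz)
    (fun z hz => key _ z hz) ?_
  intro j z hz
  have : L (f j z) (g z) - L (f' z) (g z) = L (f j z - f' z) (g z) := by
    rw [map_sub]; rfl
  rw [this]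
  exact key _ z hz

end bil

end alg2

section pull

variable {X : Type*} [TopologicalSpace X] [ChartedSpace ℂ X] [MeasurableSpace X] [BorelSpace X]

/-- the area measure of a compact subset of a chart is controlled by the measure of the surface -/
theorem SurfData.map_le (D : SurfData X) {e : OpenPartialHomeomorph X ℂ} (he : e ∈ atlas ℂ X)
    {K : Set ℂ} (hK : IsCompact K) (hKt : K ⊆ e.target) :
    ∃ c : ENNReal, c ≠ ⊤ ∧ (volume.restrict K).map e.symm ≤ c • D.ν := by
  rcases K.eq_empty_or_nonempty with h0 | hne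
  · refine ⟨0, by simp, ?_⟩
    subst h0
    simp
  obtain ⟨z0, hz0, hmin⟩ := hK.exists_isMinOn hne ((D.n_smooth e he).continuousOn.mono hKt)
  have hpos : 0 < D.n e z0 := D.n_pos e he z0 (hKt hz0)
  have hsymm : AEMeasurable e.symm (volume.restrict K) :=
    (e.continuousOn_symm.mono hKt).aemeasurable hK.measurableSet
  refine ⟨(ENNReal.ofReal (D.n e z0))⁻¹, by simp [hpos], ?_⟩
  rw [Measure.le_iff]
  intro A hA
  rw [Measure.map_apply_of_aemeasurable hsymm hA, Measure.smul_apply, smul_eq_mul]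
  have hch := D.chart e he (A.indicator 1) (measurable_one.indicator hA)
  have h1 : D.ν A ≥ ∫⁻ z in e.target, (A.indicator 1 (e.symm z) : ENNReal) *
      ENNReal.ofReal (D.n e z) := by
    rw [← hch, lintegral_indicator_one hA]
    exact Measure.restrict_apply_le _ _
  have hAm : NullMeasurableSet (e.symm ⁻¹' A) (volume.restrict K) :=
    hsymm.nullMeasurableSet_preimage hA
  have h2 : (volume.restrict K) (e.symm ⁻¹' A) =
      ∫⁻ z in K, (A.indicator 1 (e.symm z) : ENNReal) := by
    rw [← lintegral_indicator_one₀ hAm]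
    rfl
  rw [h2]
  have h3 : ∫⁻ z in K, (A.indicator 1 (e.symm z) : ENNReal) ≤
      ∫⁻ z in K, (ENNReal.ofReal (D.n e z0))⁻¹ * ((A.indicator 1 (e.symm z) : ENNReal) *
        ENNReal.ofReal (D.n e z)) := by
    refine setLIntegral_mono' hK.measurableSet fun z hz => ?_
    have hle : ENNReal.ofReal (D.n e z0) ≤ ENNReal.ofReal (D.n e z) :=
      ENNReal.ofReal_le_ofReal (hmin hz)
    have hne0 : ENNReal.ofReal (D.n e z0) ≠ 0 := by simp [hpos]
    calc (A.indicator 1 (e.symm z) : ENNReal)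
        = (A.indicator 1 (e.symm z) : ENNReal) * ((ENNReal.ofReal (D.n e z0))⁻¹ *
          ENNReal.ofReal (D.n e z0)) := by
          rw [ENNReal.inv_mul_cancel hne0 ENNReal.ofReal_ne_top, mul_one]
      _ ≤ (A.indicator 1 (e.symm z) : ENNReal) * ((ENNReal.ofReal (D.n e z0))⁻¹ *
          ENNReal.ofReal (D.n e z)) := by gcongr
      _ = _ := by ring
  refine h3.trans ?_
  rw [lintegral_const_mul' _ _ (by simp [hpos])]
  gcongr
  exact (lintegral_mono_set hKt).trans h1

theorem SurfData.eLpNorm_pull (D : SurfData X) {e : OpenPartialHomeomorph X ℂ}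
    (he : e ∈ atlas ℂ X) {K : Set ℂ} (hK : IsCompact K) (hKt : K ⊆ e.target) {V : Type*}
    [NormedAddCommGroup V] :
    ∃ c : ENNReal, c ≠ ⊤ ∧ ∀ f : X → V, AEStronglyMeasurable f D.ν →
      eLpNorm (fun z => f (e.symm z)) 2 (volume.restrict K) ≤ c * eLpNorm f 2 D.ν := by
  obtain ⟨c, hc, hle⟩ := D.map_le he hK hKt
  have hsymm : AEMeasurable e.symm (volume.restrict K) :=
    (e.continuousOn_symm.mono hKt).aemeasurable hK.measurableSet
  refine ⟨c ^ (1 / (2:ENNReal)).toReal, ENNReal.rpow_ne_top_of_nonneg (by simp) hc, ?_⟩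
  intro f hf
  have hf' : AEStronglyMeasurable f ((volume.restrict K).map e.symm) :=
    hf.mono_ac (Measure.absolutelyContinuous_of_le_smul hle)
  have h1 := eLpNorm_map_measure (p := 2) hf' hsymm
  have h2 : eLpNorm f 2 ((volume.restrict K).map e.symm) ≤ _ := eLpNorm_le_of_measure_le_smul hle
  rw [h1] at h2
  exact h2

theorem SurfData.memLp_pull (D : SurfData X) {e : OpenPartialHomeomorph X ℂ}
    (he : e ∈ atlas ℂ X) {K : Set ℂ} (hK : IsCompact K) (hKt : K ⊆ e.target) {V : Type*}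
    [NormedAddCommGroup V] {f : X → V} (hf : MemLp f 2 D.ν) :
    MemLp (fun z => f (e.symm z)) 2 (volume.restrict K) := by
  obtain ⟨c, hc, hle⟩ := D.map_le he hK hKt
  have hsymm : AEMeasurable e.symm (volume.restrict K) :=
    (e.continuousOn_symm.mono hKt).aemeasurable hK.measurableSet
  exact (hf.of_measure_le_smul hc hle).comp_of_map hsymm

theorem SurfData.aestronglyMeasurable_pull (D : SurfData X) {e : OpenPartialHomeomorph X ℂ}
    (he : e ∈ atlas ℂ X) {K : Set ℂ} (hK : IsCompact K) (hKt : K ⊆ e.target) {V : Type*}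
    [NormedAddCommGroup V] {f : X → V} (hf : AEStronglyMeasurable f D.ν) :
    AEStronglyMeasurable (fun z => f (e.symm z)) (volume.restrict K) := by
  obtain ⟨c, hc, hle⟩ := D.map_le he hK hKt
  have hsymm : AEMeasurable e.symm (volume.restrict K) :=
    (e.continuousOn_symm.mono hKt).aemeasurable hK.measurableSet
  have hf' : AEStronglyMeasurable f ((volume.restrict K).map e.symm) :=
    hf.mono_ac (Measure.absolutelyContinuous_of_le_smul hle)
  exact hf'.comp_aemeasurable hsymm

theorem SurfData.L2c_pull (D : SurfData X) {e : OpenPartialHomeomorph X ℂ}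
    (he : e ∈ atlas ℂ X) {K : Set ℂ} (hK : IsCompact K) (hKt : K ⊆ e.target) {V : Type*}
    [NormedAddCommGroup V] {F : ℕ → X → V} {f : X → V} (hF : ∀ j, MemLp (F j) 2 D.ν)
    (hf : MemLp f 2 D.ν)
    (h : Tendsto (fun j => eLpNorm (fun x => F j x - f x) 2 D.ν) atTop (𝓝 0)) :
    L2c K (fun j z => F j (e.symm z)) (fun z => f (e.symm z)) where
  mem j := D.memLp_pull he hK hKt (hF j)
  mem' := D.memLp_pull he hK hKt hf
  lim := by
    obtain ⟨c, hc, hle⟩ := D.eLpNorm_pull he hK hKt (V := V)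
    have hb : ∀ j, eLpNorm (fun z => F j (e.symm z) - f (e.symm z)) 2 (volume.restrict K) ≤
        c * eLpNorm (fun x => F j x - f x) 2 D.ν := fun j =>
      hle (fun x => F j x - f x) ((hF j).1.sub hf.1)
    have hl := ENNReal.Tendsto.const_mul (a := c) h (Or.inr hc)
    rw [mul_zero] at hl
    exact tendsto_of_tendsto_of_tendsto_of_le_of_le tendsto_const_nhds hl (fun _ => zero_le) hb

end pull

end Pool.Agent.Lib8bb
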