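import Pool.Agent.Lib_MP_8bb00a_gt.WProd
import Pool.Agent.Lib_MP_8bb00a_gt.EDefs

/-!
Local regularity: `L²` weak solutions of the linear first order system are of class `C¹`.
-/

open MeasureTheory Complex Set Metric Filter Topology
open scoped Real ContDiff ComplexConjugate Manifold

noncomputable section

namespace Pool.Agent.Lib8bb

/-- `q ∈ L⁴` gives a continuous representative, for `∂` -/
theorem reg_L4_C0' {V : Type*} [NormedAddCommGroup V] [NormedSpace ℂ V] [CompleteSpace V]
    {U : Set ℂ} {w q : ℂ → V} {z0 : ℂ} {r : ℝ}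
    (hr : 0 < r) (hball : closedBall z0 (2 * r) ⊆ U) (hw : IntegrableOn w (closedBall z0 (2 * r)))
    (hq : MemLp q 4 (volume.restrict (closedBall z0 (2 * r)))) (h : WDz U w q) :
    ∃ u : ℂ → V, ContinuousOn u (ball z0 r) ∧ w =ᵐ[volume.restrict (ball z0 r)] u := by
  have hcont : Continuous (fun z : ℂ => conj z) := Complex.continuous_conj
  obtain ⟨u, hu, hwu⟩ := reg_L4_C0 (z0 := conj z0) hr
    (by rw [← closedBall_conj]; exact preimage_mono hball) (integrableOn_conj hw)
    (memLp_conj hq) h.conj_comp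
  have hmaps : MapsTo (fun z : ℂ => conj z) (ball z0 r) (ball (conj z0) r) := by
    intro z hz
    have : conj z ∈ (fun z : ℂ => conj z) ⁻¹' ball z0 r := by simpa using hz
    rw [ball_conj] at this
    exact this
  exact ⟨fun z => u (conj z), hu.comp hcont.continuousOn hmaps, ae_conj_ball hwu⟩

/-- change of the right hand side and of the function almost everywhere, restriction to a
smaller set -/
theorem WDbar.congr {V : Type*} [NormedAddCommGroup V] [NormedSpace ℂ V] {U U' : Set ℂ}
    {w q w' q' : ℂ → V} (h : WDbar U w q) (hU' : MeasurableSet U') (hUU : U' ⊆ U)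
    (hw : w =ᵐ[volume.restrict U'] w') (hq : q =ᵐ[volume.restrict U'] q') : WDbar U' w' q' := by
  intro ζ hζ hζc hζs
  have h1 := h ζ hζ hζc (hζs.trans hUU)
  rw [Filter.EventuallyEq, ae_restrict_iff' hU'] at hw hq
  have e1 : ∫ z, dzb ζ z • w' z = ∫ z, dzb ζ z • w z := by
    refine integral_congr_ae ?_
    filter_upwards [hw] with z hz
    by_cases hzU : z ∈ U'
    · rw [hz hzU]
    · rw [image_eq_zero_of_notMem_tsupport (fun h => hzU (hζs (tsupport_dzb_subset h)))]; simp
  have e2 : ∫ z, ζ z • q' z = ∫ z, ζ z • q z := by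
    refine integral_congr_ae ?_
    filter_upwards [hq] with z hz
    by_cases hzU : z ∈ U'
    · rw [hz hzU]
    · rw [image_eq_zero_of_notMem_tsupport (fun h => hzU (hζs h))]; simp
  rw [e1, e2, h1]

section ring

variable {𝔸 : Type*} [NormedRing 𝔸] [NormedAlgebra ℂ 𝔸]

omit [NormedAlgebra ℂ 𝔸] in
/-- multiplication by bounded functions on a compact set -/
theorem memLp_mul_mul {K U : Set ℂ} (hK : IsCompact K) (hKU : K ⊆ U) {a b : ℂ → 𝔸}
    (ha : ContinuousOn a U) (hb : ContinuousOn b U) {f : ℂ → 𝔸} {p : ENNReal}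
    (hf : MemLp f p (volume.restrict K)) :
    MemLp (fun z => a z * f z * b z) p (volume.restrict K) := by
  have hKm : MeasurableSet K := hK.isClosed.measurableSet
  obtain ⟨M, hM⟩ := hK.exists_bound_of_continuousOn (ha.mono hKU)
  obtain ⟨N, hN⟩ := hK.exists_bound_of_continuousOn (hb.mono hKU)
  have hm : AEStronglyMeasurable (fun z => a z * f z * b z) (volume.restrict K) :=
    (((ha.mono hKU).aestronglyMeasurable hKm).mul hf.1).mul
      ((hb.mono hKU).aestronglyMeasurable hKm)
  refine MemLp.of_le_mul (c := |M| * |N|) hf hm ?_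
  filter_upwards [ae_restrict_mem hKm] with z hz
  calc ‖a z * f z * b z‖ ≤ ‖a z‖ * ‖f z‖ * ‖b z‖ :=
        (norm_mul_le _ _).trans (mul_le_mul_of_nonneg_right (norm_mul_le _ _) (norm_nonneg _))
    _ ≤ |M| * ‖f z‖ * |N| := by
        have h1 := (hM z hz).trans (le_abs_self M)
        have h2 := (hN z hz).trans (le_abs_self N)
        gcongr
    _ = |M| * |N| * ‖f z‖ := by ring

end ring

section B

variable {𝔸 : Type*} [NormedRing 𝔸] [NormedAlgebra ℂ 𝔸] [StarRing 𝔸] [StarModule ℂ 𝔸]
  [NormedStarGroup 𝔸] [CompleteSpace 𝔸]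

omit [StarModule ℂ 𝔸] in
/-- the first step: continuous representatives near a point -/
theorem local_rep_cont {U : Set ℂ} (hU : IsOpen U) {G Gi : ℂ → 𝔸}
    (hG : ContDiffOn ℝ ∞ G U) (hGi : ContDiffOn ℝ ∞ Gi U)
    (hGG : ∀ z ∈ U, G z * Gi z = 1) (hGG' : ∀ z ∈ U, Gi z * G z = 1)
    {w q : ℂ → 𝔸} {T : ℂ → 𝔸 →L[ℝ] 𝔸} (hT : ContinuousOn T U) {ρ : ℂ → 𝔸}
    (hρ : ∀ K ⊆ U, IsCompact K → MemLp ρ 4 (volume.restrict K))
    (hw : ∀ K ⊆ U, IsCompact K → MemLp w 2 (volume.restrict K))
    (hq : ∀ K ⊆ U, IsCompact K → MemLp q 2 (volume.restrict K))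
    (h1 : WDbar U (fun z => G z * w z * Gi z) (fun z => G z * q z * Gi z))
    (h2 : WDz U (fun z => star (Gi z) * q z * star (G z))
      (fun z => star (Gi z) * (T z (w z) + ρ z) * star (G z))) {z0 : ℂ} (hz0 : z0 ∈ U) :
    ∃ r > 0, (∃ u : ℂ → 𝔸, ContinuousOn u (ball z0 r) ∧ w =ᵐ[volume.restrict (ball z0 r)] u) ∧
      (∃ u : ℂ → 𝔸, ContinuousOn u (ball z0 r) ∧ q =ᵐ[volume.restrict (ball z0 r)] u) := by
  obtain ⟨R, hR, hRU⟩ := Metric.isOpen_iff.mp hU z0 hz0
  set r := R / 3 with hrdef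
  have hr : 0 < r := by positivity
  have hB1 : closedBall z0 (2 * r) ⊆ U :=
    (closedBall_subset_ball (by rw [hrdef]; linarith)).trans hRU
  have hGc : ContinuousOn G U := hG.continuousOn
  have hGic : ContinuousOn Gi U := hGi.continuousOn
  have hGs : ContinuousOn (fun z => star (G z)) U := hGc.star
  have hGis : ContinuousOn (fun z => star (Gi z)) U := hGic.star
  have hfin : ∀ s : ℝ, IsFiniteMeasure (volume.restrict (closedBall z0 s)) := fun s =>
    ⟨by rw [Measure.restrict_apply_univ]; exact (isCompact_closedBall _ _).measure_lt_top⟩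
  have := hfin (2 * r)
  have hw2 := hw _ hB1 (isCompact_closedBall _ _)
  have hq2 := hq _ hB1 (isCompact_closedBall _ _)
  -- step 1: `w ∈ L⁴`
  have hW2 := memLp_mul_mul (isCompact_closedBall z0 (2 * r)) hB1 hGc hGic hw2
  have hQ2 := memLp_mul_mul (isCompact_closedBall z0 (2 * r)) hB1 hGc hGic hq2
  set r' := r / 2 with hr'def
  have hr' : 0 < r' := by positivity
  have hB2 : closedBall z0 r' ⊆ U := (closedBall_subset_closedBall (by linarith)).trans hB1
  have hW4 : MemLp (fun z => G z * w z * Gi z) 4 (volume.restrict (closedBall z0 r')) :=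
    reg_L2_L4 hr (by linarith) hB1 (hW2.integrable (by norm_num)) hQ2 h1
  have hw4 : MemLp w 4 (volume.restrict (closedBall z0 r')) := by
    have h3 := memLp_mul_mul (isCompact_closedBall z0 r') hB2 hGic hGc hW4
    refine h3.ae_eq ?_
    filter_upwards [ae_restrict_mem measurableSet_closedBall] with z hz
    have e1 := hGG' z (hB2 hz)
    calc Gi z * (G z * w z * Gi z) * G z = (Gi z * G z) * w z * (Gi z * G z) := by
          simp only [mul_assoc]
      _ = w z := by rw [e1, one_mul, mul_one]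
  -- step 2: `q` is continuous
  have hTw : MemLp (fun z => T z (w z)) 4 (volume.restrict (closedBall z0 r')) := by
    obtain ⟨M, hM⟩ := (isCompact_closedBall z0 r').exists_bound_of_continuousOn (hT.mono hB2)
    have hTm : AEStronglyMeasurable T (volume.restrict (closedBall z0 r')) :=
      (hT.mono hB2).aestronglyMeasurable measurableSet_closedBall
    have hm : AEStronglyMeasurable (fun z => T z (w z)) (volume.restrict (closedBall z0 r')) :=
      (ContinuousLinearMap.id ℝ (𝔸 →L[ℝ] 𝔸)).aestronglyMeasurable_comp₂ hTm hw4.1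
    refine MemLp.of_le_mul (c := |M|) hw4 hm ?_
    filter_upwards [ae_restrict_mem measurableSet_closedBall] with z hz
    calc ‖T z (w z)‖ ≤ ‖T z‖ * ‖w z‖ := ContinuousLinearMap.le_opNorm _ _
      _ ≤ |M| * ‖w z‖ := by
        have h1 := (hM z hz).trans (le_abs_self M)
        gcongr
  have hP4 := memLp_mul_mul (isCompact_closedBall z0 r') hB2 hGis hGs
    (hTw.add (hρ _ hB2 (isCompact_closedBall _ _)))
  set r1 := r' / 2 with hr1def
  have hr1 : 0 < r1 := by positivity
  have e2r1 : 2 * r1 = r' := by rw [hr1def]; ring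
  have hB3 : ball z0 r1 ⊆ U := by
    refine ball_subset_closedBall.trans ((closedBall_subset_closedBall ?_).trans hB2)
    linarith
  have hQt2 := memLp_mul_mul (isCompact_closedBall z0 r') hB2 hGis hGs
    (hq _ hB2 (isCompact_closedBall _ _))
  have := hfin r'
  obtain ⟨u, hu, hqu⟩ := reg_L4_C0' (z0 := z0) (r := r1) hr1 (by rw [e2r1]; exact hB2)
    (by rw [e2r1]; exact hQt2.integrable (by norm_num)) (by rw [e2r1]; exact hP4) h2
  have hq1c : ContinuousOn (fun z => star (G z) * u z * star (Gi z)) (ball z0 r1) :=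
    ((hGs.mono hB3).mul hu).mul (hGis.mono hB3)
  have hq1 : q =ᵐ[volume.restrict (ball z0 r1)] fun z => star (G z) * u z * star (Gi z) := by
    filter_upwards [hqu, ae_restrict_mem measurableSet_ball] with z hz hzb
    rw [← hz]
    have e1 : star (G z) * star (Gi z) = 1 := by
      rw [← star_mul, hGG' z (hB3 hzb), star_one]
    calc q z = (star (G z) * star (Gi z)) * q z * (star (G z) * star (Gi z)) := by
          rw [e1, one_mul, mul_one]
      _ = _ := by simp only [mul_assoc]
  -- step 3: `w` is continuous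
  have h3 : WDbar (ball z0 r1) (fun z => G z * w z * Gi z)
      (fun z => G z * (star (G z) * u z * star (Gi z)) * Gi z) := by
    refine h1.congr measurableSet_ball hB3 (ae_eq_refl _) ?_
    filter_upwards [hq1] with z hz
    rw [hz]
  set r2 := r1 / 3 with hr2def
  have hr2 : 0 < r2 := by positivity
  have hB4 : closedBall z0 (2 * r2) ⊆ ball z0 r1 := closedBall_subset_ball (by linarith)
  obtain ⟨v, hv, hwv⟩ := reg_C0 isOpen_ball hr2 hB4
    ((hW4.integrable (by norm_num)).mono_measure (Measure.restrict_mono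
      (closedBall_subset_closedBall (by linarith)) le_rfl))
    (((hGc.mono hB3).mul hq1c).mul (hGic.mono hB3)) h3
  have hB5 : ball z0 r2 ⊆ ball z0 r1 := ball_subset_ball (by linarith)
  refine ⟨r2, hr2, ⟨fun z => Gi z * v z * G z, ?_, ?_⟩, ⟨_, hq1c.mono hB5, ?_⟩⟩
  · exact ((hGic.mono (hB5.trans hB3)).mul hv).mul (hGc.mono (hB5.trans hB3))
  · filter_upwards [hwv, ae_restrict_mem measurableSet_ball] with z hz hzb
    rw [← hz]
    have e1 := hGG' z (hB3 (hB5 hzb))
    calc w z = (Gi z * G z) * w z * (Gi z * G z) := by rw [e1, one_mul, mul_one]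
      _ = _ := by simp only [mul_assoc]
  · exact ae_restrict_of_ae_restrict_of_subset hB5 hq1

theorem local_regularity {U : Set ℂ} (hU : IsOpen U) {G Gi : ℂ → 𝔸}
    (hG : ContDiffOn ℝ ∞ G U) (hGi : ContDiffOn ℝ ∞ Gi U)
    (hGG : ∀ z ∈ U, G z * Gi z = 1) (hGG' : ∀ z ∈ U, Gi z * G z = 1)
    {w q : ℂ → 𝔸} {T : ℂ → 𝔸 →L[ℝ] 𝔸} (hT : ContinuousOn T U) {ρ : ℂ → 𝔸}
    (hρ : ∀ K ⊆ U, IsCompact K → MemLp ρ 4 (volume.restrict K))
    (hw : ∀ K ⊆ U, IsCompact K → MemLp w 2 (volume.restrict K))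
    (hq : ∀ K ⊆ U, IsCompact K → MemLp q 2 (volume.restrict K))
    (hsa : ∀ᵐ z ∂(volume.restrict U), star (w z) = w z)
    (h1 : WDbar U (fun z => G z * w z * Gi z) (fun z => G z * q z * Gi z))
    (h2 : WDz U (fun z => star (Gi z) * q z * star (G z))
      (fun z => star (Gi z) * (T z (w z) + ρ z) * star (G z))) :
    ∃ w' q' : ℂ → 𝔸, ContDiffOn ℝ 1 w' U ∧ ContinuousOn q' U ∧
      w =ᵐ[volume.restrict U] w' ∧ q =ᵐ[volume.restrict U] q' ∧
      (∀ z ∈ U, star (w' z) = w' z) ∧ ∀ z ∈ U, Db (fun x => Gi x * dzb G x) w' z = q' z := by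
  have hloc := fun z0 (hz0 : z0 ∈ U) =>
    local_rep_cont hU hG hGi hGG hGG' hT hρ hw hq h1 h2 hz0
  obtain ⟨w', hw'c, hww'⟩ := exists_glue hU (f := w) fun z0 hz0 => by
    obtain ⟨r, hr, hA, -⟩ := hloc z0 hz0
    exact ⟨r, hr, hA⟩
  obtain ⟨q', hq'c, hqq'⟩ := exists_glue hU (f := q) fun z0 hz0 => by
    obtain ⟨r, hr, -, hA⟩ := hloc z0 hz0
    exact ⟨r, hr, hA⟩
  have hGc : ContinuousOn G U := hG.continuousOn
  have hGic : ContinuousOn Gi U := hGi.continuousOn
  -- selfadjointness
  have hsa' : ∀ z ∈ U, star (w' z) = w' z := by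
    have h3 : (fun z => star (w' z)) =ᵐ[volume.restrict U] w' := by
      filter_upwards [hsa, hww'] with z hz1 hz2
      rw [← hz2, hz1]
    exact Measure.eqOn_open_of_ae_eq h3 hU hw'c.star hw'c
  -- the weak equation for `w'`
  have h3 : WDbar U (fun z => G z * w' z * Gi z) (fun z => G z * q' z * Gi z) := by
    refine h1.congr hU.measurableSet Subset.rfl ?_ ?_
    · filter_upwards [hww'] with z hz
      rw [hz]
    · filter_upwards [hqq'] with z hz
      rw [hz]
  have hG1 : ContDiffOn ℝ 1 G U := hG.of_le (by simp)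
  have hGi1 : ContDiffOn ℝ 1 Gi U := hGi.of_le (by simp)
  have hWc : ContinuousOn (fun z => G z * w' z * Gi z) U := (hGc.mul hw'c).mul hGic
  have hQc : ContinuousOn (fun z => G z * q' z * Gi z) U := (hGc.mul hq'c).mul hGic
  have hdz : ∀ {a : ℂ → 𝔸}, ContDiffOn ℝ 1 a U → ContinuousOn (dzb a) U := by
    intro a ha
    have h5 : ContinuousOn (fderiv ℝ a) U := ha.continuousOn_fderiv_of_isOpen hU le_rfl
    have h6 : ContinuousOn (fun z => fderiv ℝ a z 1) U := h5.clm_apply continuousOn_const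
    have h7 : ContinuousOn (fun z => fderiv ℝ a z I) U := h5.clm_apply continuousOn_const
    have h8 : ContinuousOn (fun z => I • fderiv ℝ a z I) U := h7.const_smul I
    exact (h6.add h8).const_smul (1 / 2 : ℂ)
  have h4 := h3.mul_left hU hWc hQc hGi1
  have h5 := h4.mul_right hU (hGic.mul hWc)
    (((hdz hGi1).mul hWc).add (hGic.mul hQc)) hG1
  -- simplification of the weak equation
  set q₁ : ℂ → 𝔸 := fun z => q' z - (Gi z * dzb G z * w' z - w' z * (Gi z * dzb G z)) with hq₁
  have hq₁c : ContinuousOn q₁ U :=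
    hq'c.sub (((hGic.mul (hdz hG1)).mul hw'c).sub (hw'c.mul (hGic.mul (hdz hG1))))
  have hdGi : ∀ z ∈ U, dzb Gi z * G z = - (Gi z * dzb G z) := by
    intro z hz
    have e1 : (fun x => Gi x * G x) =ᶠ[𝓝 z] fun _ => 1 := by
      filter_upwards [hU.mem_nhds hz] with y hy using hGG' y hy
    have e2 := dzb_congr e1
    rw [dzb_const, dzb_mul ((hGi1.contDiffAt (hU.mem_nhds hz)).differentiableAt one_ne_zero)
      ((hG1.contDiffAt (hU.mem_nhds hz)).differentiableAt one_ne_zero)] at e2
    rw [eq_neg_iff_add_eq_zero]; exact e2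
  have h6 : WDbar U w' q₁ := by
    refine h5.congr hU.measurableSet Subset.rfl ?_ ?_
    · filter_upwards [ae_restrict_mem hU.measurableSet] with z hz
      have e1 := hGG' z hz
      calc Gi z * (G z * w' z * Gi z) * G z = (Gi z * G z) * w' z * (Gi z * G z) := by
            simp only [mul_assoc]
        _ = w' z := by rw [e1, one_mul, mul_one]
    · filter_upwards [ae_restrict_mem hU.measurableSet] with z hz
      have e1 := hGG' z hz
      have e2 := hdGi z hz
      calc Gi z * (G z * w' z * Gi z) * dzb G z +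
            (dzb Gi z * (G z * w' z * Gi z) + Gi z * (G z * q' z * Gi z)) * G z
          = (Gi z * G z) * w' z * (Gi z * dzb G z) + (dzb Gi z * G z) * w' z * (Gi z * G z) +
            (Gi z * G z) * q' z * (Gi z * G z) := by
            simp only [mul_assoc, add_mul]; abel
        _ = q₁ z := by
            rw [e1, e2, hq₁]
            simp only [one_mul, mul_one, neg_mul]
            abel
  have h7 : WDz U w' (fun z => star (q₁ z)) := by
    have h8 := h6.star
    intro ζ hζ hζc hζs
    rw [← h8 ζ hζ hζc hζs]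
    congr 1; ext z
    show dz ζ z • w' z = dz ζ z • star (w' z)
    by_cases hz : z ∈ U
    · rw [hsa' z hz]
    · have : ζ =ᶠ[𝓝 z] 0 := notMem_tsupport_iff_eventuallyEq.mp (fun h => hz (hζs h))
      rw [dz_congr this]
      have e0 : dz (0 : ℂ → ℂ) z = 0 := dz_const (0:ℂ) z
      rw [e0]; simp
  have h8 : ∀ z ∈ U, HasFDerivAt w' (mkL (star (q₁ z)) (q₁ z)) z := fun z hz =>
    hasFDerivAt_of_weak hU hw'c hq₁c hq₁c.star h6 h7 hz
  refine ⟨w', q', ?_, hq'c, hww', hqq', hsa', fun z hz => ?_⟩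
  · rw [← zero_add (1 : ℕ∞ω), contDiffOn_succ_iff_fderiv_of_isOpen hU]
    refine ⟨fun z hz => (h8 z hz).differentiableAt.differentiableWithinAt, by simp, ?_⟩
    rw [contDiffOn_zero]
    have h9 : ContinuousOn (fun z => mkL (star (q₁ z)) (q₁ z)) U := by
      have hA : Continuous (fun p : 𝔸 × 𝔸 => mkL p.1 p.2) := by
        refine (LipschitzWith.of_dist_le_mul (K := 2) fun p p' => ?_).continuous
        rw [dist_eq_norm]
        refine (mkL_norm_sub_le _ _ _ _).trans ?_
        have e1 : ‖p.1 - p'.1‖ ≤ dist p p' := by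
          rw [dist_eq_norm]; exact norm_fst_le (p - p')
        have e2 : ‖p.2 - p'.2‖ ≤ dist p p' := by
          rw [dist_eq_norm]; exact norm_snd_le (p - p')
        rw [NNReal.coe_ofNat]
        linarith
      exact hA.comp_continuousOn (hq₁c.star.prodMk hq₁c)
    exact h9.congr fun z hz => (h8 z hz).fderiv
  · rw [Db, dzb_of_hasFDerivAt_mkL (h8 z hz), hq₁]
    simp only
    abel

end B

end Pool.Agent.Lib8bb
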