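import Pool.Agent.Lib_MP_8bb00a_gt.CT5

open MeasureTheory Complex Set Metric Filter Topology
open scoped Real ContDiff ComplexConjugate Manifold InnerProductSpace

noncomputable section

namespace Pool.Agent.Lib8bb

/-! ### calculus of `∂̄∂` on open sets -/

section calc1

variable {V : Type*} [NormedAddCommGroup V] [NormedSpace ℂ V]

theorem contDiffOn_dz' {U : Set ℂ} (hU : IsOpen U) {f : ℂ → V} {n m : ℕ∞ω}
    (hf : ContDiffOn ℝ n f U) (h : m + 1 ≤ n) : ContDiffOn ℝ m (dz f) U := by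
  have h1 : ContDiffOn ℝ m (fderiv ℝ f) U := hf.fderiv_of_isOpen hU h
  have h2 : ContDiffOn ℝ m (fun z => fderiv ℝ f z 1) U := h1.clm_apply contDiffOn_const
  have h3 : ContDiffOn ℝ m (fun z => fderiv ℝ f z I) U := h1.clm_apply contDiffOn_const
  exact ((h2.sub ((contDiffOn_const (c := I)).smul h3))).const_smul (1/2 : ℂ)

theorem contDiffOn_dzb' {U : Set ℂ} (hU : IsOpen U) {f : ℂ → V} {n m : ℕ∞ω}
    (hf : ContDiffOn ℝ n f U) (h : m + 1 ≤ n) : ContDiffOn ℝ m (dzb f) U := by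
  have h1 : ContDiffOn ℝ m (fderiv ℝ f) U := hf.fderiv_of_isOpen hU h
  have h2 : ContDiffOn ℝ m (fun z => fderiv ℝ f z 1) U := h1.clm_apply contDiffOn_const
  have h3 : ContDiffOn ℝ m (fun z => fderiv ℝ f z I) U := h1.clm_apply contDiffOn_const
  exact ((h2.add ((contDiffOn_const (c := I)).smul h3))).const_smul (1/2 : ℂ)

theorem diffAt_of_Ck {U : Set ℂ} (hU : IsOpen U) {f : ℂ → V} {n : ℕ∞ω} (hn : n ≠ 0)
    (hf : ContDiffOn ℝ n f U) {z : ℂ} (hz : z ∈ U) : DifferentiableAt ℝ f z :=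
  (hf.differentiableOn hn).differentiableAt (hU.mem_nhds hz)

theorem lap_congr {f g : ℂ → V} {z : ℂ} (h : f =ᶠ[𝓝 z] g) : dzb (dz f) z = dzb (dz g) z := by
  apply dzb_congr
  have := h.eventually_nhds
  filter_upwards [this] with w hw using dz_congr hw

theorem lap_add {U : Set ℂ} (hU : IsOpen U) {f g : ℂ → V} (hf : ContDiffOn ℝ 2 f U)
    (hg : ContDiffOn ℝ 2 g U) {z : ℂ} (hz : z ∈ U) :
    dzb (dz (fun w => f w + g w)) z = dzb (dz f) z + dzb (dz g) z := by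
  have h1 : dz (fun w => f w + g w) =ᶠ[𝓝 z] fun w => dz f w + dz g w := by
    filter_upwards [hU.mem_nhds hz] with w hw
    exact dz_add (diffAt_of_Ck hU two_ne_zero hf hw) (diffAt_of_Ck hU two_ne_zero hg hw)
  rw [dzb_congr h1]
  exact dzb_add (diffAt_of_Ck hU one_ne_zero (contDiffOn_dz' hU hf (by norm_num)) hz)
    (diffAt_of_Ck hU one_ne_zero (contDiffOn_dz' hU hg (by norm_num)) hz)

theorem lap_sub {U : Set ℂ} (hU : IsOpen U) {f g : ℂ → V} (hf : ContDiffOn ℝ 2 f U)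
    (hg : ContDiffOn ℝ 2 g U) {z : ℂ} (hz : z ∈ U) :
    dzb (dz (fun w => f w - g w)) z = dzb (dz f) z - dzb (dz g) z := by
  have h1 : dz (fun w => f w - g w) =ᶠ[𝓝 z] fun w => dz f w - dz g w := by
    filter_upwards [hU.mem_nhds hz] with w hw
    exact dz_sub (diffAt_of_Ck hU two_ne_zero hf hw) (diffAt_of_Ck hU two_ne_zero hg hw)
  rw [dzb_congr h1]
  exact dzb_sub (diffAt_of_Ck hU one_ne_zero (contDiffOn_dz' hU hf (by norm_num)) hz)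
    (diffAt_of_Ck hU one_ne_zero (contDiffOn_dz' hU hg (by norm_num)) hz)

theorem lap_comp_holo {U W : Set ℂ} (hU : IsOpen U) (hW : IsOpen W) {f : ℂ → V} {τ : ℂ → ℂ}
    (hf : ContDiffOn ℝ 2 f W) (hτ : DifferentiableOn ℂ τ U) (hm : MapsTo τ U W)
    {z : ℂ} (hz : z ∈ U) :
    dzb (dz (fun w => f (τ w))) z = ((‖deriv τ z‖ ^ 2 : ℝ) : ℂ) • dzb (dz f) (τ z) := by
  have hd : ∀ w ∈ U, DifferentiableAt ℂ τ w := fun w hw =>
    hτ.differentiableAt (hU.mem_nhds hw)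
  have h1 : dz (fun w => f (τ w)) =ᶠ[𝓝 z] fun w => deriv τ w • dz f (τ w) := by
    filter_upwards [hU.mem_nhds hz] with w hw
    exact dz_comp_holo (diffAt_of_Ck hW two_ne_zero hf (hm hw)) (hd w hw)
  rw [dzb_congr h1]
  have h2 : DifferentiableAt ℂ (deriv τ) z :=
    (hτ.deriv hU).differentiableAt (hU.mem_nhds hz)
  have h3 : DifferentiableAt ℝ (dz f) (τ z) :=
    diffAt_of_Ck hW one_ne_zero (contDiffOn_dz' hW hf (by norm_num)) (hm hz)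
  have h4 : DifferentiableAt ℝ (fun w => dz f (τ w)) z :=
    h3.comp z ((hd z hz).restrictScalars ℝ)
  rw [dzb_smul (h2.restrictScalars ℝ) h4, dzb_of_holo h2, zero_smul, zero_add,
    dzb_comp_holo h3 (hd z hz), smul_smul, mul_conj, normSq_eq_norm_sq]

/-- chain rule with a holomorphic outer function -/
theorem dz_holo_comp {g h : ℂ → ℂ} {h' z : ℂ} (hh : HasDerivAt h h' (g z))
    (hg : DifferentiableAt ℝ g z) : dz (fun w => h (g w)) z = h' * dz g z := by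
  have h1 := (hh.hasFDerivAt.restrictScalars ℝ).comp z hg.hasFDerivAt
  have h2 : HasFDerivAt (fun w => h (g w)) _ z := h1
  rw [HasFDerivAt.dz_eq h2, dz]
  simp only [ContinuousLinearMap.comp_apply, ContinuousLinearMap.coe_restrictScalars',
    smul_eq_mul, ContinuousLinearMap.toSpanSingleton_apply]
  ring

theorem dzb_holo_comp {g h : ℂ → ℂ} {h' z : ℂ} (hh : HasDerivAt h h' (g z))
    (hg : DifferentiableAt ℝ g z) : dzb (fun w => h (g w)) z = h' * dzb g z := by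
  have h1 := (hh.hasFDerivAt.restrictScalars ℝ).comp z hg.hasFDerivAt
  have h2 : HasFDerivAt (fun w => h (g w)) _ z := h1
  rw [HasFDerivAt.dzb_eq h2, dzb]
  simp only [ContinuousLinearMap.comp_apply, ContinuousLinearMap.coe_restrictScalars',
    smul_eq_mul, ContinuousLinearMap.toSpanSingleton_apply]
  ring

end calc1

/-! ### `∂̄∂ log ‖f‖²` -/

section loglap

variable {V : Type*} [NormedAddCommGroup V] [InnerProductSpace ℂ V]

theorem dz_inner_holo {f g : ℂ → V} {z : ℂ} (hf : DifferentiableAt ℂ f z)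
    (hg : DifferentiableAt ℂ g z) :
    dz (fun w => (⟪f w, g w⟫_ℂ : ℂ)) z = ⟪f z, deriv g z⟫_ℂ ∧
      dzb (fun w => (⟪f w, g w⟫_ℂ : ℂ)) z = ⟪deriv f z, g z⟫_ℂ := by
  have hf' : HasFDerivAt f _ z := hf.hasDerivAt.hasFDerivAt.restrictScalars ℝ
  have hg' : HasFDerivAt g _ z := hg.hasDerivAt.hasFDerivAt.restrictScalars ℝ
  have h := HasFDerivAt.inner ℂ hf' hg'
  constructor
  · rw [HasFDerivAt.dz_eq h]
    simp only [ContinuousLinearMap.comp_apply, ContinuousLinearMap.prod_apply,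
      fderivInnerCLM_apply, ContinuousLinearMap.coe_restrictScalars',
      ContinuousLinearMap.toSpanSingleton_apply, one_smul, inner_smul_left, inner_smul_right,
      conj_I, smul_eq_mul]
    linear_combination (-1/2) * (⟪f z, deriv g z⟫_ℂ - ⟪deriv f z, g z⟫_ℂ) * I_mul_I
  · rw [HasFDerivAt.dzb_eq h]
    simp only [ContinuousLinearMap.comp_apply, ContinuousLinearMap.prod_apply,
      fderivInnerCLM_apply, ContinuousLinearMap.coe_restrictScalars',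
      ContinuousLinearMap.toSpanSingleton_apply, one_smul, inner_smul_left, inner_smul_right,
      conj_I, smul_eq_mul]
    linear_combination (1/2) * (⟪f z, deriv g z⟫_ℂ - ⟪deriv f z, g z⟫_ℂ) * I_mul_I

theorem log_norm_sq_eq (v : V) : ((Real.log (‖v‖ ^ 2) : ℝ) : ℂ) = Complex.log ⟪v, v⟫_ℂ := by
  rw [inner_self_eq_norm_sq_to_K, Complex.ofReal_log (by positivity)]
  norm_cast

theorem inner_self_mem_slit {v : V} (h : v ≠ 0) : (⟪v, v⟫_ℂ : ℂ) ∈ slitPlane := by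
  rw [inner_self_eq_norm_sq_to_K]
  left
  have : 0 < ‖v‖ := norm_pos_iff.2 h
  have h2 : (((‖v‖ : ℝ) : ℂ) ^ 2).re = ‖v‖ ^ 2 := by norm_cast
  show 0 < (((‖v‖ : ℝ) : ℂ) ^ 2).re
  rw [h2]; positivity

variable [CompleteSpace V]

theorem lap_log_norm {U : Set ℂ} (hU : IsOpen U) {f : ℂ → V} (hf : DifferentiableOn ℂ f U)
    (h0 : ∀ z ∈ U, f z ≠ 0) {z : ℂ} (hz : z ∈ U) :
    dzb (dz (fun w => ((Real.log (‖f w‖ ^ 2) : ℝ) : ℂ))) z =
      (((‖f z‖ ^ 2 * ‖deriv f z‖ ^ 2 - ‖(⟪f z, deriv f z⟫_ℂ : ℂ)‖ ^ 2) / ‖f z‖ ^ 4 : ℝ) : ℂ) := by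
  have hd : ∀ w ∈ U, DifferentiableAt ℂ f w := fun w hw => hf.differentiableAt (hU.mem_nhds hw)
  have hin : ∀ w ∈ U, DifferentiableAt ℝ (fun w => (⟪f w, f w⟫_ℂ : ℂ)) w := fun w hw =>
    ((hd w hw).restrictScalars ℝ).inner ℂ ((hd w hw).restrictScalars ℝ)
  have h1 : dz (fun w => ((Real.log (‖f w‖ ^ 2) : ℝ) : ℂ)) =ᶠ[𝓝 z]
      fun w => (⟪f w, f w⟫_ℂ : ℂ)⁻¹ * ⟪f w, deriv f w⟫_ℂ := by
    filter_upwards [hU.mem_nhds hz] with w hw
    simp_rw [log_norm_sq_eq]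
    have h5 := dz_holo_comp (g := fun w => (⟪f w, f w⟫_ℂ : ℂ))
      (Complex.hasDerivAt_log (inner_self_mem_slit (h0 w hw))) (hin w hw)
    rw [h5, (dz_inner_holo (hd w hw) (hd w hw)).1]
  rw [dzb_congr h1]
  have h2 : DifferentiableAt ℂ (deriv f) z := (hf.deriv hU).differentiableAt (hU.mem_nhds hz)
  have hne : (⟪f z, f z⟫_ℂ : ℂ) ≠ 0 := slitPlane_ne_zero (inner_self_mem_slit (h0 z hz))
  have h3 : DifferentiableAt ℝ (fun w => (⟪f w, f w⟫_ℂ : ℂ)⁻¹) z := (hin z hz).inv hne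
  have h4 : DifferentiableAt ℝ (fun w => (⟪f w, deriv f w⟫_ℂ : ℂ)) z :=
    ((hd z hz).restrictScalars ℝ).inner ℂ (h2.restrictScalars ℝ)
  rw [dzb_mul h3 h4, dzb_holo_comp (hasDerivAt_inv hne) (hin z hz),
    (dz_inner_holo (hd z hz) (hd z hz)).2, (dz_inner_holo (hd z hz) h2).2]
  have e1 : (⟪deriv f z, f z⟫_ℂ : ℂ) * ⟪f z, deriv f z⟫_ℂ =
      ((‖(⟪f z, deriv f z⟫_ℂ : ℂ)‖ ^ 2 : ℝ) : ℂ) := by
    rw [← inner_conj_symm (deriv f z) (f z), mul_comm, mul_conj, normSq_eq_norm_sq]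
  have e2 : (⟪f z, f z⟫_ℂ : ℂ) = ((‖f z‖ ^ 2 : ℝ) : ℂ) := by
    rw [inner_self_eq_norm_sq_to_K]; norm_cast
  have e3 : (⟪deriv f z, deriv f z⟫_ℂ : ℂ) = ((‖deriv f z‖ ^ 2 : ℝ) : ℂ) := by
    rw [inner_self_eq_norm_sq_to_K]; norm_cast
  have e4 : -((⟪f z, f z⟫_ℂ : ℂ) ^ 2)⁻¹ * ⟪deriv f z, f z⟫_ℂ * ⟪f z, deriv f z⟫_ℂ =
      -((⟪f z, f z⟫_ℂ : ℂ) ^ 2)⁻¹ * (⟪deriv f z, f z⟫_ℂ * ⟪f z, deriv f z⟫_ℂ) := by ring
  rw [e4, e1, e3, e2]
  rw [e2] at hne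
  have hne' : ((‖f z‖ : ℝ) : ℂ) ≠ 0 := by
    intro h; apply hne; push_cast; rw [h]; norm_num
  push_cast
  field_simp
  ring

theorem lap_log_norm_pos {U : Set ℂ} (hU : IsOpen U) {f : ℂ → V} (hf : DifferentiableOn ℂ f U)
    (h0 : ∀ z ∈ U, f z ≠ 0) {z : ℂ} (hz : z ∈ U) (hne : ∀ r : ℂ, deriv f z ≠ r • f z) :
    0 < (dzb (dz (fun w => ((Real.log (‖f w‖ ^ 2) : ℝ) : ℂ))) z).re := by
  rw [lap_log_norm hU hf h0 hz, ofReal_re]
  have h1 : 0 < ‖f z‖ := norm_pos_iff.2 (h0 z hz)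
  apply div_pos _ (by positivity)
  have h2 : deriv f z ≠ 0 := by
    intro h; exact hne 0 (by rw [h, zero_smul])
  have h3 : ‖(⟪f z, deriv f z⟫_ℂ : ℂ)‖ ≤ ‖f z‖ * ‖deriv f z‖ := norm_inner_le_norm _ _
  have h4 : ‖(⟪f z, deriv f z⟫_ℂ : ℂ)‖ ≠ ‖f z‖ * ‖deriv f z‖ := by
    intro h
    have h7 : f z = 0 ∨ ∃ r : ℂ, deriv f z = r • f z :=
      ((norm_inner_eq_norm_tfae ℂ (f z) (deriv f z)).out 0 2).1 h
    rcases h7 with h7 | ⟨r, hr⟩
    · exact h0 z hz h7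
    · exact hne r hr
  have h5 : ‖(⟪f z, deriv f z⟫_ℂ : ℂ)‖ < ‖f z‖ * ‖deriv f z‖ := lt_of_le_of_ne h3 h4
  have h6 := norm_nonneg (⟪f z, deriv f z⟫_ℂ : ℂ)
  nlinarith

theorem lap_log_norm_complex {U : Set ℂ} (hU : IsOpen U) {τ : ℂ → ℂ} (hf : DifferentiableOn ℂ τ U)
    (h0 : ∀ z ∈ U, τ z ≠ 0) {z : ℂ} (hz : z ∈ U) :
    dzb (dz (fun w => ((Real.log (‖τ w‖ ^ 2) : ℝ) : ℂ))) z = 0 := by
  rw [lap_log_norm hU hf h0 hz]
  have : ‖(⟪τ z, deriv τ z⟫_ℂ : ℂ)‖ = ‖τ z‖ * ‖deriv τ z‖ := by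
    simp [mul_comm]
  rw [this]
  norm_num
  left; ring

theorem contDiffOn_log_norm {U : Set ℂ} (hU : IsOpen U) {f : ℂ → V} (hf : DifferentiableOn ℂ f U)
    (h0 : ∀ z ∈ U, f z ≠ 0) : ContDiffOn ℝ ∞ (fun w => Real.log (‖f w‖ ^ 2)) U := by
  have h1 : ContDiffOn ℂ ∞ f U := hf.contDiffOn hU
  have h2 : ContDiffOn ℝ ∞ f U := h1.restrict_scalars ℝ
  refine ContDiffOn.log (h2.norm_sq ℂ) ?_
  intro z hz
  exact pow_ne_zero _ (norm_ne_zero_iff.2 (h0 z hz))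

end loglap

end Pool.Agent.Lib8bb
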