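import Pool.Agent.Lib_MP_8bb00a_gt.Surf3
import Pool.Agent.Lib_MP_8bb00a_gt.EAlg
import Pool.Agent.Lib_MP_8bb00a_gt.EDb

/-!
Zeroth order term given by a Higgs field.
-/

open MeasureTheory Complex Set Metric Filter Topology
open scoped Real ContDiff ComplexConjugate Manifold

noncomputable section

namespace Pool.Agent.Lib8bb

section ad

variable {𝔸 : Type*} [NormedRing 𝔸] [NormedAlgebra ℂ 𝔸] [StarRing 𝔸] [StarModule ℂ 𝔸]
  [NormedStarGroup 𝔸] [TrAlg 𝔸]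

/-- commutator with `f` -/
def adL (f : 𝔸) : 𝔸 →L[ℝ] 𝔸 :=
  ContinuousLinearMap.mul ℝ 𝔸 f - (ContinuousLinearMap.mul ℝ 𝔸).flip f

omit [StarRing 𝔸] [StarModule ℂ 𝔸] [NormedStarGroup 𝔸] [TrAlg 𝔸] in
@[simp] theorem adL_apply (f a : 𝔸) : adL f a = f * a - a * f := by
  simp [adL]

omit [StarRing 𝔸] [StarModule ℂ 𝔸] [NormedStarGroup 𝔸] [TrAlg 𝔸] in
theorem continuous_adL : Continuous (adL : 𝔸 → 𝔸 →L[ℝ] 𝔸) :=
  (ContinuousLinearMap.mul ℝ 𝔸).continuous.sub (ContinuousLinearMap.mul ℝ 𝔸).flip.continuous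

theorem ip_adL (f a c : 𝔸) : ip (adL f a) c = ip a (adL (star f) c) := by
  simp only [adL_apply, sub_eq_add_neg]
  rw [ip_add_left, ip_add_right, ip_mul_left]
  have h1 : ip (-(a * f)) c = - ip (a * f) c := by
    have := ip_smul_left (-1) (a * f) c
    simpa using this
  have h2 : ip a (-(c * star f)) = - ip a (c * star f) := by
    have := ip_smul_right (-1) a (c * star f)
    simpa using this
  rw [h1, h2, ip_mul_right]

omit [StarModule ℂ 𝔸] [NormedStarGroup 𝔸] [TrAlg 𝔸] in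
theorem star_adL (f a : 𝔸) : star (adL f a) = - adL (star f) (star a) := by
  simp only [adL_apply, star_sub, star_mul]
  abel

variable {ι : Type*} [Fintype ι]

/-- the zeroth order operator of a finite family of elements -/
def Wop (f : ι → 𝔸) : 𝔸 →L[ℝ] 𝔸 :=
  (1 / 2 : ℝ) • ∑ i, ((adL (f i)).comp (adL (star (f i))) + (adL (star (f i))).comp (adL (f i)))

omit [StarModule ℂ 𝔸] [NormedStarGroup 𝔸] [TrAlg 𝔸] in
theorem Wop_apply (f : ι → 𝔸) (a : 𝔸) : Wop f a = (1 / 2 : ℝ) • ∑ i,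
    (adL (f i) (adL (star (f i)) a) + adL (star (f i)) (adL (f i) a)) := by
  simp [Wop]

theorem pert_ip_sum (f : ι → 𝔸) (c : 𝔸) : ip (∑ i, f i) c = ∑ i, ip (f i) c := by
  obtain ⟨L, hL⟩ := exists_ipL (𝔸 := 𝔸)
  simp only [← hL, map_sum, _root_.sum_apply]

theorem ip_Wop (f : ι → 𝔸) (a c : 𝔸) : ip (Wop f a) c =
    (1 / 2 : ℝ) * ∑ i, (ip (adL (star (f i)) a) (adL (star (f i)) c) +
      ip (adL (f i) a) (adL (f i) c)) := by
  rw [Wop_apply, ip_smul_left, pert_ip_sum]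
  congr 1
  refine Finset.sum_congr rfl fun i _ => ?_
  rw [ip_add_left, ip_adL (f i) (adL (star (f i)) a) c,
    ip_adL (star (f i)) (adL (f i) a) c, star_star]

theorem Wop_symm (f : ι → 𝔸) (a c : 𝔸) : ip (Wop f a) c = ip a (Wop f c) := by
  rw [ip_Wop, ip_comm a, ip_Wop]
  congr 1
  refine Finset.sum_congr rfl fun i _ => ?_
  rw [ip_comm, ip_comm (adL (f i) a)]

omit [NormedStarGroup 𝔸] [TrAlg 𝔸] in
theorem Wop_star (f : ι → 𝔸) (a : 𝔸) : star (Wop f a) = Wop f (star a) := by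
  rw [Wop_apply, Wop_apply, star_smul, star_sum]
  simp only [star_trivial, star_add, star_adL, star_star, map_neg, neg_neg]
  congr 1
  refine Finset.sum_congr rfl fun i _ => ?_
  rw [add_comm]

variable [FiniteDimensional ℂ 𝔸]

omit [StarModule ℂ 𝔸] [NormedStarGroup 𝔸] in
/-- the operator `a ↦ tr a • 1` -/
def trOp (𝔸 : Type*) [NormedRing 𝔸] [NormedAlgebra ℂ 𝔸] [StarRing 𝔸] [TrAlg 𝔸]
    [FiniteDimensional ℂ 𝔸] : 𝔸 →L[ℝ] 𝔸 :=
  haveI : FiniteDimensional ℝ 𝔸 := FiniteDimensional.complexToReal 𝔸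
  LinearMap.toContinuousLinearMap
    ((LinearMap.toSpanSingleton ℂ 𝔸 (1 : 𝔸)).comp (TrAlg.tr (𝔸 := 𝔸)) |>.restrictScalars ℝ)

omit [StarModule ℂ 𝔸] [NormedStarGroup 𝔸] in
@[simp] theorem trOp_apply (a : 𝔸) : trOp 𝔸 a = (TrAlg.tr a) • (1 : 𝔸) := rfl

omit [NormedStarGroup 𝔸] in
theorem ip_trOp (a c : 𝔸) : ip (trOp 𝔸 a) c = (conj (TrAlg.tr a) * TrAlg.tr c).re := by
  rw [trOp_apply, ip, star_smul, star_one, smul_mul_assoc, one_mul, map_smul]
  rfl

omit [NormedStarGroup 𝔸] in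
theorem trOp_symm (a c : 𝔸) : ip (trOp 𝔸 a) c = ip a (trOp 𝔸 c) := by
  rw [ip_comm a, ip_trOp, ip_trOp]
  simp [Complex.mul_re]
  ring

omit [NormedStarGroup 𝔸] in
theorem trOp_star (a : 𝔸) : star (trOp 𝔸 a) = trOp 𝔸 (star a) := by
  rw [trOp_apply, trOp_apply, TrAlg.tr_star, star_smul, star_one]
  rfl

omit [NormedStarGroup 𝔸] in
theorem ip_trOp_self (a : 𝔸) : ip (trOp 𝔸 a) a = ‖TrAlg.tr a‖ ^ 2 := by
  rw [ip_trOp, ← Complex.normSq_eq_conj_mul_self, Complex.ofReal_re, Complex.normSq_eq_norm_sq]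

/-- the zeroth order operator including the trace part -/
def Wtot (f : ι → 𝔸) : 𝔸 →L[ℝ] 𝔸 := Wop f + trOp 𝔸

theorem ip_Wtot_self (f : ι → 𝔸) (a : 𝔸) : ip (Wtot f a) a =
    (1 / 2 : ℝ) * ∑ i, (‖adL (star (f i)) a‖ ^ 2 + ‖adL (f i) a‖ ^ 2) + ‖TrAlg.tr a‖ ^ 2 := by
  rw [Wtot, add_apply, ip_add_left, ip_Wop, ip_trOp_self]
  simp only [ip_self]

end ad

section fields

variable {X : Type*} [TopologicalSpace X] [ChartedSpace ℂ X] [IsManifold 𝓘(ℂ) ω X]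
  [CompactSpace X] [T2Space X] [MeasurableSpace X] [BorelSpace X]
variable {𝔸 : Type*} [NormedRing 𝔸] [NormedAlgebra ℂ 𝔸] [StarRing 𝔸] [StarModule ℂ 𝔸]
  [NormedStarGroup 𝔸] [TrAlg 𝔸] [FiniteDimensional ℂ 𝔸]

/-- a smooth `(1,0)`-form with values in `𝔸` -/
structure Hig (X : Type*) [TopologicalSpace X] [ChartedSpace ℂ X]
    (𝔸 : Type*) [NormedRing 𝔸] [NormedAlgebra ℂ 𝔸]
    (φ : OpenPartialHomeomorph X ℂ → ℂ → 𝔸) : Prop where
  smooth : ∀ e ∈ atlas ℂ X, ContDiffOn ℝ ∞ (φ e) e.target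
  trans : ∀ e ∈ atlas ℂ X, ∀ e' ∈ atlas ℂ X, ∀ z ∈ dom e e',
    φ e z = deriv (trans e e') z • φ e' (trans e e' z)

/-- normalised components of a form -/
def fa (D : SurfData X) (φ : OpenPartialHomeomorph X ℂ → ℂ → 𝔸) (a : D.A) (x : X) : 𝔸 :=
  D.m a x • φ (D.c a) (D.c a x)

omit [IsManifold 𝓘(ℂ) ω X] [CompactSpace X] [BorelSpace X] [StarRing 𝔸] [StarModule ℂ 𝔸]
  [NormedStarGroup 𝔸] [TrAlg 𝔸] [FiniteDimensional ℂ 𝔸] in
theorem fa_continuous (D : SurfData X) {φ : OpenPartialHomeomorph X ℂ → ℂ → 𝔸} (h : Hig X 𝔸 φ)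
    (a : D.A) : Continuous (fa D φ a) := by
  have h1 : fa D φ a = extZ (D.c a) (fun z => D.m a ((D.c a).symm z) • φ (D.c a) z) := by
    ext x
    by_cases hx : x ∈ (D.c a).source
    · rw [extZ_apply hx, (D.c a).left_inv hx, fa]
    · rw [extZ, indicator_of_notMem hx, fa, D.m_supp a x, zero_smul]
      rintro ⟨z, hz, rfl⟩
      exact hx ((D.c a).map_target (D.K_target a hz))
  rw [h1]
  refine continuous_extZ (K := D.K a) ?_ (D.K_compact a) (D.K_target a) ?_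
  · exact ((D.m_smooth a _ (D.c_mem a)).continuousOn).smul (h.smooth _ (D.c_mem a)).continuousOn
  · intro z hzt hz
    rw [D.m_supp a, zero_smul]
    rintro ⟨w, hw, hwz⟩
    have : w = z := by
      rw [← (D.c a).right_inv (D.K_target a hw), hwz, (D.c a).right_inv hzt]
    exact hz (this ▸ hw)

theorem mem_source_of_m_ne (D : SurfData X) {a : D.A} {x : X} (h : D.m a x ≠ 0) :
    x ∈ (D.c a).source := by
  by_contra hx
  apply h
  apply D.m_supp
  rintro ⟨z, hz, rfl⟩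
  exact hx ((D.c a).map_target (D.K_target a hz))

theorem fa_eq (D : SurfData X) {φ : OpenPartialHomeomorph X ℂ → ℂ → 𝔸} (h : Hig X 𝔸 φ)
    {e : OpenPartialHomeomorph X ℂ} (he : e ∈ atlas ℂ X) {z : ℂ} (hz : z ∈ e.target) (a : D.A) :
    fa D φ a (e.symm z) = (D.n e z)⁻¹ • (kap D e a z) • φ e z := by
  by_cases h0 : D.m a (e.symm z) = 0
  · rw [fa, kap, h0]; simp
  · have hs := mem_source_of_m_ne D h0
    have hzd : z ∈ dom e (D.c a) := ⟨hz, hs⟩
    have hd := trans_deriv_ne he (D.c_mem a) hzd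
    have hn := D.n_pos _ (D.c_mem a) _ (trans_mem_target hzd)
    have ht : D.c a (e.symm z) = trans e (D.c a) z := rfl
    rw [fa, kap, h.trans e he _ (D.c_mem a) z hzd, D.n_trans e he _ (D.c_mem a) z hzd, ht]
    set τ := deriv (trans e (D.c a)) z
    set n' := D.n (D.c a) (trans e (D.c a) z)
    have hn' : (n' : ℂ) ≠ 0 := by exact_mod_cast hn.ne'
    rw [← Complex.coe_smul (D.m a (e.symm z)), ← Complex.coe_smul ((n' * ‖τ‖ ^ 2)⁻¹),
      smul_smul, smul_smul]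
    congr 1
    push_cast
    have h2 : (starRingEnd ℂ) τ * τ = (‖τ‖ : ℂ) ^ 2 := Complex.conj_mul' τ
    have h3 : (starRingEnd ℂ) τ ≠ 0 := by simpa using hd
    rw [← h2]
    field_simp

theorem sum_form_eq {S : Type*} [Fintype S] (c : S → ℂ) (n : ℝ) (hn : n ≠ 0)
    (hc : ∑ a, ‖c a‖ ^ 2 = n) (P : 𝔸 → 𝔸 → 𝔸) (hP1 : ∀ (r : ℂ) a b, P (r • a) b = r • P a b)
    (hP2 : ∀ (r : ℂ) a b, P a (r • b) = r • P a b) (u v : 𝔸) :
    ∑ a, P ((n⁻¹ : ℝ) • c a • u) ((n⁻¹ : ℝ) • conj (c a) • v) = (n⁻¹ : ℝ) • P u v := by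
  have h1 : ∀ a, P ((n⁻¹ : ℝ) • c a • u) ((n⁻¹ : ℝ) • conj (c a) • v) =
      (((n⁻¹ * n⁻¹ * ‖c a‖ ^ 2 : ℝ) : ℂ)) • P u v := by
    intro a
    rw [← Complex.coe_smul (n⁻¹), ← Complex.coe_smul (n⁻¹), hP1, hP1, hP2, hP2]
    simp only [smul_smul]
    congr 1
    push_cast
    rw [← Complex.mul_conj' (c a)]
    ring
  simp_rw [h1]
  rw [← Finset.sum_smul, ← Complex.ofReal_sum, ← Finset.mul_sum, hc, Complex.coe_smul]
  congr 1
  field_simp

/-- the potential of a Higgs field -/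
def WH (D : SurfData X) (φ : OpenPartialHomeomorph X ℂ → ℂ → 𝔸) (x : X) : 𝔸 →L[ℝ] 𝔸 :=
  Wtot (fun a => fa D φ a x)

theorem pot_WH (D : SurfData X) {φ : OpenPartialHomeomorph X ℂ → ℂ → 𝔸} (h : Hig X 𝔸 φ) :
    Pot X 𝔸 (WH D φ) where
  cont := by
    have h1 : ∀ a, Continuous (fun x => adL (fa D φ a x)) := fun a =>
      continuous_adL.comp (fa_continuous D h a)
    have h2 : ∀ a, Continuous (fun x => adL (star (fa D φ a x))) := fun a =>
      continuous_adL.comp (continuous_star.comp (fa_continuous D h a))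
    have h3 : Continuous (fun x => ∑ a, ((adL (fa D φ a x)).comp (adL (star (fa D φ a x))) +
        (adL (star (fa D φ a x))).comp (adL (fa D φ a x)))) :=
      continuous_finset_sum _ fun a _ => ((h1 a).clm_comp (h2 a)).add ((h2 a).clm_comp (h1 a))
    have h4 : Continuous (fun x => (1 / 2 : ℝ) • ∑ a, ((adL (fa D φ a x)).comp
        (adL (star (fa D φ a x))) + (adL (star (fa D φ a x))).comp (adL (fa D φ a x))) +
        trOp 𝔸) := by
      have h5 := h3.const_smul (1 / 2 : ℝ)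
      exact Continuous.add h5 continuous_const
    exact h4
  symm x a c := by
    rw [WH, Wtot, add_apply, add_apply, ip_add_left, ip_add_right, Wop_symm, trOp_symm]
  star_comm x a := by
    rw [WH, Wtot, add_apply, add_apply, star_add, Wop_star, trOp_star]

theorem ip_WH_self (D : SurfData X) (φ : OpenPartialHomeomorph X ℂ → ℂ → 𝔸) (x : X) (a : 𝔸) :
    ip (WH D φ x a) a = (1 / 2 : ℝ) * ∑ i, (‖adL (star (fa D φ i x)) a‖ ^ 2 +
      ‖adL (fa D φ i x) a‖ ^ 2) + ‖TrAlg.tr a‖ ^ 2 := ip_Wtot_self _ _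

theorem WH_nonneg (D : SurfData X) (φ : OpenPartialHomeomorph X ℂ → ℂ → 𝔸) (x : X) (a : 𝔸) :
    0 ≤ ip (WH D φ x a) a := by
  rw [ip_WH_self]; positivity

/-- in the kernel all commutators vanish -/
theorem WH_kernel (D : SurfData X) {φ : OpenPartialHomeomorph X ℂ → ℂ → 𝔸} (h : Hig X 𝔸 φ)
    {e : OpenPartialHomeomorph X ℂ} (he : e ∈ atlas ℂ X) {z : ℂ} (hz : z ∈ e.target) {a : 𝔸}
    (h0 : ip (WH D φ (e.symm z) a) a = 0) :
    φ e z * a = a * φ e z ∧ TrAlg.tr a = 0 := by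
  rw [ip_WH_self] at h0
  have hn := D.n_pos e he z hz
  have h1 : 0 ≤ (1 / 2 : ℝ) * ∑ i, (‖adL (star (fa D φ i (e.symm z))) a‖ ^ 2 +
      ‖adL (fa D φ i (e.symm z)) a‖ ^ 2) := by positivity
  have h2 : 0 ≤ ‖TrAlg.tr a‖ ^ 2 := by positivity
  have h3 : ‖TrAlg.tr a‖ ^ 2 = 0 := by linarith
  have h4 : ∑ i, (‖adL (star (fa D φ i (e.symm z))) a‖ ^ 2 +
      ‖adL (fa D φ i (e.symm z)) a‖ ^ 2) = 0 := by linarith
  refine ⟨?_, by simpa using h3⟩
  rw [Finset.sum_eq_zero_iff_of_nonneg (fun i _ => by positivity)] at h4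
  have h5 : ∀ i, adL (fa D φ i (e.symm z)) a = 0 := by
    intro i
    have := h4 i (Finset.mem_univ i)
    have h6 : ‖adL (fa D φ i (e.symm z)) a‖ ^ 2 = 0 := by
      have h7 : 0 ≤ ‖adL (star (fa D φ i (e.symm z))) a‖ ^ 2 := by positivity
      have h8 : 0 ≤ ‖adL (fa D φ i (e.symm z)) a‖ ^ 2 := by positivity
      linarith
    simpa using h6
  have h6 : ∃ i, kap D e i z ≠ 0 := by
    by_contra hcon
    push Not at hcon
    have := sum_kap D he hz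
    simp only [hcon, norm_zero, ne_eq, OfNat.ofNat_ne_zero, not_false_eq_true, zero_pow,
      Finset.sum_const_zero] at this
    linarith
  obtain ⟨i, hi⟩ := h6
  have h7 := h5 i
  rw [fa_eq D h he hz, adL_apply] at h7
  rw [← Complex.coe_smul, smul_smul, smul_mul_assoc, mul_smul_comm, ← smul_sub] at h7
  have h8 : ((((D.n e z)⁻¹ : ℝ) : ℂ) * kap D e i z) ≠ 0 := by
    refine mul_ne_zero ?_ hi
    exact_mod_cast (inv_pos.mpr hn).ne'
  have h9 := (smul_eq_zero.mp h7).resolve_left h8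
  exact sub_eq_zero.mp h9

end fields

end Pool.Agent.Lib8bb
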