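import Pool.Agent.Lib_MP_8bb00a_gt.Pert1
import Pool.Agent.Lib_MP_8bb00a_gt.Coer

/-!
Uniform positivity and coercivity for the potential of a Higgs field.
-/

open MeasureTheory Complex Set Metric Filter Topology
open scoped Real ContDiff ComplexConjugate Manifold

noncomputable section

namespace Pool.Agent.Lib8bb

variable {X : Type*} [TopologicalSpace X] [ChartedSpace ℂ X] [IsManifold 𝓘(ℂ) ω X]
  [CompactSpace X] [T2Space X] [MeasurableSpace X] [BorelSpace X]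
variable {𝔸 : Type*} [NormedRing 𝔸] [NormedAlgebra ℂ 𝔸] [StarRing 𝔸] [StarModule ℂ 𝔸]
  [NormedStarGroup 𝔸] [TrAlg 𝔸] [FiniteDimensional ℂ 𝔸]

theorem ip_continuous : Continuous (fun p : 𝔸 × 𝔸 => ip p.1 p.2) := by
  obtain ⟨L, hL⟩ := exists_ipL (𝔸 := 𝔸)
  have : (fun p : 𝔸 × 𝔸 => ip p.1 p.2) = fun p => L p.1 p.2 := by ext p; rw [hL]
  rw [this]
  exact (L.continuous.comp continuous_fst).clm_apply continuous_snd

theorem uniform_pos {W : X → 𝔸 →L[ℝ] 𝔸} (hW : Pot X 𝔸 W) (hnn : ∀ x a, 0 ≤ ip (W x a) a)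
    {Y : Set X} (hY : IsCompact Y)
    (hnd : ∀ x ∈ Y, ∀ a, star a = a → ip (W x a) a = 0 → a = 0) :
    ∃ c0 > 0, ∀ x ∈ Y, ∀ a, star a = a → c0 * ‖a‖ ^ 2 ≤ ip (W x a) a := by
  haveI : FiniteDimensional ℝ 𝔸 := FiniteDimensional.complexToReal 𝔸
  haveI : ProperSpace 𝔸 := FiniteDimensional.proper ℝ 𝔸
  let K : Set 𝔸 := sphere 0 1 ∩ {a | star a = a}
  have hK : IsCompact K := (isCompact_sphere 0 1).inter_right
    (isClosed_eq continuous_star continuous_id)
  have hc : Continuous (fun p : X × 𝔸 => ip (W p.1 p.2) p.2) := by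
    have h1 : Continuous (fun p : X × 𝔸 => W p.1 p.2) :=
      (hW.cont.comp continuous_fst).clm_apply continuous_snd
    exact ip_continuous.comp (h1.prodMk continuous_snd)
  -- reduction to unit vectors
  have key : ∀ c0 : ℝ, 0 < c0 → (∀ x ∈ Y, ∀ a ∈ K, c0 ≤ ip (W x a) a) →
      ∀ x ∈ Y, ∀ a, star a = a → c0 * ‖a‖ ^ 2 ≤ ip (W x a) a := by
    intro c0 hc0 h x hx a ha
    by_cases h0 : a = 0
    · rw [h0]; simp [ip]
    have hna : 0 < ‖a‖ := norm_pos_iff.mpr h0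
    have h1 : (‖a‖⁻¹ : ℝ) • a ∈ K := by
      refine ⟨?_, ?_⟩
      · rw [mem_sphere_zero_iff_norm, norm_smul, norm_inv, norm_norm, inv_mul_cancel₀ hna.ne']
      · show star _ = _
        rw [star_smul, ha, star_trivial]
    have h2 := h x hx _ h1
    rw [map_smul, ip_smul_left, ip_smul_right] at h2
    have h3 : ‖a‖⁻¹ * (‖a‖⁻¹ * ip (W x a) a) * ‖a‖ ^ 2 = ip (W x a) a := by
      field_simp
    calc c0 * ‖a‖ ^ 2 ≤ ‖a‖⁻¹ * (‖a‖⁻¹ * ip (W x a) a) * ‖a‖ ^ 2 := by gcongr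
      _ = _ := h3
  by_cases hne : (Y ×ˢ K).Nonempty
  · obtain ⟨⟨x0, a0⟩, h0, hmin⟩ := (hY.prod hK).exists_isMinOn hne hc.continuousOn
    refine ⟨ip (W x0 a0) a0, ?_, key _ ?_ ?_⟩
    · refine lt_of_le_of_ne (hnn _ _) fun h => ?_
      have := hnd x0 h0.1 a0 h0.2.2 h.symm
      have h1 : ‖a0‖ = 1 := by simpa using h0.2.1
      rw [this, norm_zero] at h1
      exact zero_ne_one h1
    · refine lt_of_le_of_ne (hnn _ _) fun h => ?_
      have := hnd x0 h0.1 a0 h0.2.2 h.symm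
      have h1 : ‖a0‖ = 1 := by simpa using h0.2.1
      rw [this, norm_zero] at h1
      exact zero_ne_one h1
    · intro x hx a ha
      exact hmin (mk_mem_prod hx ha)
  · refine ⟨1, one_pos, key 1 one_pos fun x hx a ha => ?_⟩
    exact (hne ⟨(x, a), mk_mem_prod hx ha⟩).elim

/-- coercivity for a Higgs field which is nondegenerate away from a point -/
theorem coer_WH (D : SurfData X) (b : Bun X 𝔸) {φ : OpenPartialHomeomorph X ℂ → ℂ → 𝔸}
    (h : Hig X 𝔸 φ) (p : X)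
    (hnd : ∀ e ∈ atlas ℂ X, ∀ z ∈ e.target, e.symm z ≠ p → ∀ a, star a = a →
      φ e z * a = a * φ e z → TrAlg.tr a = 0 → a = 0) :
    ∃ δ > 0, Coer D b (WH D φ) δ := by
  obtain ⟨r, hr, hball⟩ := exists_radius p
  have he := chart_mem_atlas ℂ p
  let O : Set X := (chartAt ℂ p).symm '' ball ((chartAt ℂ p) p) r
  have hsub : ball ((chartAt ℂ p) p) r ⊆ (chartAt ℂ p).target :=
    (ball_subset_closedBall.trans (closedBall_subset_closedBall (by linarith))).trans hball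
  have hO : IsOpen O := (chartAt ℂ p).isOpen_image_symm_of_subset_target isOpen_ball hsub
  have hpO : p ∈ O := ⟨(chartAt ℂ p) p, mem_ball_self hr, (chartAt ℂ p).left_inv
    (mem_chart_source ℂ p)⟩
  obtain ⟨c0, hc0, hc⟩ := uniform_pos (pot_WH D h) (WH_nonneg D φ) (Y := Oᶜ)
    hO.isClosed_compl.isCompact (by
      intro x hx a ha h0
      have hxp : x ≠ p := fun hh => hx (hh ▸ hpO)
      have hx' : (chartAt ℂ x).symm ((chartAt ℂ x) x) = x :=
        (chartAt ℂ x).left_inv (mem_chart_source ℂ x)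
      have := WH_kernel D h (chart_mem_atlas ℂ x) (mem_chart_target ℂ x) (a := a)
        (by rw [hx']; exact h0)
      exact hnd _ (chart_mem_atlas ℂ x) _ (mem_chart_target ℂ x) (by rw [hx']; exact hxp) a ha
        this.1 this.2)
  exact coer_of_local D b (pot_WH D h) (fun x a _ => WH_nonneg D φ x a) he hr hball hc0
    (fun x hx => hc x hx)

end Pool.Agent.Lib8bb
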