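import Pool.Agent.Lib_MP_8bb00a_gt.Pert2
import Pool.Agent.Lib_MP_8bb00a_gt.Fixed

/-!
From the fixed point in the Banach space to a smooth solution of the modified Hitchin equation.
-/

open MeasureTheory Complex Set Metric Filter Topology
open scoped Real ContDiff ComplexConjugate Manifold

noncomputable section

namespace Pool.Agent.Lib8bb

theorem WDz.congrU {V : Type*} [NormedAddCommGroup V] [NormedSpace ℂ V] {U : Set ℂ}
    {w q w' q' : ℂ → V} (h : WDz U w q) (hw : ∀ z ∈ U, w z = w' z) (hq : ∀ z ∈ U, q z = q' z) :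
    WDz U w' q' := by
  intro ζ h1 h2 h3
  have key := h ζ h1 h2 h3
  have e1 : ∀ z, ζ z • q' z = ζ z • q z := by
    intro z
    by_cases hz : z ∈ U
    · rw [hq z hz]
    · have : ζ z = 0 := by
        by_contra hne
        exact hz (h3 (subset_tsupport _ hne))
      rw [this, zero_smul, zero_smul]
  have e2 : ∀ z, dz ζ z • w' z = dz ζ z • w z := by
    intro z
    by_cases hz : z ∈ U
    · rw [hw z hz]
    · have hz' : z ∉ tsupport ζ := fun hh => hz (h3 hh)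
      have : dz ζ z = 0 := by
        have h4 : ζ =ᶠ[𝓝 z] fun _ => 0 := by
          filter_upwards [(isClosed_tsupport ζ).isOpen_compl.mem_nhds hz'] with y hy
          by_contra hne
          exact hy (subset_tsupport _ hne)
        rw [dz_congr h4, dz_const]
      rw [this, zero_smul, zero_smul]
  simp_rw [e1, e2]
  exact key

section alg

variable {X : Type*} [TopologicalSpace X] [ChartedSpace ℂ X] [IsManifold 𝓘(ℂ) ω X]
  [CompactSpace X] [T2Space X] [MeasurableSpace X] [BorelSpace X]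
variable {𝔸 : Type*} [NormedRing 𝔸] [NormedAlgebra ℂ 𝔸] [StarRing 𝔸] [StarModule ℂ 𝔸]
  [NormedStarGroup 𝔸] [TrAlg 𝔸] [FiniteDimensional ℂ 𝔸]

omit [NormedStarGroup 𝔸] [TrAlg 𝔸] [FiniteDimensional ℂ 𝔸] [StarModule ℂ 𝔸] in
theorem star_smul_smul [StarModule ℂ 𝔸] (r : ℝ) (c : ℂ) (a : 𝔸) :
    star (r • c • a) = r • conj c • star a := by
  rw [star_smul, star_smul, star_trivial]; rfl

theorem sum_ff (D : SurfData X) {φ : OpenPartialHomeomorph X ℂ → ℂ → 𝔸} (h : Hig X 𝔸 φ)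
    {e : OpenPartialHomeomorph X ℂ} (he : e ∈ atlas ℂ X) {z : ℂ} (hz : z ∈ e.target) (m : 𝔸) :
    ∑ a, fa D φ a (e.symm z) * m * star (fa D φ a (e.symm z)) =
      (D.n e z)⁻¹ • (φ e z * m * star (φ e z)) := by
  have h1 := sum_form_eq (𝔸 := 𝔸) (fun a => kap D e a z) (D.n e z) (D.n_pos e he z hz).ne'
    (sum_kap D he hz) (fun u v => u * m * v) (by intros; simp)
    (by intros; simp) (φ e z) (star (φ e z))
  rw [← h1]
  refine Finset.sum_congr rfl fun a _ => ?_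
  rw [fa_eq D h he hz, star_smul_smul]

theorem sum_ff' (D : SurfData X) {φ : OpenPartialHomeomorph X ℂ → ℂ → 𝔸} (h : Hig X 𝔸 φ)
    {e : OpenPartialHomeomorph X ℂ} (he : e ∈ atlas ℂ X) {z : ℂ} (hz : z ∈ e.target) (m : 𝔸) :
    ∑ a, star (fa D φ a (e.symm z)) * m * fa D φ a (e.symm z) =
      (D.n e z)⁻¹ • (star (φ e z) * m * φ e z) := by
  have h1 := sum_form_eq (𝔸 := 𝔸) (fun a => kap D e a z) (D.n e z) (D.n_pos e he z hz).ne'
    (sum_kap D he hz) (fun u v => v * m * u) (by intros; simp)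
    (by intros; simp) (φ e z) (star (φ e z))
  rw [← h1]
  refine Finset.sum_congr rfl fun a _ => ?_
  rw [fa_eq D h he hz, star_smul_smul]

theorem sum_pp (D : SurfData X) (b : Bun X 𝔸) {w : X → 𝔸} (hw : Ck 1 w)
    {e : OpenPartialHomeomorph X ℂ} (he : e ∈ atlas ℂ X) {z : ℂ} (hz : z ∈ e.target) (m : 𝔸) :
    ∑ a, pa D b a w (e.symm z) * m * star (pa D b a w (e.symm z)) =
      (D.n e z)⁻¹ • (Db (b.B e) (fun x => w (e.symm x)) z * m *
        star (Db (b.B e) (fun x => w (e.symm x)) z)) := by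
  have hs : ∑ a, ‖conj (kap D e a z)‖ ^ 2 = D.n e z := by
    rw [← sum_kap D he hz]
    refine Finset.sum_congr rfl fun a _ => ?_
    rw [RCLike.norm_conj]
  have h1 := sum_form_eq (𝔸 := 𝔸) (fun a => conj (kap D e a z)) (D.n e z)
    (D.n_pos e he z hz).ne' hs (fun u v => u * m * v) (by intros; simp)
    (by intros; simp) (Db (b.B e) (fun x => w (e.symm x)) z)
    (star (Db (b.B e) (fun x => w (e.symm x)) z))
  rw [← h1]
  refine Finset.sum_congr rfl fun a _ => ?_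
  rw [pa_eq D b he hz hw a, star_smul_smul]

end alg

section absPart

variable {X : Type*} [TopologicalSpace X] [ChartedSpace ℂ X] [IsManifold 𝓘(ℂ) ω X]
  [CompactSpace X] [T2Space X] [MeasurableSpace X] [BorelSpace X]
variable {𝔸 : Type*} [NormedRing 𝔸] [NormedAlgebra ℂ 𝔸] [StarRing 𝔸] [StarModule ℂ 𝔸]
  [NormedStarGroup 𝔸] [TrAlg 𝔸] [FiniteDimensional ℂ 𝔸]

/-- the components of a Higgs field as continuous functions -/
def fC (D : SurfData X) {φ : OpenPartialHomeomorph X ℂ → ℂ → 𝔸} (h : Hig X 𝔸 φ) (a : D.A) :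
    C(X, 𝔸) := ⟨fa D φ a, fa_continuous D h a⟩

/-- the curvature term -/
def FC (D : SurfData X) {φ : OpenPartialHomeomorph X ℂ → ℂ → 𝔸} (h : Hig X 𝔸 φ) : C(X, 𝔸) :=
  ∑ a, (star (fC D h a) * fC D h a - fC D h a * star (fC D h a))

theorem FC_apply (D : SurfData X) {φ : OpenPartialHomeomorph X ℂ → ℂ → 𝔸} (h : Hig X 𝔸 φ)
    {e : OpenPartialHomeomorph X ℂ} (he : e ∈ atlas ℂ X) {z : ℂ} (hz : z ∈ e.target) :
    FC D h (e.symm z) = (D.n e z)⁻¹ • (star (φ e z) * φ e z - φ e z * star (φ e z)) := by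
  have h1 := sum_ff D h he hz 1
  have h2 := sum_ff' D h he hz 1
  simp only [mul_one] at h1 h2
  rw [smul_sub, ← h1, ← h2, ← Finset.sum_sub_distrib]
  simp [FC, fC, ContinuousMap.coe_sum]

/-- the zeroth order operator on continuous functions -/
def WC (D : SurfData X) {φ : OpenPartialHomeomorph X ℂ → ℂ → 𝔸} (h : Hig X 𝔸 φ)
    (trL : C(X, 𝔸) →L[ℝ] C(X, 𝔸)) : C(X, 𝔸) →L[ℝ] C(X, 𝔸) :=
  Wop (fC D h) + trL

theorem WC_apply (D : SurfData X) {φ : OpenPartialHomeomorph X ℂ → ℂ → 𝔸} (h : Hig X 𝔸 φ)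
    {trL : C(X, 𝔸) →L[ℝ] C(X, 𝔸)}
    (htr : ∀ w x, trL w x = (TrAlg.tr (w x)) • (1 : 𝔸)) (w : C(X, 𝔸)) (x : X) :
    WC D h trL w x = WH D φ x (w x) := by
  rw [WC, WH, Wtot, add_apply, ContinuousMap.add_apply, htr, add_apply, trOp_apply, Wop_apply,
    Wop_apply]
  congr 1
  simp [fC, ContinuousMap.coe_sum, ContinuousMap.smul_apply]

/-- the Higgs field `φ₀ + t φ₁` -/
theorem Hig.line {φ₀ φ₁ : OpenPartialHomeomorph X ℂ → ℂ → 𝔸} (h₀ : Hig X 𝔸 φ₀)
    (h₁ : Hig X 𝔸 φ₁) (t : ℝ) : Hig X 𝔸 (fun e z => φ₀ e z + t • φ₁ e z) where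
  smooth e he := (h₀.smooth e he).add ((h₁.smooth e he).const_smul t)
  trans e he e' he' z hz := by
    rw [h₀.trans e he e' he' z hz, h₁.trans e he e' he' z hz, smul_add]
    congr 1
    rw [smul_comm]

theorem fC_line (D : SurfData X) {φ₀ φ₁ : OpenPartialHomeomorph X ℂ → ℂ → 𝔸}
    (h₀ : Hig X 𝔸 φ₀) (h₁ : Hig X 𝔸 φ₁) (t : ℝ) (a : D.A) :
    fC D (h₀.line h₁ t) a = fC D h₀ a + t • fC D h₁ a := by
  ext1 x
  show D.m a x • (φ₀ (D.c a) (D.c a x) + t • φ₁ (D.c a) (D.c a x)) =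
    D.m a x • φ₀ (D.c a) (D.c a x) + t • (D.m a x • φ₁ (D.c a) (D.c a x))
  rw [smul_add, smul_comm t]

/-- pointwise form of the nonlinear map -/
theorem NN_eval (dt : 𝔸 → ℂ) {dtC : C(X, 𝔸) → C(X, 𝔸)}
    (hdtC : ∀ k x, dtC k x = (dt (k x)) • (1 : 𝔸)) (D : SurfData X) (b : Bun X 𝔸) {φ₀ φ₁ : OpenPartialHomeomorph X ℂ → ℂ → 𝔸}
    (h₀ : Hig X 𝔸 φ₀) (h₁ : Hig X 𝔸 φ₁) {trL : C(X, 𝔸) →L[ℝ] C(X, 𝔸)}
    (htr : ∀ w x, trL w x = (TrAlg.tr (w x)) • (1 : 𝔸))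
    (w : C(X, 𝔸)) (p : D.A → C(X, 𝔸)) (hw : Ck 1 w)
    (hp : ∀ a x, p a x = pa D b a w x) (t : ℝ)
    {e : OpenPartialHomeomorph X ℂ} (he : e ∈ atlas ℂ X) {z : ℂ} (hz : z ∈ e.target) :
    NN (WC D h₀ trL) dtC (FC D h₀) (fC D h₀) (fC D h₁) ((w, p), t) (e.symm z) =
      WH D φ₀ (e.symm z) (w (e.symm z))
      - (D.n e z)⁻¹ • (Db (b.B e) (fun x => w (e.symm x)) z * Ring.inverse (1 + w) (e.symm z) *
        star (Db (b.B e) (fun x => w (e.symm x)) z))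
      - (D.n e z)⁻¹ • (star (φ₀ e z) * φ₀ e z - φ₀ e z * star (φ₀ e z))
      - (1 / 2 : ℝ) • (((D.n e z)⁻¹ • (star (φ₀ e z) * φ₀ e z - φ₀ e z * star (φ₀ e z))) *
          w (e.symm z) + w (e.symm z) *
          ((D.n e z)⁻¹ • (star (φ₀ e z) * φ₀ e z - φ₀ e z * star (φ₀ e z))))
      - (D.n e z)⁻¹ • ((1 + w (e.symm z)) * ((φ₀ e z + t • φ₁ e z) *
          Ring.inverse (1 + w) (e.symm z) * star (φ₀ e z + t • φ₁ e z)) * (1 + w (e.symm z)))
      + (D.n e z)⁻¹ • (star (φ₀ e z + t • φ₁ e z) * (1 + w (e.symm z)) *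
          (φ₀ e z + t • φ₁ e z))
      - (((dt (1 + w (e.symm z))) • (1 : 𝔸)) - 1) * (1 + w (e.symm z)) := by
  have e1 := sum_pp D b hw he hz (Ring.inverse (1 + w) (e.symm z))
  have e2 := sum_ff D (h₀.line h₁ t) he hz (Ring.inverse (1 + w) (e.symm z))
  have e3 := sum_ff' D (h₀.line h₁ t) he hz (1 + w (e.symm z))
  rw [← e1, ← e3, ← FC_apply D h₀ he hz]
  have e4 : (D.n e z)⁻¹ • ((1 + w (e.symm z)) * ((φ₀ e z + t • φ₁ e z) *
          Ring.inverse (1 + w) (e.symm z) * star (φ₀ e z + t • φ₁ e z)) * (1 + w (e.symm z))) =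
      (1 + w (e.symm z)) * ((D.n e z)⁻¹ • ((φ₀ e z + t • φ₁ e z) *
          Ring.inverse (1 + w) (e.symm z) * star (φ₀ e z + t • φ₁ e z))) *
            (1 + w (e.symm z)) := by
    rw [mul_smul_comm, smul_mul_assoc]
  rw [e4, ← e2, Finset.mul_sum, Finset.sum_mul]
  rw [NN]
  simp only [← fC_line]
  simp only [ContinuousMap.sub_apply, ContinuousMap.add_apply, ContinuousMap.coe_sum,
    Finset.sum_apply, ContinuousMap.mul_apply, ContinuousMap.star_apply, ContinuousMap.smul_apply,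
    ContinuousMap.one_apply, WC_apply D h₀ htr, hp, hdtC]
  have hfa : ∀ a, (fC D (h₀.line h₁ t) a) (e.symm z) =
    fa D (fun e z => φ₀ e z + t • φ₁ e z) a (e.symm z) := fun a => rfl
  simp only [hfa, mul_assoc]

end absPart

end Pool.Agent.Lib8bb
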