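import Pool.Agent.Lib_MP_8bb00a_gt.Pert3
import Pool.Agent.Lib_MP_8bb00a_gt.Solver
import Pool.Agent.Lib_MP_8bb00a_gt.Bootstrap

/-!
A fixed point gives a smooth solution of the modified Hitchin equation.
-/

open MeasureTheory Complex Set Metric Filter Topology
open scoped Real ContDiff ComplexConjugate Manifold

noncomputable section

namespace Pool.Agent.Lib8bb

variable {X : Type*} [TopologicalSpace X] [ChartedSpace ℂ X] [IsManifold 𝓘(ℂ) ω X]
  [CompactSpace X] [T2Space X] [MeasurableSpace X] [BorelSpace X]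
variable {𝔸 : Type*} [NormedRing 𝔸] [NormedAlgebra ℂ 𝔸] [StarRing 𝔸] [StarModule ℂ 𝔸]
  [NormedStarGroup 𝔸] [TrAlg 𝔸] [FiniteDimensional ℂ 𝔸]

theorem isUnit_one_add {R : Type*} [NormedRing R] [CompleteSpace R] {w : R} (hw : ‖w‖ < 1) :
    IsUnit (1 + w) := by
  have h : ‖-w‖ < 1 := by rwa [norm_neg]
  have := (Units.oneSub (-w) h).isUnit
  rwa [Units.val_oneSub, sub_neg_eq_add] at this

/-- the right hand side of the modified equation -/
def Rhs (dt : 𝔸 → ℂ) (n : ℝ) (F φ k ki : 𝔸) : 𝔸 :=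
  F + (φ * ki * star φ * k - ki * star φ * k * φ) + n • ((dt k - 1) • (1 : 𝔸))

theorem rhs_star (dt : 𝔸 → ℂ) (n : ℝ) (F φ k ki : 𝔸)
    (hFs : star F = F) (hk : star k = k) (hki : star ki = ki)
    (hdt : dt k = conj (dt k)) :
    star (Rhs dt n F φ k ki) = F + (k * φ * ki * star φ - star φ * k * φ * ki) +
      n • ((dt k - 1) • (1 : 𝔸)) := by
  have hc : star (dt k - 1) = dt k - 1 := by
    rw [star_sub, star_one]
    congr 1
    exact hdt.symm
  rw [Rhs, star_add, star_add, star_sub, star_smul n, star_smul, hc, star_one, star_trivial n, hFs]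
  congr 3
  · simp [hk, hki, mul_assoc]
  · simp [hk, hki, mul_assoc]

theorem rhs_alg (dt : 𝔸 → ℂ) (n : ℝ) (hn : n ≠ 0) (F φ0 φ w k q ki : 𝔸)
    (hF : F = star φ0 * φ0 - φ0 * star φ0) (hwk : w = k - 1) (hk : star k = k)
    (hki : star ki = ki) (hk2 : ki * k = 1) (hdt : dt k = conj (dt k)) :
    n • (-(-(n⁻¹ • (q * ki * star q))
      - n⁻¹ • (star φ0 * φ0 - φ0 * star φ0)
      - (1 / 2 : ℝ) • ((n⁻¹ • (star φ0 * φ0 - φ0 * star φ0)) * w + w *
          (n⁻¹ • (star φ0 * φ0 - φ0 * star φ0)))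
      - n⁻¹ • (k * (φ * ki * star φ) * k)
      + n⁻¹ • (star φ * k * φ)
      - ((dt k) • (1 : 𝔸) - 1) * k)) + (1 / 2 : ℝ) • (F * w - w * F) =
    q * ki * star q + star (Rhs dt n F φ k ki) * k := by
  have hFs : star F = F := by
    rw [hF]; simp
  rw [rhs_star dt n F φ k ki hFs hk hki hdt, ← hF]
  have h2 : (((dt k) • (1 : 𝔸) - 1) * k) = (dt k - 1) • k := by
    rw [sub_mul, one_mul, smul_mul_assoc, one_mul, sub_smul, one_smul]
  have h3 : k * (φ * ki * star φ) * k = k * φ * ki * star φ * k := by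
    simp only [mul_assoc]
  have h4 : star φ * k * φ * ki * k = star φ * k * φ := by
    rw [mul_assoc _ ki, hk2, mul_one]
  have h5 : (n • ((dt k - 1) • (1 : 𝔸))) * k = n • ((dt k - 1) • k) := by
    rw [smul_mul_assoc, smul_mul_assoc, one_mul]
  rw [h2, h3, add_mul, add_mul, sub_mul, h4, h5, hwk]
  generalize hA : q * ki * star q = A
  generalize hB : k * φ * ki * star φ * k = B
  generalize hC : star φ * k * φ = C'
  generalize hE : (dt k - 1) • k = E
  simp only [smul_neg, smul_add, smul_sub, neg_add, neg_sub, sub_neg_eq_add, neg_neg, smul_smul,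
    mul_inv_cancel₀ hn, one_smul, smul_mul_assoc, mul_smul_comm, mul_one, mul_sub, sub_mul,
    one_mul]
  have h6 : n * (1 / 2 * n⁻¹) = 1 / 2 := by field_simp
  simp only [h6]
  module

omit [IsManifold 𝓘(ℂ) ω X] [CompactSpace X] [T2Space X] [MeasurableSpace X] [BorelSpace X]
  [StarModule ℂ 𝔸] [NormedStarGroup 𝔸] [TrAlg 𝔸] [FiniteDimensional ℂ 𝔸] in
theorem Db_one_add (B : ℂ → 𝔸) {w : ℂ → 𝔸} {z : ℂ} (hw : DifferentiableAt ℝ w z) :
    Db B (fun x => 1 + w x) z = Db B w z := by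
  rw [Db, Db, dzb_add (differentiableAt_const _) hw, dzb_const, zero_add]
  congr 1
  rw [mul_add, add_mul, mul_one, one_mul]
  abel

theorem Sec1.cont {w : X → 𝔸} (h : Sec1 w) : Continuous w := h.1.continuous

/-- the nonlinear map preserves selfadjointness -/
theorem NN_star (dt : 𝔸 → ℂ) {dtC : C(X, 𝔸) → C(X, 𝔸)}
    (hdtC : ∀ k x, dtC k x = (dt (k x)) • (1 : 𝔸)) (hdts : ∀ a, dt (star a) = conj (dt a))
    (D : SurfData X) (b : Bun X 𝔸) {φ₀ φ₁ : OpenPartialHomeomorph X ℂ → ℂ → 𝔸}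
    (h₀ : Hig X 𝔸 φ₀) (h₁ : Hig X 𝔸 φ₁) {trL : C(X, 𝔸) →L[ℝ] C(X, 𝔸)}
    (htr : ∀ w x, trL w x = (TrAlg.tr (w x)) • (1 : 𝔸))
    (w : C(X, 𝔸)) (p : D.A → C(X, 𝔸)) (hw : Sec1 w)
    (hp : ∀ a x, p a x = pa D b a w x) (hw1 : ‖w‖ < 1) (t : ℝ) (x : X) :
    star (NN (WC D h₀ trL) dtC (FC D h₀) (fC D h₀) (fC D h₁) ((w, p), t) x) =
      NN (WC D h₀ trL) dtC (FC D h₀) (fC D h₀) (fC D h₁) ((w, p), t) x := by
  haveI : CompleteSpace 𝔸 := FiniteDimensional.complete ℂ 𝔸
  have hu : IsUnit (1 + w) := isUnit_one_add hw1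
  have hk1 : (1 + w) * Ring.inverse (1 + w) = 1 := Ring.mul_inverse_cancel _ hu
  set kc : C(X, 𝔸) := Ring.inverse (1 + w) with hkc
  have hk1' : ∀ x, (1 + w x) * kc x = 1 := fun x => by
    have := congrArg (fun f : C(X, 𝔸) => f x) hk1
    simpa using this
  have hks : ∀ x, star (1 + w x) = 1 + w x := fun x => by
    rw [star_add, star_one, hw.2 x]
  have hkis : ∀ x, star (kc x) = kc x := fun x => by
    have h1 : star (kc x) * (1 + w x) = 1 := by
      have := congrArg star (hk1' x)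
      rw [star_mul, star_one, hks] at this
      exact this
    calc star (kc x) = star (kc x) * ((1 + w x) * kc x) := by rw [hk1', mul_one]
      _ = kc x := by rw [← mul_assoc, h1, one_mul]
  have hdt : ∀ x, dt (1 + w x) = conj (dt (1 + w x)) := fun x => by
    rw [← hdts, hks]
  have hx : (chartAt ℂ x).symm ((chartAt ℂ x) x) = x :=
    (chartAt ℂ x).left_inv (mem_chart_source ℂ x)
  have he := chart_mem_atlas ℂ x
  have hz := mem_chart_target ℂ x
  set e := chartAt ℂ x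
  set z := e x
  have h1 := NN_eval dt hdtC D b h₀ h₁ htr w p hw.1 hp t he hz
  rw [← hkc, hx] at h1
  have hc : star (dt (1 + w x)) = dt (1 + w x) := (hdt x).symm
  rw [h1]
  have h2 : ((dt (1 + w x)) • (1 : 𝔸) - 1) * (1 + w x) = (dt (1 + w x) - 1) • (1 + w x) := by
    rw [sub_mul, one_mul, smul_mul_assoc, one_mul, sub_smul, one_smul]
  rw [h2]
  simp only [star_sub, star_add, star_smul, star_trivial, star_mul, star_star, star_one,
    (pot_WH D h₀).star_comm, hw.2 x, hkis x, hc, mul_assoc]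
  rw [add_comm (w x * _)]

/-- a fixed point gives a smooth solution of the modified equation -/
theorem strong_eq (dt : 𝔸 → ℂ) {dtC : C(X, 𝔸) → C(X, 𝔸)}
    (hdtC : ∀ k x, dtC k x = (dt (k x)) • (1 : 𝔸)) (hdts : ∀ a, dt (star a) = conj (dt a))
    (hdtm : ContDiff ℝ ∞ dt)
    (D : SurfData X) (b : Bun X 𝔸) {φ₀ φ₁ : OpenPartialHomeomorph X ℂ → ℂ → 𝔸}
    (h₀ : Hig X 𝔸 φ₀) (h₁ : Hig X 𝔸 φ₁) {trL : C(X, 𝔸) →L[ℝ] C(X, 𝔸)}
    (htr : ∀ w x, trL w x = (TrAlg.tr (w x)) • (1 : 𝔸))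
    (hbase : ∀ e ∈ atlas ℂ X, ∀ z ∈ e.target,
      Fc (b.B e) z = star (φ₀ e z) * φ₀ e z - φ₀ e z * star (φ₀ e z))
    (w : C(X, 𝔸)) (p : D.A → C(X, 𝔸)) (hw : Sec1 w)
    (hp : ∀ a x, p a x = pa D b a w x) (hw1 : ‖w‖ < 1) (t : ℝ)
    (hweak : ∀ ζ : X → 𝔸, Sec1 ζ → en D b (WH D φ₀) w ζ =
      ∫ x, ip (NN (WC D h₀ trL) dtC (FC D h₀) (fC D h₀) (fC D h₁) ((w, p), t) x) (ζ x) ∂D.ν)
    {e : OpenPartialHomeomorph X ℂ} (he : e ∈ atlas ℂ X) :
    ContDiffOn ℝ ∞ (fun z => 1 + w (e.symm z)) e.target ∧ ∀ z ∈ e.target,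
      Db (b.B e) (fun x => Ring.inverse (1 + w) (e.symm x) *
        Dd (b.B e) (fun y => 1 + w (e.symm y)) x) z =
      Rhs dt (D.n e z) (Fc (b.B e) z) (φ₀ e z + t • φ₁ e z) (1 + w (e.symm z))
        (Ring.inverse (1 + w) (e.symm z)) := by
  haveI : CompleteSpace 𝔸 := FiniteDimensional.complete ℂ 𝔸
  have hu : IsUnit (1 + w) := isUnit_one_add hw1
  have hk1 : (1 + w) * Ring.inverse (1 + w) = 1 := Ring.mul_inverse_cancel _ hu
  have hk2 : Ring.inverse (1 + w) * (1 + w) = 1 := Ring.inverse_mul_cancel _ hu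
  set kc : C(X, 𝔸) := Ring.inverse (1 + w) with hkc
  have hk1' : ∀ x, (1 + w x) * kc x = 1 := fun x => by
    have := congrArg (fun f : C(X, 𝔸) => f x) hk1
    simpa using this
  have hk2' : ∀ x, kc x * (1 + w x) = 1 := fun x => by
    have := congrArg (fun f : C(X, 𝔸) => f x) hk2
    simpa using this
  have hks : ∀ x, star (1 + w x) = 1 + w x := fun x => by
    rw [star_add, star_one, hw.2 x]
  have hkis : ∀ x, star (kc x) = kc x := fun x => by
    have h1 : star (kc x) * (1 + w x) = 1 := by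
      have := congrArg star (hk1' x)
      rw [star_mul, star_one, hks] at this
      exact this
    calc star (kc x) = star (kc x) * ((1 + w x) * kc x) := by rw [hk1', mul_one]
      _ = kc x := by rw [← mul_assoc, h1, one_mul]
  have hdt : ∀ x, dt (1 + w x) = conj (dt (1 + w x)) := fun x => by
    rw [← hdts, hks]
  -- the right hand side
  set ρ : C(X, 𝔸) := NN (WC D h₀ trL) dtC (FC D h₀) (fC D h₀) (fC D h₁) ((w, p), t) with hρ
  -- key identity
  have key : ∀ e ∈ atlas ℂ X, ∀ z ∈ e.target,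
      D.n e z • (WH D φ₀ (e.symm z) (w (e.symm z)) - ρ (e.symm z)) +
        (1 / 2 : ℝ) • (Fc (b.B e) z * w (e.symm z) - w (e.symm z) * Fc (b.B e) z) =
      Db (b.B e) (fun x => w (e.symm x)) z * kc (e.symm z) *
        star (Db (b.B e) (fun x => w (e.symm x)) z) +
      star (Rhs dt (D.n e z) (Fc (b.B e) z) (φ₀ e z + t • φ₁ e z) (1 + w (e.symm z))
        (kc (e.symm z))) * (1 + w (e.symm z)) := by
    intro e he z hz
    have hn := (D.n_pos e he z hz).ne'
    have h1 := NN_eval dt hdtC D b h₀ h₁ htr w p hw.1 hp t he hz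
    rw [← hρ, ← hkc] at h1
    rw [h1]
    have h2 := rhs_alg dt (D.n e z) hn (Fc (b.B e) z) (φ₀ e z) (φ₀ e z + t • φ₁ e z)
      (w (e.symm z)) (1 + w (e.symm z)) (Db (b.B e) (fun x => w (e.symm x)) z) (kc (e.symm z))
      (hbase e he z hz) (by abel) (hks _) (hkis _) (hk2' _) (hdt _)
    rw [← h2]
    congr 2
    abel
  have hρs : ∀ x, star (ρ x) = ρ x :=
    NN_star dt hdtC hdts D b h₀ h₁ htr w p hw hp hw1 t
  haveI : FiniteDimensional ℝ 𝔸 := FiniteDimensional.complexToReal 𝔸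
  haveI : ProperSpace 𝔸 := FiniteDimensional.proper ℝ 𝔸
  have hρm : AEStronglyMeasurable (ρ : X → 𝔸) D.ν := ρ.continuous.aestronglyMeasurable
  have hsol := solution_local D b (pot_WH D h₀) (ρ := ρ) hρm
    (fun x => ρ.norm_coe_le_norm x) (ae_of_all _ hρs) hw hweak he
  have hwe : ContDiffOn ℝ 1 (fun z => w (e.symm z)) e.target := hw.1 e he
  have hdiff : ∀ z ∈ e.target, DifferentiableAt ℝ (fun z => w (e.symm z)) z := fun z hz =>
    (hwe.contDiffAt (e.open_target.mem_nhds hz)).differentiableAt (by norm_num)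
  have hDb : ∀ z ∈ e.target, Db (b.B e) (fun x => 1 + w (e.symm x)) z =
      Db (b.B e) (fun x => w (e.symm x)) z := fun z hz => Db_one_add _ (hdiff z hz)
  have hsm : ∀ (j : ℕ∞), ContDiffOn ℝ j (fun z => 1 + w (e.symm z)) e.target →
      ContDiffOn ℝ j (fun z => kc (e.symm z)) e.target := by
    intro j hj z hz
    have h1 : ContDiffAt ℝ j (fun z => 1 + w (e.symm z)) z :=
      hj.contDiffAt (e.open_target.mem_nhds hz)
    let u : 𝔸ˣ := ⟨1 + w (e.symm z), kc (e.symm z), hk1' _, hk2' _⟩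
    have h2 : ContDiffAt ℝ j Ring.inverse ((u : 𝔸)) := contDiffAt_ringInverse ℝ u
    have h3 : ContDiffAt ℝ j (fun z => Ring.inverse (1 + w (e.symm z))) z :=
      ContDiffAt.comp (g := Ring.inverse) z h2 h1
    have h4 : (fun z => kc (e.symm z)) = fun z => Ring.inverse (1 + w (e.symm z)) := by
      ext z
      let v : 𝔸ˣ := ⟨1 + w (e.symm z), kc (e.symm z), hk1' _, hk2' _⟩
      exact (Ring.inverse_unit v).symm
    rw [h4]
    exact h3.contDiffWithinAt
  have hB := b.B_smooth he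
  have hFcs : ContDiffOn ℝ ∞ (fun z => Fc (b.B e) z) e.target := by
    have h1 : ContDiffOn ℝ ∞ (fun z => star (φ₀ e z) * φ₀ e z - φ₀ e z * star (φ₀ e z))
        e.target := by
      have h2 := h₀.smooth e he
      have h3 : ContDiffOn ℝ ∞ (fun z => star (φ₀ e z)) e.target :=
        (starL' ℝ : 𝔸 ≃L[ℝ] 𝔸).contDiff.comp_contDiffOn h2
      exact (h3.mul h2).sub (h2.mul h3)
    exact h1.congr fun z hz => hbase e he z hz
  have := bootstrap e.open_target (b.G_smooth e he) (b.Gi_smooth e he) (b.mul_Gi e he)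
    (b.Gi_mul e he) (k := fun z => 1 + w (e.symm z)) (ki := fun z => kc (e.symm z))
    (R := fun z => Rhs dt (D.n e z) (Fc (b.B e) z) (φ₀ e z + t • φ₁ e z) (1 + w (e.symm z))
        (kc (e.symm z)))
    (contDiffOn_const.add hwe) (fun z _ => hks _) (fun z _ => hk1' _) (fun z _ => hk2' _) ?_ ?_
  · exact this
  · intro j hj
    have h1 := hsm j hj
    have hφ : ContDiffOn ℝ j (fun z => φ₀ e z + t • φ₁ e z) e.target :=
      ((h₀.line h₁ t).smooth e he).of_le (by exact_mod_cast le_top)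
    have hφs : ContDiffOn ℝ j (fun z => star (φ₀ e z + t • φ₁ e z)) e.target :=
      (starL' ℝ : 𝔸 ≃L[ℝ] 𝔸).contDiff.comp_contDiffOn hφ
    have hF : ContDiffOn ℝ j (fun z => Fc (b.B e) z) e.target :=
      hFcs.of_le (by exact_mod_cast le_top)
    have hd : ContDiffOn ℝ j (fun z => dt (1 + w (e.symm z))) e.target :=
      (hdtm.of_le (by exact_mod_cast le_top)).comp_contDiffOn hj
    have hn : ContDiffOn ℝ j (D.n e) e.target :=
      (D.n_smooth e he).of_le (by exact_mod_cast le_top)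
    unfold Rhs
    refine (hF.add (((((hφ.mul h1).mul hφs).mul hj)).sub (((h1.mul hφs).mul hj).mul hφ))).add ?_
    exact hn.smul ((hd.sub contDiffOn_const).smul contDiffOn_const)
  · refine hsol.congrU (fun z hz => ?_) (fun z hz => ?_)
    · rw [← hDb z hz]; rfl
    · rw [key e he z hz]
      have h5 : Db (fun x => b.Gi e x * dzb (b.G e) x) (fun z => 1 + w (e.symm z)) z =
        Db (b.B e) (fun x => w (e.symm x)) z := hDb z hz
      rw [h5]

end Pool.Agent.Lib8bb
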