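import Pool.Agent.Lib_MP_8bb00a_gt.Pert4
import Pool.Agent.Lib_MP_8bb00a_gt.Banach

/-!
The abstract perturbation theorem.
-/

open MeasureTheory Complex Set Metric Filter Topology
open scoped Real ContDiff ComplexConjugate Manifold

noncomputable section

namespace Pool.Agent.Lib8bb

variable {X : Type*} [TopologicalSpace X] [ChartedSpace ℂ X] [IsManifold 𝓘(ℂ) ω X]
  [CompactSpace X] [T2Space X] [MeasurableSpace X] [BorelSpace X]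
variable {𝔸 : Type*} [NormedRing 𝔸] [NormedAlgebra ℂ 𝔸] [StarRing 𝔸] [StarModule ℂ 𝔸]
  [NormedStarGroup 𝔸] [TrAlg 𝔸] [FiniteDimensional ℂ 𝔸]

theorem perturb_abs (D : SurfData X) (b : Bun X 𝔸)
    {φ₀ φ₁ : OpenPartialHomeomorph X ℂ → ℂ → 𝔸} (h₀ : Hig X 𝔸 φ₀) (h₁ : Hig X 𝔸 φ₁)
    (hbase : ∀ e ∈ atlas ℂ X, ∀ z ∈ e.target,
      Fc (b.B e) z = star (φ₀ e z) * φ₀ e z - φ₀ e z * star (φ₀ e z))
    (p : X) (hnd : ∀ e ∈ atlas ℂ X, ∀ z ∈ e.target, e.symm z ≠ p → ∀ a, star a = a →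
      φ₀ e z * a = a * φ₀ e z → TrAlg.tr a = 0 → a = 0)
    (dt : 𝔸 → ℂ) (hdt1 : dt 1 = 1) (hdts : ∀ a, dt (star a) = conj (dt a))
    (hdtm : ContDiff ℝ ∞ dt) (dtC : C(X, 𝔸) → C(X, 𝔸)) (trL : C(X, 𝔸) →L[ℝ] C(X, 𝔸))
    (hdtC : ∀ k x, dtC k x = (dt (k x)) • (1 : 𝔸))
    (htr : ∀ w x, trL w x = (TrAlg.tr (w x)) • (1 : 𝔸)) (hst : HasStrictFDerivAt dtC trL 1) :
    ∃ t0 > 0, ∀ t : ℝ, |t| < t0 → ∃ w : C(X, 𝔸), Sec1 w ∧ ‖w‖ < 1 ∧ ∀ e ∈ atlas ℂ X,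
      ContDiffOn ℝ ∞ (fun z => 1 + w (e.symm z)) e.target ∧ ∀ z ∈ e.target,
      Db (b.B e) (fun x => Ring.inverse (1 + w) (e.symm x) *
        Dd (b.B e) (fun y => 1 + w (e.symm y)) x) z =
      Rhs dt (D.n e z) (Fc (b.B e) z) (φ₀ e z + t • φ₁ e z) (1 + w (e.symm z))
        (Ring.inverse (1 + w) (e.symm z)) := by
  haveI : CompleteSpace 𝔸 := FiniteDimensional.complete ℂ 𝔸
  obtain ⟨δ, hδ, hco⟩ := coer_WH D b h₀ p hnd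
  obtain ⟨S, hS⟩ := exists_S D b (pot_WH D h₀) hδ hco
  haveI : CompleteSpace (XSp D b) := (isClosed_sec D b).completeSpace_coe
  have hdtC1 : dtC 1 = 1 := by
    ext1 x
    rw [hdtC, ContinuousMap.one_apply, hdt1, one_smul]
  obtain ⟨hN0, L, hL, hL0⟩ := nonlin (WC D h₀ trL) dtC trL hst hdtC1 (FC D h₀) (fC D h₀)
    (fC D h₁) rfl (fun w => by
      rw [WC, add_apply, Wop_apply]
      simp only [adL_apply])
  let J : (XSp D b) × ℝ →L[ℝ] (C(X, 𝔸) × (D.A → C(X, 𝔸))) × ℝ :=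
    (XSp D b).subtypeL.prodMap (ContinuousLinearMap.id ℝ ℝ)
  let N : (XSp D b) × ℝ → C(X, 𝔸) := fun y =>
    NN (WC D h₀ trL) dtC (FC D h₀) (fC D h₀) (fC D h₁) (J y)
  have hN : HasStrictFDerivAt N (L.comp J) 0 := by
    have h1 : HasStrictFDerivAt (NN (WC D h₀ trL) dtC (FC D h₀) (fC D h₀) (fC D h₁)) L (J 0) := by
      rw [map_zero]; exact hL
    exact h1.comp 0 J.hasStrictFDerivAt
  obtain ⟨t0, ht0, h⟩ := ift_fixed S N (L.comp J) hN (by show NN _ _ _ _ _ (J 0) = 0; rw [map_zero]; exact hN0)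
    (fun x => hL0 _) 1 one_pos
  refine ⟨t0, ht0, fun t ht => ?_⟩
  obtain ⟨x, hx1, hx⟩ := h t ht
  obtain ⟨hsec, hpa⟩ := x.2
  have hw1 : ‖(x.1.1 : C(X, 𝔸))‖ < 1 :=
    lt_of_le_of_lt (norm_fst_le x.1) hx1
  refine ⟨x.1.1, hsec, hw1, fun e he => ?_⟩
  refine strong_eq dt hdtC hdts hdtm D b h₀ h₁ htr hbase x.1.1 x.1.2 hsec hpa hw1 t ?_ he
  intro ζ hζ
  have h2 := hS (N (x, t)) (NN_star dt hdtC hdts D b h₀ h₁ htr x.1.1 x.1.2 hsec hpa hw1 t) ζ hζ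
  rw [← hx] at h2
  exact h2

end Pool.Agent.Lib8bb
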