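import Pool.Agent.Lib_MP_8bb00a_gt.Pert5
import Pool.Agent.Lib_MP_8bb00a_gt.DetLap
import Pool.Agent.Lib_MP_8bb00a_gt.MaxP

/-!
The perturbation theorem for rank three Higgs bundles.
-/

open MeasureTheory Complex Set Metric Filter Topology
open scoped Real ContDiff ComplexConjugate Manifold

noncomputable section

namespace Pool.Agent.Lib8bb

/-- holomorphic transition matrix between the holomorphic frames -/
def Bun.T {X : Type*} [TopologicalSpace X] [ChartedSpace ℂ X]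
    {𝔸 : Type*} [NormedRing 𝔸] [NormedAlgebra ℂ 𝔸] (b : Bun X 𝔸)
    (e e' : OpenPartialHomeomorph X ℂ) (z : ℂ) : 𝔸 := b.G e' (trans e e' z) * b.Gi e z

section frame

variable {X : Type*} [TopologicalSpace X] [ChartedSpace ℂ X] [IsManifold 𝓘(ℂ) ω X]
  [CompactSpace X] [T2Space X] [MeasurableSpace X] [BorelSpace X]
variable {𝔸 : Type*} [NormedRing 𝔸] [NormedAlgebra ℂ 𝔸] [StarRing 𝔸] [StarModule ℂ 𝔸]
  [NormedStarGroup 𝔸] [TrAlg 𝔸] [FiniteDimensional ℂ 𝔸]

/-- the Higgs field in the unitary frame -/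
def uF (b : Bun X 𝔸) (Φ : OpenPartialHomeomorph X ℂ → ℂ → 𝔸) (e : OpenPartialHomeomorph X ℂ)
    (z : ℂ) : 𝔸 := b.Gi e z * Φ e z * b.G e z

theorem uF_hig (b : Bun X 𝔸) {Φ : OpenPartialHomeomorph X ℂ → ℂ → 𝔸}
    (hol : ∀ e ∈ atlas ℂ X, DifferentiableOn ℂ (Φ e) e.target)
    (comp : ∀ e ∈ atlas ℂ X, ∀ e' ∈ atlas ℂ X, ∀ z ∈ dom e e',
      b.T e e' z * Φ e z = deriv (trans e e') z • (Φ e' (trans e e' z) * b.T e e' z)) :
    Hig X 𝔸 (uF b Φ) where
  smooth e he := by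
    haveI : CompleteSpace 𝔸 := FiniteDimensional.complete ℂ 𝔸
    have h1 : ContDiffOn ℂ ∞ (Φ e) e.target := (hol e he).contDiffOn e.open_target
    have h2 : ContDiffOn ℝ ∞ (Φ e) e.target := h1.restrict_scalars ℝ
    exact ((b.Gi_smooth e he).mul h2).mul (b.G_smooth e he)
  trans e he e' he' z hz := by
    have hz' := trans_mem_target hz
    have h1 := comp e he e' he' z hz
    rw [Bun.T] at h1
    show b.Gi e z * Φ e z * b.G e z = deriv (trans e e') z • (b.Gi e' (trans e e' z) *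
      Φ e' (trans e e' z) * b.G e' (trans e e' z))
    have h2 : b.Gi e z * Φ e z * b.G e z = b.Gi e' (trans e e' z) *
        (b.G e' (trans e e' z) * b.Gi e z * Φ e z) * b.G e z := by
      rw [← mul_assoc, ← mul_assoc, b.Gi_mul e' he' _ hz', one_mul]
    rw [h2, h1, mul_smul_comm, smul_mul_assoc]
    congr 1
    simp only [mul_assoc]
    rw [b.Gi_mul e he z hz.1, mul_one]

omit [IsManifold 𝓘(ℂ) ω X] [CompactSpace X] [T2Space X] [MeasurableSpace X] [BorelSpace X]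
  [StarModule ℂ 𝔸] [NormedStarGroup 𝔸] [TrAlg 𝔸] [FiniteDimensional ℂ 𝔸] in
/-- adjoint computations: with `H = Gi^* k Gi`, `φ = Gi Φ G` one has
`G (φ ki φ^* k) Gi = Φ (H⁻¹ Φ^* H)` -/
theorem adj_frame (b : Bun X 𝔸) (Φ : OpenPartialHomeomorph X ℂ → ℂ → 𝔸)
    {e : OpenPartialHomeomorph X ℂ} (he : e ∈ atlas ℂ X) {z : ℂ} (hz : z ∈ e.target) (k ki : 𝔸) :
    b.G e z * (ki * star (uF b Φ e z) * k) * b.Gi e z =
      (b.G e z * ki * star (b.G e z)) * star (Φ e z) * (star (b.Gi e z) * k * b.Gi e z) := by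
  rw [uF, star_mul, star_mul]
  simp only [mul_assoc]

theorem Dd_one (B : ℂ → 𝔸) (z : ℂ) : Dd B (fun _ => (1 : 𝔸)) z = 0 := by
  rw [Dd, dz_const]; simp

theorem Db_zero_fun (B : ℂ → 𝔸) (z : ℂ) : Db B (fun _ => (0 : 𝔸)) z = 0 := by
  rw [Db, dzb_const]; simp

/-- curvature of the base metric -/
theorem base_Fc (b : Bun X 𝔸) {Φ₀ : OpenPartialHomeomorph X ℂ → ℂ → 𝔸}
    (base : ∀ e ∈ atlas ℂ X, ∀ z ∈ e.target,
      dzb (fun x => b.G e x * star (b.G e x) * dz (fun y => star (b.Gi e y) * b.Gi e y) x) z =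
        Φ₀ e z * (b.G e z * star (b.G e z) * star (Φ₀ e z) * (star (b.Gi e z) * b.Gi e z)) -
        (b.G e z * star (b.G e z) * star (Φ₀ e z) * (star (b.Gi e z) * b.Gi e z)) * Φ₀ e z) :
    ∀ e ∈ atlas ℂ X, ∀ z ∈ e.target,
      Fc (b.B e) z = star (uF b Φ₀ e z) * uF b Φ₀ e z - uF b Φ₀ e z * star (uF b Φ₀ e z) := by
  intro e he z hz
  have h1 := curv_frame e.open_target (b.G_smooth e he) (b.Gi_smooth e he) (b.mul_Gi e he)
    (b.Gi_mul e he) (k := fun _ => (1 : 𝔸)) (ki := fun _ => (1 : 𝔸)) contDiffOn_const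
    contDiffOn_const (fun _ _ => mul_one _) (fun _ _ => mul_one _) hz
  have h2 : (fun x => (1 : 𝔸) * Dd (fun y => b.Gi e y * dzb (b.G e) y) (fun _ => (1 : 𝔸)) x) =
      fun _ => 0 := by
    funext x; rw [Dd_one, mul_zero]
  rw [h2, Db_zero_fun, zero_sub] at h1
  simp only [mul_one] at h1
  rw [base e he z hz] at h1
  have h3 := b.Gi_mul e he z hz
  have h3s : star (b.G e z) * star (b.Gi e z) = 1 := by rw [← star_mul, h3, star_one]
  have h4 : b.Gi e z * (b.G e z * (-Fc (b.B e) z) * b.Gi e z) * b.G e z = - Fc (b.B e) z := by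
    calc b.Gi e z * (b.G e z * (-Fc (b.B e) z) * b.Gi e z) * b.G e z
        = (b.Gi e z * b.G e z) * (-Fc (b.B e) z) * (b.Gi e z * b.G e z) := by
          simp only [mul_assoc]
      _ = _ := by rw [h3, one_mul, mul_one]
  have h5 : b.G e z * -Fc (fun x => b.Gi e x * dzb (b.G e) x) z * b.Gi e z =
      b.G e z * (-Fc (b.B e) z) * b.Gi e z := rfl
  rw [h5] at h1
  rw [← h1] at h4
  have h6 : Fc (b.B e) z = - (b.Gi e z * (Φ₀ e z * (b.G e z * star (b.G e z) * star (Φ₀ e z) *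
      (star (b.Gi e z) * b.Gi e z)) - (b.G e z * star (b.G e z) * star (Φ₀ e z) *
      (star (b.Gi e z) * b.Gi e z)) * Φ₀ e z) * b.G e z) := by
    rw [h4, neg_neg]
  rw [h6, mul_sub, sub_mul, neg_sub]
  congr 1
  · rw [uF, star_mul, star_mul]
    calc b.Gi e z * (b.G e z * star (b.G e z) * star (Φ₀ e z) * (star (b.Gi e z) * b.Gi e z) *
          Φ₀ e z) * b.G e z = (b.Gi e z * b.G e z) * (star (b.G e z) * star (Φ₀ e z) *
            star (b.Gi e z) * (b.Gi e z * Φ₀ e z * b.G e z)) := by simp only [mul_assoc]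
      _ = _ := by rw [h3, one_mul]; simp only [mul_assoc]
  · rw [uF, star_mul, star_mul]
    calc b.Gi e z * (Φ₀ e z * (b.G e z * star (b.G e z) * star (Φ₀ e z) *
          (star (b.Gi e z) * b.Gi e z))) * b.G e z = b.Gi e z * Φ₀ e z * b.G e z *
            (star (b.G e z) * star (Φ₀ e z) * star (b.Gi e z)) * (b.Gi e z * b.G e z) := by
              simp only [mul_assoc]
      _ = _ := by rw [h3, mul_one]; simp only [mul_assoc]

end frame

end Pool.Agent.Lib8bb
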