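import Mathlib
import Pool.Agent.Lib_MP_8bb00a_gt.Bundle

/-!
# Stability of the Higgs bundle `EC`
-/

open Complex Set
open scoped ComplexConjugate Topology ContDiff Matrix ComplexOrder

namespace MP_8bb00a_gt

open Pool.Agent.Lib8bb

/-- weights comparing the third frame vectors -/
noncomputable def cw : CA.I → Crv → ℂ
  | none => zc
  | some _ => fun _ => 1

theorem cw_rel {i j : CA.I} {x : Crv} (hi : x ∈ CA.dom i) (hj : x ∈ CA.dom j) :
    EC.g i j x 2 2 * cw i x = cw j x := by
  cases i <;> cases j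
  · show (1 : Matrix (Fin 3) (Fin 3) ℂ) 2 2 * zc x = zc x
    simp
  · show dg (zc x)⁻¹ 2 2 * zc x = 1
    have := zc_ne hi (ne_pinf_of_mem hj)
    simp [dg, this]
  · show dg (zc x) 2 2 * 1 = zc x
    simp [dg]
  · show (1 : Matrix (Fin 3) (Fin 3) ℂ) 2 2 * 1 = 1
    simp

theorem cw_ne {i : CA.I} {x : Crv} (hi : x ∈ CA.dom i) (hx : x ≠ pinf) : cw i x ≠ 0 := by
  cases i
  · exact zc_ne hi hx
  · exact one_ne_zero

theorem cw_hol (i : CA.I) : CA.Hol i (CA.dom i) (cw i) := by
  cases i
  · have := zc_hol none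
    rwa [inter_self] at this
  · exact hol_const _ _ _

/-- the transition matrices are diagonal with first two ... entries -/
theorem gC_offdiag {i j : CA.I} {x : Crv} {a b : Fin 3} (hab : a ≠ b) : EC.g i j x a b = 0 := by
  cases i <;> cases j
  · show (1 : Matrix (Fin 3) (Fin 3) ℂ) a b = 0
    exact Matrix.one_apply_ne hab
  · show dg (zc x)⁻¹ a b = 0
    exact Matrix.diagonal_apply_ne _ hab
  · show dg (zc x) a b = 0
    exact Matrix.diagonal_apply_ne _ hab
  · show (1 : Matrix (Fin 3) (Fin 3) ℂ) a b = 0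
    exact Matrix.one_apply_ne hab

theorem gC_one_one {i j : CA.I} {x : Crv} : EC.g i j x 1 1 = 1 := by
  cases i <;> cases j
  · show (1 : Matrix (Fin 3) (Fin 3) ℂ) 1 1 = 1
    simp
  · show dg (zc x)⁻¹ 1 1 = 1
    simp [dg]
  · show dg (zc x) 1 1 = 1
    simp [dg]
  · show (1 : Matrix (Fin 3) (Fin 3) ℂ) 1 1 = 1
    simp

theorem gC_mul_row {r : ℕ} {i j : CA.I} {x : Crv} (B : Matrix (Fin 3) (Fin r) ℂ) (a : Fin 3)
    (b : Fin r) : (EC.g i j x * B) a b = EC.g i j x a a * B a b := by
  rw [Matrix.mul_apply, Finset.sum_eq_single a]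
  · intro c _ hc
    rw [gC_offdiag hc.symm, zero_mul]
  · intro h; exact absurd (Finset.mem_univ _) h

/-- nilpotent matrices of size one and two -/
theorem nilp_one {C : Matrix (Fin 1) (Fin 1) ℂ} (h : C * C * C = 0) : C = 0 := by
  have h1 := congrFun (congrFun h 0) 0
  simp [Matrix.mul_apply] at h1
  ext a b
  fin_cases a; fin_cases b
  simpa using h1

theorem nilp_two {C : Matrix (Fin 2) (Fin 2) ℂ} (h : C * C * C = 0) : C * C = 0 := by
  have hdet : C.det = 0 := by
    have h1 := congrArg Matrix.det h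
    rw [Matrix.det_mul, Matrix.det_mul, Matrix.det_zero] at h1
    simpa using h1
  -- Cayley-Hamilton
  have hch : C * C = C.trace • C := by
    rw [Matrix.det_fin_two] at hdet
    ext a b
    fin_cases a <;> fin_cases b <;>
      simp [Matrix.mul_apply, Fin.sum_univ_two, Matrix.trace_fin_two] <;>
      first
      | ring1
      | linear_combination -hdet
  rw [hch, Matrix.smul_mul, hch, smul_smul] at h
  rcases smul_eq_zero.1 h with h | h
  · have : C.trace = 0 := by simpa using h
    rw [hch, this, zero_smul]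
  · rw [h, Matrix.zero_mul]

theorem NN_sq : NN * NN = !![0, 0, 0; 0, 0, 0; 1, 0, 0] := by
  unfold NN
  ext a b
  fin_cases a <;> fin_cases b <;> simp [Matrix.mul_apply, Fin.sum_univ_three]

theorem NN_cube : NN * NN * NN = 0 := by
  rw [NN_sq]
  unfold NN
  ext a b
  fin_cases a <;> fin_cases b <;> simp [Matrix.mul_apply, Fin.sum_univ_three]

/-- at the affine points the Higgs field is a nonzero multiple of a conjugate of `N + N²` by a
diagonal matrix: its cube vanishes and the kernels are the coordinate subspaces -/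
theorem phi_cube {i : CA.I} {x : Crv} : EC.phi i x * EC.phi i x * EC.phi i x = 0 := by
  cases i with
  | none =>
    show (!![0, 0, 0; mfun (zc x) * zc x, 0, 0; mfun (zc x), mfun (zc x) * zc x, 0] :
      Matrix (Fin 3) (Fin 3) ℂ) * _ * _ = 0
    ext a b
    fin_cases a <;> fin_cases b <;> simp [Matrix.mul_apply, Fin.sum_univ_three, EC, phiC]
  | some Q =>
    show (om (some Q) x • NN) * (om (some Q) x • NN) * (om (some Q) x • NN) = 0
    simp only [Matrix.smul_mul, Matrix.mul_smul, NN_cube, smul_zero]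

/-- the entries (2,1) and (3,2) of the Higgs field do not vanish at the affine points -/
theorem phi_shape (i : CA.I) {x : Crv} (hi : x ∈ CA.dom i) (hx : x ≠ pinf) :
    ∃ γ δ : ℂ, γ ≠ 0 ∧ EC.phi i x = !![0, 0, 0; γ, 0, 0; δ, γ, 0] := by
  cases i with
  | none =>
    exact ⟨mfun (zc x) * zc x, mfun (zc x),
      mul_ne_zero (mfun_ne (CA.chart_mem (i := none) hi)) (zc_ne hi hx), rfl⟩
  | some Q =>
    refine ⟨om (some Q) x, om (some Q) x, om_ne Q hi, ?_⟩
    show om (some Q) x • NN = _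
    unfold NN
    ext a b
    fin_cases a <;> fin_cases b <;> simp

section sub

variable {r : ℕ} (F : EC.Subbundle r)

/-- an entry of the frames which vanishes at all affine points vanishes everywhere -/
theorem entry_zero (a : Fin 3) (b : Fin r)
    (h : ∀ j, ∀ x ∈ F.V j, x ≠ pinf → F.B j x a b = 0) : ∀ j, ∀ x ∈ F.V j, F.B j x a b = 0 := by
  intro j x hx
  by_cases hxp : x = pinf
  swap
  · exact h j x hx hxp
  subst hxp
  have hdom := F.sub j hx
  cases hι : F.ι j with
  | some Q => rw [hι] at hdom; exact absurd hdom (pinf_not_mem Q)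
  | none =>
    have hhol := F.holo j a b
    rw [hι] at hhol
    set U : Set ℂ := CA.img none ∩ CA.pt none ⁻¹' F.V j with hU
    have hUo : IsOpen U := CA.isOpen_ov none (F.isOpen j)
    have h0 : (0 : ℂ) ∈ U := by
      refine ⟨?_, ?_⟩
      · rw [CA_img_none]; simp
      · show CA.pt none 0 ∈ F.V j
        rw [pt_zero]; exact hx
    have hcont : ContinuousAt (fun z => F.B j (CA.pt none z) a b) 0 :=
      (hhol.differentiableAt (hUo.mem_nhds h0)).continuousAt
    have hev : (fun z => F.B j (CA.pt none z) a b) =ᶠ[𝓝[≠] 0] fun _ => 0 := by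
      have : ∀ᶠ z in 𝓝[≠] (0 : ℂ), z ∈ U := nhdsWithin_le_nhds (hUo.mem_nhds h0)
      filter_upwards [this, self_mem_nhdsWithin] with z hz hz0
      refine h j _ hz.2 ?_
      intro h1
      apply hz0
      have h2 := zc_pt hz.1
      rw [h1, zc_pinf] at h2
      exact h2.symm
    have h3 : Filter.Tendsto (fun z => F.B j (CA.pt none z) a b) (𝓝[≠] 0)
        (𝓝 (F.B j (CA.pt none 0) a b)) := hcont.tendsto.mono_left nhdsWithin_le_nhds
    have h4 : Filter.Tendsto (fun z => F.B j (CA.pt none z) a b) (𝓝[≠] 0) (𝓝 0) :=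
      (tendsto_const_nhds).congr' hev.symm
    have h5 := tendsto_nhds_unique h3 h4
    rw [pt_zero] at h5
    exact h5

theorem inj_left {m : ℕ} {j : F.J} {x : Crv} (hx : x ∈ F.V j) {M : Matrix (Fin r) (Fin m) ℂ}
    (h : F.B j x * M = 0) : M = 0 := by
  ext a b
  have h1 : (F.B j x).mulVec (M.col b) = (F.B j x).mulVec 0 := by
    rw [Matrix.mulVec_zero]
    funext c
    have := congrFun (congrFun h c) b
    simpa [Matrix.mul_apply, Matrix.mulVec, dotProduct] using this
  have h2 := F.inj j x hx h1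
  exact congrFun h2 a

theorem cube_zero {j : F.J} {x : Crv} (hx : x ∈ F.V j) {C : Matrix (Fin r) (Fin r) ℂ}
    (h : EC.phi (F.ι j) x * F.B j x = F.B j x * C) : C * C * C = 0 := by
  apply inj_left F hx
  have h1 : F.B j x * (C * C * C) = EC.phi (F.ι j) x * EC.phi (F.ι j) x * EC.phi (F.ι j) x *
      F.B j x := by
    calc F.B j x * (C * C * C) = F.B j x * C * C * C := by simp only [Matrix.mul_assoc]
      _ = EC.phi (F.ι j) x * F.B j x * C * C := by rw [h]
      _ = EC.phi (F.ι j) x * (F.B j x * C) * C := by simp only [Matrix.mul_assoc]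
      _ = EC.phi (F.ι j) x * (EC.phi (F.ι j) x * F.B j x) * C := by rw [h]
      _ = EC.phi (F.ι j) x * EC.phi (F.ι j) x * (F.B j x * C) := by simp only [Matrix.mul_assoc]
      _ = EC.phi (F.ι j) x * EC.phi (F.ι j) x * (EC.phi (F.ι j) x * F.B j x) := by rw [h]
      _ = _ := by simp only [Matrix.mul_assoc]
  rw [h1, phi_cube, Matrix.zero_mul]

end sub

theorem negDegree_one (F : EC.Subbundle 1) (hF : F.Invariant) : F.NegDegree := by
  -- the first two rows vanish
  have hrows : ∀ j, ∀ x ∈ F.V j, x ≠ pinf → F.B j x 0 0 = 0 ∧ F.B j x 1 0 = 0 := by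
    intro j x hx hxp
    obtain ⟨C, hC⟩ := hF j x hx
    have hC0 := nilp_one (cube_zero F hx hC)
    rw [hC0, Matrix.mul_zero] at hC
    obtain ⟨γ, δ, hγ, hphi⟩ := phi_shape (F.ι j) (F.sub j hx) hxp
    rw [hphi] at hC
    have e1 := congrFun (congrFun hC 1) 0
    have e2 := congrFun (congrFun hC 2) 0
    simp [Matrix.mul_apply, Fin.sum_univ_three] at e1 e2
    have h0 : F.B j x 0 0 = 0 := e1.resolve_left hγ
    rw [h0, mul_zero, zero_add] at e2
    exact ⟨h0, (mul_eq_zero.1 e2).resolve_left hγ⟩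
  have h0 := entry_zero F 0 0 fun j x hx hxp => (hrows j x hx hxp).1
  have h1 := entry_zero F 1 0 fun j x hx hxp => (hrows j x hx hxp).2
  have h2 : ∀ j, ∀ x ∈ F.V j, F.B j x 2 0 ≠ 0 := by
    intro j x hx h
    have h3 : F.B j x * (1 : Matrix (Fin 1) (Fin 1) ℂ) = 0 := by
      rw [Matrix.mul_one]
      ext a b
      fin_cases b
      fin_cases a
      · exact h0 j x hx
      · exact h1 j x hx
      · exact h
    have h4 := congrFun (congrFun (inj_left F hx h3) 0) 0
    simp at h4
  refine ⟨1, one_pos, fun j x => cw (F.ι j) x * F.B j x 2 0, ?_, ?_, ?_, ?_⟩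
  · intro j
    refine DifferentiableOn.mul ?_ (F.holo j 2 0)
    refine (cw_hol (F.ι j)).mono ?_
    rintro z ⟨hz1, hz2⟩
    exact ⟨hz1, F.sub j hz2⟩
  · intro j l x hj hl
    have h3 := congrFun (congrFun (F.compat j l x hj hl) 2) 0
    rw [gC_mul_row, Matrix.mul_apply, Fin.sum_univ_one] at h3
    beta_reduce
    rw [Matrix.det_fin_one, pow_one, ← cw_rel (F.sub j hj) (F.sub l hl)]
    linear_combination (cw (F.ι j) x) * h3
  · let P0 : AffC := ⟨(0, 1), by norm_num⟩
    obtain ⟨j, hj⟩ := F.cover (P0 : Crv)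
    exact ⟨j, P0, hj, mul_ne_zero (cw_ne (F.sub j hj) (OnePoint.coe_ne_infty _)) (h2 j _ hj)⟩
  · obtain ⟨j, hj⟩ := F.cover pinf
    refine ⟨j, pinf, hj, ?_⟩
    have hdom := F.sub j hj
    cases hι : F.ι j with
    | some Q => rw [hι] at hdom; exact absurd hdom (pinf_not_mem Q)
    | none =>
      have h5 : cw (F.ι j) pinf = 0 := by rw [hι]; exact zc_pinf
      show cw (F.ι j) pinf * F.B j pinf 2 0 = 0
      rw [h5, zero_mul]

theorem negDegree_two (F : EC.Subbundle 2) (hF : F.Invariant) : F.NegDegree := by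
  -- the first row vanishes
  have hrows : ∀ j, ∀ x ∈ F.V j, x ≠ pinf → ∀ b, F.B j x 0 b = 0 := by
    intro j x hx hxp b
    obtain ⟨C, hC⟩ := hF j x hx
    have hC0 := nilp_two (cube_zero F hx hC)
    obtain ⟨γ, δ, hγ, hphi⟩ := phi_shape (F.ι j) (F.sub j hx) hxp
    have h2 : EC.phi (F.ι j) x * EC.phi (F.ι j) x * F.B j x = 0 := by
      rw [Matrix.mul_assoc, hC, ← Matrix.mul_assoc, hC, Matrix.mul_assoc, hC0, Matrix.mul_zero]
    rw [hphi] at h2
    have e2 := congrFun (congrFun h2 2) b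
    simp [Matrix.mul_apply, Fin.sum_univ_three] at e2
    exact e2.resolve_left hγ
  have h0 : ∀ b, ∀ j, ∀ x ∈ F.V j, F.B j x 0 b = 0 := fun b =>
    entry_zero F 0 b fun j x hx hxp => hrows j x hx hxp b
  -- the minor
  set D : F.J → Crv → ℂ := fun j x => F.B j x 1 0 * F.B j x 2 1 - F.B j x 1 1 * F.B j x 2 0 with hD
  have hDne : ∀ j, ∀ x ∈ F.V j, D j x ≠ 0 := by
    intro j x hx h
    have h3 : F.B j x * !![F.B j x 2 1, F.B j x 1 1; - F.B j x 2 0, - F.B j x 1 0] = 0 := by
      ext a b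
      fin_cases a <;> fin_cases b <;> simp [Matrix.mul_apply, Fin.sum_univ_two, h0 _ j x hx] <;>
        simp only [hD] at h
      · linear_combination h
      · ring
      · ring
      · linear_combination -h
    have h4 := inj_left F hx h3
    have e1 : F.B j x 2 1 = 0 := congrFun (congrFun h4 0) 0
    have e2 : F.B j x 1 1 = 0 := congrFun (congrFun h4 0) 1
    have h5 : F.B j x * (!![0, 0; 1, 0] : Matrix (Fin 2) (Fin 2) ℂ) = 0 := by
      ext a b
      fin_cases a <;> fin_cases b <;> simp [Matrix.mul_apply, h0 _ j x hx, e1, e2]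
    have h6 := congrFun (congrFun (inj_left F hx h5) 1) 0
    simp at h6
  refine ⟨1, one_pos, fun j x => cw (F.ι j) x * D j x, ?_, ?_, ?_, ?_⟩
  · intro j
    refine DifferentiableOn.mul ?_ ?_
    · refine (cw_hol (F.ι j)).mono ?_
      rintro z ⟨hz1, hz2⟩
      exact ⟨hz1, F.sub j hz2⟩
    · exact ((F.holo j 1 0).mul (F.holo j 2 1)).sub ((F.holo j 1 1).mul (F.holo j 2 0))
  · intro j l x hj hl
    have h3 : ∀ a b, EC.g (F.ι j) (F.ι l) x a a * F.B l x a b =
        F.B j x a 0 * F.k j l x 0 b + F.B j x a 1 * F.k j l x 1 b := by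
      intro a b
      have := congrFun (congrFun (F.compat j l x hj hl) a) b
      rwa [gC_mul_row, Matrix.mul_apply, Fin.sum_univ_two] at this
    have e10 := h3 1 0
    have e11 := h3 1 1
    have e20 := h3 2 0
    have e21 := h3 2 1
    rw [gC_one_one, one_mul] at e10 e11
    beta_reduce
    rw [Matrix.det_fin_two, pow_one, ← cw_rel (F.sub j hj) (F.sub l hl)]
    simp only [hD]
    rw [e10, e11]
    linear_combination (cw (F.ι j) x) * (F.B j x 1 0 * F.k j l x 0 0 +
      F.B j x 1 1 * F.k j l x 1 0) * e21 - (cw (F.ι j) x) * (F.B j x 1 0 * F.k j l x 0 1 +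
      F.B j x 1 1 * F.k j l x 1 1) * e20
  · let P0 : AffC := ⟨(0, 1), by norm_num⟩
    obtain ⟨j, hj⟩ := F.cover (P0 : Crv)
    exact ⟨j, P0, hj, mul_ne_zero (cw_ne (F.sub j hj) (OnePoint.coe_ne_infty _)) (hDne j _ hj)⟩
  · obtain ⟨j, hj⟩ := F.cover pinf
    refine ⟨j, pinf, hj, ?_⟩
    have hdom := F.sub j hj
    cases hι : F.ι j with
    | some Q => rw [hι] at hdom; exact absurd hdom (pinf_not_mem Q)
    | none =>
      have h5 : cw (F.ι j) pinf = 0 := by rw [hι]; exact zc_pinf
      show cw (F.ι j) pinf * D j pinf = 0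
      rw [h5, zero_mul]

/-- **The Higgs bundle is stable.** -/
theorem EC_stable : EC.Stable := by
  intro r h0 h3 F hF
  have : r = 1 ∨ r = 2 := by omega
  rcases this with rfl | rfl
  · exact negDegree_one F hF
  · exact negDegree_two F hF

end MP_8bb00a_gt
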