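import Pool.Agent.Lib_MP_8bb00a_gt.CT5

/-!
Transition maps and `C^k` functions on a Riemann surface given as a Mathlib manifold over `ℂ`.
-/

open MeasureTheory Complex Set Metric Filter Topology
open scoped Real ContDiff ComplexConjugate Manifold

noncomputable section

namespace Pool.Agent.Lib8bb

section charts

variable {X : Type*} [TopologicalSpace X]

/-- transition function -/
def trans (e e' : OpenPartialHomeomorph X ℂ) (z : ℂ) : ℂ := e' (e.symm z)

/-- domain of the transition function -/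
def dom (e e' : OpenPartialHomeomorph X ℂ) : Set ℂ := e.target ∩ e.symm ⁻¹' e'.source

theorem isOpen_dom (e e' : OpenPartialHomeomorph X ℂ) : IsOpen (dom e e') :=
  e.isOpen_inter_preimage_symm e'.open_source

theorem trans_mem_target {e e' : OpenPartialHomeomorph X ℂ} {z : ℂ} (hz : z ∈ dom e e') :
    trans e e' z ∈ e'.target := e'.map_source hz.2

theorem symm_trans {e e' : OpenPartialHomeomorph X ℂ} {z : ℂ} (hz : z ∈ dom e e') :
    e'.symm (trans e e' z) = e.symm z := e'.left_inv hz.2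

theorem trans_mem_dom {e e' : OpenPartialHomeomorph X ℂ} {z : ℂ} (hz : z ∈ dom e e') :
    trans e e' z ∈ dom e' e := by
  refine ⟨trans_mem_target hz, ?_⟩
  rw [mem_preimage, symm_trans hz]
  exact e.map_target hz.1

theorem trans_trans {e e' : OpenPartialHomeomorph X ℂ} {z : ℂ} (hz : z ∈ dom e e') :
    trans e' e (trans e e' z) = z := by
  rw [trans, symm_trans hz]
  exact e.right_inv hz.1

theorem mem_dom_of {e e' : OpenPartialHomeomorph X ℂ} {x : X} (hx : x ∈ e.source)
    (hx' : x ∈ e'.source) : e x ∈ dom e e' := by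
  refine ⟨e.map_source hx, ?_⟩
  rw [mem_preimage, e.left_inv hx]; exact hx'

theorem trans_apply {e e' : OpenPartialHomeomorph X ℂ} {x : X} (hx : x ∈ e.source) :
    trans e e' (e x) = e' x := by rw [trans, e.left_inv hx]

theorem continuousOn_trans (e e' : OpenPartialHomeomorph X ℂ) :
    ContinuousOn (trans e e') (dom e e') := by
  refine e'.continuousOn.comp (e.continuousOn_symm.mono inter_subset_left) ?_
  intro z hz; exact hz.2

theorem trans_self {e : OpenPartialHomeomorph X ℂ} {z : ℂ} (hz : z ∈ e.target) :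
    trans e e z = z := e.right_inv hz

theorem dom_self (e : OpenPartialHomeomorph X ℂ) : dom e e = e.target := by
  ext z
  refine ⟨fun h => h.1, fun h => ⟨h, e.map_target h⟩⟩

/-- cocycle property of transition maps near a point -/
theorem trans_comp_eventually {e e' e'' : OpenPartialHomeomorph X ℂ} {z : ℂ} (hz : z ∈ dom e e') :
    trans e e'' =ᶠ[𝓝 z] fun w => trans e' e'' (trans e e' w) := by
  filter_upwards [(isOpen_dom e e').mem_nhds hz] with w hw
  rw [trans, trans, symm_trans hw]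

variable [ChartedSpace ℂ X] [IsManifold 𝓘(ℂ) ω X]

theorem trans_contDiffOn {e e' : OpenPartialHomeomorph X ℂ} (he : e ∈ atlas ℂ X)
    (he' : e' ∈ atlas ℂ X) : ContDiffOn ℂ ω (trans e e') (dom e e') := by
  have h := StructureGroupoid.compatible (contDiffGroupoid ω 𝓘(ℂ)) he he'
  rw [contDiffGroupoid, mem_groupoid_of_pregroupoid] at h
  have h1 : ContDiffOn ℂ ω (𝓘(ℂ) ∘ (e.symm ≫ₕ e') ∘ 𝓘(ℂ).symm)
    (𝓘(ℂ).symm ⁻¹' (e.symm ≫ₕ e').source ∩ range 𝓘(ℂ)) := h.1
  have h2 : 𝓘(ℂ).symm ⁻¹' (e.symm ≫ₕ e').source ∩ range 𝓘(ℂ) = dom e e' := by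
    simp [dom]
  rw [h2] at h1
  exact h1

theorem trans_holo {e e' : OpenPartialHomeomorph X ℂ} (he : e ∈ atlas ℂ X)
    (he' : e' ∈ atlas ℂ X) : DifferentiableOn ℂ (trans e e') (dom e e') :=
  (trans_contDiffOn he he').differentiableOn (by simp)

theorem trans_diffAt {e e' : OpenPartialHomeomorph X ℂ} (he : e ∈ atlas ℂ X)
    (he' : e' ∈ atlas ℂ X) {z : ℂ} (hz : z ∈ dom e e') : DifferentiableAt ℂ (trans e e') z :=
  (trans_holo he he').differentiableAt ((isOpen_dom e e').mem_nhds hz)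

theorem trans_deriv_chain {e e' e'' : OpenPartialHomeomorph X ℂ} (he : e ∈ atlas ℂ X)
    (he' : e' ∈ atlas ℂ X) (he'' : e'' ∈ atlas ℂ X) {z : ℂ} (hz : z ∈ dom e e')
    (hz' : z ∈ dom e e'') :
    deriv (trans e e'') z = deriv (trans e' e'') (trans e e' z) * deriv (trans e e') z := by
  rw [(trans_comp_eventually hz).deriv_eq]
  have h1 : trans e e' z ∈ dom e' e'' := by
    refine ⟨trans_mem_target hz, ?_⟩
    rw [mem_preimage, symm_trans hz]; exact hz'.2
  exact deriv_comp z (trans_diffAt he' he'' h1) (trans_diffAt he he' hz)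

omit [ChartedSpace ℂ X] [IsManifold 𝓘(ℂ) ω X] in
theorem deriv_trans_self {e : OpenPartialHomeomorph X ℂ} {z : ℂ}
    (hz : z ∈ e.target) : deriv (trans e e) z = 1 := by
  have : trans e e =ᶠ[𝓝 z] fun w => w := by
    filter_upwards [e.open_target.mem_nhds hz] with w hw using trans_self hw
  rw [this.deriv_eq]
  simp

theorem trans_deriv_inv {e e' : OpenPartialHomeomorph X ℂ} (he : e ∈ atlas ℂ X)
    (he' : e' ∈ atlas ℂ X) {z : ℂ} (hz : z ∈ dom e e') :
    deriv (trans e' e) (trans e e' z) * deriv (trans e e') z = 1 := by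
  rw [← trans_deriv_chain he he' he hz (by rw [dom_self]; exact hz.1), deriv_trans_self hz.1]

theorem trans_deriv_ne {e e' : OpenPartialHomeomorph X ℂ} (he : e ∈ atlas ℂ X)
    (he' : e' ∈ atlas ℂ X) {z : ℂ} (hz : z ∈ dom e e') : deriv (trans e e') z ≠ 0 := by
  intro h
  have := trans_deriv_inv he he' hz
  rw [h, mul_zero] at this
  exact zero_ne_one this

end charts

section Ck

variable {X : Type*} [TopologicalSpace X] [ChartedSpace ℂ X]
variable {V W : Type*} [NormedAddCommGroup V] [NormedSpace ℝ V]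
  [NormedAddCommGroup W] [NormedSpace ℝ W]

/-- `C^k` functions on the surface -/
def Ck (k : ℕ∞ω) (f : X → V) : Prop :=
  ∀ e ∈ atlas ℂ X, ContDiffOn ℝ k (fun z => f (e.symm z)) e.target

theorem Ck.contDiffAt {k : ℕ∞ω} {f : X → V} (hf : Ck k f) {e : OpenPartialHomeomorph X ℂ}
    (he : e ∈ atlas ℂ X) {z : ℂ} (hz : z ∈ e.target) : ContDiffAt ℝ k (fun z => f (e.symm z)) z :=
  (hf e he).contDiffAt (e.open_target.mem_nhds hz)

theorem Ck.of_le {k l : ℕ∞ω} {f : X → V} (hf : Ck k f) (h : l ≤ k) : Ck l f :=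
  fun e he => (hf e he).of_le h

theorem Ck.of_local [IsManifold 𝓘(ℂ) ω X] {k : ℕ∞ω} {f : X → V}
    (h : ∀ x, ∃ e ∈ atlas ℂ X, x ∈ e.source ∧ ContDiffAt ℝ k (fun z => f (e.symm z)) (e x)) :
    Ck k f := by
  intro e he z hz
  obtain ⟨e', he', hx, hd⟩ := h (e.symm z)
  have hzd : z ∈ dom e e' := ⟨hz, hx⟩
  have h1 : (fun w => f (e.symm w)) =ᶠ[𝓝 z] fun w => f (e'.symm (trans e e' w)) := by
    filter_upwards [(isOpen_dom e e').mem_nhds hzd] with w hw
    rw [symm_trans hw]
  have h2 : ContDiffAt ℝ k (trans e e') z :=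
    (((trans_contDiffOn he he').contDiffAt ((isOpen_dom e e').mem_nhds hzd)).restrict_scalars ℝ).of_le
      le_top
  have h3 : ContDiffAt ℝ k (fun w => f (e'.symm (trans e e' w))) z :=
    ContDiffAt.comp (g := fun w => f (e'.symm w)) z hd h2
  exact (h3.congr_of_eventuallyEq h1).contDiffWithinAt

theorem Ck.continuous [IsManifold 𝓘(ℂ) ω X] {k : ℕ∞ω} {f : X → V} (hf : Ck k f) :
    Continuous f := by
  rw [continuous_iff_continuousAt]
  intro x
  have h1 := hf.contDiffAt (chart_mem_atlas ℂ x) (mem_chart_target ℂ x)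
  have h2 : ContinuousAt (fun y => f ((chartAt ℂ x).symm ((chartAt ℂ x) y))) x :=
    ContinuousAt.comp (g := fun z => f ((chartAt ℂ x).symm z)) h1.continuousAt
      ((chartAt ℂ x).continuousAt (mem_chart_source ℂ x))
  refine h2.congr ?_
  filter_upwards [(chartAt ℂ x).open_source.mem_nhds (mem_chart_source ℂ x)] with y hy
  rw [(chartAt ℂ x).left_inv hy]

theorem Ck.comp_contDiff {k : ℕ∞ω} {f : X → V} (hf : Ck k f) {g : V → W} (hg : ContDiff ℝ k g) :
    Ck k (fun x => g (f x)) := fun e he => hg.comp_contDiffOn (hf e he)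

theorem Ck.add {k : ℕ∞ω} {f g : X → V} (hf : Ck k f) (hg : Ck k g) : Ck k (fun x => f x + g x) :=
  fun e he => (hf e he).add (hg e he)

theorem Ck.sub {k : ℕ∞ω} {f g : X → V} (hf : Ck k f) (hg : Ck k g) : Ck k (fun x => f x - g x) :=
  fun e he => (hf e he).sub (hg e he)

theorem Ck.neg {k : ℕ∞ω} {f : X → V} (hf : Ck k f) : Ck k (fun x => - f x) :=
  fun e he => (hf e he).neg

theorem Ck.const {k : ℕ∞ω} (c : V) : Ck (X := X) k (fun _ => c) :=
  fun _ _ => contDiffOn_const

theorem Ck.smul {k : ℕ∞ω} {f : X → ℝ} {g : X → V} (hf : Ck k f) (hg : Ck k g) :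
    Ck k (fun x => f x • g x) := fun e he => (hf e he).smul (hg e he)

theorem Ck.const_smul {k : ℕ∞ω} {g : X → V} (c : ℝ) (hg : Ck k g) :
    Ck k (fun x => c • g x) := fun e he => (hg e he).const_smul c

theorem Ck.mul {A : Type*} [NormedRing A] [NormedAlgebra ℝ A] {k : ℕ∞ω} {f g : X → A}
    (hf : Ck k f) (hg : Ck k g) : Ck k (fun x => f x * g x) :=
  fun e he => (hf e he).mul (hg e he)

theorem Ck.sum {ι : Type*} {s : Finset ι} {k : ℕ∞ω} {f : ι → X → V} (hf : ∀ i ∈ s, Ck k (f i)) :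
    Ck k (fun x => ∑ i ∈ s, f i x) := by
  intro e he
  exact ContDiffOn.sum fun i hi => hf i hi e he

/-- extension by zero of a compactly supported local function -/
def extZ (e : OpenPartialHomeomorph X ℂ) (F : ℂ → V) : X → V :=
  e.source.indicator (fun x => F (e x))

omit [ChartedSpace ℂ X] [NormedSpace ℝ V] in
theorem extZ_symm {e : OpenPartialHomeomorph X ℂ} {F : ℂ → V} {z : ℂ} (hz : z ∈ e.target) :
    extZ e F (e.symm z) = F z := by
  rw [extZ, indicator_of_mem (e.map_target hz), e.right_inv hz]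

omit [ChartedSpace ℂ X] [NormedSpace ℝ V] in
theorem extZ_apply {e : OpenPartialHomeomorph X ℂ} {F : ℂ → V} {x : X} (hx : x ∈ e.source) :
    extZ e F x = F (e x) := by
  rw [extZ, indicator_of_mem hx]

omit [ChartedSpace ℂ X] [NormedSpace ℝ V] in
theorem extZ_eq_zero {e : OpenPartialHomeomorph X ℂ} {F : ℂ → V} {K : Set ℂ}
    (hF : ∀ z ∈ e.target, z ∉ K → F z = 0) {x : X} (hx : x ∉ e.symm '' K) : extZ e F x = 0 := by
  by_cases hs : x ∈ e.source
  · rw [extZ_apply hs]
    apply hF _ (e.map_source hs)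
    intro h
    exact hx ⟨e x, h, e.left_inv hs⟩
  · rw [extZ, indicator_of_notMem hs]

omit [ChartedSpace ℂ X] in
theorem isCompact_symm_image {e : OpenPartialHomeomorph X ℂ} {K : Set ℂ} (hK : IsCompact K)
    (hKt : K ⊆ e.target) : IsCompact (e.symm '' K) :=
  hK.image_of_continuousOn (e.continuousOn_symm.mono hKt)

theorem Ck_extZ [IsManifold 𝓘(ℂ) ω X] [T2Space X] {e : OpenPartialHomeomorph X ℂ}
    (he : e ∈ atlas ℂ X) {k : ℕ∞ω} {F : ℂ → V} (hF : ContDiffOn ℝ k F e.target)
    {K : Set ℂ} (hK : IsCompact K) (hKt : K ⊆ e.target) (hF0 : ∀ z ∈ e.target, z ∉ K → F z = 0) :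
    Ck k (extZ e F) := by
  apply Ck.of_local
  intro x
  by_cases hx : x ∈ e.source
  · refine ⟨e, he, hx, ?_⟩
    have h1 : ContDiffAt ℝ k F (e x) := hF.contDiffAt (e.open_target.mem_nhds (e.map_source hx))
    refine h1.congr_of_eventuallyEq ?_
    filter_upwards [e.open_target.mem_nhds (e.map_source hx)] with z hz using extZ_symm hz
  · refine ⟨chartAt ℂ x, chart_mem_atlas ℂ x, mem_chart_source ℂ x, ?_⟩
    have hcl : IsClosed (e.symm '' K) := (isCompact_symm_image hK hKt).isClosed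
    have hxK : x ∉ e.symm '' K := by
      rintro ⟨z, hz, rfl⟩
      exact hx (e.map_target (hKt hz))
    have h1 : ∀ᶠ y in 𝓝 x, extZ e F y = 0 := by
      filter_upwards [hcl.isOpen_compl.mem_nhds hxK] with y hy using extZ_eq_zero hF0 hy
    have h2 : ∀ᶠ z in 𝓝 ((chartAt ℂ x) x), extZ e F ((chartAt ℂ x).symm z) = 0 := by
      have := (chartAt ℂ x).continuousAt_symm (mem_chart_target ℂ x)
      rw [ContinuousAt, (chartAt ℂ x).left_inv (mem_chart_source ℂ x)] at this
      exact this.eventually h1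
    exact contDiffAt_const.congr_of_eventuallyEq h2

omit [ChartedSpace ℂ X] [NormedSpace ℝ V] in
theorem continuous_extZ [T2Space X] {e : OpenPartialHomeomorph X ℂ}
    {F : ℂ → V} (hF : ContinuousOn F e.target)
    {K : Set ℂ} (hK : IsCompact K) (hKt : K ⊆ e.target) (hF0 : ∀ z ∈ e.target, z ∉ K → F z = 0) :
    Continuous (extZ e F) := by
  rw [continuous_iff_continuousAt]
  intro x
  by_cases hx : x ∈ e.source
  · have h1 : ContinuousAt F (e x) := hF.continuousAt (e.open_target.mem_nhds (e.map_source hx))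
    have h2 : ContinuousAt (fun y => F (e y)) x := ContinuousAt.comp h1 (e.continuousAt hx)
    refine h2.congr ?_
    filter_upwards [e.open_source.mem_nhds hx] with y hy using (extZ_apply hy).symm
  · have hcl : IsClosed (e.symm '' K) := (isCompact_symm_image hK hKt).isClosed
    have hxK : x ∉ e.symm '' K := by
      rintro ⟨z, hz, rfl⟩
      exact hx (e.map_target (hKt hz))
    have h1 : ∀ᶠ y in 𝓝 x, extZ e F y = 0 := by
      filter_upwards [hcl.isOpen_compl.mem_nhds hxK] with y hy using extZ_eq_zero hF0 hy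
    have h2 : extZ e F =ᶠ[𝓝 x] fun _ => 0 := h1
    exact continuousAt_const.congr h2.symm

end Ck

end Pool.Agent.Lib8bb
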