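import Pool.Agent.Lib_MP_8bb00a_gt.Surf1

/-!
A smooth measure and normalised local vector fields on a compact Riemann surface.
-/

open MeasureTheory Complex Set Metric Filter Topology
open scoped Real ContDiff ComplexConjugate Manifold

noncomputable section

namespace Pool.Agent.Lib8bb

/-- The auxiliary smooth structure used for the `L²` theory. -/
structure SurfData (X : Type*) [TopologicalSpace X] [ChartedSpace ℂ X] [MeasurableSpace X] where
  ν : Measure X
  fin : IsFiniteMeasure ν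
  n : OpenPartialHomeomorph X ℂ → ℂ → ℝ
  n_pos : ∀ e ∈ atlas ℂ X, ∀ z ∈ e.target, 0 < n e z
  n_smooth : ∀ e ∈ atlas ℂ X, ContDiffOn ℝ ∞ (n e) e.target
  n_trans : ∀ e ∈ atlas ℂ X, ∀ e' ∈ atlas ℂ X, ∀ z ∈ dom e e',
    n e z = n e' (trans e e' z) * ‖deriv (trans e e') z‖ ^ 2
  chart : ∀ e ∈ atlas ℂ X, ∀ f : X → ENNReal, Measurable f →
    ∫⁻ x in e.source, f x ∂ν = ∫⁻ z in e.target, f (e.symm z) * ENNReal.ofReal (n e z)
  A : Type
  fA : Fintype A
  c : A → OpenPartialHomeomorph X ℂ
  c_mem : ∀ a, c a ∈ atlas ℂ X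
  K : A → Set ℂ
  K_compact : ∀ a, IsCompact (K a)
  K_target : ∀ a, K a ⊆ (c a).target
  m : A → X → ℝ
  m_smooth : ∀ a, Ck ∞ (m a)
  m_supp : ∀ a, ∀ x, x ∉ (c a).symm '' K a → m a x = 0
  m_sum : ∀ x, ∑ a, (m a x) ^ 2 * n (c a) (c a x) = 1

attribute [instance] SurfData.fin SurfData.fA

variable {X : Type*} [TopologicalSpace X] [ChartedSpace ℂ X]

theorem cdet_mul (c : ℂ) :
    (ContinuousLinearMap.restrictScalars ℝ
      (ContinuousLinearMap.smulRight (1 : ℂ →L[ℂ] ℂ) c) : ℂ →L[ℝ] ℂ).det = ‖c‖ ^ 2 := by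
  rw [ContinuousLinearMap.det]
  have h1 : ((ContinuousLinearMap.restrictScalars ℝ
      (ContinuousLinearMap.smulRight (1 : ℂ →L[ℂ] ℂ) c) : ℂ →L[ℝ] ℂ) : ℂ →ₗ[ℝ] ℂ) =
      LinearMap.restrictScalars ℝ (c • (LinearMap.id : ℂ →ₗ[ℂ] ℂ)) := by
    ext
    · simp [mul_comm]
  rw [h1, LinearMap.det_restrictScalars]
  simp [Algebra.norm_complex_eq, Complex.normSq_eq_norm_sq]

/-- the local bump function attached to a point and a radius -/
def bumpZ (z0 : ℂ) (r : ℝ) (hr : 0 < r) (z : ℂ) : ℝ :=
  (⟨r, 2 * r, hr, by linarith⟩ : ContDiffBump z0) z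

theorem bumpZ_smooth (z0 : ℂ) (r : ℝ) (hr : 0 < r) : ContDiff ℝ ∞ (bumpZ z0 r hr) :=
  ContDiffBump.contDiff _

theorem bumpZ_one (z0 : ℂ) (r : ℝ) (hr : 0 < r) {z : ℂ} (hz : z ∈ closedBall z0 r) :
    bumpZ z0 r hr z = 1 :=
  (⟨r, 2 * r, hr, by linarith⟩ : ContDiffBump z0).one_of_mem_closedBall hz

theorem bumpZ_zero (z0 : ℂ) (r : ℝ) (hr : 0 < r) {z : ℂ} (hz : z ∉ closedBall z0 (2 * r)) :
    bumpZ z0 r hr z = 0 := by
  apply (⟨r, 2 * r, hr, by linarith⟩ : ContDiffBump z0).zero_of_le_dist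
  rw [mem_closedBall] at hz
  push Not at hz
  exact hz.le

theorem bumpZ_nonneg (z0 : ℂ) (r : ℝ) (hr : 0 < r) (z : ℂ) : 0 ≤ bumpZ z0 r hr z :=
  ContDiffBump.nonneg _

theorem bumpZ_le_one (z0 : ℂ) (r : ℝ) (hr : 0 < r) (z : ℂ) : bumpZ z0 r hr z ≤ 1 :=
  ContDiffBump.le_one _

theorem exists_radius (x : X) : ∃ r : ℝ, 0 < r ∧
    closedBall ((chartAt ℂ x) x) (2 * r) ⊆ (chartAt ℂ x).target := by
  obtain ⟨ε, hε, hb⟩ := Metric.isOpen_iff.mp (chartAt ℂ x).open_target _ (mem_chart_target ℂ x)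
  refine ⟨ε / 3, by positivity, (closedBall_subset_ball ?_).trans hb⟩
  linarith

/-- finite family of bump functions -/
theorem exists_bumps [CompactSpace X] [T2Space X] [IsManifold 𝓘(ℂ) ω X] :
    ∃ (N : ℕ) (c : Fin N → OpenPartialHomeomorph X ℂ) (K : Fin N → Set ℂ) (f : Fin N → X → ℝ),
      (∀ a, c a ∈ atlas ℂ X) ∧ (∀ a, IsCompact (K a)) ∧ (∀ a, K a ⊆ (c a).target) ∧
      (∀ a, Ck ∞ (f a)) ∧ (∀ a x, x ∉ (c a).symm '' K a → f a x = 0) ∧
      (∀ a x, 0 ≤ f a x) ∧ (∀ a x, f a x ≤ 1) ∧ (∀ x, ∃ a, f a x = 1) := by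
  choose r hr hball using fun x : X => exists_radius x
  let F : X → X → ℝ := fun x => extZ (chartAt ℂ x) (bumpZ ((chartAt ℂ x) x) (r x) (hr x))
  let O : X → Set X := fun x => (chartAt ℂ x).source ∩
    (chartAt ℂ x) ⁻¹' (ball ((chartAt ℂ x) x) (r x))
  have hO : ∀ x, IsOpen (O x) := fun x =>
    (chartAt ℂ x).isOpen_inter_preimage isOpen_ball
  have hxO : ∀ x, x ∈ O x := fun x => ⟨mem_chart_source ℂ x, mem_ball_self (hr x)⟩
  obtain ⟨t, ht⟩ := isCompact_univ.elim_finite_subcover O hO
    (fun x _ => mem_iUnion.mpr ⟨x, hxO x⟩)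
  let eq := t.equivFin
  let g : Fin t.card → X := fun i => (eq.symm i : X)
  refine ⟨t.card, fun i => chartAt ℂ (g i), fun i => closedBall ((chartAt ℂ (g i)) (g i)) (2 * r (g i)),
    fun i => F (g i), fun i => chart_mem_atlas ℂ _, fun i => isCompact_closedBall _ _,
    fun i => hball _, ?_, ?_, ?_, ?_, ?_⟩
  · intro i
    exact Ck_extZ (chart_mem_atlas ℂ _) (bumpZ_smooth _ _ _).contDiffOn
      (isCompact_closedBall _ _) (hball (g i)) (fun z _ hz => bumpZ_zero _ _ _ hz)
  · intro i x hx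
    exact extZ_eq_zero (fun z _ hz => bumpZ_zero _ _ _ hz) hx
  · intro i x
    by_cases hx : x ∈ (chartAt ℂ (g i)).source
    · simp only [F]; rw [extZ_apply hx]; exact bumpZ_nonneg _ _ _ _
    · simp only [F, extZ]; rw [indicator_of_notMem hx]
  · intro i x
    by_cases hx : x ∈ (chartAt ℂ (g i)).source
    · simp only [F]; rw [extZ_apply hx]; exact bumpZ_le_one _ _ _ _
    · simp only [F, extZ]; rw [indicator_of_notMem hx]; exact zero_le_one
  · intro x
    have := ht (mem_univ x)
    rw [mem_iUnion₂] at this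
    obtain ⟨y, hy, hxy⟩ := this
    refine ⟨eq ⟨y, hy⟩, ?_⟩
    have hgy : g (eq ⟨y, hy⟩) = y := by simp [g]
    simp only [F]
    rw [hgy, extZ_apply hxy.1]
    exact bumpZ_one _ _ _ (ball_subset_closedBall hxy.2)

omit [ChartedSpace ℂ X] in
/-- near a point outside the image of the compact set everything vanishes -/
theorem eventually_zero_of_notMem [T2Space X] {e e' : OpenPartialHomeomorph X ℂ} {K : Set ℂ}
    (hK : IsCompact K) (hKt : K ⊆ e'.target) {f : X → ℝ} (hf : ∀ x, x ∉ e'.symm '' K → f x = 0)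
    {z : ℂ} (hz : z ∈ e.target) (hz' : e.symm z ∉ e'.source) :
    ∀ᶠ w in 𝓝 z, f (e.symm w) = 0 := by
  have hcl : IsClosed (e'.symm '' K) := (isCompact_symm_image hK hKt).isClosed
  have hxK : e.symm z ∉ e'.symm '' K := by
    rintro ⟨w, hw, h⟩
    exact hz' (h ▸ e'.map_target (hKt hw))
  have h1 : ∀ᶠ y in 𝓝 (e.symm z), f y = 0 := by
    filter_upwards [hcl.isOpen_compl.mem_nhds hxK] with y hy using hf y hy
  exact (e.continuousAt_symm hz).eventually h1

variable [IsManifold 𝓘(ℂ) ω X]

/-- one summand of the measure density is smooth -/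
theorem dens_smooth [T2Space X] {e e' : OpenPartialHomeomorph X ℂ} (he : e ∈ atlas ℂ X)
    (he' : e' ∈ atlas ℂ X) {K : Set ℂ} (hK : IsCompact K) (hKt : K ⊆ e'.target) {f : X → ℝ}
    (hfs : Ck ∞ f) (hf : ∀ x, x ∉ e'.symm '' K → f x = 0) :
    ContDiffOn ℝ ∞ (fun z => (f (e.symm z)) ^ 2 * ‖deriv (trans e e') z‖ ^ 2) e.target := by
  intro z hz
  apply ContDiffAt.contDiffWithinAt
  by_cases hz' : e.symm z ∈ e'.source
  · have hzd : z ∈ dom e e' := ⟨hz, hz'⟩
    have h1 : ContDiffOn ℂ ∞ (deriv (trans e e')) (dom e e') := by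
      have := (trans_holo he he').deriv (isOpen_dom e e')
      exact this.contDiffOn (isOpen_dom e e')
    have h2 : ContDiffAt ℝ ∞ (deriv (trans e e')) z :=
      (h1.contDiffAt ((isOpen_dom e e').mem_nhds hzd)).restrict_scalars ℝ
    exact ((hfs.contDiffAt he hz).pow 2).mul (h2.norm_sq ℝ)
  · have h1 := eventually_zero_of_notMem (e := e) hK hKt hf hz hz'
    have h2 : (fun z => (f (e.symm z)) ^ 2 * ‖deriv (trans e e') z‖ ^ 2) =ᶠ[𝓝 z] fun _ => 0 := by
      filter_upwards [h1] with w hw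
      rw [hw]; simp
    exact contDiffAt_const.congr_of_eventuallyEq h2

/-- the elementary measure -/
def nuPart [MeasurableSpace X] (e : OpenPartialHomeomorph X ℂ) (f : X → ℝ) : Measure X :=
  ((volume.restrict e.target).withDensity
    (fun z => ENNReal.ofReal ((f (e.symm z)) ^ 2))).map e.symm

omit [ChartedSpace ℂ X] [IsManifold 𝓘(ℂ) ω X] in
theorem aemeasurable_symm [MeasurableSpace X] [BorelSpace X] (e : OpenPartialHomeomorph X ℂ)
    {g : ℂ → ENNReal} : AEMeasurable e.symm ((volume.restrict e.target).withDensity g) := by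
  have h1 : AEMeasurable e.symm (volume.restrict e.target) :=
    e.continuousOn_symm.aemeasurable e.open_target.measurableSet
  exact h1.mono_ac (withDensity_absolutelyContinuous _ _)

omit [IsManifold 𝓘(ℂ) ω X] in
theorem lintegral_nuPart [MeasurableSpace X] [BorelSpace X] {e : OpenPartialHomeomorph X ℂ}
    (he : e ∈ atlas ℂ X) {f : X → ℝ} (hf : Ck ∞ f) {g : X → ENNReal} (hg : Measurable g) :
    ∫⁻ x, g x ∂(nuPart e f) =
      ∫⁻ z in e.target, ENNReal.ofReal ((f (e.symm z)) ^ 2) * g (e.symm z) := by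
  rw [nuPart, lintegral_map' hg.aemeasurable (aemeasurable_symm e)]
  have hm : AEMeasurable (fun z => ENNReal.ofReal ((f (e.symm z)) ^ 2))
      (volume.restrict e.target) := by
    have : ContinuousOn (fun z => (f (e.symm z)) ^ 2) e.target :=
      ((hf e he).continuousOn).pow 2
    exact (this.aemeasurable e.open_target.measurableSet).ennreal_ofReal
  have h1 : AEMeasurable e.symm (volume.restrict e.target) :=
    e.continuousOn_symm.aemeasurable e.open_target.measurableSet
  exact lintegral_withDensity_eq_lintegral_mul₀ hm (hg.comp_aemeasurable h1)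

theorem chart_nuPart [T2Space X] [MeasurableSpace X] [BorelSpace X]
    {e e' : OpenPartialHomeomorph X ℂ}
    (he : e ∈ atlas ℂ X) (he' : e' ∈ atlas ℂ X) {K : Set ℂ}
    {f : X → ℝ} (hfs : Ck ∞ f) (hKt : K ⊆ e'.target) (hf : ∀ x, x ∉ e'.symm '' K → f x = 0)
    {g : X → ENNReal} (hg : Measurable g) :
    ∫⁻ x in e.source, g x ∂(nuPart e' f) = ∫⁻ z in e.target, g (e.symm z) *
      ENNReal.ofReal ((f (e.symm z)) ^ 2 * ‖deriv (trans e e') z‖ ^ 2) := by
  have hsrc : MeasurableSet e.source := e.open_source.measurableSet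
  rw [← lintegral_indicator hsrc, lintegral_nuPart he' hfs (hg.indicator hsrc)]
  -- restrict to dom e' e
  have hdm : MeasurableSet (dom e' e) := (isOpen_dom e' e).measurableSet
  have hdm' : MeasurableSet (dom e e') := (isOpen_dom e e').measurableSet
  have h1 : ∫⁻ z in e'.target, ENNReal.ofReal ((f (e'.symm z)) ^ 2) *
      e.source.indicator g (e'.symm z) =
      ∫⁻ z in dom e' e, ENNReal.ofReal ((f (e'.symm z)) ^ 2) * g (e'.symm z) := by
    rw [← lintegral_indicator e'.open_target.measurableSet, ← lintegral_indicator hdm]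
    congr 1; ext z
    by_cases hz : z ∈ e'.target
    · by_cases hz' : e'.symm z ∈ e.source
      · rw [indicator_of_mem hz, indicator_of_mem (show z ∈ dom e' e from ⟨hz, hz'⟩),
          indicator_of_mem hz']
      · rw [indicator_of_mem hz, indicator_of_notMem (fun h : z ∈ dom e' e => hz' h.2),
          indicator_of_notMem hz', mul_zero]
    · rw [indicator_of_notMem hz, indicator_of_notMem (fun h : z ∈ dom e' e => hz h.1)]
  rw [h1]
  -- change of variables
  have himg : dom e' e = trans e e' '' dom e e' := by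
    ext z
    constructor
    · intro hz
      exact ⟨trans e' e z, trans_mem_dom hz, trans_trans hz⟩
    · rintro ⟨w, hw, rfl⟩
      exact trans_mem_dom hw
  have hinj : InjOn (trans e e') (dom e e') := by
    intro z hz w hw h
    rw [← trans_trans hz, h, trans_trans hw]
  have hder : ∀ z ∈ dom e e', HasFDerivWithinAt (trans e e')
      (ContinuousLinearMap.restrictScalars ℝ
      (ContinuousLinearMap.smulRight (1 : ℂ →L[ℂ] ℂ) (deriv (trans e e') z)) : ℂ →L[ℝ] ℂ)
      (dom e e') z := by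
    intro z hz
    have := (trans_diffAt he he' hz).hasDerivAt.hasFDerivAt.restrictScalars ℝ
    exact this.hasFDerivWithinAt
  rw [himg, lintegral_image_eq_lintegral_abs_det_fderiv_mul volume hdm' hder hinj]
  simp_rw [cdet_mul]
  rw [← lintegral_indicator hdm', ← lintegral_indicator e.open_target.measurableSet]
  congr 1; ext z
  by_cases hz : z ∈ e.target
  · rw [indicator_of_mem hz]
    by_cases hz' : e.symm z ∈ e'.source
    · have hzd : z ∈ dom e e' := ⟨hz, hz'⟩
      rw [indicator_of_mem hzd, symm_trans hzd, abs_of_nonneg (by positivity),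
        ENNReal.ofReal_mul (by positivity)]
      ring
    · rw [indicator_of_notMem (fun h : z ∈ dom e e' => hz' h.2)]
      have : f (e.symm z) = 0 := by
        apply hf
        rintro ⟨w, hw, h⟩
        exact hz' (h ▸ e'.map_target (hKt hw))
      rw [this]; simp
  · rw [indicator_of_notMem hz, indicator_of_notMem (fun h : z ∈ dom e e' => hz h.1)]

omit [IsManifold 𝓘(ℂ) ω X] in
theorem nuPart_finite [T2Space X] [MeasurableSpace X] [BorelSpace X]
    {e' : OpenPartialHomeomorph X ℂ} (he' : e' ∈ atlas ℂ X) {K : Set ℂ}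
    {f : X → ℝ} (hfs : Ck ∞ f) (hK : IsCompact K) (hKt : K ⊆ e'.target)
    (hf : ∀ x, x ∉ e'.symm '' K → f x = 0) (hf0 : ∀ x, 0 ≤ f x) (hf1 : ∀ x, f x ≤ 1) :
    IsFiniteMeasure (nuPart e' f) := by
  constructor
  have h0 : nuPart e' f univ = ∫⁻ x, 1 ∂(nuPart e' f) := by simp
  rw [h0, lintegral_nuPart he' hfs measurable_const]
  have h1 : ∫⁻ z in e'.target, ENNReal.ofReal ((f (e'.symm z)) ^ 2) * 1 ≤
      ∫⁻ z, K.indicator (fun _ => (1:ENNReal)) z := by
    refine (setLIntegral_mono' e'.open_target.measurableSet fun z hz => ?_).trans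
      (setLIntegral_le_lintegral _ _)
    by_cases hzK : z ∈ K
    · rw [indicator_of_mem hzK, mul_one]
      refine ENNReal.ofReal_le_one.mpr ?_
      have := hf0 (e'.symm z); have := hf1 (e'.symm z)
      nlinarith
    · have : f (e'.symm z) = 0 := by
        apply hf
        rintro ⟨w, hw, h⟩
        have : w = z := by
          rw [← e'.right_inv (hKt hw), h, e'.right_inv hz]
        exact hzK (this ▸ hw)
      rw [this]; simp
  refine lt_of_le_of_lt h1 ?_
  rw [lintegral_indicator hK.measurableSet]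
  simp only [lintegral_const, MeasurableSet.univ, Measure.restrict_apply, univ_inter, one_mul]
  exact hK.measure_lt_top

/-- Existence of surface data. -/
theorem exists_surfData [CompactSpace X] [T2Space X] [MeasurableSpace X] [BorelSpace X] :
    Nonempty (SurfData X) := by
  obtain ⟨N, c, K, f, hc, hK, hKt, hfs, hf, hf0, hf1, hfcov⟩ := exists_bumps (X := X)
  set n : OpenPartialHomeomorph X ℂ → ℂ → ℝ := fun e z =>
    ∑ a, (f a (e.symm z)) ^ 2 * ‖deriv (trans e (c a)) z‖ ^ 2 with hn
  have hmemsrc : ∀ a x, f a x ≠ 0 → x ∈ (c a).source := by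
    intro a x hx
    by_contra h
    apply hx
    apply hf
    rintro ⟨w, hw, rfl⟩
    exact h ((c a).map_target (hKt a hw))
  have hnpos : ∀ e ∈ atlas ℂ X, ∀ z ∈ e.target, 0 < n e z := by
    intro e he z hz
    obtain ⟨a, ha⟩ := hfcov (e.symm z)
    refine Finset.sum_pos' (fun b _ => by positivity) ⟨a, Finset.mem_univ a, ?_⟩
    have hzd : z ∈ dom e (c a) := ⟨hz, hmemsrc a _ (by rw [ha]; exact one_ne_zero)⟩
    have hne := trans_deriv_ne he (hc a) hzd
    rw [ha]
    positivity
  have hnsm : ∀ e ∈ atlas ℂ X, ContDiffOn ℝ ∞ (n e) e.target := fun e he =>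
    ContDiffOn.sum fun a _ => dens_smooth he (hc a) (hK a) (hKt a) (hfs a) (hf a)
  have hntr : ∀ e ∈ atlas ℂ X, ∀ e' ∈ atlas ℂ X, ∀ z ∈ dom e e',
      n e z = n e' (trans e e' z) * ‖deriv (trans e e') z‖ ^ 2 := by
    intro e he e' he' z hz
    simp only [hn]
    rw [Finset.sum_mul]
    refine Finset.sum_congr rfl fun a _ => ?_
    rw [symm_trans hz]
    by_cases h0 : f a (e.symm z) = 0
    · rw [h0]; simp
    · have hz' : z ∈ dom e (c a) := ⟨hz.1, hmemsrc a _ h0⟩
      rw [trans_deriv_chain he he' (hc a) hz hz', norm_mul]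
      ring
  -- the vector fields
  set m : Fin N → X → ℝ := fun a => extZ (c a) (fun z =>
    f a ((c a).symm z) / (Real.sqrt (∑ b, (f b ((c a).symm z)) ^ 2) * Real.sqrt (n (c a) z)))
    with hm
  have hsumpos : ∀ x, 0 < ∑ b, (f b x) ^ 2 := by
    intro x
    obtain ⟨a, ha⟩ := hfcov x
    refine Finset.sum_pos' (fun b _ => by positivity) ⟨a, Finset.mem_univ a, ?_⟩
    rw [ha]; norm_num
  have hmval : ∀ a x, x ∈ (c a).source → m a x =
      f a x / (Real.sqrt (∑ b, (f b x) ^ 2) * Real.sqrt (n (c a) (c a x))) := by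
    intro a x hx
    simp only [hm]
    rw [extZ_apply hx, (c a).left_inv hx]
  have hmzero : ∀ a x, x ∉ (c a).symm '' K a → m a x = 0 := by
    intro a x hx
    by_cases hs : x ∈ (c a).source
    · rw [hmval a x hs, hf a x hx, zero_div]
    · simp only [hm, extZ]; rw [indicator_of_notMem hs]
  refine ⟨{
    ν := Measure.sum fun a => nuPart (c a) (f a)
    fin := ?_
    n := n
    n_pos := hnpos
    n_smooth := hnsm
    n_trans := hntr
    chart := ?_
    A := Fin N
    fA := inferInstance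
    c := c
    c_mem := hc
    K := K
    K_compact := hK
    K_target := hKt
    m := m
    m_smooth := ?_
    m_supp := hmzero
    m_sum := ?_ }⟩
  · constructor
    rw [Measure.sum_fintype, Measure.finsetSum_apply]
    refine ENNReal.sum_lt_top.mpr fun a _ => ?_
    have := nuPart_finite (hc a) (hfs a) (hK a) (hKt a) (hf a) (hf0 a) (hf1 a)
    exact measure_lt_top _ _
  · intro e he g hg
    rw [Measure.restrict_sum _ e.open_source.measurableSet, lintegral_sum_measure, tsum_fintype]
    have h1 : ∀ a, ∫⁻ x in e.source, g x ∂(nuPart (c a) (f a)) = ∫⁻ z in e.target, g (e.symm z) *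
        ENNReal.ofReal ((f a (e.symm z)) ^ 2 * ‖deriv (trans e (c a)) z‖ ^ 2) := fun a =>
      chart_nuPart he (hc a) (hfs a) (hKt a) (hf a) hg
    simp_rw [h1]
    rw [← lintegral_finsetSum']
    · refine setLIntegral_congr_fun e.open_target.measurableSet fun z hz => ?_
      simp only [hn]
      rw [ENNReal.ofReal_sum_of_nonneg (fun a _ => by positivity), Finset.mul_sum]
    · intro a _
      have h2 : AEMeasurable e.symm (volume.restrict e.target) :=
        e.continuousOn_symm.aemeasurable e.open_target.measurableSet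
      refine (hg.comp_aemeasurable h2).mul ?_
      exact ((dens_smooth he (hc a) (hK a) (hKt a) (hfs a) (hf a)).continuousOn.aemeasurable
        e.open_target.measurableSet).ennreal_ofReal
  · intro a
    refine Ck_extZ (K := K a) (hc a) ?_ (hK a) (hKt a) ?_
    · refine ContDiffOn.div (hfs a _ (hc a)) (ContDiffOn.mul ?_ ?_) ?_
      · refine ContDiffOn.sqrt ?_ (fun z _ => (hsumpos _).ne')
        exact ContDiffOn.sum fun b _ => (hfs b _ (hc a)).pow 2
      · exact ContDiffOn.sqrt (hnsm _ (hc a)) (fun z hz => (hnpos _ (hc a) z hz).ne')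
      · intro z hz
        have h1 := hsumpos ((c a).symm z)
        have h2 := hnpos _ (hc a) z hz
        positivity
    · intro z hzt hz
      have : f a ((c a).symm z) = 0 := by
        apply hf
        rintro ⟨w, hw, h⟩
        have : w = z := by
          rw [← (c a).right_inv (hKt a hw), h, (c a).right_inv hzt]
        exact hz (this ▸ hw)
      rw [this, zero_div]
  · intro x
    have h1 : ∀ a, (m a x) ^ 2 * n (c a) (c a x) = (f a x) ^ 2 / ∑ b, (f b x) ^ 2 := by
      intro a
      by_cases hs : x ∈ (c a).source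
      · rw [hmval a x hs]
        have h1 := hsumpos x
        have h2 := hnpos _ (hc a) (c a x) ((c a).map_source hs)
        rw [div_pow, mul_pow, Real.sq_sqrt h1.le, Real.sq_sqrt h2.le]
        field_simp
      · have h0 : f a x = 0 := by
          by_contra h; exact hs (hmemsrc a x h)
        have h3 : m a x = 0 := by
          simp only [hm, extZ]; rw [indicator_of_notMem hs]
        rw [h0, h3]; simp
    simp_rw [h1]
    rw [← Finset.sum_div, div_self (hsumpos x).ne']

end Pool.Agent.Lib8bb
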