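import Mathlib

/-!
Wirtinger derivatives for functions on the complex plane with values in a complex normed space.
-/

open MeasureTheory Complex Set Metric Filter Topology
open scoped Real ENNReal ContDiff ComplexConjugate

noncomputable section

namespace Pool.Agent.Lib8bb

variable {V W : Type*} [NormedAddCommGroup V] [NormedSpace ℂ V]
  [NormedAddCommGroup W] [NormedSpace ℂ W]

/-- The Wirtinger derivative with respect to `z`. -/
def dz (f : ℂ → V) (z : ℂ) : V :=
  (1 / 2 : ℂ) • (fderiv ℝ f z 1 - I • fderiv ℝ f z I)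

/-- The Wirtinger derivative with respect to the conjugate of `z`. -/
def dzb (f : ℂ → V) (z : ℂ) : V :=
  (1 / 2 : ℂ) • (fderiv ℝ f z 1 + I • fderiv ℝ f z I)

theorem aux_clm (a b : ℂ) (x y : V) :
    a • x + b • y = (a + b * I) • ((1 / 2 : ℂ) • (x - I • y)) +
      (a - b * I) • ((1 / 2 : ℂ) • (x + I • y)) := by
  match_scalars
  · ring
  · linear_combination b * I_mul_I

theorem clm_apply_eq (L : ℂ →L[ℝ] V) (v : ℂ) :
    L v = v • ((1 / 2 : ℂ) • (L 1 - I • L I)) + conj v • ((1 / 2 : ℂ) • (L 1 + I • L I)) := by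
  have hv : v = v.re • (1 : ℂ) + v.im • I := by
    apply Complex.ext <;> simp
  have h1 : L v = (v.re : ℂ) • L 1 + (v.im : ℂ) • L I := by
    conv_lhs => rw [hv]
    rw [map_add, map_smul, map_smul]
    simp only [Complex.coe_smul]
  have h3 : conj v = (v.re : ℂ) - (v.im : ℂ) * I := by
    apply Complex.ext <;> simp
  rw [h1, aux_clm, ← h3, re_add_im]

theorem fderiv_apply_eq (f : ℂ → V) (z v : ℂ) :
    fderiv ℝ f z v = v • dz f z + conj v • dzb f z := clm_apply_eq _ _

theorem HasFDerivAt.dz_eq {f : ℂ → V} {L : ℂ →L[ℝ] V} {z : ℂ} (h : HasFDerivAt f L z) :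
    dz f z = (1 / 2 : ℂ) • (L 1 - I • L I) := by
  rw [dz, h.fderiv]

theorem HasFDerivAt.dzb_eq {f : ℂ → V} {L : ℂ →L[ℝ] V} {z : ℂ} (h : HasFDerivAt f L z) :
    dzb f z = (1 / 2 : ℂ) • (L 1 + I • L I) := by
  rw [dzb, h.fderiv]

/-- Build a real-linear map from its Wirtinger components. -/
theorem dz_congr {f g : ℂ → V} {z : ℂ} (h : f =ᶠ[𝓝 z] g) : dz f z = dz g z := by
  rw [dz, dz, h.fderiv_eq]

theorem dzb_congr {f g : ℂ → V} {z : ℂ} (h : f =ᶠ[𝓝 z] g) : dzb f z = dzb g z := by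
  rw [dzb, dzb, h.fderiv_eq]

@[simp] theorem dz_const (c : V) (z : ℂ) : dz (fun _ => c) z = 0 := by
  simp [dz]

@[simp] theorem dzb_const (c : V) (z : ℂ) : dzb (fun _ => c) z = 0 := by
  simp [dzb]

theorem dz_add {f g : ℂ → V} {z : ℂ} (hf : DifferentiableAt ℝ f z) (hg : DifferentiableAt ℝ g z) :
    dz (fun w => f w + g w) z = dz f z + dz g z := by
  simp only [dz]
  rw [fderiv_fun_add hf hg]
  simp only [add_apply]
  module

theorem dzb_add {f g : ℂ → V} {z : ℂ} (hf : DifferentiableAt ℝ f z)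
    (hg : DifferentiableAt ℝ g z) :
    dzb (fun w => f w + g w) z = dzb f z + dzb g z := by
  simp only [dzb]
  rw [fderiv_fun_add hf hg]
  simp only [add_apply]
  module

theorem dz_sub {f g : ℂ → V} {z : ℂ} (hf : DifferentiableAt ℝ f z) (hg : DifferentiableAt ℝ g z) :
    dz (fun w => f w - g w) z = dz f z - dz g z := by
  simp only [dz]
  rw [fderiv_fun_sub hf hg]
  simp only [sub_apply]
  module

theorem dzb_sub {f g : ℂ → V} {z : ℂ} (hf : DifferentiableAt ℝ f z)
    (hg : DifferentiableAt ℝ g z) :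
    dzb (fun w => f w - g w) z = dzb f z - dzb g z := by
  simp only [dzb]
  rw [fderiv_fun_sub hf hg]
  simp only [sub_apply]
  module

theorem dz_neg {f : ℂ → V} {z : ℂ} : dz (fun w => - f w) z = - dz f z := by
  simp only [dz]
  rw [fderiv_fun_neg]
  simp only [neg_apply]
  module

theorem dzb_neg {f : ℂ → V} {z : ℂ} : dzb (fun w => - f w) z = - dzb f z := by
  simp only [dzb]
  rw [fderiv_fun_neg]
  simp only [neg_apply]
  module

/-- post-composition with a complex linear continuous map -/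
theorem dz_clm_comp (L : V →L[ℂ] W) {f : ℂ → V} {z : ℂ} (hf : DifferentiableAt ℝ f z) :
    dz (fun w => L (f w)) z = L (dz f z) := by
  have h : HasFDerivAt (fun w => L (f w)) ((L.restrictScalars ℝ).comp (fderiv ℝ f z)) z :=
    (L.restrictScalars ℝ).hasFDerivAt.comp z hf.hasFDerivAt
  rw [HasFDerivAt.dz_eq h, dz]
  simp

theorem dzb_clm_comp (L : V →L[ℂ] W) {f : ℂ → V} {z : ℂ} (hf : DifferentiableAt ℝ f z) :
    dzb (fun w => L (f w)) z = L (dzb f z) := by
  have h : HasFDerivAt (fun w => L (f w)) ((L.restrictScalars ℝ).comp (fderiv ℝ f z)) z :=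
    (L.restrictScalars ℝ).hasFDerivAt.comp z hf.hasFDerivAt
  rw [HasFDerivAt.dzb_eq h, dzb]
  simp

theorem dz_smul {g : ℂ → ℂ} {f : ℂ → V} {z : ℂ} (hg : DifferentiableAt ℝ g z)
    (hf : DifferentiableAt ℝ f z) :
    dz (fun w => g w • f w) z = dz g z • f z + g z • dz f z := by
  simp only [dz]
  rw [fderiv_fun_smul hg hf]
  simp only [add_apply, smul_apply, ContinuousLinearMap.smulRight_apply]
  module

theorem dzb_smul {g : ℂ → ℂ} {f : ℂ → V} {z : ℂ} (hg : DifferentiableAt ℝ g z)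
    (hf : DifferentiableAt ℝ f z) :
    dzb (fun w => g w • f w) z = dzb g z • f z + g z • dzb f z := by
  simp only [dzb]
  rw [fderiv_fun_smul hg hf]
  simp only [add_apply, smul_apply, ContinuousLinearMap.smulRight_apply]
  module

theorem dz_mul {A : Type*} [NormedRing A] [NormedAlgebra ℂ A] {f g : ℂ → A} {z : ℂ}
    (hf : DifferentiableAt ℝ f z) (hg : DifferentiableAt ℝ g z) :
    dz (fun w => f w * g w) z = dz f z * g z + f z * dz g z := by
  simp only [dz]
  rw [fderiv_fun_mul' hf hg]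
  simp only [add_apply, smul_apply, smul_eq_mul, MulOpposite.smul_eq_mul_unop,
    MulOpposite.unop_op, smul_add, smul_sub, mul_sub, sub_mul, smul_mul_assoc, mul_smul_comm]
  abel

theorem dzb_mul {A : Type*} [NormedRing A] [NormedAlgebra ℂ A] {f g : ℂ → A} {z : ℂ}
    (hf : DifferentiableAt ℝ f z) (hg : DifferentiableAt ℝ g z) :
    dzb (fun w => f w * g w) z = dzb f z * g z + f z * dzb g z := by
  simp only [dzb]
  rw [fderiv_fun_mul' hf hg]
  simp only [add_apply, smul_apply, smul_eq_mul, MulOpposite.smul_eq_mul_unop,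
    MulOpposite.unop_op, smul_add, mul_add, add_mul, smul_mul_assoc, mul_smul_comm]
  abel

/-- Holomorphic functions: `dzb = 0`, `dz = deriv`. -/
theorem dzb_of_holo {f : ℂ → V} {z : ℂ} (hf : DifferentiableAt ℂ f z) : dzb f z = 0 := by
  have h := hf.hasFDerivAt.restrictScalars ℝ
  rw [HasFDerivAt.dzb_eq h]
  have : (ContinuousLinearMap.restrictScalars ℝ (fderiv ℂ f z)) I = I • fderiv ℂ f z 1 := by
    rw [ContinuousLinearMap.coe_restrictScalars']
    conv_lhs => rw [show (I : ℂ) = I • (1:ℂ) by simp, map_smul]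
  rw [this, ContinuousLinearMap.coe_restrictScalars']
  rw [smul_smul, I_mul_I]; simp

theorem dz_of_holo {f : ℂ → V} {z : ℂ} (hf : DifferentiableAt ℂ f z) : dz f z = deriv f z := by
  have h := hf.hasFDerivAt.restrictScalars ℝ
  rw [HasFDerivAt.dz_eq h]
  have : (ContinuousLinearMap.restrictScalars ℝ (fderiv ℂ f z)) I = I • fderiv ℂ f z 1 := by
    rw [ContinuousLinearMap.coe_restrictScalars']
    conv_lhs => rw [show (I : ℂ) = I • (1:ℂ) by simp, map_smul]
  rw [this, ContinuousLinearMap.coe_restrictScalars', fderiv_apply_one_eq_deriv]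
  match_scalars
  linear_combination (-1/2) * I_mul_I

/-- a real differentiable function with vanishing `dzb` is holomorphic -/
theorem holo_of_dzb_eq_zero {f : ℂ → V} {z : ℂ} (hf : DifferentiableAt ℝ f z)
    (h : dzb f z = 0) : DifferentiableAt ℂ f z := by
  have h1 : HasFDerivAt f (fderiv ℝ f z) z := hf.hasFDerivAt
  have h2 : fderiv ℝ f z = (ContinuousLinearMap.restrictScalars ℝ
      (ContinuousLinearMap.smulRight (1 : ℂ →L[ℂ] ℂ) (dz f z))) := by
    ext
    · rw [fderiv_apply_eq, h]; simp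
  have h3 : HasFDerivAt f (ContinuousLinearMap.smulRight (1 : ℂ →L[ℂ] ℂ) (dz f z)) z :=
    hasFDerivAt_of_restrictScalars ℝ h1 h2.symm
  exact h3.differentiableAt

/-- chain rule with a holomorphic inner function -/
theorem dz_comp_holo {f : ℂ → V} {τ : ℂ → ℂ} {z : ℂ} (hf : DifferentiableAt ℝ f (τ z))
    (hτ : DifferentiableAt ℂ τ z) :
    dz (fun w => f (τ w)) z = deriv τ z • dz f (τ z) := by
  have h : HasFDerivAt (fun w => f (τ w)) ((fderiv ℝ f (τ z)).comp (fderiv ℝ τ z)) z :=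
    hf.hasFDerivAt.comp z (hτ.restrictScalars ℝ).hasFDerivAt
  rw [HasFDerivAt.dz_eq h]
  simp only [ContinuousLinearMap.comp_apply]
  rw [fderiv_apply_eq τ, fderiv_apply_eq τ, dzb_of_holo hτ, dz_of_holo hτ]
  rw [fderiv_apply_eq f, fderiv_apply_eq f]
  simp only [smul_eq_mul, mul_zero, add_zero, one_mul, map_mul, conj_I]
  match_scalars
  · linear_combination (-1/2) * deriv τ z * I_mul_I
  · linear_combination (1/2) * conj (deriv τ z) * I_mul_I

theorem dzb_comp_holo {f : ℂ → V} {τ : ℂ → ℂ} {z : ℂ} (hf : DifferentiableAt ℝ f (τ z))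
    (hτ : DifferentiableAt ℂ τ z) :
    dzb (fun w => f (τ w)) z = conj (deriv τ z) • dzb f (τ z) := by
  have h : HasFDerivAt (fun w => f (τ w)) ((fderiv ℝ f (τ z)).comp (fderiv ℝ τ z)) z :=
    hf.hasFDerivAt.comp z (hτ.restrictScalars ℝ).hasFDerivAt
  rw [HasFDerivAt.dzb_eq h]
  simp only [ContinuousLinearMap.comp_apply]
  rw [fderiv_apply_eq τ, fderiv_apply_eq τ, dzb_of_holo hτ, dz_of_holo hτ]
  rw [fderiv_apply_eq f, fderiv_apply_eq f]
  simp only [smul_eq_mul, mul_zero, add_zero, one_mul, map_mul, conj_I]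
  match_scalars
  · linear_combination (1/2) * deriv τ z * I_mul_I
  · linear_combination (-1/2) * conj (deriv τ z) * I_mul_I

/-- real-linear conjugate-linear post composition exchanges `dz` and `dzb`. -/
theorem dz_star {A : Type*} [NormedAddCommGroup A] [StarAddMonoid A] [NormedStarGroup A]
    [NormedSpace ℂ A] [StarModule ℂ A] {f : ℂ → A} {z : ℂ} (hf : DifferentiableAt ℝ f z) :
    dz (fun w => star (f w)) z = star (dzb f z) := by
  have h : HasFDerivAt (fun w => star (f w))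
      (((starL' ℝ : A ≃L[ℝ] A) : A →L[ℝ] A).comp (fderiv ℝ f z)) z :=
    ((starL' ℝ : A ≃L[ℝ] A) : A →L[ℝ] A).hasFDerivAt.comp z hf.hasFDerivAt
  rw [HasFDerivAt.dz_eq h, dzb]
  simp [star_smul, sub_eq_add_neg]

theorem dzb_star {A : Type*} [NormedAddCommGroup A] [StarAddMonoid A] [NormedStarGroup A]
    [NormedSpace ℂ A] [StarModule ℂ A] {f : ℂ → A} {z : ℂ} (hf : DifferentiableAt ℝ f z) :
    dzb (fun w => star (f w)) z = star (dz f z) := by
  have h : HasFDerivAt (fun w => star (f w))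
      (((starL' ℝ : A ≃L[ℝ] A) : A →L[ℝ] A).comp (fderiv ℝ f z)) z :=
    ((starL' ℝ : A ≃L[ℝ] A) : A →L[ℝ] A).hasFDerivAt.comp z hf.hasFDerivAt
  rw [HasFDerivAt.dzb_eq h, dz]
  simp [star_smul, sub_eq_add_neg]

theorem contDiff_dzb {f : ℂ → V} {n m : ℕ∞ω} (hf : ContDiff ℝ n f) (h : m + 1 ≤ n) :
    ContDiff ℝ m (dzb f) := by
  have h1 : ContDiff ℝ m (fderiv ℝ f) := hf.fderiv_right h
  have h2 : ContDiff ℝ m (fun z => fderiv ℝ f z 1) := h1.clm_apply contDiff_const
  have h3 : ContDiff ℝ m (fun z => fderiv ℝ f z I) := h1.clm_apply contDiff_const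
  exact ((h2.add ((contDiff_const (c := I)).smul h3))).const_smul (1/2 : ℂ)

theorem contDiff_dz {f : ℂ → V} {n m : ℕ∞ω} (hf : ContDiff ℝ n f) (h : m + 1 ≤ n) :
    ContDiff ℝ m (dz f) := by
  have h1 : ContDiff ℝ m (fderiv ℝ f) := hf.fderiv_right h
  have h2 : ContDiff ℝ m (fun z => fderiv ℝ f z 1) := h1.clm_apply contDiff_const
  have h3 : ContDiff ℝ m (fun z => fderiv ℝ f z I) := h1.clm_apply contDiff_const
  exact ((h2.sub ((contDiff_const (c := I)).smul h3))).const_smul (1/2 : ℂ)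

end Pool.Agent.Lib8bb
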